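import Mathlib

/-! The Gamma integral with a complex rate. -/

namespace Pool.Agent.Lib.MP_973905_nt
namespace F4
namespace GammaC

open MeasureTheory Complex Filter Topology Set

lemma measurable_main (a r : ℂ) :
    Measurable (fun t : ℝ => (t : ℂ) ^ (a - 1) * cexp (-(r * t))) := by
  fun_prop

lemma norm_main (a r : ℂ) {t : ℝ} (ht : 0 < t) :
    ‖(t : ℂ) ^ (a - 1) * cexp (-(r * t))‖ = t ^ (a.re - 1) * Real.exp (-(r.re * t)) := by
  rw [norm_mul, norm_cpow_eq_rpow_re_of_pos ht, norm_exp]
  simp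

lemma integrable_real {x y : ℝ} (hx : 0 < x) (hy : 0 < y) :
    IntegrableOn (fun t : ℝ => t ^ (x - 1) * Real.exp (-(y * t))) (Ioi 0) := by
  have h := integrableOn_rpow_mul_exp_neg_mul_rpow (p := 1) (s := x - 1) (b := y) (by linarith)
    one_pos hy
  refine h.congr_fun (fun t _ => ?_) measurableSet_Ioi
  simp

lemma integrable_main {a r : ℂ} (ha : 0 < a.re) (hr : 0 < r.re) :
    IntegrableOn (fun t : ℝ => (t : ℂ) ^ (a - 1) * cexp (-(r * t))) (Ioi 0) := by
  refine Integrable.mono' (integrable_real ha hr) (measurable_main a r).aestronglyMeasurable ?_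
  rw [ae_restrict_iff' measurableSet_Ioi]
  exact Eventually.of_forall fun t ht => (norm_main a r ht).le

lemma differentiable_left {a : ℂ} (ha : 0 < a.re) :
    DifferentiableOn ℂ (fun r : ℂ => ∫ t in Ioi (0 : ℝ), (t : ℂ) ^ (a - 1) * cexp (-(r * t)))
      {r : ℂ | 0 < r.re} := by
  intro r₀ hr₀
  have hr₀' : 0 < r₀.re := hr₀
  apply DifferentiableAt.differentiableWithinAt
  have key := hasDerivAt_integral_of_dominated_loc_of_deriv_le
    (μ := volume.restrict (Ioi (0 : ℝ)))
    (F := fun (r : ℂ) (t : ℝ) => (t : ℂ) ^ (a - 1) * cexp (-(r * t)))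
    (F' := fun (r : ℂ) (t : ℝ) => (t : ℂ) ^ (a - 1) * (cexp (-(r * t)) * (-t)))
    (x₀ := r₀) (s := Metric.ball r₀ (r₀.re / 2))
    (bound := fun t : ℝ => t ^ ((a.re + 1) - 1) * Real.exp (-((r₀.re / 2) * t)))
    (Metric.ball_mem_nhds _ (by linarith))
    (Eventually.of_forall fun r => (measurable_main a r).aestronglyMeasurable)
    (integrable_main ha hr₀')
    (by
      have : Measurable (fun t : ℝ => (t : ℂ) ^ (a - 1) * (cexp (-(r₀ * t)) * (-t))) := by
        fun_prop
      exact this.aestronglyMeasurable)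
    (by
      rw [ae_restrict_iff' measurableSet_Ioi]
      refine Eventually.of_forall fun t ht r hr => ?_
      have ht' : 0 < t := ht
      have hre : r₀.re / 2 ≤ r.re := by
        have h1 : |(r - r₀).re| ≤ ‖r - r₀‖ := abs_re_le_norm _
        have h2 : ‖r - r₀‖ < r₀.re / 2 := by simpa [dist_eq_norm] using hr
        have h3 := (abs_lt.1 (h1.trans_lt h2)).1
        rw [sub_re] at h3
        linarith
      rw [← mul_assoc, norm_mul, norm_main a r ht', norm_neg, norm_real, Real.norm_eq_abs,
        abs_of_pos ht']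
      have e1 : t ^ ((a.re + 1) - 1) = t ^ (a.re - 1) * t := by
        rw [← Real.rpow_add_one ht'.ne']; congr 1; ring
      rw [e1]
      have e2 : Real.exp (-(r.re * t)) ≤ Real.exp (-((r₀.re / 2) * t)) := by
        apply Real.exp_le_exp.2
        nlinarith
      have h0 : 0 ≤ t ^ (a.re - 1) := Real.rpow_nonneg ht'.le _
      calc t ^ (a.re - 1) * Real.exp (-(r.re * t)) * t
          = (t ^ (a.re - 1) * t) * Real.exp (-(r.re * t)) := by ring
        _ ≤ (t ^ (a.re - 1) * t) * Real.exp (-((r₀.re / 2) * t)) := by gcongr)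
    (integrable_real (by linarith) (by linarith))
    (by
      refine Eventually.of_forall fun t r _ => ?_
      have h1 : HasDerivAt (fun r : ℂ => -(r * (t : ℂ))) (-t) r := by
        have h := ((hasDerivAt_id r).mul_const (t : ℂ)).fun_neg
        simpa only [id, one_mul] using h
      exact (h1.cexp).const_mul _)
  exact key.2.differentiableAt

lemma inv_mem_slitPlane {r : ℂ} (hr : 0 < r.re) : 1 / r ∈ slitPlane := by
  left
  rw [one_div, inv_re]
  have : 0 < normSq r := normSq_pos.2 (fun h => by rw [h] at hr; simp at hr)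
  positivity

/-- The Gamma integral with a complex rate. -/
theorem gammaC {a r : ℂ} (ha : 0 < a.re) (hr : 0 < r.re) :
    ∫ t in Ioi (0 : ℝ), (t : ℂ) ^ (a - 1) * cexp (-(r * t)) = (1 / r) ^ a * Gamma a := by
  have hopen : IsOpen {r : ℂ | 0 < r.re} := isOpen_lt continuous_const continuous_re
  have hf := (differentiable_left ha).analyticOnNhd hopen
  have hg : AnalyticOnNhd ℂ (fun r : ℂ => (1 / r) ^ a * Gamma a) {r : ℂ | 0 < r.re} := by
    apply DifferentiableOn.analyticOnNhd _ hopen
    intro r hr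
    apply DifferentiableAt.differentiableWithinAt
    have hr' : 0 < r.re := hr
    have hr0 : r ≠ 0 := fun h => by rw [h] at hr'; simp at hr'
    have h1 : DifferentiableAt ℂ (fun r : ℂ => 1 / r) r := by
      simpa [one_div] using differentiableAt_inv hr0
    exact (h1.cpow (differentiableAt_const _) (inv_mem_slitPlane hr')).mul_const _
  have hconn : IsPreconnected {r : ℂ | 0 < r.re} :=
    (convex_halfSpace_re_gt 0).isPreconnected
  have h1 : (1 : ℂ) ∈ {r : ℂ | 0 < r.re} := by simp
  have htend : Tendsto (fun n : ℕ => (1 : ℂ) + 1 / ((n : ℂ) + 1)) atTop (𝓝[≠] 1) := by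
    rw [tendsto_nhdsWithin_iff]
    constructor
    · have := (tendsto_one_div_add_atTop_nhds_zero_nat (𝕜 := ℂ)).const_add 1
      simpa using this
    · refine Eventually.of_forall fun n => ?_
      have : (n : ℂ) + 1 ≠ 0 := Nat.cast_add_one_ne_zero n
      simp [this]
  have hfreq : ∃ᶠ z in 𝓝[≠] (1 : ℂ),
      (fun r : ℂ => ∫ t in Ioi (0 : ℝ), (t : ℂ) ^ (a - 1) * cexp (-(r * t))) z =
      (fun r : ℂ => (1 / r) ^ a * Gamma a) z := by
    apply htend.frequently
    apply Eventually.frequently
    refine Eventually.of_forall fun n => ?_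
    have hpos : (0 : ℝ) < 1 + 1 / ((n : ℝ) + 1) := by positivity
    have := integral_cpow_mul_exp_neg_mul_Ioi ha hpos
    simp only
    have e : (1 : ℂ) + 1 / ((n : ℂ) + 1) = ((1 + 1 / ((n : ℝ) + 1) : ℝ) : ℂ) := by push_cast; rfl
    rw [e]
    exact this
  exact hf.eqOn_of_preconnected_of_frequently_eq hg hconn h1 hfreq hr

end GammaC
end F4
end Pool.Agent.Lib.MP_973905_nt
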