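import Pool.Agent.Lib.MP_973905_nt.F4.AfeZeta

/-! The approximate functional equation as an inequality. -/

namespace Pool.Agent.Lib.MP_973905_nt
namespace F4

open MeasureTheory ProbabilityTheory Complex Filter Topology K1 Set

namespace Afe

lemma line_shift {m : ℂ → ℂ} {x₀ B : ℝ} (hx : 0 < x₀) (hxB : x₀ ≤ B)
    (hd : DifferentiableOn ℂ m {w : ℂ | 0 < w.re}) (hE : EG x₀ B m) :
    (Integrable fun v : ℝ => cexp (2 * ((x₀ : ℂ) + v * I) ^ 2) * m (x₀ + v * I) *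
      ((x₀ : ℂ) + v * I)⁻¹) ∧
    (Integrable fun v : ℝ => cexp (2 * ((B : ℂ) + v * I) ^ 2) * m (B + v * I) *
      ((B : ℂ) + v * I)⁻¹) ∧
    ∫ v : ℝ, cexp (2 * ((B : ℂ) + v * I) ^ 2) * m (B + v * I) * ((B : ℂ) + v * I)⁻¹ =
      ∫ v : ℝ, cexp (2 * ((x₀ : ℂ) + v * I) ^ 2) * m (x₀ + v * I) * ((x₀ : ℂ) + v * I)⁻¹ := by
  set Kf : ℂ → ℂ := fun w => cexp (2 * w ^ 2) * m w * w⁻¹ with hK
  have hKd : DifferentiableOn ℂ Kf {w : ℂ | 0 < w.re} := by
    intro w hw
    have hw0 : w ≠ 0 := by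
      intro h
      rw [h] at hw
      simp at hw
    have h1 : DifferentiableAt ℂ (fun w : ℂ => cexp (2 * w ^ 2)) w := by fun_prop
    have h2 : DifferentiableAt ℂ (fun w : ℂ => w⁻¹) w := differentiableAt_inv hw0
    exact (h1.differentiableWithinAt.mul (hd w hw)).mul h2.differentiableWithinAt
  obtain ⟨M, hM, hMb⟩ := hE.gauss
  have hb : ∀ x : ℝ, x₀ ≤ x → x ≤ B → ∀ t : ℝ,
      ‖Kf (x + t * I)‖ ≤ (M * x₀⁻¹) * Real.exp (-1 * (t - 0) ^ 2) := by
    intro x h1 h2 t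
    have e : (x + t * I : ℂ).im = t := by simp
    have e' : (x + t * I : ℂ).re = x := by simp
    have h3 := hMb (x + t * I) (by rw [e']; exact h1) (by rw [e']; exact h2)
    rw [e] at h3
    rw [show (-1 : ℝ) * (t - 0) ^ 2 = -t ^ 2 by ring]
    have h4 : x₀ ≤ ‖(x + t * I : ℂ)‖ := by
      have := Complex.abs_re_le_norm (x + t * I : ℂ)
      rw [e', abs_of_pos (by linarith)] at this
      linarith
    rw [hK]
    simp only
    rw [norm_mul, norm_inv]
    calc ‖cexp (2 * ((x : ℂ) + t * I) ^ 2) * m (x + t * I)‖ * ‖(x + t * I : ℂ)‖⁻¹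
        ≤ (M * Real.exp (-t ^ 2)) * x₀⁻¹ := by gcongr
      _ = _ := by ring
  have hint : Integrable fun t : ℝ => (M * x₀⁻¹) * Real.exp (-1 * (t - 0) ^ 2) :=
    ((integrable_exp_neg_mul_sq one_pos).comp_sub_right 0).const_mul _
  obtain ⟨ht1, ht2⟩ := Shift.tendsto_gauss (K := M * x₀⁻¹) (b := 1) (τ := 0) one_pos
  have hcont : ∀ x : ℝ, 0 < x → Continuous fun t : ℝ => Kf (x + t * I) := by
    intro x hx
    apply hKd.continuousOn.comp_continuous (by fun_prop)
    intro t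
    simpa using hx
  have hBpos : 0 < B := by linarith
  refine ⟨hint.mono' (hcont x₀ hx).aestronglyMeasurable
    (Eventually.of_forall fun t => hb x₀ le_rfl hxB t),
    hint.mono' (hcont B hBpos).aestronglyMeasurable
    (Eventually.of_forall fun t => hb B hxB le_rfl t), ?_⟩
  refine Shift.vshift (h := Kf) (α := 0) (β := B + 1) (σ₁ := B) (σ₂ := x₀) hBpos (by linarith)
    hx (by linarith) (hKd.mono fun w hw => hw.1) hint ht1 ht2 ?_
  intro x hx' t
  rw [uIcc_of_ge hxB, mem_Icc] at hx'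
  exact hb x hx'.1 hx'.2 t

lemma Q0_conj (T : ℝ) (z : ℂ) : Q0 T (starRingEnd ℂ z) = starRingEnd ℂ (Q0 T z) := by
  unfold Q0
  rw [map_sum]
  refine Finset.sum_congr rfl fun n hn => ?_
  rw [map_mul, conj_ofReal]
  congr 1
  rw [← map_neg]
  have h : (n : ℂ) = ((n : ℝ) : ℂ) := by push_cast; rfl
  rw [h, cpow_conj _ _ (by
    rw [arg_ofReal_of_nonneg (Nat.cast_nonneg n)]
    exact Real.pi_ne_zero.symm), conj_ofReal]

lemma Q0_eq {T t v : ℝ} : Q0 T (1 / 2 + t * I + (((1 / Real.log T : ℝ) : ℂ) + v * I)) =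
    ∑ n ∈ Finset.Icc 1 ⌊T⌋₊, qc T v n * fs (1 / 2 + t * I) n := by
  unfold Q0 qc fs
  refine Finset.sum_congr rfl fun n hn => ?_
  rw [Finset.mem_Icc] at hn
  have hn0 : (n : ℂ) ≠ 0 := by
    have : n ≠ 0 := by omega
    exact_mod_cast this
  rw [neg_add, cpow_add _ _ hn0]
  ring

lemma pow_le_exp_sq (m : ℕ) (v : ℝ) : (1 + |v|) ^ m ≤ Real.exp (m ^ 2 / 4) * Real.exp (v ^ 2) := by
  have h1 : 1 + |v| ≤ Real.exp |v| := by linarith [Real.add_one_le_exp |v|]
  calc (1 + |v|) ^ m ≤ (Real.exp |v|) ^ m := by gcongr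
    _ = Real.exp (m * |v|) := by rw [← Real.exp_nat_mul]
    _ ≤ Real.exp (m ^ 2 / 4 + v ^ 2) := by
        apply Real.exp_le_exp.2
        have := sq_nonneg ((m : ℝ) / 2 - |v|)
        have h2 := sq_abs v
        nlinarith
    _ = _ := Real.exp_add _ _

lemma norm_p {s w : ℂ} (hs : 1 ≤ ‖s - 1‖) : ‖(s + w - 1) / (s - 1)‖ ≤ 1 + ‖w‖ := by
  have h0 : s - 1 ≠ 0 := by
    intro h
    rw [h, norm_zero] at hs
    linarith
  have h1 : (s + w - 1) / (s - 1) = 1 + w / (s - 1) := by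
    field_simp
    ring
  rw [h1]
  calc ‖1 + w / (s - 1)‖ ≤ ‖(1 : ℂ)‖ + ‖w / (s - 1)‖ := norm_add_le _ _
    _ = 1 + ‖w‖ / ‖s - 1‖ := by rw [norm_one, norm_div]
    _ ≤ 1 + ‖w‖ := by
        gcongr
        exact div_le_self (norm_nonneg _) hs

lemma norm_exp_line (x v : ℝ) : ‖cexp (2 * ((x : ℂ) + v * I) ^ 2)‖ =
    Real.exp (2 * x ^ 2) * Real.exp (-2 * v ^ 2) := by
  rw [norm_exp, ← Real.exp_add]
  congr 1
  simp [pow_two]
  ring

/-- Cauchy-Schwarz -/
lemma cs {a q : ℝ → ℝ} (ha : ∀ v, 0 ≤ a v) (h0 : Integrable a) (h1 : Integrable fun v => a v * q v)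
    (h2 : Integrable fun v => a v * q v ^ 2) (h4 : ∫ v, a v ≤ 4) :
    (∫ v, a v * q v) ^ 2 ≤ 4 * ∫ v, a v * q v ^ 2 := by
  set J := ∫ v, a v * q v with hJ
  have h5 : 0 ≤ ∫ v, a v * (q v - J / 4) ^ 2 :=
    integral_nonneg fun v => mul_nonneg (ha v) (sq_nonneg _)
  have h6 : ∀ v, a v * (q v - J / 4) ^ 2 = a v * q v ^ 2 - J / 2 * (a v * q v) +
      J ^ 2 / 16 * a v := by
    intro v
    ring
  have h7 : ∫ v, a v * (q v - J / 4) ^ 2 = (∫ v, a v * q v ^ 2) - J / 2 * J +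
      J ^ 2 / 16 * ∫ v, a v := by
    simp only [h6]
    have i1 : Integrable (fun v => a v * q v ^ 2 - J / 2 * (a v * q v)) := h2.sub (h1.const_mul _)
    have i2 : Integrable (fun v => J ^ 2 / 16 * a v) := h0.const_mul _
    rw [integral_add i1 i2, integral_sub h2 (h1.const_mul _), integral_const_mul,
      integral_const_mul]
  rw [h7] at h5
  nlinarith [sq_nonneg J]

/-- the weight -/
noncomputable def aw (L : ℝ) (K : ℕ) (v : ℝ) : ℝ := L * (((1 + L * |v|) ^ K)⁻¹ * Real.exp (-v ^ 2))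

lemma aw_nonneg {L : ℝ} (hL : 0 ≤ L) (K : ℕ) (v : ℝ) : 0 ≤ aw L K v := by
  unfold aw
  positivity

lemma aw_cont {L : ℝ} (hL : 0 ≤ L) (K : ℕ) : Continuous (aw L K) := by
  unfold aw
  apply Continuous.mul continuous_const
  apply Continuous.mul _ (by fun_prop)
  apply Continuous.inv₀ (by fun_prop)
  intro v
  positivity

lemma aw_le {L : ℝ} (hL : 0 ≤ L) (K : ℕ) (v : ℝ) : aw L K v ≤ L * Real.exp (-1 * v ^ 2) := by
  unfold aw
  have h1 : ((1 + L * |v|) ^ K)⁻¹ ≤ 1 := by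
    apply inv_le_one_of_one_le₀
    apply one_le_pow₀
    have : 0 ≤ L * |v| := by positivity
    linarith
  rw [show (-1 : ℝ) * v ^ 2 = -v ^ 2 by ring]
  calc L * (((1 + L * |v|) ^ K)⁻¹ * Real.exp (-v ^ 2)) ≤ L * (1 * Real.exp (-v ^ 2)) := by gcongr
    _ = _ := by ring

lemma aw_int {L : ℝ} (hL : 0 ≤ L) (K : ℕ) : Integrable (aw L K) := by
  refine ((integrable_exp_neg_mul_sq one_pos).const_mul L).mono'
    (aw_cont hL K).aestronglyMeasurable (Eventually.of_forall fun v => ?_)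
  rw [Real.norm_eq_abs, abs_of_nonneg (aw_nonneg hL K v)]
  exact aw_le hL K v

lemma aw_total {L : ℝ} (hL : 0 < L) {K : ℕ} (hK : 2 ≤ K) : ∫ v, aw L K v ≤ 4 := by
  have h1 : ∀ v, aw L K v ≤ L * (1 + (L * v) ^ 2)⁻¹ := by
    intro v
    unfold aw
    have h2 : 1 + (L * v) ^ 2 ≤ (1 + L * |v|) ^ K := by
      have h3 : 1 ≤ 1 + L * |v| := by
        have : 0 ≤ L * |v| := by positivity
        linarith
      calc 1 + (L * v) ^ 2 ≤ (1 + L * |v|) ^ 2 := by
            have h4 := sq_abs v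
            have h5 : 0 ≤ L * |v| := by positivity
            rw [mul_pow, ← h4]
            have h6 : (1 + L * |v|) ^ 2 = 1 + 2 * (L * |v|) + L ^ 2 * |v| ^ 2 := by ring
            rw [h6]
            linarith
        _ ≤ (1 + L * |v|) ^ K := pow_le_pow_right₀ h3 hK
    have h6 : Real.exp (-v ^ 2) ≤ 1 := Real.exp_le_one_iff.2 (by nlinarith [sq_nonneg v])
    calc L * (((1 + L * |v|) ^ K)⁻¹ * Real.exp (-v ^ 2))
        ≤ L * ((1 + (L * v) ^ 2)⁻¹ * 1) := by gcongr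
      _ = _ := by ring
  have hi : Integrable fun v : ℝ => L * (1 + (L * v) ^ 2)⁻¹ :=
    (integrable_inv_one_add_sq.comp_mul_left' hL.ne').const_mul L
  have h2 : ∫ v : ℝ, L * (1 + (L * v) ^ 2)⁻¹ = Real.pi := by
    rw [integral_const_mul, Measure.integral_comp_mul_left (fun x : ℝ => (1 + x ^ 2)⁻¹) L,
      integral_univ_inv_one_add_sq, abs_of_pos (by positivity), smul_eq_mul]
    field_simp
  calc ∫ v, aw L K v ≤ ∫ v : ℝ, L * (1 + (L * v) ^ 2)⁻¹ :=
        integral_mono (aw_int hL.le K) hi h1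
    _ = Real.pi := h2
    _ ≤ 4 := Real.pi_le_four

/-- The two kernels on the line `Re w = 1 / L`. -/
lemma gi_line {L κ : ℝ} {K : ℕ} (hL : 1 ≤ L) (hκ : 0 < κ) (hκ1 : κ ≤ 1) (v : ℝ) :
    ‖gi L κ K ((1 / L : ℝ) + v * I)‖ ≤
      Real.exp (1 / 2) * (4 * Real.exp κ / κ) ^ K * ((1 + L * |v|) ^ K)⁻¹ ∧
    ‖gi L κ K (-((1 / L : ℝ) + v * I))‖ ≤
      Real.exp (1 / 2) * (4 * Real.exp κ / κ) ^ K * ((1 + L * |v|) ^ K)⁻¹ := by
  have hL0 : 0 < L := by linarith
  set w : ℂ := ((1 / L : ℝ) : ℂ) + v * I with hw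
  have hre : w.re = 1 / L := by simp [hw]
  have him : w.im = v := by simp [hw]
  have hn : |v| ≤ ‖w‖ := by
    have := abs_im_le_norm w
    rwa [him] at this
  have h1 : κ * (1 + L * |v|) ≤ 1 + κ * L * ‖w‖ := by
    have : κ * L * |v| ≤ κ * L * ‖w‖ := by gcongr
    nlinarith
  have h2 : 0 < 1 + L * |v| := by positivity
  have hkey : ∀ y : ℝ, y ≤ κ → 4 * Real.exp y / (1 + κ * L * ‖w‖) ≤
      4 * Real.exp κ / κ * (1 + L * |v|)⁻¹ := by
    intro y hy
    rw [div_mul_eq_mul_div, ← div_eq_mul_inv, div_div, mul_comm (1 + L * |v|) κ]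
    gcongr
  have hpow : ∀ y : ℝ, y ≤ κ → (4 * Real.exp y / (1 + κ * L * ‖w‖)) ^ K ≤
      (4 * Real.exp κ / κ) ^ K * ((1 + L * |v|) ^ K)⁻¹ := by
    intro y hy
    rw [← inv_pow, ← mul_pow]
    have h0 : 0 ≤ 4 * Real.exp y / (1 + κ * L * ‖w‖) := by positivity
    exact pow_le_pow_left₀ h0 (hkey y hy) K
  constructor
  · refine (gi_norm L κ K w hL0.le hκ.le).trans ?_
    rw [hre, max_eq_left (by positivity), mul_assoc (Real.exp (1 / 2))]
    have e1 : L * (1 / L) / 2 = 1 / 2 := by field_simp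
    have e2 : κ * L * (1 / L) = κ := by field_simp
    rw [e1, e2]
    have := hpow κ le_rfl
    gcongr
  · refine (gi_norm L κ K (-w) hL0.le hκ.le).trans ?_
    rw [neg_re, hre, norm_neg, mul_assoc (Real.exp (1 / 2))]
    have e0 : max (-(1 / L)) 0 = 0 := max_eq_right (by
      have : 0 < 1 / L := by positivity
      linarith)
    rw [e0, mul_zero]
    have e1 : Real.exp (L * -(1 / L) / 2) ≤ Real.exp (1 / 2) := by
      apply Real.exp_le_exp.2
      have : L * -(1 / L) / 2 = -(1 / 2) := by field_simp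
      rw [this]
      norm_num
    have := hpow 0 hκ.le
    gcongr

lemma main1 {L κ q v : ℝ} {K : ℕ} {F w : ℂ} (hL : 1 ≤ L) (hκ : 0 < κ) (hw : w = ((1 / L : ℝ) : ℂ) + v * I) {D : ℝ} (hD : 0 ≤ D) {j : ℕ}
    (hF : ‖F‖ ≤ D * (1 + |v|) ^ j * q) (hq : 0 ≤ q) {g : ℂ}
    (hg : ‖g‖ ≤ Real.exp (1 / 2) * (4 * Real.exp κ / κ) ^ K * ((1 + L * |v|) ^ K)⁻¹) {P : ℂ}
    (hP : ‖P‖ ≤ 1 + ‖w‖) :
    ‖cexp (2 * w ^ 2) * (F * P * g) * w⁻¹‖ ≤
      (2 * Real.exp 2 * Real.exp (((j + 1 : ℕ) : ℝ) ^ 2 / 4) * Real.exp (1 / 2) *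
        (4 * Real.exp κ / κ) ^ K * D) * (aw L K v * q) := by
  have hL0 : 0 < L := by linarith
  have hre : w.re = 1 / L := by rw [hw]; simp
  have him : w.im = v := by rw [hw]; simp
  have h1L : 1 / L ≤ 1 := by rw [div_le_one hL0]; exact hL
  have h1L0 : 0 < 1 / L := by positivity
  have hwn : ‖w‖ ≤ 1 + |v| := by
    have := norm_le_abs_re_add_abs_im w
    rw [hre, him, abs_of_pos h1L0] at this
    linarith
  have hwn2 : 1 / L ≤ ‖w‖ := by
    have := abs_re_le_norm w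
    rwa [hre, abs_of_pos h1L0] at this
  have hinv : ‖w⁻¹‖ ≤ L := by
    rw [norm_inv]
    calc ‖w‖⁻¹ ≤ (1 / L)⁻¹ := by gcongr
      _ = L := by rw [one_div, inv_inv]
  have hP' : ‖P‖ ≤ 2 * (1 + |v|) := by
    have := abs_nonneg v
    linarith
  have he : ‖cexp (2 * w ^ 2)‖ ≤ Real.exp 2 * Real.exp (-2 * v ^ 2) := by
    rw [hw, norm_exp_line]
    gcongr
    have : (1 / L) ^ 2 ≤ 1 := pow_le_one₀ h1L0.le h1L
    linarith
  have hv : (1 + |v|) ^ (j + 1) ≤ Real.exp (((j + 1 : ℕ) : ℝ) ^ 2 / 4) * Real.exp (v ^ 2) :=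
    pow_le_exp_sq (j + 1) v
  set E : ℝ := (4 * Real.exp κ / κ) ^ K with hE
  have hE0 : 0 ≤ E := by positivity
  set R : ℝ := ((1 + L * |v|) ^ K)⁻¹ with hR
  have hR0 : 0 ≤ R := by positivity
  rw [norm_mul, norm_mul, norm_mul, norm_mul]
  calc ‖cexp (2 * w ^ 2)‖ * (‖F‖ * ‖P‖ * ‖g‖) * ‖w⁻¹‖
      ≤ (Real.exp 2 * Real.exp (-2 * v ^ 2)) * ((D * (1 + |v|) ^ j * q) * (2 * (1 + |v|)) *
        (Real.exp (1 / 2) * E * R)) * L := by gcongr
    _ = (2 * Real.exp 2 * Real.exp (1 / 2) * E * D) * (L * R * q) *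
        (Real.exp (-2 * v ^ 2) * (1 + |v|) ^ (j + 1)) := by
        rw [pow_succ]
        ring
    _ ≤ (2 * Real.exp 2 * Real.exp (1 / 2) * E * D) * (L * R * q) *
        (Real.exp (-2 * v ^ 2) * (Real.exp (((j + 1 : ℕ) : ℝ) ^ 2 / 4) * Real.exp (v ^ 2))) := by
        gcongr
    _ = _ := by
        have e1 : Real.exp (-2 * v ^ 2) * Real.exp (v ^ 2) = Real.exp (-v ^ 2) := by
          rw [← Real.exp_add]
          congr 1
          ring
        unfold aw
        rw [← e1]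
        ring

lemma FF_line {L t v : ℝ} (hL : 1 ≤ L) (ht : 0 ≤ t) (ht2 : 1 + t ≤ Real.exp (3 * L)) :
    ‖FF (1 - (1 / 2 + t * I) + (((1 / L : ℝ) : ℂ) + v * I))‖ ≤
      (Real.exp (9 / 4) * Real.exp 3) * (1 + |v|) := by
  have hL0 : 0 < L := by linarith
  have h1L : 1 / L ≤ 1 := by rw [div_le_one hL0]; exact hL
  have h1L0 : 0 < 1 / L := by positivity
  have h1 := FF_bound h1L0.le h1L (v - t)
  have e : (1 - (1 / 2 + t * I) + (((1 / L : ℝ) : ℂ) + v * I) : ℂ) =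
      ((1 / 2 + 1 / L : ℝ) : ℂ) + ((v - t : ℝ) : ℂ) * I := by
    push_cast
    ring
  rw [e]
  refine h1.trans ?_
  rw [mul_assoc]
  have h2 : 1 + |v - t| ≤ (1 + t) * (1 + |v|) := by
    have h3 : |v - t| ≤ |v| + t := by
      have := abs_sub v t
      rwa [abs_of_nonneg ht] at this
    have := abs_nonneg v
    nlinarith
  have h3 : (1 + |v - t|) ^ (1 / L) ≤ Real.exp 3 * (1 + |v|) := by
    calc (1 + |v - t|) ^ (1 / L) ≤ ((1 + t) * (1 + |v|)) ^ (1 / L) := by gcongr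
      _ = (1 + t) ^ (1 / L) * (1 + |v|) ^ (1 / L) := by
          rw [Real.mul_rpow (by positivity) (by positivity)]
      _ ≤ Real.exp (3 * L) ^ (1 / L) * (1 + |v|) ^ (1 : ℝ) := by
          gcongr
          linarith [abs_nonneg v]
      _ = _ := by
          rw [← Real.exp_mul, Real.rpow_one]
          congr 2
          field_simp
  gcongr

lemma tail1 {B v ρ γ : ℝ} {R P g w : ℂ} (hB : 1 ≤ B) (hw : w = (B : ℂ) + v * I) {j : ℕ}
    (hρ : 0 ≤ ρ) (hR : ‖R‖ ≤ ρ * (1 + |v|) ^ j) (hg : ‖g‖ ≤ γ) (hP : ‖P‖ ≤ 1 + ‖w‖) :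
    ‖cexp (2 * w ^ 2) * (R * P * g) * w⁻¹‖ ≤
      (Real.exp (2 * B ^ 2) * (1 + B) * Real.exp (((j + 1 : ℕ) : ℝ) ^ 2 / 4)) * (ρ * γ) *
        Real.exp (-1 * v ^ 2) := by
  have hγ : 0 ≤ γ := (norm_nonneg g).trans hg
  have hB0 : 0 < B := by linarith
  have hre : w.re = B := by rw [hw]; simp
  have him : w.im = v := by rw [hw]; simp
  have hwn : ‖w‖ ≤ B + |v| := by
    have := norm_le_abs_re_add_abs_im w
    rwa [hre, him, abs_of_pos hB0] at this
  have hwn2 : B ≤ ‖w‖ := by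
    have := abs_re_le_norm w
    rwa [hre, abs_of_pos hB0] at this
  have hinv : ‖w⁻¹‖ ≤ 1 := by
    rw [norm_inv]
    exact inv_le_one_of_one_le₀ (hB.trans hwn2)
  have hP' : ‖P‖ ≤ (1 + B) * (1 + |v|) := by
    have := abs_nonneg v
    nlinarith
  have he : ‖cexp (2 * w ^ 2)‖ ≤ Real.exp (2 * B ^ 2) * Real.exp (-2 * v ^ 2) := by
    rw [hw, norm_exp_line]
  have hv : (1 + |v|) ^ (j + 1) ≤ Real.exp (((j + 1 : ℕ) : ℝ) ^ 2 / 4) * Real.exp (v ^ 2) :=
    pow_le_exp_sq (j + 1) v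
  rw [norm_mul, norm_mul, norm_mul, norm_mul]
  calc ‖cexp (2 * w ^ 2)‖ * (‖R‖ * ‖P‖ * ‖g‖) * ‖w⁻¹‖
      ≤ (Real.exp (2 * B ^ 2) * Real.exp (-2 * v ^ 2)) * ((ρ * (1 + |v|) ^ j) *
        ((1 + B) * (1 + |v|)) * γ) * 1 := by gcongr
    _ = (Real.exp (2 * B ^ 2) * (1 + B) * (ρ * γ)) *
        (Real.exp (-2 * v ^ 2) * (1 + |v|) ^ (j + 1)) := by
        rw [pow_succ]
        ring
    _ ≤ (Real.exp (2 * B ^ 2) * (1 + B) * (ρ * γ)) *
        (Real.exp (-2 * v ^ 2) * (Real.exp (((j + 1 : ℕ) : ℝ) ^ 2 / 4) * Real.exp (v ^ 2))) := by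
        gcongr
    _ = _ := by
        have e1 : Real.exp (-2 * v ^ 2) * Real.exp (v ^ 2) = Real.exp (-1 * v ^ 2) := by
          rw [← Real.exp_add]
          congr 1
          ring
        rw [← e1]
        ring

lemma Q0_bound (T a : ℝ) : ∃ M : ℝ, 0 ≤ M ∧ ∀ w : ℂ, a ≤ w.re → ‖Q0 T w‖ ≤ M := by
  refine ⟨∑ n ∈ Finset.Icc 1 ⌊T⌋₊, (n : ℝ) ^ (-a), Finset.sum_nonneg fun n _ => by positivity,
    fun w hw => ?_⟩
  unfold Q0
  refine (norm_sum_le _ _).trans (Finset.sum_le_sum fun n hn => ?_)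
  rw [Finset.mem_Icc] at hn
  have hn1 : (1 : ℝ) ≤ n := by exact_mod_cast hn.1
  rw [norm_mul, norm_natCast_cpow_of_pos (by omega), neg_re, norm_real, Real.norm_eq_abs,
    abs_of_nonneg (Vc_nonneg _)]
  calc Vc (Real.log n / Real.log T) * (n : ℝ) ^ (-w.re)
      ≤ 1 * (n : ℝ) ^ (-a) := by
        gcongr
        exact Vc_le_one _
    _ = _ := one_mul _

/-- size of the kernels on the lines `Re w = B` and `Re w = -B` -/
lemma gi_far {L κ B v : ℝ} {K : ℕ} (hL : 0 ≤ L) (hκ : 0 ≤ κ) (hB : 0 ≤ B) :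
    ‖gi L κ K ((B : ℂ) + v * I)‖ ≤ 4 ^ K * Real.exp (L * B / 2 + κ * L * B * K) ∧
    ‖gi L κ K (-((B : ℂ) + v * I))‖ ≤ 4 ^ K * Real.exp (-(L * B / 2)) := by
  set w : ℂ := (B : ℂ) + v * I with hw
  have hre : w.re = B := by simp [hw]
  have h1 : (1 : ℝ) ≤ 1 + κ * L * ‖w‖ := by
    have : 0 ≤ κ * L * ‖w‖ := by positivity
    linarith
  constructor
  · refine (gi_norm L κ K w hL hκ).trans ?_
    rw [hre, max_eq_left hB]
    calc Real.exp (L * B / 2) * (4 * Real.exp (κ * L * B) / (1 + κ * L * ‖w‖)) ^ K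
        ≤ Real.exp (L * B / 2) * (4 * Real.exp (κ * L * B)) ^ K := by
          gcongr
          exact div_le_self (by positivity) h1
      _ = _ := by
          rw [mul_pow, ← Real.exp_nat_mul, Real.exp_add]
          ring_nf
  · refine (gi_norm L κ K (-w) hL hκ).trans ?_
    rw [neg_re, hre, norm_neg, max_eq_right (by linarith : -B ≤ 0), mul_zero, Real.exp_zero,
      mul_one]
    have e1 : L * -B / 2 = -(L * B / 2) := by ring
    rw [e1, mul_comm (4 ^ K : ℝ)]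
    gcongr
    exact div_le_self (by norm_num) h1

lemma int3 {f g k : ℝ → ℂ} (hf : Integrable f) (hg : Integrable g) (hk : Integrable k) :
    ∫ v, (f v + g v + k v) = (∫ v, f v) + (∫ v, g v) + ∫ v, k v := by
  have h1 : Integrable (fun v => f v + g v) := hf.add hg
  rw [integral_add h1 hk, integral_add hf hg]

/-- The decomposition of zeta. -/
lemma core {A r : ℕ} (hr : r = 10000) {CF : ℝ} (hCF : 0 < CF) (hFF : ∀ u : ℝ,
    ‖FF (1 / 2 + 2 * r + u * I)‖ ≤ CF * (1 + |u|) ^ (2 * r)) : ∃ C₂ C₁ : ℝ, 0 < C₂ ∧ 0 < C₁ ∧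
    ∀ T : ℝ, 3 ≤ T → ∀ t : ℝ, 1 ≤ t → t ≤ 2 * T ^ (1 + 1 / 10000 : ℝ) →
    ‖riemannZeta (1 / 2 + t * I)‖ ≤ C₂ * (∫ v : ℝ, aw (Real.log T) (A + 2) v *
      ‖Q0 T (1 / 2 + t * I + (((1 / Real.log T : ℝ) : ℂ) + v * I))‖) +
      C₁ * Real.exp (-(6 * Real.log T)) := by
  set K : ℕ := A + 2 with hK
  have hKpos : (0 : ℝ) < K := by
    rw [hK]
    positivity
  set κ : ℝ := 1 / (8000 * K) with hκd
  have hκ : 0 < κ := by positivity
  have hκ1 : κ ≤ 1 := by
    rw [hκd, div_le_one (by positivity)]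
    have : (1 : ℝ) ≤ K := by
      rw [hK]
      push_cast
      have : (0 : ℝ) ≤ A := Nat.cast_nonneg A
      linarith
    linarith
  have hκK : κ * K = 1 / 8000 := by
    rw [hκd]
    field_simp
  set B : ℝ := 2 * (r : ℝ) with hBd
  have hBv : B = 20000 := by
    rw [hBd, hr]
    norm_num
  have hB1 : 1 ≤ B := by rw [hBv]; norm_num
  have hB0 : 0 < B := by linarith
  set E : ℝ := (4 * Real.exp κ / κ) ^ K with hE
  have hE0 : 0 < E := by positivity
  set a₁ : ℝ := 2 * Real.exp 2 * Real.exp (((0 + 1 : ℕ) : ℝ) ^ 2 / 4) * Real.exp (1 / 2) * E * 1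
    with ha₁
  set a₂ : ℝ := 2 * Real.exp 2 * Real.exp (((1 + 1 : ℕ) : ℝ) ^ 2 / 4) * Real.exp (1 / 2) * E *
    (Real.exp (9 / 4) * Real.exp 3) with ha₂
  have ha₁0 : 0 < a₁ := by positivity
  have ha₂0 : 0 < a₂ := by positivity
  set b₁ : ℝ := (Real.exp (2 * B ^ 2) * (1 + B) * Real.exp (((0 + 1 : ℕ) : ℝ) ^ 2 / 4)) *
    (2 * 4 ^ K) with hb₁
  set b₂ : ℝ := (Real.exp (2 * B ^ 2) * (1 + B) * Real.exp (((2 * r + 1 : ℕ) : ℝ) ^ 2 / 4)) *
    (CF * 3 ^ (2 * r) * 2 * 4 ^ K) with hb₂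
  have hb₁0 : 0 < b₁ := by positivity
  have hb₂0 : 0 < b₂ := by positivity
  refine ⟨a₁ + a₂, 2 * (b₁ + b₂), by positivity, by positivity, fun T hT t ht ht2 => ?_⟩
  have hT0 : 0 < T := by linarith
  have hT1 : 1 < T := by linarith
  set L : ℝ := Real.log T with hLd
  have hL1 : 1 ≤ L := by
    rw [hLd, Real.le_log_iff_exp_le hT0]
    linarith [Real.exp_one_lt_d9]
  have hL0 : 0 < L := by linarith
  set s : ℂ := 1 / 2 + t * I with hs
  have hsre : s.re = 1 / 2 := by simp [hs]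
  have hsim : s.im = t := by simp [hs]
  have hs1 : 1 ≤ ‖s - 1‖ := by
    have := abs_im_le_norm (s - 1)
    rw [sub_im, hsim, one_im, sub_zero, abs_of_pos (by linarith)] at this
    linarith
  have hs0 : s - 1 ≠ 0 := by
    intro h
    rw [h, norm_zero] at hs1
    linarith
  have hsne : s ≠ 1 := sub_ne_zero.1 hs0
  have htT : 1 + t ≤ 3 * Real.exp ((1 + 1 / 10000) * L) := by
    have h1 : T ^ (1 + 1 / 10000 : ℝ) = Real.exp ((1 + 1 / 10000) * L) := by
      rw [Real.rpow_def_of_pos hT0, mul_comm]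
    rw [h1] at ht2
    have h2 : 1 ≤ Real.exp ((1 + 1 / 10000) * L) := Real.one_le_exp (by positivity)
    linarith
  have htT3 : 1 + t ≤ Real.exp (3 * L) := by
    refine htT.trans ?_
    have h1 : (3 : ℝ) ≤ Real.exp ((2 - 1 / 10000) * L) := by
      have h2 : (3 : ℝ) ≤ T ^ (2 - 1 / 10000 : ℝ) := by
        calc (3 : ℝ) ≤ T := hT
          _ = T ^ (1 : ℝ) := (Real.rpow_one T).symm
          _ ≤ T ^ (2 - 1 / 10000 : ℝ) :=
            Real.rpow_le_rpow_of_exponent_le hT1.le (by norm_num)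
      rwa [Real.rpow_def_of_pos hT0, mul_comm] at h2
    calc 3 * Real.exp ((1 + 1 / 10000) * L)
        ≤ Real.exp ((2 - 1 / 10000) * L) * Real.exp ((1 + 1 / 10000) * L) := by gcongr
      _ = Real.exp (3 * L) := by
          rw [← Real.exp_add]
          congr 1
          ring
  -- the entire even function
  set inn : ℂ → ℂ := fun w => riemannZeta₁ (s + w) * (s - 1)⁻¹ * gi L κ K w with hinn
  have hinnd : Differentiable ℂ inn := by
    have h1 : Differentiable ℂ fun w : ℂ => riemannZeta₁ (s + w) :=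
      differentiable_riemannZeta₁.comp (by fun_prop)
    exact (h1.mul_const _).mul (gi_diff L κ K)
  have hinnE : EG (-(B + 1)) (B + 1) inn := by
    have h1 : EG (-(B + 1)) (B + 1) fun w : ℂ => riemannZeta₁ (s + w) := by
      apply EG.comp_add
      refine (zeta1_EG (B + 2)).mono ?_ ?_
      · rw [hsre]; linarith
      · rw [hsre]; linarith
    exact (h1.mul (EG.const _ _ _)).mul (gi_EG L κ K hL0.le hκ.le _ _)
  set h : ℂ → ℂ := fun w => inn w + inn (-w) with hh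
  have hhd : Differentiable ℂ h := hinnd.add (hinnd.comp differentiable_neg)
  have hhE : EG (-(B + 1)) (B + 1) h := by
    apply hinnE.add
    apply EG.comp_neg
    rw [neg_neg]
    exact hinnE
  have hheven : ∀ w, h (-w) = h w := by
    intro w
    simp only [hh]
    rw [neg_neg, add_comm]
  obtain ⟨hint, hres⟩ := residue hB0 hhd hhE hheven
  have hh0 : h 0 = 2 * riemannZeta s := by
    have h1 : inn 0 = riemannZeta s := by
      simp only [hinn]
      rw [add_zero, gi_zero, zeta1_eq hsne]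
      field_simp
    simp only [hh]
    rw [neg_zero, h1]
    ring
  -- the pieces
  set P : ℂ → ℂ := fun w => (s + w - 1) / (s - 1) with hP
  have hPd : Differentiable ℂ P := by
    simp only [hP]
    fun_prop
  have hPE : ∀ a b : ℝ, EG a b P := by
    intro a b
    have h1 : EG a b fun w : ℂ => (s + w - 1) * (s - 1)⁻¹ :=
      (((EG.const a b s).add (EG.id a b)).sub (EG.const a b 1)).mul (EG.const a b _)
    exact h1.congr fun w _ _ => by simp only [hP, div_eq_mul_inv]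
  set m₁ : ℂ → ℂ := fun w => Q0 T (s + w) * P w * gi L κ K w with hm₁
  set m₂ : ℂ → ℂ := fun w => (FF (1 - s + w) * Q0 T (1 - s + w)) * P (-w) * gi L κ K (-w) with hm₂
  have h1L0 : 0 < 1 / L := by positivity
  have h1L : 1 / L ≤ 1 := by rw [div_le_one hL0]; exact hL1
  have hx : 1 / L ≤ B := h1L.trans hB1
  have hm₁d : DifferentiableOn ℂ m₁ {w : ℂ | 0 < w.re} := by
    apply Differentiable.differentiableOn
    have h1 : Differentiable ℂ fun w : ℂ => Q0 T (s + w) := (Q0_diff T).comp (by fun_prop)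
    exact (h1.mul hPd).mul (gi_diff L κ K)
  have hm₁E : EG (1 / L) B m₁ := by
    have h1 : EG (1 / L) B fun w : ℂ => Q0 T (s + w) := (Q0_EG T _ _).comp_add s
    exact (h1.mul (hPE _ _)).mul (gi_EG L κ K hL0.le hκ.le _ _)
  have hm₂d : DifferentiableOn ℂ m₂ {w : ℂ | 0 < w.re} := by
    intro w hw
    have hw' : 0 < w.re := hw
    have h1 : DifferentiableAt ℂ (fun w : ℂ => FF (1 - s + w)) w := by
      apply DifferentiableAt.comp w (g := FF)
      · apply FF_diff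
        rw [add_re, sub_re, hsre, one_re]
        linarith
      · fun_prop
    have h2 : Differentiable ℂ fun w : ℂ => Q0 T (1 - s + w) := (Q0_diff T).comp (by fun_prop)
    have h3 : Differentiable ℂ fun w : ℂ => P (-w) := hPd.comp (by fun_prop)
    have h4 : Differentiable ℂ fun w : ℂ => gi L κ K (-w) := (gi_diff L κ K).comp (by fun_prop)
    exact ((h1.mul (h2 w)).mul (h3 w)).mul (h4 w) |>.differentiableWithinAt
  have hm₂E : EG (1 / L) B m₂ := by
    have h1 : EG (1 / L) B fun w : ℂ => FF (1 - s + w) := by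
      apply EG.comp_add
      have h2 : (1 - s).re = 1 / 2 := by rw [sub_re, hsre, one_re]; norm_num
      rw [h2]
      exact (FF_EG (b := B + 1 / 2)).mono (by linarith) le_rfl
    have h2 : EG (1 / L) B fun w : ℂ => Q0 T (1 - s + w) := (Q0_EG T _ _).comp_add (1 - s)
    have h3 : EG (1 / L) B fun w : ℂ => P (-w) := (hPE _ _).comp_neg
    have h4 : EG (1 / L) B fun w : ℂ => gi L κ K (-w) :=
      (gi_EG L κ K hL0.le hκ.le _ _).comp_neg
    exact ((h1.mul h2).mul h3).mul h4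
  obtain ⟨hi1, hi1B, he1⟩ := line_shift h1L0 hx hm₁d hm₁E
  obtain ⟨hi2, hi2B, he2⟩ := line_shift h1L0 hx hm₂d hm₂E
  set τ₁ : ℂ → ℂ := fun w => (riemannZeta (s + w) - Q0 T (s + w)) * P w * gi L κ K w with hτ₁
  set τ₂ : ℂ → ℂ := fun w => (FF (1 - s + w) * (riemannZeta (1 - s + w) - Q0 T (1 - s + w))) *
    P (-w) * gi L κ K (-w) with hτ₂
  have hdec : ∀ v : ℝ, h (B + v * I) = m₁ (B + v * I) + m₂ (B + v * I) +
      (τ₁ (B + v * I) + τ₂ (B + v * I)) := by
    intro v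
    set w : ℂ := (B : ℂ) + v * I with hw
    have hwre : w.re = B := by simp [hw]
    have h1 : inn w = riemannZeta (s + w) * P w * gi L κ K w := by
      simp only [hinn, hP]
      have : s + w ≠ 1 := by
        intro h'
        have := congrArg re h'
        rw [add_re, hsre, hwre, one_re] at this
        linarith
      rw [zeta1_eq this]
      ring
    have h2 : inn (-w) = FF (1 - s + w) * riemannZeta (1 - s + w) * P (-w) * gi L κ K (-w) := by
      simp only [hinn, hP]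
      have h3 : s + -w ≠ 1 := by
        intro h'
        have := congrArg re h'
        rw [add_re, neg_re, hsre, hwre, one_re] at this
        linarith
      have h4 : riemannZeta (s + -w) = FF (1 - s + w) * riemannZeta (1 - s + w) := by
        have h5 := zeta_fe' (z := 1 - s + w) (by
          rw [add_re, sub_re, hsre, hwre, one_re]; linarith) (by
          intro h'
          have := congrArg re h'
          rw [add_re, sub_re, hsre, hwre, one_re] at this
          linarith)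
        rw [← h5]
        congr 1
        ring
      rw [zeta1_eq h3, h4]
      ring
    simp only [hh]
    rw [h1, h2]
    simp only [hm₁, hm₂, hτ₁, hτ₂]
    ring
  set G : ℝ → ℂ := fun v => cexp (2 * ((B : ℂ) + v * I) ^ 2) *
    (τ₁ (B + v * I) + τ₂ (B + v * I)) * ((B : ℂ) + v * I)⁻¹ with hG
  have hsplit : ∀ v : ℝ, cexp (2 * ((B : ℂ) + v * I) ^ 2) * h (B + v * I) * ((B : ℂ) + v * I)⁻¹ =
      cexp (2 * ((B : ℂ) + v * I) ^ 2) * m₁ (B + v * I) * ((B : ℂ) + v * I)⁻¹ +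
      cexp (2 * ((B : ℂ) + v * I) ^ 2) * m₂ (B + v * I) * ((B : ℂ) + v * I)⁻¹ + G v := by
    intro v
    rw [hdec v]
    simp only [hG]
    ring
  have hGint : Integrable G := by
    have h1 := (hint.sub hi1B).sub hi2B
    refine h1.congr (Eventually.of_forall fun v => ?_)
    have := hsplit v
    simp only [Pi.sub_apply]
    linear_combination this
  have htotal : 2 * Real.pi * riemannZeta s =
      (∫ v : ℝ, cexp (2 * (((1 / L : ℝ) : ℂ) + v * I) ^ 2) * m₁ (((1 / L : ℝ) : ℂ) + v * I) *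
        (((1 / L : ℝ) : ℂ) + v * I)⁻¹) +
      (∫ v : ℝ, cexp (2 * (((1 / L : ℝ) : ℂ) + v * I) ^ 2) * m₂ (((1 / L : ℝ) : ℂ) + v * I) *
        (((1 / L : ℝ) : ℂ) + v * I)⁻¹) + ∫ v, G v := by
    rw [← he1, ← he2, ← int3 hi1B hi2B hGint]
    rw [hh0] at hres
    rw [show (2 * Real.pi * riemannZeta s : ℂ) = Real.pi * (2 * riemannZeta s) by ring, ← hres]
    exact integral_congr_ae (Eventually.of_forall fun v => hsplit v)
  -- the tails
  have hGb : ∀ v : ℝ, ‖G v‖ ≤ (b₁ + b₂) * Real.exp (-(6 * L)) * Real.exp (-1 * v ^ 2) := by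
    intro v
    set w : ℂ := (B : ℂ) + v * I with hw
    have hwre : w.re = B := by simp [hw]
    have hB2 : (2 : ℝ) ≤ B + 1 / 2 := by rw [hBv]; norm_num
    have h1re : (s + w).re = B + 1 / 2 := by rw [add_re, hsre, hwre]; ring
    have h2re : (1 - s + w).re = B + 1 / 2 := by rw [add_re, sub_re, hsre, hwre, one_re]; ring
    have hz1 := zeta_sub_Q0 hT1 (z := s + w) (by rw [h1re]; exact hB2)
    have hz2 := zeta_sub_Q0 hT1 (z := 1 - s + w) (by rw [h2re]; exact hB2)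
    rw [h1re] at hz1
    rw [h2re] at hz2
    obtain ⟨hg1, hg2⟩ := gi_far (L := L) (κ := κ) (B := B) (v := v) (K := K) hL0.le hκ.le hB0.le
    have hP1 : ‖P w‖ ≤ 1 + ‖w‖ := norm_p hs1
    have hP2 : ‖P (-w)‖ ≤ 1 + ‖w‖ := by
      have := norm_p (s := s) (w := -w) hs1
      rwa [norm_neg] at this
    -- first tail
    have ht1 : ‖cexp (2 * w ^ 2) * τ₁ w * w⁻¹‖ ≤ b₁ * Real.exp (-(6 * L)) *
        Real.exp (-1 * v ^ 2) := by
      have h3 := tail1 (B := B) (v := v) (j := 0) hB1 hw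
        (ρ := 2 * Real.exp (-(5005 / 10000 * (B + 1 / 2 - 2)) * L)) (by positivity)
        (by rw [pow_zero, mul_one]; exact hz1) hg1 hP1
      refine h3.trans ?_
      have h4 : (2 * Real.exp (-(5005 / 10000 * (B + 1 / 2 - 2)) * L)) *
          (4 ^ K * Real.exp (L * B / 2 + κ * L * B * K)) ≤ 2 * 4 ^ K * Real.exp (-(6 * L)) := by
        have e1 : (2 * Real.exp (-(5005 / 10000 * (B + 1 / 2 - 2)) * L)) *
          (4 ^ K * Real.exp (L * B / 2 + κ * L * B * K)) = 2 * 4 ^ K *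
          Real.exp (-(5005 / 10000 * (B + 1 / 2 - 2)) * L + (L * B / 2 + κ * L * B * K)) := by
          rw [Real.exp_add (-(5005 / 10000 * (B + 1 / 2 - 2)) * L)]
          ring
        rw [e1]
        have e2 : -(5005 / 10000 * (B + 1 / 2 - 2)) * L + (L * B / 2 + κ * L * B * K) ≤
            -(6 * L) := by
          have e3 : κ * L * B * K = 1 / 8000 * (L * B) := by
            rw [← hκK]
            ring
          rw [e3, hBv]
          nlinarith
        gcongr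
      calc (Real.exp (2 * B ^ 2) * (1 + B) * Real.exp (((0 + 1 : ℕ) : ℝ) ^ 2 / 4)) *
            ((2 * Real.exp (-(5005 / 10000 * (B + 1 / 2 - 2)) * L)) *
            (4 ^ K * Real.exp (L * B / 2 + κ * L * B * K))) * Real.exp (-1 * v ^ 2)
          ≤ (Real.exp (2 * B ^ 2) * (1 + B) * Real.exp (((0 + 1 : ℕ) : ℝ) ^ 2 / 4)) *
            (2 * 4 ^ K * Real.exp (-(6 * L))) * Real.exp (-1 * v ^ 2) := by gcongr
        _ = _ := by rw [hb₁]; ring
    -- second tail
    have ht2' : ‖cexp (2 * w ^ 2) * τ₂ w * w⁻¹‖ ≤ b₂ * Real.exp (-(6 * L)) *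
        Real.exp (-1 * v ^ 2) := by
      have hFFw : ‖FF (1 - s + w)‖ ≤ CF * 3 ^ (2 * r) *
          Real.exp ((1 + 1 / 10000) * L * B) * (1 + |v|) ^ (2 * r) := by
        have e : (1 - s + w : ℂ) = 1 / 2 + 2 * r + ((v - t : ℝ) : ℂ) * I := by
          rw [hs, hw, hBd]
          push_cast
          ring
        rw [e]
        refine (hFF (v - t)).trans ?_
        have h5 : 1 + |v - t| ≤ (3 * Real.exp ((1 + 1 / 10000) * L)) * (1 + |v|) := by
          have h6 : |v - t| ≤ |v| + t := by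
            have := abs_sub v t
            rwa [abs_of_nonneg (by linarith : 0 ≤ t)] at this
          have h7 := abs_nonneg v
          calc 1 + |v - t| ≤ (1 + t) * (1 + |v|) := by nlinarith
            _ ≤ _ := by gcongr
        calc CF * (1 + |v - t|) ^ (2 * r)
            ≤ CF * ((3 * Real.exp ((1 + 1 / 10000) * L)) * (1 + |v|)) ^ (2 * r) := by gcongr
          _ = CF * (3 ^ (2 * r) * Real.exp ((1 + 1 / 10000) * L) ^ (2 * r) *
              (1 + |v|) ^ (2 * r)) := by rw [mul_pow, mul_pow]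
          _ = _ := by
              rw [← Real.exp_nat_mul]
              have e4 : ((2 * r : ℕ) : ℝ) * ((1 + 1 / 10000) * L) =
                  (1 + 1 / 10000) * L * B := by
                rw [hBd]
                push_cast
                ring
              rw [e4]
              ring
      have h3 := tail1 (B := B) (v := v) (j := 2 * r) hB1 hw
        (R := FF (1 - s + w) * (riemannZeta (1 - s + w) - Q0 T (1 - s + w)))
        (ρ := CF * 3 ^ (2 * r) * Real.exp ((1 + 1 / 10000) * L * B) *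
          (2 * Real.exp (-(5005 / 10000 * (B + 1 / 2 - 2)) * L))) (by positivity)
        (by
          rw [norm_mul]
          calc ‖FF (1 - s + w)‖ * ‖riemannZeta (1 - s + w) - Q0 T (1 - s + w)‖
              ≤ (CF * 3 ^ (2 * r) * Real.exp ((1 + 1 / 10000) * L * B) * (1 + |v|) ^ (2 * r)) *
                (2 * Real.exp (-(5005 / 10000 * (B + 1 / 2 - 2)) * L)) := by gcongr
            _ = _ := by ring) hg2 hP2
      refine h3.trans ?_
      have h4 : (CF * 3 ^ (2 * r) * Real.exp ((1 + 1 / 10000) * L * B) *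
          (2 * Real.exp (-(5005 / 10000 * (B + 1 / 2 - 2)) * L))) *
          (4 ^ K * Real.exp (-(L * B / 2))) ≤
          CF * 3 ^ (2 * r) * 2 * 4 ^ K * Real.exp (-(6 * L)) := by
        have e1 : (CF * 3 ^ (2 * r) * Real.exp ((1 + 1 / 10000) * L * B) *
          (2 * Real.exp (-(5005 / 10000 * (B + 1 / 2 - 2)) * L))) *
          (4 ^ K * Real.exp (-(L * B / 2))) = CF * 3 ^ (2 * r) * 2 * 4 ^ K *
          Real.exp ((1 + 1 / 10000) * L * B + (-(5005 / 10000 * (B + 1 / 2 - 2)) * L +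
            -(L * B / 2))) := by
          rw [Real.exp_add, Real.exp_add]
          ring
        rw [e1]
        have e2 : (1 + 1 / 10000) * L * B + (-(5005 / 10000 * (B + 1 / 2 - 2)) * L +
            -(L * B / 2)) ≤ -(6 * L) := by
          rw [hBv]
          nlinarith
        gcongr
      calc (Real.exp (2 * B ^ 2) * (1 + B) * Real.exp (((2 * r + 1 : ℕ) : ℝ) ^ 2 / 4)) *
            ((CF * 3 ^ (2 * r) * Real.exp ((1 + 1 / 10000) * L * B) *
            (2 * Real.exp (-(5005 / 10000 * (B + 1 / 2 - 2)) * L))) *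
            (4 ^ K * Real.exp (-(L * B / 2)))) * Real.exp (-1 * v ^ 2)
          ≤ (Real.exp (2 * B ^ 2) * (1 + B) * Real.exp (((2 * r + 1 : ℕ) : ℝ) ^ 2 / 4)) *
            (CF * 3 ^ (2 * r) * 2 * 4 ^ K * Real.exp (-(6 * L))) * Real.exp (-1 * v ^ 2) := by
            gcongr
        _ = _ := by rw [hb₂]; ring
    have e5 : G v = cexp (2 * w ^ 2) * τ₁ w * w⁻¹ + cexp (2 * w ^ 2) * τ₂ w * w⁻¹ := by
      simp only [hG]
      ring
    rw [e5]
    refine (norm_add_le _ _).trans ?_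
    linarith
  have hGI : ‖∫ v, G v‖ ≤ 2 * ((b₁ + b₂) * Real.exp (-(6 * L))) := by
    have h1 : Integrable fun v : ℝ => (b₁ + b₂) * Real.exp (-(6 * L)) * Real.exp (-1 * v ^ 2) :=
      (integrable_exp_neg_mul_sq one_pos).const_mul _
    refine (norm_integral_le_of_norm_le h1 (Eventually.of_forall hGb)).trans ?_
    rw [integral_const_mul, integral_gaussian, mul_comm]
    have h2 : Real.sqrt (Real.pi / 1) ≤ 2 := by
      rw [div_one, Real.sqrt_le_left (by norm_num)]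
      linarith [Real.pi_le_four]
    gcongr
  -- the main parts
  set q : ℝ → ℝ := fun v => ‖Q0 T (s + (((1 / L : ℝ) : ℂ) + v * I))‖ with hq
  obtain ⟨Mq, hMq, hQb⟩ := Q0_bound T 0
  have hqb : ∀ v, q v ≤ Mq := by
    intro v
    apply hQb
    rw [add_re, hsre]
    simp
    positivity
  have hqc : Continuous q := by
    apply Continuous.norm
    exact (Q0_diff T).continuous.comp (by fun_prop)
  have hqn : ∀ v, 0 ≤ q v := fun v => norm_nonneg _
  have haq : Integrable fun v => aw L K v * q v := by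
    refine ((aw_int hL0.le K).mul_const Mq).mono'
      ((aw_cont hL0.le K).mul hqc).aestronglyMeasurable (Eventually.of_forall fun v => ?_)
    rw [Real.norm_eq_abs, abs_of_nonneg (mul_nonneg (aw_nonneg hL0.le K v) (hqn v))]
    exact mul_le_mul_of_nonneg_left (hqb v) (aw_nonneg hL0.le K v)
  have haq' : Integrable fun v => aw L K v * q (-v) := by
    refine ((aw_int hL0.le K).mul_const Mq).mono'
      ((aw_cont hL0.le K).mul (hqc.comp continuous_neg)).aestronglyMeasurable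
      (Eventually.of_forall fun v => ?_)
    rw [Real.norm_eq_abs, abs_of_nonneg (mul_nonneg (aw_nonneg hL0.le K v) (hqn (-v)))]
    exact mul_le_mul_of_nonneg_left (hqb (-v)) (aw_nonneg hL0.le K v)
  have hrefl : ∫ v, aw L K v * q (-v) = ∫ v, aw L K v * q v := by
    have h1 := integral_neg_eq_self (fun v : ℝ => aw L K v * q v) volume
    rw [← h1]
    refine integral_congr_ae (Eventually.of_forall fun v => ?_)
    simp only
    unfold aw
    rw [abs_neg, neg_sq]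
  have hI1 : ‖∫ v : ℝ, cexp (2 * (((1 / L : ℝ) : ℂ) + v * I) ^ 2) *
      m₁ (((1 / L : ℝ) : ℂ) + v * I) * (((1 / L : ℝ) : ℂ) + v * I)⁻¹‖ ≤
      a₁ * ∫ v, aw L K v * q v := by
    rw [← integral_const_mul]
    refine norm_integral_le_of_norm_le (haq.const_mul _) (Eventually.of_forall fun v => ?_)
    have hg := (gi_line (K := K) hL1 hκ hκ1 v).1
    have h1 := main1 (L := L) (κ := κ) (q := q v) (v := v) (K := K) (D := 1) (j := 0)
      (F := Q0 T (s + (((1 / L : ℝ) : ℂ) + v * I))) (w := ((1 / L : ℝ) : ℂ) + v * I) hL1 hκ rfl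
      zero_le_one (by simp [hq]) (hqn v) hg (P := P (((1 / L : ℝ) : ℂ) + v * I)) (norm_p hs1)
    exact h1
  have hI2 : ‖∫ v : ℝ, cexp (2 * (((1 / L : ℝ) : ℂ) + v * I) ^ 2) *
      m₂ (((1 / L : ℝ) : ℂ) + v * I) * (((1 / L : ℝ) : ℂ) + v * I)⁻¹‖ ≤
      a₂ * ∫ v, aw L K v * q v := by
    rw [← hrefl, ← integral_const_mul]
    refine norm_integral_le_of_norm_le (haq'.const_mul _) (Eventually.of_forall fun v => ?_)
    have hg := (gi_line (K := K) hL1 hκ hκ1 v).2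
    have hFl := FF_line (L := L) (t := t) (v := v) hL1 (by linarith) htT3
    have hQ : ‖Q0 T (1 - s + (((1 / L : ℝ) : ℂ) + v * I))‖ = q (-v) := by
      have e : (1 - s + (((1 / L : ℝ) : ℂ) + v * I) : ℂ) =
          starRingEnd ℂ (s + (((1 / L : ℝ) : ℂ) + ((-v : ℝ) : ℂ) * I)) := by
        rw [hs]
        simp only [map_add, map_mul, conj_ofReal, conj_I, map_div₀, map_one]
        have e2 : starRingEnd ℂ (2 : ℂ) = 2 := conj_ofNat 2
        rw [e2]
        push_cast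
        ring
      rw [e, Q0_conj, norm_conj]
    have hPn : ‖P (-(((1 / L : ℝ) : ℂ) + v * I))‖ ≤ 1 + ‖(((1 / L : ℝ) : ℂ) + v * I)‖ := by
      have := norm_p (s := s) (w := -(((1 / L : ℝ) : ℂ) + v * I)) hs1
      rwa [norm_neg] at this
    have h1 := main1 (L := L) (κ := κ) (q := q (-v)) (v := v) (K := K)
      (D := Real.exp (9 / 4) * Real.exp 3) (j := 1)
      (F := FF (1 - s + (((1 / L : ℝ) : ℂ) + v * I)) *
        Q0 T (1 - s + (((1 / L : ℝ) : ℂ) + v * I)))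
      (w := ((1 / L : ℝ) : ℂ) + v * I) hL1 hκ rfl
      (by positivity) (by
        rw [norm_mul, hQ, pow_one]
        have := hqn (-v)
        gcongr) (hqn (-v)) hg (P := P (-(((1 / L : ℝ) : ℂ) + v * I))) hPn
    exact h1
  have hfin : 2 * Real.pi * ‖riemannZeta s‖ ≤ (a₁ + a₂) * (∫ v, aw L K v * q v) +
      2 * ((b₁ + b₂) * Real.exp (-(6 * L))) := by
    have h1 : ‖(2 * Real.pi * riemannZeta s : ℂ)‖ = 2 * Real.pi * ‖riemannZeta s‖ := by
      rw [norm_mul, norm_mul, norm_real, Real.norm_eq_abs, abs_of_pos Real.pi_pos]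
      simp
    rw [← h1, htotal]
    refine (norm_add_le _ _).trans ?_
    have h2 := norm_add_le (∫ v : ℝ, cexp (2 * (((1 / L : ℝ) : ℂ) + v * I) ^ 2) *
      m₁ (((1 / L : ℝ) : ℂ) + v * I) * (((1 / L : ℝ) : ℂ) + v * I)⁻¹)
      (∫ v : ℝ, cexp (2 * (((1 / L : ℝ) : ℂ) + v * I) ^ 2) *
      m₂ (((1 / L : ℝ) : ℂ) + v * I) * (((1 / L : ℝ) : ℂ) + v * I)⁻¹)
    linarith
  have h2pi : 1 ≤ 2 * Real.pi := by linarith [Real.pi_gt_three]
  calc ‖riemannZeta s‖ ≤ 2 * Real.pi * ‖riemannZeta s‖ :=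
        le_mul_of_one_le_left (norm_nonneg _) h2pi
    _ ≤ _ := hfin
    _ = _ := by ring

end Afe

/-- (A2) the square of zeta is bounded by local averages of the square of a polynomial of length
`T^{501/1000}` -/
theorem stAfe (h1 : StFFr) : StAfe := by
  intro A
  obtain ⟨r, hr⟩ : ∃ r : ℕ, r = 10000 := ⟨_, rfl⟩
  obtain ⟨CF, hCF, hFF⟩ := h1 r
  obtain ⟨C₂, C₁, hC₂, hC₁, hcore⟩ := Afe.core (A := A) hr hCF hFF
  refine ⟨8 * C₂ ^ 2, by positivity, max 3 (2 * C₁ ^ 2), le_max_left _ _, fun T hT t ht ht2 => ?_⟩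
  have hT3 : 3 ≤ T := (le_max_left _ _).trans hT
  have hTC : 2 * C₁ ^ 2 ≤ T := (le_max_right _ _).trans hT
  have hT0 : 0 < T := by linarith
  have hT1 : 1 ≤ T := by linarith
  have ht1 : 1 ≤ t := (Real.one_le_rpow hT1 (by norm_num)).trans ht
  have hz := hcore T hT3 t ht1 ht2
  set L : ℝ := Real.log T with hLd
  have hL1 : 1 ≤ L := by
    rw [hLd, Real.le_log_iff_exp_le hT0]
    linarith [Real.exp_one_lt_d9]
  have hL0 : 0 < L := by linarith
  set q : ℝ → ℝ := fun v => ‖Afe.Q0 T (1 / 2 + t * I + (((1 / L : ℝ) : ℂ) + v * I))‖ with hq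
  obtain ⟨Mq, hMq, hQb⟩ := Afe.Q0_bound T 0
  have hqb : ∀ v, q v ≤ Mq := by
    intro v
    apply hQb
    simp
    positivity
  have hqc : Continuous q := by
    apply Continuous.norm
    exact (Afe.Q0_diff T).continuous.comp (by fun_prop)
  have hqn : ∀ v, 0 ≤ q v := fun v => norm_nonneg _
  have hint : ∀ j : ℕ, ∀ N : ℕ, Integrable fun v => Afe.aw L N v * q v ^ j := by
    intro j N
    refine ((Afe.aw_int hL0.le N).mul_const (Mq ^ j)).mono'
      ((Afe.aw_cont hL0.le N).mul (hqc.pow j)).aestronglyMeasurable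
      (Eventually.of_forall fun v => ?_)
    rw [Real.norm_eq_abs, abs_of_nonneg (mul_nonneg (Afe.aw_nonneg hL0.le N v)
      (pow_nonneg (hqn v) j))]
    exact mul_le_mul_of_nonneg_left (pow_le_pow_left₀ (hqn v) (hqb v) j)
      (Afe.aw_nonneg hL0.le N v)
  have hcs := Afe.cs (fun v => Afe.aw_nonneg hL0.le (A + 2) v) (Afe.aw_int hL0.le (A + 2))
    (by simpa using hint 1 (A + 2)) (hint 2 (A + 2)) (Afe.aw_total hL0 (by omega))
  set J : ℝ := ∫ v : ℝ, Afe.aw L (A + 2) v * q v with hJ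
  set J2 : ℝ := ∫ v : ℝ, Afe.aw L (A + 2) v * q v ^ 2 with hJ2
  have hJ2le : J2 ≤ L * (∫ ν : ℝ, ‖∑ n ∈ Finset.Icc 1 ⌊T⌋₊, qc T ν n *
      fs (1 / 2 + t * I) n‖ ^ 2 * (((1 + L * |ν|) ^ A)⁻¹ * Real.exp (-ν ^ 2))) := by
    rw [← integral_const_mul]
    have h2 : (fun ν : ℝ => L * (‖∑ n ∈ Finset.Icc 1 ⌊T⌋₊, qc T ν n *
      fs (1 / 2 + t * I) n‖ ^ 2 * (((1 + L * |ν|) ^ A)⁻¹ * Real.exp (-ν ^ 2)))) =
      fun v => Afe.aw L A v * q v ^ 2 := by
      funext v
      simp only [hq]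
      rw [hLd, Afe.Q0_eq]
      unfold Afe.aw
      ring
    rw [h2]
    refine integral_mono (hint 2 (A + 2)) (hint 2 A) fun v => ?_
    simp only
    unfold Afe.aw
    have h3 : ((1 + L * |v|) ^ (A + 2))⁻¹ ≤ ((1 + L * |v|) ^ A)⁻¹ := by
      have h4 : 1 ≤ 1 + L * |v| := by
        have : 0 ≤ L * |v| := by positivity
        linarith
      have h5 : (1 + L * |v|) ^ A ≤ (1 + L * |v|) ^ (A + 2) := pow_le_pow_right₀ h4 (by omega)
      gcongr
    have := hqn v
    gcongr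
  have hJn : 0 ≤ J := integral_nonneg fun v => mul_nonneg (Afe.aw_nonneg hL0.le _ v) (hqn v)
  have hsq : ‖riemannZeta (1 / 2 + t * I)‖ ^ 2 ≤ 2 * (C₂ * J) ^ 2 +
      2 * (C₁ * Real.exp (-(6 * L))) ^ 2 := by
    have h3 : ‖riemannZeta (1 / 2 + t * I)‖ ^ 2 ≤ (C₂ * J + C₁ * Real.exp (-(6 * L))) ^ 2 :=
      pow_le_pow_left₀ (norm_nonneg _) hz 2
    have h4 := sq_nonneg (C₂ * J - C₁ * Real.exp (-(6 * L)))
    nlinarith
  have herr : 2 * (C₁ * Real.exp (-(6 * L))) ^ 2 ≤ T ^ (-10 : ℝ) := by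
    have e1 : T ^ (-10 : ℝ) = Real.exp (-(10 * L)) := by
      rw [Real.rpow_def_of_pos hT0]
      congr 1
      ring
    have e2 : (Real.exp (-(6 * L))) ^ 2 = Real.exp (-(10 * L)) * Real.exp (-(2 * L)) := by
      rw [← Real.exp_nat_mul, ← Real.exp_add]
      congr 1
      push_cast
      ring
    have e3 : Real.exp (-(2 * L)) ≤ T⁻¹ := by
      rw [← Real.exp_log hT0, ← hLd, ← Real.exp_neg]
      apply Real.exp_le_exp.2
      linarith
    rw [mul_pow, e1, e2]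
    calc 2 * (C₁ ^ 2 * (Real.exp (-(10 * L)) * Real.exp (-(2 * L))))
        ≤ 2 * (C₁ ^ 2 * (Real.exp (-(10 * L)) * T⁻¹)) := by gcongr
      _ = Real.exp (-(10 * L)) * ((2 * C₁ ^ 2) / T) := by
          field_simp
      _ ≤ Real.exp (-(10 * L)) * 1 := by
          gcongr
          rw [div_le_one hT0]
          exact hTC
      _ = _ := mul_one _
  calc ‖riemannZeta (1 / 2 + t * I)‖ ^ 2 ≤ 2 * (C₂ * J) ^ 2 +
      2 * (C₁ * Real.exp (-(6 * L))) ^ 2 := hsq
    _ ≤ 8 * C₂ ^ 2 * J2 + T ^ (-10 : ℝ) := by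
        have h5 : 2 * (C₂ * J) ^ 2 ≤ 8 * C₂ ^ 2 * J2 := by
          rw [mul_pow]
          have := mul_le_mul_of_nonneg_left hcs (by positivity : 0 ≤ 2 * C₂ ^ 2)
          linarith
        linarith
    _ ≤ _ := by
        have h6 := mul_le_mul_of_nonneg_left hJ2le (by positivity : 0 ≤ 8 * C₂ ^ 2)
        rw [mul_assoc (8 * C₂ ^ 2) L]
        linarith

end F4
end Pool.Agent.Lib.MP_973905_nt
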