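import Pool.Agent.Lib.MP_973905_nt.F4.Stmts
import Pool.Agent.Lib.MP_973905_nt.K1.Shift

/-! Tools for the approximate functional equation: exponential growth in vertical strips, a residue
formula, growth of the zeta function, a kernel. -/

namespace Pool.Agent.Lib.MP_973905_nt
namespace F4

open MeasureTheory ProbabilityTheory Complex Filter Topology K1 Set

namespace Afe

/-- exponential growth on a vertical strip -/
def EG (a b : ℝ) (h : ℂ → ℂ) : Prop := ∃ M c : ℝ, 0 ≤ M ∧ 0 ≤ c ∧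
  ∀ w : ℂ, a ≤ w.re → w.re ≤ b → ‖h w‖ ≤ M * Real.exp (c * |w.im|)

lemma EG.mono {a b a' b' : ℝ} {h : ℂ → ℂ} (hh : EG a b h) (h1 : a ≤ a') (h2 : b' ≤ b) :
    EG a' b' h := by
  obtain ⟨M, c, hM, hc, hb⟩ := hh
  exact ⟨M, c, hM, hc, fun w h3 h4 => hb w (h1.trans h3) (h4.trans h2)⟩

lemma EG.congr {a b : ℝ} {h h' : ℂ → ℂ} (hh : EG a b h) (he : ∀ w : ℂ, a ≤ w.re → w.re ≤ b →
    h' w = h w) : EG a b h' := by
  obtain ⟨M, c, hM, hc, hb⟩ := hh
  exact ⟨M, c, hM, hc, fun w h3 h4 => by rw [he w h3 h4]; exact hb w h3 h4⟩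

lemma EG.of_le {a b M : ℝ} {h : ℂ → ℂ} (hb : ∀ w : ℂ, a ≤ w.re → w.re ≤ b → ‖h w‖ ≤ M) :
    EG a b h := by
  refine ⟨max M 0, 0, le_max_right _ _, le_rfl, fun w h1 h2 => ?_⟩
  rw [zero_mul, Real.exp_zero, mul_one]
  exact (hb w h1 h2).trans (le_max_left _ _)

lemma EG.const (a b : ℝ) (z : ℂ) : EG a b (fun _ => z) :=
  EG.of_le (M := ‖z‖) fun _ _ _ => le_rfl

lemma EG.id (a b : ℝ) : EG a b (fun w => w) := by
  refine ⟨max |a| |b| + 1, 1, by positivity, zero_le_one, fun w h1 h2 => ?_⟩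
  have h3 := Complex.norm_le_abs_re_add_abs_im w
  have h4 : |w.re| ≤ max |a| |b| := abs_le_max_abs_abs h1 h2
  have h5 := Real.add_one_le_exp (1 * |w.im|)
  have h6 : 0 ≤ max |a| |b| := (abs_nonneg a).trans (le_max_left _ _)
  have h7 := abs_nonneg w.im
  have h8 : 1 ≤ Real.exp (1 * |w.im|) := by linarith
  nlinarith

lemma EG.mul {a b : ℝ} {h h' : ℂ → ℂ} (h1 : EG a b h) (h2 : EG a b h') :
    EG a b (fun w => h w * h' w) := by
  obtain ⟨M, c, hM, hc, hb⟩ := h1
  obtain ⟨M', c', hM', hc', hb'⟩ := h2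
  refine ⟨M * M', c + c', by positivity, by positivity, fun w h3 h4 => ?_⟩
  rw [norm_mul, add_mul, Real.exp_add]
  calc ‖h w‖ * ‖h' w‖ ≤ (M * Real.exp (c * |w.im|)) * (M' * Real.exp (c' * |w.im|)) :=
        mul_le_mul (hb w h3 h4) (hb' w h3 h4) (norm_nonneg _) (by positivity)
    _ = _ := by ring

lemma EG.add {a b : ℝ} {h h' : ℂ → ℂ} (h1 : EG a b h) (h2 : EG a b h') :
    EG a b (fun w => h w + h' w) := by
  obtain ⟨M, c, hM, hc, hb⟩ := h1
  obtain ⟨M', c', hM', hc', hb'⟩ := h2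
  refine ⟨M + M', c + c', by positivity, by positivity, fun w h3 h4 => ?_⟩
  have h5 : Real.exp (c * |w.im|) ≤ Real.exp ((c + c') * |w.im|) :=
    Real.exp_le_exp.2 (by nlinarith [mul_nonneg hc' (abs_nonneg w.im)])
  have h6 : Real.exp (c' * |w.im|) ≤ Real.exp ((c + c') * |w.im|) :=
    Real.exp_le_exp.2 (by nlinarith [mul_nonneg hc (abs_nonneg w.im)])
  calc ‖h w + h' w‖ ≤ ‖h w‖ + ‖h' w‖ := norm_add_le _ _
    _ ≤ M * Real.exp (c * |w.im|) + M' * Real.exp (c' * |w.im|) :=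
        add_le_add (hb w h3 h4) (hb' w h3 h4)
    _ ≤ M * Real.exp ((c + c') * |w.im|) + M' * Real.exp ((c + c') * |w.im|) := by gcongr
    _ = _ := by ring

lemma EG.sub {a b : ℝ} {h h' : ℂ → ℂ} (h1 : EG a b h) (h2 : EG a b h') :
    EG a b (fun w => h w - h' w) := by
  have := h1.add ((EG.const a b (-1)).mul h2)
  refine this.congr fun w _ _ => by ring

lemma EG.pow {a b : ℝ} {h : ℂ → ℂ} (h1 : EG a b h) (n : ℕ) : EG a b (fun w => h w ^ n) := by
  induction n with
  | zero => simpa using EG.const a b 1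
  | succ n ih =>
    refine (ih.mul h1).congr fun w _ _ => by rw [pow_succ]

lemma EG.sum {a b : ℝ} {ι : Type*} (S : Finset ι) {h : ι → ℂ → ℂ}
    (h1 : ∀ i ∈ S, EG a b (h i)) : EG a b (fun w => ∑ i ∈ S, h i w) := by
  classical
  induction S using Finset.induction_on with
  | empty => simpa using EG.const a b 0
  | insert i S hi ih =>
    have h2 := (h1 i (Finset.mem_insert_self i S)).add
      (ih fun j hj => h1 j (Finset.mem_insert_of_mem hj))
    refine h2.congr fun w _ _ => by rw [Finset.sum_insert hi]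

/-- translation -/
lemma EG.comp_add {a b : ℝ} {h : ℂ → ℂ} (s : ℂ) (h1 : EG (a + s.re) (b + s.re) h) :
    EG a b (fun w => h (s + w)) := by
  obtain ⟨M, c, hM, hc, hb⟩ := h1
  refine ⟨M * Real.exp (c * |s.im|), c, by positivity, hc, fun w h3 h4 => ?_⟩
  have h5 := hb (s + w) (by rw [add_re]; linarith) (by rw [add_re]; linarith)
  refine h5.trans ?_
  rw [mul_assoc, ← Real.exp_add]
  gcongr
  rw [add_im, ← mul_add]
  gcongr
  exact abs_add_le _ _

/-- reflection -/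
lemma EG.comp_neg {a b : ℝ} {h : ℂ → ℂ} (h1 : EG (-b) (-a) h) : EG a b (fun w => h (-w)) := by
  obtain ⟨M, c, hM, hc, hb⟩ := h1
  refine ⟨M, c, hM, hc, fun w h3 h4 => ?_⟩
  have h5 := hb (-w) (by rw [neg_re]; linarith) (by rw [neg_re]; linarith)
  rwa [neg_im, abs_neg] at h5

/-- it is enough to bound a continuous function away from the real axis -/
lemma EG.of_far {a b M c : ℝ} {h : ℂ → ℂ} (hc : Continuous h) (hM : 0 ≤ M) (hc0 : 0 ≤ c)
    (hb : ∀ w : ℂ, a ≤ w.re → w.re ≤ b → 1 ≤ |w.im| → ‖h w‖ ≤ M * Real.exp (c * |w.im|)) :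
    EG a b h := by
  have hcomp : IsCompact (Icc a b ×ℂ Icc (-1) 1) := isCompact_Icc.reProdIm isCompact_Icc
  obtain ⟨M', hM'⟩ := hcomp.exists_bound_of_continuousOn hc.continuousOn
  refine ⟨max M (max M' 0), c, le_max_of_le_left hM, hc0, fun w h1 h2 => ?_⟩
  rcases le_total 1 |w.im| with h3 | h3
  · refine (hb w h1 h2 h3).trans ?_
    gcongr
    exact le_max_left _ _
  · have h4 : w ∈ Icc a b ×ℂ Icc (-1) 1 := by
      rw [mem_reProdIm]
      exact ⟨⟨h1, h2⟩, abs_le.1 h3⟩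
    have h5 : 1 ≤ Real.exp (c * |w.im|) := Real.one_le_exp (by positivity)
    calc ‖h w‖ ≤ M' := hM' w h4
      _ ≤ max M (max M' 0) := (le_max_left _ _).trans (le_max_right _ _)
      _ ≤ max M (max M' 0) * Real.exp (c * |w.im|) :=
          le_mul_of_one_le_right ((le_max_right M' 0).trans (le_max_right _ _)) h5

/-- the Gaussian factor beats exponential growth -/
lemma EG.gauss {a b : ℝ} {h : ℂ → ℂ} (h1 : EG a b h) : ∃ M : ℝ, 0 ≤ M ∧
    ∀ w : ℂ, a ≤ w.re → w.re ≤ b → ‖cexp (2 * w ^ 2) * h w‖ ≤ M * Real.exp (-w.im ^ 2) := by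
  obtain ⟨M, c, hM, hc, hb⟩ := h1
  refine ⟨Real.exp (2 * (max |a| |b|) ^ 2 + c ^ 2 / 4) * M, by positivity, fun w h3 h4 => ?_⟩
  have h5 : |w.re| ≤ max |a| |b| := abs_le_max_abs_abs h3 h4
  have h6 : w.re ^ 2 ≤ (max |a| |b|) ^ 2 := by
    rw [← sq_abs w.re]
    exact pow_le_pow_left₀ (abs_nonneg _) h5 2
  rw [norm_mul, norm_exp]
  have e1 : (2 * w ^ 2 : ℂ).re = 2 * w.re ^ 2 - 2 * w.im ^ 2 := by
    simp [pow_two]
    ring
  rw [e1]
  have h7 : c * |w.im| ≤ c ^ 2 / 4 + w.im ^ 2 := by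
    have := sq_nonneg (c / 2 - |w.im|)
    have h8 := sq_abs w.im
    nlinarith
  calc Real.exp (2 * w.re ^ 2 - 2 * w.im ^ 2) * ‖h w‖
      ≤ Real.exp (2 * w.re ^ 2 - 2 * w.im ^ 2) * (M * Real.exp (c * |w.im|)) := by
        gcongr
        exact hb w h3 h4
    _ = M * Real.exp (2 * w.re ^ 2 - 2 * w.im ^ 2 + c * |w.im|) := by
        rw [Real.exp_add]; ring
    _ ≤ M * Real.exp ((2 * (max |a| |b|) ^ 2 + c ^ 2 / 4) + -w.im ^ 2) :=
        mul_le_mul_of_nonneg_left (Real.exp_le_exp.2 (by linarith)) hM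
    _ = _ := by rw [Real.exp_add]; ring

/-! ### A residue formula -/

lemma int_gauss_line {B : ℝ} (hB : 0 < B) (x : ℝ) :
    ∫ v : ℝ, cexp (2 * ((B : ℂ) + v * I) ^ 2) * cexp (-((B : ℂ) + v * I) * x) =
      ((Real.sqrt (Real.pi / 2) * Real.exp (-(1 / 8) * x ^ 2) : ℝ) : ℂ) := by
  have h1 : ∀ v : ℝ, cexp (2 * ((B : ℂ) + v * I) ^ 2) * cexp (-((B : ℂ) + v * I) * x) =
      cexp ((-2 : ℂ) * v ^ 2 + (4 * B * I - x * I) * v + (2 * B ^ 2 - B * x)) := by
    intro v
    rw [← Complex.exp_add]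
    congr 1
    linear_combination (2 * (v : ℂ) ^ 2) * I_sq
  simp only [h1]
  rw [integral_cexp_quadratic (by simp)]
  have h2 : (Real.pi / -(-2 : ℂ)) ^ (1 / 2 : ℂ) = ((Real.sqrt (Real.pi / 2) : ℝ) : ℂ) := by
    rw [neg_neg, Real.sqrt_eq_rpow, ofReal_cpow (by positivity)]
    push_cast
    rfl
  rw [h2]
  push_cast
  congr 2
  linear_combination ((4 * (B : ℂ) - x) ^ 2 / 8) * I_sq

lemma int_exp_line {B : ℝ} (hB : 0 < B) (v : ℝ) :
    ∫ x in Ioi (0 : ℝ), cexp (-((B : ℂ) + v * I) * x) = ((B : ℂ) + v * I)⁻¹ := by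
  have h := integral_exp_mul_complex_Ioi (a := -((B : ℂ) + v * I)) (by simpa using hB) 0
  rw [h]
  simp only [ofReal_zero, mul_zero, Complex.exp_zero]
  rw [neg_div_neg_eq, one_div]

lemma int_pole {B : ℝ} (hB : 0 < B) :
    ∫ v : ℝ, cexp (2 * ((B : ℂ) + v * I) ^ 2) * ((B : ℂ) + v * I)⁻¹ = Real.pi := by
  have h1 : ∀ v : ℝ, cexp (2 * ((B : ℂ) + v * I) ^ 2) * ((B : ℂ) + v * I)⁻¹ =
      ∫ x in Ioi (0 : ℝ), cexp (2 * ((B : ℂ) + v * I) ^ 2) * cexp (-((B : ℂ) + v * I) * x) := by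
    intro v
    rw [integral_const_mul, int_exp_line hB]
  simp only [h1]
  rw [integral_integral_swap]
  · simp only [int_gauss_line hB]
    rw [integral_complex_ofReal, integral_const_mul, integral_gaussian_Ioi]
    congr 1
    have h2 : Real.pi / (1 / 8) = Real.pi / 2 * 4 ^ 2 := by ring
    rw [h2, Real.sqrt_mul (by positivity), Real.sqrt_sq (by norm_num)]
    have h3 := Real.mul_self_sqrt (show 0 ≤ Real.pi / 2 by positivity)
    nlinarith
  · have hf : Integrable (fun v : ℝ => Real.exp (2 * B ^ 2) * Real.exp (-2 * v ^ 2)) :=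
      (integrable_exp_neg_mul_sq (by norm_num)).const_mul _
    have hg : Integrable (fun x : ℝ => Real.exp (-B * x)) (volume.restrict (Ioi 0)) :=
      exp_neg_integrableOn_Ioi 0 hB
    refine (hf.mul_prod hg).mono' ?_ ?_
    · exact Continuous.aestronglyMeasurable (by fun_prop)
    · refine Eventually.of_forall fun p => ?_
      simp only [Function.uncurry]
      rw [norm_mul, norm_exp, norm_exp]
      have e1 : (2 * ((B : ℂ) + p.1 * I) ^ 2 : ℂ).re = 2 * B ^ 2 + -2 * p.1 ^ 2 := by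
        simp [pow_two]
        ring
      have e2 : (-((B : ℂ) + p.1 * I) * p.2 : ℂ).re = -B * p.2 := by simp
      rw [e1, e2, Real.exp_add]

/-- an even entire function on a vertical line -/
lemma residue {B : ℝ} (hB : 0 < B) {h : ℂ → ℂ} (hd : Differentiable ℂ h)
    (hE : EG (-(B + 1)) (B + 1) h) (heven : ∀ w, h (-w) = h w) :
    (Integrable fun v : ℝ => cexp (2 * ((B : ℂ) + v * I) ^ 2) * h (B + v * I) *
      ((B : ℂ) + v * I)⁻¹) ∧
    ∫ v : ℝ, cexp (2 * ((B : ℂ) + v * I) ^ 2) * h (B + v * I) * ((B : ℂ) + v * I)⁻¹ =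
      Real.pi * h 0 := by
  set k : ℂ → ℂ := fun w => h w - h 0 with hk
  have hkd : Differentiable ℂ k := hd.sub_const _
  have hkE : EG (-(B + 1)) (B + 1) k := hE.sub (EG.const _ _ _)
  have hk0 : k 0 = 0 := by simp [hk]
  set d : ℂ → ℂ := dslope k 0 with hdd
  have hdd' : Differentiable ℂ d := by
    rw [← differentiableOn_univ]
    exact (differentiableOn_dslope Filter.univ_mem).mpr hkd.differentiableOn
  have hdne : ∀ w : ℂ, w ≠ 0 → d w = k w * w⁻¹ := by
    intro w hw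
    rw [hdd, dslope_of_ne _ hw, slope_def_field, hk0]
    rw [sub_zero, sub_zero, div_eq_mul_inv]
  have hdE : EG (-(B + 1)) (B + 1) d := by
    obtain ⟨M, c, hM, hc, hb⟩ := hkE
    refine EG.of_far hdd'.continuous hM hc fun w h1 h2 h3 => ?_
    have h4 : 1 ≤ ‖w‖ := h3.trans (Complex.abs_im_le_norm w)
    have hw : w ≠ 0 := by
      intro h
      rw [h, norm_zero] at h4
      linarith
    rw [hdne w hw, norm_mul, norm_inv]
    calc ‖k w‖ * ‖w‖⁻¹ ≤ ‖k w‖ * 1 := by
          gcongr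
          exact inv_le_one_of_one_le₀ h4
      _ ≤ _ := by rw [mul_one]; exact hb w h1 h2
  have hodd : ∀ w : ℂ, d (-w) = -d w := by
    intro w
    by_cases hw : w = 0
    · subst hw
      have h1 : d 0 = deriv k 0 := dslope_same _ _
      have h2 : deriv (fun w => k (-w)) 0 = -deriv k (-0) := deriv_comp_neg k 0
      have h3 : (fun w => k (-w)) = k := by
        funext w
        simp only [hk, heven]
      rw [h3, neg_zero] at h2
      have h4 : deriv k 0 = 0 := by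
        have : (2 : ℂ) * deriv k 0 = 0 := by linear_combination h2
        simpa using this
      rw [neg_zero, h1, h4, neg_zero]
    · have hw' : -w ≠ 0 := neg_ne_zero.2 hw
      rw [hdne w hw, hdne _ hw']
      have : k (-w) = k w := by simp only [hk, heven]
      rw [this, inv_neg, mul_neg]
  -- the regular part
  set K : ℂ → ℂ := fun w => cexp (2 * w ^ 2) * d w with hK
  have hKd : Differentiable ℂ K := by
    apply Differentiable.mul _ hdd'
    fun_prop
  obtain ⟨M, hM, hMb⟩ := hdE.gauss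
  have hint : Integrable fun t : ℝ => M * Real.exp (-1 * (t - 0) ^ 2) :=
    ((integrable_exp_neg_mul_sq one_pos).comp_sub_right 0).const_mul M
  obtain ⟨ht1, ht2⟩ := Shift.tendsto_gauss (K := M) (b := 1) (τ := 0) one_pos
  have hKb : ∀ x ∈ uIcc B 0, ∀ t : ℝ, ‖K (x + t * I)‖ ≤ M * Real.exp (-1 * (t - 0) ^ 2) := by
    intro x hx t
    rw [uIcc_of_ge hB.le, mem_Icc] at hx
    have h1 := hMb (x + t * I) (by simp; linarith [hx.1]) (by simp; linarith [hx.2])
    have e : (x + t * I : ℂ).im = t := by simp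
    rw [e] at h1
    rw [show (-1 : ℝ) * (t - 0) ^ 2 = -t ^ 2 by ring]
    exact h1
  have hshift := Shift.vshift (h := K) (α := -(B + 1)) (β := B + 1) (σ₁ := B) (σ₂ := 0)
    (by linarith) (by linarith) (by linarith) (by linarith) hKd.differentiableOn hint ht1 ht2 hKb
  have hzero : ∫ t : ℝ, K ((0 : ℝ) + t * I) = 0 := by
    have h1 : ∫ t : ℝ, K ((0 : ℝ) + (-t : ℝ) * I) = ∫ t : ℝ, K ((0 : ℝ) + t * I) :=
      integral_neg_eq_self (fun t : ℝ => K ((0 : ℝ) + t * I)) volume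
    have h2 : ∀ t : ℝ, K ((0 : ℝ) + (-t : ℝ) * I) = -K ((0 : ℝ) + t * I) := by
      intro t
      have e : (((0 : ℝ) : ℂ) + ((-t : ℝ) : ℂ) * I) = -(((0 : ℝ) : ℂ) + (t : ℂ) * I) := by
        push_cast
        ring
      rw [e, hK]
      simp only
      rw [hodd, neg_sq, mul_neg]
    simp only [h2] at h1
    rw [integral_neg] at h1
    have : (2 : ℂ) * ∫ t : ℝ, K ((0 : ℝ) + t * I) = 0 := by linear_combination -h1
    simpa using this
  have hintK : Integrable fun t : ℝ => K (B + t * I) := by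
    refine hint.mono' ?_ (Eventually.of_forall fun t => hKb B left_mem_uIcc t)
    exact (hKd.continuous.comp (by fun_prop)).aestronglyMeasurable
  have hline : ∀ v : ℝ, (B : ℂ) + v * I ≠ 0 := by
    intro v hv
    have := congrArg re hv
    simp at this
    linarith
  have hintP : Integrable fun v : ℝ => cexp (2 * ((B : ℂ) + v * I) ^ 2) * ((B : ℂ) + v * I)⁻¹ := by
    have hf : Integrable (fun v : ℝ => (Real.exp (2 * B ^ 2) * B⁻¹) * Real.exp (-2 * v ^ 2)) :=
      (integrable_exp_neg_mul_sq (by norm_num)).const_mul _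
    refine hf.mono' ?_ (Eventually.of_forall fun v => ?_)
    · apply Continuous.aestronglyMeasurable
      apply Continuous.mul (by fun_prop)
      exact Continuous.inv₀ (by fun_prop) hline
    · rw [norm_mul, norm_exp, norm_inv]
      have e1 : (2 * ((B : ℂ) + v * I) ^ 2 : ℂ).re = 2 * B ^ 2 + -2 * v ^ 2 := by
        simp [pow_two]
        ring
      have e2 : B ≤ ‖(B : ℂ) + v * I‖ := by
        have := Complex.abs_re_le_norm ((B : ℂ) + v * I)
        simpa [abs_of_pos hB] using this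
      rw [e1, Real.exp_add]
      calc Real.exp (2 * B ^ 2) * Real.exp (-2 * v ^ 2) * ‖(B : ℂ) + v * I‖⁻¹
          ≤ Real.exp (2 * B ^ 2) * Real.exp (-2 * v ^ 2) * B⁻¹ := by gcongr
        _ = _ := by ring
  have hsplit : ∀ v : ℝ, cexp (2 * ((B : ℂ) + v * I) ^ 2) * h (B + v * I) *
      ((B : ℂ) + v * I)⁻¹ = K (B + v * I) +
        h 0 * (cexp (2 * ((B : ℂ) + v * I) ^ 2) * ((B : ℂ) + v * I)⁻¹) := by
    intro v
    rw [hK]
    simp only
    rw [hdne _ (hline v), hk]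
    simp only
    ring
  simp only [hsplit]
  refine ⟨hintK.add (hintP.const_mul _), ?_⟩
  rw [integral_add hintK (hintP.const_mul _), hshift, hzero, integral_const_mul, int_pole hB]
  ring

end Afe

end F4
end Pool.Agent.Lib.MP_973905_nt
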