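import Pool.Agent.Lib.MP_973905_nt.F4.AfeBase

/-! Tools for the approximate functional equation: growth of the zeta function, tails of Dirichlet
series, a kernel. -/

namespace Pool.Agent.Lib.MP_973905_nt
namespace F4

open MeasureTheory ProbabilityTheory Complex Filter Topology K1 Set

namespace Afe

lemma dir_tail {c : ℕ → ℂ} {N : ℝ} {z : ℂ} (hN : 1 ≤ N) (hz : 2 ≤ z.re) (hc : ∀ n, ‖c n‖ ≤ 1)
    (h0 : ∀ n : ℕ, (n : ℝ) < N → c n = 0) :
    (Summable fun n : ℕ => c n * (n : ℂ) ^ (-z)) ∧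
      ‖∑' n : ℕ, c n * (n : ℂ) ^ (-z)‖ ≤ 2 * N ^ (-(z.re - 2)) := by
  have hNp : 0 < N := by linarith
  have hterm : ∀ n : ℕ, ‖c n * (n : ℂ) ^ (-z)‖ ≤ N ^ (-(z.re - 2)) * (1 / (n : ℝ) ^ 2) := by
    intro n
    rcases lt_or_ge (n : ℝ) N with h | h
    · rw [h0 n h, zero_mul, norm_zero]
      positivity
    · have hn : (0 : ℝ) < n := by linarith
      have hn' : 0 < n := by exact_mod_cast hn
      rw [norm_mul, norm_natCast_cpow_of_pos hn', neg_re]
      have h1 : (n : ℝ) ^ (-z.re) = (n : ℝ) ^ (-(z.re - 2)) * (1 / (n : ℝ) ^ 2) := by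
        rw [show -z.re = -(z.re - 2) + (-2) by ring, Real.rpow_add hn, one_div, Real.rpow_neg hn.le 2]
        congr 2
        exact Real.rpow_natCast _ 2
      have h2 : (n : ℝ) ^ (-(z.re - 2)) ≤ N ^ (-(z.re - 2)) :=
        Real.rpow_le_rpow_of_nonpos hNp h (by linarith)
      rw [h1]
      calc ‖c n‖ * ((n : ℝ) ^ (-(z.re - 2)) * (1 / (n : ℝ) ^ 2))
          ≤ 1 * (N ^ (-(z.re - 2)) * (1 / (n : ℝ) ^ 2)) := by
            gcongr
            exact hc n
        _ = _ := one_mul _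
  have hs : Summable fun n : ℕ => N ^ (-(z.re - 2)) * (1 / (n : ℝ) ^ 2) :=
    hasSum_zeta_two.summable.mul_left _
  refine ⟨Summable.of_norm_bounded hs hterm, ?_⟩
  refine (tsum_of_norm_bounded hs.hasSum hterm).trans ?_
  rw [tsum_mul_left, hasSum_zeta_two.tsum_eq]
  have h3 : Real.pi ^ 2 / 6 ≤ 2 := by
    have := Real.pi_lt_d2
    have := Real.pi_pos
    nlinarith
  have h4 : 0 ≤ N ^ (-(z.re - 2)) := by positivity
  nlinarith

lemma zeta_tsum {z : ℂ} (hz : 2 ≤ z.re) :
    riemannZeta z = ∑' n : ℕ, (if n = 0 then 0 else 1) * (n : ℂ) ^ (-z) := by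
  rw [zeta_eq_tsum_one_div_nat_cpow (by linarith)]
  refine tsum_congr fun n => ?_
  by_cases hn : n = 0
  · subst hn
    have : z ≠ 0 := by
      intro h
      rw [h] at hz
      simp at hz
      linarith
    simp [this]
  · rw [if_neg hn, one_mul, cpow_neg, one_div]

lemma zeta_le_two {z : ℂ} (hz : 2 ≤ z.re) : ‖riemannZeta z‖ ≤ 2 := by
  rw [zeta_tsum hz]
  have h := (dir_tail (c := fun n : ℕ => if n = 0 then 0 else 1) (N := 1) (z := z) le_rfl hz
    (by intro n; split_ifs <;> simp) (by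
      intro n hn
      have : n = 0 := by
        have : (n : ℝ) < 1 := hn
        have : n < 1 := by exact_mod_cast this
        omega
      simp [this])).2
  simpa using h

/-- the smooth partial sum -/
noncomputable def Q0 (T : ℝ) (z : ℂ) : ℂ :=
  ∑ n ∈ Finset.Icc 1 ⌊T⌋₊, (Vc (Real.log n / Real.log T) : ℂ) * (n : ℂ) ^ (-z)

lemma Vc_nonneg (x : ℝ) : 0 ≤ Vc x :=
  mul_nonneg (Real.smoothTransition.nonneg _) (Real.smoothTransition.nonneg _)

lemma Vc_le_one (x : ℝ) : Vc x ≤ 1 :=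
  mul_le_one₀ (Real.smoothTransition.le_one _) (Real.smoothTransition.nonneg _)
    (Real.smoothTransition.le_one _)

lemma Vc_one {x : ℝ} (h1 : -1 ≤ x) (h2 : x ≤ 5005 / 10000) : Vc x = 1 := by
  rw [Vc, Real.smoothTransition.one_of_one_le (by linarith),
    Real.smoothTransition.one_of_one_le (by linarith), mul_one]

lemma zeta_sub_Q0 {T : ℝ} (hT : 1 < T) {z : ℂ} (hz : 2 ≤ z.re) :
    ‖riemannZeta z - Q0 T z‖ ≤ 2 * Real.exp (-(5005 / 10000 * (z.re - 2)) * Real.log T) := by
  have hT0 : 0 < T := by linarith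
  have hL : 0 < Real.log T := Real.log_pos hT
  set q : ℕ → ℂ := fun n => if n ∈ Finset.Icc 1 ⌊T⌋₊ then (Vc (Real.log n / Real.log T) : ℂ) else 0
    with hq
  have h1 : Q0 T z = ∑' n : ℕ, q n * (n : ℂ) ^ (-z) := by
    rw [tsum_eq_sum (s := Finset.Icc 1 ⌊T⌋₊)]
    · unfold Q0
      refine Finset.sum_congr rfl fun n hn => ?_
      rw [hq]
      simp only [if_pos hn]
    · intro n hn
      rw [hq]
      simp only [if_neg hn, zero_mul]
  have hs1 : Summable fun n : ℕ => q n * (n : ℂ) ^ (-z) := by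
    refine summable_of_ne_finset_zero (s := Finset.Icc 1 ⌊T⌋₊) fun n hn => ?_
    rw [hq]
    simp only [if_neg hn, zero_mul]
  have hs2 : Summable fun n : ℕ => (if n = 0 then 0 else 1) * (n : ℂ) ^ (-z) :=
    (dir_tail (c := fun n : ℕ => if n = 0 then 0 else 1) (N := 1) (z := z) le_rfl hz
    (by intro n; split_ifs <;> simp) (by
      intro n hn
      have : n = 0 := by
        have : (n : ℝ) < 1 := hn
        have : n < 1 := by exact_mod_cast this
        omega
      simp [this])).1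
  have h2 : riemannZeta z - Q0 T z =
      ∑' n : ℕ, ((if n = 0 then 0 else 1) - q n) * (n : ℂ) ^ (-z) := by
    rw [zeta_tsum hz, h1, ← hs2.tsum_sub hs1]
    refine tsum_congr fun n => ?_
    rw [sub_mul]
  rw [h2]
  have hN : 1 ≤ T ^ (5005 / 10000 : ℝ) := Real.one_le_rpow hT.le (by norm_num)
  refine (dir_tail hN hz (c := fun n : ℕ => (if n = 0 then 0 else 1) - q n) ?_ ?_).2.trans ?_
  · intro n
    by_cases hn : n = 0
    · subst hn
      rw [hq]
      simp
    · by_cases hm : n ∈ Finset.Icc 1 ⌊T⌋₊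
      · rw [hq]
        simp only [if_neg hn, if_pos hm]
        have h3 : (1 : ℂ) - (Vc (Real.log n / Real.log T) : ℂ) =
          ((1 - Vc (Real.log n / Real.log T) : ℝ) : ℂ) := by push_cast; rfl
        rw [h3, norm_real, Real.norm_eq_abs, abs_of_nonneg (by linarith [Vc_le_one (Real.log n / Real.log T)])]
        linarith [Vc_nonneg (Real.log n / Real.log T)]
      · rw [hq]
        simp only [if_neg hn, if_neg hm]
        simp
  · intro n hn
    by_cases hn0 : n = 0
    · subst hn0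
      rw [hq]
      simp
    · have hnpos : 0 < n := Nat.pos_of_ne_zero hn0
      have hn1 : (1 : ℝ) ≤ n := by exact_mod_cast hnpos
      have hlog : Real.log n ≤ 5005 / 10000 * Real.log T := by
        rw [← Real.log_rpow hT0]
        exact Real.log_le_log (by linarith) hn.le
      have hnT : (n : ℝ) ≤ T := by
        refine hn.le.trans ?_
        calc T ^ (5005 / 10000 : ℝ) ≤ T ^ (1 : ℝ) :=
              Real.rpow_le_rpow_of_exponent_le hT.le (by norm_num)
          _ = T := Real.rpow_one T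
      have hm : n ∈ Finset.Icc 1 ⌊T⌋₊ := by
        rw [Finset.mem_Icc]
        exact ⟨hnpos, Nat.le_floor hnT⟩
      rw [hq]
      simp only [if_neg hn0, if_pos hm]
      rw [Vc_one]
      · simp
      · have : 0 ≤ Real.log n / Real.log T := div_nonneg (Real.log_nonneg hn1) hL.le
        linarith
      · rw [div_le_iff₀ hL]
        exact hlog
  · rw [← Real.rpow_mul hT0.le, Real.rpow_def_of_pos hT0]
    apply le_of_eq
    congr 2
    ring

lemma Q0_diff (T : ℝ) : Differentiable ℂ (Q0 T) := by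
  unfold Q0
  apply Differentiable.fun_sum
  intro n hn
  rw [Finset.mem_Icc] at hn
  apply Differentiable.const_mul
  intro z
  have : (n : ℂ) ≠ 0 := by
    have : n ≠ 0 := by omega
    exact_mod_cast this
  exact differentiableAt_id.neg.const_cpow (Or.inl this)

lemma Q0_EG (T : ℝ) (a b : ℝ) : EG a b (Q0 T) := by
  unfold Q0
  apply EG.sum
  intro n hn
  rw [Finset.mem_Icc] at hn
  apply (EG.const a b _).mul
  refine EG.of_le (M := (n : ℝ) ^ (-a)) fun w h1 h2 => ?_
  rw [norm_natCast_cpow_of_pos (by omega), neg_re]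
  have : (1 : ℝ) ≤ n := by exact_mod_cast hn.1
  exact Real.rpow_le_rpow_of_exponent_le this (by linarith)

/-! ### growth -/

lemma FF_EG {b : ℝ} : EG (1 / 2) b FF := by
  have hc : ContinuousOn Real.Gamma (Icc (1 / 2) b) := by
    intro x hx
    refine (Real.differentiableAt_Gamma fun m => ?_).continuousAt.continuousWithinAt
    have h1 : (0 : ℝ) < x := lt_of_lt_of_le (by norm_num) hx.1
    have h2 : (0 : ℝ) ≤ m := Nat.cast_nonneg m
    linarith
  obtain ⟨M, hM⟩ := isCompact_Icc.bddAbove_image hc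
  refine ⟨2 * max M 1, Real.pi / 2, by positivity, by positivity, fun s h1 h2 => ?_⟩
  unfold FF
  rw [norm_mul, norm_mul, norm_mul, norm_two_pi_cpow]
  have e1 : ‖(2 : ℂ)‖ = 2 := by simp
  have e2 : (2 * Real.pi) ^ (-s.re) ≤ 1 :=
    Real.rpow_le_one_of_one_le_of_nonpos (by linarith [Real.pi_gt_three]) (by linarith)
  have e3 : ‖Gamma s‖ ≤ max M 1 := (norm_Gamma_le (by linarith)).trans
    ((hM ⟨s.re, ⟨h1, h2⟩, rfl⟩).trans (le_max_left _ _))
  have e4 : ‖cos (Real.pi * s / 2)‖ ≤ Real.exp (Real.pi / 2 * |s.im|) := by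
    refine (norm_cos_le _).trans (Real.exp_le_exp.2 (le_of_eq ?_))
    have : (Real.pi * s / 2 : ℂ).im = Real.pi / 2 * s.im := by
      rw [show (Real.pi * s / 2 : ℂ) = ((Real.pi / 2 : ℝ) : ℂ) * s by push_cast; ring, im_ofReal_mul]
    rw [this, abs_mul, abs_of_pos (by positivity)]
  rw [e1]
  calc 2 * (2 * Real.pi) ^ (-s.re) * ‖Gamma s‖ * ‖cos (Real.pi * s / 2)‖
      ≤ 2 * 1 * max M 1 * Real.exp (Real.pi / 2 * |s.im|) := by gcongr
    _ = _ := by ring

lemma zeta1_eq {z : ℂ} (hz : z ≠ 1) : riemannZeta₁ z = (z - 1) * riemannZeta z := by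
  have h : z - 1 ≠ 0 := sub_ne_zero.2 hz
  rw [riemannZeta_eq_inv_sub_mul hz]
  field_simp

lemma zeta1_right {a b : ℝ} (ha : 1 / 8 ≤ a) : EG a b riemannZeta₁ := by
  obtain ⟨C, hC, hb⟩ := zeta_growth
  have h1 : EG a b (fun w => w - 1) := (EG.id a b).sub (EG.const a b 1)
  obtain ⟨M, c, hM, hc, h2⟩ := h1
  refine ⟨C * 2 + 2 * M, c + 2, by positivity, by positivity, fun z h3 h4 => ?_⟩
  have hexp : 0 ≤ c * |z.im| := by positivity
  rcases le_total z.re 10 with h5 | h5
  · have h6 := hb z (ha.trans h3) h5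
    have h7 : (1 + |z.im|) ^ 2 ≤ Real.exp ((c + 2) * |z.im|) := by
      have := Real.add_one_le_exp |z.im|
      calc (1 + |z.im|) ^ 2 ≤ (Real.exp |z.im|) ^ 2 := by
            gcongr
            linarith
        _ = Real.exp (2 * |z.im|) := by rw [← Real.exp_nat_mul]; norm_num
        _ ≤ _ := Real.exp_le_exp.2 (by linarith)
    calc ‖riemannZeta₁ z‖ ≤ C * (1 + |z.im|) ^ 2 := h6
      _ ≤ C * Real.exp ((c + 2) * |z.im|) := by gcongr
      _ ≤ (C * 2 + 2 * M) * Real.exp ((c + 2) * |z.im|) := by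
          gcongr
          linarith
  · have hz : z ≠ 1 := by
      intro h
      rw [h, one_re] at h5
      linarith
    rw [zeta1_eq hz, norm_mul]
    have h6 := zeta_le_two (z := z) (by linarith)
    have h7 := h2 z h3 h4
    calc ‖z - 1‖ * ‖riemannZeta z‖ ≤ (M * Real.exp (c * |z.im|)) * 2 := by gcongr
      _ ≤ (M * Real.exp ((c + 2) * |z.im|)) * 2 := by
          gcongr
          linarith
      _ ≤ (C * 2 + 2 * M) * Real.exp ((c + 2) * |z.im|) := by
          have := Real.exp_pos ((c + 2) * |z.im|)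
          nlinarith

lemma zeta_fe' {z : ℂ} (hz : 1 / 2 ≤ z.re) (hz1 : z ≠ 1) :
    riemannZeta (1 - z) = FF z * riemannZeta z := by
  have h2 : ∀ n : ℕ, z ≠ -n := by
    intro n h
    rw [h] at hz
    simp only [neg_re, natCast_re] at hz
    have : (0 : ℝ) ≤ n := Nat.cast_nonneg n
    linarith
  rw [riemannZeta_one_sub h2 hz1]
  rfl

lemma zeta1_EG (b : ℝ) : EG (-b) b riemannZeta₁ := by
  -- large imaginary part
  obtain ⟨M, c, hM, hc, h1⟩ := zeta1_right (a := 1 / 8) (b := max b 1) le_rfl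
  obtain ⟨M2, c2, hM2, hc2, h2⟩ := zeta1_right (a := 1 / 8) (b := 1 + max b 1) le_rfl
  obtain ⟨M3, c3, hM3, hc3, h3⟩ := FF_EG (b := 1 + max b 1)
  obtain ⟨M4, c4, hM4, hc4, h4⟩ := (EG.id (-max b 1) 1).sub (EG.const (-max b 1) 1 1)
  refine EG.of_far (M := M + M4 * (M3 * M2)) (c := c + (c4 + (c3 + c2)))
    differentiable_riemannZeta₁.continuous (by positivity) (by positivity) ?_
  intro z h5 h6 h7
  have hb1 : b ≤ max b 1 := le_max_left _ _
  have hb2 : 1 ≤ max b 1 := le_max_right _ _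
  rcases le_total (1 / 8) z.re with h8 | h8
  · have h9 := h1 z h8 (h6.trans hb1)
    have h10 : Real.exp (c * |z.im|) ≤ Real.exp ((c + (c4 + (c3 + c2))) * |z.im|) := by
      apply Real.exp_le_exp.2
      gcongr
      linarith
    calc ‖riemannZeta₁ z‖ ≤ M * Real.exp (c * |z.im|) := h9
      _ ≤ M * Real.exp ((c + (c4 + (c3 + c2))) * |z.im|) := by gcongr
      _ ≤ _ := by
        gcongr
        have : 0 ≤ M4 * (M3 * M2) := by positivity
        linarith
  · have hz1 : z ≠ 1 := by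
      intro h
      rw [h, one_re] at h8
      linarith
    have hnz : 1 ≤ ‖z‖ := h7.trans (abs_im_le_norm z)
    have hz0 : z ≠ 0 := by
      intro h
      rw [h, norm_zero] at hnz
      linarith
    have hre : (1 - z).re = 1 - z.re := by simp
    have him : |(1 - z).im| = |z.im| := by simp
    have h1z : 1 - z ≠ 1 := by
      intro h
      apply hz0
      linear_combination -h
    have h9 : riemannZeta z = FF (1 - z) * riemannZeta (1 - z) := by
      have := zeta_fe' (z := 1 - z) (by rw [hre]; linarith) h1z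
      rwa [sub_sub_cancel] at this
    have h10 : riemannZeta (1 - z) = riemannZeta₁ (1 - z) * (-z)⁻¹ := by
      rw [zeta1_eq h1z]
      field_simp
      ring
    have h11 := h2 (1 - z) (by rw [hre]; linarith) (by rw [hre]; linarith)
    have h12 := h3 (1 - z) (by rw [hre]; linarith) (by rw [hre]; linarith)
    have h13 := h4 z (by linarith) (by linarith)
    rw [him] at h11 h12
    rw [zeta1_eq hz1, h9, h10, norm_mul, norm_mul, norm_mul, norm_inv, norm_neg]
    have h14 : ‖z‖⁻¹ ≤ 1 := inv_le_one_of_one_le₀ hnz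
    calc ‖z - 1‖ * (‖FF (1 - z)‖ * (‖riemannZeta₁ (1 - z)‖ * ‖z‖⁻¹))
        ≤ (M4 * Real.exp (c4 * |z.im|)) * ((M3 * Real.exp (c3 * |z.im|)) *
          ((M2 * Real.exp (c2 * |z.im|)) * 1)) := by gcongr
      _ = (M4 * (M3 * M2)) * Real.exp ((c4 + (c3 + c2)) * |z.im|) := by
          rw [add_mul, add_mul, Real.exp_add, Real.exp_add]
          ring
      _ ≤ (M + M4 * (M3 * M2)) * Real.exp ((c + (c4 + (c3 + c2))) * |z.im|) := by
          have e1 : Real.exp ((c4 + (c3 + c2)) * |z.im|) ≤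
              Real.exp ((c + (c4 + (c3 + c2))) * |z.im|) :=
            Real.exp_le_exp.2 (by nlinarith [mul_nonneg hc (abs_nonneg z.im)])
          have e2 : M4 * (M3 * M2) ≤ M + M4 * (M3 * M2) := by linarith
          exact mul_le_mul e2 e1 (Real.exp_pos _).le (by positivity)

/-! ### the kernel -/

/-- `(e^z - 1) / z` -/
noncomputable def E1 (z : ℂ) : ℂ := dslope cexp 0 z

lemma E1_diff : Differentiable ℂ E1 := by
  unfold E1
  rw [← differentiableOn_univ]
  exact (differentiableOn_dslope Filter.univ_mem).mpr differentiable_exp.differentiableOn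

lemma E1_zero : E1 0 = 1 := by
  unfold E1
  rw [dslope_same]
  simp

lemma E1_ne {z : ℂ} (hz : z ≠ 0) : E1 z = (cexp z - 1) / z := by
  unfold E1
  rw [dslope_of_ne _ hz, slope_def_field]
  simp

lemma E1_bound (z : ℂ) : ‖E1 z‖ ≤ 4 * Real.exp (max z.re 0) / (1 + ‖z‖) := by
  have hpos : 0 < 1 + ‖z‖ := by positivity
  have hexp : 1 ≤ Real.exp (max z.re 0) := Real.one_le_exp (le_max_right _ _)
  rcases le_total ‖z‖ 1 with h | h
  · -- small argument
    have h1 : ‖E1 z‖ ≤ 2 := by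
      by_cases hz : z = 0
      · rw [hz, E1_zero, norm_one]
        norm_num
      · rw [E1_ne hz, norm_div, div_le_iff₀ (by positivity)]
        have := Complex.norm_exp_sub_one_le h
        linarith
    rw [le_div_iff₀ hpos]
    nlinarith [norm_nonneg (E1 z)]
  · have hz : z ≠ 0 := by
      intro h'
      rw [h', norm_zero] at h
      linarith
    rw [E1_ne hz, norm_div, div_le_div_iff₀ (by linarith) hpos]
    have h1 : ‖cexp z - 1‖ ≤ 2 * Real.exp (max z.re 0) := by
      calc ‖cexp z - 1‖ ≤ ‖cexp z‖ + ‖(1 : ℂ)‖ := norm_sub_le _ _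
        _ = Real.exp z.re + 1 := by rw [norm_exp, norm_one]
        _ ≤ Real.exp (max z.re 0) + Real.exp (max z.re 0) := by
            gcongr
            exact le_max_left _ _
        _ = _ := by ring
    have h2 : 1 + ‖z‖ ≤ 2 * ‖z‖ := by linarith
    calc ‖cexp z - 1‖ * (1 + ‖z‖) ≤ (2 * Real.exp (max z.re 0)) * (2 * ‖z‖) := by gcongr
      _ = _ := by ring

/-- the kernel without the Gaussian factor -/
noncomputable def gi (L κ : ℝ) (K : ℕ) (w : ℂ) : ℂ := cexp (L * w / 2) * E1 (κ * L * w) ^ K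

lemma gi_diff (L κ : ℝ) (K : ℕ) : Differentiable ℂ (gi L κ K) := by
  unfold gi
  apply Differentiable.mul (by fun_prop)
  apply Differentiable.fun_pow
  exact E1_diff.comp (by fun_prop)

lemma gi_zero (L κ : ℝ) (K : ℕ) : gi L κ K 0 = 1 := by
  unfold gi
  simp [E1_zero]

lemma gi_norm (L κ : ℝ) (K : ℕ) (w : ℂ) (hL : 0 ≤ L) (hκ : 0 ≤ κ) : ‖gi L κ K w‖ ≤
    Real.exp (L * w.re / 2) * (4 * Real.exp (κ * L * max w.re 0) / (1 + κ * L * ‖w‖)) ^ K := by
  unfold gi
  rw [norm_mul, norm_exp, norm_pow]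
  have e1 : (L * w / 2 : ℂ).re = L * w.re / 2 := by
    rw [show (L * w / 2 : ℂ) = ((L / 2 : ℝ) : ℂ) * w by push_cast; ring, re_ofReal_mul]
    ring
  have h1 := E1_bound (κ * L * w)
  have e2 : (κ * L * w : ℂ).re = κ * L * w.re := by
    rw [show (κ * L * w : ℂ) = ((κ * L : ℝ) : ℂ) * w by push_cast; ring, re_ofReal_mul]
  have e3 : ‖(κ * L * w : ℂ)‖ = κ * L * ‖w‖ := by
    rw [show (κ * L * w : ℂ) = ((κ * L : ℝ) : ℂ) * w by push_cast; ring, norm_mul, norm_real,
      Real.norm_eq_abs, abs_of_nonneg (by positivity)]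
  have e4 : max (κ * L * w.re) 0 = κ * L * max w.re 0 := by
    rw [mul_max_of_nonneg _ _ (by positivity), mul_zero]
  rw [e1]
  rw [e2, e3, e4] at h1
  gcongr

lemma gi_EG (L κ : ℝ) (K : ℕ) (hL : 0 ≤ L) (hκ : 0 ≤ κ) (a b : ℝ) : EG a b (gi L κ K) := by
  refine EG.of_le (M := Real.exp (L * b / 2) * (4 * Real.exp (κ * L * max b 0)) ^ K)
    fun w h1 h2 => ?_
  refine (gi_norm L κ K w hL hκ).trans ?_
  have h3 : 4 * Real.exp (κ * L * max w.re 0) / (1 + κ * L * ‖w‖) ≤
      4 * Real.exp (κ * L * max b 0) := by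
    refine (div_le_self (by positivity) ?_).trans ?_
    · have : 0 ≤ κ * L * ‖w‖ := by positivity
      linarith
    · gcongr
  gcongr

end Afe

end F4
end Pool.Agent.Lib.MP_973905_nt
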