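import Pool.Agent.Lib.MP_973905_nt.F4.Stmts
import Pool.Agent.Lib.MP_973905_nt.F4.GammaC

/-! The exact integral of the zero frequency. -/

namespace Pool.Agent.Lib.MP_973905_nt
namespace F4
namespace Beta

open MeasureTheory Complex Filter Topology Set

lemma one_add_re (v : ℝ) : (1 + (v : ℂ) * I).re = 1 := by simp

lemma one_add_ne (v : ℝ) : (1 + (v : ℂ) * I) ≠ 0 := by
  intro h
  have := one_add_re v
  rw [h] at this
  simp at this

lemma one_add_slit (v : ℝ) : (1 + (v : ℂ) * I) ∈ slitPlane := by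
  left
  rw [one_add_re]; exact one_pos

lemma one_div_cpow {r : ℂ} (hr : r ∈ slitPlane) (c : ℂ) : (1 / r) ^ c = r ^ (-c) := by
  rw [one_div, inv_cpow _ _ (slitPlane_arg_ne_pi hr), cpow_neg]

/-- Size of complex powers. -/
lemma norm_cpow_le_exp (z w : ℂ) : ‖z ^ w‖ ≤ ‖z‖ ^ w.re * Real.exp (Real.pi * |w.im|) := by
  refine (norm_cpow_le z w).trans ?_
  rw [div_eq_mul_inv, ← Real.exp_neg]
  have h : -(arg z * w.im) ≤ Real.pi * |w.im| := by
    calc -(arg z * w.im) ≤ |arg z * w.im| := neg_le_abs _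
      _ = |arg z| * |w.im| := abs_mul _ _
      _ ≤ Real.pi * |w.im| := by
        gcongr
        exact abs_arg_le_pi z
  gcongr

lemma norm_one_add_ge_one (v : ℝ) : 1 ≤ ‖1 + (v : ℂ) * I‖ := by
  have := abs_re_le_norm (1 + (v : ℂ) * I)
  rw [one_add_re] at this
  simpa using this

lemma norm_one_add_ge (v : ℝ) : |v| ≤ ‖1 + (v : ℂ) * I‖ := by
  have := abs_im_le_norm (1 + (v : ℂ) * I)
  simpa using this

lemma measurable_fun (x : ℝ) (s c : ℂ) :
    Measurable (fun u : ℝ => (u : ℂ) ^ (s - 1) * (1 + ((x * u : ℝ) : ℂ) * I) ^ (-c)) := by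
  fun_prop

lemma integrable_fun {x : ℝ} (hx : x ≠ 0) {s c : ℂ} (hs : 0 < s.re) (hsc : s.re < c.re) :
    IntegrableOn (fun u : ℝ => (u : ℂ) ^ (s - 1) * (1 + ((x * u : ℝ) : ℂ) * I) ^ (-c))
      (Ioi 0) := by
  have hx' : 0 < |x| := abs_pos.2 hx
  have hsplit : Ioi (0 : ℝ) = Ioc 0 1 ∪ Ioi 1 := by
    rw [Ioc_union_Ioi_eq_Ioi zero_le_one]
  rw [hsplit]
  set E := Real.exp (Real.pi * |c.im|) with hE
  have hE0 : 0 < E := Real.exp_pos _
  have hnorm : ∀ u : ℝ, ‖(1 + ((x * u : ℝ) : ℂ) * I) ^ (-c)‖ ≤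
      ‖1 + ((x * u : ℝ) : ℂ) * I‖ ^ (-c.re) * E := by
    intro u
    have := norm_cpow_le_exp (1 + ((x * u : ℝ) : ℂ) * I) (-c)
    simpa [hE] using this
  apply IntegrableOn.union
  · have h1 : IntegrableOn (fun u : ℝ => E * u ^ (s.re - 1)) (Ioc 0 1) := by
      apply Integrable.const_mul
      have := (intervalIntegral.intervalIntegrable_rpow' (a := 0) (b := 1) (r := s.re - 1)
        (by linarith))
      rw [intervalIntegrable_iff_integrableOn_Ioc_of_le zero_le_one] at this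
      exact this
    refine Integrable.mono' h1 (measurable_fun x s c).aestronglyMeasurable ?_
    rw [ae_restrict_iff' measurableSet_Ioc]
    refine Eventually.of_forall fun u hu => ?_
    rw [norm_mul, norm_cpow_eq_rpow_re_of_pos hu.1]
    have h2 : ‖1 + ((x * u : ℝ) : ℂ) * I‖ ^ (-c.re) ≤ 1 := by
      apply Real.rpow_le_one_of_one_le_of_nonpos (norm_one_add_ge_one _)
      linarith
    have h3 : 0 ≤ u ^ (s - 1).re := Real.rpow_nonneg hu.1.le _
    calc u ^ (s - 1).re * ‖(1 + ((x * u : ℝ) : ℂ) * I) ^ (-c)‖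
        ≤ u ^ (s - 1).re * (1 * E) := by
          gcongr
          exact (hnorm u).trans (by gcongr)
      _ = E * u ^ (s.re - 1) := by simp; ring
  · have h1 : IntegrableOn (fun u : ℝ => (E * |x| ^ (-c.re)) * u ^ (s.re - 1 - c.re)) (Ioi 1) := by
      apply Integrable.const_mul
      exact integrableOn_Ioi_rpow_of_lt (by linarith) one_pos
    refine Integrable.mono' h1 (measurable_fun x s c).aestronglyMeasurable ?_
    rw [ae_restrict_iff' measurableSet_Ioi]
    refine Eventually.of_forall fun u hu => ?_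
    have hu0 : (0 : ℝ) < u := lt_trans one_pos hu
    rw [norm_mul, norm_cpow_eq_rpow_re_of_pos hu0]
    have h2 : ‖1 + ((x * u : ℝ) : ℂ) * I‖ ^ (-c.re) ≤ (|x| * u) ^ (-c.re) := by
      apply Real.rpow_le_rpow_of_nonpos (by positivity)
      · have := norm_one_add_ge (x * u)
        rwa [abs_mul, abs_of_pos hu0] at this
      · linarith
    have h3 : 0 ≤ u ^ (s - 1).re := Real.rpow_nonneg hu0.le _
    calc u ^ (s - 1).re * ‖(1 + ((x * u : ℝ) : ℂ) * I) ^ (-c)‖
        ≤ u ^ (s - 1).re * ((|x| * u) ^ (-c.re) * E) := by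
          gcongr
          exact (hnorm u).trans (by gcongr)
      _ = (E * |x| ^ (-c.re)) * u ^ (s.re - 1 - c.re) := by
          rw [Real.mul_rpow hx'.le hu0.le, show s.re - 1 - c.re = (s.re - 1) + (-c.re) by ring,
            Real.rpow_add hu0]
          simp; ring

/-- The regularised identity. -/
lemma regular {x : ℝ} {s c : ℂ} (hs : 0 < s.re) (hc : 0 < c.re) {ε : ℝ}
    (hε : 0 < ε) :
    ∫ u in Ioi (0 : ℝ), cexp (-((ε : ℂ) * u)) *
        ((u : ℂ) ^ (s - 1) * (Gamma c * (1 + ((x * u : ℝ) : ℂ) * I) ^ (-c))) =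
      ∫ y in Ioi (0 : ℝ), ((y : ℂ) ^ (c - 1) * cexp (-(1 * (y : ℂ)))) *
        ((1 / ((ε : ℂ) + ((x * y : ℝ) : ℂ) * I)) ^ s * Gamma s) := by
  set F : ℝ → ℝ → ℂ := fun u y => ((u : ℂ) ^ (s - 1) * cexp (-((ε : ℂ) * u))) *
    ((y : ℂ) ^ (c - 1) * cexp (-(1 * (y : ℂ)))) * cexp (-(((x * u * y : ℝ) : ℂ) * I)) with hF
  have hε' : 0 < ((ε : ℝ) : ℂ).re := by simpa using hε
  have hint : Integrable (Function.uncurry F)
      ((volume.restrict (Ioi (0 : ℝ))).prod (volume.restrict (Ioi (0 : ℝ)))) := by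
    have h1 := (GammaC.integrable_main hs hε').mul_prod
      (GammaC.integrable_main (a := c) (r := 1) hc (by simp))
    refine h1.mono ?_ ?_
    · have : Measurable (Function.uncurry F) := by
        rw [hF]
        unfold Function.uncurry
        fun_prop
      exact this.aestronglyMeasurable
    · refine Eventually.of_forall fun p => ?_
      simp only [Function.uncurry, hF]
      rw [norm_mul]
      have : ‖cexp (-(((x * p.1 * p.2 : ℝ) : ℂ) * I))‖ = 1 := by
        rw [norm_exp]; simp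
      rw [this, mul_one]
  have hswap := integral_integral_swap hint
  have hL : ∀ u : ℝ, ∫ y in Ioi (0 : ℝ), F u y = cexp (-((ε : ℂ) * u)) *
        ((u : ℂ) ^ (s - 1) * (Gamma c * (1 + ((x * u : ℝ) : ℂ) * I) ^ (-c))) := by
    intro u
    have h1 := GammaC.gammaC (a := c) (r := 1 + ((x * u : ℝ) : ℂ) * I) hc
      (by rw [one_add_re]; exact one_pos)
    rw [one_div_cpow (one_add_slit _)] at h1
    have h2 : ∀ y : ℝ, F u y = (cexp (-((ε : ℂ) * u)) * (u : ℂ) ^ (s - 1)) *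
        ((y : ℂ) ^ (c - 1) * cexp (-((1 + ((x * u : ℝ) : ℂ) * I) * y))) := by
      intro y
      simp only [hF]
      have : cexp (-((1 + ((x * u : ℝ) : ℂ) * I) * y)) =
          cexp (-(1 * (y : ℂ))) * cexp (-(((x * u * y : ℝ) : ℂ) * I)) := by
        rw [← Complex.exp_add]; congr 1; push_cast; ring
      rw [this]; ring
    simp_rw [h2]
    rw [integral_const_mul, h1]
    ring
  have hR : ∀ y : ℝ, ∫ u in Ioi (0 : ℝ), F u y = ((y : ℂ) ^ (c - 1) * cexp (-(1 * (y : ℂ)))) *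
        ((1 / ((ε : ℂ) + ((x * y : ℝ) : ℂ) * I)) ^ s * Gamma s) := by
    intro y
    have h1 := GammaC.gammaC (a := s) (r := (ε : ℂ) + ((x * y : ℝ) : ℂ) * I) hs
      (by simpa using hε)
    have h2 : ∀ u : ℝ, F u y = ((y : ℂ) ^ (c - 1) * cexp (-(1 * (y : ℂ)))) *
        ((u : ℂ) ^ (s - 1) * cexp (-(((ε : ℂ) + ((x * y : ℝ) : ℂ) * I) * u))) := by
      intro u
      simp only [hF]
      have : cexp (-(((ε : ℂ) + ((x * y : ℝ) : ℂ) * I) * u)) =
          cexp (-((ε : ℂ) * u)) * cexp (-(((x * u * y : ℝ) : ℂ) * I)) := by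
        rw [← Complex.exp_add]; congr 1; push_cast; ring
      rw [this]; ring
    simp_rw [h2]
    rw [integral_const_mul, h1]
  simp_rw [hL, hR] at hswap
  exact hswap

lemma real_mul_cpow {r : ℝ} (hr : 0 < r) {z : ℂ} (hz : z ≠ 0) (s : ℂ) :
    ((r : ℂ) * z) ^ s = (r : ℂ) ^ s * z ^ s := by
  have hr' : (r : ℂ) ≠ 0 := by exact_mod_cast hr.ne'
  rw [cpow_def_of_ne_zero (mul_ne_zero hr' hz), cpow_def_of_ne_zero hr', cpow_def_of_ne_zero hz,
    log_ofReal_mul hr hz, ← Complex.exp_add, ofReal_log hr.le]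
  congr 1; ring

/-- The limit of the regularised identity. -/
lemma half {x : ℝ} (hx : x ≠ 0) {s c : ℂ} (hs : 0 < s.re) (hsc : s.re < c.re) :
    ∫ u in Ioi (0 : ℝ), (u : ℂ) ^ (s - 1) * (Gamma c * (1 + ((x * u : ℝ) : ℂ) * I) ^ (-c)) =
      Gamma s * Gamma (c - s) * (1 / ((x : ℂ) * I)) ^ s := by
  have hc : 0 < c.re := hs.trans hsc
  have hx' : 0 < |x| := abs_pos.2 hx
  have hI : Integrable (fun u : ℝ => (u : ℂ) ^ (s - 1) *
      (Gamma c * (1 + ((x * u : ℝ) : ℂ) * I) ^ (-c))) (volume.restrict (Ioi 0)) := by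
    have := (integrable_fun hx hs hsc).const_mul (Gamma c)
    refine this.congr (Eventually.of_forall fun u => ?_)
    simp only; ring
  -- left side
  have hLlim : Tendsto (fun ε : ℝ => ∫ u in Ioi (0 : ℝ), cexp (-((ε : ℂ) * u)) *
        ((u : ℂ) ^ (s - 1) * (Gamma c * (1 + ((x * u : ℝ) : ℂ) * I) ^ (-c)))) (𝓝[>] 0)
      (𝓝 (∫ u in Ioi (0 : ℝ), (u : ℂ) ^ (s - 1) *
        (Gamma c * (1 + ((x * u : ℝ) : ℂ) * I) ^ (-c)))) := by
    apply MeasureTheory.tendsto_integral_filter_of_dominated_convergence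
      (fun u : ℝ => ‖(u : ℂ) ^ (s - 1) * (Gamma c * (1 + ((x * u : ℝ) : ℂ) * I) ^ (-c))‖)
    · refine Eventually.of_forall fun ε => ?_
      have : Measurable (fun u : ℝ => cexp (-((ε : ℂ) * u)) *
        ((u : ℂ) ^ (s - 1) * (Gamma c * (1 + ((x * u : ℝ) : ℂ) * I) ^ (-c)))) := by fun_prop
      exact this.aestronglyMeasurable
    · refine eventually_nhdsWithin_of_forall fun ε hε => ?_
      rw [ae_restrict_iff' measurableSet_Ioi]
      refine Eventually.of_forall fun u hu => ?_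
      rw [norm_mul]
      have h1 : ‖cexp (-((ε : ℂ) * u))‖ ≤ 1 := by
        rw [norm_exp]
        apply Real.exp_le_one_iff.2
        have hε' : (0 : ℝ) < ε := hε
        have hu' : (0 : ℝ) < u := hu
        simp
        positivity
      calc _ ≤ 1 * ‖(u : ℂ) ^ (s - 1) * (Gamma c * (1 + ((x * u : ℝ) : ℂ) * I) ^ (-c))‖ := by
            gcongr
        _ = _ := one_mul _
    · exact hI.norm
    · refine Eventually.of_forall fun u => ?_
      have h1 : Tendsto (fun ε : ℝ => cexp (-((ε : ℂ) * u))) (𝓝[>] 0) (𝓝 1) := by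
        have : Continuous (fun ε : ℝ => cexp (-((ε : ℂ) * u))) := by fun_prop
        have h2 := this.tendsto 0
        simp only [ofReal_zero, zero_mul, neg_zero, Complex.exp_zero] at h2
        exact h2.mono_left nhdsWithin_le_nhds
      have := h1.mul_const ((u : ℂ) ^ (s - 1) * (Gamma c * (1 + ((x * u : ℝ) : ℂ) * I) ^ (-c)))
      rwa [one_mul] at this
  -- right side
  have hdom : Integrable (fun y : ℝ => (|x| ^ (-s.re) * Real.exp (Real.pi * |s.im|) * ‖Gamma s‖) *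
      (y ^ ((c.re - s.re) - 1) * Real.exp (-(1 * y)))) (volume.restrict (Ioi 0)) :=
    (GammaC.integrable_real (by linarith) one_pos).const_mul _
  have hRlim : Tendsto (fun ε : ℝ => ∫ y in Ioi (0 : ℝ),
        ((y : ℂ) ^ (c - 1) * cexp (-(1 * (y : ℂ)))) *
          ((1 / ((ε : ℂ) + ((x * y : ℝ) : ℂ) * I)) ^ s * Gamma s)) (𝓝[>] 0)
      (𝓝 (∫ y in Ioi (0 : ℝ), ((y : ℂ) ^ (c - 1) * cexp (-(1 * (y : ℂ)))) *
          ((1 / (((x * y : ℝ) : ℂ) * I)) ^ s * Gamma s))) := by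
    apply MeasureTheory.tendsto_integral_filter_of_dominated_convergence
      (fun y : ℝ => (|x| ^ (-s.re) * Real.exp (Real.pi * |s.im|) * ‖Gamma s‖) *
      (y ^ ((c.re - s.re) - 1) * Real.exp (-(1 * y))))
    · refine Eventually.of_forall fun ε => ?_
      have : Measurable (fun y : ℝ => ((y : ℂ) ^ (c - 1) * cexp (-(1 * (y : ℂ)))) *
          ((1 / ((ε : ℂ) + ((x * y : ℝ) : ℂ) * I)) ^ s * Gamma s)) := by fun_prop
      exact this.aestronglyMeasurable
    · refine eventually_nhdsWithin_of_forall fun ε hε => ?_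
      rw [ae_restrict_iff' measurableSet_Ioi]
      refine Eventually.of_forall fun y hy => ?_
      have hy' : (0 : ℝ) < y := hy
      have hε' : (0 : ℝ) < ε := hε
      rw [norm_mul, norm_mul (_ ^ s), GammaC.norm_main c 1 hy', one_re]
      have h1 : ‖(1 / ((ε : ℂ) + ((x * y : ℝ) : ℂ) * I)) ^ s‖ ≤
          (|x| * y) ^ (-s.re) * Real.exp (Real.pi * |s.im|) := by
        refine (norm_cpow_le_exp _ _).trans ?_
        gcongr
        rw [norm_div, norm_one, one_div, Real.inv_rpow (norm_nonneg _),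
          ← Real.rpow_neg (norm_nonneg _)]
        apply Real.rpow_le_rpow_of_nonpos (by positivity)
        · have := abs_im_le_norm ((ε : ℂ) + ((x * y : ℝ) : ℂ) * I)
          simpa [abs_mul, abs_of_pos hy'] using this
        · linarith
      have h3 : 0 ≤ y ^ (c.re - 1) := Real.rpow_nonneg hy'.le _
      calc y ^ (c.re - 1) * Real.exp (-(1 * y)) *
            (‖(1 / ((ε : ℂ) + ((x * y : ℝ) : ℂ) * I)) ^ s‖ * ‖Gamma s‖)
          ≤ y ^ (c.re - 1) * Real.exp (-(1 * y)) *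
            (((|x| * y) ^ (-s.re) * Real.exp (Real.pi * |s.im|)) * ‖Gamma s‖) := by gcongr
        _ = _ := by
          rw [Real.mul_rpow hx'.le hy'.le,
            show (c.re - s.re) - 1 = (c.re - 1) + (-s.re) by ring, Real.rpow_add hy']
          ring
    · exact hdom
    · rw [ae_restrict_iff' measurableSet_Ioi]
      refine Eventually.of_forall fun y hy => ?_
      have hy' : (0 : ℝ) < y := hy
      have hxy : x * y ≠ 0 := mul_ne_zero hx hy'.ne'
      have hne : (((x * y : ℝ) : ℂ) * I) ≠ 0 := mul_ne_zero (by exact_mod_cast hxy) I_ne_zero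
      have hslit : (1 / (((x * y : ℝ) : ℂ) * I)) ∈ slitPlane := by
        right
        have : 1 / (((x * y : ℝ) : ℂ) * I) = -(((x * y)⁻¹ : ℝ) : ℂ) * I := by
          rw [one_div, mul_inv, inv_I]; push_cast; ring
        rw [this]
        simp only [mul_im, neg_re, ofReal_re, I_im, mul_one, neg_im, ofReal_im, neg_zero, I_re,
          mul_zero, add_zero]
        exact neg_ne_zero.2 (inv_ne_zero hxy)
      have h1 : Tendsto (fun ε : ℝ => 1 / ((ε : ℂ) + ((x * y : ℝ) : ℂ) * I)) (𝓝[>] 0)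
          (𝓝 (1 / (((x * y : ℝ) : ℂ) * I))) := by
        have h2 : Tendsto (fun ε : ℝ => (ε : ℂ) + ((x * y : ℝ) : ℂ) * I) (𝓝[>] 0)
            (𝓝 (((x * y : ℝ) : ℂ) * I)) := by
          have : Continuous (fun ε : ℝ => (ε : ℂ) + ((x * y : ℝ) : ℂ) * I) := by fun_prop
          have h3 := this.tendsto 0
          rw [ofReal_zero, zero_add] at h3
          exact h3.mono_left nhdsWithin_le_nhds
        simpa only [one_div] using h2.inv₀ hne
      have h4 := (h1.cpow (tendsto_const_nhds (x := s)) hslit)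
      exact (h4.mul_const _).const_mul _
  have heq : (fun ε : ℝ => ∫ u in Ioi (0 : ℝ), cexp (-((ε : ℂ) * u)) *
        ((u : ℂ) ^ (s - 1) * (Gamma c * (1 + ((x * u : ℝ) : ℂ) * I) ^ (-c)))) =ᶠ[𝓝[>] 0]
      (fun ε : ℝ => ∫ y in Ioi (0 : ℝ),
        ((y : ℂ) ^ (c - 1) * cexp (-(1 * (y : ℂ)))) *
          ((1 / ((ε : ℂ) + ((x * y : ℝ) : ℂ) * I)) ^ s * Gamma s)) :=
    eventually_nhdsWithin_of_forall fun ε hε => regular hs hc hε
  have hfin := tendsto_nhds_unique (hLlim.congr' heq) hRlim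
  rw [hfin]
  have hxI : (1 / ((x : ℂ) * I)) ≠ 0 :=
    one_div_ne_zero (mul_ne_zero (by exact_mod_cast hx) I_ne_zero)
  have h5 : ∀ y ∈ Ioi (0 : ℝ), ((y : ℂ) ^ (c - 1) * cexp (-(1 * (y : ℂ)))) *
          ((1 / (((x * y : ℝ) : ℂ) * I)) ^ s * Gamma s) =
        (Gamma s * (1 / ((x : ℂ) * I)) ^ s) *
          ((y : ℂ) ^ ((c - s) - 1) * cexp (-(1 * (y : ℂ)))) := by
    intro y hy
    have hy' : (0 : ℝ) < y := hy
    have hyc : (y : ℂ) ≠ 0 := by exact_mod_cast hy'.ne'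
    have e1 : 1 / (((x * y : ℝ) : ℂ) * I) = ((y⁻¹ : ℝ) : ℂ) * (1 / ((x : ℂ) * I)) := by
      have : (x : ℂ) ≠ 0 := by exact_mod_cast hx
      push_cast
      field_simp
    have e2 : ((y⁻¹ : ℝ) : ℂ) ^ s = (y : ℂ) ^ (-s) := by
      rw [ofReal_inv, inv_cpow _ _ (by
        rw [arg_ofReal_of_nonneg hy'.le]; exact Real.pi_pos.ne), cpow_neg]
    rw [e1, real_mul_cpow (inv_pos.2 hy') hxI, e2,
      show (c - s) - 1 = (c - 1) + (-s) by ring, cpow_add _ _ hyc]
    ring
  rw [setIntegral_congr_fun measurableSet_Ioi h5, integral_const_mul,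
    GammaC.gammaC (a := c - s) (r := 1) (by rw [sub_re]; linarith) (by simp)]
  simp only [one_div, inv_one, one_cpow]
  ring

end Beta

open Beta MeasureTheory Complex Filter Topology Set in
theorem stBeta : StBeta := by
  intro X s c hX hs hsc
  have hX0 : X ≠ 0 := hX.ne'
  have hnX : -X ≠ 0 := neg_ne_zero.2 hX0
  have hk : ∀ (x : ℝ), IntegrableOn (fun u : ℝ => (u : ℂ) ^ (s - 1) *
      (1 + ((x * u : ℝ) : ℂ) * I) ^ (-c)) (Ioi 0) → Integrable (fun u : ℝ => (u : ℂ) ^ (s - 1) *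
      (Gamma c * (1 + ((x * u : ℝ) : ℂ) * I) ^ (-c))) (volume.restrict (Ioi 0)) := by
    intro x h
    refine (h.const_mul (Gamma c)).congr (Eventually.of_forall fun u => ?_)
    simp only; ring
  have h1 := hk X (integrable_fun hX0 hs hsc)
  have h2 := hk (-X) (integrable_fun hnX hs hsc)
  have e : (fun u : ℝ => (u : ℂ) ^ (s - 1) * (KX X c u + KX X c (-u))) = fun u : ℝ =>
      (u : ℂ) ^ (s - 1) * (Gamma c * (1 + ((X * u : ℝ) : ℂ) * I) ^ (-c)) +
      (u : ℂ) ^ (s - 1) * (Gamma c * (1 + ((-X * u : ℝ) : ℂ) * I) ^ (-c)) := by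
    funext u
    simp only [KX]
    rw [show X * -u = -X * u by ring]
    ring
  rw [e]
  refine ⟨h1.add h2, ?_⟩
  rw [integral_add h1 h2, half hX0 hs hsc, half hnX hs hsc]
  have hXc : (X : ℂ) ≠ 0 := by exact_mod_cast hX0
  have hXi : (0 : ℝ) < X⁻¹ := inv_pos.2 hX
  have e1 : (1 / ((X : ℂ) * I)) = ((X⁻¹ : ℝ) : ℂ) * (-I) := by
    rw [one_div, mul_inv, inv_I]; push_cast; ring
  have e2 : (1 / (((-X : ℝ) : ℂ) * I)) = ((X⁻¹ : ℝ) : ℂ) * I := by
    rw [one_div, mul_inv, inv_I]; push_cast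
    rw [inv_neg]; ring
  have e3 : ((X⁻¹ : ℝ) : ℂ) ^ s = (X : ℂ) ^ (-s) := by
    rw [ofReal_inv, inv_cpow _ _ (by
      rw [arg_ofReal_of_nonneg hX.le]; exact Real.pi_pos.ne), cpow_neg]
  rw [e1, e2, real_mul_cpow hXi (neg_ne_zero.2 I_ne_zero), real_mul_cpow hXi I_ne_zero, e3,
    cpow_def_of_ne_zero (neg_ne_zero.2 I_ne_zero), cpow_def_of_ne_zero I_ne_zero, log_neg_I,
    log_I]
  have e4 := two_cos (Real.pi * s / 2)
  have e5 : Real.pi * s / 2 * I = Real.pi / 2 * I * s := by ring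
  have e6 : -(Real.pi * s / 2) * I = -(Real.pi / 2) * I * s := by ring
  rw [e5, e6] at e4
  rw [mul_assoc, mul_assoc, e4]
  ring_nf

end F4
end Pool.Agent.Lib.MP_973905_nt
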