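import Pool.Agent.Lib.MP_973905_nt.F4.Stmts

/-! Coefficients of the product polynomial. -/

namespace Pool.Agent.Lib.MP_973905_nt
namespace F4

open MeasureTheory ProbabilityTheory Complex Filter Topology K1

namespace Co

/-- Sum over pairs. -/
theorem pairs {M : Type} [AddCommMonoid M] (N K D Y : ℕ) (g : ℕ × ℕ → M) (hYK : Y ≤ K)
    (hN : Y * D ≤ N) (h1 : ∀ x : ℕ × ℕ, Y < x.1 → g x = 0) (h2 : ∀ x : ℕ × ℕ, D < x.2 → g x = 0) :
    ∑ n ∈ Finset.Icc 1 N, ∑ x ∈ n.divisorsAntidiagonal, g x =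
      ∑ d ∈ Finset.Icc 1 D, ∑ n ∈ Finset.Icc 1 K, g (n, d) := by
  classical
  have hR : ∑ d ∈ Finset.Icc 1 D, ∑ n ∈ Finset.Icc 1 K, g (n, d) =
      ∑ x ∈ Finset.Icc 1 Y ×ˢ Finset.Icc 1 D, g x := by
    rw [Finset.sum_product_right]
    apply Finset.sum_congr rfl
    intro d _
    symm
    apply Finset.sum_subset
    · intro n hn
      rw [Finset.mem_Icc] at hn ⊢
      omega
    · intro n hn hn2
      rw [Finset.mem_Icc] at hn hn2
      exact h1 _ (by show Y < n; omega)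
  rw [hR]
  have hL : ∀ n ∈ Finset.Icc 1 N, ∑ x ∈ n.divisorsAntidiagonal, g x =
      ∑ x ∈ (Finset.Icc 1 Y ×ˢ Finset.Icc 1 D).filter (fun x => x.1 * x.2 = n), g x := by
    intro n hn
    rw [Finset.mem_Icc] at hn
    symm
    apply Finset.sum_subset
    · intro x hx
      rw [Finset.mem_filter] at hx
      rw [Nat.mem_divisorsAntidiagonal]
      exact ⟨hx.2, by omega⟩
    · intro x hx hx2
      rw [Nat.mem_divisorsAntidiagonal] at hx
      by_cases ha : Y < x.1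
      · exact h1 _ ha
      · by_cases hb : D < x.2
        · exact h2 _ hb
        · exfalso
          apply hx2
          rw [Finset.mem_filter, Finset.mem_product, Finset.mem_Icc, Finset.mem_Icc]
          have p1 : x.1 ≠ 0 := by
            intro h
            rw [h, zero_mul] at hx
            exact hx.2 hx.1.symm
          have p2 : x.2 ≠ 0 := by
            intro h
            rw [h, mul_zero] at hx
            exact hx.2 hx.1.symm
          refine ⟨⟨⟨by omega, by omega⟩, ⟨by omega, by omega⟩⟩, hx.1⟩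
  rw [Finset.sum_congr rfl hL]
  apply Finset.sum_fiberwise_of_maps_to
  intro x hx
  rw [Finset.mem_product, Finset.mem_Icc, Finset.mem_Icc] at hx
  rw [Finset.mem_Icc]
  refine ⟨Nat.mul_pos (by omega) (by omega), le_trans ?_ hN⟩
  exact Nat.mul_le_mul hx.1.2 hx.2.2

theorem sum_pow (α : ℝ) (h0 : 0 ≤ α) (h1 : α ≤ 1 / 2) (Y : ℕ) :
    ∑ n ∈ Finset.Icc 1 Y, (n : ℝ) ^ (-α) ≤ 2 * (Y : ℝ) ^ (1 - α) := by
  induction Y with
  | zero =>
    rw [Finset.Icc_eq_empty (by omega), Finset.sum_empty]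
    positivity
  | succ Y ih =>
    rw [Finset.sum_Icc_succ_top (by omega)]
    have hb := rpow_one_add_le_one_add_mul_self (s := -(1 / ((Y : ℝ) + 1))) (p := 1 - α)
      (by
        have : 1 / ((Y : ℝ) + 1) ≤ 1 := by
          rw [div_le_one (by positivity)]
          have : (0 : ℝ) ≤ Y := by positivity
          linarith
        linarith) (by linarith) (by linarith)
    have hY : (0 : ℝ) < (Y : ℝ) + 1 := by positivity
    have e1 : 1 + -(1 / ((Y : ℝ) + 1)) = Y / (Y + 1) := by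
      field_simp
      ring
    rw [e1, Real.div_rpow (by positivity) (by positivity), div_le_iff₀ (by positivity)] at hb
    have e2 : ((Y : ℝ) + 1) ^ (-α) = ((Y : ℝ) + 1) ^ (1 - α) * (1 / ((Y : ℝ) + 1)) := by
      have : -α = (1 - α) + (-1) := by ring
      rw [this, Real.rpow_add hY, Real.rpow_neg_one, one_div]
    push_cast
    rw [e2]
    set A := ((Y : ℝ) + 1) ^ (1 - α) with hA
    set B := (1 / ((Y : ℝ) + 1)) with hB
    have hA0 : 0 < A := by positivity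
    have hB0 : 0 < B := by positivity
    have : (1 - α) * (A * B) ≥ (1 / 2) * (A * B) := by
      apply mul_le_mul_of_nonneg_right _ (by positivity)
      linarith
    nlinarith

theorem Vc_nonneg (x : ℝ) : 0 ≤ Vc x :=
  mul_nonneg (Real.smoothTransition.nonneg _) (Real.smoothTransition.nonneg _)

theorem Vc_le_one (x : ℝ) : Vc x ≤ 1 := by
  unfold Vc
  exact mul_le_one₀ (Real.smoothTransition.le_one _) (Real.smoothTransition.nonneg _)
    (Real.smoothTransition.le_one _)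

theorem Vc_zero {x : ℝ} (h : 501 / 1000 ≤ x) : Vc x = 0 := by
  unfold Vc
  rw [Real.smoothTransition.zero_of_nonpos (by linarith), zero_mul]

theorem qc_norm (T ν : ℝ) (hT : 3 ≤ T) (n : ℕ) (hn : 1 ≤ n) : ‖qc T ν n‖ ≤ 1 := by
  unfold qc
  have hn' : (0 : ℝ) < n := by exact_mod_cast hn
  rw [norm_mul]
  have e : ((n : ℕ) : ℂ) = ((n : ℝ) : ℂ) := by push_cast; rfl
  rw [e, norm_cpow_eq_rpow_re_of_pos hn', norm_real, Real.norm_of_nonneg (Vc_nonneg _)]
  have hL : 0 < Real.log T := Real.log_pos (by linarith)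
  have hre : (-(((1 / Real.log T : ℝ) : ℂ) + ν * I)).re = -(1 / Real.log T) := by
    simp
  rw [hre]
  have h1 : (n : ℝ) ^ (-(1 / Real.log T)) ≤ 1 := by
    apply Real.rpow_le_one_of_one_le_of_nonpos
    · exact_mod_cast hn
    · have : 0 < 1 / Real.log T := by positivity
      linarith
  exact mul_le_one₀ (Vc_le_one _) (by positivity) h1

theorem qc_zero (T ν : ℝ) (hT : 3 ≤ T) (n : ℕ) (hn : ⌊T ^ (501 / 1000 : ℝ)⌋₊ < n) :
    qc T ν n = 0 := by
  have hL : 0 < Real.log T := Real.log_pos (by linarith)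
  have h1 : T ^ (501 / 1000 : ℝ) < n := (Nat.floor_lt (by positivity)).1 hn
  have h2 : 501 / 1000 ≤ Real.log n / Real.log T := by
    rw [le_div_iff₀ hL]
    have := Real.log_le_log (by positivity) h1.le
    rwa [Real.log_rpow (by linarith)] at this
  unfold qc
  rw [Vc_zero h2]
  simp

theorem two_mul_rpow (T a b : ℝ) (hT : (2 : ℝ) ^ (2000 : ℕ) ≤ T) (h : a + 1 / 2000 ≤ b) :
    2 * T ^ a ≤ T ^ b := by
  have h2 : (1 : ℝ) ≤ T := le_trans (one_le_pow₀ (by norm_num)) hT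
  have h0 : 0 < T := lt_of_lt_of_le one_pos h2
  have h1 : (2 : ℝ) ≤ T ^ (1 / 2000 : ℝ) := by
    have := Real.rpow_le_rpow (by positivity) hT (by norm_num : (0 : ℝ) ≤ 1 / 2000)
    refine le_trans (le_of_eq ?_) this
    rw [← Real.rpow_natCast, ← Real.rpow_mul (by norm_num)]
    norm_num
  calc 2 * T ^ a ≤ T ^ (1 / 2000 : ℝ) * T ^ a := by
        apply mul_le_mul_of_nonneg_right h1 (by positivity)
    _ = T ^ (1 / 2000 + a) := by rw [Real.rpow_add h0]
    _ ≤ T ^ b := Real.rpow_le_rpow_of_exponent_le h2 (by linarith)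

theorem norm_sum (T ν : ℝ) (b : ℕ → ℂ) (hT : 3 ≤ T) (hb : Sh T b)
    (hN : ⌊T ^ (501 / 1000 : ℝ)⌋₊ * Na T ≤ Nh T) (α : ℝ) (h0 : 0 ≤ α) :
    ∑ n ∈ Finset.Icc 1 (Nh T), ‖cH T ν b n‖ * (n : ℝ) ^ (-α) ≤
      T ^ (1 / 1000 : ℝ) * ∑ n ∈ Finset.Icc 1 ⌊T ^ (501 / 1000 : ℝ)⌋₊, (n : ℝ) ^ (-α) := by
  set Y := ⌊T ^ (501 / 1000 : ℝ)⌋₊ with hY
  have key := pairs (Nh T) Y (Na T) Y
    (fun x => ‖qc T ν x.1‖ * ‖b x.2‖ * ((x.1 * x.2 : ℕ) : ℝ) ^ (-α)) le_rfl hN
    (by
      intro x hx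
      rw [qc_zero T ν hT _ hx, norm_zero, zero_mul, zero_mul])
    (by
      intro x hx
      rw [hb.1 _ hx, norm_zero, mul_zero, zero_mul])
  calc ∑ n ∈ Finset.Icc 1 (Nh T), ‖cH T ν b n‖ * (n : ℝ) ^ (-α)
      ≤ ∑ n ∈ Finset.Icc 1 (Nh T), ∑ x ∈ n.divisorsAntidiagonal,
          ‖qc T ν x.1‖ * ‖b x.2‖ * ((x.1 * x.2 : ℕ) : ℝ) ^ (-α) := by
        apply Finset.sum_le_sum
        intro n _
        have e : ∀ x ∈ n.divisorsAntidiagonal,
            ‖qc T ν x.1‖ * ‖b x.2‖ * ((x.1 * x.2 : ℕ) : ℝ) ^ (-α) =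
              ‖qc T ν x.1 * b x.2‖ * (n : ℝ) ^ (-α) := by
          intro x hx
          rw [Nat.mem_divisorsAntidiagonal] at hx
          rw [hx.1, norm_mul]
        rw [Finset.sum_congr rfl e, ← Finset.sum_mul]
        apply mul_le_mul_of_nonneg_right _ (by positivity)
        exact norm_sum_le _ _
    _ = ∑ d ∈ Finset.Icc 1 (Na T), ∑ n ∈ Finset.Icc 1 Y,
          ‖qc T ν n‖ * ‖b d‖ * ((n * d : ℕ) : ℝ) ^ (-α) := key
    _ ≤ ∑ d ∈ Finset.Icc 1 (Na T), ∑ n ∈ Finset.Icc 1 Y, ‖b d‖ * (n : ℝ) ^ (-α) := by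
        apply Finset.sum_le_sum
        intro d hd
        apply Finset.sum_le_sum
        intro n hn
        rw [Finset.mem_Icc] at hd hn
        have q1 := qc_norm T ν hT n hn.1
        have q2 : ((n * d : ℕ) : ℝ) ^ (-α) ≤ (n : ℝ) ^ (-α) := by
          apply Real.rpow_le_rpow_of_nonpos
          · exact_mod_cast hn.1
          · have : n * 1 ≤ n * d := Nat.mul_le_mul_left n hd.1
            rw [mul_one] at this
            exact_mod_cast this
          · linarith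
        calc ‖qc T ν n‖ * ‖b d‖ * ((n * d : ℕ) : ℝ) ^ (-α)
            ≤ 1 * ‖b d‖ * (n : ℝ) ^ (-α) := by
              apply mul_le_mul _ q2 (by positivity) (by positivity)
              exact mul_le_mul_of_nonneg_right q1 (norm_nonneg _)
          _ = ‖b d‖ * (n : ℝ) ^ (-α) := by rw [one_mul]
    _ = (∑ d ∈ Finset.Icc 1 (Na T), ‖b d‖) * ∑ n ∈ Finset.Icc 1 Y, (n : ℝ) ^ (-α) := by
        rw [Finset.sum_mul_sum]
    _ ≤ T ^ (1 / 1000 : ℝ) * ∑ n ∈ Finset.Icc 1 Y, (n : ℝ) ^ (-α) := by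
        apply mul_le_mul_of_nonneg_right hb.2
        exact Finset.sum_nonneg fun n _ => by positivity

end Co

open Co in
theorem stCo : StCo := by
  refine ⟨(2 : ℝ) ^ (2000 : ℕ), ?_, ?_⟩
  · calc (3 : ℝ) ≤ 2 ^ 2 := by norm_num
      _ ≤ 2 ^ 2000 := pow_le_pow_right₀ (by norm_num) (by norm_num)
  intro T hT ν b hb
  have hT3 : 3 ≤ T := by
    refine le_trans ?_ hT
    calc (3 : ℝ) ≤ 2 ^ 2 := by norm_num
      _ ≤ 2 ^ 2000 := pow_le_pow_right₀ (by norm_num) (by norm_num)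
  have hT1 : 1 ≤ T := le_trans (by norm_num) hT3
  have hT0 : 0 < T := lt_of_lt_of_le one_pos hT1
  set Y := ⌊T ^ (501 / 1000 : ℝ)⌋₊ with hY
  have hYr : (Y : ℝ) ≤ T ^ (501 / 1000 : ℝ) := Nat.floor_le (by positivity)
  have hDr : ((Na T : ℕ) : ℝ) ≤ T ^ (1 / 1000 : ℝ) := Nat.floor_le (by positivity)
  have hYT : Y ≤ ⌊T⌋₊ := by
    apply Nat.floor_le_floor
    calc T ^ (501 / 1000 : ℝ) ≤ T ^ (1 : ℝ) :=
          Real.rpow_le_rpow_of_exponent_le hT1 (by norm_num)
      _ = T := Real.rpow_one T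
  have hprod : T ^ (501 / 1000 : ℝ) * T ^ (1 / 1000 : ℝ) = T ^ (502 / 1000 : ℝ) := by
    rw [← Real.rpow_add hT0]
    norm_num
  have hN : Y * Na T ≤ Nh T := by
    apply Nat.le_floor
    push_cast
    calc (Y : ℝ) * (Na T : ℝ) ≤ T ^ (501 / 1000 : ℝ) * T ^ (1 / 1000 : ℝ) :=
          mul_le_mul hYr hDr (by positivity) (by positivity)
      _ = T ^ (502 / 1000 : ℝ) := hprod
      _ ≤ T ^ (51 / 100 : ℝ) := Real.rpow_le_rpow_of_exponent_le hT1 (by norm_num)
  have hΦ : ∀ Φ : ℕ → ℂ, ∑ n ∈ Finset.Icc 1 (Nh T), cH T ν b n * Φ n =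
      ∑ d ∈ Finset.Icc 1 (Na T), ∑ n ∈ Finset.Icc 1 ⌊T⌋₊, b d * (qc T ν n * Φ (n * d)) := by
    intro Φ
    have key := pairs (Nh T) ⌊T⌋₊ (Na T) Y
      (fun x => b x.2 * (qc T ν x.1 * Φ (x.1 * x.2))) hYT hN
      (by
        intro x hx
        rw [qc_zero T ν hT3 _ hx, zero_mul, mul_zero])
      (by
        intro x hx
        rw [hb.1 _ hx, zero_mul])
    rw [← key]
    apply Finset.sum_congr rfl
    intro n _
    unfold cH
    rw [Finset.sum_mul]
    apply Finset.sum_congr rfl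
    intro x hx
    rw [Nat.mem_divisorsAntidiagonal] at hx
    rw [hx.1]
    ring
  refine ⟨?_, ?_, ?_, ?_, hΦ, ?_⟩
  · intro n hn
    unfold cH
    apply Finset.sum_eq_zero
    intro x hx
    rw [Nat.mem_divisorsAntidiagonal] at hx
    by_cases h1 : Y < x.1
    · rw [qc_zero T ν hT3 _ h1, zero_mul]
    · by_cases h2 : Na T < x.2
      · rw [hb.1 _ h2, mul_zero]
      · exfalso
        have h3 : (n : ℝ) ≤ T ^ (502 / 1000 : ℝ) := by
          rw [← hx.1, ← hprod]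
          push_cast
          apply mul_le_mul _ _ (by positivity) (by positivity)
          · refine le_trans ?_ hYr
            exact_mod_cast not_lt.1 h1
          · refine le_trans ?_ hDr
            exact_mod_cast not_lt.1 h2
        linarith
  · have h := norm_sum T ν b hT3 hb hN 0 le_rfl
    simp only [neg_zero, Real.rpow_zero, mul_one, Finset.sum_const, Nat.card_Icc,
      Nat.add_sub_cancel, nsmul_eq_mul] at h
    refine le_trans h ?_
    rw [← hprod, mul_comm (T ^ (501 / 1000 : ℝ))]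
    apply mul_le_mul_of_nonneg_left _ (by positivity)
    exact hYr
  · have h := norm_sum T ν b hT3 hb hN (1 / 2) (by norm_num)
    refine le_trans h ?_
    have h2 := sum_pow (1 / 2) (by norm_num) le_rfl Y
    have h3 : (Y : ℝ) ^ (1 - 1 / 2 : ℝ) ≤ T ^ (501 / 2000 : ℝ) := by
      calc (Y : ℝ) ^ (1 - 1 / 2 : ℝ) ≤ (T ^ (501 / 1000 : ℝ)) ^ (1 - 1 / 2 : ℝ) :=
            Real.rpow_le_rpow (by positivity) hYr (by norm_num)
        _ = T ^ (501 / 2000 : ℝ) := by
            rw [← Real.rpow_mul hT0.le]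
            norm_num
    calc T ^ (1 / 1000 : ℝ) * ∑ n ∈ Finset.Icc 1 Y, (n : ℝ) ^ (-(1 / 2) : ℝ)
        ≤ T ^ (1 / 1000 : ℝ) * (2 * T ^ (501 / 2000 : ℝ)) := by
          apply mul_le_mul_of_nonneg_left _ (by positivity)
          linarith
      _ = 2 * T ^ (1 / 1000 + 501 / 2000 : ℝ) := by
          rw [Real.rpow_add hT0]
          ring
      _ ≤ T ^ (252 / 1000 : ℝ) := two_mul_rpow T _ _ hT (by norm_num)
  · have h := norm_sum T ν b hT3 hb hN (7 / 16) (by norm_num)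
    refine le_trans h ?_
    have h2 := sum_pow (7 / 16) (by norm_num) (by norm_num) Y
    have h3 : (Y : ℝ) ^ (1 - 7 / 16 : ℝ) ≤ T ^ (501 / 1000 * (9 / 16) : ℝ) := by
      calc (Y : ℝ) ^ (1 - 7 / 16 : ℝ) ≤ (T ^ (501 / 1000 : ℝ)) ^ (1 - 7 / 16 : ℝ) :=
            Real.rpow_le_rpow (by positivity) hYr (by norm_num)
        _ = T ^ (501 / 1000 * (9 / 16) : ℝ) := by
            rw [← Real.rpow_mul hT0.le]
            norm_num
    calc T ^ (1 / 1000 : ℝ) * ∑ n ∈ Finset.Icc 1 Y, (n : ℝ) ^ (-(7 / 16) : ℝ)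
        ≤ T ^ (1 / 1000 : ℝ) * (2 * T ^ (501 / 1000 * (9 / 16) : ℝ)) := by
          apply mul_le_mul_of_nonneg_left _ (by positivity)
          linarith
      _ = 2 * T ^ (1 / 1000 + 501 / 1000 * (9 / 16) : ℝ) := by
          rw [Real.rpow_add hT0]
          ring
      _ ≤ T ^ (284 / 1000 : ℝ) := two_mul_rpow T _ _ hT (by norm_num)
  · intro f hf
    rw [hΦ f, Finset.sum_comm, Finset.sum_mul_sum]
    apply Finset.sum_congr rfl
    intro n hn
    apply Finset.sum_congr rfl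
    intro d hd
    rw [Finset.mem_Icc] at hn hd
    rw [hf.2 n d (by omega) (by omega)]
    ring

end F4
end Pool.Agent.Lib.MP_973905_nt
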