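import Pool.Agent.Lib.MP_973905_nt.F4.Left4

/-! (F1) the Tonelli step and the crude fourth moment. -/

namespace Pool.Agent.Lib.MP_973905_nt
namespace F4
namespace Cr4

open MeasureTheory Complex Filter Topology K1

lemma zcont : Continuous fun t : ℝ => riemannZeta (1 / 2 + t * I) :=
  Left4.zeta_cont (s := 1 / 2) (by norm_num)

/-- the smooth polynomial -/
noncomputable def Q (T ν t : ℝ) : ℂ := ∑ n ∈ Finset.Icc 1 ⌊T⌋₊, qc T ν n * fs (1 / 2 + t * I) n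

/-- the weight in `ν` -/
noncomputable def w (L : ℝ) (A : ℕ) (ν : ℝ) : ℝ := ((1 + L * |ν|) ^ A)⁻¹ * Real.exp (-ν ^ 2)

lemma Vc_le (x : ℝ) : |Vc x| ≤ 1 := by
  unfold Vc
  have h1 := Real.smoothTransition.nonneg (1002 - 2000 * x)
  have h2 := Real.smoothTransition.le_one (1002 - 2000 * x)
  have h3 := Real.smoothTransition.nonneg (x + 2)
  have h4 := Real.smoothTransition.le_one (x + 2)
  rw [abs_of_nonneg (mul_nonneg h1 h3)]
  exact mul_le_one₀ h2 h3 h4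

lemma qc_le {T : ℝ} (hT : 1 < T) (ν : ℝ) {n : ℕ} (hn : 1 ≤ n) : ‖qc T ν n‖ ≤ 1 := by
  have hL : 0 < Real.log T := Real.log_pos hT
  have hn1 : (1 : ℝ) ≤ n := by exact_mod_cast hn
  rw [qc, norm_mul, norm_real, Real.norm_eq_abs, norm_natCast_cpow_of_pos (by omega)]
  refine mul_le_one₀ (Vc_le _) (by positivity) ?_
  apply Real.rpow_le_one_of_one_le_of_nonpos hn1
  have : 0 < 1 / Real.log T := by positivity
  simp only [neg_re, add_re, ofReal_re, mul_re, I_re, mul_zero, ofReal_im, I_im, mul_one, sub_self,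
    add_zero]
  linarith

lemma fs_le (t : ℝ) {n : ℕ} (hn : 1 ≤ n) : ‖fs (1 / 2 + t * I) n‖ ≤ 1 := by
  have hn1 : (1 : ℝ) ≤ n := by exact_mod_cast hn
  rw [fs, norm_natCast_cpow_of_pos (by omega)]
  apply Real.rpow_le_one_of_one_le_of_nonpos hn1
  simp

lemma Q_le {T : ℝ} (hT : 1 < T) (ν t : ℝ) : ‖Q T ν t‖ ≤ T := by
  unfold Q
  refine (norm_sum_le _ _).trans ?_
  calc ∑ n ∈ Finset.Icc 1 ⌊T⌋₊, ‖qc T ν n * fs (1 / 2 + t * I) n‖ ≤
        ∑ _n ∈ Finset.Icc 1 ⌊T⌋₊, (1 : ℝ) := by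
        refine Finset.sum_le_sum fun n hn => ?_
        rw [norm_mul]
        exact mul_le_one₀ (qc_le hT ν (Finset.mem_Icc.1 hn).1) (norm_nonneg _)
          (fs_le t (Finset.mem_Icc.1 hn).1)
    _ = (⌊T⌋₊ : ℝ) := by simp
    _ ≤ T := Nat.floor_le (by linarith)

lemma HP_le (N : ℕ) (b : ℕ → ℂ) (t : ℝ) : ‖HP N b t‖ ≤ ∑ n ∈ Finset.Icc 1 N, ‖b n‖ := by
  unfold HP
  refine (norm_sum_le _ _).trans (Finset.sum_le_sum fun n hn => ?_)
  rw [norm_mul]
  exact mul_le_of_le_one_right (norm_nonneg _) (fs_le t (Finset.mem_Icc.1 hn).1)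

lemma Q_cont {T : ℝ} : Continuous fun p : ℝ × ℝ => Q T p.2 p.1 := by
  unfold Q
  refine continuous_finsetSum _ fun n hn => ?_
  have hn0 : (n : ℂ) ≠ 0 := by
    have := (Finset.mem_Icc.1 hn).1
    exact_mod_cast (by omega : n ≠ 0)
  unfold fs qc
  refine (continuous_const.mul (Continuous.const_cpow ?_ (Or.inl hn0))).mul
    (Continuous.const_cpow ?_ (Or.inl hn0))
  · fun_prop
  · fun_prop

lemma w_cont {L : ℝ} (hL : 0 < L) (A : ℕ) : Continuous (w L A) := by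
  unfold w
  refine Continuous.mul (Continuous.inv₀ (by fun_prop) fun ν => ?_) (by fun_prop)
  positivity

lemma w_nonneg {L : ℝ} (hL : 0 < L) (A : ℕ) (ν : ℝ) : 0 ≤ w L A ν := by
  unfold w; positivity

lemma w_le {L : ℝ} (hL : 0 < L) (A : ℕ) (ν : ℝ) : w L A ν ≤ Real.exp (-ν ^ 2) := by
  unfold w
  refine mul_le_of_le_one_left (Real.exp_pos _).le (inv_le_one_of_one_le₀ (one_le_pow₀ ?_))
  have : 0 ≤ L * |ν| := by positivity
  linarith

lemma int_exp : Integrable fun ν : ℝ => Real.exp (-ν ^ 2) := by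
  have := integrable_exp_neg_mul_sq (b := 1) one_pos
  simpa using this

lemma int_exp_val : ∫ ν : ℝ, Real.exp (-ν ^ 2) ≤ 2 := by
  have h := integral_gaussian 1
  have e : (fun ν : ℝ => Real.exp (-ν ^ 2)) = fun x : ℝ => Real.exp (-1 * x ^ 2) := by
    funext x; simp
  rw [e, h, div_one]
  rw [Real.sqrt_le_left (by norm_num)]
  have := Real.pi_lt_four
  linarith

lemma int_inv {L : ℝ} (hL : 0 < L) : Integrable fun ν : ℝ => (1 + (L * ν) ^ 2)⁻¹ :=
  integrable_inv_one_add_sq.comp_mul_left' hL.ne'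

lemma int_inv_val {L : ℝ} (hL : 0 < L) : L * ∫ ν : ℝ, (1 + (L * ν) ^ 2)⁻¹ ≤ 4 := by
  have h := Measure.integral_comp_mul_left (fun x : ℝ => (1 + x ^ 2)⁻¹) L
  rw [h, integral_univ_inv_one_add_sq, smul_eq_mul, abs_of_pos (inv_pos.2 hL), ← mul_assoc,
    mul_inv_cancel₀ hL.ne', one_mul]
  exact Real.pi_lt_four.le

lemma w_one {L : ℝ} (hL : 1 ≤ L) (m : ℕ) (ν : ℝ) :
    (1 + L * |ν|) ^ m * w L (m + 2) ν ≤ (1 + (L * ν) ^ 2)⁻¹ := by
  have h0 : 0 ≤ L * |ν| := by positivity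
  have h1 : 0 < 1 + L * |ν| := by linarith
  have he : Real.exp (-ν ^ 2) ≤ 1 := by
    rw [Real.exp_le_one_iff]
    have := sq_nonneg ν
    linarith
  have h2 : (1 + (L * ν) ^ 2) ≤ (1 + L * |ν|) ^ 2 := by
    have e : (L * |ν|) ^ 2 = (L * ν) ^ 2 := by rw [mul_pow, mul_pow, sq_abs]
    nlinarith
  unfold w
  calc (1 + L * |ν|) ^ m * (((1 + L * |ν|) ^ (m + 2))⁻¹ * Real.exp (-ν ^ 2))
      = ((1 + L * |ν|) ^ 2)⁻¹ * Real.exp (-ν ^ 2) := by
        rw [pow_add]; field_simp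
    _ ≤ ((1 + L * |ν|) ^ 2)⁻¹ * 1 := by gcongr
    _ ≤ (1 + (L * ν) ^ 2)⁻¹ := by
        rw [mul_one]
        gcongr

lemma w_two {L : ℝ} (hL : 1 ≤ L) (m : ℕ) (ν : ℝ) :
    (1 + |ν|) * w L (m + 2) ν ≤ Real.exp (-ν ^ 2) := by
  have hν := abs_nonneg ν
  have h1 : 1 + |ν| ≤ (1 + L * |ν|) ^ (m + 2) := by
    have h2 : 1 + |ν| ≤ 1 + L * |ν| := by nlinarith
    exact h2.trans (le_self_pow₀ (by nlinarith) (by omega))
  unfold w
  rw [← mul_assoc]
  refine mul_le_of_le_one_left (Real.exp_pos _).le ?_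
  rw [← div_eq_mul_inv, div_le_one (by positivity)]
  exact h1

/-- the weight of `StTwist` on `[X, 2X]` -/
lemma wt_ge {X t : ℝ} (hX : 0 < X) (h1 : X ≤ t) (h2 : t ≤ 2 * X) :
    1 ≤ Real.exp 2 * X * (X⁻¹ * (t / X) ^ 11 * Real.exp (-(t / X))) := by
  have h3 : 1 ≤ t / X := by rw [le_div_iff₀ hX]; linarith
  have h4 : t / X ≤ 2 := by rw [div_le_iff₀ hX]; linarith
  have h5 : (1 : ℝ) ≤ (t / X) ^ 11 := one_le_pow₀ h3
  have h6 : Real.exp (-2) ≤ Real.exp (-(t / X)) := Real.exp_le_exp.2 (by linarith)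
  calc (1 : ℝ) = Real.exp 2 * Real.exp (-2) := by rw [← Real.exp_add]; norm_num
    _ ≤ Real.exp 2 * Real.exp (-(t / X)) := by gcongr
    _ = Real.exp 2 * (1 * Real.exp (-(t / X))) := by ring
    _ ≤ Real.exp 2 * ((t / X) ^ 11 * Real.exp (-(t / X))) := by gcongr
    _ = _ := by field_simp

/-- The Tonelli step. -/
theorem mean4 (h8 : StTwist) (ha : StAfe) (hc : StCo) (m : ℕ) : ∃ C : ℝ, 0 < C ∧ ∃ T₀ : ℝ, 3 ≤ T₀ ∧
    ∀ T, T₀ ≤ T → ∀ X : ℝ, T ^ (999 / 1000 : ℝ) ≤ X → X ≤ T ^ (1 + 1 / 10000 : ℝ) →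
    ∀ b : ℕ → ℂ, Sh T b → ∀ B : ℝ, 0 ≤ B → (∀ (ν : ℝ) (a : ℂ), ‖a‖ = 1 / Real.log T →
      ‖ThreeLines.RF (Nh T) (cH T ν b) a‖ ≤ B * (1 + Real.log T * |ν|) ^ m) →
    ∫ t in X..(2 * X), ‖riemannZeta (1 / 2 + t * I)‖ ^ 4 * ‖HP (Na T) b t‖ ^ 2 ≤
      X * (C * Real.log T * B + T ^ (-(1 / 200) : ℝ)) := by
  obtain ⟨Ct, hCt, T₁, hT₁, htw⟩ := h8
  obtain ⟨Ca, hCa, T₂, hT₂, hafe⟩ := ha (m + 2)
  obtain ⟨T₃, hT₃, hco⟩ := hc
  obtain ⟨Cz, hCz, hzg⟩ := zeta_growth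
  set K₁ : ℝ := 8 * Ca * Ct * Real.exp 2 with hK₁
  set K₂ : ℝ := 16 * (4 * Cz) ^ 2 * 9 ^ 4 with hK₂
  have hK₁0 : 0 < K₁ := by positivity
  have hK₂0 : 0 < K₂ := by positivity
  -- large T
  have hlarge : ∀ᶠ T : ℝ in atTop, K₁ * Real.log T * T ^ (-(1 / 100) : ℝ) + K₂ * T ^ (-1 : ℝ) ≤
      T ^ (-(1 / 200) : ℝ) := by
    have h1 := (isLittleO_log_rpow_atTop (r := 1 / 400) (by norm_num)).def
      (c := (K₁ + 1)⁻¹) (by positivity)
    have h2 : Tendsto (fun T : ℝ => T ^ (1 / 400 : ℝ)) atTop atTop :=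
      tendsto_rpow_atTop (by norm_num)
    filter_upwards [h1, eventually_ge_atTop 1, h2.eventually_ge_atTop (2 + 2 * K₂)] with T hT hT1 hT2
    have hT0 : 0 < T := by linarith
    rw [Real.norm_eq_abs, Real.norm_eq_abs, abs_of_nonneg (Real.log_nonneg hT1),
      abs_of_nonneg (by positivity)] at hT
    set u : ℝ := T ^ (1 / 400 : ℝ) with hu
    have hu0 : 0 < u := Real.rpow_pos_of_pos hT0 _
    have hu1 : 1 ≤ u := by linarith
    have e1 : T ^ (-(1 / 100) : ℝ) = (u ^ 4)⁻¹ := by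
      rw [hu, ← Real.rpow_natCast, ← Real.rpow_mul hT0.le, ← Real.rpow_neg hT0.le]; norm_num
    have e2 : T ^ (-1 : ℝ) ≤ (u ^ 4)⁻¹ := by
      rw [← e1]
      exact Real.rpow_le_rpow_of_exponent_le hT1 (by norm_num)
    have e3 : T ^ (-(1 / 200) : ℝ) = (u ^ 2)⁻¹ := by
      rw [hu, ← Real.rpow_natCast, ← Real.rpow_mul hT0.le, ← Real.rpow_neg hT0.le]; norm_num
    have h3 : K₁ * Real.log T ≤ u := by
      calc K₁ * Real.log T ≤ (K₁ + 1) * ((K₁ + 1)⁻¹ * u) := by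
            refine mul_le_mul (by linarith) hT (Real.log_nonneg hT1) (by positivity)
        _ = u := by rw [← mul_assoc, mul_inv_cancel₀ (by positivity), one_mul]
    rw [e1, e3]
    calc K₁ * Real.log T * (u ^ 4)⁻¹ + K₂ * T ^ (-1 : ℝ) ≤ u * (u ^ 4)⁻¹ + K₂ * (u ^ 4)⁻¹ := by
          gcongr
      _ = (u + K₂) * (u ^ 4)⁻¹ := by ring
      _ ≤ u ^ 2 * (u ^ 4)⁻¹ := by
          gcongr
          nlinarith
      _ = (u ^ 2)⁻¹ := by field_simp
  obtain ⟨T₄, hT₄⟩ := eventually_atTop.1 hlarge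
  refine ⟨K₁, hK₁0, max (max T₁ T₂) (max T₃ T₄), hT₁.trans ((le_max_left _ _).trans (le_max_left _ _)),
    fun T hT X hX1 hX2 b hb B hB hRF => ?_⟩
  have hTT₁ : T₁ ≤ T := ((le_max_left _ _).trans (le_max_left _ _)).trans hT
  have hTT₂ : T₂ ≤ T := ((le_max_right _ _).trans (le_max_left _ _)).trans hT
  have hTT₃ : T₃ ≤ T := ((le_max_left _ _).trans (le_max_right _ _)).trans hT
  have hTT₄ : T₄ ≤ T := ((le_max_right _ _).trans (le_max_right _ _)).trans hT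
  have hT3 : 3 ≤ T := hT₁.trans hTT₁
  have hT1 : 1 < T := by linarith
  have hT0 : 0 < T := by linarith
  have hL1 : 1 ≤ Real.log T := by
    rw [Real.le_log_iff_exp_le hT0]
    have := Real.exp_one_lt_d9
    linarith
  set L := Real.log T with hL
  have hL0 : 0 < L := by linarith
  have hXpos : 1 ≤ X := (Real.one_le_rpow hT1.le (by norm_num)).trans hX1
  have hX0 : 0 < X := by linarith
  -- the polynomials
  have hprod : ∀ ν t : ℝ, HP (Nh T) (cH T ν b) t = Q T ν t * HP (Na T) b t := by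
    intro ν t
    have h := (hco T hTT₃ ν b hb).2.2.2.2.2 (fs (1 / 2 + t * I)) (cmul_fs _)
    rw [HP, HP, Q]
    exact h
  set P : ℝ → ℝ := fun t => ‖HP (Na T) b t‖ with hP
  have hPle : ∀ t, P t ≤ T ^ (1 / 1000 : ℝ) := fun t => (HP_le _ _ _).trans hb.2
  have hPc : Continuous P := (Left4.hp_cont _ _).norm
  set Z : ℝ → ℝ := fun t => ‖riemannZeta (1 / 2 + t * I)‖ with hZ
  have hZc : Continuous Z := zcont.norm
  have hZle : ∀ t ∈ Set.Ioc X (2 * X), Z t ≤ 4 * Cz * (1 + 2 * X) ^ 2 := by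
    intro t ht
    have h1 := hzg (1 / 2 + t * I) (by simp; norm_num) (by simp; norm_num)
    have hs : (1 / 2 + t * I : ℂ) ≠ 1 := by
      intro h
      have := congrArg re h
      simp at this
    have h2 : riemannZeta₁ (1 / 2 + t * I) = (1 / 2 + t * I - 1) * riemannZeta (1 / 2 + t * I) := by
      rw [riemannZeta_eq_inv_sub_mul hs, ← mul_assoc, mul_inv_cancel₀ (sub_ne_zero.2 hs), one_mul]
    have h3 : (1 / 2 : ℝ) ≤ ‖(1 / 2 + t * I - 1 : ℂ)‖ := by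
      refine le_trans ?_ (abs_re_le_norm _)
      simp
      norm_num
    have h4 : (1 / 2 + t * I : ℂ).im = t := by simp
    rw [h2, norm_mul, h4, abs_of_nonneg (by linarith [ht.1] : 0 ≤ t)] at h1
    have h5 : (1 + t) ^ 2 ≤ (1 + 2 * X) ^ 2 := by
      have := ht.2
      have := ht.1
      exact pow_le_pow_left₀ (by linarith) (by linarith) 2
    have h6 : 0 ≤ Cz * (1 + 2 * X) ^ 2 := by positivity
    have h7 : 1 / 2 * Z t ≤ Cz * (1 + 2 * X) ^ 2 := by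
      calc 1 / 2 * Z t ≤ ‖(1 / 2 + t * I - 1 : ℂ)‖ * ‖riemannZeta (1 / 2 + t * I)‖ := by
            gcongr
        _ ≤ Cz * (1 + t) ^ 2 := h1
        _ ≤ _ := by gcongr
    linarith
  -- the joint function
  set F : ℝ × ℝ → ℝ := fun p => Z p.1 ^ 2 * (‖Q T p.2 p.1‖ * P p.1) ^ 2 * w L (m + 2) p.2 with hF
  have hFc : Continuous F := by
    have h1 : Continuous fun p : ℝ × ℝ => Z p.1 := hZc.comp continuous_fst
    have h2 : Continuous fun p : ℝ × ℝ => P p.1 := hPc.comp continuous_fst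
    have h3 : Continuous fun p : ℝ × ℝ => w L (m + 2) p.2 := (w_cont hL0 _).comp continuous_snd
    exact ((h1.pow 2).mul ((Q_cont.norm.mul h2).pow 2)).mul h3
  have hF0 : ∀ p, 0 ≤ F p := fun p => by
    have := w_nonneg hL0 (m + 2) p.2
    simp only [hF]
    positivity
  set D : ℝ := (4 * Cz * (1 + 2 * X) ^ 2) ^ 2 * (T * T ^ (1 / 1000 : ℝ)) ^ 2 with hD
  have hFint : Integrable F ((volume.restrict (Set.Ioc X (2 * X))).prod volume) := by
    have h1 : Integrable (fun p : ℝ × ℝ => D * Real.exp (-p.2 ^ 2))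
        ((volume.restrict (Set.Ioc X (2 * X))).prod volume) := by
      have := (integrable_const (μ := volume.restrict (Set.Ioc X (2 * X))) D).mul_prod int_exp
      exact this
    refine h1.mono' hFc.aestronglyMeasurable ?_
    have h2 : ∀ᵐ p ∂((volume.restrict (Set.Ioc X (2 * X))).prod (volume : Measure ℝ)),
        p.1 ∈ Set.Ioc X (2 * X) := by
      have h3 : ∀ᵐ t ∂(volume.restrict (Set.Ioc X (2 * X))), t ∈ Set.Ioc X (2 * X) :=
        ae_restrict_mem measurableSet_Ioc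
      exact Measure.quasiMeasurePreserving_fst.ae h3
    filter_upwards [h2] with p hp
    rw [Real.norm_eq_abs, abs_of_nonneg (hF0 p)]
    simp only [hF, hD]
    have h3 := hZle p.1 hp
    have h4 := Q_le hT1 p.2 p.1
    have h5 := hPle p.1
    have h6 := w_le hL0 (m + 2) p.2
    have h7 := w_nonneg hL0 (m + 2) p.2
    have h8 : 0 ≤ Z p.1 := norm_nonneg _
    have h9 : 0 ≤ P p.1 := norm_nonneg _
    gcongr
  -- the pointwise bound
  have hpt : ∀ t ∈ Set.Ioc X (2 * X), Z t ^ 4 * P t ^ 2 ≤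
      Ca * L * (∫ ν, F (t, ν)) + T ^ (-10 : ℝ) * ((4 * Cz * (1 + 2 * X) ^ 2) ^ 2 *
        (T ^ (1 / 1000 : ℝ)) ^ 2) := by
    intro t ht
    have ht1 : T ^ (1 / 2 : ℝ) ≤ t := by
      refine le_trans ?_ (hX1.trans ht.1.le)
      exact Real.rpow_le_rpow_of_exponent_le hT1.le (by norm_num)
    have ht2 : t ≤ 2 * T ^ (1 + 1 / 10000 : ℝ) := ht.2.trans (by linarith)
    have h1 := hafe T hTT₂ t ht1 ht2
    have h8 : 0 ≤ Z t := norm_nonneg _
    have h9 : 0 ≤ P t := norm_nonneg _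
    have h2 : ∫ ν, F (t, ν) = Z t ^ 2 * P t ^ 2 * ∫ ν : ℝ, ‖Q T ν t‖ ^ 2 * w L (m + 2) ν := by
      rw [← integral_const_mul]
      congr 1
      funext ν
      simp only [hF]
      ring
    have h3 : Z t ^ 2 ≤ Ca * L * (∫ ν : ℝ, ‖Q T ν t‖ ^ 2 * w L (m + 2) ν) + T ^ (-10 : ℝ) := h1
    have hTT : 0 < T ^ (-10 : ℝ) := Real.rpow_pos_of_pos hT0 _
    rw [h2]
    calc Z t ^ 4 * P t ^ 2 = (Z t ^ 2 * P t ^ 2) * Z t ^ 2 := by ring
      _ ≤ (Z t ^ 2 * P t ^ 2) *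
          (Ca * L * (∫ ν : ℝ, ‖Q T ν t‖ ^ 2 * w L (m + 2) ν) + T ^ (-10 : ℝ)) := by gcongr
      _ = Ca * L * (Z t ^ 2 * P t ^ 2 * ∫ ν : ℝ, ‖Q T ν t‖ ^ 2 * w L (m + 2) ν) +
          T ^ (-10 : ℝ) * (Z t ^ 2 * P t ^ 2) := by ring
      _ ≤ _ := by
          have h5 := hZle t ht
          have h6 := hPle t
          gcongr
  -- integrate
  have hswap : ∫ t in Set.Ioc X (2 * X), ∫ ν, F (t, ν) = ∫ ν, ∫ t in Set.Ioc X (2 * X), F (t, ν) :=
    integral_integral_swap hFint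
  have hinner : ∀ ν, ∫ t in Set.Ioc X (2 * X), F (t, ν) ≤ Real.exp 2 * X * Ct *
      (L * B * (1 + (L * ν) ^ 2)⁻¹ + T ^ (-(1 / 100) : ℝ) * Real.exp (-ν ^ 2)) := by
    intro ν
    obtain ⟨hi, hle⟩ := htw T hTT₁ X hX1 hX2 ν b hb (B * (1 + L * |ν|) ^ m) (hRF ν)
    have hw0 := w_nonneg hL0 (m + 2) ν
    have h1 : ∫ t in Set.Ioc X (2 * X), F (t, ν) =
        w L (m + 2) ν * ∫ t in Set.Ioc X (2 * X), Z t ^ 2 * ‖HP (Nh T) (cH T ν b) t‖ ^ 2 := by
      rw [← integral_const_mul]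
      congr 1
      funext t
      simp only [hF, hprod, norm_mul, hP]
      ring
    set g : ℝ → ℝ := fun t => ‖riemannZeta (1 / 2 + t * I)‖ ^ 2 * ‖HP (Nh T) (cH T ν b) t‖ ^ 2 *
      (X⁻¹ * (t / X) ^ 11 * Real.exp (-(t / X))) with hg
    have hsub : Set.Ioc X (2 * X) ⊆ Set.Ioi (0 : ℝ) := fun t ht => hX0.trans ht.1
    have h2 : ∫ t in Set.Ioc X (2 * X), Z t ^ 2 * ‖HP (Nh T) (cH T ν b) t‖ ^ 2 ≤
        ∫ t in Set.Ioc X (2 * X), Real.exp 2 * X * g t := by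
      refine setIntegral_mono_on ?_ ((hi.mono_set hsub).const_mul _) measurableSet_Ioc fun t ht => ?_
      · exact (((hZc.pow 2).mul ((Left4.hp_cont _ _).norm.pow 2)).continuousOn.integrableOn_Icc).mono_set
          Set.Ioc_subset_Icc_self
      · have h3 := wt_ge hX0 ht.1.le ht.2
        simp only [hg]
        have h4 : 0 ≤ Z t ^ 2 * ‖HP (Nh T) (cH T ν b) t‖ ^ 2 := by positivity
        calc Z t ^ 2 * ‖HP (Nh T) (cH T ν b) t‖ ^ 2
            ≤ Z t ^ 2 * ‖HP (Nh T) (cH T ν b) t‖ ^ 2 *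
              (Real.exp 2 * X * (X⁻¹ * (t / X) ^ 11 * Real.exp (-(t / X)))) :=
              le_mul_of_one_le_right h4 h3
          _ = _ := by ring
    have h3 : ∫ t in Set.Ioc X (2 * X), Real.exp 2 * X * g t ≤
        Real.exp 2 * X * ∫ t in Set.Ioi (0 : ℝ), g t := by
      rw [integral_const_mul]
      refine mul_le_mul_of_nonneg_left ?_ (by positivity)
      refine setIntegral_mono_set hi ?_ (HasSubset.Subset.eventuallyLE hsub)
      rw [EventuallyLE, ae_restrict_iff' measurableSet_Ioi]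
      refine Filter.Eventually.of_forall fun t ht => ?_
      have ht0 : (0 : ℝ) < t := ht
      simp only [hg, Pi.zero_apply]
      positivity
    have h4 : ∫ t in Set.Ioc X (2 * X), Z t ^ 2 * ‖HP (Nh T) (cH T ν b) t‖ ^ 2 ≤
        Real.exp 2 * X * (Ct * L * (B * (1 + L * |ν|) ^ m) +
          Ct * (1 + |ν|) * T ^ (-(1 / 100) : ℝ)) := by
      refine (h2.trans h3).trans ?_
      gcongr
    rw [h1]
    have hw1 := w_one hL1 m ν
    have hw2 := w_two hL1 m ν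
    have hTT : 0 < T ^ (-(1 / 100) : ℝ) := Real.rpow_pos_of_pos hT0 _
    calc w L (m + 2) ν * ∫ t in Set.Ioc X (2 * X), Z t ^ 2 * ‖HP (Nh T) (cH T ν b) t‖ ^ 2
        ≤ w L (m + 2) ν * (Real.exp 2 * X * (Ct * L * (B * (1 + L * |ν|) ^ m) +
          Ct * (1 + |ν|) * T ^ (-(1 / 100) : ℝ))) := by gcongr
      _ = Real.exp 2 * X * Ct * (L * B * ((1 + L * |ν|) ^ m * w L (m + 2) ν) +
          T ^ (-(1 / 100) : ℝ) * ((1 + |ν|) * w L (m + 2) ν)) := by ring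
      _ ≤ _ := by gcongr
  have hLHS : ∫ t in X..(2 * X), ‖riemannZeta (1 / 2 + t * I)‖ ^ 4 * ‖HP (Na T) b t‖ ^ 2 =
      ∫ t in Set.Ioc X (2 * X), Z t ^ 4 * P t ^ 2 := by
    rw [intervalIntegral.integral_of_le (by linarith)]
  rw [hLHS]
  set R : ℝ := T ^ (-10 : ℝ) * ((4 * Cz * (1 + 2 * X) ^ 2) ^ 2 * (T ^ (1 / 1000 : ℝ)) ^ 2) with hR
  have hI1 : IntegrableOn (fun t => Z t ^ 4 * P t ^ 2) (Set.Ioc X (2 * X)) :=
    (((hZc.pow 4).mul (hPc.pow 2)).continuousOn.integrableOn_Icc).mono_set Set.Ioc_subset_Icc_self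
  have hI2 : IntegrableOn (fun t => ∫ ν, F (t, ν)) (Set.Ioc X (2 * X)) := hFint.integral_prod_left
  have hI3 : Integrable (fun ν => ∫ t in Set.Ioc X (2 * X), F (t, ν)) := hFint.integral_prod_right
  have hvol : (volume.restrict (Set.Ioc X (2 * X))).real Set.univ = X := by
    rw [Measure.real, Measure.restrict_apply_univ, Real.volume_Ioc, ENNReal.toReal_ofReal (by linarith)]
    ring
  have s1 : ∫ t in Set.Ioc X (2 * X), Z t ^ 4 * P t ^ 2 ≤
      Ca * L * (∫ t in Set.Ioc X (2 * X), ∫ ν, F (t, ν)) + X * R := by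
    calc ∫ t in Set.Ioc X (2 * X), Z t ^ 4 * P t ^ 2 ≤
          ∫ t in Set.Ioc X (2 * X), (Ca * L * (∫ ν, F (t, ν)) + R) :=
          setIntegral_mono_on hI1 ((hI2.const_mul _).add (integrable_const R)) measurableSet_Ioc hpt
      _ = _ := by
          rw [integral_add (hI2.const_mul _) (integrable_const R), integral_const_mul, integral_const,
            smul_eq_mul, hvol]
  have hI4 : Integrable (fun ν : ℝ => Real.exp 2 * X * Ct *
      (L * B * (1 + (L * ν) ^ 2)⁻¹ + T ^ (-(1 / 100) : ℝ) * Real.exp (-ν ^ 2))) :=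
    (((int_inv hL0).const_mul _).add (int_exp.const_mul _)).const_mul _
  have s2 : ∫ ν, ∫ t in Set.Ioc X (2 * X), F (t, ν) ≤ Real.exp 2 * X * Ct *
      (L * B * (∫ ν : ℝ, (1 + (L * ν) ^ 2)⁻¹) + T ^ (-(1 / 100) : ℝ) * ∫ ν : ℝ, Real.exp (-ν ^ 2)) := by
    refine (integral_mono hI3 hI4 hinner).trans (le_of_eq ?_)
    rw [integral_const_mul, integral_add ((int_inv hL0).const_mul _) (int_exp.const_mul _),
      integral_const_mul, integral_const_mul]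
  rw [hswap] at s1
  have hTT : 0 < T ^ (-(1 / 100) : ℝ) := Real.rpow_pos_of_pos hT0 _
  have v1 := int_inv_val hL0
  have v2 := int_exp_val
  have s3 : Ca * L * (∫ ν, ∫ t in Set.Ioc X (2 * X), F (t, ν)) ≤
      X * (K₁ * L * B + K₁ * L * T ^ (-(1 / 100) : ℝ)) := by
    calc Ca * L * (∫ ν, ∫ t in Set.Ioc X (2 * X), F (t, ν))
        ≤ Ca * L * (Real.exp 2 * X * Ct *
          (L * B * (∫ ν : ℝ, (1 + (L * ν) ^ 2)⁻¹) +
            T ^ (-(1 / 100) : ℝ) * ∫ ν : ℝ, Real.exp (-ν ^ 2))) := by gcongr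
      _ = Ca * Real.exp 2 * X * Ct * (L * B * (L * ∫ ν : ℝ, (1 + (L * ν) ^ 2)⁻¹) +
            L * T ^ (-(1 / 100) : ℝ) * ∫ ν : ℝ, Real.exp (-ν ^ 2)) := by ring
      _ ≤ Ca * Real.exp 2 * X * Ct * (L * B * 4 + L * T ^ (-(1 / 100) : ℝ) * 2) := by gcongr
      _ ≤ Ca * Real.exp 2 * X * Ct * (L * B * 8 + L * T ^ (-(1 / 100) : ℝ) * 8) := by
          gcongr <;> norm_num
      _ = _ := by rw [hK₁]; ring
  have s4 : R ≤ K₂ * T ^ (-1 : ℝ) := by
    have hXT : X ≤ T ^ (2 : ℝ) := hX2.trans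
      (Real.rpow_le_rpow_of_exponent_le hT1.le (by norm_num))
    have h1 : 1 + 2 * X ≤ 3 * T ^ (1 + 1 / 10000 : ℝ) := by linarith
    have h2 : (1 + 2 * X) ^ 4 ≤ 81 * T ^ (4 + 4 / 10000 : ℝ) := by
      calc (1 + 2 * X) ^ 4 ≤ (3 * T ^ (1 + 1 / 10000 : ℝ)) ^ 4 :=
            pow_le_pow_left₀ (by positivity) h1 4
        _ = 81 * (T ^ (1 + 1 / 10000 : ℝ)) ^ 4 := by ring
        _ = _ := by
            rw [← Real.rpow_natCast (T ^ (1 + 1 / 10000 : ℝ)), ← Real.rpow_mul hT0.le]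
            norm_num
    have h3 : (T ^ (1 / 1000 : ℝ)) ^ 2 = T ^ (2 / 1000 : ℝ) := by
      rw [← Real.rpow_natCast, ← Real.rpow_mul hT0.le]; norm_num
    calc R = T ^ (-10 : ℝ) * ((4 * Cz) ^ 2 * (1 + 2 * X) ^ 4 * T ^ (2 / 1000 : ℝ)) := by
          rw [hR, h3]; ring
      _ ≤ T ^ (-10 : ℝ) * ((4 * Cz) ^ 2 * (81 * T ^ (4 + 4 / 10000 : ℝ)) * T ^ (2 / 1000 : ℝ)) := by
          gcongr
      _ = (4 * Cz) ^ 2 * 81 * (T ^ (-10 : ℝ) * T ^ (4 + 4 / 10000 : ℝ) * T ^ (2 / 1000 : ℝ)) := by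
          ring
      _ = (4 * Cz) ^ 2 * 81 * T ^ (-10 + (4 + 4 / 10000) + 2 / 1000 : ℝ) := by
          rw [← Real.rpow_add hT0, ← Real.rpow_add hT0]
      _ ≤ (4 * Cz) ^ 2 * 81 * T ^ (-1 : ℝ) := by
          gcongr
          · exact hT1.le
          · norm_num
      _ ≤ K₂ * T ^ (-1 : ℝ) := by
          gcongr
          rw [hK₂]
          have : 0 ≤ (4 * Cz) ^ 2 := by positivity
          nlinarith
  have s5 := hT₄ T hTT₄
  calc ∫ t in Set.Ioc X (2 * X), Z t ^ 4 * P t ^ 2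
      ≤ X * (K₁ * L * B + K₁ * L * T ^ (-(1 / 100) : ℝ)) + X * (K₂ * T ^ (-1 : ℝ)) := by
        refine s1.trans ?_
        gcongr
    _ = X * (K₁ * L * B + (K₁ * L * T ^ (-(1 / 100) : ℝ) + K₂ * T ^ (-1 : ℝ))) := by ring
    _ ≤ _ := by gcongr


/-! ### The crude fourth moment -/

/-- the coefficient sequence of the polynomial `1` -/
noncomputable def d1 (n : ℕ) : ℂ := if n = 1 then 1 else 0

lemma Na_ge {T : ℝ} (hT : 1 ≤ T) : 1 ≤ Na T := by
  unfold Na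
  rw [Nat.one_le_floor_iff]
  exact Real.one_le_rpow hT (by norm_num)

lemma sh_d1 {T : ℝ} (hT : 1 ≤ T) : Sh T d1 := by
  constructor
  · intro n hn
    have := Na_ge hT
    rw [d1, if_neg (by omega)]
  · have h1 : ∑ n ∈ Finset.Icc 1 (Na T), ‖d1 n‖ = 1 := by
      rw [Finset.sum_eq_single 1]
      · simp [d1]
      · intro n _ hn
        simp [d1, hn]
      · intro h
        exfalso
        apply h
        rw [Finset.mem_Icc]
        exact ⟨le_rfl, Na_ge hT⟩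
    rw [h1]
    exact Real.one_le_rpow hT (by norm_num)

lemma HP_d1 {T : ℝ} (hT : 1 ≤ T) (t : ℝ) : HP (Na T) d1 t = 1 := by
  rw [HP, Finset.sum_eq_single 1]
  · simp [d1, fs]
  · intro n _ hn
    simp [d1, hn]
  · intro h
    exfalso
    apply h
    rw [Finset.mem_Icc]
    exact ⟨le_rfl, Na_ge hT⟩

lemma cH_d1 (T ν : ℝ) {n : ℕ} (hn : n ≠ 0) : cH T ν d1 n = qc T ν n := by
  rw [cH, Finset.sum_eq_single (n, 1)]
  · simp [d1]
  · rintro ⟨x, y⟩ hx hxy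
    rw [Nat.mem_divisorsAntidiagonal] at hx
    have : y ≠ 1 := by
      rintro rfl
      apply hxy
      simp only [mul_one] at hx
      rw [hx.1]
    simp [d1, this]
  · intro h
    exfalso
    apply h
    rw [Nat.mem_divisorsAntidiagonal]
    exact ⟨mul_one _, hn⟩

lemma harm (N : ℕ) : ∑ n ∈ Finset.Icc 1 N, (1 : ℝ) / n ≤ 1 + Real.log N := by
  have h := harmonic_le_one_add_log N
  refine le_trans (le_of_eq ?_) h
  rw [harmonic_eq_sum_Icc]
  push_cast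
  refine Finset.sum_congr rfl fun n _ => ?_
  rw [one_div]

/-- the gcd sum -/
lemma gcd_sum (N : ℕ) : ∑ m ∈ Finset.Icc 1 N, ∑ n ∈ Finset.Icc 1 N,
    (1 : ℝ) / ((m.gcd n : ℕ) * ((m / m.gcd n : ℕ) * (n / m.gcd n : ℕ))) ≤ (1 + Real.log N) ^ 3 := by
  classical
  set ψ : ℕ × ℕ × ℕ → ℝ := fun x => (1 : ℝ) / (x.1 * (x.2.1 * x.2.2)) with hψ
  set i : ℕ × ℕ → ℕ × ℕ × ℕ := fun p => (p.1.gcd p.2, p.1 / p.1.gcd p.2, p.2 / p.1.gcd p.2) with hi
  have hinj : Set.InjOn i ((Finset.Icc 1 N ×ˢ Finset.Icc 1 N : Finset (ℕ × ℕ)) : Set (ℕ × ℕ)) := by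
    rintro ⟨a, b⟩ _ ⟨c, d⟩ _ h
    simp only [hi, Prod.mk.injEq] at h
    obtain ⟨h1, h2, h3⟩ := h
    have e1 := Nat.div_mul_cancel (Nat.gcd_dvd_left a b)
    have e2 := Nat.div_mul_cancel (Nat.gcd_dvd_left c d)
    have e3 := Nat.div_mul_cancel (Nat.gcd_dvd_right a b)
    have e4 := Nat.div_mul_cancel (Nat.gcd_dvd_right c d)
    rw [h2, h1, e2] at e1
    rw [h3, h1, e4] at e3
    rw [e1, e3]
  have h1 : ∑ m ∈ Finset.Icc 1 N, ∑ n ∈ Finset.Icc 1 N,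
      (1 : ℝ) / ((m.gcd n : ℕ) * ((m / m.gcd n : ℕ) * (n / m.gcd n : ℕ))) =
      ∑ x ∈ (Finset.Icc 1 N ×ˢ Finset.Icc 1 N).image i, ψ x := by
    rw [Finset.sum_image hinj, Finset.sum_product]
  have h2 : (Finset.Icc 1 N ×ˢ Finset.Icc 1 N).image i ⊆
      Finset.Icc 1 N ×ˢ (Finset.Icc 1 N ×ˢ Finset.Icc 1 N) := by
    intro x hx
    rw [Finset.mem_image] at hx
    obtain ⟨⟨m, n⟩, hmn, rfl⟩ := hx
    simp only [Finset.mem_product, Finset.mem_Icc] at hmn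
    obtain ⟨⟨hm1, hm2⟩, hn1, hn2⟩ := hmn
    have hg : 0 < m.gcd n := Nat.gcd_pos_of_pos_left n hm1
    have hgm : m.gcd n ≤ m := Nat.gcd_le_left n hm1
    have hgn : m.gcd n ≤ n := Nat.gcd_le_right m hn1
    simp only [hi, Finset.mem_product, Finset.mem_Icc]
    exact ⟨⟨hg, hgm.trans hm2⟩, ⟨Nat.div_pos hgm hg, (Nat.div_le_self _ _).trans hm2⟩,
      Nat.div_pos hgn hg, (Nat.div_le_self _ _).trans hn2⟩
  rw [h1]
  calc ∑ x ∈ (Finset.Icc 1 N ×ˢ Finset.Icc 1 N).image i, ψ x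
      ≤ ∑ x ∈ Finset.Icc 1 N ×ˢ (Finset.Icc 1 N ×ˢ Finset.Icc 1 N), ψ x :=
        Finset.sum_le_sum_of_subset_of_nonneg h2 fun x _ _ => by positivity
    _ = (∑ n ∈ Finset.Icc 1 N, (1 : ℝ) / n) * ((∑ n ∈ Finset.Icc 1 N, (1 : ℝ) / n) *
          ∑ n ∈ Finset.Icc 1 N, (1 : ℝ) / n) := by
        rw [Finset.sum_product, Finset.sum_mul]
        refine Finset.sum_congr rfl fun a _ => ?_
        rw [Finset.sum_product, Finset.sum_mul, Finset.mul_sum]
        refine Finset.sum_congr rfl fun b _ => ?_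
        rw [Finset.mul_sum, Finset.mul_sum]
        refine Finset.sum_congr rfl fun c _ => ?_
        simp only [hψ]
        rw [one_div_mul_one_div, one_div_mul_one_div]
    _ ≤ _ := by
        have h3 := harm N
        have h4 : 0 ≤ ∑ n ∈ Finset.Icc 1 N, (1 : ℝ) / n := Finset.sum_nonneg fun n _ => by positivity
        calc _ = (∑ n ∈ Finset.Icc 1 N, (1 : ℝ) / n) ^ 3 := by ring
          _ ≤ _ := pow_le_pow_left₀ h4 h3 3

/-- the arithmetic factor, trivially -/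
lemma RF_le {T : ℝ} (hT : 3 ≤ T) {N : ℕ} (hN : (N : ℝ) ≤ T) {c : ℕ → ℂ}
    (hc : ∀ n, 1 ≤ n → ‖c n‖ ≤ 1) {a : ℂ} (ha : ‖a‖ = 1 / Real.log T) :
    ‖ThreeLines.RF N c a‖ ≤ Real.exp 2 * (1 + Real.log T) ^ 3 := by
  have hT1 : 1 < T := by linarith
  have hT0 : 0 < T := by linarith
  have hL : 0 < Real.log T := Real.log_pos hT1
  have hbase : ∀ x : ℕ, 1 ≤ x → x ≤ N → ‖(x : ℂ) ^ (-(1 / 2 + a))‖ ≤
      Real.exp 1 * (x : ℝ) ^ (-(1 / 2) : ℝ) := by
    intro x hx hxN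
    have hx1 : (1 : ℝ) ≤ x := by exact_mod_cast hx
    have hx0 : (0 : ℝ) < x := by linarith
    rw [norm_natCast_cpow_of_pos (by omega)]
    have e : (-(1 / 2 + a) : ℂ).re = -(1 / 2) + -a.re := by simp; ring
    rw [e, Real.rpow_add hx0, mul_comm]
    gcongr
    have h1 : -a.re ≤ 1 / Real.log T := by
      rw [← ha]
      exact (neg_le_abs _).trans (abs_re_le_norm a)
    calc (x : ℝ) ^ (-a.re) ≤ (x : ℝ) ^ (1 / Real.log T) :=
          Real.rpow_le_rpow_of_exponent_le hx1 h1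
      _ ≤ T ^ (1 / Real.log T) := by
          apply Real.rpow_le_rpow hx0.le _ (by positivity)
          have : (x : ℝ) ≤ N := by exact_mod_cast hxN
          linarith
      _ = Real.exp 1 := by
          rw [Real.rpow_def_of_pos hT0, mul_one_div_cancel hL.ne']
  have hhalf : ∀ x : ℕ, ‖(x : ℂ) ^ (-(1 / 2 : ℂ))‖ ≤ (x : ℝ) ^ (-(1 / 2) : ℝ) := by
    intro x
    rcases Nat.eq_zero_or_pos x with rfl | hx
    · simp
    · rw [norm_natCast_cpow_of_pos hx]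
      simp
  have hterm : ∀ m ∈ Finset.Icc 1 N, ∀ n ∈ Finset.Icc 1 N,
      ‖c m * (starRingEnd ℂ) (c n) * (m : ℂ) ^ (-(1 / 2 : ℂ)) * (n : ℂ) ^ (-(1 / 2 : ℂ)) *
        ((n / m.gcd n : ℕ) : ℂ) ^ (-(1 / 2 + a)) * ((m / m.gcd n : ℕ) : ℂ) ^ (-(1 / 2 + a))‖ ≤
      Real.exp 2 * ((1 : ℝ) / ((m.gcd n : ℕ) * ((m / m.gcd n : ℕ) * (n / m.gcd n : ℕ)))) := by
    intro m hm n hn
    rw [Finset.mem_Icc] at hm hn
    obtain ⟨hm1, hm2⟩ := hm
    obtain ⟨hn1, hn2⟩ := hn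
    have hg : 0 < m.gcd n := Nat.gcd_pos_of_pos_left n hm1
    have hgm : m.gcd n ≤ m := Nat.gcd_le_left n hm1
    have hgn : m.gcd n ≤ n := Nat.gcd_le_right m hn1
    set m' := m / m.gcd n with hm'
    set n' := n / m.gcd n with hn'
    have em : m = m.gcd n * m' := (Nat.mul_div_cancel' (Nat.gcd_dvd_left m n)).symm
    have en : n = m.gcd n * n' := (Nat.mul_div_cancel' (Nat.gcd_dvd_right m n)).symm
    have hm'1 : 1 ≤ m' := Nat.div_pos hgm hg
    have hn'1 : 1 ≤ n' := Nat.div_pos hgn hg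
    have h1 := hbase m' hm'1 ((Nat.div_le_self _ _).trans hm2)
    have h2 := hbase n' hn'1 ((Nat.div_le_self _ _).trans hn2)
    have h3 := hhalf m
    have h4 := hhalf n
    have h5 := hc m hm1
    have h6 := hc n hn1
    rw [norm_mul, norm_mul, norm_mul, norm_mul, norm_mul, norm_conj]
    have e1 : Real.exp 1 * Real.exp 1 = Real.exp 2 := by rw [← Real.exp_add]; norm_num
    have hG : (0 : ℝ) < m.gcd n := by exact_mod_cast hg
    have hM : (0 : ℝ) < m' := by exact_mod_cast hm'1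
    have hN' : (0 : ℝ) < n' := by exact_mod_cast hn'1
    have r1 : (m : ℝ) ^ (-(1 / 2) : ℝ) = ((m.gcd n : ℕ) : ℝ) ^ (-(1 / 2) : ℝ) * (m' : ℝ) ^ (-(1 / 2) : ℝ) := by
      conv_lhs => rw [em]
      rw [Nat.cast_mul, Real.mul_rpow hG.le hM.le]
    have r2 : (n : ℝ) ^ (-(1 / 2) : ℝ) = ((m.gcd n : ℕ) : ℝ) ^ (-(1 / 2) : ℝ) * (n' : ℝ) ^ (-(1 / 2) : ℝ) := by
      conv_lhs => rw [en]
      rw [Nat.cast_mul, Real.mul_rpow hG.le hN'.le]
    have sq : ∀ x : ℝ, 0 < x → x ^ (-(1 / 2) : ℝ) * x ^ (-(1 / 2) : ℝ) = x⁻¹ := by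
      intro x hx
      rw [← Real.rpow_add hx, ← Real.rpow_neg_one]
      norm_num
    calc ‖c m‖ * ‖c n‖ * ‖(m : ℂ) ^ (-(1 / 2 : ℂ))‖ * ‖(n : ℂ) ^ (-(1 / 2 : ℂ))‖ *
          ‖(n' : ℂ) ^ (-(1 / 2 + a))‖ * ‖(m' : ℂ) ^ (-(1 / 2 + a))‖
        ≤ 1 * 1 * (m : ℝ) ^ (-(1 / 2) : ℝ) * (n : ℝ) ^ (-(1 / 2) : ℝ) *
          (Real.exp 1 * (n' : ℝ) ^ (-(1 / 2) : ℝ)) * (Real.exp 1 * (m' : ℝ) ^ (-(1 / 2) : ℝ)) := by
          gcongr
      _ = (Real.exp 1 * Real.exp 1) * ((((m.gcd n : ℕ) : ℝ) ^ (-(1 / 2) : ℝ) *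
          ((m.gcd n : ℕ) : ℝ) ^ (-(1 / 2) : ℝ)) *
          (((m' : ℝ) ^ (-(1 / 2) : ℝ) * (m' : ℝ) ^ (-(1 / 2) : ℝ)) *
          ((n' : ℝ) ^ (-(1 / 2) : ℝ) * (n' : ℝ) ^ (-(1 / 2) : ℝ)))) := by
          rw [r1, r2]; ring
      _ = Real.exp 2 * (((m.gcd n : ℕ) : ℝ)⁻¹ * ((m' : ℝ)⁻¹ * (n' : ℝ)⁻¹)) := by
          rw [sq _ hG, sq _ hM, sq _ hN', e1]
      _ = _ := by rw [one_div, mul_inv, mul_inv]
      _ ≤ _ := le_rfl
  unfold ThreeLines.RF
  refine (norm_sum_le _ _).trans ?_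
  calc ∑ m ∈ Finset.Icc 1 N, ‖∑ n ∈ Finset.Icc 1 N, c m * (starRingEnd ℂ) (c n) *
        (m : ℂ) ^ (-(1 / 2 : ℂ)) * (n : ℂ) ^ (-(1 / 2 : ℂ)) *
        ((n / m.gcd n : ℕ) : ℂ) ^ (-(1 / 2 + a)) * ((m / m.gcd n : ℕ) : ℂ) ^ (-(1 / 2 + a))‖
      ≤ ∑ m ∈ Finset.Icc 1 N, ∑ n ∈ Finset.Icc 1 N, Real.exp 2 *
        ((1 : ℝ) / ((m.gcd n : ℕ) * ((m / m.gcd n : ℕ) * (n / m.gcd n : ℕ)))) :=
        Finset.sum_le_sum fun m hm => (norm_sum_le _ _).trans
          (Finset.sum_le_sum fun n hn => hterm m hm n hn)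
    _ = Real.exp 2 * ∑ m ∈ Finset.Icc 1 N, ∑ n ∈ Finset.Icc 1 N,
        (1 : ℝ) / ((m.gcd n : ℕ) * ((m / m.gcd n : ℕ) * (n / m.gcd n : ℕ))) := by
        rw [Finset.mul_sum]
        refine Finset.sum_congr rfl fun m _ => ?_
        rw [Finset.mul_sum]
    _ ≤ Real.exp 2 * (1 + Real.log N) ^ 3 := by
        gcongr
        exact gcd_sum N
    _ ≤ Real.exp 2 * (1 + Real.log T) ^ 3 := by
        rcases Nat.eq_zero_or_pos N with h | h
        · rw [h]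
          simp only [CharP.cast_eq_zero, Real.log_zero, add_zero]
          gcongr
          linarith
        · have hN0 : (0 : ℝ) < N := by exact_mod_cast h
          have h1 : 0 ≤ Real.log N := Real.log_natCast_nonneg N
          have h2 : Real.log N ≤ Real.log T := Real.log_le_log hN0 hN
          gcongr

end Cr4

open MeasureTheory Complex Filter Topology K1 Cr4 in
theorem stCr4 (h8 : StTwist) (ha : StAfe) (hc : StCo) : StCr4 := by
  obtain ⟨C, hC, T₀, hT₀, hmean⟩ := mean4 h8 ha hc 0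
  set Z : ℝ → ℝ := fun t => ‖riemannZeta (1 / 2 + t * I)‖ ^ 4 with hZ
  have hZc : Continuous Z := zcont.norm.pow 4
  have hZ0 : ∀ t, 0 ≤ Z t := fun t => by positivity
  have hint : ∀ a b : ℝ, IntervalIntegrable Z volume a b := fun a b => hZc.intervalIntegrable a b
  -- dyadic bound
  set K : ℝ := C * Real.exp 2 * 8 + 1 with hK
  have hK0 : 0 < K := by positivity
  have hev : ∀ᶠ T : ℝ in atTop, K * Real.log T ^ 4 ≤ T ^ (1 / 20000 : ℝ) := by
    have h1 := (isLittleO_log_rpow_rpow_atTop (4 : ℝ) (s := 1 / 20000) (by norm_num)).def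
      (c := K⁻¹) (by positivity)
    filter_upwards [h1, eventually_ge_atTop 1] with T hT hT1
    have hT0 : 0 < T := by linarith
    have hl := Real.log_nonneg hT1
    rw [Real.norm_eq_abs, Real.norm_eq_abs, abs_of_nonneg (by positivity),
      abs_of_nonneg (by positivity)] at hT
    have e : Real.log T ^ (4 : ℝ) = Real.log T ^ 4 := by
      rw [← Real.rpow_natCast]; norm_num
    rw [e] at hT
    have := mul_le_mul_of_nonneg_left hT hK0.le
    rwa [← mul_assoc, mul_inv_cancel₀ hK0.ne', one_mul] at this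
  obtain ⟨T₁, hT₁⟩ := eventually_atTop.1 hev
  set T₂ : ℝ := max T₀ T₁ with hT₂
  have hdy : ∀ T, T₂ ≤ T → ∫ t in T..(2 * T), Z t ≤ T ^ (1 + 1 / 20000 : ℝ) := by
    intro T hT
    have hTT₀ : T₀ ≤ T := (le_max_left _ _).trans hT
    have hTT₁ : T₁ ≤ T := (le_max_right _ _).trans hT
    have hT3 : 3 ≤ T := hT₀.trans hTT₀
    have hT1 : 1 ≤ T := by linarith
    have hT0 : 0 < T := by linarith
    have hL1 : 1 ≤ Real.log T := by
      rw [Real.le_log_iff_exp_le hT0]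
      have := Real.exp_one_lt_d9
      linarith
    have h1 := hmean T hTT₀ T
      (by
        conv_rhs => rw [← Real.rpow_one T]
        exact Real.rpow_le_rpow_of_exponent_le hT1 (by norm_num))
      (by
        conv_lhs => rw [← Real.rpow_one T]
        exact Real.rpow_le_rpow_of_exponent_le hT1 (by norm_num))
      d1 (sh_d1 hT1) (Real.exp 2 * (1 + Real.log T) ^ 3) (by positivity) (by
        intro ν a ha'
        rw [pow_zero, mul_one]
        refine RF_le hT3 ?_ (fun n hn => ?_) ha'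
        · unfold Nh
          refine (Nat.floor_le (by positivity)).trans ?_
          conv_rhs => rw [← Real.rpow_one T]
          exact Real.rpow_le_rpow_of_exponent_le hT1 (by norm_num)
        · rw [cH_d1 T ν (by omega)]
          exact qc_le (by linarith) ν hn)
    have h2 : ∫ t in T..(2 * T), Z t ≤
        T * (C * Real.log T * (Real.exp 2 * (1 + Real.log T) ^ 3) + T ^ (-(1 / 200) : ℝ)) := by
      refine le_trans (le_of_eq ?_) h1
      congr 1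
      funext t
      rw [HP_d1 hT1, norm_one, one_pow, mul_one]
    refine h2.trans ?_
    have h3 : T ^ (-(1 / 200) : ℝ) ≤ 1 := Real.rpow_le_one_of_one_le_of_nonpos hT1 (by norm_num)
    have h4 : (1 + Real.log T) ^ 3 ≤ (2 * Real.log T) ^ 3 :=
      pow_le_pow_left₀ (by positivity) (by linarith) 3
    have h5 : 1 ≤ Real.log T ^ 4 := one_le_pow₀ hL1
    have h6 : C * Real.log T * (Real.exp 2 * (1 + Real.log T) ^ 3) + T ^ (-(1 / 200) : ℝ) ≤
        K * Real.log T ^ 4 := by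
      calc C * Real.log T * (Real.exp 2 * (1 + Real.log T) ^ 3) + T ^ (-(1 / 200) : ℝ)
          ≤ C * Real.log T * (Real.exp 2 * (2 * Real.log T) ^ 3) + 1 := by gcongr
        _ = C * Real.exp 2 * 8 * Real.log T ^ 4 + 1 := by ring
        _ ≤ C * Real.exp 2 * 8 * Real.log T ^ 4 + Real.log T ^ 4 := by gcongr
        _ = _ := by rw [hK]; ring
    calc T * (C * Real.log T * (Real.exp 2 * (1 + Real.log T) ^ 3) + T ^ (-(1 / 200) : ℝ))
        ≤ T * T ^ (1 / 20000 : ℝ) := by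
          gcongr
          exact h6.trans (hT₁ T hTT₁)
      _ = _ := by rw [Real.rpow_add hT0, Real.rpow_one]
  have hT₂3 : 3 ≤ T₂ := hT₀.trans (le_max_left _ _)
  have hT₂0 : 0 < T₂ := by linarith
  set Φ : ℝ → ℝ := fun T => ∫ t in (0 : ℝ)..T, Z t with hΦ
  have hmono : ∀ a b : ℝ, 0 ≤ a → a ≤ b → Φ a ≤ Φ b := by
    intro a b _ hab
    have h1 : Φ b = Φ a + ∫ t in a..b, Z t :=
      (intervalIntegral.integral_add_adjacent_intervals (hint 0 a) (hint a b)).symm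
    have h2 : 0 ≤ ∫ t in a..b, Z t := intervalIntegral.integral_nonneg hab fun t _ => hZ0 t
    linarith
  set κ : ℝ := Φ (2 * T₂) with hκ
  have hκ0 : 0 ≤ κ := intervalIntegral.integral_nonneg (by linarith) fun t _ => hZ0 t
  have hind : ∀ n : ℕ, ∀ T : ℝ, 0 ≤ T → T ≤ 2 ^ n * T₂ → Φ T ≤ κ + T ^ (1 + 1 / 20000 : ℝ) := by
    intro n
    induction n with
    | zero =>
      intro T hT0 hT
      have h1 := hmono T (2 * T₂) hT0 (by linarith)
      have h2 : 0 ≤ T ^ (1 + 1 / 20000 : ℝ) := by positivity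
      linarith
    | succ n ih =>
      intro T hT0 hT
      rcases le_or_gt T (2 * T₂) with h | h
      · have h1 := hmono T (2 * T₂) hT0 h
        have h2 : 0 ≤ T ^ (1 + 1 / 20000 : ℝ) := by positivity
        linarith
      · have h1 := ih (T / 2) (by linarith) (by rw [pow_succ] at hT; linarith)
        have h2 := hdy (T / 2) (by linarith)
        rw [show 2 * (T / 2) = T by ring] at h2
        have h3 : Φ T = Φ (T / 2) + ∫ t in (T / 2)..T, Z t :=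
          (intervalIntegral.integral_add_adjacent_intervals (hint 0 _) (hint _ T)).symm
        have hTpos : 0 < T := by linarith
        have h4 : 2 * (T / 2) ^ (1 + 1 / 20000 : ℝ) ≤ T ^ (1 + 1 / 20000 : ℝ) := by
          rw [Real.div_rpow hTpos.le (by norm_num)]
          have h5 : (2 : ℝ) ≤ 2 ^ (1 + 1 / 20000 : ℝ) := by
            conv_lhs => rw [← Real.rpow_one 2]
            exact Real.rpow_le_rpow_of_exponent_le (by norm_num) (by norm_num)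
          have h6 : 0 ≤ T ^ (1 + 1 / 20000 : ℝ) := by positivity
          rw [← mul_div_assoc, div_le_iff₀ (by positivity), mul_comm]
          gcongr
        linarith
  -- conclusion
  have hfin : ∀ᶠ T : ℝ in atTop, κ + T ^ (1 + 1 / 20000 : ℝ) ≤ T ^ (1 + 1 / 10000 : ℝ) := by
    have h1 : Tendsto (fun T : ℝ => T ^ (1 / 20000 : ℝ)) atTop atTop :=
      tendsto_rpow_atTop (by norm_num)
    filter_upwards [h1.eventually_ge_atTop 2, eventually_ge_atTop (max 1 κ)] with T hT hT2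
    have hT1 : 1 ≤ T := (le_max_left _ _).trans hT2
    have hTκ : κ ≤ T := (le_max_right _ _).trans hT2
    have hT0 : 0 < T := by linarith
    have e : T ^ (1 + 1 / 10000 : ℝ) = T ^ (1 + 1 / 20000 : ℝ) * T ^ (1 / 20000 : ℝ) := by
      rw [← Real.rpow_add hT0]; norm_num
    have h2 : T ≤ T ^ (1 + 1 / 20000 : ℝ) := by
      conv_lhs => rw [← Real.rpow_one T]
      exact Real.rpow_le_rpow_of_exponent_le hT1 (by norm_num)
    rw [e]
    have h3 : 0 ≤ T ^ (1 + 1 / 20000 : ℝ) := by positivity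
    nlinarith
  obtain ⟨T₃, hT₃⟩ := eventually_atTop.1 hfin
  refine ⟨max 3 T₃, le_max_left _ _, fun T hT => ?_⟩
  have hT0 : 0 ≤ T := by
    have := (le_max_left 3 T₃).trans hT
    linarith
  have hTT₃ : T₃ ≤ T := (le_max_right _ _).trans hT
  obtain ⟨n, hn⟩ := pow_unbounded_of_one_lt (T / T₂) (one_lt_two (α := ℝ))
  rw [div_lt_iff₀ hT₂0] at hn
  exact (hind n T hT0 hn.le).trans (hT₃ T hTT₃)

end F4
end Pool.Agent.Lib.MP_973905_nt
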