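import Pool.Agent.Lib.MP_973905_nt.F4.Cr4
import Pool.Agent.Lib.MP_973905_nt.Len2

/-! The mollified fourth moment on a dyadic interval. -/

namespace Pool.Agent.Lib.MP_973905_nt
namespace F4

open MeasureTheory ProbabilityTheory Complex Filter Topology K1

namespace Dy

/-! ### Coefficients of a short polynomial -/

lemma exists_b {T : ℝ} (hT : 0 ≤ T) {G : (ℕ → ℂ) → ℂ}
    (h : DP (T ^ (1 / 1000 : ℝ)) (T ^ (1 / 1000 : ℝ)) G) :
    ∃ b : ℕ → ℂ, Sh T b ∧ ∀ f : ℕ → ℂ, CMul f → G f = ∑ n ∈ Finset.Icc 1 (Na T), b n * f n := by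
  obtain ⟨k, c, n, h1, h2, h3⟩ := h
  have hT' : 0 ≤ T ^ (1 / 1000 : ℝ) := Real.rpow_nonneg hT _
  have hn : ∀ i, n i ∈ Finset.Icc 1 (Na T) := fun i => by
    rw [Finset.mem_Icc]
    exact ⟨(h1 i).1, Nat.le_floor (h1 i).2⟩
  refine ⟨fun m => ∑ i, if n i = m then c i else 0, ⟨fun m hm => ?_, ?_⟩, fun f hf => ?_⟩
  · refine Finset.sum_eq_zero fun i _ => ?_
    rw [if_neg]
    intro h
    have := (Finset.mem_Icc.mp (hn i)).2
    omega
  · calc ∑ m ∈ Finset.Icc 1 (Na T), ‖∑ i, if n i = m then c i else 0‖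
        ≤ ∑ m ∈ Finset.Icc 1 (Na T), ∑ i, ‖if n i = m then c i else 0‖ :=
          Finset.sum_le_sum fun m _ => norm_sum_le _ _
      _ = ∑ i, ∑ m ∈ Finset.Icc 1 (Na T), ‖if n i = m then c i else 0‖ := Finset.sum_comm
      _ = ∑ i, ‖c i‖ := by
          refine Finset.sum_congr rfl fun i _ => ?_
          rw [Finset.sum_eq_single (n i)]
          · simp
          · intro m _ hm
            rw [if_neg (Ne.symm hm), norm_zero]
          · intro h; exact absurd (hn i) h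
      _ ≤ _ := h2
  · rw [h3 f hf]
    simp only [Finset.sum_mul]
    rw [Finset.sum_comm]
    refine Finset.sum_congr rfl fun i _ => ?_
    rw [Finset.sum_eq_single (n i)]
    · simp
    · intro m _ hm
      rw [if_neg (Ne.symm hm), zero_mul]
    · intro h; exact absurd (hn i) h

end Dy

open Dy in
theorem stDy (h8 : StTwist) (ha : StAfe) (hm : StMain4) (hc : StCo) : StDy := by
  obtain ⟨Cm, Mm, hmain⟩ := hm
  obtain ⟨C₁, hC₁, T₁, hT₁3, hmean⟩ := Cr4.mean4 h8 ha hc Cm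
  obtain ⟨Md, hdp⟩ := dp_AA2 (ε := 1 / 1000) (by norm_num)
  refine ⟨Cm + C₁ + 1, 1 / 200, by positivity, by norm_num, max (max Mm Md) 1, fun M hM => ?_⟩
  obtain ⟨Tm, hTm3, hmain⟩ := hmain M (((le_max_left _ _).trans (le_max_left _ _)).trans hM)
  obtain ⟨Td, hdp⟩ := hdp M (((le_max_right _ _).trans (le_max_left _ _)).trans hM)
  have hM1 : 1 ≤ M := (le_max_right _ _).trans hM
  refine ⟨max (max T₁ Tm) Td, hT₁3.trans ((le_max_left _ _).trans (le_max_left _ _)),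
    fun T hT X hX1 hX2 k hk1 hk2 g h hgh => ?_⟩
  have hTa : T₁ ≤ T := ((le_max_left _ _).trans (le_max_left _ _)).trans hT
  have hTm : Tm ≤ T := ((le_max_right _ _).trans (le_max_left _ _)).trans hT
  have hTd : Td ≤ T := (le_max_right _ _).trans hT
  have hT3 : 3 ≤ T := hT₁3.trans hTa
  have hT0 : 0 < T := by linarith
  have hL0 : 0 < Real.log T := Real.log_pos (by linarith)
  have hX0 : 0 < X := lt_of_lt_of_le (Real.rpow_pos_of_pos hT0 _) hX1
  obtain ⟨b, hb, hbA⟩ := exists_b hT0.le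
    (hdp T hTd (k - 2) (by rw [abs_le]; constructor <;> linarith) g h)
  have hP0 : 0 ≤ ∏ j ∈ h, ss M (JJ T) j := Finset.prod_nonneg fun j _ => (Real.exp_pos _).le
  have hLk0 := Real.rpow_nonneg hL0.le (k ^ 2 - 1)
  have h1 := hmean T hTa X hX1 hX2 b hb
    (Real.exp (Cm * M) * (Real.log T) ^ (k ^ 2 - 1) * ∏ j ∈ h, ss M (JJ T) j) (by positivity)
    (fun ν a ha => by
      refine (hmain T hTm k hk1 hk2 g h hgh b hb hbA ν a ha).trans (le_of_eq ?_)
      ring)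
  have h2 : ∀ t : ℝ, HP (Na T) b t = AA T M (JJ T) (k - 2) g h (fs (1 / 2 + t * I)) := fun t => by
    rw [HP, hbA _ (cmul_fs _)]
  simp only [h2] at h1
  refine h1.trans ?_
  have hLk : Real.log T * (Real.log T) ^ (k ^ 2 - 1) = (Real.log T) ^ (k ^ 2) := by
    rw [Real.rpow_sub_one hL0.ne']; field_simp
  have h3 : C₁ ≤ Real.exp ((C₁ + 1) * M) := by
    have h13 : (1 : ℝ) ≤ M := by exact_mod_cast hM1
    have h14 := Real.add_one_le_exp ((C₁ + 1) * M)
    nlinarith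
  have h4 : Real.exp ((Cm + C₁ + 1) * M) = Real.exp ((C₁ + 1) * M) * Real.exp (Cm * M) := by
    rw [← Real.exp_add]; ring_nf
  have hLk1 := Real.rpow_nonneg hL0.le (k ^ 2)
  have h5 : C₁ * Real.log T * (Real.exp (Cm * M) * (Real.log T) ^ (k ^ 2 - 1) *
      ∏ j ∈ h, ss M (JJ T) j) ≤
      Real.exp ((Cm + C₁ + 1) * M) * (Real.log T) ^ (k ^ 2) * ∏ j ∈ h, ss M (JJ T) j := by
    rw [h4, ← hLk]
    calc C₁ * Real.log T * (Real.exp (Cm * M) * (Real.log T) ^ (k ^ 2 - 1) *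
          ∏ j ∈ h, ss M (JJ T) j) ≤ Real.exp ((C₁ + 1) * M) * Real.log T *
          (Real.exp (Cm * M) * (Real.log T) ^ (k ^ 2 - 1) * ∏ j ∈ h, ss M (JJ T) j) := by gcongr
      _ = _ := by ring
  gcongr

end F4
end Pool.Agent.Lib.MP_973905_nt
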