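import Pool.Agent.Lib.MP_973905_nt.F4.Stmts
import Pool.Agent.Lib.MP_973905_nt.F4.GammaC

/-! Module (Z1): expansion of the shifted twisted second moment on the right line. -/

namespace Pool.Agent.Lib.MP_973905_nt
namespace F4

open MeasureTheory ProbabilityTheory Complex Filter Topology K1

namespace Expand

lemma slit (y : ℝ) : (1 + (y : ℂ) * I) ∈ slitPlane := by
  left
  simp

/-- the weight as a Gamma integrand -/
lemma Wt_eq {X : ℝ} (hX : 0 < X) (c : ℂ) {t : ℝ} (ht : 0 < t) :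
    Wt X c t = ((X : ℂ)⁻¹ * ((X⁻¹ : ℝ) : ℂ) ^ (c - 1)) *
      ((t : ℂ) ^ (c - 1) * cexp (-(((X⁻¹ : ℝ) : ℂ) * t))) := by
  rw [Wt]
  have h1 : ((t / X : ℝ) : ℂ) = (t : ℂ) * ((X⁻¹ : ℝ) : ℂ) := by push_cast; rw [div_eq_mul_inv]
  rw [h1, mul_cpow_ofReal_nonneg ht.le (inv_nonneg.2 hX.le)]
  rw [mul_comm (t : ℂ) ((X⁻¹ : ℝ) : ℂ)]
  ring

lemma Wt_int {X : ℝ} (hX : 0 < X) {c : ℂ} (hc : 0 < c.re) :
    IntegrableOn (Wt X c) (Set.Ioi 0) := by
  have h1 : IntegrableOn (fun t : ℝ => ((X : ℂ)⁻¹ * ((X⁻¹ : ℝ) : ℂ) ^ (c - 1)) *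
      ((t : ℂ) ^ (c - 1) * cexp (-(((X⁻¹ : ℝ) : ℂ) * t)))) (Set.Ioi 0) := by
    refine Integrable.const_mul ?_ _
    exact GammaC.integrable_main hc (by rw [ofReal_re]; positivity)
  exact h1.congr_fun (fun t ht => (Wt_eq hX c ht).symm) measurableSet_Ioi

lemma measurable_Wt (X : ℝ) (c : ℂ) : Measurable (Wt X c) := by
  unfold Wt
  fun_prop

/-- the Fourier transform of the weight -/
lemma Wt_fourier {X : ℝ} (hX : 0 < X) {c : ℂ} (hc : 0 < c.re) (u : ℝ) :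
    ∫ t in Set.Ioi (0 : ℝ), cexp (-((u * t : ℝ) : ℂ) * I) * Wt X c t = KX X c u := by
  have h1 := integral_comp_mul_left_Ioi
    (fun t : ℝ => cexp (-((u * t : ℝ) : ℂ) * I) * Wt X c t) 0 hX
  rw [mul_zero] at h1
  have h2 : ∫ t in Set.Ioi (0 : ℝ), cexp (-((u * t : ℝ) : ℂ) * I) * Wt X c t =
      (X : ℂ) * ∫ t in Set.Ioi (0 : ℝ), cexp (-((u * (X * t) : ℝ) : ℂ) * I) * Wt X c (X * t) := by
    rw [h1, real_smul, ← mul_assoc, ofReal_inv, mul_inv_cancel₀ (ofReal_ne_zero.2 hX.ne'), one_mul]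
  have h3 : ∫ t in Set.Ioi (0 : ℝ), cexp (-((u * (X * t) : ℝ) : ℂ) * I) * Wt X c (X * t) =
      ∫ t in Set.Ioi (0 : ℝ), (X : ℂ)⁻¹ * ((t : ℂ) ^ (c - 1) *
        cexp (-((1 + ((X * u : ℝ) : ℂ) * I) * t))) := by
    refine setIntegral_congr_fun measurableSet_Ioi fun t _ => ?_
    simp only [Wt]
    have e1 : X * t / X = t := by field_simp
    rw [e1]
    have e2 : cexp (-((1 + ((X * u : ℝ) : ℂ) * I) * t)) =
        cexp (-((u * (X * t) : ℝ) : ℂ) * I) * cexp (-(t : ℂ)) := by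
      rw [← Complex.exp_add]
      congr 1
      push_cast
      ring
    rw [e2]
    ring
  rw [h2, h3, integral_const_mul, GammaC.gammaC hc (by simp), ← mul_assoc,
    mul_inv_cancel₀ (ofReal_ne_zero.2 hX.ne'), one_mul, KX, one_div, inv_cpow _ _ ?_,
    cpow_neg, mul_comm]
  have := (mem_slitPlane_iff_arg.1 (slit (X * u))).1
  exact this

lemma npow {n : ℕ} (hn : n ≠ 0) (z : ℂ) : (n : ℂ) ^ z = cexp (z * (Real.log n : ℝ)) := by
  rw [cpow_def_of_ne_zero (by exact_mod_cast hn), ← natCast_log, mul_comm]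
  
/-- the phase identity -/
lemma phase {a : ℂ} (ha : a.re = 9 / 16) {h k : ℕ} (hh : h ≠ 0) (hk : k ≠ 0) (m n : ℕ) (t : ℝ) :
    (m : ℂ) ^ (-(1 / 2 + a + t * I)) * (n : ℂ) ^ (-(1 / 2 + a - t * I)) *
      ((h : ℂ) ^ (-(1 / 2 + t * I)) * (k : ℂ) ^ (-(1 / 2 - t * I))) =
    ((h * k : ℕ) : ℂ) ^ (-(1 / 2 : ℂ)) * (((m * n : ℕ) : ℂ) ^ (-(1 / 2 + a)) *
      cexp (-((Real.log ((m * h : ℕ) / (n * k : ℕ) : ℝ) * t : ℝ) : ℂ) * I)) := by
  have hz : ∀ z : ℂ, z.re = -(17 / 16) → z ≠ 0 := by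
    intro z hz h0
    rw [h0] at hz
    norm_num at hz
  have z1 : (-(1 / 2 + a + t * I)) ≠ 0 := hz _ (by simp [ha]; norm_num)
  have z2 : (-(1 / 2 + a - t * I)) ≠ 0 := hz _ (by simp [ha]; norm_num)
  have z3 : (-(1 / 2 + a)) ≠ 0 := hz _ (by simp [ha]; norm_num)
  rcases eq_or_ne m 0 with rfl | hm
  · rw [Nat.zero_mul n, Nat.cast_zero, zero_cpow z1, zero_cpow z3]
    ring
  rcases eq_or_ne n 0 with rfl | hn
  · rw [Nat.mul_zero m, Nat.cast_zero, zero_cpow z2, zero_cpow z3]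
    ring
  rw [npow hm, npow hn, npow hh, npow hk, npow (mul_ne_zero hh hk), npow (mul_ne_zero hm hn),
    ← Complex.exp_add, ← Complex.exp_add, ← Complex.exp_add, ← Complex.exp_add,
    ← Complex.exp_add]
  congr 1
  have hm' : (m : ℝ) ≠ 0 := by exact_mod_cast hm
  have hn' : (n : ℝ) ≠ 0 := by exact_mod_cast hn
  have hh' : (h : ℝ) ≠ 0 := by exact_mod_cast hh
  have hk' : (k : ℝ) ≠ 0 := by exact_mod_cast hk
  push_cast
  rw [Real.log_div (mul_ne_zero hm' hh') (mul_ne_zero hn' hk'), Real.log_mul hm' hh',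
    Real.log_mul hn' hk', Real.log_mul hh' hk', Real.log_mul hm' hn']
  push_cast
  ring

lemma conj_fs {k : ℕ} (hk : k ≠ 0) (t : ℝ) :
    (starRingEnd ℂ) (fs (1 / 2 + t * I) k) = (k : ℂ) ^ (-(1 / 2 - t * I)) := by
  simp only [fs]
  rw [npow hk, npow hk, ← Complex.exp_conj]
  congr 1
  simp only [map_mul, map_neg, map_add, map_div₀, map_one, map_ofNat, conj_ofReal, conj_I]
  ring

lemma summ {s : ℂ} (hs : s.re = 17 / 16) : Summable fun n : ℕ => ‖(n : ℂ) ^ (-s)‖ := by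
  have h1 : Summable fun n : ℕ => 1 / (n : ℝ) ^ (17 / 16 : ℝ) :=
    Real.summable_one_div_nat_rpow.2 (by norm_num)
  refine h1.of_nonneg_of_le (fun n => norm_nonneg _) fun n => ?_
  rcases eq_or_ne n 0 with rfl | hn
  · rw [Nat.cast_zero, zero_cpow (by
      intro h
      have := congrArg Complex.re h
      rw [neg_re, hs, zero_re] at this
      norm_num at this), norm_zero]
    positivity
  · rw [norm_natCast_cpow_of_pos (Nat.pos_of_ne_zero hn), neg_re, hs,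
      Real.rpow_neg (Nat.cast_nonneg _), one_div]

lemma zeta_eq {s : ℂ} (hs : s.re = 17 / 16) :
    riemannZeta s = ∑' n : ℕ, (n : ℂ) ^ (-s) := by
  rw [zeta_eq_tsum_one_div_nat_cpow (by rw [hs]; norm_num)]
  refine tsum_congr fun n => ?_
  rw [cpow_neg, one_div]

lemma zeta_pair {a : ℂ} (ha : a.re = 9 / 16) (t : ℝ) :
    riemannZeta (1 / 2 + a + t * I) * riemannZeta (1 / 2 + a - t * I) =
      ∑' p : ℕ × ℕ, (p.1 : ℂ) ^ (-(1 / 2 + a + t * I)) * (p.2 : ℂ) ^ (-(1 / 2 + a - t * I)) := by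
  have h1 : (1 / 2 + a + t * I : ℂ).re = 17 / 16 := by simp [ha]; norm_num
  have h2 : (1 / 2 + a - t * I : ℂ).re = 17 / 16 := by simp [ha]; norm_num
  rw [zeta_eq h1, zeta_eq h2]
  exact tsum_mul_tsum_of_summable_norm (summ h1) (summ h2)

/-- the summands -/
noncomputable def Fs (X : ℝ) (a c : ℂ) (h k : ℕ) (p : ℕ × ℕ) (t : ℝ) : ℂ :=
  ((p.1 * p.2 : ℕ) : ℂ) ^ (-(1 / 2 + a)) *
    (cexp (-((Real.log ((p.1 * h : ℕ) / (p.2 * k : ℕ) : ℝ) * t : ℝ) : ℂ) * I) * Wt X c t)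

lemma norm_Fs (X : ℝ) (a c : ℂ) (h k : ℕ) (p : ℕ × ℕ) (t : ℝ) : ‖Fs X a c h k p t‖ =
    ‖((p.1 * p.2 : ℕ) : ℂ) ^ (-(1 / 2 + a))‖ * ‖Wt X c t‖ := by
  rw [Fs, norm_mul, norm_mul, ← ofReal_neg, norm_exp_ofReal_mul_I, one_mul]

lemma pair_cpow (m n : ℕ) (z : ℂ) : ((m * n : ℕ) : ℂ) ^ z = (m : ℂ) ^ z * (n : ℂ) ^ z := by
  push_cast
  exact natCast_mul_natCast_cpow m n z

lemma summ_pair {a : ℂ} (ha : a.re = 9 / 16) :
    Summable fun p : ℕ × ℕ => ‖((p.1 * p.2 : ℕ) : ℂ) ^ (-(1 / 2 + a))‖ := by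
  have h1 : (1 / 2 + a : ℂ).re = 17 / 16 := by simp [ha]; norm_num
  have h2 := (summ h1).mul_of_nonneg (summ h1) (fun _ => norm_nonneg _) (fun _ => norm_nonneg _)
  refine h2.congr fun p => ?_
  rw [pair_cpow, norm_mul]

lemma Fs_int {X : ℝ} (hX : 0 < X) {a c : ℂ} (hc : 0 < c.re) (h k : ℕ) (p : ℕ × ℕ) :
    Integrable (Fs X a c h k p) (volume.restrict (Set.Ioi 0)) := by
  have h1 := Wt_int hX hc
  refine Integrable.mono' (h1.norm.const_mul ‖((p.1 * p.2 : ℕ) : ℂ) ^ (-(1 / 2 + a))‖) ?_ ?_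
  · apply Measurable.aestronglyMeasurable
    unfold Fs
    have := measurable_Wt X c
    fun_prop
  · exact Eventually.of_forall fun t => (norm_Fs X a c h k p t).le

lemma Fs_summ {X : ℝ} {a c : ℂ} (ha : a.re = 9 / 16) (h k : ℕ) :
    Summable fun p : ℕ × ℕ => ∫ t in Set.Ioi (0 : ℝ), ‖Fs X a c h k p t‖ := by
  have h1 : ∀ p : ℕ × ℕ, ∫ t in Set.Ioi (0 : ℝ), ‖Fs X a c h k p t‖ =
      ‖((p.1 * p.2 : ℕ) : ℂ) ^ (-(1 / 2 + a))‖ * ∫ t in Set.Ioi (0 : ℝ), ‖Wt X c t‖ := by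
    intro p
    rw [← integral_const_mul]
    exact integral_congr_ae (Eventually.of_forall fun t => norm_Fs X a c h k p t)
  simp_rw [h1]
  exact (summ_pair ha).mul_right _

lemma Fs_hasSum {X : ℝ} (hX : 0 < X) {a c : ℂ} (ha : a.re = 9 / 16) (hc : 0 < c.re) (h k : ℕ) :
    ∫ t in Set.Ioi (0 : ℝ), ∑' p : ℕ × ℕ, Fs X a c h k p t = Fp X a c h k := by
  rw [← integral_tsum_of_summable_integral_norm (Fs_int hX hc h k) (Fs_summ ha h k), Fp]
  refine tsum_congr fun p => ?_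
  simp only [Fs]
  rw [integral_const_mul, Wt_fourier hX hc]

lemma tsum_int {X : ℝ} (hX : 0 < X) {a c : ℂ} (ha : a.re = 9 / 16) (hc : 0 < c.re) (h k : ℕ) :
    Integrable (fun t => ∑' p : ℕ × ℕ, Fs X a c h k p t) (volume.restrict (Set.Ioi 0)) := by
  have h1 := Wt_int hX hc
  refine Integrable.mono' (h1.norm.const_mul
    (∑' p : ℕ × ℕ, ‖((p.1 * p.2 : ℕ) : ℂ) ^ (-(1 / 2 + a))‖)) ?_ ?_
  · apply Measurable.aestronglyMeasurable
    apply Measurable.tsum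
    intro p
    unfold Fs
    have := measurable_Wt X c
    fun_prop
  · refine Eventually.of_forall fun t => ?_
    have h2 : Summable fun p : ℕ × ℕ => ‖Fs X a c h k p t‖ := by
      simp_rw [norm_Fs]
      exact (summ_pair ha).mul_right _
    refine (norm_tsum_le_tsum_norm h2).trans ?_
    simp_rw [norm_Fs]
    rw [tsum_mul_right]

lemma pointwise {X : ℝ} {a c : ℂ} (ha : a.re = 9 / 16) (N : ℕ) (b : ℕ → ℂ) (t : ℝ) :
    riemannZeta (1 / 2 + a + t * I) * riemannZeta (1 / 2 + a - t * I) *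
      (HP N b t * (starRingEnd ℂ) (HP N b t)) * Wt X c t =
    ∑ h ∈ Finset.Icc 1 N, ∑ k ∈ Finset.Icc 1 N,
      b h * (starRingEnd ℂ) (b k) * ((h * k : ℕ) : ℂ) ^ (-(1 / 2 : ℂ)) *
        ∑' p : ℕ × ℕ, Fs X a c h k p t := by
  have h1 : HP N b t * (starRingEnd ℂ) (HP N b t) = ∑ h ∈ Finset.Icc 1 N, ∑ k ∈ Finset.Icc 1 N,
      (b h * (starRingEnd ℂ) (b k)) *
        ((h : ℂ) ^ (-(1 / 2 + t * I)) * (k : ℂ) ^ (-(1 / 2 - t * I))) := by
    rw [HP, map_sum, Finset.sum_mul_sum]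
    refine Finset.sum_congr rfl fun h _ => Finset.sum_congr rfl fun k hk => ?_
    rw [Finset.mem_Icc] at hk
    rw [map_mul, conj_fs (by omega)]
    simp only [fs]
    ring
  rw [h1, zeta_pair ha, Finset.mul_sum, Finset.sum_mul]
  refine Finset.sum_congr rfl fun h hh => ?_
  rw [Finset.mul_sum, Finset.sum_mul]
  refine Finset.sum_congr rfl fun k hk => ?_
  rw [Finset.mem_Icc] at hh hk
  have h2 : ∀ p : ℕ × ℕ, ((p.1 : ℂ) ^ (-(1 / 2 + a + t * I)) *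
      (p.2 : ℂ) ^ (-(1 / 2 + a - t * I))) *
        ((h : ℂ) ^ (-(1 / 2 + t * I)) * (k : ℂ) ^ (-(1 / 2 - t * I))) * Wt X c t =
      ((h * k : ℕ) : ℂ) ^ (-(1 / 2 : ℂ)) * Fs X a c h k p t := by
    intro p
    rw [phase ha (by omega) (by omega), Fs]
    ring
  have h3 : (∑' p : ℕ × ℕ, (p.1 : ℂ) ^ (-(1 / 2 + a + t * I)) *
      (p.2 : ℂ) ^ (-(1 / 2 + a - t * I))) *
        ((h : ℂ) ^ (-(1 / 2 + t * I)) * (k : ℂ) ^ (-(1 / 2 - t * I))) * Wt X c t =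
      ((h * k : ℕ) : ℂ) ^ (-(1 / 2 : ℂ)) * ∑' p : ℕ × ℕ, Fs X a c h k p t := by
    rw [← tsum_mul_right, ← tsum_mul_right, ← tsum_mul_left]
    exact tsum_congr h2
  rw [mul_assoc (b h * (starRingEnd ℂ) (b k)) _ (∑' p : ℕ × ℕ, Fs X a c h k p t), ← h3]
  ring

end Expand

theorem stExpand : StExpand := by
  intro X a c hX ha hc N b
  have hX0 : 0 < X := by linarith
  have hc0 : 0 < c.re := by linarith
  rw [Jt]
  rw [integral_congr_ae (Eventually.of_forall fun t => Expand.pointwise (X := X) (c := c) ha N b t)]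
  rw [integral_finsetSum _ fun h _ => ?_]
  · refine Finset.sum_congr rfl fun h _ => ?_
    rw [integral_finsetSum _ fun k _ => ?_]
    · refine Finset.sum_congr rfl fun k _ => ?_
      rw [integral_const_mul, Expand.Fs_hasSum hX0 ha hc0]
    · exact (Expand.tsum_int hX0 ha hc0 h k).const_mul _
  · exact integrable_finsetSum _ fun k _ => (Expand.tsum_int hX0 ha hc0 h k).const_mul _

end F4
end Pool.Agent.Lib.MP_973905_nt
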