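import Pool.Agent.Lib.MP_973905_nt.F4.Stmts
import Pool.Agent.Lib.MP_973905_nt.K2.Stmts
import Pool.Agent.Lib.MP_973905_nt.K1.Lower
import Pool.Agent.Lib.MP_973905_nt.Len2

/-! From dyadic intervals to the sharp mean over `[0, T]` and to the long Gaussian mean. -/

namespace Pool.Agent.Lib.MP_973905_nt
namespace F4

open MeasureTheory ProbabilityTheory Complex Filter Topology K1

namespace Sum4

/-! ### Symmetry -/

lemma conj_QQ (A : ℕ) (z : ℂ) : (starRingEnd ℂ) (QQ A z) = QQ A ((starRingEnd ℂ) z) := by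
  simp only [QQ, map_sum, map_div₀, map_pow, map_natCast]

lemma conj_Pj (A : ℕ) (S : Finset ℕ) (f : ℕ → ℂ) :
    (starRingEnd ℂ) (Pj A S f) = Pj A S (fun n => (starRingEnd ℂ) (f n)) := by
  simp only [Pj, map_sum, conj_QQ]

lemma conj_Ntr (l : ℕ) (α : ℝ) (z : ℂ) :
    (starRingEnd ℂ) (Ntr l α z) = Ntr l α ((starRingEnd ℂ) z) := by
  simp only [Ntr, map_sum, map_div₀, map_pow, map_mul, map_natCast, conj_ofReal]

lemma conj_AA (T : ℝ) (M J : ℕ) (α : ℝ) (g h : Finset ℕ) (f : ℕ → ℂ) :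
    (starRingEnd ℂ) (AA T M J α g h f) = AA T M J α g h (fun n => (starRingEnd ℂ) (f n)) := by
  simp only [AA, Fc, map_prod, map_mul]
  refine Finset.prod_congr rfl fun j _ => ?_
  congr 1
  · split_ifs
    · rw [conj_Ntr, conj_Pj]
    · simp
  · split_ifs
    · rw [map_pow, map_div₀, conj_Pj, conj_ofReal]
    · simp

lemma conj_fs (t : ℝ) (n : ℕ) :
    (starRingEnd ℂ) (fs (1 / 2 + t * I) n) = fs (1 / 2 + ((-t : ℝ) : ℂ) * I) n := by
  simp only [fs]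
  have h1 : (-(1 / 2 + ((-t : ℝ) : ℂ) * I)) = (starRingEnd ℂ) (-(1 / 2 + t * I)) := by
    rw [map_neg, map_add, map_mul, conj_ofReal, conj_I, map_div₀, map_one, map_ofNat]
    push_cast
    ring
  have h2 : (n : ℂ).arg ≠ Real.pi := by rw [natCast_arg]; exact Real.pi_pos.ne
  rw [h1, cpow_conj _ _ h2, Complex.conj_natCast]

/-- the integrand -/
noncomputable def Fi (T : ℝ) (M : ℕ) (k : ℝ) (g h : Finset ℕ) (t : ℝ) : ℝ :=
  ‖riemannZeta (1 / 2 + t * I)‖ ^ 4 * ‖AA T M (JJ T) (k - 2) g h (fs (1 / 2 + t * I))‖ ^ 2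

lemma Fi_even (T : ℝ) (M : ℕ) (k : ℝ) (g h : Finset ℕ) (t : ℝ) :
    Fi T M k g h (-t) = Fi T M k g h t := by
  unfold Fi
  have h1 : ‖riemannZeta (1 / 2 + ((-t : ℝ) : ℂ) * I)‖ = ‖riemannZeta (1 / 2 + t * I)‖ := by
    rw [← norm_conj (riemannZeta (1 / 2 + t * I)), ← riemannZeta_conj]
    congr 2
    rw [map_add, map_mul, conj_ofReal, conj_I, map_div₀, map_one, map_ofNat]
    push_cast
    ring
  have h2 : ‖AA T M (JJ T) (k - 2) g h (fs (1 / 2 + ((-t : ℝ) : ℂ) * I))‖ =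
      ‖AA T M (JJ T) (k - 2) g h (fs (1 / 2 + t * I))‖ := by
    rw [← norm_conj (AA T M (JJ T) (k - 2) g h (fs (1 / 2 + t * I))), conj_AA]
    congr 2
    funext n
    exact (conj_fs t n).symm
  rw [h1, h2]

lemma Fi_nonneg (T : ℝ) (M : ℕ) (k : ℝ) (g h : Finset ℕ) (t : ℝ) : 0 ≤ Fi T M k g h t := by
  unfold Fi; positivity

/-! ### Dyadic summation -/

lemma dyadic {F : ℝ → ℝ} (hF : Continuous F) (h0 : ∀ t, 0 ≤ F t) {Y₀ Y₁ B D : ℝ} (hY : 0 < Y₀)
    (hB : 0 ≤ B) (hX : ∀ X, Y₀ ≤ X → X ≤ Y₁ → ∫ t in X..(2 * X), F t ≤ X * B)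
    (hD : ∫ t in (0 : ℝ)..(2 * Y₀), F t ≤ D) (n : ℕ) : ∀ Z : ℝ, 0 ≤ Z → Z ≤ 2 * Y₁ →
    Z ≤ 2 ^ (n + 1) * Y₀ → ∫ t in (0 : ℝ)..Z, F t ≤ Z * B + D := by
  have hi : ∀ a b : ℝ, IntervalIntegrable F volume a b := fun a b => hF.intervalIntegrable a b
  have base : ∀ Z : ℝ, 0 ≤ Z → Z ≤ 2 * Y₀ → ∫ t in (0 : ℝ)..Z, F t ≤ Z * B + D := by
    intro Z hZ0 hZ
    have h1 : ∫ t in (0 : ℝ)..Z, F t ≤ ∫ t in (0 : ℝ)..(2 * Y₀), F t := by
      rw [← intervalIntegral.integral_add_adjacent_intervals (hi 0 Z) (hi Z (2 * Y₀))]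
      have : 0 ≤ ∫ t in Z..(2 * Y₀), F t :=
        intervalIntegral.integral_nonneg hZ fun t _ => h0 t
      linarith
    have h2 : 0 ≤ Z * B := mul_nonneg hZ0 hB
    linarith
  induction n with
  | zero =>
    intro Z hZ0 _ hZ
    exact base Z hZ0 (by simpa using hZ)
  | succ n ih =>
    intro Z hZ0 hZ1 hZ
    by_cases h : Z ≤ 2 * Y₀
    · exact base Z hZ0 h
    · push Not at h
      have h1 := ih (Z / 2) (by linarith) (by linarith) (by
        rw [pow_succ] at hZ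
        linarith)
      have h2 := hX (Z / 2) (by linarith) (by linarith)
      rw [show 2 * (Z / 2) = Z by ring] at h2
      rw [← intervalIntegral.integral_add_adjacent_intervals (hi 0 (Z / 2)) (hi (Z / 2) Z)]
      linarith

lemma dyadic' {F : ℝ → ℝ} (hF : Continuous F) (h0 : ∀ t, 0 ≤ F t) {Y₀ Y₁ B D : ℝ} (hY : 0 < Y₀)
    (hB : 0 ≤ B) (hX : ∀ X, Y₀ ≤ X → X ≤ Y₁ → ∫ t in X..(2 * X), F t ≤ X * B)
    (hD : ∫ t in (0 : ℝ)..(2 * Y₀), F t ≤ D) {Z : ℝ} (hZ0 : 0 ≤ Z) (hZ1 : Z ≤ 2 * Y₁) :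
    ∫ t in (0 : ℝ)..Z, F t ≤ Z * B + D := by
  obtain ⟨n, hn⟩ := pow_unbounded_of_one_lt (Z / Y₀) (show (1 : ℝ) < 2 by norm_num)
  refine dyadic hF h0 hY hB hX hD n Z hZ0 hZ1 ?_
  rw [div_lt_iff₀ hY] at hn
  have h1 : (2 : ℝ) ^ n * Y₀ ≤ 2 ^ (n + 1) * Y₀ := by
    rw [pow_succ]
    have : 0 < (2 : ℝ) ^ n * Y₀ := by positivity
    nlinarith
  linarith

lemma symm_int {F : ℝ → ℝ} (hF : Continuous F) (he : ∀ t, F (-t) = F t) (Z : ℝ) :
    ∫ t in (-Z)..Z, F t = 2 * ∫ t in (0 : ℝ)..Z, F t := by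
  have hi : ∀ a b : ℝ, IntervalIntegrable F volume a b := fun a b => hF.intervalIntegrable a b
  rw [← intervalIntegral.integral_add_adjacent_intervals (hi (-Z) 0) (hi 0 Z)]
  have h1 : ∫ t in (-Z)..0, F t = ∫ t in (0 : ℝ)..Z, F t := by
    have := intervalIntegral.integral_comp_neg (a := 0) (b := Z) F
    rw [neg_zero] at this
    rw [← this]
    simp only [he]
  rw [h1]; ring

/-! ### The long Gaussian mean -/

lemma WW_coe {T : ℝ} (hT : 0 ≤ T) : ((K2.WW T : NNReal) : ℝ) = T ^ (19 / 10 : ℝ) + T ^ 2 := by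
  rw [K2.WW, NNReal.coe_add, VV_coe hT, Real.coe_toNNReal _ (by positivity)]

lemma gauss_tail {T : ℝ} (hT : 1 ≤ T) {F : ℝ → ℝ} (h0 : ∀ t, 0 ≤ F t)
    {K : ℝ} (hK0 : 0 ≤ K) {m : ℕ} (hK : ∀ t, F t ≤ K * (1 + |t|) ^ m) (N : ℕ) :
    ∫ t, Set.indicator {t : ℝ | N * T < |t|} F t ∂(gaussianReal 0 (K2.WW T)) ≤
      K * (2 * Real.exp 1 * m.factorial * T ^ m * Real.exp (-(3 * N ^ 2 / 16) + N / 2 + 1)) := by
  have hT0 : 0 < T := by linarith
  have hW := WW_coe hT0.le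
  have hW2 : (K2.WW T : ℝ) ≤ 2 * T ^ 2 := by
    rw [hW]
    have : T ^ (19 / 10 : ℝ) ≤ T ^ (2 : ℝ) := Real.rpow_le_rpow_of_exponent_le hT (by norm_num)
    rw [Real.rpow_two] at this
    linarith
  set l : ℝ := N / (4 * T) + 1 / T with hl
  have hl0 : 0 ≤ l := by positivity
  have hpt : ∀ t : ℝ, Set.indicator {t : ℝ | N * T < |t|} F t ≤
      K * (Real.exp 1 * m.factorial * T ^ m * Real.exp (-(N ^ 2 / 4))) * Real.exp (l * |t|) := by
    intro t
    by_cases ht : N * T < |t|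
    · rw [Set.indicator_of_mem (show t ∈ {t : ℝ | N * T < |t|} from ht)]
      have h1 : (1 + |t|) ^ m ≤ T ^ m * (m.factorial * Real.exp (1 + |t| / T)) := by
        have h2 : 1 + |t| ≤ T * (1 + |t| / T) := by
          rw [mul_add, mul_div_cancel₀ _ hT0.ne']
          linarith
        have h3 : 0 ≤ 1 + |t| / T := by positivity
        have h4 := Real.pow_div_factorial_le_exp (1 + |t| / T) h3 m
        rw [div_le_iff₀ (by positivity)] at h4
        calc (1 + |t|) ^ m ≤ (T * (1 + |t| / T)) ^ m := by gcongr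
          _ = T ^ m * (1 + |t| / T) ^ m := mul_pow _ _ _
          _ ≤ T ^ m * (Real.exp (1 + |t| / T) * m.factorial) := by gcongr
          _ = _ := by ring
      have h5 : 1 ≤ Real.exp (N / (4 * T) * |t| - N ^ 2 / 4) := by
        apply Real.one_le_exp
        have h6 : (N : ℝ) / (4 * T) * (N * T) ≤ N / (4 * T) * |t| := by gcongr
        have h7 : (N : ℝ) / (4 * T) * (N * T) = N ^ 2 / 4 := by field_simp
        linarith
      have h8 : Real.exp (1 + |t| / T) * Real.exp (N / (4 * T) * |t| - N ^ 2 / 4) =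
          Real.exp 1 * Real.exp (-(N ^ 2 / 4)) * Real.exp (l * |t|) := by
        rw [← Real.exp_add, ← Real.exp_add, ← Real.exp_add, hl]
        congr 1
        ring
      calc F t ≤ K * (1 + |t|) ^ m := hK t
        _ ≤ K * (T ^ m * (m.factorial * Real.exp (1 + |t| / T))) := by gcongr
        _ ≤ K * (T ^ m * (m.factorial * Real.exp (1 + |t| / T))) *
            Real.exp (N / (4 * T) * |t| - N ^ 2 / 4) := by
            apply le_mul_of_one_le_right (by positivity) h5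
        _ = K * T ^ m * m.factorial * (Real.exp (1 + |t| / T) *
            Real.exp (N / (4 * T) * |t| - N ^ 2 / 4)) := by ring
        _ = _ := by rw [h8]; ring
    · rw [Set.indicator_of_notMem (show t ∉ {t : ℝ | N * T < |t|} from ht)]
      positivity
  have hint : Integrable (fun t : ℝ => K * (Real.exp 1 * m.factorial * T ^ m *
      Real.exp (-(N ^ 2 / 4))) * Real.exp (l * |t|)) (gaussianReal 0 (K2.WW T)) := by
    refine Integrable.const_mul ?_ _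
    have h1 : Integrable (fun t : ℝ => Real.exp (l * t) + Real.exp ((-l) * t))
        (gaussianReal 0 (K2.WW T)) :=
      (integrable_exp_mul_gaussianReal l).add (integrable_exp_mul_gaussianReal (-l))
    refine h1.mono' (by fun_prop) (Filter.Eventually.of_forall fun t => ?_)
    rw [Real.norm_eq_abs, abs_of_pos (Real.exp_pos _)]
    rcases abs_cases t with ⟨h, _⟩ | ⟨h, _⟩ <;> rw [h]
    · have := Real.exp_pos (-l * t); linarith
    · have := Real.exp_pos (l * t)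
      rw [show l * -t = -l * t by ring]; linarith
  have h1 := integral_mono_of_nonneg (μ := gaussianReal 0 (K2.WW T))
    (Filter.Eventually.of_forall fun t => Set.indicator_nonneg (fun t _ => h0 t) t)
    hint (Filter.Eventually.of_forall hpt)
  refine h1.trans ?_
  rw [integral_const_mul]
  have h2 := integral_exp_abs_le 0 (K2.WW T) hl0
  rw [abs_zero, mul_zero, zero_add] at h2
  have h3 : (K2.WW T : ℝ) * l ^ 2 / 2 ≤ (N / 4 + 1) ^ 2 := by
    have h4 : T * l = N / 4 + 1 := by rw [hl]; field_simp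
    have h5 : (K2.WW T : ℝ) * l ^ 2 / 2 ≤ (2 * T ^ 2) * l ^ 2 / 2 := by gcongr
    calc _ ≤ _ := h5
      _ = (T * l) ^ 2 := by ring
      _ = _ := by rw [h4]
  have h6 : ∫ t : ℝ, Real.exp (l * |t|) ∂(gaussianReal 0 (K2.WW T)) ≤
      2 * Real.exp ((N / 4 + 1) ^ 2) := h2.trans (by gcongr)
  have h7 : Real.exp (-(N ^ 2 / 4 : ℝ)) * Real.exp (((N : ℝ) / 4 + 1) ^ 2) =
      Real.exp (-(3 * N ^ 2 / 16) + N / 2 + 1) := by
    rw [← Real.exp_add]; congr 1; ring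
  calc _ ≤ K * (Real.exp 1 * m.factorial * T ^ m * Real.exp (-(N ^ 2 / 4))) *
        (2 * Real.exp ((N / 4 + 1) ^ 2)) := by gcongr
    _ = K * (2 * Real.exp 1 * m.factorial * T ^ m *
        (Real.exp (-(N ^ 2 / 4 : ℝ)) * Real.exp (((N : ℝ) / 4 + 1) ^ 2))) := by ring
    _ = _ := by rw [h7]

lemma gauss_main {T : ℝ} (hT : 1 ≤ T) {F : ℝ → ℝ} (hF : Continuous F) (h0 : ∀ t, 0 ≤ F t)
    {K : ℝ} (hK0 : 0 ≤ K) {m : ℕ} (hK : ∀ t, F t ≤ K * (1 + |t|) ^ m) {N : ℕ} (hN : 1 ≤ N) :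
    K2.EF T F ≤ T⁻¹ * (∑ n ∈ Finset.range N, Real.exp (-(n ^ 2 / 4 : ℝ)) *
      ∫ t in (-((n + 1) * T))..((n + 1) * T), F t) +
      K * (2 * Real.exp 1 * m.factorial * T ^ m * Real.exp (-(3 * N ^ 2 / 16) + N / 2 + 1)) := by
  have hT0 : 0 < T := by linarith
  have hW := WW_coe hT0.le
  have hW1 : T ^ 2 ≤ (K2.WW T : ℝ) := by
    rw [hW]
    have := Real.rpow_nonneg hT0.le (19 / 10)
    linarith
  have hW2 : (K2.WW T : ℝ) ≤ 2 * T ^ 2 := by
    rw [hW]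
    have : T ^ (19 / 10 : ℝ) ≤ T ^ (2 : ℝ) := Real.rpow_le_rpow_of_exponent_le hT (by norm_num)
    rw [Real.rpow_two] at this
    linarith
  have hT2 : 0 < T ^ 2 := by positivity
  have hW0 : 0 < (K2.WW T : ℝ) := by linarith
  have hWne : K2.WW T ≠ 0 := by
    intro h
    rw [h] at hW0
    simp at hW0
  set S : Set ℝ := {t : ℝ | N * T < |t|} with hS
  have hSm : MeasurableSet S := measurableSet_lt measurable_const measurable_id.abs
  have hFb : ∀ t, ‖F t‖ ≤ K * (1 + |t|) ^ m := fun t => by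
    rw [Real.norm_eq_abs, abs_of_nonneg (h0 t)]; exact hK t
  have hFg : Integrable F (gaussianReal 0 (K2.WW T)) :=
    integrable_of_poly 0 (K2.WW T) hF.aestronglyMeasurable hFb
  have e0 : K2.EF T F = (∫ t, Set.indicator Sᶜ F t ∂(gaussianReal 0 (K2.WW T))) +
      ∫ t, Set.indicator S F t ∂(gaussianReal 0 (K2.WW T)) := by
    rw [K2.EF, ← integral_add (hFg.indicator hSm.compl) (hFg.indicator hSm)]
    congr 1
    funext t
    by_cases ht : t ∈ S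
    · simp [ht]
    · simp [ht]
  rw [e0]
  refine add_le_add ?_ (gauss_tail hT h0 hK0 hK N)
  rw [integral_gaussianReal_eq_integral_smul hWne]
  simp only [smul_eq_mul]
  have hpdf : ∀ t : ℝ, gaussianPDFReal 0 (K2.WW T) t ≤ T⁻¹ * Real.exp (-(t ^ 2 / (4 * T ^ 2))) := by
    intro t
    rw [gaussianPDFReal, sub_zero]
    have h1 : T ≤ Real.sqrt (2 * Real.pi * (K2.WW T : ℝ)) := by
      apply Real.le_sqrt_of_sq_le
      have hpi := Real.pi_gt_three
      nlinarith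
    have h2 : (Real.sqrt (2 * Real.pi * (K2.WW T : ℝ)))⁻¹ ≤ T⁻¹ := by gcongr
    have h3 : -t ^ 2 / (2 * (K2.WW T : ℝ)) ≤ -(t ^ 2 / (4 * T ^ 2)) := by
      rw [neg_div, neg_le_neg_iff]
      exact div_le_div_of_nonneg_left (sq_nonneg t) (by positivity) (by linarith)
    gcongr
  have hpt : ∀ t : ℝ, gaussianPDFReal 0 (K2.WW T) t * Set.indicator Sᶜ F t ≤
      T⁻¹ * (∑ n ∈ Finset.range N, Real.exp (-(n ^ 2 / 4 : ℝ)) *
        Set.indicator (Set.Icc (-((n + 1) * T)) ((n + 1) * T)) F t) := by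
    intro t
    have hnn : ∀ n ∈ Finset.range N, 0 ≤ Real.exp (-(n ^ 2 / 4 : ℝ)) *
        Set.indicator (Set.Icc (-((n + 1) * T)) ((n + 1) * T)) F t := fun n _ =>
      mul_nonneg (Real.exp_pos _).le (Set.indicator_nonneg (fun t _ => h0 t) t)
    by_cases ht : N * T < |t|
    · have : t ∉ Sᶜ := fun h => h ht
      rw [Set.indicator_of_notMem this, mul_zero]
      have := Finset.sum_nonneg hnn
      positivity
    · have h1 : t ∈ Sᶜ := ht
      rw [Set.indicator_of_mem h1]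
      push Not at ht
      set n : ℕ := min ⌊|t| / T⌋₊ (N - 1) with hn
      have hnN : n ∈ Finset.range N := by
        rw [Finset.mem_range]; omega
      have h2 : (n : ℝ) * T ≤ |t| := by
        have h3 : (n : ℝ) ≤ |t| / T := by
          refine le_trans ?_ (Nat.floor_le (by positivity : 0 ≤ |t| / T))
          exact_mod_cast min_le_left _ _
        rwa [le_div_iff₀ hT0] at h3
      have h3 : |t| ≤ (n + 1) * T := by
        rcases min_choice ⌊|t| / T⌋₊ (N - 1) with h | h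
        · rw [← hn] at h
          have h4 := (Nat.lt_floor_add_one (|t| / T)).le
          rw [← h, div_le_iff₀ hT0] at h4
          exact h4
        · rw [← hn] at h
          have h5 : n + 1 = N := by omega
          have h6 : ((n : ℝ) + 1) = N := by exact_mod_cast h5
          rw [h6]
          exact ht
      have h4 : t ∈ Set.Icc (-((n + 1) * T)) ((n + 1) * T) := abs_le.mp h3
      have h5 := Finset.single_le_sum hnn hnN
      rw [Set.indicator_of_mem h4] at h5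
      have h6 : Real.exp (-(t ^ 2 / (4 * T ^ 2))) ≤ Real.exp (-(n ^ 2 / 4 : ℝ)) := by
        apply Real.exp_le_exp.mpr
        rw [neg_le_neg_iff, div_le_div_iff₀ (by norm_num) (by positivity)]
        have h7 : ((n : ℝ) * T) ^ 2 ≤ t ^ 2 := by
          rw [← sq_abs t]
          gcongr
        nlinarith
      calc gaussianPDFReal 0 (K2.WW T) t * F t ≤ T⁻¹ * Real.exp (-(t ^ 2 / (4 * T ^ 2))) * F t :=
            mul_le_mul_of_nonneg_right (hpdf t) (h0 t)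
        _ ≤ T⁻¹ * Real.exp (-(n ^ 2 / 4 : ℝ)) * F t := by
            have := h0 t
            gcongr
        _ = T⁻¹ * (Real.exp (-(n ^ 2 / 4 : ℝ)) * F t) := by ring
        _ ≤ _ := by gcongr
  have hFi : ∀ n : ℕ, Integrable (Set.indicator (Set.Icc (-(((n : ℝ) + 1) * T)) ((n + 1) * T)) F) :=
    fun n => (integrable_indicator_iff measurableSet_Icc).mpr hF.integrableOn_Icc
  have hint : Integrable (fun t => T⁻¹ * (∑ n ∈ Finset.range N, Real.exp (-(n ^ 2 / 4 : ℝ)) *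
        Set.indicator (Set.Icc (-(((n : ℝ) + 1) * T)) ((n + 1) * T)) F t)) :=
    (integrable_finsetSum _ fun n _ => (hFi n).const_mul _).const_mul _
  have h1 := integral_mono_of_nonneg
    (Filter.Eventually.of_forall fun t => mul_nonneg (gaussianPDFReal_nonneg 0 (K2.WW T) t)
      (Set.indicator_nonneg (fun t _ => h0 t) t)) hint (Filter.Eventually.of_forall hpt)
  refine h1.trans (le_of_eq ?_)
  rw [integral_const_mul, integral_finsetSum _ fun n _ => (hFi n).const_mul _]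
  congr 1
  refine Finset.sum_congr rfl fun n _ => ?_
  rw [integral_const_mul, integral_indicator measurableSet_Icc, integral_Icc_eq_integral_Ioc,
    ← intervalIntegral.integral_of_le]
  have : 0 ≤ ((n : ℝ) + 1) * T := by positivity
  linarith

lemma Fi_cont {T : ℝ} {M : ℕ} {k : ℝ} {g h : Finset ℕ} {N B : ℝ}
    (hA : DP N B (AA T M (JJ T) (k - 2) g h)) : Continuous (Fi T M k g h) := by
  unfold Fi
  exact (Lower.continuous_zeta_half.norm.pow 4).mul ((Lower.dp_half hA).1.norm.pow 2)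

/-- the mean over `[0, Z]` -/
lemma core (hd : StDy) (h1 : StCr4) : ∃ C κ : ℝ, 0 < C ∧ 0 < κ ∧ ∃ M₀ : ℕ, ∀ M : ℕ, M₀ ≤ M →
    ∃ T₀ : ℝ, 3 ≤ T₀ ∧ ∀ T, T₀ ≤ T → ∀ k : ℝ, 1 ≤ k → k ≤ 2 → ∀ g h : Finset ℕ,
    g ∪ h = Finset.range (JJ T + 1) →
    DP (T ^ (1 / 20000 : ℝ)) (T ^ (1 / 20000 : ℝ)) (AA T M (JJ T) (k - 2) g h) ∧
    ∀ Z : ℝ, 0 ≤ Z → Z ≤ 2 * T ^ (1 + 1 / 10000 : ℝ) →
    ∫ t in (0 : ℝ)..Z, Fi T M k g h t ≤
      Z * (Real.exp (C * M) * (Real.log T) ^ (k ^ 2) * ∏ j ∈ h, ss M (JJ T) j + T ^ (-κ)) +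
        T ^ (1 - 1 / 2000 : ℝ) := by
  obtain ⟨C, κ, hC, hκ, M₁, hM₁⟩ := hd
  obtain ⟨T₂, hT₂3, hcr⟩ := h1
  obtain ⟨M₃, hM₃⟩ := dp_AA2 (ε := 1 / 20000) (by norm_num)
  refine ⟨C, κ, hC, hκ, max M₁ M₃, fun M hM => ?_⟩
  obtain ⟨T₁, hT₁3, hdy⟩ := hM₁ M ((le_max_left _ _).trans hM)
  obtain ⟨T₃, hT₃⟩ := hM₃ M ((le_max_right _ _).trans hM)
  have ev1 : ∀ᶠ T : ℝ in atTop, T₂ ≤ 2 * T ^ (999 / 1000 : ℝ) := by
    filter_upwards [(tendsto_rpow_atTop (show (0 : ℝ) < 999 / 1000 by norm_num)).eventually_ge_atTop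
      T₂, eventually_gt_atTop 0] with T hT hT0
    have := Real.rpow_nonneg hT0.le (999 / 1000)
    linarith
  have ev2 : ∀ᶠ T : ℝ in atTop, 4 ≤ T ^ (3 / 10000 : ℝ) :=
    (tendsto_rpow_atTop (show (0 : ℝ) < 3 / 10000 by norm_num)).eventually_ge_atTop 4
  obtain ⟨T₄, hT₄⟩ := eventually_atTop.mp (ev1.and ev2)
  refine ⟨max (max T₁ T₃) (max T₄ 3), (le_max_right _ _).trans (le_max_right _ _),
    fun T hT k hk1 hk2 g h hgh => ?_⟩
  have hTa : T₁ ≤ T := ((le_max_left _ _).trans (le_max_left _ _)).trans hT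
  have hTb : T₃ ≤ T := ((le_max_right _ _).trans (le_max_left _ _)).trans hT
  have hTc : T₄ ≤ T := ((le_max_left _ _).trans (le_max_right _ _)).trans hT
  have hT3 : 3 ≤ T := ((le_max_right _ _).trans (le_max_right _ _)).trans hT
  have hT0 : 0 < T := by linarith
  have hT1 : 1 ≤ T := by linarith
  obtain ⟨e1, e2⟩ := hT₄ T hTc
  have hA := hT₃ T hTb (k - 2) (by rw [abs_le]; constructor <;> linarith) g h
  refine ⟨hA, fun Z hZ0 hZ1 => ?_⟩
  have hFc := Fi_cont (M := M) (k := k) (g := g) (h := h) hA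
  have hL0 : 0 ≤ Real.log T := Real.log_nonneg hT1
  have hY : 0 < T ^ (999 / 1000 : ℝ) := Real.rpow_pos_of_pos hT0 _
  have hss : 0 ≤ ∏ j ∈ h, ss M (JJ T) j := Finset.prod_nonneg fun j _ => (Real.exp_pos _).le
  have hB : 0 ≤ Real.exp (C * M) * (Real.log T) ^ (k ^ 2) * ∏ j ∈ h, ss M (JJ T) j + T ^ (-κ) := by
    have := Real.rpow_nonneg hT0.le (-κ)
    have := Real.rpow_nonneg hL0 (k ^ 2)
    positivity
  refine dyadic' hFc (Fi_nonneg T M k g h) hY hB (fun X hX1 hX2 => ?_) ?_ hZ0 hZ1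
  · exact hdy T hTa X hX1 hX2 k hk1 hk2 g h hgh
  · have hz0 : 0 ≤ 2 * T ^ (999 / 1000 : ℝ) := by positivity
    have h2 : ∫ t in (0 : ℝ)..(2 * T ^ (999 / 1000 : ℝ)), Fi T M k g h t ≤
        ∫ t in (0 : ℝ)..(2 * T ^ (999 / 1000 : ℝ)),
          (T ^ (1 / 20000 : ℝ)) ^ 2 * ‖riemannZeta (1 / 2 + t * I)‖ ^ 4 := by
      refine intervalIntegral.integral_mono_on hz0 (hFc.intervalIntegrable _ _)
        ((continuous_const.mul (Lower.continuous_zeta_half.norm.pow 4)).intervalIntegrable _ _)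
        fun t _ => ?_
      unfold Fi
      rw [mul_comm]
      have h3 := (Lower.dp_half hA).2 t
      gcongr
    rw [intervalIntegral.integral_const_mul] at h2
    have h4 := hcr _ e1
    have h5 : (2 * T ^ (999 / 1000 : ℝ)) ^ (1 + 1 / 10000 : ℝ) ≤
        4 * T ^ (999 / 1000 * (1 + 1 / 10000) : ℝ) := by
      rw [Real.mul_rpow (by norm_num) hY.le, ← Real.rpow_mul hT0.le]
      have : (2 : ℝ) ^ (1 + 1 / 10000 : ℝ) ≤ 2 ^ (2 : ℝ) :=
        Real.rpow_le_rpow_of_exponent_le (by norm_num) (by norm_num)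
      have h6 : (2 : ℝ) ^ (2 : ℝ) = 4 := by norm_num
      rw [h6] at this
      gcongr
    have h7 : (T ^ (1 / 20000 : ℝ)) ^ 2 = T ^ (1 / 10000 : ℝ) := by
      rw [← Real.rpow_natCast, ← Real.rpow_mul hT0.le]; norm_num
    rw [h7] at h2
    have h8 : T ^ (1 / 10000 : ℝ) * T ^ (999 / 1000 * (1 + 1 / 10000) : ℝ) * T ^ (3 / 10000 : ℝ) ≤
        T ^ (1 - 1 / 2000 : ℝ) := by
      rw [← Real.rpow_add hT0, ← Real.rpow_add hT0]
      exact Real.rpow_le_rpow_of_exponent_le hT1 (by norm_num)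
    have h9 : 0 ≤ T ^ (1 / 10000 : ℝ) := Real.rpow_nonneg hT0.le _
    have h10 : 0 ≤ T ^ (999 / 1000 * (1 + 1 / 10000) : ℝ) := Real.rpow_nonneg hT0.le _
    calc ∫ t in (0 : ℝ)..(2 * T ^ (999 / 1000 : ℝ)), Fi T M k g h t ≤ _ := h2
      _ ≤ T ^ (1 / 10000 : ℝ) * (4 * T ^ (999 / 1000 * (1 + 1 / 10000) : ℝ)) := by
          gcongr
          exact h4.trans h5
      _ = T ^ (1 / 10000 : ℝ) * T ^ (999 / 1000 * (1 + 1 / 10000) : ℝ) * 4 := by ring
      _ ≤ T ^ (1 / 10000 : ℝ) * T ^ (999 / 1000 * (1 + 1 / 10000) : ℝ) * T ^ (3 / 10000 : ℝ) := by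
          gcongr
      _ ≤ _ := h8

/-- a numerical series -/
lemma series : ∃ S : ℝ, 1 ≤ S ∧ ∀ N : ℕ, ∑ n ∈ Finset.range N,
    Real.exp (-(n ^ 2 / 4 : ℝ)) * ((n : ℝ) + 1) ≤ S := by
  have hr : Real.exp (-(1 / 2 : ℝ)) < 1 := by
    rw [← Real.exp_zero]; exact Real.exp_lt_exp.mpr (by norm_num)
  have h1 : Summable (fun n : ℕ => ((n : ℝ) + 1) * Real.exp (-(1 / 2 : ℝ)) ^ n) := by
    have h2 := summable_pow_mul_geometric_of_norm_lt_one (R := ℝ) 1
      (r := Real.exp (-(1 / 2 : ℝ))) (by rwa [Real.norm_eq_abs, abs_of_pos (Real.exp_pos _)])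
    have h3 := summable_geometric_of_lt_one (Real.exp_pos _).le hr
    refine (h2.add h3).congr fun n => ?_
    ring
  refine ⟨max 1 (Real.exp 1 * ∑' n : ℕ, ((n : ℝ) + 1) * Real.exp (-(1 / 2 : ℝ)) ^ n),
    le_max_left _ _, fun N => le_trans ?_ (le_max_right _ _)⟩
  have h4 : ∀ n : ℕ, Real.exp (-(n ^ 2 / 4 : ℝ)) * ((n : ℝ) + 1) ≤
      Real.exp 1 * (((n : ℝ) + 1) * Real.exp (-(1 / 2 : ℝ)) ^ n) := by
    intro n
    have h5 : Real.exp (-(n ^ 2 / 4 : ℝ)) ≤ Real.exp 1 * Real.exp (-(1 / 2 : ℝ)) ^ n := by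
      rw [← Real.exp_nat_mul, ← Real.exp_add]
      apply Real.exp_le_exp.mpr
      nlinarith [sq_nonneg ((n : ℝ) - 1)]
    calc _ ≤ Real.exp 1 * Real.exp (-(1 / 2 : ℝ)) ^ n * ((n : ℝ) + 1) := by gcongr
      _ = _ := by ring
  calc _ ≤ ∑ n ∈ Finset.range N, Real.exp 1 * (((n : ℝ) + 1) * Real.exp (-(1 / 2 : ℝ)) ^ n) :=
        Finset.sum_le_sum fun n _ => h4 n
    _ = Real.exp 1 * ∑ n ∈ Finset.range N, (((n : ℝ) + 1) * Real.exp (-(1 / 2 : ℝ)) ^ n) := by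
        rw [Finset.mul_sum]
    _ ≤ _ := by
        gcongr
        exact h1.sum_le_tsum _ fun n _ => by positivity

/-- the tail is negligible -/
lemma tail_ev (K : ℝ) : ∀ᶠ T : ℝ in atTop, ∀ N : ℕ, T ^ (1 / 10000 : ℝ) ≤ N →
    K * T ^ (1 / 10000 : ℝ) * (2 * Real.exp 1 * (8 : ℕ).factorial * T ^ 8 *
      Real.exp (-(3 * N ^ 2 / 16) + N / 2 + 1)) ≤ T ^ (-1 : ℝ) := by
  set K' : ℝ := (|K| + 1) * (2 * Real.exp 1 * (8 : ℕ).factorial) * Real.exp 10 with hK'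
  have hK0 : 0 < K' := by positivity
  have h1 : Tendsto (fun T : ℝ => T ^ (1 / 10000 : ℝ)) atTop atTop :=
    tendsto_rpow_atTop (by norm_num)
  have h2 : ∀ᶠ u : ℝ in atTop, K' * u ^ 90001 ≤ Real.exp u := by
    have h3 := Real.tendsto_pow_mul_exp_neg_atTop_nhds_zero 90001
    have h4 := h3.eventually_le_const (show (0 : ℝ) < 1 / K' by positivity)
    filter_upwards [h4] with u hu
    rw [Real.exp_neg, ← div_eq_mul_inv, div_le_div_iff₀ (Real.exp_pos _) hK0] at hu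
    linarith
  filter_upwards [h1.eventually h2, eventually_ge_atTop 1, h1.eventually_ge_atTop 20]
    with T hT hT1 hT20 N hN
  have hT0 : 0 < T := by linarith
  set u := T ^ (1 / 10000 : ℝ) with hu
  have hu0 : 0 < u := by linarith
  have hTu : T = u ^ 10000 := by
    rw [hu, ← Real.rpow_natCast, ← Real.rpow_mul hT0.le]
    norm_num
  have hN20 : (20 : ℝ) ≤ N := hT20.trans hN
  have h3 : Real.exp (-(3 * (N : ℝ) ^ 2 / 16) + N / 2 + 1) ≤ Real.exp 10 * Real.exp (-u) := by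
    rw [← Real.exp_add]
    apply Real.exp_le_exp.mpr
    nlinarith
  have h4 : T ^ (-1 : ℝ) = (u ^ 10000)⁻¹ := by rw [Real.rpow_neg_one, hTu]
  rw [h4]
  have hle : K ≤ |K| + 1 := by have := le_abs_self K; linarith
  calc K * u * (2 * Real.exp 1 * (8 : ℕ).factorial * T ^ 8 *
      Real.exp (-(3 * (N : ℝ) ^ 2 / 16) + N / 2 + 1))
      ≤ (|K| + 1) * u * (2 * Real.exp 1 * (8 : ℕ).factorial * T ^ 8 *
      (Real.exp 10 * Real.exp (-u))) := by gcongr
    _ = K' * (u * T ^ 8) * Real.exp (-u) := by rw [hK']; ring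
    _ = K' * u ^ 90001 * Real.exp (-u) * (u ^ 10000)⁻¹ := by
        have h5 : u * T ^ 8 = u ^ 90001 * (u ^ 10000)⁻¹ := by
          rw [hTu, ← pow_mul, show (90001 : ℕ) = 10000 + 80001 by norm_num, pow_add]
          have := (pow_pos hu0 10000).ne'
          rw [show (10000 * 8 : ℕ) = 80000 by norm_num, show (80001 : ℕ) = 80000 + 1 by norm_num,
            pow_succ]
          field_simp
        rw [h5]; ring
    _ ≤ 1 * (u ^ 10000)⁻¹ := by
        gcongr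
        rw [Real.exp_neg, ← div_eq_mul_inv, div_le_one (Real.exp_pos _)]
        exact hT
    _ = _ := one_mul _

end Sum4

open Sum4 in
theorem stF4 (hd : StDy) (h1 : StCr4) : StF4 := by
  obtain ⟨C, κ, hC, hκ, M₀, hM₀⟩ := core hd h1
  set κ' : ℝ := min κ (1 / 2000) / 2 with hκ'
  have hκ0 : 0 < κ' := by have := lt_min hκ (show (0 : ℝ) < 1 / 2000 by norm_num); positivity
  have hκ1 : 2 * κ' ≤ κ := by have := min_le_left κ (1 / 2000); linarith
  have hκ2 : 2 * κ' ≤ 1 / 2000 := by have := min_le_right κ (1 / 2000); linarith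
  refine ⟨C, κ', hC, hκ0, M₀, fun M hM => ?_⟩
  obtain ⟨T₀, hT₀3, hT₀⟩ := hM₀ M hM
  have ev : ∀ᶠ T : ℝ in atTop, 2 ≤ T ^ κ' := (tendsto_rpow_atTop hκ0).eventually_ge_atTop 2
  obtain ⟨T₄, hT₄⟩ := eventually_atTop.mp ev
  refine ⟨max T₀ T₄, hT₀3.trans (le_max_left _ _), fun T hT k hk1 hk2 g h hgh => ?_⟩
  have hTa : T₀ ≤ T := (le_max_left _ _).trans hT
  have hT3 : 3 ≤ T := hT₀3.trans hTa
  have hT0 : 0 < T := by linarith
  have hT1 : 1 ≤ T := by linarith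
  have e := hT₄ T ((le_max_right _ _).trans hT)
  have h2 : T ≤ 2 * T ^ (1 + 1 / 10000 : ℝ) := by
    have h3 : T ^ (1 : ℝ) ≤ T ^ (1 + 1 / 10000 : ℝ) :=
      Real.rpow_le_rpow_of_exponent_le hT1 (by norm_num)
    rw [Real.rpow_one] at h3
    linarith
  have h3 := (hT₀ T hTa k hk1 hk2 g h hgh).2 T hT0.le h2
  set P := Real.exp (C * M) * (Real.log T) ^ (k ^ 2) * ∏ j ∈ h, ss M (JJ T) j with hP
  have h4 : T⁻¹ * T ^ (1 - 1 / 2000 : ℝ) = T ^ (-(1 / 2000) : ℝ) := by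
    rw [← Real.rpow_neg_one, ← Real.rpow_add hT0]; norm_num
  have h5 : T ^ (-κ) ≤ T ^ (-(2 * κ')) := Real.rpow_le_rpow_of_exponent_le hT1 (by linarith)
  have h6 : T ^ (-(1 / 2000) : ℝ) ≤ T ^ (-(2 * κ')) :=
    Real.rpow_le_rpow_of_exponent_le hT1 (by linarith)
  have h7 : T ^ (-(2 * κ')) = T ^ (-κ') * T ^ (-κ') := by rw [← Real.rpow_add hT0]; ring_nf
  have h8 : T ^ (-κ') * T ^ κ' = 1 := by rw [← Real.rpow_add hT0]; simp
  have h9 : 0 < T ^ (-κ') := Real.rpow_pos_of_pos hT0 _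
  have h10 : 2 * T ^ (-(2 * κ')) ≤ T ^ (-κ') := by
    rw [h7]
    nlinarith
  calc T⁻¹ * ∫ t in (0 : ℝ)..T, Fi T M k g h t ≤
        T⁻¹ * (T * (P + T ^ (-κ)) + T ^ (1 - 1 / 2000 : ℝ)) := by gcongr
    _ = P + T ^ (-κ) + T⁻¹ * T ^ (1 - 1 / 2000 : ℝ) := by field_simp
    _ = P + T ^ (-κ) + T ^ (-(1 / 2000) : ℝ) := by rw [h4]
    _ ≤ P + T ^ (-κ') := by linarith

open Sum4 in
theorem stF4K2 (hd : StDy) (h1 : StCr4) : K2.StF4 := by
  obtain ⟨C, κ, hC, hκ, M₀, hM₀⟩ := core hd h1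
  obtain ⟨Cz, hCz, hz⟩ := Lower.zeta_poly_half
  obtain ⟨S, hS1, hS⟩ := series
  set κ' : ℝ := min κ (1 / 2000) / 2 with hκ'
  have hκ0 : 0 < κ' := by have := lt_min hκ (show (0 : ℝ) < 1 / 2000 by norm_num); positivity
  have hκ1 : 2 * κ' ≤ κ := by have := min_le_left κ (1 / 2000); linarith
  have hκ2 : 2 * κ' ≤ 1 / 2000 := by have := min_le_right κ (1 / 2000); linarith
  refine ⟨C + 2 * S, κ', by positivity, hκ0, max M₀ 1, fun M hM => ?_⟩
  obtain ⟨T₀, hT₀3, hT₀⟩ := hM₀ M ((le_max_left _ _).trans hM)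
  have hM1 : 1 ≤ M := (le_max_right _ _).trans hM
  have ev : ∀ᶠ T : ℝ in atTop, 6 * S ≤ T ^ κ' :=
    (tendsto_rpow_atTop hκ0).eventually_ge_atTop _
  have ev2 := tail_ev (Cz ^ 4)
  have ev3 : ∀ᶠ T : ℝ in atTop, 1 ≤ T ^ (1 / 10000 : ℝ) :=
    (tendsto_rpow_atTop (by norm_num)).eventually_ge_atTop _
  obtain ⟨T₄, hT₄⟩ := eventually_atTop.mp (ev.and (ev2.and ev3))
  refine ⟨max T₀ T₄, hT₀3.trans (le_max_left _ _), fun T hT k hk1 hk2 g h hgh => ?_⟩
  have hTa : T₀ ≤ T := (le_max_left _ _).trans hT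
  have hT3 : 3 ≤ T := hT₀3.trans hTa
  have hT0 : 0 < T := by linarith
  have hT1 : 1 ≤ T := by linarith
  obtain ⟨e, e2, e3⟩ := hT₄ T ((le_max_right _ _).trans hT)
  obtain ⟨hA, hcore⟩ := hT₀ T hTa k hk1 hk2.le g h hgh
  have hFc := Fi_cont (M := M) (k := k) (g := g) (h := h) hA
  have hF0 := Fi_nonneg T M k g h
  have hFe := Fi_even T M k g h
  have hK : ∀ t, Fi T M k g h t ≤ Cz ^ 4 * T ^ (1 / 10000 : ℝ) * (1 + |t|) ^ 8 := by
    intro t
    have h2 := hz t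
    have h3 := (Lower.dp_half hA).2 t
    have h7 : (T ^ (1 / 20000 : ℝ)) ^ 2 = T ^ (1 / 10000 : ℝ) := by
      rw [← Real.rpow_natCast, ← Real.rpow_mul hT0.le]; norm_num
    unfold Fi
    calc _ ≤ (Cz * (1 + |t|) ^ 2) ^ 4 * (T ^ (1 / 20000 : ℝ)) ^ 2 := by gcongr
      _ = _ := by rw [h7]; ring
  set N : ℕ := ⌈T ^ (1 / 10000 : ℝ)⌉₊ with hN
  have hN1 : T ^ (1 / 10000 : ℝ) ≤ N := Nat.le_ceil _
  have hN1' : 1 ≤ N := by
    have : (1 : ℝ) ≤ N := e3.trans hN1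
    exact_mod_cast this
  have hN2 : (N : ℝ) ≤ 2 * T ^ (1 / 10000 : ℝ) := by
    have := (Nat.ceil_lt_add_one (show 0 ≤ T ^ (1 / 10000 : ℝ) by linarith)).le
    linarith
  have hmain := gauss_main hT1 hFc hF0 (K := Cz ^ 4 * T ^ (1 / 10000 : ℝ)) (by positivity) hK hN1'
  have htail := e2 N hN1
  set P := Real.exp (C * M) * (Real.log T) ^ (k ^ 2) * ∏ j ∈ h, ss M (JJ T) j with hP
  have hss : 0 ≤ ∏ j ∈ h, ss M (JJ T) j := Finset.prod_nonneg fun j _ => (Real.exp_pos _).le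
  have hL0 : 0 ≤ Real.log T := Real.log_nonneg hT1
  have hP0 : 0 ≤ P := by
    have := Real.rpow_nonneg hL0 (k ^ 2)
    positivity
  have hD0 : 0 ≤ T ^ (1 - 1 / 2000 : ℝ) := Real.rpow_nonneg hT0.le _
  have hκκ : 0 ≤ T ^ (-κ) := Real.rpow_nonneg hT0.le _
  have hsum : ∑ n ∈ Finset.range N, Real.exp (-(n ^ 2 / 4 : ℝ)) *
      ∫ t in (-((n + 1) * T))..((n + 1) * T), Fi T M k g h t ≤
      2 * (T * (P + T ^ (-κ)) + T ^ (1 - 1 / 2000 : ℝ)) * S := by
    calc _ ≤ ∑ n ∈ Finset.range N, 2 * (T * (P + T ^ (-κ)) + T ^ (1 - 1 / 2000 : ℝ)) *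
          (Real.exp (-(n ^ 2 / 4 : ℝ)) * ((n : ℝ) + 1)) := by
          refine Finset.sum_le_sum fun n hn => ?_
          rw [symm_int hFc hFe]
          have hn1 : (n : ℝ) + 1 ≤ N := by
            rw [Finset.mem_range] at hn
            exact_mod_cast hn
          have h2 : ((n : ℝ) + 1) * T ≤ 2 * T ^ (1 + 1 / 10000 : ℝ) := by
            rw [Real.rpow_add hT0, Real.rpow_one]
            calc ((n : ℝ) + 1) * T ≤ (2 * T ^ (1 / 10000 : ℝ)) * T := by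
                  gcongr
                  exact hn1.trans hN2
              _ = _ := by ring
          have h3 := hcore _ (by positivity : 0 ≤ ((n : ℝ) + 1) * T) h2
          have h4 : ((n : ℝ) + 1) * T * (P + T ^ (-κ)) + T ^ (1 - 1 / 2000 : ℝ) ≤
              (T * (P + T ^ (-κ)) + T ^ (1 - 1 / 2000 : ℝ)) * ((n : ℝ) + 1) := by
            have : 0 ≤ (n : ℝ) := Nat.cast_nonneg n
            nlinarith
          calc _ ≤ Real.exp (-(n ^ 2 / 4 : ℝ)) *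
                (2 * ((T * (P + T ^ (-κ)) + T ^ (1 - 1 / 2000 : ℝ)) * ((n : ℝ) + 1))) := by
                gcongr
                exact h3.trans h4
            _ = _ := by ring
      _ = 2 * (T * (P + T ^ (-κ)) + T ^ (1 - 1 / 2000 : ℝ)) *
          ∑ n ∈ Finset.range N, (Real.exp (-(n ^ 2 / 4 : ℝ)) * ((n : ℝ) + 1)) := by
          rw [Finset.mul_sum]
      _ ≤ _ := by
          gcongr
          exact hS N
  have h4 : T⁻¹ * T ^ (1 - 1 / 2000 : ℝ) = T ^ (-(1 / 2000) : ℝ) := by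
    rw [← Real.rpow_neg_one, ← Real.rpow_add hT0]; norm_num
  have h5 : T ^ (-κ) ≤ T ^ (-(2 * κ')) := Real.rpow_le_rpow_of_exponent_le hT1 (by linarith)
  have h6 : T ^ (-(1 / 2000) : ℝ) ≤ T ^ (-(2 * κ')) :=
    Real.rpow_le_rpow_of_exponent_le hT1 (by linarith)
  have h6' : T ^ (-1 : ℝ) ≤ T ^ (-(2 * κ')) :=
    Real.rpow_le_rpow_of_exponent_le hT1 (by linarith)
  have h7 : T ^ (-(2 * κ')) = T ^ (-κ') * T ^ (-κ') := by rw [← Real.rpow_add hT0]; ring_nf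
  have h8 : T ^ (-κ') * T ^ κ' = 1 := by rw [← Real.rpow_add hT0]; simp
  have h9 : 0 < T ^ (-κ') := Real.rpow_pos_of_pos hT0 _
  have h10 : 6 * S * T ^ (-(2 * κ')) ≤ T ^ (-κ') := by
    rw [h7]
    calc 6 * S * (T ^ (-κ') * T ^ (-κ')) ≤ T ^ κ' * (T ^ (-κ') * T ^ (-κ')) := by gcongr
      _ = (T ^ (-κ') * T ^ κ') * T ^ (-κ') := by ring
      _ = _ := by rw [h8, one_mul]
  have h11 : 2 * S * P ≤ Real.exp ((C + 2 * S) * M) * (Real.log T) ^ (k ^ 2) *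
      ∏ j ∈ h, ss M (JJ T) j := by
    have h12 : 2 * S ≤ Real.exp (2 * S * M) := by
      have h13 : (1 : ℝ) ≤ M := by exact_mod_cast hM1
      have h14 := Real.add_one_le_exp (2 * S * M)
      nlinarith
    have h15 : Real.exp ((C + 2 * S) * M) = Real.exp (2 * S * M) * Real.exp (C * M) := by
      rw [← Real.exp_add]; ring_nf
    have := Real.rpow_nonneg hL0 (k ^ 2)
    rw [h15, hP]
    calc 2 * S * (Real.exp (C * M) * (Real.log T) ^ (k ^ 2) * ∏ j ∈ h, ss M (JJ T) j)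
        ≤ Real.exp (2 * S * M) *
          (Real.exp (C * M) * (Real.log T) ^ (k ^ 2) * ∏ j ∈ h, ss M (JJ T) j) := by gcongr
      _ = _ := by ring
  calc K2.EF T (Fi T M k g h) ≤ _ := hmain
    _ ≤ T⁻¹ * (2 * (T * (P + T ^ (-κ)) + T ^ (1 - 1 / 2000 : ℝ)) * S) + T ^ (-1 : ℝ) := by
        gcongr
    _ = 2 * S * P + 2 * S * T ^ (-κ) + 2 * S * (T⁻¹ * T ^ (1 - 1 / 2000 : ℝ)) + T ^ (-1 : ℝ) := by
        field_simp
    _ = 2 * S * P + (2 * S * T ^ (-κ) + 2 * S * T ^ (-(1 / 2000) : ℝ) + T ^ (-1 : ℝ)) := by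
        rw [h4]; ring
    _ ≤ _ + 6 * S * T ^ (-(2 * κ')) := by
        refine add_le_add h11 ?_
        have h16 : 0 ≤ T ^ (-(2 * κ')) := Real.rpow_nonneg hT0.le _
        nlinarith
    _ ≤ _ := by gcongr

end F4
end Pool.Agent.Lib.MP_973905_nt
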