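import Pool.Agent.Lib.MP_973905_nt.F4.Stmts

/-! Module R2: Fourier bound for the smooth polynomial with a complex twist. -/

namespace Pool.Agent.Lib.MP_973905_nt
namespace F4

open MeasureTheory ProbabilityTheory Complex Filter Topology K1

namespace FB4

open FourG (Cut psi psi_smooth psi_supp gh psi_eq gh_int SG)

variable {φ : ℝ → ℝ} {m : ℕ} {Sb : Fin m → Finset ℕ}

/-- The shifted exponent. -/
noncomputable def wx (T : ℝ) (w : ℂ) (ξ : ℝ) : ℂ := w + (1 - 2 * Real.pi * ξ * I) / Real.log T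

lemma wx_re (T : ℝ) (w : ℂ) (ξ : ℝ) : (wx T w ξ).re = w.re + 1 / Real.log T := by
  have : wx T w ξ = w + ((1 / Real.log T : ℝ) : ℂ) +
      ((-(2 * Real.pi * ξ / Real.log T) : ℝ) : ℂ) * I := by
    rw [wx]; push_cast; ring
  rw [this]
  simp

lemma cpow_wx {T : ℝ} (w : ℂ) (ξ : ℝ) {n : ℕ} (hn : n ≠ 0) :
    (n : ℂ) ^ (-wx T w ξ) = (n : ℂ) ^ (-w) * ((Real.exp (-(Real.log n / Real.log T)) : ℝ) : ℂ) *
      cexp ((2 * Real.pi * ξ * (Real.log n / Real.log T) : ℝ) * I) := by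
  have h0 : (n : ℂ) ≠ 0 := by exact_mod_cast hn
  rw [cpow_def_of_ne_zero h0, cpow_def_of_ne_zero h0, ofReal_exp, ← exp_add, ← exp_add]
  congr 1
  rw [wx, ← natCast_log]
  push_cast
  ring

lemma continuous_wx (T : ℝ) (w : ℂ) : Continuous (wx T w) := by
  unfold wx; fun_prop

lemma continuous_cpow_wx (T : ℝ) (w : ℂ) {n : ℕ} (hn : n ≠ 0) :
    Continuous fun ξ : ℝ => (n : ℂ) ^ (-wx T w ξ) := by
  have h0 : (n : ℂ) ≠ 0 := by exact_mod_cast hn
  exact (continuous_wx T w).neg.const_cpow (Or.inl h0)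

/-- Uniform bound for the Euler product. -/
lemma norm_ZZ_le (hB : Blk Sb) {T : ℝ} {w : ℂ} (hσ : 0 < w.re + 1 / Real.log T) (ξ : ℝ)
    (ω : (j : Fin m) → Sb j → ℝ) :
    ‖ZZ (UU Sb) (tw (wx T w ξ) (XX Sb ω))‖ ≤
      ∏ p ∈ UU Sb, (1 - (p : ℝ) ^ (-(w.re + 1 / Real.log T)))⁻¹ := by
  rw [ZZ, norm_prod]
  refine Finset.prod_le_prod (fun p _ => norm_nonneg _) fun p hp => ?_
  have hpp := prime_of_mem_UU hB hp
  have h2 := norm_tw_XX_lt (w := wx T w ξ) (by rw [wx_re]; exact hσ) ω hpp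
  have h3 := norm_tw_XX (wx T w ξ) ω hpp.ne_zero
  rw [wx_re] at h3
  rw [h3] at h2
  rw [norm_inv]
  apply inv_anti₀ (by linarith)
  have := norm_sub_norm_le 1 (tw (wx T w ξ) (XX Sb ω) p)
  rw [norm_one, h3] at this
  exact this

lemma continuous_ZZ (hB : Blk Sb) {T : ℝ} {w : ℂ} (hσ : 0 < w.re + 1 / Real.log T) :
    Continuous fun x : ℝ × ((j : Fin m) → Sb j → ℝ) =>
      ZZ (UU Sb) (tw (wx T w x.1) (XX Sb x.2)) := by
  refine continuous_finsetProd _ fun p hp => ?_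
  have hpp := prime_of_mem_UU hB hp
  refine Continuous.inv₀ ?_ ?_
  · refine continuous_const.sub ?_
    exact ((continuous_cpow_wx T w hpp.ne_zero).comp continuous_fst).mul
      ((continuous_XX p).comp continuous_snd)
  · intro x h
    have := norm_tw_XX_lt (w := wx T w x.1) (by rw [wx_re]; exact hσ) x.2 hpp
    rw [← sub_eq_zero.mp h] at this
    simp at this

/-- The smoothed sum is an average of Euler products. -/
lemma SG_eq (h : Cut φ) (hB : Blk Sb) {T : ℝ} (hT : 1 < T)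
    (hU : ∀ n : ℕ, 1 ≤ n → (n : ℝ) ≤ T → n ∈ Nat.factoredNumbers (UU Sb)) {w : ℂ} (hw : 0 < w.re)
    (ω : (j : Fin m) → Sb j → ℝ) :
    SG φ T (tw w (XX Sb ω)) =
      ∫ ξ : ℝ, gh h ξ * ZZ (UU Sb) (tw (wx T w ξ) (XX Sb ω)) := by
  have hT0 : 0 < T := by linarith
  have hL : 0 < Real.log T := Real.log_pos hT
  set f := XX Sb ω with hf
  have hσ : 0 < w.re + 1 / Real.log T := by positivity
  have hsum : Summable fun n : Nat.factoredNumbers (UU Sb) =>
      ((n : ℕ) : ℝ) ^ (-(w.re + 1 / Real.log T)) := by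
    have h := (ZZ_hasSum (s := UU Sb) (fun p hp => prime_of_mem_UU hB hp)
      (cmul_tw (cmul_XX Sb ω) (wx T w 0)) (fun p hp => norm_tw_XX_lt (by rw [wx_re]; exact hσ) ω hp)).1
    refine h.congr fun n => ?_
    rw [norm_tw_XX (wx T w 0) ω (Nat.ne_zero_of_mem_factoredNumbers n.2), wx_re]
  have hnorm : ∀ (n : Nat.factoredNumbers (UU Sb)) (ξ : ℝ), ‖gh h ξ * tw (wx T w ξ) f n‖ =
      ‖gh h ξ‖ * ((n : ℕ) : ℝ) ^ (-(w.re + 1 / Real.log T)) := by
    intro n ξ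
    rw [norm_mul, norm_tw_XX _ ω (Nat.ne_zero_of_mem_factoredNumbers n.2), wx_re]
  have hint : ∀ n : Nat.factoredNumbers (UU Sb),
      Integrable (fun ξ : ℝ => gh h ξ * tw (wx T w ξ) f n) := by
    intro n
    refine (((gh h).integrable (μ := volume)).norm.mul_const
      (((n : ℕ) : ℝ) ^ (-(w.re + 1 / Real.log T)))).mono' ?_ ?_
    · refine Continuous.aestronglyMeasurable ?_
      refine (gh h).continuous.mul ?_
      exact (continuous_cpow_wx T w (Nat.ne_zero_of_mem_factoredNumbers n.2)).mul continuous_const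
    · exact Filter.Eventually.of_forall fun ξ => (hnorm n ξ).le
  have key := hasSum_integral_of_summable_integral_norm
    (F := fun (n : Nat.factoredNumbers (UU Sb)) (ξ : ℝ) => gh h ξ * tw (wx T w ξ) f n)
    (μ := volume) hint ?_
  · have h1 : ∀ n : Nat.factoredNumbers (UU Sb), ∫ ξ : ℝ, gh h ξ * tw (wx T w ξ) f n =
        (φ (Real.log n / Real.log T) : ℂ) * tw w f n := by
      intro n
      have hn := Nat.ne_zero_of_mem_factoredNumbers n.2
      have e1 : ∀ ξ : ℝ, gh h ξ * tw (wx T w ξ) f n = ((((n : ℕ) : ℂ) ^ (-w)) *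
          ((Real.exp (-(Real.log n / Real.log T)) : ℝ) : ℂ) * f n) *
          (gh h ξ * cexp ((2 * Real.pi * ξ * (Real.log n / Real.log T) : ℝ) * I)) := by
        intro ξ
        rw [tw, cpow_wx w ξ hn]; ring
      simp only [e1]
      rw [integral_const_mul, ← psi_eq, psi]
      have e2 : ((Real.exp (-(Real.log n / Real.log T)) : ℝ) : ℂ) *
          ((Real.exp (Real.log n / Real.log T) : ℝ) : ℂ) = 1 := by
        rw [← ofReal_mul, ← Real.exp_add]; simp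
      rw [ofReal_mul, tw]
      linear_combination (((n : ℕ) : ℂ) ^ (-w) * f n * (φ (Real.log n / Real.log T) : ℂ)) * e2
    simp only [h1] at key
    have h2 : ∀ ξ : ℝ, ∑' n : Nat.factoredNumbers (UU Sb), gh h ξ * tw (wx T w ξ) f n =
        gh h ξ * ZZ (UU Sb) (tw (wx T w ξ) f) := by
      intro ξ
      have h' := (ZZ_hasSum (s := UU Sb) (fun p hp => prime_of_mem_UU hB hp)
        (cmul_tw (cmul_XX Sb ω) (wx T w ξ))
        (fun p hp => norm_tw_XX_lt (by rw [wx_re]; exact hσ) ω hp)).2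
      exact (h'.mul_left (gh h ξ)).tsum_eq
    simp only [h2] at key
    rw [← key.tsum_eq]
    have e3 : ∑' n : Nat.factoredNumbers (UU Sb), (φ (Real.log (n : ℕ) / Real.log T) : ℂ) *
        tw w f (n : ℕ) = ∑' n : ℕ, (Nat.factoredNumbers (UU Sb)).indicator
        (fun n : ℕ => (φ (Real.log n / Real.log T) : ℂ) * tw w f n) n :=
      tsum_subtype (Nat.factoredNumbers (UU Sb))
        (fun n : ℕ => (φ (Real.log n / Real.log T) : ℂ) * tw w f n)
    rw [e3, tsum_eq_sum (s := Finset.Icc 1 ⌊T⌋₊), SG]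
    · refine Finset.sum_congr rfl fun n hn => ?_
      rw [Finset.mem_Icc] at hn
      have hnT : (n : ℝ) ≤ T := (Nat.le_floor_iff hT0.le).mp hn.2
      rw [Set.indicator_of_mem (hU n hn.1 hnT)]
    · intro n hn
      by_cases hmem : n ∈ Nat.factoredNumbers (UU Sb)
      · rw [Set.indicator_of_mem hmem]
        have hn0 : n ≠ 0 := Nat.ne_zero_of_mem_factoredNumbers hmem
        rw [Finset.mem_Icc, not_and] at hn
        have h3 : ⌊T⌋₊ < n := by
          have := hn (Nat.one_le_iff_ne_zero.mpr hn0)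
          omega
        have h4 : T < n := (Nat.floor_lt hT0.le).mp h3
        have h5 : φ (Real.log n / Real.log T) = 0 := by
          apply h.zero
          rw [le_div_iff₀ hL, one_mul]
          exact Real.log_le_log hT0 h4.le
        rw [h5]; simp
      · rw [Set.indicator_of_notMem hmem]
  · simp only [hnorm, integral_mul_const]
    exact hsum.mul_left _

/-- Fourth powers of smoothed sums are bounded by averages of fourth powers of Euler products. -/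
lemma fourier_bound4 (h : Cut φ) : ∃ g : ℝ → ℝ, (∀ ξ, 0 ≤ g ξ) ∧
    (∀ n : ℕ, Integrable (fun ξ => g ξ * (1 + |ξ|) ^ n)) ∧
    ∀ (m : ℕ) (Sb : Fin m → Finset ℕ), Blk Sb → ∀ T : ℝ, 1 < T →
    (∀ n : ℕ, 1 ≤ n → (n : ℝ) ≤ T → n ∈ Nat.factoredNumbers (UU Sb)) → ∀ w : ℂ, 0 < w.re →
    ∀ B : (ℕ → ℂ) → ℂ, BC Sb B →
    ER Sb (fun f => ‖SG φ T (tw w f)‖ ^ 4 * ‖B f‖ ^ 2) ≤
      ∫ ξ : ℝ, g ξ * ER Sb (fun f =>
        ‖ZZ (UU Sb) (tw (w + (1 - 2 * Real.pi * ξ * I) / Real.log T) f)‖ ^ 4 * ‖B f‖ ^ 2) ∧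
    Integrable (fun ξ : ℝ => g ξ * ER Sb (fun f =>
        ‖ZZ (UU Sb) (tw (w + (1 - 2 * Real.pi * ξ * I) / Real.log T) f)‖ ^ 4 * ‖B f‖ ^ 2)) := by
  set a : ℝ := ∫ ξ : ℝ, ‖gh h ξ‖ with ha
  have ha0 : 0 ≤ a := integral_nonneg fun _ => norm_nonneg _
  have hgi : Integrable fun ξ : ℝ => ‖gh h ξ‖ := ((gh h).integrable (μ := volume)).norm
  refine ⟨fun ξ => a ^ 3 * ‖gh h ξ‖, fun ξ => by positivity, fun n => ?_, ?_⟩
  · simpa only [mul_assoc] using (gh_int h n).const_mul (a ^ 3)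
  intro m Sb hB T hT hU w hw B hBC
  have hT0 : 0 < T := by linarith
  have hL : 0 < Real.log T := Real.log_pos hT
  have hσ : 0 < w.re + 1 / Real.log T := by positivity
  obtain ⟨hBc, CB, hCB⟩ := hBC
  set Cz : ℝ := ∏ p ∈ UU Sb, (1 - (p : ℝ) ^ (-(w.re + 1 / Real.log T)))⁻¹ with hCz
  have hZ := fun ξ ω => norm_ZZ_le (m := m) (Sb := Sb) hB (T := T) (w := w) hσ ξ ω
  have hZc := continuous_ZZ (m := m) (Sb := Sb) hB (T := T) (w := w) hσ
  change _ ≤ ∫ ξ : ℝ, a ^ 3 * ‖gh h ξ‖ * ER Sb (fun f =>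
        ‖ZZ (UU Sb) (tw (wx T w ξ) f)‖ ^ 4 * ‖B f‖ ^ 2) ∧
    Integrable (fun ξ : ℝ => a ^ 3 * ‖gh h ξ‖ * ER Sb (fun f =>
        ‖ZZ (UU Sb) (tw (wx T w ξ) f)‖ ^ 4 * ‖B f‖ ^ 2))
  -- the joint function
  have hH : Integrable (fun x : ℝ × ((j : Fin m) → Sb j → ℝ) => a ^ 3 * ‖gh h x.1‖ *
      (‖ZZ (UU Sb) (tw (wx T w x.1) (XX Sb x.2))‖ ^ 4 * ‖B (XX Sb x.2)‖ ^ 2))
      (volume.prod (PP0 Sb)) := by
    have h1 : Integrable (fun x : ℝ × ((j : Fin m) → Sb j → ℝ) =>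
        a ^ 3 * ‖gh h x.1‖ * (Cz ^ 4 * CB ^ 2)) (volume.prod (PP0 Sb)) :=
      ((hgi.const_mul (a ^ 3)).mul_const _).comp_fst (PP0 Sb)
    refine h1.mono' ?_ ?_
    · refine Continuous.aestronglyMeasurable ?_
      exact (continuous_const.mul ((gh h).continuous.comp continuous_fst).norm).mul
        ((hZc.norm.pow 4).mul ((hBc.comp continuous_snd).norm.pow 2))
    · refine Filter.Eventually.of_forall fun x => ?_
      rw [Real.norm_eq_abs, abs_of_nonneg (by positivity)]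
      have h2 := hZ x.1 x.2
      have h3 := hCB x.2
      gcongr
  refine ⟨?_, ?_⟩
  · have e1 : ∫ ξ : ℝ, a ^ 3 * ‖gh h ξ‖ * ER Sb (fun f =>
        ‖ZZ (UU Sb) (tw (wx T w ξ) f)‖ ^ 4 * ‖B f‖ ^ 2) =
        ∫ ω, ∫ ξ : ℝ, a ^ 3 * ‖gh h ξ‖ * (‖ZZ (UU Sb) (tw (wx T w ξ) (XX Sb ω))‖ ^ 4 *
          ‖B (XX Sb ω)‖ ^ 2) ∂volume ∂(PP0 Sb) := by
      rw [← integral_integral_swap hH]
      congr 1
      funext ξ
      rw [ER_eq, ← integral_const_mul]
    rw [e1, ER_eq]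
    refine integral_mono_of_nonneg (Filter.Eventually.of_forall fun ω => by positivity)
      hH.integral_prod_right (Filter.Eventually.of_forall fun ω => ?_)
    simp only
    have h1 : ‖SG φ T (tw w (XX Sb ω))‖ ≤
        ∫ ξ : ℝ, ‖gh h ξ‖ * ‖ZZ (UU Sb) (tw (wx T w ξ) (XX Sb ω))‖ := by
      rw [SG_eq h hB hT hU hw ω]
      refine (norm_integral_le_integral_norm _).trans (le_of_eq ?_)
      congr 1
      funext ξ
      rw [norm_mul]
    have hc1 : Continuous fun ξ : ℝ => ‖ZZ (UU Sb) (tw (wx T w ξ) (XX Sb ω))‖ :=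
      (hZc.comp (Continuous.prodMk_left ω)).norm
    have ii : ∀ n : ℕ, Integrable fun ξ : ℝ =>
        ‖gh h ξ‖ * ‖ZZ (UU Sb) (tw (wx T w ξ) (XX Sb ω))‖ ^ n := by
      intro n
      refine (hgi.mul_const (Cz ^ n)).mono'
        ((gh h).continuous.norm.mul (hc1.pow n)).aestronglyMeasurable ?_
      refine Filter.Eventually.of_forall fun ξ => ?_
      rw [Real.norm_eq_abs, abs_of_nonneg (by positivity)]
      have h2 := hZ ξ ω
      gcongr
    have i1 : Integrable fun ξ : ℝ => ‖gh h ξ‖ * ‖ZZ (UU Sb) (tw (wx T w ξ) (XX Sb ω))‖ := by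
      simpa using ii 1
    have h2 := Four.cs_int hgi i1 (ii 2) fun ξ => norm_nonneg _
    have i4 : Integrable fun ξ : ℝ =>
        ‖gh h ξ‖ * (‖ZZ (UU Sb) (tw (wx T w ξ) (XX Sb ω))‖ ^ 2) ^ 2 := by
      simpa [← pow_mul] using ii 4
    have h4 := Four.cs_int hgi (ii 2) i4 fun ξ => norm_nonneg _
    set I1 := ∫ ξ : ℝ, ‖gh h ξ‖ * ‖ZZ (UU Sb) (tw (wx T w ξ) (XX Sb ω))‖ with hI1
    set I2 := ∫ ξ : ℝ, ‖gh h ξ‖ * ‖ZZ (UU Sb) (tw (wx T w ξ) (XX Sb ω))‖ ^ 2 with hI2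
    set I4 := ∫ ξ : ℝ, ‖gh h ξ‖ * (‖ZZ (UU Sb) (tw (wx T w ξ) (XX Sb ω))‖ ^ 2) ^ 2 with hI4
    have hI20 : 0 ≤ I2 := integral_nonneg fun _ => by positivity
    have hI40 : 0 ≤ I4 := integral_nonneg fun _ => by positivity
    have h3 : ‖SG φ T (tw w (XX Sb ω))‖ ^ 4 ≤ a ^ 3 * I4 := by
      calc ‖SG φ T (tw w (XX Sb ω))‖ ^ 4 = (‖SG φ T (tw w (XX Sb ω))‖ ^ 2) ^ 2 := by ring
        _ ≤ (a * I2) ^ 2 := by
            apply pow_le_pow_left₀ (by positivity)
            exact (pow_le_pow_left₀ (norm_nonneg _) h1 2).trans h2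
        _ = a ^ 2 * I2 ^ 2 := by ring
        _ ≤ a ^ 2 * (a * I4) := by gcongr
        _ = a ^ 3 * I4 := by ring
    calc ‖SG φ T (tw w (XX Sb ω))‖ ^ 4 * ‖B (XX Sb ω)‖ ^ 2 ≤
        (a ^ 3 * I4) * ‖B (XX Sb ω)‖ ^ 2 := by
          gcongr
      _ = _ := by
        rw [hI4, ← integral_const_mul, ← integral_mul_const]
        congr 1
        funext ξ
        ring
  · refine hH.integral_prod_left.congr (Filter.Eventually.of_forall fun ξ => ?_)
    simp only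
    rw [ER_eq, ← integral_const_mul]


lemma cut_Vc : Cut Vc where
  smooth := by
    have h1 : ContDiff ℝ ((⊤ : ℕ∞) : WithTop ℕ∞) (fun x : ℝ => 1002 - 2000 * x) := by fun_prop
    have h2 : ContDiff ℝ ((⊤ : ℕ∞) : WithTop ℕ∞) (fun x : ℝ => x + 2) := by fun_prop
    exact ((Real.smoothTransition.contDiff (n := ⊤)).comp h1).mul
      ((Real.smoothTransition.contDiff (n := ⊤)).comp h2)
  zero := by
    intro x hx
    rw [Vc, Real.smoothTransition.zero_of_nonpos (by linarith), zero_mul]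
  zero' := by
    intro x hx
    rw [Vc, Real.smoothTransition.zero_of_nonpos (x := x + 2) (by linarith), mul_zero]

end FB4

/-- (R2) Fourier bound for the smooth polynomial with a complex twist. -/
theorem stFB4 : StFB4 := FB4.fourier_bound4 FB4.cut_Vc

end F4
end Pool.Agent.Lib.MP_973905_nt
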