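import Pool.Agent.Lib.MP_973905_nt.F4.Stmts
import Pool.Agent.Lib.MP_973905_nt.K1R.Stmts
import Pool.Agent.Lib.MP_973905_nt.K1R.Final

/-! Module (G2): the joint limit `T → ∞`, `k → 1` from both sides. -/

namespace Pool.Agent.Lib.MP_973905_nt
namespace F4

open MeasureTheory ProbabilityTheory Complex Filter Topology K1

/-- the upper bound, `k → 1+`, with the Keating-Snaith constant -/
lemma upperCK (hU : StUpperR) (hC : K1R.StCKR) : ∀ ε : ℝ, 0 < ε → ∃ k₁ : ℝ, 1 < k₁ ∧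
    ∃ T₀ : ℝ, 3 ≤ T₀ ∧ ∀ T, T₀ ≤ T → ∀ k : ℝ, 1 ≤ k → k ≤ k₁ →
    (T⁻¹ * ∫ t in (0 : ℝ)..T, ‖riemannZeta (1 / 2 + t * I)‖ ^ (2 * k)) /
      (cK k * (Real.log T) ^ (k ^ 2)) ≤ 1 + ε := by
  intro ε hε
  set e : ℝ := min ε 1 / 4 with he
  have hm : 0 < min ε 1 := lt_min hε one_pos
  have he0 : 0 < e := by rw [he]; positivity
  have he1 : e ≤ 1 / 4 := by
    have : min ε 1 ≤ 1 := min_le_right _ _
    rw [he]; linarith
  have he2 : 4 * e ≤ ε := by
    have : min ε 1 ≤ ε := min_le_left _ _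
    rw [he]; linarith
  obtain ⟨k₂, hk₂0, T₄, hT₄, hUp⟩ := hU e he0
  have hcK : ∀ᶠ k in 𝓝[>] (1 : ℝ), |cK k - 1| < e := by
    have h1 : Tendsto cK (𝓝[>] 1) (𝓝 1) := hC
    have := h1.eventually (Metric.ball_mem_nhds (1 : ℝ) he0)
    filter_upwards [this] with k hk
    rwa [Real.dist_eq] at hk
  obtain ⟨k₃, hk₃, h3⟩ := mem_nhdsGT_iff_exists_Ioo_subset.mp hcK
  rw [Set.mem_Ioi] at hk₃
  refine ⟨min k₂ ((k₃ + 1) / 2), lt_min hk₂0 (by linarith), T₄, hT₄, fun T hT k hk hk1 => ?_⟩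
  have hka : k ≤ k₂ := hk1.trans (min_le_left _ _)
  have hkb : k ≤ (k₃ + 1) / 2 := hk1.trans (min_le_right _ _)
  have hT3 : 3 ≤ T := hT₄.trans hT
  have hL0 : 0 < Real.log T := Real.log_pos (by linarith)
  set Λ : ℝ := (Real.log T) ^ (k ^ 2) with hΛ
  have hΛ0 : 0 < Λ := Real.rpow_pos_of_pos hL0 _
  have hup := hUp T hT k hk hka
  set X : ℝ := T⁻¹ * ∫ t in (0 : ℝ)..T, ‖riemannZeta (1 / 2 + t * I)‖ ^ (2 * k) with hX
  have hck : |cK k - 1| < e := by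
    rcases eq_or_lt_of_le hk with h | h
    · rw [← h, cK_one, sub_self, abs_zero]; exact he0
    · exact h3 ⟨h, by linarith⟩
  have h6 := abs_lt.mp hck
  have hc0 : 0 < cK k := by linarith
  have hcΛ : 0 < cK k * Λ := mul_pos hc0 hΛ0
  have key : X / (cK k * Λ) ≤ 1 + 4 * e := by
    rw [div_le_iff₀ hcΛ]
    have : 1 + e ≤ (1 + 4 * e) * cK k := by nlinarith
    calc X ≤ (1 + e) * Λ := hup
      _ ≤ ((1 + 4 * e) * cK k) * Λ := mul_le_mul_of_nonneg_right this hΛ0.le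
      _ = (1 + 4 * e) * (cK k * Λ) := by ring
  linarith

/-- (G2) the Keating-Snaith formula in the joint limit `T → ∞`, `k → 1` -/
theorem stFinal2 (hU : StUpperR) (hL : K1R.StLowerR) (hC : K1R.StCKR) (h1 : K1.StFinal) :
    StFinal2 := by
  intro ε hε
  obtain ⟨k₁, hk₁0, hk₁1, T₁, hT₁, hA⟩ := h1 ε hε
  obtain ⟨k₂, hk₂, T₂, hT₂, hB⟩ := upperCK hU hC ε hε
  obtain ⟨k₃, hk₃, T₃, hT₃, hD⟩ := K1R.stFinalR hL hC ε hε
  refine ⟨min (1 - k₁) (min (k₂ - 1) (k₃ - 1)), lt_min (by linarith) (lt_min (by linarith)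
    (by linarith)), (min_le_left _ _).trans_lt (by linarith), max T₁ (max T₂ T₃),
    hT₁.trans (le_max_left _ _), fun T hT k hk => ?_⟩
  have hTa : T₁ ≤ T := (le_max_left _ _).trans hT
  have hTb : T₂ ≤ T := ((le_max_left _ _).trans (le_max_right _ _)).trans hT
  have hTc : T₃ ≤ T := ((le_max_right _ _).trans (le_max_right _ _)).trans hT
  have h2 := abs_le.1 hk
  have e1 : min (1 - k₁) (min (k₂ - 1) (k₃ - 1)) ≤ 1 - k₁ := min_le_left _ _
  have e2 : min (1 - k₁) (min (k₂ - 1) (k₃ - 1)) ≤ k₂ - 1 :=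
    (min_le_right _ _).trans (min_le_left _ _)
  have e3 : min (1 - k₁) (min (k₂ - 1) (k₃ - 1)) ≤ k₃ - 1 :=
    (min_le_right _ _).trans (min_le_right _ _)
  rcases le_total k 1 with h | h
  · exact hA T hTa k (by linarith) h
  · rw [abs_le]
    constructor
    · have := hD T hTc k h (by linarith)
      linarith
    · have := hB T hTb k h (by linarith)
      linarith

end F4
end Pool.Agent.Lib.MP_973905_nt
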