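import Pool.Agent.Lib.MP_973905_nt.F4.Stmts

/-! Module (N4): the Fourier transform of `Gz`. -/

namespace Pool.Agent.Lib.MP_973905_nt
namespace F4
namespace GhAux

open MeasureTheory Complex Filter Topology FourierTransform

lemma int_rp {X s : ℝ} (hX : 1 ≤ X) (hs : 1 < s) :
    IntegrableOn (fun z : ℝ => (z + X) ^ (-s)) (Set.Ioi 0) ∧
      ∫ z in Set.Ioi (0 : ℝ), (z + X) ^ (-s) = X ^ (1 - s) / (s - 1) := by
  refine ⟨integrableOn_add_rpow_Ioi_of_lt (by linarith) (by linarith), ?_⟩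
  have hd : ∀ x ∈ Set.Ici (0 : ℝ), HasDerivAt (fun t => (t + X) ^ (-s + 1) / (-s + 1))
      ((x + X) ^ (-s)) x := by
    intro x hx
    have hx0 : 0 ≤ x := hx
    have hne : -s + 1 ≠ 0 := by linarith
    have h1 := (((hasDerivAt_id x).add_const X).rpow_const (p := -s + 1)
      (Or.inl (by simp only [id]; linarith))).div_const (-s + 1)
    have h2 : (1 : ℝ) * (-s + 1) * (id x + X) ^ (-s + 1 - 1) / (-s + 1) = (x + X) ^ (-s) := by
      have h3 : -s + 1 - 1 = -s := by ring
      rw [h3, one_mul, mul_div_cancel_left₀ _ hne]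
      rfl
    rw [h2] at h1
    exact h1
  have ht : Tendsto (fun t => (t + X) ^ (-s + 1) / (-s + 1)) atTop (𝓝 (0 / (-s + 1))) := by
    have h1 : Tendsto (fun t : ℝ => (t + X) ^ (-(s - 1))) atTop (𝓝 0) :=
      (tendsto_rpow_neg_atTop (by linarith)).comp (tendsto_atTop_add_const_right _ X tendsto_id)
    have h2 : -(s - 1) = -s + 1 := by ring
    rw [h2] at h1
    exact h1.div_const _
  rw [integral_Ioi_of_hasDerivAt_of_nonneg' hd (fun x hx => Real.rpow_nonneg (by
    have := Set.mem_Ioi.1 hx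
    linarith) _) ht]
  have h3 : s - 1 ≠ 0 := by linarith
  have h4 : -s + 1 ≠ 0 := by linarith
  have h5 : -s + 1 = -(s - 1) := by ring
  rw [zero_add, zero_div, zero_sub, h5, div_neg, neg_neg]
  congr 2
  ring

lemma int_bd {X s E : ℝ} (hX : 1 ≤ X) (hs : 1 < s) (hE : 0 ≤ E) {g : ℝ → ℂ}
    (hg : Continuous g) (h0 : ∀ z < 2, g z = 0)
    (hb : ∀ z, 2 ≤ z → ‖g z‖ ≤ E * (z + X) ^ (-s)) :
    Integrable g ∧ ∫ z, ‖g z‖ ≤ E * (X ^ (1 - s) / (s - 1)) := by
  obtain ⟨i1, i2⟩ := int_rp hX hs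
  have hb' : ∀ z ∈ Set.Ioi (0 : ℝ), ‖g z‖ ≤ E * (z + X) ^ (-s) := by
    intro z hz
    rcases lt_or_ge z 2 with h | h
    · rw [h0 z h, norm_zero]
      have : 0 ≤ z + X := by
        have := Set.mem_Ioi.1 hz
        linarith
      positivity
    · exact hb z h
  have iE : IntegrableOn (fun z : ℝ => E * (z + X) ^ (-s)) (Set.Ioi 0) := i1.const_mul E
  have hon : IntegrableOn g (Set.Ioi 0) := by
    refine Integrable.mono' iE hg.aestronglyMeasurable ?_
    rw [ae_restrict_iff' measurableSet_Ioi]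
    exact Eventually.of_forall hb'
  have hind : (Set.Ioi (0 : ℝ)).indicator g = g := by
    ext z
    by_cases hz : z ∈ Set.Ioi (0 : ℝ)
    · rw [Set.indicator_of_mem hz]
    · rw [Set.indicator_of_notMem hz, h0 z]
      have := Set.notMem_Ioi.1 hz
      linarith
  have hint : Integrable g := by
    rw [← hind, integrable_indicator_iff measurableSet_Ioi]
    exact hon
  refine ⟨hint, ?_⟩
  have hset : ∫ z, ‖g z‖ = ∫ z in Set.Ioi (0 : ℝ), ‖g z‖ := by
    rw [← integral_indicator measurableSet_Ioi]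
    congr 1
    ext z
    by_cases hz : z ∈ Set.Ioi (0 : ℝ)
    · rw [Set.indicator_of_mem hz]
    · rw [Set.indicator_of_notMem hz, h0 z, norm_zero]
      have := Set.notMem_Ioi.1 hz
      linarith
  rw [hset, ← i2, ← integral_const_mul]
  exact setIntegral_mono_on hon.norm iE measurableSet_Ioi hb'

lemma norm_four_le (g : ℝ → ℂ) (l : ℝ) : ‖𝓕 g l‖ ≤ ∫ z, ‖g z‖ := by
  rw [Real.fourier_real_eq_integral_exp_smul]
  refine (norm_integral_le_integral_norm _).trans (le_of_eq ?_)
  congr 1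
  ext z
  rw [norm_smul, norm_exp_ofReal_mul_I, one_mul]

lemma Gh_eq (X : ℝ) (a c : ℂ) (e : ℤ) : Gh X a c e = 𝓕 (Gz X a c e) := by
  ext l
  rw [Real.fourier_real_eq_integral_exp_smul]
  rfl

lemma rp_le {X z s : ℝ} (hX : 1 ≤ X) (hz : 2 ≤ z) (hs : s ≤ 8) :
    z ^ (-s) * (1 + X / z) ^ (-8 : ℝ) ≤ (z + X) ^ (-s) := by
  have hz0 : 0 < z := by linarith
  have hzX : 0 < z + X := by linarith
  have h1 : 1 + X / z = (z + X) / z := by field_simp
  rw [h1, Real.div_rpow hzX.le hz0.le, Real.rpow_neg hz0.le 8, div_inv_eq_mul]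
  have h2 : z ^ (-s) * ((z + X) ^ (-8 : ℝ) * z ^ (8 : ℝ)) =
      z ^ (8 - s) * (z + X) ^ (-8 : ℝ) := by
    rw [sub_eq_add_neg, Real.rpow_add hz0]
    ring
  have h3 : (z + X) ^ (-s) = (z + X) ^ (8 - s) * (z + X) ^ (-8 : ℝ) := by
    rw [← Real.rpow_add hzX]
    congr 1
    ring
  rw [h2, h3]
  apply mul_le_mul_of_nonneg_right _ (by positivity)
  exact Real.rpow_le_rpow hz0.le (by linarith) (by linarith)

section P

variable {g : ℝ → ℂ}

lemma hasDeriv_iter (hg : ContDiff ℝ 3 g) {n : ℕ} (hn : n < 3) (z : ℝ) :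
    HasDerivAt (iteratedDeriv n g) (iteratedDeriv (n + 1) g z) z := by
  rw [iteratedDeriv_succ]
  exact ((hg.differentiable_iteratedDeriv n (by exact_mod_cast hn)) z).hasDerivAt

lemma iter_P (hg : ContDiff ℝ 3 g) : ∀ n : ℕ, n ≤ 3 → ∀ z : ℝ,
    iteratedDeriv n (fun z : ℝ => (z : ℂ) * g z) z =
      z * iteratedDeriv n g z + n * iteratedDeriv (n - 1) g z := by
  intro n
  induction n with
  | zero => intro _ z; simp
  | succ n ih =>
    intro hn z
    rw [iteratedDeriv_succ]
    have h1 : iteratedDeriv n (fun z : ℝ => (z : ℂ) * g z) =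
        fun z : ℝ => (z : ℂ) * iteratedDeriv n g z + n * iteratedDeriv (n - 1) g z := by
      ext y
      exact ih (by omega) y
    rw [h1]
    have d0 : HasDerivAt (fun z : ℝ => (z : ℂ)) 1 z := ofRealCLM.hasDerivAt
    have d1 := d0.mul (hasDeriv_iter hg (by omega : n < 3) z)
    have d2 : HasDerivAt (fun z : ℝ => (n : ℂ) * iteratedDeriv (n - 1) g z)
        (n * iteratedDeriv n g z) z := by
      rcases Nat.eq_zero_or_pos n with h | h
      · subst h
        simpa using hasDerivAt_const z (0 : ℂ)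
      · have := (hasDeriv_iter hg (by omega : n - 1 < 3) z).const_mul (n : ℂ)
        rwa [Nat.sub_add_cancel h] at this
    have d3 := d1.add d2
    have h2 : deriv (fun z : ℝ => (z : ℂ) * iteratedDeriv n g z + n * iteratedDeriv (n - 1) g z) z =
        1 * iteratedDeriv n g z + z * iteratedDeriv (n + 1) g z + n * iteratedDeriv n g z :=
      d3.deriv
    rw [h2, Nat.add_sub_cancel]
    push_cast
    ring

end P

end GhAux

open GhAux FourierTransform in
theorem stGh (h3 : StGz) : StGh := by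
  obtain ⟨C, hC, h⟩ := h3
  refine ⟨C, hC, ?_⟩
  intro X hX a c ha h8 h16 e he
  obtain ⟨hG, hG0, hGb⟩ := h X hX a c ha h8 h16 e he
  set G := Gz X a c e with hGdef
  set E := Real.exp (C * (‖a‖ + ‖c‖)) with hE
  have hE0 : 0 < E := Real.exp_pos _
  have hX0 : 0 < X := by linarith
  -- derivatives vanish to the left of 2
  have hzero : ∀ i : ℕ, ∀ z < (2 : ℝ), iteratedDeriv i G z = 0 := by
    intro i z hz
    have h1 : G =ᶠ[nhds z] fun _ => 0 := by
      filter_upwards [Iio_mem_nhds hz] with y hy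
      exact hG0 y (Set.mem_Iio.1 hy).le
    rw [h1.iteratedDeriv_eq i, iteratedDeriv_const]
    simp
  have hcont : ∀ i : ℕ, i ≤ 3 → Continuous (iteratedDeriv i G) := fun i hi =>
    hG.continuous_iteratedDeriv i (by exact_mod_cast hi)
  have hbd : ∀ i : ℕ, i ≤ 3 → ∀ z : ℝ, 2 ≤ z →
      ‖iteratedDeriv i G z‖ ≤ E * (z + X) ^ (-(17 / 8 + i) : ℝ) := by
    intro i hi z hz
    refine (hGb i hi z hz).trans ?_
    have hi' : (i : ℝ) ≤ 3 := by exact_mod_cast hi
    have h1 := rp_le (s := 17 / 8 + i) hX hz (by linarith)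
    have h2 : (-(17 / 8) - i : ℝ) = -(17 / 8 + i) := by ring
    rw [h2, mul_assoc]
    exact mul_le_mul_of_nonneg_left h1 hE0.le
  have hi1 : (1 : ℝ) < 17 / 8 := by norm_num
  -- the function `z G`
  set P : ℝ → ℂ := fun z => (z : ℂ) * G z with hP
  have hPc : ContDiff ℝ 3 P := Complex.ofRealCLM.contDiff.mul hG
  have hPcont : ∀ i : ℕ, i ≤ 3 → Continuous (iteratedDeriv i P) := fun i hi =>
    hPc.continuous_iteratedDeriv i (by exact_mod_cast hi)
  have hPzero : ∀ i : ℕ, i ≤ 3 → ∀ z < (2 : ℝ), iteratedDeriv i P z = 0 := by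
    intro i hi z hz
    rw [hP, iter_P hG i hi z, hzero i z hz, hzero (i - 1) z hz]
    simp
  have hPbd : ∀ i : ℕ, i ≤ 3 → ∀ z : ℝ, 2 ≤ z →
      ‖iteratedDeriv i P z‖ ≤ (4 * E) * (z + X) ^ (-(9 / 8 + i) : ℝ) := by
    intro i hi z hz
    have hz0 : 0 < z := by linarith
    have hzX : 0 < z + X := by linarith
    rw [hP, iter_P hG i hi z]
    refine (norm_add_le _ _).trans ?_
    rw [norm_mul, norm_mul, Complex.norm_real, Real.norm_of_nonneg hz0.le, Complex.norm_natCast]
    have e1 : (z + X) ^ (-(9 / 8 + i) : ℝ) = (z + X) * (z + X) ^ (-(17 / 8 + i) : ℝ) := by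
      have h1 : (-(9 / 8 + i) : ℝ) = 1 + -(17 / 8 + i) := by ring
      rw [h1, Real.rpow_add hzX, Real.rpow_one]
    have t1 : z * ‖iteratedDeriv i G z‖ ≤ E * (z + X) ^ (-(9 / 8 + i) : ℝ) := by
      calc z * ‖iteratedDeriv i G z‖ ≤ (z + X) * (E * (z + X) ^ (-(17 / 8 + i) : ℝ)) := by
            apply mul_le_mul (by linarith) (hbd i hi z hz) (norm_nonneg _) hzX.le
        _ = _ := by rw [e1]; ring
    have t2 : (i : ℝ) * ‖iteratedDeriv (i - 1) G z‖ ≤ 3 * (E * (z + X) ^ (-(9 / 8 + i) : ℝ)) := by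
      rcases Nat.eq_zero_or_pos i with h | h
      · subst h
        simp only [Nat.cast_zero, zero_mul]
        positivity
      · have h1 := hbd (i - 1) (by omega) z hz
        have h2 : ((i - 1 : ℕ) : ℝ) = i - 1 := by
          push_cast [h]
          ring
        have h3 : (-(17 / 8 + ((i - 1 : ℕ) : ℝ)) : ℝ) = -(9 / 8 + i) := by
          rw [h2]
          ring
        rw [h3] at h1
        have hi' : (i : ℝ) ≤ 3 := by exact_mod_cast hi
        exact mul_le_mul hi' h1 (norm_nonneg _) (by norm_num)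
    linarith
  have hGint : ∀ i : ℕ, i ≤ 3 → MeasureTheory.Integrable (iteratedDeriv i G) ∧
      ∫ z, ‖iteratedDeriv i G z‖ ≤ E * (X ^ (1 - (17 / 8 + i) : ℝ) / ((17 / 8 + i) - 1)) := by
    intro i hi
    have hi0 : (0 : ℝ) ≤ i := Nat.cast_nonneg i
    exact int_bd hX (by linarith) hE0.le (hcont i hi) (hzero i) (hbd i hi)
  have hPint : ∀ i : ℕ, i ≤ 3 → MeasureTheory.Integrable (iteratedDeriv i P) ∧
      ∫ z, ‖iteratedDeriv i P z‖ ≤ (4 * E) * (X ^ (1 - (9 / 8 + i) : ℝ) / ((9 / 8 + i) - 1)) := by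
    intro i hi
    have hi0 : (0 : ℝ) ≤ i := Nat.cast_nonneg i
    exact int_bd hX (by linarith) (by positivity) (hPcont i hi) (hPzero i hi) (hPbd i hi)
  have hG0int : MeasureTheory.Integrable G := by
    have := (hGint 0 (by norm_num)).1
    rwa [iteratedDeriv_zero] at this
  have hP0int : MeasureTheory.Integrable P := by
    have := (hPint 0 (by norm_num)).1
    rwa [iteratedDeriv_zero] at this
  have hsm : MeasureTheory.Integrable (fun x : ℝ => x • G x) := by
    have : (fun x : ℝ => x • G x) = P := by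
      ext x
      rw [hP]
      simp
    rw [this]
    exact hP0int
  have hsp : ∀ l : ℝ, l ≠ 0 → 0 < |l| := fun l hl => abs_pos.2 hl
  have hpi : 32 ≤ (2 * Real.pi) ^ 2 := by
    have := Real.pi_gt_three
    nlinarith
  rw [Gh_eq, ← hGdef]
  refine ⟨?_, ?_, ?_⟩
  · have := Real.contDiff_fourier (f := G) (N := 1) ?_
    · exact_mod_cast this
    · intro n hn
      have hn1 : n ≤ 1 := by exact_mod_cast hn
      interval_cases n
      · simpa using hG0int.norm
      · have := hP0int.norm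
        refine this.congr (Filter.Eventually.of_forall fun x => ?_)
        simp [hP]
  · intro l
    refine (norm_four_le G l).trans ?_
    have h1 := (hGint 0 (by norm_num)).2
    rw [iteratedDeriv_zero] at h1
    refine h1.trans ?_
    have h2 : (1 - (17 / 8 + ((0 : ℕ) : ℝ)) : ℝ) = -(9 / 8) := by
      push_cast
      norm_num
    rw [h2]
    have h3 : 0 ≤ X ^ (-(9 / 8) : ℝ) := Real.rpow_nonneg hX0.le _
    apply mul_le_mul_of_nonneg_left _ hE0.le
    rw [div_le_iff₀ (by push_cast; norm_num)]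
    push_cast
    linarith
  · intro l hl
    have hl0 := hsp l hl
    have hl2 : 0 < l ^ 2 := by positivity
    have hXp : 0 ≤ X ^ (-(25 / 8) : ℝ) := Real.rpow_nonneg hX0.le _
    constructor
    · have h1 := Real.fourier_iteratedDeriv (f := G) (N := 3) (n := 2) (by exact_mod_cast hG)
        (fun n hn => (hGint n (by exact_mod_cast hn)).1) (by norm_num)
      have h2 := norm_four_le (iteratedDeriv 2 G) l
      rw [h1] at h2
      simp only at h2
      rw [norm_smul, norm_pow] at h2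
      have h3 : ‖(2 * Real.pi * Complex.I * l : ℂ)‖ = 2 * Real.pi * |l| := by
        rw [norm_mul, norm_mul, norm_mul, Complex.norm_I, Complex.norm_real, Complex.norm_real,
          Real.norm_of_nonneg Real.pi_pos.le, Real.norm_eq_abs]
        simp
      rw [h3, mul_pow, sq_abs] at h2
      have h4 := (hGint 2 (by norm_num)).2
      have h5 : (1 - (17 / 8 + ((2 : ℕ) : ℝ)) : ℝ) = -(25 / 8) := by
        push_cast
        norm_num
      rw [h5] at h4
      have h6 := h2.trans h4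
      rw [le_div_iff₀ hl2]
      have h7 : X ^ (-(25 / 8) : ℝ) / ((17 / 8 + ((2 : ℕ) : ℝ)) - 1) ≤ X ^ (-(25 / 8) : ℝ) := by
        rw [div_le_iff₀ (by push_cast; norm_num)]
        push_cast
        linarith
      have h8 : E * (X ^ (-(25 / 8) : ℝ) / ((17 / 8 + ((2 : ℕ) : ℝ)) - 1)) ≤
          E * X ^ (-(25 / 8) : ℝ) := mul_le_mul_of_nonneg_left h7 hE0.le
      have h9 : 0 ≤ ‖𝓕 G l‖ * l ^ 2 := by positivity
      have h10 : (‖𝓕 G l‖ * l ^ 2) * 1 ≤ (‖𝓕 G l‖ * l ^ 2) * (2 * Real.pi) ^ 2 :=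
        mul_le_mul_of_nonneg_left (by linarith) h9
      linarith
    · have hder : deriv (𝓕 G) l = (-2 * Real.pi * Complex.I) * 𝓕 P l := by
        rw [Real.deriv_fourier hG0int hsm]
        rw [Real.fourier_real_eq_integral_exp_smul, Real.fourier_real_eq_integral_exp_smul,
          ← MeasureTheory.integral_const_mul]
        congr 1
        ext x
        simp only [hP, smul_eq_mul]
        ring
      rw [hder]
      have h1 := Real.fourier_iteratedDeriv (f := P) (N := 3) (n := 3) (by exact_mod_cast hPc)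
        (fun n hn => (hPint n (by exact_mod_cast hn)).1) (by norm_num)
      have h2 := norm_four_le (iteratedDeriv 3 P) l
      rw [h1] at h2
      simp only at h2
      rw [norm_smul, norm_pow] at h2
      have h3 : ‖(2 * Real.pi * Complex.I * l : ℂ)‖ = 2 * Real.pi * |l| := by
        rw [norm_mul, norm_mul, norm_mul, Complex.norm_I, Complex.norm_real, Complex.norm_real,
          Real.norm_of_nonneg Real.pi_pos.le, Real.norm_eq_abs]
        simp
      have h3' : ‖(-2 * Real.pi * Complex.I : ℂ)‖ = 2 * Real.pi := by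
        rw [norm_mul, norm_mul, Complex.norm_I, Complex.norm_real,
          Real.norm_of_nonneg Real.pi_pos.le]
        simp
      rw [h3] at h2
      rw [norm_mul, h3']
      have h4 := (hPint 3 (by norm_num)).2
      have h5 : (1 - (9 / 8 + ((3 : ℕ) : ℝ)) : ℝ) = -(25 / 8) := by
        push_cast
        norm_num
      rw [h5] at h4
      have h6 := h2.trans h4
      rw [le_div_iff₀ hl2]
      have h7 : X ^ (-(25 / 8) : ℝ) / ((9 / 8 + ((3 : ℕ) : ℝ)) - 1) ≤ X ^ (-(25 / 8) : ℝ) := by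
        rw [div_le_iff₀ (by push_cast; norm_num)]
        push_cast
        linarith
      have h8 : (4 * E) * (X ^ (-(25 / 8) : ℝ) / ((9 / 8 + ((3 : ℕ) : ℝ)) - 1)) ≤
          (4 * E) * X ^ (-(25 / 8) : ℝ) := mul_le_mul_of_nonneg_left h7 (by positivity)
      have h9 : 0 ≤ 2 * Real.pi * ‖𝓕 P l‖ * |l| * l ^ 2 := by positivity
      have h10 : (2 * Real.pi * |l|) ^ 3 * ‖𝓕 P l‖ =
          (2 * Real.pi * ‖𝓕 P l‖ * |l| * l ^ 2) * (2 * Real.pi) ^ 2 := by
        have : |l| ^ 2 = l ^ 2 := sq_abs l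
        rw [← this]
        ring
      rw [h10] at h6
      have h11 : (2 * Real.pi * ‖𝓕 P l‖ * |l| * l ^ 2) * 32 ≤
          (2 * Real.pi * ‖𝓕 P l‖ * |l| * l ^ 2) * (2 * Real.pi) ^ 2 :=
        mul_le_mul_of_nonneg_left hpi h9
      nlinarith

end F4
end Pool.Agent.Lib.MP_973905_nt
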