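import Pool.Agent.Lib.MP_973905_nt.F4.Stmts

/-! F4 module (Z5): polynomial growth of `riemannZeta₁` in the strip `-1/4 ≤ Re s ≤ 10`. -/

namespace Pool.Agent.Lib.MP_973905_nt
namespace F4
namespace Grow

open MeasureTheory ProbabilityTheory Complex Filter Topology

lemma zeta_reflect {s : ℂ} (h2 : 1 ≤ |s.im|) :
    riemannZeta s = FF (1 - s) * riemannZeta (1 - s) := by
  have hw1 : ∀ n : ℕ, (1 - s) ≠ -n := by
    intro n h
    have h3 := congrArg im h
    simp only [sub_im, one_im, zero_sub, neg_im, natCast_im, neg_zero, neg_eq_zero] at h3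
    rw [h3] at h2
    norm_num at h2
  have hw2 : (1 - s) ≠ 1 := by
    intro h
    have h3 := congrArg im h
    simp only [sub_im, one_im, zero_sub, neg_eq_zero] at h3
    rw [h3] at h2
    norm_num at h2
  have h := riemannZeta_one_sub hw1 hw2
  rw [sub_sub_cancel] at h
  rw [h]
  unfold FF
  ring

/-- growth of `riemannZeta₁` -/
theorem grow : ∃ C : ℝ, 0 < C ∧ ∀ s : ℂ, -(1 / 4) ≤ s.re → s.re ≤ 10 →
    ‖riemannZeta₁ s‖ ≤ C * (1 + |s.im|) ^ 3 := by
  obtain ⟨C, hC, h⟩ := zeta_growth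
  -- the compact part
  have hcomp : IsCompact (Metric.closedBall (0 : ℂ) 3) := isCompact_closedBall _ _
  obtain ⟨K, hK⟩ := hcomp.bddAbove_image
    (differentiable_riemannZeta₁.continuous.norm.continuousOn)
  have hK' : ∀ s : ℂ, ‖s‖ ≤ 3 → ‖riemannZeta₁ s‖ ≤ max K 1 := by
    intro s hs
    exact (hK ⟨s, by simpa using hs, rfl⟩).trans (le_max_left _ _)
  have hK0 : 0 < max K 1 := lt_of_lt_of_le one_pos (le_max_right _ _)
  refine ⟨2 * Real.exp (9 / 4) * C + C + max K 1, by positivity, fun s h1 h2 => ?_⟩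
  have hy := abs_nonneg s.im
  have hy1 : (1 : ℝ) ≤ (1 + |s.im|) ^ 3 := one_le_pow₀ (by linarith)
  have hE : 0 < Real.exp (9 / 4) := Real.exp_pos _
  rcases le_total (1 / 8) s.re with h3 | h3
  · have h4 := h s h3 h2
    have h5 : (1 + |s.im|) ^ 2 ≤ (1 + |s.im|) ^ 3 := pow_le_pow_right₀ (by linarith) (by norm_num)
    calc ‖riemannZeta₁ s‖ ≤ C * (1 + |s.im|) ^ 2 := h4
      _ ≤ C * (1 + |s.im|) ^ 3 := by gcongr
      _ ≤ _ := by
          gcongr
          have : 0 < 2 * Real.exp (9 / 4) * C := by positivity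
          linarith
  rcases le_total |s.im| 1 with h4 | h4
  · have h5 : ‖s‖ ≤ 3 := by
      have := Complex.norm_le_abs_re_add_abs_im s
      have h6 : |s.re| ≤ 1 / 4 := abs_le.2 ⟨h1, by linarith⟩
      linarith
    calc ‖riemannZeta₁ s‖ ≤ max K 1 := hK' s h5
      _ ≤ max K 1 * (1 + |s.im|) ^ 3 := by nlinarith
      _ ≤ _ := by
          gcongr
          have : 0 < 2 * Real.exp (9 / 4) * C := by positivity
          linarith
  · have hs1 : s ≠ 1 := by
      rintro rfl
      simp at h4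
      linarith
    have hs0 : (1 - s) ≠ 1 := by
      intro h5
      have h6 := congrArg im h5
      simp only [sub_im, one_im, zero_sub, neg_eq_zero] at h6
      rw [h6] at h4
      norm_num at h4
    have hns : 1 ≤ ‖s‖ := h4.trans (abs_im_le_norm s)
    have h5 := h (1 - s) (by simp; linarith) (by simp; linarith)
    have h6 : ‖FF (1 - s)‖ ≤ Real.exp (9 / 4) * (1 + |s.im|) ^ (3 / 4 : ℝ) := by
      have h7 := FF_bound (δ := 1 / 2 - s.re) (by linarith) (by linarith) (-s.im)
      have h8 : (((1 / 2 + (1 / 2 - s.re) : ℝ) : ℂ) + ((-s.im : ℝ) : ℂ) * I) = 1 - s := by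
        apply Complex.ext
        · simp; ring
        · simp
      rw [h8, abs_neg] at h7
      refine h7.trans ?_
      gcongr
      · linarith
      · linarith
    have h7 : riemannZeta₁ s = (s - 1) * (FF (1 - s) * ((1 - s - 1)⁻¹ * riemannZeta₁ (1 - s))) := by
      rw [← riemannZeta_eq_inv_sub_mul hs0, ← zeta_reflect h4, riemannZeta_eq_inv_sub_mul hs1]
      have : s - 1 ≠ 0 := sub_ne_zero.2 hs1
      field_simp
    have h8 : ‖s - 1‖ ≤ 2 * ‖s‖ := by
      have := norm_sub_le s 1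
      rw [norm_one] at this
      linarith
    have h9 : ‖(1 - s - 1 : ℂ)‖ = ‖s‖ := by
      rw [show (1 - s - 1 : ℂ) = -s by ring, norm_neg]
    have him : |(1 - s).im| = |s.im| := by simp
    rw [him] at h5
    rw [h7, norm_mul, norm_mul, norm_mul, norm_inv, h9]
    have h10 : (1 + |s.im|) ^ (3 / 4 : ℝ) ≤ (1 + |s.im|) ^ (1 : ℝ) :=
      Real.rpow_le_rpow_of_exponent_le (by linarith) (by norm_num)
    rw [Real.rpow_one] at h10
    calc ‖s - 1‖ * (‖FF (1 - s)‖ * (‖s‖⁻¹ * ‖riemannZeta₁ (1 - s)‖))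
        ≤ (2 * ‖s‖) * (Real.exp (9 / 4) * (1 + |s.im|) * (‖s‖⁻¹ * (C * (1 + |s.im|) ^ 2))) := by
          gcongr
          exact h6.trans (by gcongr)
      _ = 2 * Real.exp (9 / 4) * C * (1 + |s.im|) ^ 3 := by
          have : ‖s‖ ≠ 0 := by linarith
          field_simp
      _ ≤ _ := by
          gcongr
          linarith

end Grow

/-- (Z5) -/
theorem stGrow : StGrow := by
  obtain ⟨C, hC, h⟩ := Grow.grow
  exact ⟨C, hC, fun s h1 h2 => h s (by linarith) h2⟩

end F4
end Pool.Agent.Lib.MP_973905_nt
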