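import Pool.Agent.Lib.MP_973905_nt.F4.Stmts

/-! Module (N3): the function `Gz` and its derivatives, by Cauchy estimates. -/

namespace Pool.Agent.Lib.MP_973905_nt
namespace F4
namespace GzAux

open MeasureTheory Complex Filter Topology Metric

/-- The holomorphic function whose restriction to the real line is `Gz` without the cutoff. -/
noncomputable def HH (X : ℝ) (a c : ℂ) (e : ℤ) (w : ℂ) : ℂ :=
  (w * (w - e)) ^ (-(1 / 2 + a)) * (Gamma c * (1 + (X : ℂ) * log (w / (w - e)) * I) ^ (-c))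

section geo

variable {z : ℝ} {w : ℂ} {e : ℤ}

lemma geo_re (hw : ‖w - z‖ ≤ z / 4) : 3 * z / 4 ≤ w.re := by
  have h := (abs_re_le_norm (w - z)).trans hw
  have h2 := abs_le.1 h
  simp at h2
  linarith [h2.1]

lemma geo_im (hw : ‖w - z‖ ≤ z / 4) : |w.im| ≤ z / 4 := by
  have h := (abs_im_le_norm (w - z)).trans hw
  simpa using h

lemma geo_im2 (hw : ‖w - z‖ ≤ z / 4) : w.im * w.im ≤ z ^ 2 / 16 := by
  have h := geo_im hw
  have h1 : |w.im| * |w.im| ≤ (z / 4) * (z / 4) :=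
    mul_le_mul h h (abs_nonneg _) ((abs_nonneg _).trans h)
  rw [abs_mul_abs_self] at h1
  nlinarith

lemma geo_sub_re (hz : 2 ≤ z) (hw : ‖w - z‖ ≤ z / 4) (he : e = 1 ∨ e = -1) :
    z / 4 ≤ (w - e).re := by
  have h := geo_re hw
  rcases he with rfl | rfl
  · simp
    linarith
  · simp
    linarith

lemma geo_sub_im : (w - e).im = w.im := by simp

lemma geo_norm (_ : 2 ≤ z) (hw : ‖w - z‖ ≤ z / 4) : 3 * z / 4 ≤ ‖w‖ :=
  (geo_re hw).trans ((le_abs_self _).trans (abs_re_le_norm _))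

lemma geo_sub_norm (hz : 2 ≤ z) (hw : ‖w - z‖ ≤ z / 4) (he : e = 1 ∨ e = -1) :
    z / 4 ≤ ‖w - e‖ :=
  (geo_sub_re hz hw he).trans ((le_abs_self _).trans (abs_re_le_norm _))

lemma geo_mul_norm (hz : 2 ≤ z) (hw : ‖w - z‖ ≤ z / 4) (he : e = 1 ∨ e = -1) :
    3 * z ^ 2 / 16 ≤ ‖w * (w - e)‖ := by
  rw [norm_mul]
  have h1 := geo_norm hz hw
  have h2 := geo_sub_norm hz hw he
  have := mul_le_mul h1 h2 (by linarith) (norm_nonneg _)
  nlinarith

lemma geo_mul_re (hz : 2 ≤ z) (hw : ‖w - z‖ ≤ z / 4) (he : e = 1 ∨ e = -1) :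
    0 < (w * (w - e)).re := by
  have h1 := geo_re hw
  have h2 := geo_sub_re hz hw he
  have h3 := geo_im2 hw
  rw [mul_re, geo_sub_im]
  have := mul_le_mul h1 h2 (by linarith) (by linarith)
  nlinarith

lemma geo_div_re (hz : 2 ≤ z) (hw : ‖w - z‖ ≤ z / 4) (he : e = 1 ∨ e = -1) :
    0 < (w / (w - e)).re := by
  have h1 := geo_re hw
  have h2 := geo_sub_re hz hw he
  have hn : 0 < normSq (w - e) := by
    rw [normSq_pos]
    intro h
    rw [h] at h2
    simp at h2
    linarith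
  rw [div_re, geo_sub_im]
  have a1 : 0 < w.re * (w - e).re / normSq (w - e) := by
    have : 0 < w.re * (w - e).re := mul_pos (by linarith) (by linarith)
    positivity
  have a2 : 0 ≤ w.im * w.im / normSq (w - e) := div_nonneg (mul_self_nonneg _) hn.le
  linarith

lemma log_low {P Q : ℝ} (hz : 2 ≤ z) (hQ : 0 < Q) (h : Q * (1 + 16 / (25 * z)) ≤ P) :
    16 / (33 * z) ≤ Real.log P - Real.log Q := by
  have hz0 : 0 < z := by linarith
  have ht : 0 < 16 / (25 * z) := by positivity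
  have hP : 0 < P := lt_of_lt_of_le (by positivity) h
  rw [← Real.log_div hP.ne' hQ.ne']
  have h1 : 1 + 16 / (25 * z) ≤ P / Q := by
    rw [le_div_iff₀ hQ]
    linarith
  have h2 : Real.log (1 + 16 / (25 * z)) ≤ Real.log (P / Q) :=
    Real.log_le_log (by linarith) h1
  refine le_trans ?_ h2
  refine le_trans ?_ (Real.one_sub_inv_le_log_of_pos (by linarith))
  have h3 : 1 + 16 / (25 * z) = (25 * z + 16) / (25 * z) := by field_simp
  rw [h3, inv_div]
  have h4 : 1 - 25 * z / (25 * z + 16) = 16 / (25 * z + 16) := by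
    field_simp
    ring
  rw [h4]
  apply div_le_div_of_nonneg_left (by norm_num) (by linarith) (by linarith)

lemma sq_norm_eq (w : ℂ) : ‖w‖ ^ 2 = w.re * w.re + w.im * w.im := by
  rw [← normSq_eq_norm_sq, normSq_apply]

lemma re_log (hw0 : w ≠ 0) (hw1 : w - e ≠ 0) :
    (log (w / (w - e))).re = (Real.log (‖w‖ ^ 2) - Real.log (‖w - e‖ ^ 2)) / 2 := by
  rw [log_re, norm_div, Real.log_div (norm_ne_zero_iff.2 hw0) (norm_ne_zero_iff.2 hw1),
    Real.log_pow, Real.log_pow]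
  push_cast
  ring

lemma geo_low (hz : 2 ≤ z) (hw : ‖w - z‖ ≤ z / 4) (he : e = 1 ∨ e = -1) :
    8 / (33 * z) ≤ |(log (w / (w - e))).re| := by
  have hz0 : 0 < z := by linarith
  have h0 : w ≠ 0 := by
    intro h
    have := geo_norm hz hw
    rw [h, norm_zero] at this
    linarith
  have h1 : w - e ≠ 0 := by
    intro h
    have := geo_sub_norm hz hw he
    rw [h, norm_zero] at this
    linarith
  have hre := geo_re hw
  have hP : 0 < ‖w‖ ^ 2 := by positivity
  have hQ : 0 < ‖w - e‖ ^ 2 := by positivity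
  rw [re_log h0 h1]
  have e8 : 8 / (33 * z) = (16 / (33 * z)) / 2 := by ring
  have hwz : ‖w‖ ≤ 5 * z / 4 := by
    have : ‖w‖ ≤ ‖w - z‖ + ‖(z : ℂ)‖ := by
      have := norm_add_le (w - z) z
      simpa using this
    rw [norm_real, Real.norm_of_nonneg hz0.le] at this
    linarith
  obtain he1 | he1 := he
  · have hec : (e : ℂ) = 1 := by rw [he1]; simp
    rw [hec] at hQ ⊢
    have hwz1 : ‖w - 1‖ ≤ 5 * z / 4 := by
      have h3 : ‖w - 1‖ ≤ ‖w - z‖ + ‖(z : ℂ) - 1‖ := by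
        have := norm_add_le (w - z) ((z : ℂ) - 1)
        simpa using this
      have h4 : ‖(z : ℂ) - 1‖ = z - 1 := by
        rw [← ofReal_one, ← ofReal_sub, norm_real, Real.norm_of_nonneg (by linarith)]
      rw [h4] at h3
      linarith
    have hd : ‖w‖ ^ 2 - ‖w - 1‖ ^ 2 = 2 * w.re - 1 := by
      rw [sq_norm_eq, sq_norm_eq]
      simp
      ring
    have h5 : ‖w - 1‖ ^ 2 * (1 + 16 / (25 * z)) ≤ ‖w‖ ^ 2 := by
      have h6 : ‖w - 1‖ ^ 2 * (16 / (25 * z)) ≤ z := by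
        have h7 : ‖w - 1‖ ^ 2 ≤ (5 * z / 4) ^ 2 := by gcongr
        calc ‖w - 1‖ ^ 2 * (16 / (25 * z)) ≤ (5 * z / 4) ^ 2 * (16 / (25 * z)) := by
              gcongr
          _ = z := by field_simp; ring
      linarith
    have h6 := log_low hz hQ h5
    rw [e8]
    refine le_trans ?_ (le_abs_self _)
    linarith
  · have hec : (e : ℂ) = -1 := by rw [he1]; simp
    rw [hec, sub_neg_eq_add] at hQ ⊢
    have hd : ‖w + 1‖ ^ 2 - ‖w‖ ^ 2 = 2 * w.re + 1 := by
      rw [sq_norm_eq, sq_norm_eq]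
      simp
      ring
    have h5 : ‖w‖ ^ 2 * (1 + 16 / (25 * z)) ≤ ‖w + 1‖ ^ 2 := by
      have h6 : ‖w‖ ^ 2 * (16 / (25 * z)) ≤ z := by
        have h7 : ‖w‖ ^ 2 ≤ (5 * z / 4) ^ 2 := by gcongr
        calc ‖w‖ ^ 2 * (16 / (25 * z)) ≤ (5 * z / 4) ^ 2 * (16 / (25 * z)) := by
              gcongr
          _ = z := by field_simp; ring
      linarith
    have h6 := log_low hz hP h5
    rw [e8]
    refine le_trans ?_ (neg_le_abs _)
    linarith

lemma geo_up (hz : 2 ≤ z) (hw : ‖w - z‖ ≤ z / 4) (he : e = 1 ∨ e = -1) :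
    ‖log (w / (w - e))‖ ≤ 8 / (3 * z) := by
  have hz0 : 0 < z := by linarith
  have h0 : w ≠ 0 := by
    intro h
    have := geo_norm hz hw
    rw [h, norm_zero] at this
    linarith
  have h1 : w - e ≠ 0 := by
    intro h
    have := geo_sub_norm hz hw he
    rw [h, norm_zero] at this
    linarith
  have hd := geo_div_re hz hw he
  have hne : (w / (w - e))⁻¹ = 1 + -(e : ℂ) / w := by
    rw [inv_div]
    field_simp
    ring
  have h2 : log (w / (w - e)) = - log (1 + -(e : ℂ) / w) := by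
    rw [← hne, log_inv, neg_neg]
    intro h
    rw [arg_eq_pi_iff] at h
    linarith [h.1]
  rw [h2, norm_neg]
  have he1 : ‖(e : ℂ)‖ = 1 := by rcases he with rfl | rfl <;> simp
  have h3 : ‖-(e : ℂ) / w‖ ≤ 4 / (3 * z) := by
    rw [norm_div, norm_neg, he1]
    have := geo_norm hz hw
    rw [div_le_div_iff₀ (by positivity) (by positivity)]
    linarith
  have h4 : 4 / (3 * z) ≤ 2 / 3 := by
    rw [div_le_div_iff₀ (by positivity) (by positivity)]
    linarith
  have h5 : ‖-(e : ℂ) / w‖ ≤ 2 / 3 := h3.trans h4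
  refine (norm_log_one_add_le (by linarith)).trans ?_
  set x := ‖-(e : ℂ) / w‖ with hx
  have hx0 : 0 ≤ x := norm_nonneg _
  have h6 : (1 - x)⁻¹ ≤ 3 := by
    rw [inv_le_comm₀ (by linarith) (by norm_num)]
    linarith
  have h7 : x ^ 2 * (1 - x)⁻¹ ≤ x ^ 2 * 3 := by gcongr
  have h8 : x ^ 2 ≤ x * (2 / 3) := by nlinarith
  have h9 : 8 / (3 * z) = 2 * (4 / (3 * z)) := by ring
  rw [h9]
  linarith

lemma base_low {X : ℝ} (hX : 1 ≤ X) (hz : 2 ≤ z) (hw : ‖w - z‖ ≤ z / 4)
    (he : e = 1 ∨ e = -1) :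
    (1 + X / z) / 30 ≤ ‖1 + (X : ℂ) * log (w / (w - e)) * I‖ := by
  have hz0 : 0 < z := by linarith
  have hX0 : 0 < X := by linarith
  have hup := geo_up hz hw he
  have hlo := geo_low hz hw he
  set u := log (w / (w - e)) with hu
  rcases le_total (X / z) (3 / 16) with h | h
  · have h1 : ‖(X : ℂ) * u * I‖ ≤ 1 / 2 := by
      rw [norm_mul, norm_mul, norm_I, mul_one, norm_real, Real.norm_of_nonneg hX0.le]
      calc X * ‖u‖ ≤ X * (8 / (3 * z)) := by gcongr
        _ = 8 / 3 * (X / z) := by ring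
        _ ≤ 1 / 2 := by linarith
    have h2 : 1 - ‖(X : ℂ) * u * I‖ ≤ ‖1 + (X : ℂ) * u * I‖ := by
      have := norm_sub_norm_le (1 : ℂ) (-((X : ℂ) * u * I))
      simpa using this
    linarith
  · have h1 : (1 + (X : ℂ) * u * I).im = X * u.re := by simp
    have h2 := abs_im_le_norm (1 + (X : ℂ) * u * I)
    rw [h1, abs_mul, abs_of_pos hX0] at h2
    have h3 : X * (8 / (33 * z)) ≤ X * |u.re| := by gcongr
    have h4 : X * (8 / (33 * z)) = 8 / 33 * (X / z) := by ring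
    linarith

lemma base_slit {X : ℝ} (hX : 1 ≤ X) (hz : 2 ≤ z) (hw : ‖w - z‖ ≤ z / 4)
    (he : e = 1 ∨ e = -1) : 1 + (X : ℂ) * log (w / (w - e)) * I ∈ slitPlane := by
  have hz0 : 0 < z := by linarith
  have hX0 : 0 < X := by linarith
  have hlo := geo_low hz hw he
  refine Or.inr ?_
  have h1 : (1 + (X : ℂ) * log (w / (w - e)) * I).im = X * (log (w / (w - e))).re := by simp
  rw [h1]
  have h2 : 0 < 8 / (33 * z) := by positivity
  have h3 : (log (w / (w - e))).re ≠ 0 := by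
    intro h
    rw [h, abs_zero] at hlo
    linarith
  exact mul_ne_zero hX0.ne' h3

lemma HH_diff {X : ℝ} (hX : 1 ≤ X) (a c : ℂ) (hz : 2 ≤ z) (hw : ‖w - z‖ ≤ z / 4)
    (he : e = 1 ∨ e = -1) : DifferentiableAt ℂ (HH X a c e) w := by
  have hz0 : 0 < z := by linarith
  have h1 : w - e ≠ 0 := by
    intro h
    have := geo_sub_norm hz hw he
    rw [h, norm_zero] at this
    linarith
  have s1 : w * (w - e) ∈ slitPlane := Or.inl (geo_mul_re hz hw he)
  have s2 : w / (w - e) ∈ slitPlane := Or.inl (geo_div_re hz hw he)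
  have s3 := base_slit hX hz hw he
  have d1 : DifferentiableAt ℂ (fun w : ℂ => w * (w - (e : ℂ))) w := by fun_prop
  have d2 : DifferentiableAt ℂ (fun w : ℂ => w / (w - (e : ℂ))) w :=
    differentiableAt_id.div (differentiableAt_id.sub_const _) h1
  have d3 : DifferentiableAt ℂ (fun w : ℂ => log (w / (w - (e : ℂ)))) w := d2.clog s2
  have d4 : DifferentiableAt ℂ (fun w : ℂ => 1 + (X : ℂ) * log (w / (w - (e : ℂ))) * I) w :=
    ((d3.const_mul _).mul_const _).const_add _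
  exact (d1.cpow (differentiableAt_const _) s1).mul
    ((d4.cpow (differentiableAt_const _) s3).const_mul _)

end geo

lemma norm_cpow_bd {w s : ℂ} (hw : w ≠ 0) :
    ‖w ^ s‖ ≤ ‖w‖ ^ s.re * Real.exp (Real.pi * ‖s‖) := by
  rw [norm_cpow_of_ne_zero hw, div_eq_mul_inv, ← Real.exp_neg]
  gcongr
  have h1 := abs_arg_le_pi w
  have h2 := abs_im_le_norm s
  calc -(arg w * s.im) ≤ |arg w * s.im| := neg_le_abs _
    _ = |arg w| * |s.im| := abs_mul _ _
    _ ≤ Real.pi * ‖s‖ := by gcongr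

lemma rp1 {z : ℝ} (hz : 0 < z) {y : ℝ} (hy : 3 * z ^ 2 / 16 ≤ y) :
    y ^ (-(17 / 16) : ℝ) ≤ 29 * z ^ (-(17 / 8) : ℝ) := by
  have h0 : 0 < 3 * z ^ 2 / 16 := by positivity
  have h1 : y ^ (-(17 / 16) : ℝ) ≤ (3 * z ^ 2 / 16) ^ (-(17 / 16) : ℝ) :=
    Real.rpow_le_rpow_of_nonpos h0 hy (by norm_num)
  have h2 : (3 * z ^ 2 / 16) ^ (-(17 / 16) : ℝ) =
      (3 / 16) ^ (-(17 / 16) : ℝ) * z ^ (-(17 / 8) : ℝ) := by
    have h21 : 3 * z ^ 2 / 16 = (3 / 16) * z ^ (2 : ℝ) := by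
      rw [Real.rpow_two]
      ring
    rw [h21, Real.mul_rpow (by norm_num) (by positivity), ← Real.rpow_mul hz.le]
    norm_num
  have h3 : (3 / 16 : ℝ) ^ (-(17 / 16) : ℝ) ≤ 29 := by
    calc (3 / 16 : ℝ) ^ (-(17 / 16) : ℝ) ≤ (3 / 16 : ℝ) ^ (-2 : ℝ) :=
          Real.rpow_le_rpow_of_exponent_ge (by norm_num) (by norm_num) (by norm_num)
      _ ≤ 29 := by
          rw [Real.rpow_neg (by norm_num), Real.rpow_two]
          norm_num
  rw [h2] at h1
  exact h1.trans (mul_le_mul_of_nonneg_right h3 (Real.rpow_nonneg hz.le _))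

lemma rp2 {r b t : ℝ} (hr : 8 ≤ r) (hr2 : r ≤ 16) (hb : 1 ≤ b) (ht : b / 30 ≤ t) :
    t ^ (-r) ≤ 30 ^ 16 * b ^ (-8 : ℝ) := by
  have hb0 : 0 < b := by linarith
  have h1 : t ^ (-r) ≤ (b / 30) ^ (-r) :=
    Real.rpow_le_rpow_of_nonpos (by positivity) ht (by linarith)
  have h2 : (b / 30) ^ (-r) = 30 ^ r * b ^ (-r) := by
    rw [Real.div_rpow (by linarith) (by norm_num), Real.rpow_neg (by norm_num : (0 : ℝ) ≤ 30) r,
      div_inv_eq_mul, mul_comm]
  have h3 : b ^ (-r) ≤ b ^ (-8 : ℝ) := Real.rpow_le_rpow_of_exponent_le hb (by linarith)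
  have h4 : (30 : ℝ) ^ r ≤ 30 ^ (16 : ℝ) := Real.rpow_le_rpow_of_exponent_le (by norm_num) hr2
  have h5 : (30 : ℝ) ^ (16 : ℝ) = 30 ^ 16 := by exact_mod_cast Real.rpow_natCast 30 16
  rw [h5] at h4
  rw [h2] at h1
  exact h1.trans (mul_le_mul h4 h3 (Real.rpow_nonneg hb0.le _) (by norm_num))

lemma Gamma_bd {c : ℂ} (h8 : 8 ≤ c.re) (h16 : c.re ≤ 16) : ‖Gamma c‖ ≤ Real.Gamma 16 := by
  have h0 : 0 < c.re := by linarith
  have h1 : ‖Gamma c‖ ≤ Real.Gamma c.re := by
    rw [Complex.Gamma_eq_integral h0, Real.Gamma_eq_integral h0]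
    unfold GammaIntegral
    refine norm_integral_le_of_norm_le (Real.GammaIntegral_convergent h0) ?_
    rw [ae_restrict_iff' measurableSet_Ioi]
    filter_upwards with x hx
    rw [norm_mul, Complex.norm_of_nonneg (Real.exp_pos _).le, norm_cpow_eq_rpow_re_of_pos hx]
    simp
  refine h1.trans ?_
  exact Real.Gamma_strictMonoOn_Ici.monotoneOn (Set.mem_Ici.2 (by linarith))
    (Set.mem_Ici.2 (by norm_num)) h16

/-- The size of `HH` on the disc. -/
lemma HH_bound : ∃ L : ℝ, 0 < L ∧ ∀ (X : ℝ), 1 ≤ X → ∀ a c : ℂ, a.re = 9 / 16 → 8 ≤ c.re →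
    c.re ≤ 16 → ∀ e : ℤ, e = 1 ∨ e = -1 → ∀ (z : ℝ) (w : ℂ), 2 ≤ z → ‖w - z‖ ≤ z / 4 →
    ‖HH X a c e w‖ ≤ Real.exp (L * (‖a‖ + ‖c‖)) * z ^ (-(17 / 8) : ℝ) *
      (1 + X / z) ^ (-8 : ℝ) := by
  set M : ℝ := 29 * Real.Gamma 16 * 30 ^ 16 with hM
  have hG : 0 < Real.Gamma 16 := Real.Gamma_pos_of_pos (by norm_num)
  have hM0 : 0 < M := by positivity
  refine ⟨2 * Real.pi + |Real.log M|, by positivity, ?_⟩
  intro X hX a c ha h8 h16 e he z w hz hw
  have hz0 : 0 < z := by linarith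
  have hX0 : 0 < X := by linarith
  have hXz : 0 < X / z := by positivity
  have hc8 : 8 ≤ ‖c‖ := h8.trans ((le_abs_self _).trans (abs_re_le_norm c))
  have hmn := geo_mul_norm hz hw he
  have hm0 : w * (w - e) ≠ 0 := by
    intro h
    rw [h, norm_zero] at hmn
    have : 0 < 3 * z ^ 2 / 16 := by positivity
    linarith
  have hb := base_low hX hz hw he
  have hb0 : 1 + (X : ℂ) * log (w / (w - e)) * I ≠ 0 := by
    intro h
    rw [h, norm_zero] at hb
    linarith
  have f1 : ‖(w * (w - e)) ^ (-(1 / 2 + a))‖ ≤ 29 * z ^ (-(17 / 8) : ℝ) *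
      Real.exp (Real.pi * (1 / 2 + ‖a‖)) := by
    refine (norm_cpow_bd hm0).trans ?_
    have hre : (-(1 / 2 + a)).re = -(17 / 16) := by
      simp [ha]
      norm_num
    have hn : ‖-(1 / 2 + a)‖ ≤ 1 / 2 + ‖a‖ := by
      rw [norm_neg]
      refine (norm_add_le _ _).trans ?_
      norm_num
    rw [hre]
    have := rp1 hz0 hmn
    gcongr
  have f2 : ‖(1 + (X : ℂ) * log (w / (w - e)) * I) ^ (-c)‖ ≤
      30 ^ 16 * (1 + X / z) ^ (-8 : ℝ) * Real.exp (Real.pi * ‖c‖) := by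
    refine (norm_cpow_bd hb0).trans ?_
    rw [norm_neg, neg_re]
    have := rp2 h8 h16 (by linarith : 1 ≤ 1 + X / z) hb
    gcongr
  have f3 := Gamma_bd h8 h16
  have hMl : M ≤ Real.exp (|Real.log M|) := by
    calc M = Real.exp (Real.log M) := (Real.exp_log hM0).symm
      _ ≤ _ := Real.exp_le_exp.2 (le_abs_self _)
  have hexp : M * (Real.exp (Real.pi * (1 / 2 + ‖a‖)) * Real.exp (Real.pi * ‖c‖)) ≤
      Real.exp ((2 * Real.pi + |Real.log M|) * (‖a‖ + ‖c‖)) := by
    calc M * (Real.exp (Real.pi * (1 / 2 + ‖a‖)) * Real.exp (Real.pi * ‖c‖))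
        ≤ Real.exp (|Real.log M|) *
          (Real.exp (Real.pi * (1 / 2 + ‖a‖)) * Real.exp (Real.pi * ‖c‖)) := by gcongr
      _ = Real.exp (|Real.log M| + (Real.pi * (1 / 2 + ‖a‖) + Real.pi * ‖c‖)) := by
          rw [Real.exp_add, Real.exp_add]
      _ ≤ _ := by
          apply Real.exp_le_exp.2
          have hp := Real.pi_pos
          have ha0 := norm_nonneg a
          have hl := abs_nonneg (Real.log M)
          have h1 : |Real.log M| * 1 ≤ |Real.log M| * (‖a‖ + ‖c‖) := by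
            apply mul_le_mul_of_nonneg_left _ hl
            linarith
          have h2 : Real.pi * (1 / 2 + ‖a‖) + Real.pi * ‖c‖ ≤ 2 * Real.pi * (‖a‖ + ‖c‖) := by
            nlinarith
          linarith
  unfold HH
  rw [norm_mul, norm_mul]
  calc ‖(w * (w - e)) ^ (-(1 / 2 + a))‖ *
        (‖Gamma c‖ * ‖(1 + (X : ℂ) * log (w / (w - e)) * I) ^ (-c)‖)
      ≤ (29 * z ^ (-(17 / 8) : ℝ) * Real.exp (Real.pi * (1 / 2 + ‖a‖))) *
        (Real.Gamma 16 * (30 ^ 16 * (1 + X / z) ^ (-8 : ℝ) * Real.exp (Real.pi * ‖c‖))) := by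
        gcongr
    _ = (M * (Real.exp (Real.pi * (1 / 2 + ‖a‖)) * Real.exp (Real.pi * ‖c‖))) *
        z ^ (-(17 / 8) : ℝ) * (1 + X / z) ^ (-8 : ℝ) := by
        rw [hM]
        ring
    _ ≤ _ := by gcongr

/-- The domain of holomorphy used below. -/
def U : Set ℂ := ⋃ z ∈ Set.Ici (2 : ℝ), ball (z : ℂ) (z / 4)

lemma U_open : IsOpen U := isOpen_biUnion fun _ _ => isOpen_ball

lemma mem_U {x : ℝ} (hx : 3 / 2 < x) : (x : ℂ) ∈ U := by
  unfold U
  simp only [Set.mem_iUnion, Set.mem_Ici, mem_ball, exists_prop]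
  refine ⟨max 2 x, le_max_left _ _, ?_⟩
  rw [dist_eq, ← ofReal_sub, norm_real, Real.norm_eq_abs]
  rcases le_total x 2 with h | h
  · rw [max_eq_left h, abs_sub_comm, abs_of_nonneg (by linarith)]
    linarith
  · rw [max_eq_right h, sub_self, abs_zero]
    linarith

section der

variable {X : ℝ} {a c : ℂ} {e : ℤ}

lemma HH_analytic (hX : 1 ≤ X) (he : e = 1 ∨ e = -1) : AnalyticOnNhd ℂ (HH X a c e) U := by
  apply DifferentiableOn.analyticOnNhd _ U_open
  intro w hw
  unfold U at hw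
  simp only [Set.mem_iUnion, Set.mem_Ici, mem_ball, exists_prop] at hw
  obtain ⟨z, hz, hwz⟩ := hw
  rw [dist_eq] at hwz
  exact (HH_diff hX a c hz hwz.le he).differentiableWithinAt

lemma HH_contDiffAt (hX : 1 ≤ X) (he : e = 1 ∨ e = -1) (n : ℕ) {x : ℝ} (hx : 3 / 2 < x) :
    ContDiffAt ℝ n (fun y : ℝ => HH X a c e y) x := by
  have h1 : ContDiffAt ℂ n (HH X a c e) x := (HH_analytic hX he x (mem_U hx)).contDiffAt
  have h2 : ContDiffAt ℝ n (HH X a c e) (ofRealCLM x) := h1.restrict_scalars ℝ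
  exact h2.comp x ofRealCLM.contDiff.contDiffAt

lemma iter_real (hX : 1 ≤ X) (he : e = 1 ∨ e = -1) (n : ℕ) :
    ∀ x : ℝ, 3 / 2 < x → iteratedDeriv n (fun y : ℝ => HH X a c e y) x =
      iteratedDeriv n (HH X a c e) x := by
  induction n with
  | zero => intro x _; simp
  | succ n ih =>
    intro x hx
    rw [iteratedDeriv_succ, iteratedDeriv_succ]
    have h1 : iteratedDeriv n (fun y : ℝ => HH X a c e y) =ᶠ[𝓝 x]
        fun y : ℝ => iteratedDeriv n (HH X a c e) y := by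
      filter_upwards [Ioi_mem_nhds hx] with y hy
      exact ih y hy
    rw [h1.deriv_eq]
    have h2 : AnalyticAt ℂ (iteratedDeriv n (HH X a c e)) x := by
      rw [iteratedDeriv_eq_iterate]
      exact (HH_analytic hX he).iterated_deriv n x (mem_U hx)
    exact h2.differentiableAt.hasDerivAt.comp_ofReal.deriv

lemma cauchy (hX : 1 ≤ X) (he : e = 1 ∨ e = -1) (n : ℕ) {z B : ℝ} (hz : 2 ≤ z)
    (hB : ∀ w : ℂ, ‖w - z‖ ≤ z / 4 → ‖HH X a c e w‖ ≤ B) :
    ‖iteratedDeriv n (fun y : ℝ => HH X a c e y) z‖ ≤ n.factorial * B * 4 ^ n / z ^ n := by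
  have hz0 : 0 < z := by linarith
  rw [iter_real hX he n z (by linarith)]
  have hd : DifferentiableOn ℂ (HH X a c e) (closedBall (z : ℂ) (z / 4)) := by
    intro w hw
    rw [mem_closedBall, dist_eq] at hw
    exact (HH_diff hX a c hz hw he).differentiableWithinAt
  have h := norm_iteratedDeriv_le_of_forall_mem_sphere_norm_le n (by positivity : 0 < z / 4)
    (hd.diffContOnCl_ball subset_rfl) (C := B) (fun w hw => hB w (by
      rw [mem_sphere, dist_eq] at hw
      exact hw.le))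
  refine h.trans (le_of_eq ?_)
  rw [div_pow]
  field_simp

end der

/-- The cutoff. -/
noncomputable def chi (z : ℝ) : ℂ := (Real.smoothTransition (z - 2) : ℂ)

lemma chi_contDiff (n : ℕ) : ContDiff ℝ n chi := by
  unfold chi
  exact ofRealCLM.contDiff.comp
    (Real.smoothTransition.contDiff.comp (contDiff_id.sub contDiff_const))

lemma chi_bound (i : ℕ) : ∃ K : ℝ, 1 ≤ K ∧ ∀ z : ℝ, 2 ≤ z → ‖iteratedDeriv i chi z‖ ≤ K / z ^ i := by
  have hcont : Continuous (iteratedDeriv i chi) :=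
    (chi_contDiff i).continuous_iteratedDeriv i le_rfl
  obtain ⟨K0, hK0⟩ := (isCompact_Icc (a := (2 : ℝ)) (b := 3)).exists_bound_of_continuousOn
    hcont.continuousOn
  refine ⟨max K0 1 * 3 ^ i, ?_, ?_⟩
  · have h1 : (1 : ℝ) ≤ 3 ^ i := one_le_pow₀ (by norm_num)
    have h2 : (1 : ℝ) ≤ max K0 1 := le_max_right _ _
    nlinarith
  · intro z hz
    have hz0 : 0 < z := by linarith
    have hK1 : (0 : ℝ) < max K0 1 := lt_of_lt_of_le one_pos (le_max_right _ _)
    rcases le_or_gt z 3 with h | h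
    · have h1 := (hK0 z ⟨hz, h⟩).trans (le_max_left K0 1)
      refine h1.trans ?_
      rw [le_div_iff₀ (by positivity)]
      gcongr
    · have h1 : chi =ᶠ[𝓝 z] fun _ => 1 := by
        filter_upwards [Ioi_mem_nhds h] with y hy
        have : 1 ≤ y - 2 := by
          have := Set.mem_Ioi.1 hy
          linarith
        simp [chi, Real.smoothTransition.one_of_one_le this]
      rw [h1.iteratedDeriv_eq i, iteratedDeriv_const]
      split_ifs with h0
      · subst h0
        simp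
      · rw [norm_zero]
        positivity

lemma Gz_zero (X : ℝ) (a c : ℂ) (e : ℤ) {z : ℝ} (hz : z ≤ 2) : Gz X a c e z = 0 := by
  unfold Gz
  rw [Real.smoothTransition.zero_of_nonpos (by linarith)]
  simp

lemma Gz_eq (X : ℝ) (a c : ℂ) {e : ℤ} (he : e = 1 ∨ e = -1) {x : ℝ} (hx : 3 / 2 < x) :
    Gz X a c e x = chi x * HH X a c e x := by
  have he1 : (e : ℝ) ≤ 1 := by rcases he with rfl | rfl <;> norm_num
  have h1 : 0 ≤ x / (x - e) := div_nonneg (by linarith) (by linarith)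
  unfold Gz HH KX chi
  have h2 : ((Real.log (x / (x - e)) : ℝ) : ℂ) = log ((x : ℂ) / ((x : ℂ) - e)) := by
    rw [ofReal_log h1]
    push_cast
    rfl
  have h3 : ((X * Real.log (x / (x - e)) : ℝ) : ℂ) = (X : ℂ) * log ((x : ℂ) / ((x : ℂ) - e)) := by
    rw [ofReal_mul, h2]
  have h4 : ((x * (x - e) : ℝ) : ℂ) = (x : ℂ) * ((x : ℂ) - e) := by
    push_cast
    rfl
  rw [h3, h4, mul_assoc]

lemma Gz_ev (X : ℝ) (a c : ℂ) {e : ℤ} (he : e = 1 ∨ e = -1) {x : ℝ} (hx : 3 / 2 < x) :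
    Gz X a c e =ᶠ[𝓝 x] chi * fun y : ℝ => HH X a c e y := by
  filter_upwards [Ioi_mem_nhds hx] with y hy
  rw [Pi.mul_apply]
  exact Gz_eq X a c he hy

lemma Gz_contDiff {X : ℝ} (hX : 1 ≤ X) (a c : ℂ) {e : ℤ} (he : e = 1 ∨ e = -1) :
    ContDiff ℝ 3 (Gz X a c e) := by
  rw [contDiff_iff_contDiffAt]
  intro x
  rcases lt_or_ge x 2 with h | h
  · have h1 : Gz X a c e =ᶠ[𝓝 x] fun _ => 0 := by
      filter_upwards [Iio_mem_nhds h] with y hy
      exact Gz_zero X a c e (Set.mem_Iio.1 hy).le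
    exact contDiffAt_const.congr_of_eventuallyEq h1
  · have h1 := Gz_ev X a c he (x := x) (by linarith)
    refine ContDiffAt.congr_of_eventuallyEq ?_ h1
    exact (chi_contDiff 3).contDiffAt.mul (HH_contDiffAt hX he 3 (by linarith))

end GzAux

open GzAux in
theorem stGz : StGz := by
  obtain ⟨L, hL0, hL⟩ := HH_bound
  choose K hK1 hK using chi_bound
  set KK : ℝ := K 0 + K 1 + K 2 + K 3 with hKK
  have hKle : ∀ i : ℕ, i ≤ 3 → K i ≤ KK := by
    intro i hi
    have h0 := hK1 0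
    have h1 := hK1 1
    have h2 := hK1 2
    have h3 := hK1 3
    interval_cases i <;> linarith
  have hKK0 : 0 < KK := by
    have := hK1 0
    have := hKle 0 (by norm_num)
    linarith
  set M : ℝ := 8 * KK * (6 * 64) with hM
  have hM0 : 0 < M := by positivity
  refine ⟨L + |Real.log M|, by positivity, ?_⟩
  intro X hX a c ha h8 h16 e he
  refine ⟨Gz_contDiff hX a c he, fun z hz => Gz_zero X a c e hz, ?_⟩
  intro i hi z hz
  have hz0 : 0 < z := by linarith
  have hXz : 0 < X / z := by positivity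
  have hc8 : 8 ≤ ‖c‖ := h8.trans ((le_abs_self _).trans (Complex.abs_re_le_norm c))
  set B : ℝ := Real.exp (L * (‖a‖ + ‖c‖)) * z ^ (-(17 / 8) : ℝ) * (1 + X / z) ^ (-8 : ℝ) with hB
  have hB0 : 0 < B := by positivity
  have hHB : ∀ w : ℂ, ‖w - z‖ ≤ z / 4 → ‖HH X a c e w‖ ≤ B := fun w hw =>
    hL X hX a c ha h8 h16 e he z w hz hw
  have hmain : ‖iteratedDeriv i (Gz X a c e) z‖ ≤ M * B / z ^ i := by
    rw [(Gz_ev X a c he (x := z) (by linarith)).iteratedDeriv_eq i]
    have hmul : iteratedDeriv i (chi * fun y : ℝ => HH X a c e y) z =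
        ∑ j ∈ Finset.range (i + 1), (i.choose j) * iteratedDeriv j chi z *
          iteratedDeriv (i - j) (fun y : ℝ => HH X a c e y) z := by
      have := iteratedDerivWithin_mul (n := i) (s := Set.univ) (x := z) (Set.mem_univ z)
        uniqueDiffOn_univ
        (f := chi) (g := fun y : ℝ => HH X a c e y)
        ((chi_contDiff i).contDiffAt.contDiffWithinAt)
        ((HH_contDiffAt hX he i (by linarith)).contDiffWithinAt)
      simpa [iteratedDerivWithin_univ] using this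
    rw [hmul]
    refine (norm_sum_le _ _).trans ?_
    have hterm : ∀ j ∈ Finset.range (i + 1), ‖((i.choose j : ℕ) : ℂ) * iteratedDeriv j chi z *
        iteratedDeriv (i - j) (fun y : ℝ => HH X a c e y) z‖ ≤
        (i.choose j : ℕ) * (KK * (6 * 64) * B / z ^ i) := by
      intro j hj
      have hj' : j ≤ i := by
        have := Finset.mem_range.1 hj
        omega
      rw [norm_mul, norm_mul, norm_natCast, mul_assoc]
      apply mul_le_mul_of_nonneg_left _ (Nat.cast_nonneg _)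
      have h1 := hK j z hz
      have h2 := hKle j (hj'.trans hi)
      have h3 := cauchy (a := a) (c := c) hX he (i - j) hz hHB
      have h4 : (((i - j).factorial : ℕ) : ℝ) ≤ 6 := by
        have : (i - j).factorial ≤ Nat.factorial 3 := Nat.factorial_le (by omega)
        exact_mod_cast this
      have h5 : (4 : ℝ) ^ (i - j) ≤ 64 := by
        calc (4 : ℝ) ^ (i - j) ≤ 4 ^ 3 := pow_le_pow_right₀ (by norm_num) (by omega)
          _ = 64 := by norm_num
      have h6 : z ^ i = z ^ j * z ^ (i - j) := by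
        rw [← pow_add]
        congr 1
        omega
      calc ‖iteratedDeriv j chi z‖ * ‖iteratedDeriv (i - j) (fun y : ℝ => HH X a c e y) z‖
          ≤ (KK / z ^ j) * (6 * B * 64 / z ^ (i - j)) := by
            apply mul_le_mul (h1.trans (by gcongr)) (h3.trans (by gcongr)) (norm_nonneg _)
              (by positivity)
        _ = KK * (6 * 64) * B / z ^ i := by
            rw [h6]
            field_simp
    refine (Finset.sum_le_sum hterm).trans ?_
    rw [← Finset.sum_mul]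
    have h7 : ∑ j ∈ Finset.range (i + 1), ((i.choose j : ℕ) : ℝ) ≤ 8 := by
      have h8 : ∑ j ∈ Finset.range (i + 1), i.choose j = 2 ^ i := Nat.sum_range_choose i
      have h9 : (2 : ℕ) ^ i ≤ 2 ^ 3 := Nat.pow_le_pow_right (by norm_num) hi
      have h10 : ∑ j ∈ Finset.range (i + 1), i.choose j ≤ 8 := by omega
      exact_mod_cast h10
    calc (∑ j ∈ Finset.range (i + 1), ((i.choose j : ℕ) : ℝ)) * (KK * (6 * 64) * B / z ^ i)
        ≤ 8 * (KK * (6 * 64) * B / z ^ i) := by gcongr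
      _ = M * B / z ^ i := by
          rw [hM]
          ring
  refine hmain.trans ?_
  have hMl : M ≤ Real.exp (|Real.log M|) := by
    calc M = Real.exp (Real.log M) := (Real.exp_log hM0).symm
      _ ≤ _ := Real.exp_le_exp.2 (le_abs_self _)
  have hzi : z ^ (-(17 / 8) - i : ℝ) = z ^ (-(17 / 8) : ℝ) / z ^ i := by
    rw [Real.rpow_sub hz0, Real.rpow_natCast]
  rw [hzi]
  have hexp : M * Real.exp (L * (‖a‖ + ‖c‖)) ≤
      Real.exp ((L + |Real.log M|) * (‖a‖ + ‖c‖)) := by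
    calc M * Real.exp (L * (‖a‖ + ‖c‖)) ≤ Real.exp (|Real.log M|) *
          Real.exp (L * (‖a‖ + ‖c‖)) := by gcongr
      _ = Real.exp (|Real.log M| + L * (‖a‖ + ‖c‖)) := by rw [Real.exp_add]
      _ ≤ _ := by
          apply Real.exp_le_exp.2
          have hl := abs_nonneg (Real.log M)
          have ha0 := norm_nonneg a
          have h1 : |Real.log M| * 1 ≤ |Real.log M| * (‖a‖ + ‖c‖) := by
            apply mul_le_mul_of_nonneg_left _ hl
            linarith
          linarith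
  calc M * B / z ^ i = (M * Real.exp (L * (‖a‖ + ‖c‖))) * (z ^ (-(17 / 8) : ℝ) / z ^ i) *
        (1 + X / z) ^ (-8 : ℝ) := by
        rw [hB]
        ring
    _ ≤ _ := by gcongr

end F4
end Pool.Agent.Lib.MP_973905_nt
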