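import Pool.Agent.Lib.MP_973905_nt.F4.Stmts

/-! (N2) incomplete sums of Kloosterman type. -/

namespace Pool.Agent.Lib.MP_973905_nt
namespace F4
namespace Inc

open Finset MP_0e0027_nt

/-- A sum over the residues with given greatest common divisor is a sum over units. -/
theorem sum_gcd_eq (D q : ℕ) [NeZero q] (hD : 1 ≤ D) (G : ℕ → ℂ) :
    ∑ x ∈ (range (D * q)).filter (fun x ↦ Nat.gcd x (D * q) = D), G x =
      ∑ u : (ZMod q)ˣ, G (D * (u : ZMod q).val) := by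
  symm
  have hq : 0 < q := Nat.pos_of_ne_zero (NeZero.ne q)
  apply sum_bij (fun (u : (ZMod q)ˣ) _ ↦ D * (u : ZMod q).val)
  · intro u _
    rw [mem_filter, mem_range]
    refine ⟨Nat.mul_lt_mul_of_pos_left (ZMod.val_lt _) hD, ?_⟩
    rw [Nat.gcd_mul_left]
    have := ZMod.val_coe_unit_coprime u
    rw [Nat.Coprime] at this
    rw [this, mul_one]
  · intro u _ v _ h
    have h1 := Nat.eq_of_mul_eq_mul_left hD h
    exact Units.ext (ZMod.val_injective q h1)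
  · intro x hx
    rw [mem_filter, mem_range] at hx
    have h1 : D ∣ x := by rw [← hx.2]; exact Nat.gcd_dvd_left _ _
    obtain ⟨y, rfl⟩ := h1
    have h2 : y < q := lt_of_mul_lt_mul_left hx.1 (Nat.zero_le _)
    have h3 : Nat.Coprime y q := by
      have h4 := hx.2
      rw [Nat.gcd_mul_left] at h4
      exact Nat.eq_of_mul_eq_mul_left hD (by rw [h4, mul_one])
    refine ⟨ZMod.unitOfCoprime y h3, mem_univ _, ?_⟩
    rw [ZMod.coe_unitOfCoprime, ZMod.val_natCast_of_lt h2]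
  · intro u _
    rfl

/-- The number of solutions of a linear equation. -/
theorem card_fiber_le (q : ℕ) [NeZero q] (d : ℕ) (hd : 1 ≤ d) (m : ZMod q) :
    (univ.filter (fun v : ZMod q ↦ -(v * (d : ZMod q)) = m)).card ≤ d := by
  have h0 : zc (d : ZMod q) ≤ d :=
    le_trans (zc_le_gcd d) (Nat.gcd_le_left _ hd)
  refine le_trans ?_ h0
  unfold zc
  rcases (univ.filter (fun v : ZMod q ↦ -(v * (d : ZMod q)) = m)).eq_empty_or_nonempty with h | h
  · rw [h]; simp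
  · obtain ⟨v0, hv0⟩ := h
    simp only [mem_filter, mem_univ, true_and] at hv0
    apply card_le_card_of_injOn (fun v : ZMod q ↦ v - v0)
    · intro v hv
      simp only [coe_filter, mem_univ, true_and, Set.mem_ofPred_eq] at hv ⊢
      linear_combination hv0 - hv
    · intro v _ v' _ h
      simp only at h
      linear_combination h

theorem sum_fiber_le (q : ℕ) [NeZero q] (d : ℕ) (hd : 1 ≤ d) (f : ZMod q → ℝ) (hf : ∀ m, 0 ≤ f m) :
    ∑ v : ZMod q, f (-(v * (d : ZMod q))) ≤ d * ∑ m : ZMod q, f m := by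
  have h1 : ∑ v : ZMod q, f (-(v * (d : ZMod q))) =
      ∑ m : ZMod q, ∑ v ∈ univ.filter (fun v : ZMod q ↦ -(v * (d : ZMod q)) = m),
        f (-(v * (d : ZMod q))) :=
    (sum_fiberwise_of_maps_to (fun _ _ ↦ mem_univ _) _).symm
  rw [h1, mul_sum]
  apply sum_le_sum
  intro m _
  have h2 : ∑ v ∈ univ.filter (fun v : ZMod q ↦ -(v * (d : ZMod q)) = m),
        f (-(v * (d : ZMod q))) =
      ∑ v ∈ univ.filter (fun v : ZMod q ↦ -(v * (d : ZMod q)) = m), f m := by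
    apply sum_congr rfl
    intro v hv
    rw [mem_filter] at hv
    rw [hv.2]
  rw [h2, sum_const, nsmul_eq_mul]
  apply mul_le_mul_of_nonneg_right _ (hf m)
  exact_mod_cast card_fiber_le q d hd m

theorem norm_sum_Icc (q : ℕ) [NeZero q] (Y : ℕ) (m : ZMod q) :
    ‖∑ n ∈ Icc 1 Y, (ZMod.stdAddChar (m * (n : ZMod q)) : ℂ)‖ = ‖gam Y (-m)‖ := by
  have h1 : ∑ n ∈ Icc 1 Y, (ZMod.stdAddChar (m * (n : ZMod q)) : ℂ) =
      (ZMod.stdAddChar m : ℂ) * gam Y (-m) := by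
    unfold gam
    rw [mul_sum, range_eq_Ico, ← Ico_add_one_right_eq_Icc,
      ← sum_Ico_add' (fun n ↦ (ZMod.stdAddChar (m * ((n : ℕ) : ZMod q)) : ℂ)) 0 Y 1]
    refine sum_congr rfl (fun u _ ↦ ?_)
    rw [← AddChar.map_add_eq_mul]
    congr 1
    push_cast
    ring
  rw [h1, norm_mul]
  have : ‖(ZMod.stdAddChar m : ℂ)‖ = 1 := by
    rw [ZMod.stdAddChar_apply]; exact Circle.norm_coe _
  rw [this, one_mul]

/-- The sum over units and over an interval in terms of Kloosterman sums. -/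
theorem unit_sum_eq (q : ℕ) [NeZero q] (d Y : ℕ) (J r : ZMod q) :
    ∑ n ∈ Icc 1 Y, ∑ u : (ZMod q)ˣ,
      (if (u : ZMod q) * ((n * d : ℕ) : ZMod q) = r then
        (ZMod.stdAddChar (J * (u : ZMod q)) : ℂ) else 0) =
      (1 / (q : ℂ)) * ∑ v : ZMod q,
        (∑ n ∈ Icc 1 Y, (ZMod.stdAddChar ((v * (d : ZMod q)) * (n : ZMod q)) : ℂ)) *
          Kl J (-(v * r)) := by
  have hq0 : (q : ℂ) ≠ 0 := by
    have := NeZero.ne q; exact_mod_cast this
  have h1 : ∀ (n : ℕ) (u : (ZMod q)ˣ),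
      (if (u : ZMod q) * ((n * d : ℕ) : ZMod q) = r then
        (ZMod.stdAddChar (J * (u : ZMod q)) : ℂ) else 0) =
      (1 / (q : ℂ)) * ∑ v : ZMod q, (ZMod.stdAddChar ((v * (d : ZMod q)) * (n : ZMod q)) : ℂ) *
        (ZMod.stdAddChar (J * (u : ZMod q) + (-(v * r)) * ((u⁻¹ : (ZMod q)ˣ) : ZMod q)) : ℂ) := by
    intro n u
    have h2 : ∀ v : ZMod q, (ZMod.stdAddChar ((v * (d : ZMod q)) * (n : ZMod q)) : ℂ) *
        (ZMod.stdAddChar (J * (u : ZMod q) + (-(v * r)) * ((u⁻¹ : (ZMod q)ˣ) : ZMod q)) : ℂ) =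
        (ZMod.stdAddChar (J * (u : ZMod q)) : ℂ) *
          (ZMod.stdAddChar (v * (((n * d : ℕ) : ZMod q) - r * ((u⁻¹ : (ZMod q)ˣ) : ZMod q))) : ℂ) := by
      intro v
      rw [← AddChar.map_add_eq_mul, ← AddChar.map_add_eq_mul]
      congr 1
      push_cast
      ring
    rw [sum_congr rfl (fun v _ ↦ h2 v), ← mul_sum, sum_psi]
    have h3 : (((n * d : ℕ) : ZMod q) - r * ((u⁻¹ : (ZMod q)ˣ) : ZMod q) = 0) ↔
        (u : ZMod q) * ((n * d : ℕ) : ZMod q) = r := by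
      have hu : (u : ZMod q) * ((u⁻¹ : (ZMod q)ˣ) : ZMod q) = 1 := u.mul_inv
      constructor
      · intro h
        linear_combination (u : ZMod q) * h + r * hu
      · intro h
        linear_combination ((u⁻¹ : (ZMod q)ˣ) : ZMod q) * h - ((n * d : ℕ) : ZMod q) * hu
    by_cases h4 : (u : ZMod q) * ((n * d : ℕ) : ZMod q) = r
    · rw [if_pos h4, if_pos (h3.mpr h4)]
      field_simp
    · rw [if_neg h4, if_neg (fun h ↦ h4 (h3.mp h))]
      simp
  have h5 : ∑ n ∈ Icc 1 Y, ∑ u : (ZMod q)ˣ,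
      (if (u : ZMod q) * ((n * d : ℕ) : ZMod q) = r then
        (ZMod.stdAddChar (J * (u : ZMod q)) : ℂ) else 0) =
      ∑ n ∈ Icc 1 Y, ∑ u : (ZMod q)ˣ, (1 / (q : ℂ)) * ∑ v : ZMod q,
        (ZMod.stdAddChar ((v * (d : ZMod q)) * (n : ZMod q)) : ℂ) *
        (ZMod.stdAddChar (J * (u : ZMod q) + (-(v * r)) * ((u⁻¹ : (ZMod q)ˣ) : ZMod q)) : ℂ) :=
    sum_congr rfl (fun n _ ↦ sum_congr rfl (fun u _ ↦ h1 n u))
  rw [h5]
  simp only [← mul_sum]
  congr 1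
  have h6 : ∀ n : ℕ, ∑ u : (ZMod q)ˣ, ∑ v : ZMod q,
        (ZMod.stdAddChar ((v * (d : ZMod q)) * (n : ZMod q)) : ℂ) *
        (ZMod.stdAddChar (J * (u : ZMod q) + (-(v * r)) * ((u⁻¹ : (ZMod q)ˣ) : ZMod q)) : ℂ) =
      ∑ v : ZMod q, (ZMod.stdAddChar ((v * (d : ZMod q)) * (n : ZMod q)) : ℂ) * Kl J (-(v * r)) := by
    intro n
    rw [sum_comm]
    refine sum_congr rfl (fun v _ ↦ ?_)
    unfold Kl
    rw [mul_sum]
  rw [sum_congr rfl (fun n _ ↦ h6 n), sum_comm]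
  refine sum_congr rfl (fun v _ ↦ ?_)
  rw [sum_mul]

theorem unit_sum_bound (q : ℕ) [NeZero q] (d Y : ℕ) (hd : 1 ≤ d) (J r : ZMod q) (B : ℝ)
    (hB : ∀ v : ZMod q, ‖Kl J v‖ ≤ B) :
    ‖∑ n ∈ Icc 1 Y, ∑ u : (ZMod q)ˣ,
      (if (u : ZMod q) * ((n * d : ℕ) : ZMod q) = r then
        (ZMod.stdAddChar (J * (u : ZMod q)) : ℂ) else 0)‖ ≤
      B * d * ((Y : ℝ) / q + 1 + Real.log q) := by
  have hq0 : (0 : ℝ) < q := by
    have := Nat.pos_of_ne_zero (NeZero.ne q); exact_mod_cast this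
  have hB0 : 0 ≤ B := le_trans (norm_nonneg _) (hB 0)
  rw [unit_sum_eq, norm_mul]
  have h1 : ‖(1 / (q : ℂ))‖ = 1 / (q : ℝ) := by
    rw [norm_div, norm_one, Complex.norm_natCast]
  rw [h1]
  have h2 : ‖∑ v : ZMod q, (∑ n ∈ Icc 1 Y,
      (ZMod.stdAddChar ((v * (d : ZMod q)) * (n : ZMod q)) : ℂ)) * Kl J (-(v * r))‖ ≤
      ∑ v : ZMod q, ‖gam Y (-(v * (d : ZMod q)))‖ * B := by
    refine le_trans (norm_sum_le _ _) (sum_le_sum (fun v _ ↦ ?_))
    rw [norm_mul, norm_sum_Icc]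
    exact mul_le_mul_of_nonneg_left (hB _) (norm_nonneg _)
  have h3 : ∑ v : ZMod q, ‖gam Y (-(v * (d : ZMod q)))‖ ≤
      d * ∑ m : ZMod q, ‖gam Y m‖ :=
    sum_fiber_le q d hd (fun m ↦ ‖gam Y m‖) (fun m ↦ norm_nonneg _)
  have h4 := sum_gam_le (q := q) Y
  have h5 : ∑ v : ZMod q, ‖gam Y (-(v * (d : ZMod q)))‖ * B ≤
      d * (Y + q * (1 + Real.log q)) * B := by
    rw [← sum_mul]
    apply mul_le_mul_of_nonneg_right _ hB0
    refine le_trans h3 (mul_le_mul_of_nonneg_left h4 (Nat.cast_nonneg _))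
  calc 1 / (q : ℝ) * _ ≤ 1 / (q : ℝ) * (d * (Y + q * (1 + Real.log q)) * B) :=
        mul_le_mul_of_nonneg_left (le_trans h2 h5) (by positivity)
    _ = _ := by
        field_simp
        ring

/-- The terms with a fixed greatest common divisor. -/
theorem part_eq (D q : ℕ) [NeZero q] (hD : 1 ≤ D) (d n : ℕ) (r j : ℤ) :
    ∑ x ∈ (range (D * q)).filter (fun x ↦ Nat.gcd x (D * q) = D),
      (if ((D * q : ℕ) : ℤ) ∣ (x : ℤ) * (n * d : ℕ) - D * r then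
        Complex.exp (((2 * Real.pi * j * x / (D * q : ℕ) : ℝ) : ℂ) * Complex.I) else 0) =
      ∑ u : (ZMod q)ˣ, (if (u : ZMod q) * ((n * d : ℕ) : ZMod q) = (r : ZMod q) then
        (ZMod.stdAddChar ((j : ZMod q) * (u : ZMod q)) : ℂ) else 0) := by
  have hq0 : (q : ℝ) ≠ 0 := by
    have := NeZero.ne q; exact_mod_cast this
  have hD0 : (D : ℝ) ≠ 0 := by
    have : D ≠ 0 := by omega
    exact_mod_cast this
  rw [sum_gcd_eq D q hD (fun x ↦ if ((D * q : ℕ) : ℤ) ∣ (x : ℤ) * (n * d : ℕ) - D * r then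
        Complex.exp (((2 * Real.pi * j * x / (D * q : ℕ) : ℝ) : ℂ) * Complex.I) else 0)]
  refine sum_congr rfl (fun u _ ↦ ?_)
  have h1 : (((D * q : ℕ) : ℤ) ∣ ((D * (u : ZMod q).val : ℕ) : ℤ) * (n * d : ℕ) - D * r) ↔
      (u : ZMod q) * ((n * d : ℕ) : ZMod q) = (r : ZMod q) := by
    have h2 : ((D * (u : ZMod q).val : ℕ) : ℤ) * (n * d : ℕ) - D * r =
        (D : ℤ) * (((u : ZMod q).val : ℤ) * (n * d : ℕ) - r) := by push_cast; ring
    rw [h2]
    have h3 : ((D * q : ℕ) : ℤ) = (D : ℤ) * (q : ℤ) := by push_cast; ring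
    rw [h3, mul_dvd_mul_iff_left (by exact_mod_cast (show D ≠ 0 by omega)),
      ← ZMod.intCast_zmod_eq_zero_iff_dvd]
    have h4 : (((((u : ZMod q).val : ℤ) * (n * d : ℕ) - r : ℤ)) : ZMod q) =
        (u : ZMod q) * ((n * d : ℕ) : ZMod q) - (r : ZMod q) := by
      push_cast
      rw [ZMod.natCast_zmod_val]
    rw [h4, sub_eq_zero]
  have h5 : Complex.exp (((2 * Real.pi * j * ((D * (u : ZMod q).val : ℕ) : ℝ) / (D * q : ℕ) : ℝ) : ℂ) *
      Complex.I) = (ZMod.stdAddChar ((j : ZMod q) * (u : ZMod q)) : ℂ) := by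
    have h6 : (j : ZMod q) * (u : ZMod q) = ((j * ((u : ZMod q).val : ℤ) : ℤ) : ZMod q) := by
      push_cast
      rw [ZMod.natCast_zmod_val]
    rw [h6, ZMod.stdAddChar_coe]
    congr 1
    push_cast
    have hq1 : (q : ℂ) ≠ 0 := by
      have := NeZero.ne q; exact_mod_cast this
    have hD1 : (D : ℂ) ≠ 0 := by
      have : D ≠ 0 := by omega
      exact_mod_cast this
    field_simp
  by_cases h7 : (u : ZMod q) * ((n * d : ℕ) : ZMod q) = (r : ZMod q)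
  · rw [if_pos h7, if_pos (h1.mpr h7), h5]
  · rw [if_neg h7, if_neg (fun h ↦ h7 (h1.mp h))]

theorem part_zero (k D : ℕ) (hk : D ∣ k) (h : ℕ) (r j : ℤ) (hr : ¬ (D : ℤ) ∣ r) :
    ∑ x ∈ (range k).filter (fun x ↦ Nat.gcd x k = D),
      (if (k : ℤ) ∣ (x : ℤ) * h - r then
        Complex.exp (((2 * Real.pi * j * x / k : ℝ) : ℂ) * Complex.I) else 0) = 0 := by
  apply sum_eq_zero
  intro x hx
  rw [mem_filter] at hx
  rw [if_neg]
  intro h1
  apply hr
  have h2 : (D : ℤ) ∣ (x : ℤ) * h - r := dvd_trans (by exact_mod_cast hk) h1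
  have h3 : (D : ℤ) ∣ (x : ℤ) := by
    have : D ∣ x := by rw [← hx.2]; exact Nat.gcd_dvd_left _ _
    exact_mod_cast this
  have h4 := dvd_sub (dvd_mul_of_dvd_left h3 (h : ℤ)) h2
  rwa [sub_sub_cancel] at h4

end Inc

open Finset Inc MP_0e0027_nt in
theorem stInc (h1 : StKl) : StInc := by
  obtain ⟨C, hC, hKl⟩ := h1
  refine ⟨1001 * C, by positivity, ?_⟩
  intro k d hk hd r j hr hj Y
  have hk0 : (0 : ℝ) < k := by exact_mod_cast hk
  have hk1 : (1 : ℝ) ≤ k := by exact_mod_cast hk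
  have hj0 : (0 : ℝ) < |(j : ℝ)| := abs_pos.mpr (by exact_mod_cast hj)
  have hr1 : (1 : ℝ) ≤ |(r : ℝ)| := by
    have : (1 : ℤ) ≤ |r| := Int.one_le_abs hr
    exact_mod_cast this
  have hlogk : 0 ≤ Real.log k := Real.log_nonneg hk1
  set F : ℕ → ℕ → ℂ := fun n x ↦ if (k : ℤ) ∣ (x : ℤ) * ((n * d : ℕ) : ℤ) - r then
        Complex.exp (((2 * Real.pi * j * x / k : ℝ) : ℂ) * Complex.I) else 0 with hF
  have h2 : ∑ n ∈ Icc 1 Y, rho k (n * d) r j =
      ∑ D ∈ k.divisors, ∑ n ∈ Icc 1 Y,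
        ∑ x ∈ (range k).filter (fun x ↦ Nat.gcd x k = D), F n x := by
    rw [sum_comm]
    refine sum_congr rfl (fun n _ ↦ ?_)
    unfold rho
    rw [← sum_fiberwise_of_maps_to (s := range k) (t := k.divisors) (g := fun x ↦ Nat.gcd x k)]
    intro x _
    exact Nat.mem_divisors.mpr ⟨Nat.gcd_dvd_right _ _, by omega⟩
  set P : ℝ := C * |(j : ℝ)| ^ (1 / 4 : ℝ) with hP
  have hP0 : 0 ≤ P := by positivity
  set W : ℝ := P * (k : ℝ) ^ (3 / 4 + 1 / 1000 : ℝ) * d * (((Y : ℝ) / k + 1) * (1 + Real.log k)) *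
    |(r : ℝ)| ^ (1 / 4 : ℝ) with hW
  have hW0 : 0 ≤ W := by positivity
  have h3 : ∀ D ∈ k.divisors, ‖∑ n ∈ Icc 1 Y,
        ∑ x ∈ (range k).filter (fun x ↦ Nat.gcd x k = D), F n x‖ ≤
      if (D : ℤ) ∣ r then W else 0 := by
    intro D hD
    obtain ⟨hDk, hk00⟩ := Nat.mem_divisors.mp hD
    by_cases hDr : (D : ℤ) ∣ r
    · rw [if_pos hDr]
      obtain ⟨r', rfl⟩ := hDr
      obtain ⟨q, rfl⟩ := hDk
      have hD1 : 1 ≤ D := Nat.pos_of_ne_zero (fun h ↦ hk00 (by rw [h, zero_mul]))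
      have hq1 : 1 ≤ q := Nat.pos_of_ne_zero (fun h ↦ hk00 (by rw [h, mul_zero]))
      have : NeZero q := ⟨by omega⟩
      have h4 : ∑ n ∈ Icc 1 Y,
          ∑ x ∈ (range (D * q)).filter (fun x ↦ Nat.gcd x (D * q) = D), F n x =
          ∑ n ∈ Icc 1 Y, ∑ u : (ZMod q)ˣ,
            (if (u : ZMod q) * ((n * d : ℕ) : ZMod q) = (r' : ZMod q) then
            (ZMod.stdAddChar ((j : ZMod q) * (u : ZMod q)) : ℂ) else 0) := by
        refine sum_congr rfl (fun n _ ↦ ?_)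
        exact part_eq D q hD1 d n r' j
      rw [h4]
      have hDR : (1 : ℝ) ≤ D := by exact_mod_cast hD1
      have hqR : (1 : ℝ) ≤ q := by exact_mod_cast hq1
      have hD0 : (0 : ℝ) < D := by linarith
      have hq0 : (0 : ℝ) < q := by linarith
      refine le_trans (unit_sum_bound q d Y hd (j : ZMod q) (r' : ZMod q) _
        (fun v ↦ hKl q j v hj)) ?_
      have hkq : ((D * q : ℕ) : ℝ) = D * q := by push_cast; ring
      have h5 : (q : ℝ) ^ (3 / 4 + 1 / 1000 : ℝ) * D ≤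
          ((D * q : ℕ) : ℝ) ^ (3 / 4 + 1 / 1000 : ℝ) * (D : ℝ) ^ (1 / 4 : ℝ) := by
        rw [hkq, Real.mul_rpow hD0.le hq0.le]
        have h6 : (D : ℝ) ≤ (D : ℝ) ^ (3 / 4 + 1 / 1000 : ℝ) * (D : ℝ) ^ (1 / 4 : ℝ) := by
          rw [← Real.rpow_add hD0]
          nth_rewrite 1 [← Real.rpow_one (D : ℝ)]
          exact Real.rpow_le_rpow_of_exponent_le hDR (by norm_num)
        have h7 : 0 ≤ (q : ℝ) ^ (3 / 4 + 1 / 1000 : ℝ) := by positivity
        calc (q : ℝ) ^ (3 / 4 + 1 / 1000 : ℝ) * D ≤ (q : ℝ) ^ (3 / 4 + 1 / 1000 : ℝ) *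
              ((D : ℝ) ^ (3 / 4 + 1 / 1000 : ℝ) * (D : ℝ) ^ (1 / 4 : ℝ)) :=
              mul_le_mul_of_nonneg_left h6 h7
          _ = _ := by ring
      have h8 : (Y : ℝ) / q + 1 + Real.log q ≤
          D * (((Y : ℝ) / (D * q : ℕ) + 1) * (1 + Real.log (D * q : ℕ))) := by
        have h9 : Real.log q ≤ Real.log ((D * q : ℕ) : ℝ) := by
          apply Real.log_le_log hq0
          rw [hkq]
          nlinarith
        have h10 : (Y : ℝ) / q = D * ((Y : ℝ) / (D * q : ℕ)) := by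
          rw [hkq]; field_simp
        have hy0 : 0 ≤ (Y : ℝ) / (D * q : ℕ) := by positivity
        rw [h10]
        have hlog0 : 0 ≤ Real.log ((D * q : ℕ) : ℝ) := hlogk
        set L := Real.log ((D * q : ℕ) : ℝ)
        set y := (Y : ℝ) / (D * q : ℕ)
        have e1 : D * ((y + 1) * (1 + L)) = D * y + D * y * L + D * (1 + L) := by ring
        rw [e1]
        have e2 : 0 ≤ D * y * L := by positivity
        have e3 : 1 + L ≤ D * (1 + L) := le_mul_of_one_le_left (by positivity) hDR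
        linarith
      have h11 : (D : ℝ) ^ (1 / 4 : ℝ) ≤ |(((D : ℤ) * r' : ℤ) : ℝ)| ^ (1 / 4 : ℝ) := by
        apply Real.rpow_le_rpow hD0.le _ (by norm_num)
        have hr' : r' ≠ 0 := fun h ↦ hr (by rw [h, mul_zero])
        have h12 : (1 : ℤ) ≤ |r'| := Int.one_le_abs hr'
        have h13 : (1 : ℝ) ≤ |(r' : ℝ)| := by exact_mod_cast h12
        push_cast
        rw [abs_mul, abs_of_pos hD0]
        nlinarith
      have h8' : 0 ≤ ((Y : ℝ) / (D * q : ℕ) + 1) * (1 + Real.log (D * q : ℕ)) := by positivity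
      calc P * (q : ℝ) ^ (3 / 4 + 1 / 1000 : ℝ) * d * ((Y : ℝ) / q + 1 + Real.log q)
          ≤ P * (q : ℝ) ^ (3 / 4 + 1 / 1000 : ℝ) * d *
            (D * (((Y : ℝ) / (D * q : ℕ) + 1) * (1 + Real.log (D * q : ℕ)))) := by
            apply mul_le_mul_of_nonneg_left h8
            positivity
        _ = P * ((q : ℝ) ^ (3 / 4 + 1 / 1000 : ℝ) * D) * d *
            (((Y : ℝ) / (D * q : ℕ) + 1) * (1 + Real.log (D * q : ℕ))) := by ring
        _ ≤ P * (((D * q : ℕ) : ℝ) ^ (3 / 4 + 1 / 1000 : ℝ) *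
              |(((D : ℤ) * r' : ℤ) : ℝ)| ^ (1 / 4 : ℝ)) * d *
            (((Y : ℝ) / (D * q : ℕ) + 1) * (1 + Real.log (D * q : ℕ))) := by
            apply mul_le_mul_of_nonneg_right _ h8'
            apply mul_le_mul_of_nonneg_right _ (Nat.cast_nonneg _)
            apply mul_le_mul_of_nonneg_left _ hP0
            refine le_trans h5 ?_
            apply mul_le_mul_of_nonneg_left h11
            positivity
        _ = W := by rw [hW]; ring
    · rw [if_neg hDr]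
      have h4 : ∑ n ∈ Icc 1 Y, ∑ x ∈ (range k).filter (fun x ↦ Nat.gcd x k = D), F n x = 0 := by
        apply sum_eq_zero
        intro n _
        exact part_zero k D hDk (n * d) r j hDr
      rw [h4, norm_zero]
  rw [h2]
  refine le_trans (norm_sum_le _ _) (le_trans (sum_le_sum h3) ?_)
  rw [← sum_filter, sum_const, nsmul_eq_mul]
  have h14 : (((k.divisors.filter (fun D : ℕ ↦ (D : ℤ) ∣ r)).card : ℕ) : ℝ) ≤ |(r : ℝ)| := by
    have h15 : (k.divisors.filter (fun D : ℕ ↦ (D : ℤ) ∣ r)) ⊆ r.natAbs.divisors := by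
      intro D hD
      rw [mem_filter] at hD
      rw [Nat.mem_divisors]
      exact ⟨Int.natCast_dvd.mp hD.2, Int.natAbs_ne_zero.mpr hr⟩
    have h16 := le_trans (card_le_card h15) (Nat.card_divisors_le_self _)
    have h17 : ((r.natAbs : ℕ) : ℝ) = |(r : ℝ)| := by
      exact Nat.cast_natAbs r |>.trans (by push_cast; rfl)
    rw [← h17]
    exact_mod_cast h16
  have h18 : (k : ℝ) ^ (3 / 4 + 1 / 1000 : ℝ) * (1 + Real.log k) ≤
      1001 * (k : ℝ) ^ (3 / 4 + 1 / 500 : ℝ) := by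
    have h19 : Real.log k ≤ (k : ℝ) ^ (1 / 1000 : ℝ) / (1 / 1000 : ℝ) :=
      Real.log_le_rpow_div hk0.le (by norm_num)
    have h20 : (1 : ℝ) ≤ (k : ℝ) ^ (1 / 1000 : ℝ) := Real.one_le_rpow hk1 (by norm_num)
    have h21 : 1 + Real.log k ≤ 1001 * (k : ℝ) ^ (1 / 1000 : ℝ) := by
      rw [div_eq_mul_inv] at h19
      norm_num at h19 ⊢
      norm_num at h20
      linarith
    calc (k : ℝ) ^ (3 / 4 + 1 / 1000 : ℝ) * (1 + Real.log k) ≤
          (k : ℝ) ^ (3 / 4 + 1 / 1000 : ℝ) * (1001 * (k : ℝ) ^ (1 / 1000 : ℝ)) :=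
          mul_le_mul_of_nonneg_left h21 (by positivity)
      _ = 1001 * ((k : ℝ) ^ (3 / 4 + 1 / 1000 : ℝ) * (k : ℝ) ^ (1 / 1000 : ℝ)) := by ring
      _ = _ := by
          rw [← Real.rpow_add hk0]
          norm_num
  have h22 : |(r : ℝ)| * |(r : ℝ)| ^ (1 / 4 : ℝ) = |(r : ℝ)| ^ (5 / 4 : ℝ) := by
    nth_rewrite 1 [← Real.rpow_one |(r : ℝ)|]
    rw [← Real.rpow_add (by linarith)]
    norm_num
  calc (((k.divisors.filter (fun D : ℕ ↦ (D : ℤ) ∣ r)).card : ℕ) : ℝ) * W ≤ |(r : ℝ)| * W :=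
        mul_le_mul_of_nonneg_right h14 hW0
    _ = P * ((k : ℝ) ^ (3 / 4 + 1 / 1000 : ℝ) * (1 + Real.log k)) * d * ((Y : ℝ) / k + 1) *
        (|(r : ℝ)| * |(r : ℝ)| ^ (1 / 4 : ℝ)) := by rw [hW]; ring
    _ ≤ P * (1001 * (k : ℝ) ^ (3 / 4 + 1 / 500 : ℝ)) * d * ((Y : ℝ) / k + 1) *
        (|(r : ℝ)| * |(r : ℝ)| ^ (1 / 4 : ℝ)) := by
        apply mul_le_mul_of_nonneg_right _ (by positivity)
        apply mul_le_mul_of_nonneg_right _ (by positivity)
        apply mul_le_mul_of_nonneg_right _ (by positivity)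
        exact mul_le_mul_of_nonneg_left h18 hP0
    _ = 1001 * C * ((Y : ℝ) / k + 1) * (k : ℝ) ^ (3 / 4 + 1 / 500 : ℝ) * d *
        |(j : ℝ)| ^ (1 / 4 : ℝ) * |(r : ℝ)| ^ (5 / 4 : ℝ) := by rw [h22, hP]; ring

end F4
end Pool.Agent.Lib.MP_973905_nt
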