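import Pool.Agent.Lib.MP_973905_nt.F4.Stmts
import Pool.Agent.Lib.MP_a17b09_nt.Divisor

/-! (N1) Kloosterman sums for every modulus. -/

namespace Pool.Agent.Lib.MP_973905_nt
namespace F4

open Finset MP_0e0027_nt

namespace KlM

variable {q : ℕ} [NeZero q]

theorem E4_le_Z3' : E4 q ≤
    2 * (univ.filter (fun s : ZMod q × ZMod q × ZMod q ↦ s.1 * s.2.1 * s.2.2 = 0)).card := by
  rw [E4_eq_card]
  set f : (ZMod q)ˣ × (ZMod q)ˣ × (ZMod q)ˣ × (ZMod q)ˣ → ZMod q × ZMod q × ZMod q :=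
    fun t ↦ ((t.1 : ZMod q) + (t.2.1 : ZMod q),
    (t.2.2.1 : ZMod q) - (t.1 : ZMod q), (t.2.1 : ZMod q) - (t.2.2.1 : ZMod q)) with hf
  refine le_trans (card_le_mul_card_image (f := f) _ 2 ?_) ?_
  · intro s hs
    rw [mem_image] at hs
    obtain ⟨t0, ht0, hts⟩ := hs
    have h2 : zc ((2 : ℕ) : ZMod q) ≤ 2 :=
      (zc_le_gcd (q := q) 2).trans (Nat.gcd_le_left _ (by norm_num))
    refine le_trans ?_ h2
    unfold zc
    apply card_le_card_of_injOn (fun t ↦ (t.2.1 : ZMod q) - (t0.2.1 : ZMod q))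
    · intro t ht
      simp only [coe_filter, mem_filter, mem_univ, true_and, Set.mem_ofPred_eq] at ht ⊢
      obtain ⟨-, h3⟩ := ht
      rw [← hts] at h3
      simp only [hf, Prod.mk.injEq] at h3
      obtain ⟨h3, h4, h5⟩ := h3
      push_cast
      linear_combination h3 + h4 + h5
    · intro t ht t' ht' h
      obtain ⟨a, b, c, d⟩ := t
      obtain ⟨a', b', c', d'⟩ := t'
      simp only [coe_filter, mem_filter, mem_univ, true_and, Set.mem_ofPred_eq] at ht ht'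
      simp only at h
      obtain ⟨⟨e1, -⟩, h3⟩ := ht
      obtain ⟨⟨e2, -⟩, h3'⟩ := ht'
      rw [← h3'] at h3
      simp only [hf, Prod.mk.injEq] at h3
      obtain ⟨h3, h4, h5⟩ := h3
      simp only [l1] at e1 e2
      have hb : (b : ZMod q) = b' := by linear_combination h
      have ha : (a : ZMod q) = a' := by linear_combination h3 - hb
      have hc : (c : ZMod q) = c' := by linear_combination h4 + ha
      have hd : (d : ZMod q) = d' := by linear_combination -e1 + e2 + ha + hb - hc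
      rw [Units.ext ha, Units.ext hb, Units.ext hc, Units.ext hd]
  · apply Nat.mul_le_mul_left
    apply card_le_card
    intro s hs
    rw [mem_image] at hs
    obtain ⟨t, ht, rfl⟩ := hs
    obtain ⟨a, b, c, d⟩ := t
    simp only [mem_filter, mem_univ, true_and] at ht ⊢
    obtain ⟨h1, h3⟩ := ht
    simp only [hf]
    simp only [l1, l2] at h1 h3
    have e1 : (d : ZMod q) = a + b - c := by linear_combination -h1
    have ha : (a : ZMod q) * ((a⁻¹ : (ZMod q)ˣ) : ZMod q) = 1 := a.mul_inv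
    have hb : (b : ZMod q) * ((b⁻¹ : (ZMod q)ˣ) : ZMod q) = 1 := b.mul_inv
    have hc : (c : ZMod q) * ((c⁻¹ : (ZMod q)ˣ) : ZMod q) = 1 := c.mul_inv
    have hd : (d : ZMod q) * ((d⁻¹ : (ZMod q)ˣ) : ZMod q) = 1 := d.mul_inv
    have h4 : ((a : ZMod q) + b) * (c * d) = (c + d) * (a * b) := by
      have h5 : (a : ZMod q) * b * c * d * (((a⁻¹ : (ZMod q)ˣ) : ZMod q) + ((b⁻¹ : (ZMod q)ˣ) : ZMod q)
        - ((c⁻¹ : (ZMod q)ˣ) : ZMod q) - ((d⁻¹ : (ZMod q)ˣ) : ZMod q)) = 0 := by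
        rw [h3, mul_zero]
      linear_combination h5 - (b : ZMod q) * c * d * ha - (a : ZMod q) * c * d * hb
        + (a : ZMod q) * b * d * hc + (a : ZMod q) * b * c * hd
    have h6 : (c : ZMod q) + d = a + b := by linear_combination -h1
    rw [h6] at h4
    rw [e1] at h4
    linear_combination h4

theorem E4_le' : E4 q ≤ 2 * (q * (Nat.divisors q).card) ^ 2 :=
  le_trans E4_le_Z3' (Nat.mul_le_mul_left _ (le_trans Z3_le (Nat.pow_le_pow_left sum_zc_le 2)))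

theorem zc_int (A : ℤ) (hA : A ≠ 0) : zc (A : ZMod q) ≤ A.natAbs := by
  have h1 : zc (A : ZMod q) = zc ((A.natAbs : ℕ) : ZMod q) := by
    rcases Int.natAbs_eq A with h | h
    · conv_lhs => rw [h]
      rw [Int.cast_natCast]
    · conv_lhs => rw [h]
      rw [Int.cast_neg, Int.cast_natCast]
      unfold zc
      congr 1
      ext x
      simp only [mem_filter, mem_univ, true_and, neg_mul, neg_eq_zero]
  rw [h1]
  exact (zc_le_gcd _).trans (Nat.gcd_le_left _ (Int.natAbs_pos.2 hA))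

/-- the Kloosterman bound (fourth moment), every modulus -/
theorem Kl_bound' (A : ℤ) (hA : A ≠ 0) (v : ZMod q) :
    ‖Kl (A : ZMod q) v‖ ^ 4 ≤ 2 * |(A : ℝ)| * (q : ℝ) ^ 3 * ((Nat.divisors q).card : ℝ) ^ 3 := by
  have hq0 : q ≠ 0 := NeZero.ne q
  have h1 := Kl_four_mul_totient (A : ZMod q) v
  have h2 : (q : ℝ) ≤ (Nat.totient q : ℝ) * ((Nat.divisors q).card : ℝ) := by
    exact_mod_cast le_totient_mul_card_divisors q hq0
  have h3 : (E4 q : ℝ) ≤ 2 * ((q : ℝ) * ((Nat.divisors q).card : ℝ)) ^ 2 := by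
    exact_mod_cast E4_le' (q := q)
  have h4 : (zc (A : ZMod q) : ℝ) ≤ |(A : ℝ)| := by
    have h5 : (zc (A : ZMod q) : ℝ) ≤ (A.natAbs : ℝ) := by exact_mod_cast zc_int A hA
    rwa [Nat.cast_natAbs, Int.cast_abs] at h5
  have hqpos : (0 : ℝ) < q := by positivity
  set D : ℝ := ((Nat.divisors q).card : ℝ) with hD
  have hD0 : 0 ≤ D := by positivity
  set x := ‖Kl (A : ZMod q) v‖ ^ 4 with hx
  have hx0 : 0 ≤ x := by positivity
  have h5 : x * q ≤ (2 * |(A : ℝ)| * (q : ℝ) ^ 3 * D ^ 3) * q := by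
    calc x * q ≤ x * ((Nat.totient q : ℝ) * D) := mul_le_mul_of_nonneg_left h2 hx0
      _ = (x * (Nat.totient q : ℝ)) * D := by ring
      _ ≤ ((zc (A : ZMod q) : ℝ) * ((q : ℝ) ^ 2 * E4 q)) * D := mul_le_mul_of_nonneg_right h1 hD0
      _ ≤ (|(A : ℝ)| * ((q : ℝ) ^ 2 * (2 * ((q : ℝ) * D) ^ 2))) * D := by gcongr
      _ = (2 * |(A : ℝ)| * (q : ℝ) ^ 3 * D ^ 3) * q := by ring
  exact le_of_mul_le_mul_right h5 hqpos

end KlM

theorem stKl : StKl := by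
  obtain ⟨C, hC, h⟩ := MP_a17b09_nt.card_divisors_le (1 / 750) (by norm_num)
  refine ⟨2 * C ^ 3, by positivity, fun q _ A v hA => ?_⟩
  have hq : 0 < q := Nat.pos_of_ne_zero (NeZero.ne q)
  have hqr : (0 : ℝ) < q := by exact_mod_cast hq
  have hA0 : 0 ≤ |(A : ℝ)| := abs_nonneg _
  have h1 := KlM.Kl_bound' (q := q) A hA v
  have h2 := h q hq
  have h3 : ((Nat.divisors q).card : ℝ) ^ 3 ≤ C ^ 3 * (q : ℝ) ^ (1 / 250 : ℝ) := by
    calc ((Nat.divisors q).card : ℝ) ^ 3 ≤ (C * (q : ℝ) ^ (1 / 750 : ℝ)) ^ 3 :=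
          pow_le_pow_left₀ (by positivity) h2 3
      _ = C ^ 3 * ((q : ℝ) ^ (1 / 750 : ℝ)) ^ 3 := by rw [mul_pow]
      _ = _ := by
          rw [← Real.rpow_natCast ((q : ℝ) ^ (1 / 750 : ℝ)), ← Real.rpow_mul hqr.le]
          norm_num
  have hC3 : 1 ≤ C ^ 3 := one_le_pow₀ hC
  have h4 : ‖Kl (A : ZMod q) v‖ ^ 4 ≤
      (2 * C ^ 3 * |(A : ℝ)| ^ (1 / 4 : ℝ) * (q : ℝ) ^ (3 / 4 + 1 / 1000 : ℝ)) ^ 4 := by
    have e1 : (|(A : ℝ)| ^ (1 / 4 : ℝ)) ^ 4 = |(A : ℝ)| := by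
      rw [← Real.rpow_natCast, ← Real.rpow_mul hA0]; norm_num
    have e2 : ((q : ℝ) ^ (3 / 4 + 1 / 1000 : ℝ)) ^ 4 = (q : ℝ) ^ 3 * (q : ℝ) ^ (1 / 250 : ℝ) := by
      rw [← Real.rpow_natCast, ← Real.rpow_mul hqr.le, ← Real.rpow_natCast (q : ℝ) 3,
        ← Real.rpow_add hqr]
      norm_num
    rw [mul_pow, mul_pow, e1, e2]
    calc _ ≤ 2 * |(A : ℝ)| * (q : ℝ) ^ 3 * ((Nat.divisors q).card : ℝ) ^ 3 := h1
      _ ≤ 2 * |(A : ℝ)| * (q : ℝ) ^ 3 * (C ^ 3 * (q : ℝ) ^ (1 / 250 : ℝ)) := by gcongr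
      _ = (2 * C ^ 3) * (|(A : ℝ)| * ((q : ℝ) ^ 3 * (q : ℝ) ^ (1 / 250 : ℝ))) := by ring
      _ ≤ (2 * C ^ 3) ^ 4 * (|(A : ℝ)| * ((q : ℝ) ^ 3 * (q : ℝ) ^ (1 / 250 : ℝ))) := by
          gcongr
          exact le_self_pow₀ (by linarith) (by norm_num)
      _ = _ := by ring
  exact le_of_pow_le_pow_left₀ (by norm_num) (by positivity) h4

end F4
end Pool.Agent.Lib.MP_973905_nt
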