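import Pool.Agent.Lib.MP_973905_nt.F4.Stmts
import Pool.Agent.Lib.MP_973905_nt.K1.FFpair

/-! (Z4) the left edge. -/

namespace Pool.Agent.Lib.MP_973905_nt
namespace F4
namespace Left4

open MeasureTheory Complex Filter Topology K1 K1.FFpair

/-- The pair of functional equation factors, any real part (proof of `stFFpair`). -/
theorem ffpair_all (b : ℂ) (t : ℝ) (ht : 1000 * (1 + ‖b‖) ^ 2 ≤ |t|) :
    ‖FF (1 / 2 + b + t * I) * FF (1 / 2 + b - t * I) -
      ((|t| / (2 * Real.pi) : ℝ) : ℂ) ^ (2 * b)‖ ≤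
      1000 * (1 + ‖b‖) ^ 2 / |t| * (|t| / (2 * Real.pi)) ^ (2 * b.re) := by
  have hb := norm_nonneg b
  have hT1 : 1000 ≤ |t| := by nlinarith
  have hT0 : 0 < |t| := by linarith
  have h4 : 4 * (1 + ‖b‖) ^ 2 ≤ |t| := by nlinarith [sq_nonneg (1 + ‖b‖)]
  have h91 : 91 * (1 + ‖b‖) ^ 2 ≤ |t| := by nlinarith [sq_nonneg (1 + ‖b‖)]
  have hR := gamma_ratio h4 h91
  set R : ℂ := Gamma (1 / 2 + b + t * I) * Gamma (1 / 2 + b - t * I) *
      (((Real.cosh (Real.pi * t) : ℝ) : ℂ) / Real.pi) with hRdef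
  set q : ℂ := sin (Real.pi * b) / ((Real.cosh (Real.pi * t) : ℝ) : ℂ) with hq
  have hqn : ‖q‖ ≤ 1 / |t| := by
    have hc1 : Real.exp (Real.pi * |t|) / 2 ≤ Real.cosh (Real.pi * t) := by
      rw [← Real.cosh_abs (Real.pi * t), abs_mul, abs_of_pos Real.pi_pos, Real.cosh_eq]
      have := (Real.exp_pos (-(Real.pi * |t|))).le
      linarith
    have hs1 : ‖sin (Real.pi * b)‖ ≤ Real.exp (Real.pi * ‖b‖) := by
      have e : sin (Real.pi * b) = -cos (Real.pi * b + Real.pi / 2) := by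
        rw [Complex.cos_add_pi_div_two]; ring
      rw [e, norm_neg]
      refine (norm_cos_le _).trans (Real.exp_le_exp.2 ?_)
      have : (Real.pi * b + Real.pi / 2 : ℂ).im = Real.pi * b.im := by
        have e2 : (Real.pi / 2 : ℂ) = ((Real.pi / 2 : ℝ) : ℂ) := by push_cast; rfl
        rw [add_im, im_ofReal_mul, e2, ofReal_im, add_zero]
      rw [this, abs_mul, abs_of_pos Real.pi_pos]
      gcongr
      exact Complex.abs_im_le_norm b
    have hcosh : (0 : ℝ) < Real.cosh (Real.pi * t) := Real.cosh_pos _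
    rw [hq, norm_div, norm_real, Real.norm_eq_abs, abs_of_pos hcosh, div_le_div_iff₀ hcosh hT0,
      one_mul]
    refine le_trans ?_ hc1
    have hb2 : ‖b‖ ≤ |t| / 2 := by nlinarith
    have h5 : 2 * |t| ≤ Real.exp (Real.pi * (|t| / 2)) := by
      have h6 := Real.quadratic_le_exp_of_nonneg (x := Real.pi * (|t| / 2)) (by positivity)
      have h7 : |t| ≤ Real.pi * (|t| / 2) := by
        have := Real.pi_gt_three
        nlinarith
      nlinarith
    have h6 : Real.exp (Real.pi * ‖b‖) ≤ Real.exp (Real.pi * (|t| / 2)) := by gcongr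
    have h7 : Real.exp (Real.pi * |t|) = Real.exp (Real.pi * (|t| / 2)) *
        Real.exp (Real.pi * (|t| / 2)) := by
      rw [← Real.exp_add]; congr 1; ring
    rw [h7]
    have h8 := Real.exp_pos (Real.pi * (|t| / 2))
    have h9 : ‖sin (Real.pi * b)‖ * |t| ≤ Real.exp (Real.pi * (|t| / 2)) * |t| := by
      gcongr
      exact hs1.trans h6
    nlinarith
  have hX : ‖(2 * Real.pi : ℂ) ^ (-(2 * b))‖ = (2 * Real.pi) ^ (-(2 * b.re)) := by
    have := norm_two_pi_cpow (2 * b)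
    simpa using this
  have hdiv : ((|t| / (2 * Real.pi) : ℝ) : ℂ) ^ (2 * b) =
      (2 * Real.pi : ℂ) ^ (-(2 * b)) * ((|t| : ℝ) : ℂ) ^ (2 * b) := by
    have h2pi : (0 : ℝ) < 2 * Real.pi := by positivity
    rw [div_eq_mul_inv, ofReal_mul, mul_cpow_ofReal_nonneg hT0.le (inv_nonneg.2 h2pi.le), ofReal_inv,
      inv_cpow _ _ (by
        rw [arg_ofReal_of_nonneg h2pi.le]
        exact Real.pi_ne_zero.symm), ← cpow_neg]
    push_cast
    ring
  have hdiv2 : (|t| / (2 * Real.pi)) ^ (2 * b.re) = (2 * Real.pi) ^ (-(2 * b.re)) * |t| ^ (2 * b.re) := by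
    have h2pi : (0 : ℝ) < 2 * Real.pi := by positivity
    rw [Real.div_rpow hT0.le h2pi.le, Real.rpow_neg h2pi.le, div_eq_mul_inv]
    ring
  rw [FF_pair_eq, ← hRdef, ← hq, hdiv, hdiv2]
  set X : ℂ := (2 * Real.pi : ℂ) ^ (-(2 * b)) with hXdef
  set Y : ℂ := ((|t| : ℝ) : ℂ) ^ (2 * b) with hY
  have hYn : ‖Y‖ = |t| ^ (2 * b.re) := by
    rw [hY, norm_cpow_eq_rpow_re_of_pos hT0]
    simp
  have e1 : X * R * (1 - q) - X * Y = X * ((R - Y) * (1 - q) - Y * q) := by ring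
  rw [e1, norm_mul, hX]
  have hq1 : ‖q‖ ≤ 1 := hqn.trans (by rw [div_le_one hT0]; linarith)
  have hW : 0 < |t| ^ (2 * b.re) := Real.rpow_pos_of_pos hT0 _
  have hZ : 0 < (2 * Real.pi) ^ (-(2 * b.re)) := Real.rpow_pos_of_pos (by positivity) _
  have h6 : ‖(R - Y) * (1 - q) - Y * q‖ ≤ 1000 * (1 + ‖b‖) ^ 2 / |t| * |t| ^ (2 * b.re) := by
    have h7 : ‖1 - q‖ ≤ 2 := by
      refine (norm_sub_le _ _).trans ?_
      rw [norm_one]
      linarith
    have h8 : (1 : ℝ) ≤ (1 + ‖b‖) ^ 2 := by nlinarith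
    calc ‖(R - Y) * (1 - q) - Y * q‖ ≤ ‖R - Y‖ * ‖1 - q‖ + ‖Y‖ * ‖q‖ := by
          refine (norm_sub_le _ _).trans ?_
          rw [norm_mul, norm_mul]
      _ ≤ (182 * (1 + ‖b‖) ^ 2 / |t| * |t| ^ (2 * b.re)) * 2 + |t| ^ (2 * b.re) * (1 / |t|) := by
          rw [hYn]
          gcongr
      _ = (364 * (1 + ‖b‖) ^ 2 + 1) / |t| * |t| ^ (2 * b.re) := by ring
      _ ≤ 1000 * (1 + ‖b‖) ^ 2 / |t| * |t| ^ (2 * b.re) := by
          gcongr
          linarith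
  calc (2 * Real.pi) ^ (-(2 * b.re)) * ‖(R - Y) * (1 - q) - Y * q‖
      ≤ (2 * Real.pi) ^ (-(2 * b.re)) * (1000 * (1 + ‖b‖) ^ 2 / |t| * |t| ^ (2 * b.re)) := by
        gcongr
    _ = _ := by ring


/-! ### The weight -/

lemma wt_norm {X : ℝ} (hX : 0 < X) (c : ℂ) {t : ℝ} (ht : 0 < t) :
    ‖Wt X c t‖ = X⁻¹ * (t / X) ^ (c.re - 1) * Real.exp (-(t / X)) := by
  have h1 : 0 < t / X := div_pos ht hX
  rw [Wt, norm_mul, norm_mul, norm_inv, norm_real, Real.norm_eq_abs, abs_of_pos hX,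
    norm_cpow_eq_rpow_re_of_pos h1, norm_exp]
  simp

lemma wt_aux {X s t : ℝ} (hX : 0 < X) (ht : 0 < t) :
    X⁻¹ * (t / X) ^ (s - 1) * Real.exp (-(t / X)) =
      X ^ (-s) * (t ^ (s - 1) * Real.exp (-(X⁻¹ * t))) := by
  have e : X ^ (-s) = X⁻¹ / X ^ (s - 1) := by
    rw [← Real.rpow_neg_one, ← Real.rpow_sub hX]
    congr 1
    ring
  have : t / X = X⁻¹ * t := by rw [div_eq_mul_inv, mul_comm]
  rw [Real.div_rpow ht.le hX.le, e, this]
  ring

lemma wt_integrable {X s : ℝ} (hX : 0 < X) (hs : 0 < s) :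
    IntegrableOn (fun t : ℝ => X⁻¹ * (t / X) ^ (s - 1) * Real.exp (-(t / X))) (Set.Ioi 0) := by
  have h1 := (integrableOn_rpow_mul_exp_neg_mul_rpow (p := 1) (s := s - 1) (b := X⁻¹)
    (by linarith) one_pos (by positivity)).const_mul (X ^ (-s))
  refine h1.congr ?_
  rw [EventuallyEq, ae_restrict_iff' measurableSet_Ioi]
  refine Filter.Eventually.of_forall fun t ht => ?_
  simp only [Real.rpow_one]
  rw [wt_aux hX ht, neg_mul]

lemma wt_integral {X s : ℝ} (hX : 0 < X) (hs : 0 < s) :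
    ∫ t in Set.Ioi (0 : ℝ), X⁻¹ * (t / X) ^ (s - 1) * Real.exp (-(t / X)) = Real.Gamma s := by
  have h1 : ∫ t in Set.Ioi (0 : ℝ), X⁻¹ * (t / X) ^ (s - 1) * Real.exp (-(t / X)) =
      ∫ t in Set.Ioi (0 : ℝ), X ^ (-s) * (t ^ (s - 1) * Real.exp (-(X⁻¹ * t))) :=
    setIntegral_congr_fun measurableSet_Ioi fun t ht => wt_aux hX ht
  rw [h1, integral_const_mul, Real.integral_rpow_mul_exp_neg_mul_Ioi hs (by positivity), one_div,
    inv_inv, ← mul_assoc, ← Real.rpow_add hX]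
  simp

/-- Moments of the weight. -/
lemma wt_moment {X : ℝ} (hX : 0 < X) {c : ℂ} (hc : 0 < c.re) {m : ℝ} (hm : 0 ≤ m) :
    IntegrableOn (fun t : ℝ => t ^ m * ‖Wt X c t‖) (Set.Ioi 0) ∧
    ∫ t in Set.Ioi (0 : ℝ), t ^ m * ‖Wt X c t‖ = X ^ m * Real.Gamma (c.re + m) := by
  have e : ∀ t ∈ Set.Ioi (0 : ℝ), X ^ m * (X⁻¹ * (t / X) ^ (c.re + m - 1) * Real.exp (-(t / X))) =
      t ^ m * ‖Wt X c t‖ := by
    intro t ht
    have ht0 : (0 : ℝ) < t := ht
    have h1 : 0 < t / X := div_pos ht0 hX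
    rw [wt_norm hX c ht, show c.re + m - 1 = m + (c.re - 1) by ring, Real.rpow_add h1,
      Real.div_rpow ht0.le hX.le]
    have h2 : X ^ m ≠ 0 := (Real.rpow_pos_of_pos hX m).ne'
    field_simp
  constructor
  · refine ((wt_integrable hX (s := c.re + m) (by linarith)).const_mul (X ^ m)).congr ?_
    rw [EventuallyEq, ae_restrict_iff' measurableSet_Ioi]
    exact Filter.Eventually.of_forall e
  · rw [← setIntegral_congr_fun measurableSet_Ioi e, integral_const_mul,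
      wt_integral hX (by linarith)]

lemma wt_contOn (X : ℝ) (hX : 0 < X) (c : ℂ) : ContinuousOn (Wt X c) (Set.Ioi 0) := by
  intro t ht
  have h1 : 0 < t / X := div_pos ht hX
  unfold Wt
  refine ContinuousAt.continuousWithinAt ?_
  have h2 : ContinuousAt (fun t : ℝ => ((t / X : ℝ) : ℂ)) t := by fun_prop
  refine (continuousAt_const.mul (h2.cpow continuousAt_const ?_)).mul (h2.neg.cexp)
  exact ofReal_mem_slitPlane.2 h1

lemma wt_shift {X : ℝ} (hX : 0 < X) (a c : ℂ) {t : ℝ} (ht : 0 < t) :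
    ((X / (2 * Real.pi) : ℝ) : ℂ) ^ (2 * a) * Wt X (c + 2 * a) t =
      ((t / (2 * Real.pi) : ℝ) : ℂ) ^ (2 * a) * Wt X c t := by
  have h1 : 0 < t / X := div_pos ht hX
  have h2 : 0 < X / (2 * Real.pi) := by positivity
  have e1 : ((t / X : ℝ) : ℂ) ^ (c + 2 * a - 1) = ((t / X : ℝ) : ℂ) ^ (2 * a) *
      ((t / X : ℝ) : ℂ) ^ (c - 1) := by
    rw [← cpow_add _ _ (by exact_mod_cast h1.ne')]
    congr 1
    ring
  have e2 : ((t / (2 * Real.pi) : ℝ) : ℂ) ^ (2 * a) = ((X / (2 * Real.pi) : ℝ) : ℂ) ^ (2 * a) *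
      ((t / X : ℝ) : ℂ) ^ (2 * a) := by
    rw [← mul_cpow_ofReal_nonneg h2.le h1.le, ← ofReal_mul]
    congr 2
    field_simp
  rw [Wt, Wt, e1, e2]
  ring

/-! ### Functional equation -/

lemma fe {s : ℂ} (h1 : 0 < s.re) (h2 : s ≠ 1) : riemannZeta (1 - s) = FF s * riemannZeta s := by
  have := riemannZeta_one_sub (s := s) (fun n hn => by
    rw [hn] at h1
    simp at h1
    have : (0 : ℝ) ≤ n := Nat.cast_nonneg n
    linarith) h2
  rw [this, FF]

lemma zeta_bd : ∃ Z : ℝ, 1 ≤ Z ∧ ∀ s : ℂ, s.re = 17 / 16 → ‖riemannZeta s‖ ≤ Z := by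
  have hsum : Summable (fun n : ℕ => 1 / (n : ℝ) ^ (17 / 16 : ℝ)) :=
    Real.summable_one_div_nat_rpow.2 (by norm_num)
  have h0 : 0 ≤ ∑' n : ℕ, 1 / (n : ℝ) ^ (17 / 16 : ℝ) := tsum_nonneg fun n => by positivity
  refine ⟨∑' n : ℕ, 1 / (n : ℝ) ^ (17 / 16 : ℝ) + 1, by linarith, fun s hre => ?_⟩
  have hz : riemannZeta s = ∑' n : ℕ, 1 / (n : ℂ) ^ s :=
    zeta_eq_tsum_one_div_nat_cpow (by rw [hre]; norm_num)
  have hn : ∀ n : ℕ, ‖1 / (n : ℂ) ^ s‖ = 1 / (n : ℝ) ^ (17 / 16 : ℝ) := by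
    intro n
    rw [norm_div, norm_one, norm_natCast_cpow_of_re_ne_zero n (by rw [hre]; norm_num), hre]
  rw [hz]
  have h2 : Summable (fun n : ℕ => ‖1 / (n : ℂ) ^ s‖) := by simpa only [hn] using hsum
  refine (norm_tsum_le_tsum_norm h2).trans ?_
  simp only [hn]
  linarith

lemma ff_bd {s : ℂ} (hs : s.re = 17 / 16) : ‖FF s‖ ≤ Real.exp (9 / 4) * (1 + |s.im|) ^ (9 / 16 : ℝ) := by
  have h := FF_bound (δ := 9 / 16) (by norm_num) (by norm_num) s.im
  have e : ((1 / 2 + 9 / 16 : ℝ) : ℂ) + s.im * I = s := by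
    apply Complex.ext <;> simp [hs]; norm_num
  rwa [e] at h

/-- The pair of factors against its main term, all `t > 0`. -/
lemma pair_bd : ∃ C : ℝ, 1 ≤ C ∧ ∀ (a : ℂ), a.re = 9 / 16 → ∀ t : ℝ, 0 < t →
    ‖FF (1 / 2 + a + t * I) * FF (1 / 2 + a - t * I) -
      ((t / (2 * Real.pi) : ℝ) : ℂ) ^ (2 * a)‖ ≤ C * (1 + ‖a‖) ^ 4 * (1 + t ^ (1 / 8 : ℝ)) := by
  refine ⟨1001 ^ 2 * (Real.exp (9 / 2) + 1) + 1000, by nlinarith [Real.exp_pos (9 / 2 : ℝ)],
    fun a ha t ht => ?_⟩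
  have hna := norm_nonneg a
  have hb1 : 1 ≤ 1 + ‖a‖ := by linarith
  have hE : 0 < Real.exp (9 / 2 : ℝ) := Real.exp_pos _
  have ht8 : 0 < t ^ (1 / 8 : ℝ) := Real.rpow_pos_of_pos ht _
  have h2a : 2 * a.re = 9 / 8 := by rw [ha]; norm_num
  have hle : (t / (2 * Real.pi)) ^ (9 / 8 : ℝ) ≤ t ^ (9 / 8 : ℝ) := by
    apply Real.rpow_le_rpow (by positivity) _ (by norm_num)
    rw [div_le_iff₀ (by positivity)]
    have := Real.pi_gt_three
    nlinarith
  rcases le_or_gt (1000 * (1 + ‖a‖) ^ 2) t with h | h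
  · have h1 := ffpair_all a t (by rw [abs_of_pos ht]; exact h)
    rw [abs_of_pos ht, h2a] at h1
    refine h1.trans ?_
    have e : t ^ (9 / 8 : ℝ) = t * t ^ (1 / 8 : ℝ) := by
      rw [show (9 / 8 : ℝ) = 1 + 1 / 8 by norm_num, Real.rpow_add ht, Real.rpow_one]
    calc 1000 * (1 + ‖a‖) ^ 2 / t * (t / (2 * Real.pi)) ^ (9 / 8 : ℝ)
        ≤ 1000 * (1 + ‖a‖) ^ 2 / t * (t * t ^ (1 / 8 : ℝ)) := by rw [← e]; gcongr
      _ = 1000 * (1 + ‖a‖) ^ 2 * t ^ (1 / 8 : ℝ) := by field_simp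
      _ ≤ (1001 ^ 2 * (Real.exp (9 / 2) + 1) + 1000) * (1 + ‖a‖) ^ 4 * (1 + t ^ (1 / 8 : ℝ)) := by
          gcongr
          · have : 0 ≤ 1001 ^ 2 * (Real.exp (9 / 2) + 1) := by positivity
            linarith
          · norm_num
          · linarith
  · have hm : ∀ u : ℝ, |u| ≤ t → (1 + |a.im + u|) ≤ 1001 * (1 + ‖a‖) ^ 2 := by
      intro u hu
      have h1 : |a.im| ≤ ‖a‖ := abs_im_le_norm a
      have h2 := abs_add_le a.im u
      nlinarith
    have g : ∀ s : ℂ, s.re = 17 / 16 → 1 + |s.im| ≤ 1001 * (1 + ‖a‖) ^ 2 →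
        ‖FF s‖ ≤ Real.exp (9 / 4) * (1001 * (1 + ‖a‖) ^ 2) ^ (9 / 16 : ℝ) := by
      intro s hs h1
      refine (ff_bd hs).trans ?_
      gcongr
    have g1 := g (1 / 2 + a + t * I) (by simp [ha]; norm_num) (by
      have := hm t (by rw [abs_of_pos ht])
      simpa using this)
    have g2 := g (1 / 2 + a - t * I) (by simp [ha]; norm_num) (by
      have := hm (-t) (by rw [abs_neg, abs_of_pos ht])
      have e : (1 / 2 + a - t * I : ℂ).im = a.im + -t := by simp; ring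
      rw [e]
      exact this)
    set Y : ℝ := 1001 * (1 + ‖a‖) ^ 2 with hY
    have hY1 : 1 ≤ Y := by nlinarith
    have e2 : Y ^ (9 / 16 : ℝ) * Y ^ (9 / 16 : ℝ) ≤ Y ^ 2 := by
      rw [← Real.rpow_add (by linarith), ← Real.rpow_natCast]
      apply Real.rpow_le_rpow_of_exponent_le hY1
      norm_num
    have h5 : ‖((t / (2 * Real.pi) : ℝ) : ℂ) ^ (2 * a)‖ ≤ Y ^ 2 := by
      rw [norm_cpow_eq_rpow_re_of_pos (by positivity)]
      have : (2 * a).re = 9 / 8 := by simp; linarith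
      rw [this]
      calc (t / (2 * Real.pi)) ^ (9 / 8 : ℝ) ≤ t ^ (9 / 8 : ℝ) := hle
        _ ≤ Y ^ (9 / 8 : ℝ) := by
            apply Real.rpow_le_rpow ht.le _ (by norm_num)
            rw [hY]
            nlinarith
        _ ≤ Y ^ (2 : ℝ) := by
            apply Real.rpow_le_rpow_of_exponent_le hY1
            norm_num
        _ = Y ^ 2 := by norm_num
    have e3 : Real.exp (9 / 4) * Real.exp (9 / 4) = Real.exp (9 / 2) := by
      rw [← Real.exp_add]; norm_num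
    calc ‖FF (1 / 2 + a + t * I) * FF (1 / 2 + a - t * I) -
          ((t / (2 * Real.pi) : ℝ) : ℂ) ^ (2 * a)‖
        ≤ ‖FF (1 / 2 + a + t * I)‖ * ‖FF (1 / 2 + a - t * I)‖ +
          ‖((t / (2 * Real.pi) : ℝ) : ℂ) ^ (2 * a)‖ := by
          rw [← norm_mul]; exact norm_sub_le _ _
      _ ≤ (Real.exp (9 / 4) * Y ^ (9 / 16 : ℝ)) * (Real.exp (9 / 4) * Y ^ (9 / 16 : ℝ)) + Y ^ 2 := by
          gcongr
      _ = Real.exp (9 / 2) * (Y ^ (9 / 16 : ℝ) * Y ^ (9 / 16 : ℝ)) + Y ^ 2 := by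
          rw [← e3]; ring
      _ ≤ Real.exp (9 / 2) * Y ^ 2 + Y ^ 2 := by gcongr
      _ = (1001 ^ 2 * (Real.exp (9 / 2) + 1)) * (1 + ‖a‖) ^ 4 * 1 := by rw [hY]; ring
      _ ≤ (1001 ^ 2 * (Real.exp (9 / 2) + 1) + 1000) * (1 + ‖a‖) ^ 4 * (1 + t ^ (1 / 8 : ℝ)) := by
          gcongr
          · linarith
          · linarith

lemma hp_cont (N : ℕ) (b : ℕ → ℂ) : Continuous (HP N b) := by
  unfold HP
  refine continuous_finsetSum _ fun n hn => continuous_const.mul ?_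
  have hn0 : (n : ℂ) ≠ 0 := by
    have := (Finset.mem_Icc.1 hn).1
    exact_mod_cast (by omega : n ≠ 0)
  unfold fs
  refine Continuous.const_cpow (by fun_prop) (Or.inl hn0)

lemma zeta_cont {s : ℂ} (hs : s.re ≠ 1) : Continuous fun t : ℝ => riemannZeta (s + t * I) := by
  rw [continuous_iff_continuousAt]
  intro t
  have h1 : s + t * I ≠ 1 := by
    intro h
    apply hs
    have := congrArg re h
    simpa using this
  exact ContinuousAt.comp (f := fun t : ℝ => s + t * I) (differentiableAt_riemannZeta h1).continuousAt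
    (by fun_prop)

end Left4

open MeasureTheory Complex Filter Topology K1 Left4 in
theorem stLeft4 : StLeft4 := by
  obtain ⟨Z, hZ, hzeta⟩ := zeta_bd
  obtain ⟨D, hD, hpair⟩ := pair_bd
  set G : ℝ := Real.Gamma 18 with hG
  have hGpos : 0 < G := Real.Gamma_pos_of_pos (by norm_num)
  have hGam : ∀ s : ℝ, 2 ≤ s → s ≤ 18 → Real.Gamma s ≤ G := fun s h1 h2 =>
    Real.Gamma_strictMonoOn_Ici.monotoneOn (Set.mem_Ici.2 h1) (Set.mem_Ici.2 (by norm_num)) h2
  refine ⟨4 + Real.log (2 * D * Z ^ 2 * (G + 1)) + 1, ?_, fun X hX a c ha hc1 hc2 N b B hB => ?_⟩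
  · have : 0 ≤ Real.log (2 * D * Z ^ 2 * (G + 1)) := by
      apply Real.log_nonneg
      have h1 : 1 ≤ Z ^ 2 := one_le_pow₀ hZ
      have h2 : 1 ≤ D * Z ^ 2 := by nlinarith
      nlinarith
    linarith
  have hX0 : 0 < X := by linarith
  have hB0 : 0 ≤ B := (norm_nonneg _).trans (hB 0)
  have hna := norm_nonneg a
  set Φ : ℝ → ℂ := fun t => riemannZeta (1 / 2 + a + t * I) * riemannZeta (1 / 2 + a - t * I) *
    (HP N b t * (starRingEnd ℂ) (HP N b t)) with hΦ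
  have hΦn : ∀ t, ‖Φ t‖ ≤ Z ^ 2 * B ^ 2 := by
    intro t
    have h1 := hzeta (1 / 2 + a + t * I) (by simp [ha]; norm_num)
    have h2 := hzeta (1 / 2 + a - t * I) (by simp [ha]; norm_num)
    simp only [hΦ, norm_mul, norm_conj]
    calc _ ≤ Z * Z * (B * B) := by
          gcongr
          · exact hB t
          · exact hB t
      _ = _ := by ring
  have hsub : ∀ s : ℂ, ∀ t : ℝ, s - t * I = s + ((-t : ℝ) : ℂ) * I := by
    intro s t; push_cast; ring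
  have hneg : ∀ s : ℂ, s.re ≠ 1 → Continuous fun t : ℝ => riemannZeta (s - t * I) := by
    intro s hs
    have h1 := (zeta_cont hs).comp (continuous_neg (G := ℝ))
    refine h1.congr fun t => ?_
    simp only [Function.comp_apply]
    rw [hsub]
  have hre1 : (1 / 2 + a : ℂ).re ≠ 1 := by simp [ha]; norm_num
  have hre2 : (1 / 2 + -a : ℂ).re ≠ 1 := by simp [ha]; norm_num
  have hHc : Continuous fun t => HP N b t * (starRingEnd ℂ) (HP N b t) :=
    (hp_cont N b).mul (continuous_conj.comp (hp_cont N b))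
  have hΦc : Continuous Φ := ((zeta_cont hre1).mul (hneg _ hre1)).mul hHc
  -- the two integrands
  set f₁ : ℝ → ℂ := fun t => riemannZeta (1 / 2 + -a + t * I) * riemannZeta (1 / 2 + -a - t * I) *
    (HP N b t * (starRingEnd ℂ) (HP N b t)) * Wt X c t with hf1
  set f₂ : ℝ → ℂ := fun t => ((t / (2 * Real.pi) : ℝ) : ℂ) ^ (2 * a) * Φ t * Wt X c t with hf2
  have e1 : ∀ t ∈ Set.Ioi (0 : ℝ), f₁ t - f₂ t = (FF (1 / 2 + a + t * I) * FF (1 / 2 + a - t * I) -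
      ((t / (2 * Real.pi) : ℝ) : ℂ) ^ (2 * a)) * (Φ t * Wt X c t) := by
    intro t ht
    have n1 : (1 / 2 + a + t * I : ℂ) ≠ 1 := by
      intro h
      have := congrArg re h
      simp [ha] at this
      norm_num at this
    have n2 : (1 / 2 + a - t * I : ℂ) ≠ 1 := by
      intro h
      have := congrArg re h
      simp [ha] at this
      norm_num at this
    have h1 := fe (s := 1 / 2 + a + t * I) (by simp [ha]; norm_num) n1
    have h2 := fe (s := 1 / 2 + a - t * I) (by simp [ha]; norm_num) n2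
    have e3 : (1 / 2 + -a + t * I : ℂ) = 1 - (1 / 2 + a - t * I) := by ring
    have e4 : (1 / 2 + -a - t * I : ℂ) = 1 - (1 / 2 + a + t * I) := by ring
    simp only [hf1, hf2, hΦ]
    rw [e3, e4, h1, h2]
    ring
  have hWn : ∀ t ∈ Set.Ioi (0 : ℝ), 0 ≤ ‖Wt X c t‖ := fun t _ => norm_nonneg _
  obtain ⟨i0, v0⟩ := wt_moment hX0 (c := c) (by linarith) (m := 0) le_rfl
  obtain ⟨i1, v1⟩ := wt_moment hX0 (c := c) (by linarith) (m := 1 / 8) (by norm_num)
  obtain ⟨i2, v2⟩ := wt_moment hX0 (c := c) (by linarith) (m := 9 / 8) (by norm_num)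
  have bd : ∀ t ∈ Set.Ioi (0 : ℝ), ‖f₁ t - f₂ t‖ ≤ D * (1 + ‖a‖) ^ 4 * (Z ^ 2 * B ^ 2) *
      (t ^ (0 : ℝ) * ‖Wt X c t‖ + t ^ (1 / 8 : ℝ) * ‖Wt X c t‖) := by
    intro t ht
    rw [e1 t ht, norm_mul, norm_mul]
    have ht0 : (0 : ℝ) < t := ht
    have h1 := hpair a ha t ht
    have h2 := hΦn t
    have h3 : 0 ≤ D * (1 + ‖a‖) ^ 4 * (1 + t ^ (1 / 8 : ℝ)) := by positivity
    calc _ ≤ (D * (1 + ‖a‖) ^ 4 * (1 + t ^ (1 / 8 : ℝ))) * ((Z ^ 2 * B ^ 2) * ‖Wt X c t‖) :=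
          mul_le_mul h1 (mul_le_mul_of_nonneg_right h2 (norm_nonneg _)) (by positivity) h3
      _ = _ := by rw [Real.rpow_zero]; ring
  have m1 : AEStronglyMeasurable f₁ (volume.restrict (Set.Ioi 0)) := by
    refine ContinuousOn.aestronglyMeasurable ?_ measurableSet_Ioi
    exact (((zeta_cont hre2).mul (hneg _ hre2)).mul hHc).continuousOn.mul (wt_contOn X hX0 c)
  have m2 : AEStronglyMeasurable f₂ (volume.restrict (Set.Ioi 0)) := by
    refine ContinuousOn.aestronglyMeasurable ?_ measurableSet_Ioi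
    refine (ContinuousOn.mul ?_ hΦc.continuousOn).mul (wt_contOn X hX0 c)
    intro t ht
    have ht0 : (0 : ℝ) < t := ht
    refine ContinuousAt.continuousWithinAt (ContinuousAt.cpow (by fun_prop) continuousAt_const ?_)
    exact ofReal_mem_slitPlane.2 (by positivity)
  have j2 : IntegrableOn f₂ (Set.Ioi 0) := by
    refine Integrable.mono' (i2.const_mul (Z ^ 2 * B ^ 2)) m2 ?_
    rw [ae_restrict_iff' measurableSet_Ioi]
    refine Filter.Eventually.of_forall fun t ht => ?_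
    have ht0 : (0 : ℝ) < t := ht
    have h1 : ‖((t / (2 * Real.pi) : ℝ) : ℂ) ^ (2 * a)‖ ≤ t ^ (9 / 8 : ℝ) := by
      rw [norm_cpow_eq_rpow_re_of_pos (by positivity)]
      have : (2 * a).re = 9 / 8 := by simp; linarith
      rw [this]
      apply Real.rpow_le_rpow (by positivity) _ (by norm_num)
      rw [div_le_iff₀ (by positivity)]
      have := Real.pi_gt_three
      nlinarith
    simp only [hf2, norm_mul]
    have h2 := hΦn t
    calc _ ≤ t ^ (9 / 8 : ℝ) * (Z ^ 2 * B ^ 2) * ‖Wt X c t‖ := by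
          gcongr
      _ = _ := by ring
  have jd : IntegrableOn (fun t => f₁ t - f₂ t) (Set.Ioi 0) := by
    refine Integrable.mono' ((i0.add i1).const_mul (D * (1 + ‖a‖) ^ 4 * (Z ^ 2 * B ^ 2)))
      (m1.sub m2) ?_
    rw [ae_restrict_iff' measurableSet_Ioi]
    exact Filter.Eventually.of_forall bd
  have j1 : IntegrableOn f₁ (Set.Ioi 0) := by
    have := jd.add j2
    refine this.congr (Filter.Eventually.of_forall fun t => ?_)
    simp
  have hJ1 : Jt X c N b (-a) = ∫ t in Set.Ioi (0 : ℝ), f₁ t := rfl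
  have hJ2 : ((X / (2 * Real.pi) : ℝ) : ℂ) ^ (2 * a) * Jt X (c + 2 * a) N b a =
      ∫ t in Set.Ioi (0 : ℝ), f₂ t := by
    rw [Jt, ← integral_const_mul]
    refine setIntegral_congr_fun measurableSet_Ioi fun t ht => ?_
    have := wt_shift hX0 a c ht
    simp only [hf2, hΦ]
    calc _ = (riemannZeta (1 / 2 + a + t * I) * riemannZeta (1 / 2 + a - t * I) *
          (HP N b t * (starRingEnd ℂ) (HP N b t))) * (((X / (2 * Real.pi) : ℝ) : ℂ) ^ (2 * a) *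
            Wt X (c + 2 * a) t) := by ring
      _ = _ := by rw [this]; ring
  rw [hJ1, hJ2, ← integral_sub j1 j2]
  refine (norm_integral_le_integral_norm _).trans ?_
  have h3 : ∫ t in Set.Ioi (0 : ℝ), ‖f₁ t - f₂ t‖ ≤ ∫ t in Set.Ioi (0 : ℝ),
      D * (1 + ‖a‖) ^ 4 * (Z ^ 2 * B ^ 2) *
      (t ^ (0 : ℝ) * ‖Wt X c t‖ + t ^ (1 / 8 : ℝ) * ‖Wt X c t‖) :=
    setIntegral_mono_on jd.norm ((i0.add i1).const_mul _) measurableSet_Ioi bd
  refine h3.trans ?_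
  rw [integral_const_mul, integral_add i0 i1, v0, v1, Real.rpow_zero, one_mul, add_zero]
  have g0 := hGam c.re (by linarith) (by linarith)
  have g1 := hGam (c.re + 1 / 8) (by linarith) (by linarith)
  have hX8 : 1 ≤ X ^ (1 / 8 : ℝ) := Real.one_le_rpow hX (by norm_num)
  have hsum : Real.Gamma c.re + X ^ (1 / 8 : ℝ) * Real.Gamma (c.re + 1 / 8) ≤
      2 * (G + 1) * X ^ (1 / 8 : ℝ) := by
    have h1 : Real.Gamma c.re ≤ X ^ (1 / 8 : ℝ) * G :=
      g0.trans (le_mul_of_one_le_left hGpos.le hX8)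
    have h2 : X ^ (1 / 8 : ℝ) * Real.Gamma (c.re + 1 / 8) ≤ X ^ (1 / 8 : ℝ) * G := by gcongr
    nlinarith
  have hexp : (1 + ‖a‖) ^ 4 ≤ Real.exp (4 * ‖a‖) := by
    have h1 := Real.add_one_le_exp ‖a‖
    calc (1 + ‖a‖) ^ 4 ≤ Real.exp ‖a‖ ^ 4 := pow_le_pow_left₀ (by positivity) (by linarith) 4
      _ = _ := by rw [← Real.exp_nat_mul]; norm_num
  have hK : 0 < 2 * D * Z ^ 2 * (G + 1) := by positivity
  have hc8 : 8 ≤ ‖c‖ := hc1.trans ((le_abs_self _).trans (abs_re_le_norm c))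
  calc D * (1 + ‖a‖) ^ 4 * (Z ^ 2 * B ^ 2) *
        (Real.Gamma c.re + X ^ (1 / 8 : ℝ) * Real.Gamma (c.re + 1 / 8))
      ≤ D * Real.exp (4 * ‖a‖) * (Z ^ 2 * B ^ 2) * (2 * (G + 1) * X ^ (1 / 8 : ℝ)) := by
        gcongr
    _ = Real.exp (4 * ‖a‖) * (2 * D * Z ^ 2 * (G + 1)) * B ^ 2 * X ^ (1 / 8 : ℝ) := by ring
    _ = Real.exp (4 * ‖a‖ + Real.log (2 * D * Z ^ 2 * (G + 1))) * B ^ 2 * X ^ (1 / 8 : ℝ) := by
        rw [Real.exp_add, Real.exp_log hK]
    _ ≤ Real.exp ((4 + Real.log (2 * D * Z ^ 2 * (G + 1)) + 1) * (‖a‖ + ‖c‖)) * B ^ 2 *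
        X ^ (1 / 8 : ℝ) := by
        gcongr
        have hlog : 0 ≤ Real.log (2 * D * Z ^ 2 * (G + 1)) := by
          apply Real.log_nonneg
          have h1 : 1 ≤ Z ^ 2 := one_le_pow₀ hZ
          have h2 : 1 ≤ D * Z ^ 2 := by nlinarith
          nlinarith
        nlinarith

end F4
end Pool.Agent.Lib.MP_973905_nt
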