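import Pool.Agent.Lib.MP_973905_nt.F4.FB4
import Pool.Agent.Lib.MP_973905_nt.K1.Fin

/-! Module R3: the arithmetic factor of our product polynomials. -/

namespace Pool.Agent.Lib.MP_973905_nt
namespace F4

open MeasureTheory ProbabilityTheory Complex Filter Topology K1

namespace Main4

lemma factor_le {L : ℝ} (hL : 1 ≤ L) {p : ℕ} (hp : p.Prime) (hpL : Real.log p ≤ L) {a : ℂ}
    (ha : ‖a‖ = 1 / L) : ‖1 - (p : ℂ) ^ (-(1 + a + a))‖ ≤
      Real.exp (-(1 / (p : ℝ)) + 2 * Real.exp 2 / L * (Real.log p / p)) := by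
  have hL0 : 0 < L := by linarith
  have hp0 : (0 : ℝ) < p := by exact_mod_cast hp.pos
  have hp1 : (1 : ℝ) < p := by exact_mod_cast hp.one_lt
  have hl0 : 0 ≤ Real.log p := Real.log_nonneg hp1.le
  have hpC : (p : ℂ) ≠ 0 := by exact_mod_cast hp.ne_zero
  have e1 : (p : ℂ) ^ (-(1 + a + a)) = (p : ℂ)⁻¹ * cexp (-(2 * a * Real.log p)) := by
    rw [show -(1 + a + a) = -1 + -(2 * a) by ring, cpow_add _ _ hpC, cpow_neg_one,
      cpow_def_of_ne_zero hpC, ← natCast_log]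
    congr 2
    ring
  have hn : ‖-(2 * a * (Real.log p : ℂ))‖ = 2 * Real.log p / L := by
    rw [norm_neg, norm_mul, norm_mul, ha, norm_real, Real.norm_eq_abs, abs_of_nonneg hl0]
    simp
    ring
  have h2 : ‖-(2 * a * (Real.log p : ℂ))‖ ≤ 2 := by
    rw [hn, div_le_iff₀ hL0]; linarith
  have h3 : ‖cexp (-(2 * a * Real.log p)) - 1‖ ≤ 2 * Real.log p / L * Real.exp 2 := by
    refine (norm_exp_sub_one_le' _).trans ?_
    have h4 : Real.exp ‖-(2 * a * (Real.log p : ℂ))‖ - 1 ≤ ‖-(2 * a * (Real.log p : ℂ))‖ *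
        Real.exp ‖-(2 * a * (Real.log p : ℂ))‖ := by
      set x := ‖-(2 * a * (Real.log p : ℂ))‖
      have h5 := Real.add_one_le_exp (-x)
      have h6 : Real.exp (-x) * Real.exp x = 1 := by rw [← Real.exp_add]; simp
      have h7 : 0 < Real.exp x := Real.exp_pos x
      nlinarith
    refine h4.trans ?_
    rw [hn] at h2 ⊢
    gcongr
  have h8 : ‖1 - (p : ℂ) ^ (-(1 + a + a))‖ ≤
      (1 - 1 / (p : ℝ)) + 2 * Real.exp 2 / L * (Real.log p / p) := by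
    have e2 : 1 - (p : ℂ) ^ (-(1 + a + a)) = (1 - (p : ℂ)⁻¹) -
        (p : ℂ)⁻¹ * (cexp (-(2 * a * Real.log p)) - 1) := by
      rw [e1]; ring
    rw [e2]
    refine (norm_sub_le _ _).trans ?_
    have h9 : ‖(1 : ℂ) - (p : ℂ)⁻¹‖ = 1 - 1 / (p : ℝ) := by
      have : (1 : ℂ) - (p : ℂ)⁻¹ = ((1 - 1 / (p : ℝ) : ℝ) : ℂ) := by
        push_cast; ring
      rw [this, norm_real, Real.norm_eq_abs, abs_of_nonneg]
      rw [sub_nonneg, div_le_one hp0]
      exact hp1.le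
    rw [h9]
    have h10 : ‖(p : ℂ)⁻¹ * (cexp (-(2 * a * Real.log p)) - 1)‖ ≤
        2 * Real.exp 2 / L * (Real.log p / p) := by
      rw [norm_mul, norm_inv, norm_natCast]
      calc (p : ℝ)⁻¹ * ‖cexp (-(2 * a * Real.log p)) - 1‖ ≤
          (p : ℝ)⁻¹ * (2 * Real.log p / L * Real.exp 2) := by gcongr
        _ = _ := by ring
    linarith
  refine h8.trans ?_
  have h11 := Real.add_one_le_exp (-(1 / (p : ℝ)) + 2 * Real.exp 2 / L * (Real.log p / p))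
  linarith

lemma prod_bound : ∃ C : ℝ, 0 < C ∧ ∀ T : ℝ, 3 ≤ T → ∀ a : ℂ, ‖a‖ = 1 / Real.log T →
    ‖∏ p ∈ PS 0 T, (1 - (p : ℂ) ^ (-(1 + a + a)))‖ ≤ C / Real.log T := by
  obtain ⟨C1, hC1, h1⟩ := sum_log_div_le
  obtain ⟨C2, hC2, h2⟩ := sum_inv
  refine ⟨Real.exp (C2 + 2 * Real.exp 2 * (1 + C1)), Real.exp_pos _, fun T hT a ha => ?_⟩
  have hL : 1 ≤ Real.log T := by
    rw [Real.le_log_iff_exp_le (by linarith)]
    have := Real.exp_one_lt_d9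
    linarith
  have hL0 : 0 < Real.log T := by linarith
  have h3 := h1 T (by linarith)
  have h4 := (abs_le.mp (h2 T (by linarith))).1
  calc ‖∏ p ∈ PS 0 T, (1 - (p : ℂ) ^ (-(1 + a + a)))‖
      = ∏ p ∈ PS 0 T, ‖1 - (p : ℂ) ^ (-(1 + a + a))‖ := norm_prod _ _
    _ ≤ ∏ p ∈ PS 0 T, Real.exp (-(1 / (p : ℝ)) + 2 * Real.exp 2 / Real.log T * (Real.log p / p)) := by
        refine Finset.prod_le_prod (fun _ _ => norm_nonneg _) fun p hp => ?_
        rw [mem_PS le_rfl (by linarith)] at hp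
        refine factor_le hL hp.1 ?_ ha
        exact Real.log_le_log hp.2.1 hp.2.2
    _ = Real.exp (-(∑ p ∈ PS 0 T, (1 : ℝ) / p) + 2 * Real.exp 2 / Real.log T *
          ∑ p ∈ PS 0 T, (Real.log p / p)) := by
        rw [← Real.exp_sum, Finset.sum_add_distrib, ← Finset.mul_sum, Finset.sum_neg_distrib]
    _ ≤ Real.exp ((C2 - Real.log (Real.log T)) + 2 * Real.exp 2 * (1 + C1)) := by
        apply Real.exp_le_exp.mpr
        have h5 : 2 * Real.exp 2 / Real.log T * ∑ p ∈ PS 0 T, (Real.log p / p) ≤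
            2 * Real.exp 2 * (1 + C1) := by
          have h6 : 2 * Real.exp 2 / Real.log T * ∑ p ∈ PS 0 T, (Real.log p / p) ≤
            2 * Real.exp 2 / Real.log T * (Real.log T + C1) := by
            gcongr
          refine h6.trans ?_
          rw [div_mul_eq_mul_div, div_le_iff₀ hL0]
          have h7 : Real.log T + C1 ≤ (1 + C1) * Real.log T := by nlinarith
          calc 2 * Real.exp 2 * (Real.log T + C1) ≤ 2 * Real.exp 2 * ((1 + C1) * Real.log T) := by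
                gcongr
            _ = _ := by ring
        linarith
    _ = Real.exp (C2 + 2 * Real.exp 2 * (1 + C1)) / Real.log T := by
        rw [show C2 - Real.log (Real.log T) + 2 * Real.exp 2 * (1 + C1) =
          (C2 + 2 * Real.exp 2 * (1 + C1)) - Real.log (Real.log T) by ring, Real.exp_sub,
          Real.exp_log hL0]

lemma bc_congr {m : ℕ} {Sb : Fin m → Finset ℕ} {F G : (ℕ → ℂ) → ℂ} (h : BC Sb F)
    (e : ∀ ω, F (XX Sb ω) = G (XX Sb ω)) : BC Sb G := by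
  have : (fun ω => F (XX Sb ω)) = fun ω => G (XX Sb ω) := funext e
  refine ⟨by rw [← this]; exact h.1, ?_⟩
  obtain ⟨C, hC⟩ := h.2
  exact ⟨C, fun ω => by rw [← e]; exact hC ω⟩

lemma bc_lin {m : ℕ} {Sb : Fin m → Finset ℕ} (s : Finset ℕ) (c : ℕ → ℂ) (w : ℂ) :
    BC Sb (fun f => ∑ n ∈ s, c n * tw w f n) := by
  refine bc_sum _ fun n _ => ?_
  exact ((bc_apply n).const_mul _).const_mul _

lemma amgm {x y z A : ℝ} (hA : 0 ≤ A) :
    x * y * (z ^ 2 * A) ≤ 1 / 4 * (x ^ 4 * A) + 1 / 4 * (y ^ 4 * A) + 1 / 2 * (z ^ 4 * A) := by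
  have h1 : x * y * z ^ 2 ≤ 1 / 4 * x ^ 4 + 1 / 4 * y ^ 4 + 1 / 2 * z ^ 4 := by
    nlinarith [sq_nonneg (x * y - z ^ 2), sq_nonneg (x ^ 2 - y ^ 2)]
  calc x * y * (z ^ 2 * A) = (x * y * z ^ 2) * A := by ring
    _ ≤ (1 / 4 * x ^ 4 + 1 / 4 * y ^ 4 + 1 / 2 * z ^ 4) * A := by gcongr
    _ = _ := by ring

lemma int_pow4 {m : ℕ} {Sb : Fin m → Finset ℕ} {F B : (ℕ → ℂ) → ℂ} (hF : BC Sb F)
    (hB : BC Sb B) : Integrable (fun ω => ‖F (XX Sb ω)‖ ^ 4 * ‖B (XX Sb ω)‖ ^ 2) (PP0 Sb) := by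
  have h := ((hF.mul hF).mul hB).norm_sq.integrable
  refine h.congr (Filter.Eventually.of_forall fun ω => ?_)
  simp only [norm_mul]
  ring

/-- Cauchy-Schwarz for the random model. -/
lemma rz_bound {m : ℕ} {Sb : Fin m → Finset ℕ} {F1 F2 Q B : (ℕ → ℂ) → ℂ} (h1 : BC Sb F1)
    (h2 : BC Sb F2) (hQ : BC Sb Q) (hB : BC Sb B) :
    ‖ER Sb (fun f => F1 f * (starRingEnd ℂ) (F2 f) * (Q f * B f * (starRingEnd ℂ) (Q f * B f)))‖ ≤
      1 / 4 * ER Sb (fun f => ‖F1 f‖ ^ 4 * ‖B f‖ ^ 2) +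
      1 / 4 * ER Sb (fun f => ‖F2 f‖ ^ 4 * ‖B f‖ ^ 2) +
      1 / 2 * ER Sb (fun f => ‖Q f‖ ^ 4 * ‖B f‖ ^ 2) := by
  have i1 := int_pow4 h1 hB
  have i2 := int_pow4 h2 hB
  have i3 := int_pow4 hQ hB
  have j12 : Integrable (fun ω => 1 / 4 * (‖F1 (XX Sb ω)‖ ^ 4 * ‖B (XX Sb ω)‖ ^ 2) +
      1 / 4 * (‖F2 (XX Sb ω)‖ ^ 4 * ‖B (XX Sb ω)‖ ^ 2)) (PP0 Sb) :=
    (i1.const_mul _).add (i2.const_mul _)
  simp only [ER_eq]
  rw [← integral_const_mul, ← integral_const_mul, ← integral_const_mul,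
    ← integral_add (i1.const_mul _) (i2.const_mul _),
    ← integral_add j12 (i3.const_mul _)]
  refine (norm_integral_le_integral_norm _).trans ?_
  refine integral_mono_of_nonneg (Filter.Eventually.of_forall fun ω => norm_nonneg _)
    (j12.add (i3.const_mul _)) (Filter.Eventually.of_forall fun ω => ?_)
  simp only [norm_mul, RCLike.norm_conj]
  have := amgm (x := ‖F1 (XX Sb ω)‖) (y := ‖F2 (XX Sb ω)‖) (z := ‖Q (XX Sb ω)‖)
    (A := ‖B (XX Sb ω)‖ ^ 2) (by positivity)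
  calc _ = ‖F1 (XX Sb ω)‖ * ‖F2 (XX Sb ω)‖ * (‖Q (XX Sb ω)‖ ^ 2 * ‖B (XX Sb ω)‖ ^ 2) := by ring
    _ ≤ _ := this

lemma qc_sum (T ν : ℝ) (f : ℕ → ℂ) :
    ∑ n ∈ Finset.Icc 1 ⌊T⌋₊, qc T ν n * tw (1 / 2) f n =
      FourG.SG Vc T (tw (1 / 2 + ((1 / Real.log T : ℝ) : ℂ) + ν * I) f) := by
  rw [FourG.SG]
  refine Finset.sum_congr rfl fun n hn => ?_
  rw [Finset.mem_Icc] at hn
  have h0 : (n : ℂ) ≠ 0 := by
    have : n ≠ 0 := by omega
    exact_mod_cast this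
  simp only [qc, tw]
  rw [show -(1 / 2 + ((1 / Real.log T : ℝ) : ℂ) + ν * I) =
    -(((1 / Real.log T : ℝ) : ℂ) + ν * I) + -(1 / 2 : ℂ) by ring, cpow_add _ _ h0]
  ring

lemma norm_z_le {L ν ξ : ℝ} (hL : 0 < L) :
    1 + ‖(2 : ℂ) + ((L * ν - 2 * Real.pi * ξ : ℝ) : ℂ) * I‖ ≤ 7 * (1 + L * |ν|) * (1 + |ξ|) := by
  have h1 : ‖(2 : ℂ) + ((L * ν - 2 * Real.pi * ξ : ℝ) : ℂ) * I‖ ≤ 2 + |L * ν - 2 * Real.pi * ξ| := by
    refine (norm_add_le _ _).trans ?_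
    rw [norm_mul, norm_I, mul_one, norm_real, Real.norm_eq_abs, Complex.norm_ofNat]
  have h2 : |L * ν - 2 * Real.pi * ξ| ≤ L * |ν| + 7 * |ξ| := by
    refine (abs_sub _ _).trans ?_
    rw [abs_mul, abs_mul, abs_mul, abs_of_pos hL, abs_of_pos Real.pi_pos, abs_of_pos (by norm_num : (0:ℝ) < 2)]
    have := Real.pi_lt_d2
    have h3 : 2 * Real.pi * |ξ| ≤ 7 * |ξ| := by
      gcongr
      linarith
    linarith
  have h4 : 0 ≤ L * |ν| := by positivity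
  have h5 : 0 ≤ |ξ| := abs_nonneg _
  nlinarith [mul_nonneg h4 h5]

end Main4

open Main4 in
/-- (R3) the arithmetic factor of our product polynomials -/
theorem stMain4 (h1 : StRand4) (h2 : StFB4) (h3 : StCo) : StMain4 := by
  obtain ⟨C, M₀, hR⟩ := h1
  obtain ⟨g0, hg0, hgi, hFB⟩ := h2
  obtain ⟨T₁, hT₁, hCo⟩ := h3
  obtain ⟨Cp, hCp, hprod⟩ := prod_bound
  set Ig : ℝ := ∫ ξ : ℝ, g0 ξ * (1 + |ξ|) ^ C with hIg
  have hIg0 : 0 ≤ Ig := integral_nonneg fun ξ => mul_nonneg (hg0 ξ) (by positivity)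
  set D : ℝ := Cp * (2 ^ C + 7 ^ C * Ig) with hD
  have hD0 : 0 < D := by positivity
  refine ⟨C + ⌈Real.log D⌉₊, max M₀ 1, fun M hM => ?_⟩
  obtain ⟨T₂, hT₂, hR2⟩ := hR M ((le_max_left _ _).trans hM)
  refine ⟨max (max T₁ T₂) 10, (by
    have := le_max_right (max T₁ T₂) 10
    linarith), fun T hT k hk1 hk2 g h hgh b hb hAA ν a ha => ?_⟩
  have hTT₁ : T₁ ≤ T := ((le_max_left _ _).trans (le_max_left _ _)).trans hT
  have hTT₂ : T₂ ≤ T := ((le_max_right _ _).trans (le_max_left _ _)).trans hT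
  have hT10 : 10 ≤ T := (le_max_right _ _).trans hT
  have hT1 : 1 < T := by linarith
  have hT0 : 0 < T := by linarith
  have hM1 : 1 ≤ M := (le_max_right _ _).trans hM
  have hL2 : 2 < Real.log T := by
    rw [Real.lt_log_iff_exp_lt hT0]
    have h := Real.exp_one_lt_d9
    have : Real.exp 2 = Real.exp 1 * Real.exp 1 := by rw [← Real.exp_add]; norm_num
    rw [this]
    have h' := Real.exp_pos 1
    nlinarith
  have hL0 : 0 < Real.log T := by linarith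
  obtain ⟨-, -, -, -, -, hconv⟩ := hCo T hTT₁ ν b hb
  have hB := blk_SB hT1 M (JJ T)
  have hUU := UU_SB hT1 M (JJ T)
  have hprime : ∀ p ∈ PS 0 T, p.Prime := fun p hp => ((mem_PS le_rfl hT0.le).mp hp).1
  -- the functionals
  set A : (ℕ → ℂ) → ℂ := AA T M (JJ T) (k - 2) g h with hA
  set G : (ℕ → ℂ) → ℂ := fun f => (∑ n ∈ Finset.Icc 1 ⌊T⌋₊, qc T ν n * f n) * A f with hG
  have hGf : ∀ f, CMul f → G f = ∑ n ∈ Finset.Icc 1 ⌊T ^ (51 / 100 : ℝ)⌋₊, cH T ν b n * f n := by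
    intro f hf
    rw [hG]
    show (∑ n ∈ Finset.Icc 1 ⌊T⌋₊, qc T ν n * f n) * A f = _
    rw [hAA f hf]
    exact (hconv f hf).symm
  have hN : T ^ (51 / 100 : ℝ) ≤ T := by
    calc T ^ (51 / 100 : ℝ) ≤ T ^ (1 : ℝ) := Real.rpow_le_rpow_of_exponent_le hT1.le (by norm_num)
      _ = T := Real.rpow_one T
  have hare : |a.re| ≤ 1 / Real.log T := by rw [← ha]; exact abs_re_le_norm a
  have h1L : 1 / Real.log T < 1 / 2 := one_div_lt_one_div_of_lt (by norm_num) hL2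
  have hare' : -(1 / 2) < a.re := by
    have := (abs_le.mp hare).1
    linarith
  have hRF : ThreeLines.RF (Nh T) (cH T ν b) a = RA T M G a a := by
    rw [FinM.formula hT1 hN (cH T ν b) G hGf M a a hare' hare']
    rfl
  rw [hRF, RA, norm_mul]
  have hP := hprod T (by linarith) a ha
  -- bound of RZ
  have hwa : 0 < (1 / 2 + a : ℂ).re := by rw [add_re]; norm_num; linarith
  have hwb : 0 < (1 / 2 + (starRingEnd ℂ) a : ℂ).re := by rw [add_re, conj_re]; norm_num; linarith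
  have b1 : BC (SB T M (JJ T)) (fun f => ZZ (PS 0 T) (tw (1 / 2 + a) f)) := bc_ZZ hprime hwa
  have b2 : BC (SB T M (JJ T)) (fun f => ZZ (PS 0 T) (tw (1 / 2 + (starRingEnd ℂ) a) f)) :=
    bc_ZZ hprime hwb
  have b3 : BC (SB T M (JJ T)) (fun f => ∑ n ∈ Finset.Icc 1 ⌊T⌋₊, qc T ν n * tw (1 / 2) f n) :=
    bc_lin _ _ _
  have b4 : BC (SB T M (JJ T)) (fun f => A (tw (1 / 2) f)) := by
    refine bc_congr (bc_lin (Finset.Icc 1 (Na T)) b (1 / 2)) fun ω => ?_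
    exact (hAA _ (cmul_tw (cmul_XX _ ω) _)).symm
  have hRZ := rz_bound b1 b2 b3 b4
  -- the common bound
  set K : ℝ := Real.exp (C * M) * (Real.log T) ^ (k ^ 2) * ∏ j ∈ h, ss M (JJ T) j with hK
  have hss : 0 ≤ ∏ j ∈ h, ss M (JJ T) j := Finset.prod_nonneg fun j _ => (Real.exp_pos _).le
  have hK0 : 0 ≤ K := by
    have : 0 < (Real.log T) ^ (k ^ 2) := Real.rpow_pos_of_pos hL0 _
    positivity
  have hRz : ∀ z : ℂ, -1 ≤ z.re → ER (SB T M (JJ T)) (fun f =>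
      ‖ZZ (PS 0 T) (tw ((1 / 2 : ℂ) + z / Real.log T) f)‖ ^ 4 * ‖A (tw (1 / 2) f)‖ ^ 2) ≤
        (1 + ‖z‖) ^ C * K := by
    intro z hz
    have := hR2 T hTT₂ k hk1 hk2 g h hgh z hz
    rw [hUU] at this
    refine this.trans (le_of_eq ?_)
    rw [hK]; ring
  have hLC : (Real.log T : ℂ) ≠ 0 := by exact_mod_cast hL0.ne'
  have hx : 1 ≤ 1 + Real.log T * |ν| := by
    have : 0 ≤ Real.log T * |ν| := by positivity
    linarith
  have hone : (1 : ℝ) ≤ (1 + Real.log T * |ν|) ^ C := one_le_pow₀ hx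
  have c1 : ER (SB T M (JJ T)) (fun f => ‖ZZ (PS 0 T) (tw (1 / 2 + a) f)‖ ^ 4 *
      ‖A (tw (1 / 2) f)‖ ^ 2) ≤ 2 ^ C * K := by
    have := hRz (a * Real.log T) (by
      rw [re_mul_ofReal]
      have := (abs_le.mp hare).1
      have h' : -(1 / Real.log T) * Real.log T = -1 := by field_simp
      nlinarith)
    rw [mul_div_assoc, div_self hLC, mul_one, norm_mul, ha, norm_real, Real.norm_eq_abs,
      abs_of_pos hL0, one_div_mul_cancel hL0.ne'] at this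
    refine this.trans (le_of_eq ?_)
    norm_num
  have c2 : ER (SB T M (JJ T)) (fun f => ‖ZZ (PS 0 T) (tw (1 / 2 + (starRingEnd ℂ) a) f)‖ ^ 4 *
      ‖A (tw (1 / 2) f)‖ ^ 2) ≤ 2 ^ C * K := by
    have := hRz ((starRingEnd ℂ) a * Real.log T) (by
      rw [re_mul_ofReal, conj_re]
      have := (abs_le.mp hare).1
      have h' : -(1 / Real.log T) * Real.log T = -1 := by field_simp
      nlinarith)
    rw [mul_div_assoc, div_self hLC, mul_one, norm_mul, RCLike.norm_conj, ha, norm_real,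
      Real.norm_eq_abs, abs_of_pos hL0, one_div_mul_cancel hL0.ne'] at this
    refine this.trans (le_of_eq ?_)
    norm_num
  have c3 : ER (SB T M (JJ T)) (fun f => ‖∑ n ∈ Finset.Icc 1 ⌊T⌋₊, qc T ν n * tw (1 / 2) f n‖ ^ 4 *
      ‖A (tw (1 / 2) f)‖ ^ 2) ≤ 7 ^ C * Ig * (1 + Real.log T * |ν|) ^ C * K := by
    set w : ℂ := 1 / 2 + ((1 / Real.log T : ℝ) : ℂ) + ν * I with hw
    have hwre : 0 < w.re := by
      have : w.re = 1 / 2 + 1 / Real.log T := by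
        rw [hw]; simp
      rw [this]; positivity
    obtain ⟨f1, f2⟩ := hFB _ (SB T M (JJ T)) hB T hT1 (fun n hn1 hn2 => mem_factored hT1 M (JJ T) hn1 hn2)
      w hwre (fun f => A (tw (1 / 2) f)) b4
    have e0 : ER (SB T M (JJ T)) (fun f => ‖∑ n ∈ Finset.Icc 1 ⌊T⌋₊, qc T ν n * tw (1 / 2) f n‖ ^ 4 *
      ‖A (tw (1 / 2) f)‖ ^ 2) = ER (SB T M (JJ T)) (fun f => ‖FourG.SG Vc T (tw w f)‖ ^ 4 *
        ‖A (tw (1 / 2) f)‖ ^ 2) := by
      simp only [qc_sum, hw]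
    rw [e0]
    refine f1.trans ?_
    have hgi' : Integrable (fun ξ : ℝ => (g0 ξ * (1 + |ξ|) ^ C) *
        (7 ^ C * (1 + Real.log T * |ν|) ^ C * K)) := (hgi C).mul_const _
    have e1 : ∫ ξ : ℝ, (g0 ξ * (1 + |ξ|) ^ C) * (7 ^ C * (1 + Real.log T * |ν|) ^ C * K) =
        7 ^ C * Ig * (1 + Real.log T * |ν|) ^ C * K := by
      rw [integral_mul_const]; ring
    rw [← e1]
    refine integral_mono f2 hgi' fun ξ => ?_
    show g0 ξ * _ ≤ _
    rw [hUU]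
    have e2 : w + (1 - 2 * Real.pi * ξ * I) / Real.log T = (1 / 2 : ℂ) +
        ((2 : ℂ) + ((Real.log T * ν - 2 * Real.pi * ξ : ℝ) : ℂ) * I) / Real.log T := by
      rw [hw]
      push_cast
      field_simp
      ring
    rw [e2]
    have h5 := hRz ((2 : ℂ) + ((Real.log T * ν - 2 * Real.pi * ξ : ℝ) : ℂ) * I) (by
      rw [add_re, re_ofReal_mul, I_re]; norm_num)
    calc g0 ξ * ER (SB T M (JJ T)) (fun f =>
        ‖ZZ (PS 0 T) (tw ((1 / 2 : ℂ) + ((2 : ℂ) + ((Real.log T * ν - 2 * Real.pi * ξ : ℝ) : ℂ) * I) /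
          Real.log T) f)‖ ^ 4 * ‖A (tw (1 / 2) f)‖ ^ 2) ≤
        g0 ξ * ((1 + ‖(2 : ℂ) + ((Real.log T * ν - 2 * Real.pi * ξ : ℝ) : ℂ) * I‖) ^ C * K) :=
          mul_le_mul_of_nonneg_left h5 (hg0 ξ)
      _ ≤ g0 ξ * ((7 * (1 + Real.log T * |ν|) * (1 + |ξ|)) ^ C * K) := by
          have h6 := norm_z_le (ν := ν) (ξ := ξ) hL0
          refine mul_le_mul_of_nonneg_left ?_ (hg0 ξ)
          gcongr
      _ = (g0 ξ * (1 + |ξ|) ^ C) * (7 ^ C * (1 + Real.log T * |ν|) ^ C * K) := by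
          rw [mul_pow, mul_pow]; ring
  have hRZ' : ‖RZ T M G a a‖ ≤ (2 ^ C + 7 ^ C * Ig) * (1 + Real.log T * |ν|) ^ C * K := by
    have e : RZ T M G a a = ER (SB T M (JJ T)) (fun f => ZZ (PS 0 T) (tw (1 / 2 + a) f) *
        (starRingEnd ℂ) (ZZ (PS 0 T) (tw (1 / 2 + (starRingEnd ℂ) a) f)) *
        (((∑ n ∈ Finset.Icc 1 ⌊T⌋₊, qc T ν n * tw (1 / 2) f n) * A (tw (1 / 2) f)) *
          (starRingEnd ℂ) ((∑ n ∈ Finset.Icc 1 ⌊T⌋₊, qc T ν n * tw (1 / 2) f n) *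
            A (tw (1 / 2) f)))) := rfl
    rw [e]
    refine hRZ.trans ?_
    have h2C : (0 : ℝ) ≤ 2 ^ C * K := by positivity
    have hle : 2 ^ C * K ≤ 2 ^ C * (1 + Real.log T * |ν|) ^ C * K := by
      have : 2 ^ C * K * 1 ≤ 2 ^ C * K * (1 + Real.log T * |ν|) ^ C := by gcongr
      linarith
    have h7 : 0 ≤ 7 ^ C * Ig * (1 + Real.log T * |ν|) ^ C * K := by positivity
    have e3 : (2 ^ C + 7 ^ C * Ig) * (1 + Real.log T * |ν|) ^ C * K =
      2 ^ C * (1 + Real.log T * |ν|) ^ C * K + 7 ^ C * Ig * (1 + Real.log T * |ν|) ^ C * K := by ring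
    rw [e3]
    linarith
  -- final assembly
  have hDexp : D ≤ Real.exp (⌈Real.log D⌉₊ * M) := by
    rw [← Real.exp_log hD0]
    apply Real.exp_le_exp.mpr
    have h8 : Real.log D ≤ ⌈Real.log D⌉₊ := Nat.le_ceil _
    have h9 : (1 : ℝ) ≤ M := by exact_mod_cast hM1
    have h10 : (0 : ℝ) ≤ ⌈Real.log D⌉₊ := by positivity
    rw [Real.exp_log hD0]
    nlinarith
  have hLk : (Real.log T) ^ (k ^ 2) / Real.log T = (Real.log T) ^ (k ^ 2 - 1) := by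
    rw [Real.rpow_sub hL0, Real.rpow_one]
  calc ‖RZ T M G a a‖ * ‖∏ p ∈ PS 0 T, (1 - (p : ℂ) ^ (-(1 + a + a)))‖ ≤
      ((2 ^ C + 7 ^ C * Ig) * (1 + Real.log T * |ν|) ^ C * K) * (Cp / Real.log T) := by
        gcongr
    _ = D * Real.exp (C * M) * (1 + Real.log T * |ν|) ^ C *
        ((Real.log T) ^ (k ^ 2) / Real.log T) * ∏ j ∈ h, ss M (JJ T) j := by
        rw [hD, hK]; ring
    _ ≤ Real.exp (⌈Real.log D⌉₊ * M) * Real.exp (C * M) *
        (1 + Real.log T * |ν|) ^ (C + ⌈Real.log D⌉₊) *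
        ((Real.log T) ^ (k ^ 2) / Real.log T) * ∏ j ∈ h, ss M (JJ T) j := by
        have h11 : (1 + Real.log T * |ν|) ^ C ≤ (1 + Real.log T * |ν|) ^ (C + ⌈Real.log D⌉₊) :=
          pow_le_pow_right₀ hx (by omega)
        have h12 : 0 ≤ (Real.log T) ^ (k ^ 2) / Real.log T := by
          have : 0 < (Real.log T) ^ (k ^ 2) := Real.rpow_pos_of_pos hL0 _
          positivity
        gcongr
    _ = _ := by
        rw [hLk, ← Real.exp_add]
        push_cast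
        ring_nf

end F4
end Pool.Agent.Lib.MP_973905_nt
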