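import Pool.Agent.Lib.MP_973905_nt.F4.KXb

/-! Module (N8): diagonal and off-diagonal terms of the double series. -/

namespace Pool.Agent.Lib.MP_973905_nt
namespace F4

open MeasureTheory ProbabilityTheory Complex Filter Topology K1

namespace Off

open KXb

/-- One term of the double series. -/
noncomputable def tt (X : ℝ) (a c : ℂ) (h k : ℕ) (p : ℕ × ℕ) : ℂ :=
  ((p.1 * p.2 : ℕ) : ℂ) ^ (-(1 / 2 + a)) * KX X c (Real.log ((p.1 * h : ℕ) / (p.2 * k : ℕ) : ℝ))

lemma Fp_eq (X : ℝ) (a c : ℂ) (h k : ℕ) : Fp X a c h k = ∑' p, tt X a c h k p := rfl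

lemma ne_exp {a : ℂ} (ha : a.re = 9 / 16) : (-(1 / 2 + a)) ≠ 0 := by
  intro h
  have := congrArg re h
  simp only [neg_re, add_re, ha, zero_re] at this
  norm_num at this

/-- The summable majorant. -/
noncomputable def mj (p : ℕ × ℕ) : ℝ := (p.1 : ℝ) ^ (-(17 / 16) : ℝ) * (p.2 : ℝ) ^ (-(17 / 16) : ℝ)

lemma mj_nonneg (p : ℕ × ℕ) : 0 ≤ mj p := by unfold mj; positivity

lemma summable_mj : Summable mj := by
  have h : Summable fun n : ℕ => (n : ℝ) ^ (-(17 / 16) : ℝ) :=
    Real.summable_nat_rpow.2 (by norm_num)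
  exact h.mul_of_nonneg h (fun n => by positivity) (fun n => by positivity)

lemma norm_pow_le {a : ℂ} (ha : a.re = 9 / 16) (p : ℕ × ℕ) :
    ‖((p.1 * p.2 : ℕ) : ℂ) ^ (-(1 / 2 + a))‖ ≤ mj p := by
  rcases Nat.eq_zero_or_pos (p.1 * p.2) with h | h
  · rw [h, Nat.cast_zero, zero_cpow (ne_exp ha), norm_zero]
    exact mj_nonneg p
  · rw [norm_natCast_cpow_of_pos h]
    have e : (-(1 / 2 + a)).re = -(17 / 16) := by
      simp only [neg_re, add_re, ha]
      norm_num
    rw [e, mj, Nat.cast_mul, Real.mul_rpow (by positivity) (by positivity)]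

variable {a c : ℂ} {X : ℝ} {h k : ℕ}

lemma norm_tt_le (ha : a.re = 9 / 16) (h1 : 8 ≤ c.re) (h2 : c.re ≤ 16) (p : ℕ × ℕ) :
    ‖tt X a c h k p‖ ≤ mj p * Real.exp (28 + 4 * ‖c‖) := by
  rw [tt, norm_mul]
  exact mul_le_mul (norm_pow_le ha p) (norm_KX_le h1 h2 _ _) (norm_nonneg _) (mj_nonneg p)

/-- The difference `m h - n k`. -/
def dd (h k : ℕ) (p : ℕ × ℕ) : ℤ := (p.1 : ℤ) * h - (p.2 : ℤ) * k

/-- The truncated terms. -/
noncomputable def ts (X : ℝ) (a c : ℂ) (h k : ℕ) (p : ℕ × ℕ) : ℂ :=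
  if dd h k p = 0 then tt X a c h k p else
    (Real.smoothTransition ((p.1 * h : ℝ) / |(dd h k p : ℝ)| - 2) : ℂ) * tt X a c h k p

lemma norm_ts_le (ha : a.re = 9 / 16) (h1 : 8 ≤ c.re) (h2 : c.re ≤ 16) (p : ℕ × ℕ) :
    ‖ts X a c h k p‖ ≤ mj p * Real.exp (28 + 4 * ‖c‖) := by
  unfold ts
  split_ifs with h0
  · exact norm_tt_le ha h1 h2 p
  · rw [norm_mul, norm_real, Real.norm_eq_abs, abs_of_nonneg (Real.smoothTransition.nonneg _)]
    calc _ ≤ 1 * ‖tt X a c h k p‖ := by
          gcongr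
          exact Real.smoothTransition.le_one _
      _ ≤ _ := by rw [one_mul]; exact norm_tt_le ha h1 h2 p

lemma log_far_pos {z : ℝ} (h1 : 1 < z) (h3 : z < 3) : 1 / 4 ≤ |Real.log (z / (z - 1))| := by
  have h4 : 0 < z - 1 := by linarith
  have h5 : 3 / 2 ≤ z / (z - 1) := by
    rw [le_div_iff₀ h4]; linarith
  have h6 : Real.log (3 / 2) ≤ Real.log (z / (z - 1)) := Real.log_le_log (by norm_num) h5
  have h7 : 1 / 4 ≤ Real.log (3 / 2) := by
    have := Real.one_sub_inv_le_log_of_pos (show (0 : ℝ) < 3 / 2 by norm_num)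
    norm_num at this
    linarith
  exact (h7.trans h6).trans (le_abs_self _)

lemma log_far_neg {z : ℝ} (h1 : 0 < z) (h3 : z < 3) : 1 / 4 ≤ |Real.log (z / (z + 1))| := by
  have h4 : 0 < z + 1 := by linarith
  have h5 : z / (z + 1) ≤ 3 / 4 := by
    rw [div_le_iff₀ h4]; linarith
  have h6 : Real.log (z / (z + 1)) ≤ Real.log (3 / 4) := Real.log_le_log (by positivity) h5
  have h7 : Real.log (3 / 4) ≤ -(1 / 4) := by
    have := Real.log_le_sub_one_of_pos (show (0 : ℝ) < 3 / 4 by norm_num)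
    linarith
  have h8 := neg_le_abs (Real.log (z / (z + 1)))
  linarith

/-- Far pairs have a large logarithm. -/
lemma far {p : ℕ × ℕ} (hh : 1 ≤ h) (hk : 1 ≤ k) (h1 : 1 ≤ p.1) (h2 : 1 ≤ p.2) (h0 : dd h k p ≠ 0)
    (h3 : (p.1 * h : ℝ) / |(dd h k p : ℝ)| < 3) :
    1 / 4 ≤ |Real.log ((p.1 * h : ℕ) / (p.2 * k : ℕ) : ℝ)| := by
  have hm : (0 : ℝ) < p.1 * h := by
    have : 0 < p.1 * h := Nat.mul_pos (by omega) (by omega)
    exact_mod_cast this
  have hn : (0 : ℝ) < p.2 * k := by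
    have : 0 < p.2 * k := Nat.mul_pos (by omega) (by omega)
    exact_mod_cast this
  have hd : (dd h k p : ℝ) = p.1 * h - p.2 * k := by
    rw [dd]; push_cast; ring
  have hd0 : (dd h k p : ℝ) ≠ 0 := by exact_mod_cast h0
  push_cast
  rcases lt_or_gt_of_ne hd0 with hneg | hpos
  · -- m h < n k
    rw [abs_of_neg hneg] at h3
    have hR : 0 < -(dd h k p : ℝ) := by linarith
    have e : (p.1 * h : ℝ) / (p.2 * k) = ((p.1 * h : ℝ) / -(dd h k p : ℝ)) /
        ((p.1 * h : ℝ) / -(dd h k p : ℝ) + 1) := by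
      have h5 : (p.1 * h : ℝ) / -(dd h k p : ℝ) + 1 = (p.2 * k : ℝ) / -(dd h k p : ℝ) := by
        rw [eq_div_iff hR.ne', add_mul, div_mul_cancel₀ _ hR.ne', hd]
        ring
      rw [h5]
      field_simp
    rw [e]
    exact log_far_neg (by positivity) h3
  · rw [abs_of_pos hpos] at h3
    have e : (p.1 * h : ℝ) / (p.2 * k) = ((p.1 * h : ℝ) / (dd h k p : ℝ)) /
        ((p.1 * h : ℝ) / (dd h k p : ℝ) - 1) := by
      have h5 : (p.1 * h : ℝ) / (dd h k p : ℝ) - 1 = (p.2 * k : ℝ) / (dd h k p : ℝ) := by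
        rw [eq_div_iff hpos.ne', sub_mul, div_mul_cancel₀ _ hpos.ne', hd]
        ring
      rw [h5]
      field_simp
    rw [e]
    refine log_far_pos ?_ h3
    rw [lt_div_iff₀ hpos, hd]
    linarith

lemma tt_zero (ha : a.re = 9 / 16) {p : ℕ × ℕ} (hp : p.1 = 0 ∨ p.2 = 0) : tt X a c h k p = 0 := by
  have : p.1 * p.2 = 0 := by
    rcases hp with hp | hp <;> simp [hp]
  rw [tt, this, Nat.cast_zero, zero_cpow (ne_exp ha), zero_mul]

lemma norm_diff_le (hX : 1 ≤ X) (ha : a.re = 9 / 16) (h1 : 8 ≤ c.re) (h2 : c.re ≤ 16) (hh : 1 ≤ h)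
    (hk : 1 ≤ k) (p : ℕ × ℕ) : ‖tt X a c h k p - ts X a c h k p‖ ≤
      mj p * (Real.exp (28 + 4 * ‖c‖) * (4 ^ 8 * X ^ (-8 : ℝ))) := by
  have hX0 : 0 < X := by linarith
  have hnn : 0 ≤ mj p * (Real.exp (28 + 4 * ‖c‖) * (4 ^ 8 * X ^ (-8 : ℝ))) := by
    have := mj_nonneg p
    positivity
  by_cases hz : p.1 = 0 ∨ p.2 = 0
  · have : ts X a c h k p = 0 := by
      unfold ts
      rw [tt_zero ha hz]
      simp
    rw [tt_zero ha hz, this, sub_zero, norm_zero]
    exact hnn
  push Not at hz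
  have hp1 : 1 ≤ p.1 := Nat.one_le_iff_ne_zero.2 hz.1
  have hp2 : 1 ≤ p.2 := Nat.one_le_iff_ne_zero.2 hz.2
  by_cases h0 : dd h k p = 0
  · rw [ts, if_pos h0, sub_self, norm_zero]
    exact hnn
  by_cases h3 : (p.1 * h : ℝ) / |(dd h k p : ℝ)| < 3
  · have h4 := far hh hk hp1 hp2 h0 h3
    set u := Real.log ((p.1 * h : ℕ) / (p.2 * k : ℕ) : ℝ) with hu
    have hu0 : u ≠ 0 := by
      intro h
      rw [h, abs_zero] at h4
      linarith
    have h5 : ‖KX X c u‖ ≤ Real.exp (28 + 4 * ‖c‖) * (4 ^ 8 * X ^ (-8 : ℝ)) := by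
      refine (norm_KX_far h1 h2 hX0 hu0).trans ?_
      have h6 : (X * |u|) ^ (-8 : ℝ) ≤ (X * (1 / 4)) ^ (-8 : ℝ) :=
        Real.rpow_le_rpow_of_nonpos (by positivity) (by gcongr) (by norm_num)
      have h7 : (X * (1 / 4)) ^ (-8 : ℝ) = 4 ^ 8 * X ^ (-8 : ℝ) := by
        rw [Real.mul_rpow hX0.le (by norm_num), mul_comm]
        congr 1
        rw [Real.rpow_neg (by norm_num)]
        norm_num
      rw [← h7]
      gcongr
    have e : tt X a c h k p - ts X a c h k p =
        ((1 - Real.smoothTransition ((p.1 * h : ℝ) / |(dd h k p : ℝ)| - 2) : ℝ) : ℂ) *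
          tt X a c h k p := by
      rw [ts, if_neg h0]
      push_cast
      ring
    rw [e, norm_mul, norm_real, Real.norm_eq_abs, abs_of_nonneg
      (sub_nonneg.2 (Real.smoothTransition.le_one _)), tt, norm_mul]
    have h8 := Real.smoothTransition.nonneg ((p.1 * h : ℝ) / |(dd h k p : ℝ)| - 2)
    calc _ ≤ 1 * (mj p * (Real.exp (28 + 4 * ‖c‖) * (4 ^ 8 * X ^ (-8 : ℝ)))) := by
          have h9 := norm_pow_le ha p
          have h10 := mj_nonneg p
          gcongr
          linarith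
      _ = _ := one_mul _
  · have h4 : ts X a c h k p = tt X a c h k p := by
      rw [ts, if_neg h0, Real.smoothTransition.one_of_one_le (by linarith)]
      simp
    rw [h4, sub_self, norm_zero]
    exact hnn

/-- The sum over one difference. -/
noncomputable def AD (X : ℝ) (a c : ℂ) (h k : ℕ) (D : ℤ) : ℂ :=
  ∑' b : (dd h k) ⁻¹' {D}, ts X a c h k b

/-- the diagonal -/
lemma AD_zero (ha : a.re = 9 / 16) (hh : 1 ≤ h) (hk : 1 ≤ k) :
    AD X a c h k 0 = Gamma c * (riemannZeta (1 + 2 * a) *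
        ((h / h.gcd k * (k / h.gcd k) : ℕ) : ℂ) ^ (-(1 / 2 + a))) := by
  set g := h.gcd k with hg
  have hg0 : 0 < g := Nat.gcd_pos_of_pos_left _ (by omega)
  set h' := h / g with hh'
  set k' := k / g with hk'
  have eh : h = g * h' := (Nat.mul_div_cancel' (Nat.gcd_dvd_left h k)).symm
  have ek : k = g * k' := (Nat.mul_div_cancel' (Nat.gcd_dvd_right h k)).symm
  have h'0 : 0 < h' := Nat.div_pos (Nat.gcd_le_left k (by omega)) hg0
  have k'0 : 0 < k' := Nat.div_pos (Nat.gcd_le_right h (by omega)) hg0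
  have hco : Nat.Coprime h' k' := Nat.coprime_div_gcd_div_gcd hg0
  have e1 : AD X a c h k 0 = ∑' p, ((dd h k) ⁻¹' {0}).indicator (ts X a c h k) p := by
    rw [AD]
    exact tsum_subtype ((dd h k) ⁻¹' {0}) (ts X a c h k)
  have hinj : Function.Injective fun r : ℕ => (k' * r, h' * r) := by
    intro r s hrs
    simp only [Prod.mk.injEq] at hrs
    exact Nat.eq_of_mul_eq_mul_left k'0 hrs.1
  have hsupp : Function.support (((dd h k) ⁻¹' {0}).indicator (ts X a c h k)) ⊆
      Set.range fun r : ℕ => (k' * r, h' * r) := by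
    intro p hp
    rw [Function.mem_support] at hp
    have hmem : p ∈ (dd h k) ⁻¹' {0} := by
      by_contra hcon
      exact hp (Set.indicator_of_notMem hcon _)
    simp only [Set.mem_preimage, Set.mem_singleton_iff, dd] at hmem
    have h5 : p.1 * h' = p.2 * k' := by
      have h6 : p.1 * h = p.2 * k := by
        have : (p.1 : ℤ) * h = (p.2 : ℤ) * k := by linarith
        exact_mod_cast this
      rw [eh, ek] at h6
      have h7 : g * (p.1 * h') = g * (p.2 * k') := by
        calc g * (p.1 * h') = p.1 * (g * h') := by ring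
          _ = p.2 * (g * k') := by rw [← eh, ← ek] at *; exact_mod_cast h6
          _ = _ := by ring
      exact Nat.eq_of_mul_eq_mul_left hg0 h7
    have h6 : k' ∣ p.1 := by
      have : k' ∣ p.1 * h' := by rw [h5]; exact dvd_mul_left _ _
      exact hco.symm.dvd_of_dvd_mul_right this
    obtain ⟨r, hr⟩ := h6
    refine ⟨r, ?_⟩
    have h7 : p.2 = h' * r := by
      rw [hr] at h5
      have : k' * p.2 = k' * (h' * r) := by
        calc k' * p.2 = p.2 * k' := by ring
          _ = k' * r * h' := h5.symm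
          _ = _ := by ring
      exact Nat.eq_of_mul_eq_mul_left k'0 this
    show (k' * r, h' * r) = p
    rw [← hr, ← h7]
  rw [e1, ← hinj.tsum_eq hsupp]
  have hterm : ∀ r : ℕ, ((dd h k) ⁻¹' {0}).indicator (ts X a c h k) (k' * r, h' * r) =
      (Gamma c * ((h' * k' : ℕ) : ℂ) ^ (-(1 / 2 + a))) * (1 / (r : ℂ) ^ (1 + 2 * a)) := by
    intro r
    have hd : dd h k (k' * r, h' * r) = 0 := by
      simp only [dd]
      rw [show ((h : ℕ) : ℤ) = g * h' by exact_mod_cast eh,
        show ((k : ℕ) : ℤ) = g * k' by exact_mod_cast ek]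
      push_cast
      ring
    rw [Set.indicator_of_mem (by simp [hd]), ts, if_pos hd]
    rcases Nat.eq_zero_or_pos r with h0 | h0
    · rw [tt_zero ha (Or.inl (by simp [h0]))]
      have : (1 + 2 * a) ≠ 0 := by
        intro h
        have := congrArg re h
        simp [ha] at this
        norm_num at this
      rw [h0, Nat.cast_zero, zero_cpow this]
      simp
    · rw [tt]
      have e2 : Real.log (((k' * r * h : ℕ) : ℝ) / ((h' * r * k : ℕ) : ℝ)) = 0 := by
        have e3 : k' * r * h = h' * r * k := by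
          conv_lhs => rw [eh]
          conv_rhs => rw [ek]
          ring
        have e4 : ((h' * r * k : ℕ) : ℝ) ≠ 0 := by
          have : 0 < h' * r * k := Nat.mul_pos (Nat.mul_pos h'0 h0) (by omega)
          exact_mod_cast this.ne'
        rw [e3, div_self e4, Real.log_one]
      simp only [e2, KX_zero]
      have e5 : ((k' * r * (h' * r) : ℕ) : ℂ) ^ (-(1 / 2 + a)) =
          ((h' * k' : ℕ) : ℂ) ^ (-(1 / 2 + a)) * (1 / (r : ℂ) ^ (1 + 2 * a)) := by
        rw [show k' * r * (h' * r) = (h' * k') * (r * r) by ring, Nat.cast_mul (h' * k'),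
          natCast_mul_natCast_cpow]
        congr 1
        have hr0 : (r : ℂ) ≠ 0 := by exact_mod_cast h0.ne'
        rw [Nat.cast_mul r r, natCast_mul_natCast_cpow, ← cpow_add _ _ hr0,
          one_div ((r : ℂ) ^ (1 + 2 * a)), ← cpow_neg]
        congr 1
        ring
      rw [e5]
      ring
  simp only [hterm]
  rw [tsum_mul_left, ← zeta_eq_tsum_one_div_nat_cpow (by
    simp [ha])]
  ring

/-- the off-diagonal terms -/
lemma AD_off (ha : a.re = 9 / 16) (hh : 1 ≤ h) (hk : 1 ≤ k) {e : ℤ} (he : e = 1 ∨ e = -1) {R : ℕ}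
    (hR : 1 ≤ R) : AD X a c h k (e * (R : ℤ)) =
      ((((R : ℝ) ^ 2 / (h * k) : ℝ) : ℂ) ^ (-(1 / 2 + a)) *
        ∑' m : ℕ, if (k : ℤ) ∣ (m : ℤ) * h - e * (R : ℤ) then
          Gz X a c e (m * h / (R : ℝ)) else 0) := by
  set D : ℤ := e * (R : ℤ) with hD
  have hR0 : (0 : ℝ) < R := by exact_mod_cast hR
  have hDabs : |(D : ℝ)| = R := by
    rw [hD]; push_cast
    rcases he with he | he <;> simp [he]
  have hD0 : D ≠ 0 := by
    intro h0
    rw [h0] at hDabs
    simp at hDabs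
    linarith
  have e1 : AD X a c h k D = ∑' p, ((dd h k) ⁻¹' {D}).indicator (ts X a c h k) p := by
    rw [AD]
    exact tsum_subtype ((dd h k) ⁻¹' {D}) (ts X a c h k)
  set φ : ℕ → ℕ × ℕ := fun m => (m, (((m : ℤ) * h - D) / k).toNat) with hφ
  have hinj : Function.Injective φ := by
    intro r s hrs
    simp only [hφ, Prod.mk.injEq] at hrs
    exact hrs.1
  have hk0 : (k : ℤ) ≠ 0 := by exact_mod_cast (by omega : k ≠ 0)
  have hsupp : Function.support (((dd h k) ⁻¹' {D}).indicator (ts X a c h k)) ⊆ Set.range φ := by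
    intro p hp
    rw [Function.mem_support] at hp
    have hmem : p ∈ (dd h k) ⁻¹' {D} := by
      by_contra hcon
      exact hp (Set.indicator_of_notMem hcon _)
    simp only [Set.mem_preimage, Set.mem_singleton_iff, dd] at hmem
    refine ⟨p.1, ?_⟩
    simp only [hφ]
    have h5 : (p.1 : ℤ) * h - D = (p.2 : ℤ) * k := by linarith
    rw [h5, Int.mul_ediv_cancel _ hk0]
    simp
  rw [e1, ← hinj.tsum_eq hsupp, ← tsum_mul_left]
  congr 1
  funext m
  have hh0 : (0 : ℝ) < h := by exact_mod_cast hh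
  have hkr : (0 : ℝ) < k := by exact_mod_cast hk
  -- value of the left side
  by_cases hdvd : (k : ℤ) ∣ (m : ℤ) * h - D
  · rw [if_pos hdvd]
    obtain ⟨q, hq⟩ := hdvd
    by_cases hq1 : 1 ≤ q
    · -- genuine pair
      obtain ⟨n, hn⟩ : ∃ n : ℕ, q = n := ⟨q.toNat, by omega⟩
      have hn1 : 1 ≤ n := by omega
      have e2 : φ m = (m, n) := by
        simp only [hφ]
        rw [hq, Int.mul_ediv_cancel_left _ hk0, hn]
        simp
      have hdd : dd h k (m, n) = D := by
        simp only [dd]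
        rw [hn] at hq
        linarith
      rw [e2, Set.indicator_of_mem (by simp [hdd]), ts, if_neg (by rw [hdd]; exact hD0), hdd, hDabs]
      rcases Nat.eq_zero_or_pos m with hm0 | hm0
      · rw [tt_zero ha (Or.inl hm0)]
        have : Gz X a c e ((m : ℝ) * h / R) = 0 := by
          rw [Gz, Real.smoothTransition.zero_of_nonpos]
          · simp
          · rw [hm0]; simp
        rw [this]; simp
      · have hmr : (0 : ℝ) < m := by exact_mod_cast hm0
        have hnr : (0 : ℝ) < n := by exact_mod_cast hn1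
        set z : ℝ := (m : ℝ) * h / R with hz
        have hrel : (m : ℝ) * h - e * R = n * k := by
          have : (m : ℤ) * h - D = (k : ℤ) * n := by rw [hq, hn]
          rw [hD] at this
          have h6 : ((m : ℤ) * h - e * (R : ℤ) : ℤ) = n * k := by linarith
          exact_mod_cast h6
        have hze : z - e = n * k / R := by
          rw [hz, ← hrel]; field_simp
        have e3 : (m : ℝ) * n = (R : ℝ) ^ 2 / (h * k) * (z * (z - e)) := by
          rw [hze, hz]; field_simp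
        have e4 : (m : ℝ) * h / (n * k) = z / (z - e) := by
          rw [hze, hz]; field_simp
        have hz0 : 0 < z := by positivity
        have hze0 : 0 < z - e := by rw [hze]; positivity
        simp only [tt, Gz]
        have e5 : ((m * n : ℕ) : ℂ) ^ (-(1 / 2 + a)) =
            (((R : ℝ) ^ 2 / (h * k) : ℝ) : ℂ) ^ (-(1 / 2 + a)) *
            ((z * (z - e) : ℝ) : ℂ) ^ (-(1 / 2 + a)) := by
          have : ((m * n : ℕ) : ℂ) = (((R : ℝ) ^ 2 / (h * k) : ℝ) : ℂ) * ((z * (z - e) : ℝ) : ℂ) := by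
            rw [← ofReal_mul, ← e3]
            push_cast
            ring
          rw [this, mul_cpow_ofReal_nonneg (by positivity) (by positivity)]
        have e6 : Real.log (((m * h : ℕ) : ℝ) / ((n * k : ℕ) : ℝ)) = Real.log (z / (z - e)) := by
          push_cast
          rw [e4]
        rw [e5, e6]
        ring
    · -- the pair is not there and Gz vanishes
      have hle : (m : ℤ) * h ≤ D := by
        have : (k : ℤ) * q ≤ 0 := by
          have hk' : (0 : ℤ) ≤ k := by positivity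
          have : q ≤ 0 := by omega
          exact mul_nonpos_of_nonneg_of_nonpos hk' this
        linarith
      have hle' : (m : ℝ) * h ≤ R := by
        have h6 : (m : ℝ) * h ≤ (D : ℝ) := by exact_mod_cast hle
        have h7 : (D : ℝ) ≤ |(D : ℝ)| := le_abs_self _
        rw [hDabs] at h7
        linarith
      have hG : Gz X a c e ((m : ℝ) * h / R) = 0 := by
        rw [Gz, Real.smoothTransition.zero_of_nonpos]
        · simp
        · have : (m : ℝ) * h / R ≤ 1 := by rw [div_le_one hR0]; exact hle'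
          linarith
      rw [hG, mul_zero]
      by_cases hmem : φ m ∈ (dd h k) ⁻¹' {D}
      · rw [Set.indicator_of_mem hmem]
        have h8 : (φ m).2 = 0 := by
          simp only [hφ]
          rw [hq, Int.mul_ediv_cancel_left _ hk0]
          omega
        unfold ts
        rw [tt_zero ha (Or.inr h8)]
        simp
      · rw [Set.indicator_of_notMem hmem]
  · rw [if_neg hdvd, mul_zero]
    apply Set.indicator_of_notMem
    intro hmem
    apply hdvd
    simp only [Set.mem_preimage, Set.mem_singleton_iff, dd, hφ] at hmem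
    refine ⟨((((m : ℤ) * h - D) / k).toNat : ℤ), ?_⟩
    linarith

end Off

open Off KXb in
theorem stOff : StOff := by
  set S0 : ℝ := ∑' p, mj p with hS0
  have hS0n : 0 ≤ S0 := tsum_nonneg mj_nonneg
  refine ⟨28 + 4 + Real.log (4 ^ 8 * (S0 + 1)) + 8, ?_, ?_⟩
  · have : 0 ≤ Real.log (4 ^ 8 * (S0 + 1)) := Real.log_nonneg (by nlinarith)
    linarith
  intro X hX a c ha hc1 hc2 h k hh hk
  have hX0 : 0 < X := by linarith
  set E := Real.exp (28 + 4 * ‖c‖) with hE
  have sum_tt : Summable fun p => ‖tt X a c h k p‖ :=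
    (summable_mj.mul_right E).of_nonneg_of_le (fun p => norm_nonneg _)
      (fun p => norm_tt_le ha hc1 hc2 p)
  have sum_ts : Summable fun p => ‖ts X a c h k p‖ :=
    (summable_mj.mul_right E).of_nonneg_of_le (fun p => norm_nonneg _)
      (fun p => norm_ts_le ha hc1 hc2 p)
  refine ⟨sum_tt, ?_⟩
  -- reorganise the sum of ts
  have hfib : HasSum (fun D : ℤ => AD X a c h k D) (∑' p, ts X a c h k p) :=
    sum_ts.of_norm.hasSum.tsum_fiberwise (dd h k)
  have hsA : Summable fun D : ℤ => AD X a c h k D := hfib.summable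
  have hs1 : Summable fun n : ℕ => AD X a c h k ((n : ℤ) + 1) := by
    have hinj : Function.Injective fun n : ℕ => ((n : ℤ) + 1) := by
      intro m n hmn
      simp only at hmn
      omega
    exact hsA.comp_injective hinj
  have hs2 : Summable fun n : ℕ => AD X a c h k (-((n : ℤ) + 1)) := by
    have hinj : Function.Injective fun n : ℕ => (-((n : ℤ) + 1)) := by
      intro m n hmn
      simp only at hmn
      omega
    exact hsA.comp_injective hinj
  have e1 : ∑' p, ts X a c h k p = (∑' n : ℕ, AD X a c h k ((n : ℤ) + 1)) + AD X a c h k 0 +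
      ∑' n : ℕ, AD X a c h k (-((n : ℤ) + 1)) := by
    rw [← hfib.tsum_eq]
    exact tsum_of_add_one_of_neg_add_one hs1 hs2
  have e2 : ∀ n : ℕ, AD X a c h k ((n : ℤ) + 1) =
      (((((n + 1 : ℕ) : ℝ) ^ 2 / (h * k) : ℝ) : ℂ) ^ (-(1 / 2 + a)) *
        ∑' m : ℕ, if (k : ℤ) ∣ (m : ℤ) * h - 1 * ((n + 1 : ℕ) : ℤ) then
          Gz X a c 1 (m * h / ((n + 1 : ℕ) : ℝ)) else 0) := by
    intro n
    rw [← AD_off ha hh hk (Or.inl rfl) (by omega)]
    congr 1
    push_cast; ring
  have e3 : ∀ n : ℕ, AD X a c h k (-((n : ℤ) + 1)) =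
      (((((n + 1 : ℕ) : ℝ) ^ 2 / (h * k) : ℝ) : ℂ) ^ (-(1 / 2 + a)) *
        ∑' m : ℕ, if (k : ℤ) ∣ (m : ℤ) * h - (-1) * ((n + 1 : ℕ) : ℤ) then
          Gz X a c (-1) (m * h / ((n + 1 : ℕ) : ℝ)) else 0) := by
    intro n
    rw [← AD_off ha hh hk (Or.inr rfl) (by omega)]
    congr 1
    push_cast; ring
  have e4 : Fp X a c h k - Gamma c * (riemannZeta (1 + 2 * a) *
        ((h / h.gcd k * (k / h.gcd k) : ℕ) : ℂ) ^ (-(1 / 2 + a))) -
      ∑ e ∈ ({1, -1} : Finset ℤ), ∑' R : ℕ,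
        (((((R + 1 : ℕ) : ℝ) ^ 2 / (h * k) : ℝ) : ℂ) ^ (-(1 / 2 + a)) *
        ∑' m : ℕ, if (k : ℤ) ∣ (m : ℤ) * h - e * ((R + 1 : ℕ) : ℤ) then
          Gz X a c e (m * h / ((R + 1 : ℕ) : ℝ)) else 0) =
      ∑' p, (tt X a c h k p - ts X a c h k p) := by
    rw [sum_tt.of_norm.tsum_sub sum_ts.of_norm, ← Fp_eq, e1, AD_zero ha hh hk,
      Finset.sum_pair (by norm_num)]
    simp only [e2, e3]
    ring
  rw [e4]
  have hsd : Summable fun p => mj p * (E * (4 ^ 8 * X ^ (-8 : ℝ))) := summable_mj.mul_right _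
  have h5 : ‖∑' p, (tt X a c h k p - ts X a c h k p)‖ ≤ ∑' p, mj p * (E * (4 ^ 8 * X ^ (-8 : ℝ))) :=
    tsum_of_norm_bounded hsd.hasSum fun p => norm_diff_le hX ha hc1 hc2 hh hk p
  refine h5.trans ?_
  rw [tsum_mul_right, ← hS0]
  have hP : 0 ≤ Real.log (4 ^ 8 * (S0 + 1)) := Real.log_nonneg (by nlinarith)
  have hna : 9 / 16 ≤ ‖a‖ := by
    have := abs_re_le_norm a
    rw [ha] at this
    have h7 : |(9 / 16 : ℝ)| = 9 / 16 := by norm_num
    linarith
  have hnc : 8 ≤ ‖c‖ := by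
    have := abs_re_le_norm c
    have h7 := le_abs_self c.re
    linarith
  have h6 : S0 * (E * (4 ^ 8)) ≤
      Real.exp ((28 + 4 + Real.log (4 ^ 8 * (S0 + 1)) + 8) * (‖a‖ + ‖c‖)) := by
    have h7 : S0 * (E * (4 ^ 8)) ≤ E * (4 ^ 8 * (S0 + 1)) := by
      have : 0 < E := Real.exp_pos _
      nlinarith
    refine h7.trans ?_
    have h8 : (4 ^ 8 * (S0 + 1) : ℝ) = Real.exp (Real.log (4 ^ 8 * (S0 + 1))) := by
      rw [Real.exp_log (by positivity)]
    rw [h8, hE, ← Real.exp_add]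
    apply Real.exp_le_exp.2
    rw [Real.log_exp]
    nlinarith
  calc S0 * (E * (4 ^ 8 * X ^ (-8 : ℝ))) = (S0 * (E * (4 ^ 8))) * X ^ (-8 : ℝ) := by ring
    _ ≤ _ := by gcongr

end F4
end Pool.Agent.Lib.MP_973905_nt
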