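import Pool.Agent.Lib.MP_973905_nt.F4.KXb

/-! Module (N9): the double series of a pair. -/

namespace Pool.Agent.Lib.MP_973905_nt
namespace F4

open MeasureTheory ProbabilityTheory Complex Filter Topology K1

namespace Pair

open KXb

/-- number of solutions of a linear congruence -/
lemma count (k h : ℕ) (hk : 1 ≤ k) (r : ℤ) :
    (Finset.range k |>.filter fun x : ℕ => (k : ℤ) ∣ (x : ℤ) * h - r).card =
      if ((h.gcd k : ℕ) : ℤ) ∣ r then h.gcd k else 0 := by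
  set g := h.gcd k with hg
  have hg0 : 0 < g := Nat.gcd_pos_of_pos_right _ (by omega)
  have hgk : (g : ℤ) ∣ (k : ℤ) := by exact_mod_cast Nat.gcd_dvd_right h k
  have hgh : (g : ℤ) ∣ (h : ℤ) := by exact_mod_cast Nat.gcd_dvd_left h k
  split_ifs with hr
  · set h' := h / g with hh'
    set k' := k / g with hk'
    have eh : h = g * h' := (Nat.mul_div_cancel' (Nat.gcd_dvd_left h k)).symm
    have ek : k = g * k' := (Nat.mul_div_cancel' (Nat.gcd_dvd_right h k)).symm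
    have k'0 : 0 < k' := Nat.div_pos (Nat.gcd_le_right h (by omega)) hg0
    have hco : Nat.Coprime h' k' := Nat.coprime_div_gcd_div_gcd hg0
    obtain ⟨r', hr'⟩ := hr
    have : NeZero k' := ⟨k'0.ne'⟩
    set v : ZMod k' := (r' : ZMod k') * ((h' : ZMod k'))⁻¹ with hv
    have hinv : ((h' : ZMod k')) * ((h' : ZMod k'))⁻¹ = 1 := by
      exact ZMod.coe_mul_inv_eq_one h' hco
    have key : ∀ x : ℕ, (k : ℤ) ∣ (x : ℤ) * h - r ↔ x ≡ v.val [MOD k'] := by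
      intro x
      have h1 : ((k : ℤ) ∣ (x : ℤ) * h - r) ↔ ((k' : ℤ) ∣ (x : ℤ) * h' - r') := by
        have e1 : (k : ℤ) = g * k' := by exact_mod_cast ek
        have e2 : (x : ℤ) * h - r = g * ((x : ℤ) * h' - r') := by
          rw [hr', show (h : ℤ) = g * h' by exact_mod_cast eh]
          ring
        rw [e1, e2]
        exact mul_dvd_mul_iff_left (by exact_mod_cast hg0.ne')
      rw [h1, ← ZMod.intCast_zmod_eq_zero_iff_dvd, ← ZMod.natCast_eq_natCast_iff,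
        ZMod.natCast_zmod_val]
      push_cast
      constructor
      · intro h2
        have h3 : (x : ZMod k') * h' = r' := by linear_combination h2
        calc (x : ZMod k') = x * ((h' : ZMod k') * ((h' : ZMod k'))⁻¹) := by rw [hinv, mul_one]
          _ = (x * h') * ((h' : ZMod k'))⁻¹ := by ring
          _ = v := by rw [h3]
      · intro h2
        rw [h2, hv]
        linear_combination (r' : ZMod k') * hinv
    have h2 : (Finset.range k |>.filter fun x : ℕ => (k : ℤ) ∣ (x : ℤ) * h - r) =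
        (Finset.range k |>.filter fun x : ℕ => x ≡ v.val [MOD k']) := by
      apply Finset.filter_congr
      intro x _
      exact key x
    rw [h2, ← Nat.count_eq_card_filter_range, Nat.count_modEq_card _ k'0]
    have h3 : k % k' = 0 := by rw [ek]; exact Nat.mul_mod_left _ _
    have h4 : k / k' = g := by
      conv_lhs => rw [ek]
      exact Nat.mul_div_cancel _ k'0
    rw [h3, h4]
    simp
  · rw [Finset.card_eq_zero, Finset.filter_eq_empty_iff]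
    intro x _ hx
    apply hr
    have h5 : (g : ℤ) ∣ (x : ℤ) * h - r := hgk.trans hx
    have h6 : (g : ℤ) ∣ (x : ℤ) * h := hgh.mul_left _
    have h7 := dvd_sub h6 h5
    simpa using h7

lemma rho_zero (k h : ℕ) (hk : 1 ≤ k) (r : ℤ) :
    rho k h r 0 = if ((h.gcd k : ℕ) : ℤ) ∣ r then ((h.gcd k : ℕ) : ℂ) else 0 := by
  have h1 := count k h hk r
  rw [rho]
  have h2 : ∀ x ∈ Finset.range k, (if (k : ℤ) ∣ (x : ℤ) * h - r then
      cexp (((2 * Real.pi * ((0 : ℤ) : ℝ) * x / k : ℝ) : ℂ) * I) else 0) =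
      if (k : ℤ) ∣ (x : ℤ) * h - r then (1 : ℂ) else 0 := by
    intro x _
    split_ifs <;> simp
  rw [Finset.sum_congr rfl h2, Finset.sum_ite, Finset.sum_const_zero, add_zero, Finset.sum_const,
    h1]
  split_ifs <;> simp

lemma norm_rho_le (k h : ℕ) (r j : ℤ) : ‖rho k h r j‖ ≤ k := by
  rw [rho]
  refine (norm_sum_le _ _).trans ?_
  calc _ ≤ ∑ x ∈ Finset.range k, (1 : ℝ) := by
        refine Finset.sum_le_sum fun x _ => ?_
        split_ifs
        · rw [norm_exp_ofReal_mul_I]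
        · simp
    _ = k := by simp

/-- the zero frequency sum over `R` -/
lemma sum_R {g : ℕ} (hg : 1 ≤ g) {s : ℂ} (hs : 1 < s.re) {e : ℤ} (he : e = 1 ∨ e = -1) :
    Summable (fun R : ℕ => (((R + 1 : ℕ) : ℂ) ^ (-s)) *
      (if ((g : ℕ) : ℤ) ∣ e * ((R + 1 : ℕ) : ℤ) then ((g : ℕ) : ℂ) else 0)) ∧
    ∑' R : ℕ, (((R + 1 : ℕ) : ℂ) ^ (-s)) *
      (if ((g : ℕ) : ℤ) ∣ e * ((R + 1 : ℕ) : ℤ) then ((g : ℕ) : ℂ) else 0) =
      (g : ℂ) ^ (1 - s) * riemannZeta s := by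
  have hg0 : (g : ℂ) ≠ 0 := by exact_mod_cast (by omega : g ≠ 0)
  have hdv : ∀ R : ℕ, (((g : ℕ) : ℤ) ∣ e * ((R + 1 : ℕ) : ℤ)) ↔ g ∣ R + 1 := by
    intro R
    rcases he with he | he
    · rw [he, one_mul]; exact Int.natCast_dvd_natCast
    · rw [he, neg_one_mul, Int.dvd_neg]; exact Int.natCast_dvd_natCast
  set φ : ℕ → ℕ := fun r => g * (r + 1) - 1 with hφ
  have hφ1 : ∀ r, φ r + 1 = g * (r + 1) := by
    intro r
    simp only [hφ]
    have : 1 ≤ g * (r + 1) := Nat.mul_pos (by omega) (by omega)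
    omega
  have hinj : Function.Injective φ := by
    intro a b hab
    have h1 := hφ1 a
    have h2 := hφ1 b
    rw [hab, h2] at h1
    have := Nat.eq_of_mul_eq_mul_left (by omega) h1
    omega
  set F : ℕ → ℂ := fun R => (((R + 1 : ℕ) : ℂ) ^ (-s)) *
      (if ((g : ℕ) : ℤ) ∣ e * ((R + 1 : ℕ) : ℤ) then ((g : ℕ) : ℂ) else 0) with hF
  have hsupp : Function.support F ⊆ Set.range φ := by
    intro R hR
    rw [Function.mem_support] at hR
    have h1 : g ∣ R + 1 := by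
      rw [← hdv]
      by_contra hcon
      apply hR
      simp only [hF]
      rw [if_neg hcon, mul_zero]
    obtain ⟨q, hq⟩ := h1
    have hq0 : q ≠ 0 := by
      rintro rfl
      omega
    refine ⟨q - 1, ?_⟩
    have h2 := hφ1 (q - 1)
    rw [show q - 1 + 1 = q by omega, ← hq] at h2
    omega
  have hterm : ∀ r : ℕ, F (φ r) = (g : ℂ) ^ (1 - s) * (1 / (r + 1 : ℂ) ^ s) := by
    intro r
    simp only [hF]
    rw [if_pos ((hdv _).2 (by rw [hφ1]; exact dvd_mul_right _ _)), hφ1, Nat.cast_mul,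
      natCast_mul_natCast_cpow]
    push_cast
    rw [one_div, ← cpow_neg, sub_eq_add_neg, cpow_add _ _ hg0, cpow_one]
    ring
  have hsum1 : Summable fun r : ℕ => F (φ r) := by
    simp only [hterm]
    refine Summable.mul_left _ ?_
    have h1 := (Complex.summable_one_div_nat_cpow (p := s)).2 hs
    have h2 := (summable_nat_add_iff 1).2 h1
    refine h2.congr fun n => ?_
    push_cast
    rfl
  refine ⟨?_, ?_⟩
  · exact (hinj.summable_iff (fun x hx => by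
      by_contra hcon
      exact hx (hsupp hcon))).1 hsum1
  · rw [← hinj.tsum_eq hsupp]
    simp only [hterm]
    rw [tsum_mul_left, ← zeta_eq_tsum_one_div_nat_add_one_cpow hs]

lemma zeta_bound : ∃ Z : ℝ, 0 < Z ∧ ∀ s : ℂ, s.re = 9 / 8 → ‖riemannZeta s‖ ≤ Z := by
  have hs : Summable fun n : ℕ => 1 / ((n : ℝ)) ^ (9 / 8 : ℝ) :=
    Real.summable_one_div_nat_rpow.2 (by norm_num)
  refine ⟨∑' n : ℕ, 1 / ((n : ℝ)) ^ (9 / 8 : ℝ) + 1, ?_, fun s hre => ?_⟩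
  · have : 0 ≤ ∑' n : ℕ, 1 / ((n : ℝ)) ^ (9 / 8 : ℝ) := tsum_nonneg fun n => by positivity
    linarith
  rw [zeta_eq_tsum_one_div_nat_cpow (by rw [hre]; norm_num)]
  have h1 : ‖∑' n : ℕ, 1 / (n : ℂ) ^ s‖ ≤ ∑' n : ℕ, 1 / ((n : ℝ)) ^ (9 / 8 : ℝ) := by
    refine tsum_of_norm_bounded hs.hasSum fun n => ?_
    rcases Nat.eq_zero_or_pos n with h0 | h0
    · rw [h0]
      have : s ≠ 0 := by
        intro h
        rw [h] at hre
        simp at hre
        norm_num at hre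
      simp [this]
    · rw [norm_div, norm_one, norm_natCast_cpow_of_pos h0, hre]
  linarith

variable {a c : ℂ} {X : ℝ} {h k : ℕ}

/-- the inner sum over nonzero frequencies -/
noncomputable def Aj (X : ℝ) (a c : ℂ) (h k : ℕ) (e : ℤ) (R : ℕ) : ℂ :=
  ∑' j : ℤ, if j = 0 then 0 else rho k h (e * (R + 1)) j * Gh X a c e (j * (R + 1) / (h * k))

lemma summable_inv_sq_int : Summable fun j : ℤ => 1 / (j : ℝ) ^ 2 := by
  have := Real.summable_one_div_int_pow (p := 2)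
  exact this.2 (by norm_num)

lemma Aj_bound {E : ℝ} (hE : 0 ≤ E) (hh : 1 ≤ h) (hk : 1 ≤ k) {e : ℤ}
    (hG : ∀ l : ℝ, l ≠ 0 → ‖Gh X a c e l‖ ≤ E / l ^ 2) (R : ℕ) :
    ‖Aj X a c h k e R‖ ≤ (k * (E * (h * k) ^ 2)) * ∑' j : ℤ, 1 / (j : ℝ) ^ 2 := by
  rw [Aj, ← tsum_mul_left]
  refine tsum_of_norm_bounded (summable_inv_sq_int.mul_left _).hasSum fun j => ?_
  have hhr : (0 : ℝ) < h := by exact_mod_cast hh
  have hkr : (0 : ℝ) < k := by exact_mod_cast hk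
  split_ifs with hj
  · rw [hj]; simp
  · have hj0 : (j : ℝ) ≠ 0 := by exact_mod_cast hj
    have hR0 : (0 : ℝ) < R + 1 := by positivity
    set l : ℝ := j * (R + 1) / (h * k) with hl
    have hl0 : l ≠ 0 := by
      rw [hl]
      positivity
    rw [norm_mul]
    have h1 := norm_rho_le k h (e * (R + 1)) j
    have h2 := hG l hl0
    have h3 : E / l ^ 2 ≤ E * (h * k) ^ 2 * (1 / (j : ℝ) ^ 2) := by
      have e1 : E / l ^ 2 = E * (h * k) ^ 2 * (1 / (j : ℝ) ^ 2) * (1 / ((R : ℝ) + 1) ^ 2) := by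
        rw [hl]; field_simp
      rw [e1]
      have h4 : 1 / ((R : ℝ) + 1) ^ 2 ≤ 1 := by
        rw [div_le_one (by positivity)]
        have : (1 : ℝ) ≤ R + 1 := by
          have : (0 : ℝ) ≤ R := Nat.cast_nonneg R
          linarith
        nlinarith
      have h5 : 0 ≤ E * (h * k) ^ 2 * (1 / (j : ℝ) ^ 2) := by positivity
      nlinarith
    calc ‖rho k h (e * (R + 1)) j‖ * ‖Gh X a c e l‖
        ≤ k * (E * (h * k) ^ 2 * (1 / (j : ℝ) ^ 2)) := by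
          gcongr
          exact h2.trans h3
      _ = _ := by ring

lemma cpow_id (ha : a.re = 9 / 16) (hh : 1 ≤ h) (hk : 1 ≤ k) (R : ℕ) :
    (((((R + 1 : ℕ) : ℝ) ^ 2 / (h * k) : ℝ) : ℂ) ^ (-(1 / 2 + a))) *
      ((((R + 1 : ℕ) : ℝ) / (h * k) : ℝ) : ℂ) =
      ((R + 1 : ℕ) : ℂ) ^ (-(2 * a)) * ((h * k : ℕ) : ℂ) ^ (-(1 / 2 - a)) := by
  have hhr : (0 : ℝ) < h := by exact_mod_cast hh
  have hkr : (0 : ℝ) < k := by exact_mod_cast hk
  have hR0 : (0 : ℝ) < ((R + 1 : ℕ) : ℝ) := by positivity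
  have hRc : ((R + 1 : ℕ) : ℂ) ≠ 0 := by exact_mod_cast (by omega : R + 1 ≠ 0)
  have hhk : ((h * k : ℕ) : ℂ) ≠ 0 := by
    have : 0 < h * k := Nat.mul_pos (by omega) (by omega)
    exact_mod_cast this.ne'
  have hkpos : (0 : ℝ) < h * k := by positivity
  set w : ℂ := -(1 / 2 + a) with hw
  have e1 : ((((R + 1 : ℕ) : ℝ) ^ 2 / (h * k) : ℝ) : ℂ) ^ w =
      ((R + 1 : ℕ) : ℂ) ^ (2 * w) * ((h * k : ℕ) : ℂ) ^ (-w) := by
    rw [div_eq_mul_inv, ofReal_mul, mul_cpow_ofReal_nonneg (by positivity) (by positivity)]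
    congr 1
    · rw [sq, ofReal_mul, mul_cpow_ofReal_nonneg hR0.le hR0.le, ← cpow_add _ _ (by
        exact_mod_cast hRc)]
      rw [two_mul]
      norm_cast
    · rw [ofReal_inv, inv_cpow _ _ (by
        rw [arg_ofReal_of_nonneg hkpos.le]
        exact Real.pi_ne_zero.symm), cpow_neg ((h * k : ℕ) : ℂ) w]
      push_cast
      rfl
  have e2 : ((((R + 1 : ℕ) : ℝ) / (h * k) : ℝ) : ℂ) = ((R + 1 : ℕ) : ℂ) * ((h * k : ℕ) : ℂ)⁻¹ := by
    push_cast
    rw [div_eq_mul_inv]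
  rw [e1, e2]
  have e3 : ((R + 1 : ℕ) : ℂ) ^ (2 * w) * ((R + 1 : ℕ) : ℂ) = ((R + 1 : ℕ) : ℂ) ^ (-(2 * a)) := by
    have : (-(2 * a)) = 2 * w + 1 := by rw [hw]; ring
    rw [this, cpow_add _ _ hRc, cpow_one]
  have e4 : ((h * k : ℕ) : ℂ) ^ (-w) * ((h * k : ℕ) : ℂ)⁻¹ = ((h * k : ℕ) : ℂ) ^ (-(1 / 2 - a)) := by
    have : (-(1 / 2 - a)) = -w + (-1) := by rw [hw]; ring
    rw [this, cpow_add _ _ hhk, cpow_neg_one]
  rw [← e3, ← e4]
  ring

end Pair

open Pair KXb in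
theorem stPair (h4 : StGh) (h5 : StPoi) (h7 : StZero) (h8 : StOff) : StPair := by
  obtain ⟨C4, hC4, h4⟩ := h4
  obtain ⟨C7, hC7, h7⟩ := h7
  obtain ⟨C8, hC8, h8⟩ := h8
  obtain ⟨Z, hZ, hzeta⟩ := zeta_bound
  refine ⟨C7 + C8 + |Real.log Z|, by positivity, ?_⟩
  intro X hX a c ha hc1 hc2 h k hh hk
  have hX0 : 0 < X := by linarith
  obtain ⟨-, h8⟩ := h8 X hX a c ha hc1 hc2 h k hh hk
  have h7 := h7 X hX a c ha hc1 hc2
  set g := h.gcd k with hg
  have hg1 : 1 ≤ g := Nat.gcd_pos_of_pos_left _ (by omega)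
  have h2a : (2 * a).re = 9 / 8 := by
    rw [mul_re, ha]; norm_num
  -- the pieces
  have hE4 : ∀ e : ℤ, e = 1 ∨ e = -1 → ∃ E : ℝ, 0 ≤ E ∧ ∀ l : ℝ, l ≠ 0 → ‖Gh X a c e l‖ ≤ E / l ^ 2 := by
    intro e he
    obtain ⟨-, -, hb⟩ := h4 X hX a c ha hc1 hc2 e he
    exact ⟨Real.exp (C4 * (‖a‖ + ‖c‖)) * X ^ (-(25 / 8) : ℝ), by positivity, fun l hl => (hb l hl).1⟩
  have hsumR : ∀ e : ℤ, e = 1 ∨ e = -1 →
      Summable (fun R : ℕ => ((R + 1 : ℕ) : ℂ) ^ (-(2 * a)) * Aj X a c h k e R) := by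
    intro e he
    obtain ⟨E, hE, hG⟩ := hE4 e he
    have hs : Summable fun R : ℕ => ((R + 1 : ℕ) : ℝ) ^ (-(9 / 8) : ℝ) := by
      have := (Real.summable_nat_rpow (p := (-(9 / 8) : ℝ))).2 (by norm_num)
      exact (summable_nat_add_iff 1).2 this
    refine Summable.of_norm ((hs.mul_right ((k * (E * (h * k) ^ 2)) *
      ∑' j : ℤ, 1 / (j : ℝ) ^ 2)).of_nonneg_of_le (fun R => norm_nonneg _) fun R => ?_)
    rw [norm_mul, norm_natCast_cpow_of_pos (by omega)]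
    have e1 : (-(2 * a)).re = -(9 / 8) := by rw [neg_re, h2a]
    rw [e1]
    gcongr
    exact Aj_bound hE hh hk hG R
  have hpiece : ∀ e : ℤ, e = 1 ∨ e = -1 → (∑' R : ℕ,
        (((((R + 1 : ℕ) : ℝ) ^ 2 / (h * k) : ℝ) : ℂ) ^ (-(1 / 2 + a)) *
        ∑' m : ℕ, if (k : ℤ) ∣ (m : ℤ) * h - e * ((R + 1 : ℕ) : ℤ) then
          Gz X a c e (m * h / ((R + 1 : ℕ) : ℝ)) else 0)) =
      ((h * k : ℕ) : ℂ) ^ (-(1 / 2 - a)) * ((g : ℂ) ^ (1 - 2 * a) * riemannZeta (2 * a) * Gh X a c e 0 +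
        ∑' R : ℕ, ((R + 1 : ℕ) : ℂ) ^ (-(2 * a)) * Aj X a c h k e R) := by
    intro e he
    obtain ⟨hs1, hs2⟩ := sum_R hg1 (s := 2 * a) (by rw [h2a]; norm_num) he
    have e1 : ∀ R : ℕ, (((((R + 1 : ℕ) : ℝ) ^ 2 / (h * k) : ℝ) : ℂ) ^ (-(1 / 2 + a)) *
        ∑' m : ℕ, if (k : ℤ) ∣ (m : ℤ) * h - e * ((R + 1 : ℕ) : ℤ) then
          Gz X a c e (m * h / ((R + 1 : ℕ) : ℝ)) else 0) =
        ((h * k : ℕ) : ℂ) ^ (-(1 / 2 - a)) * ((((R + 1 : ℕ) : ℂ) ^ (-(2 * a)) *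
          (if ((g : ℕ) : ℤ) ∣ e * ((R + 1 : ℕ) : ℤ) then ((g : ℕ) : ℂ) else 0)) * Gh X a c e 0 +
          ((R + 1 : ℕ) : ℂ) ^ (-(2 * a)) * Aj X a c h k e R) := by
      intro R
      obtain ⟨hsm, hp⟩ := h5 X hX a c ha hc1 hc2 e he h k (R + 1) hh hk (by omega)
      rw [hp, ← mul_assoc, cpow_id ha hh hk R, hsm.tsum_eq_add_tsum_ite 0, rho_zero k h hk]
      have e2 : Gh X a c e (((0 : ℤ) : ℝ) * ((R + 1 : ℕ) : ℝ) / (h * k)) = Gh X a c e 0 := by
        congr 1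
        simp
      have e3 : (∑' j : ℤ, if j = 0 then 0 else rho k h (e * ((R + 1 : ℕ) : ℤ)) j *
          Gh X a c e (j * ((R + 1 : ℕ) : ℝ) / (h * k))) = Aj X a c h k e R := by
        rw [Aj]
        push_cast
        rfl
      rw [e2, e3]
      ring
    simp only [e1]
    rw [tsum_mul_left]
    congr 1
    rw [(hs1.mul_right _).tsum_add (hsumR e he), tsum_mul_right, hs2]
  have hRm : Rm X a c h k = ∑ e ∈ ({1, -1} : Finset ℤ),
      ∑' R : ℕ, ((R + 1 : ℕ) : ℂ) ^ (-(2 * a)) * Aj X a c h k e R := rfl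
  have e5 : ∑ e ∈ ({1, -1} : Finset ℤ), ∑' R : ℕ,
        (((((R + 1 : ℕ) : ℝ) ^ 2 / (h * k) : ℝ) : ℂ) ^ (-(1 / 2 + a)) *
        ∑' m : ℕ, if (k : ℤ) ∣ (m : ℤ) * h - e * ((R + 1 : ℕ) : ℤ) then
          Gz X a c e (m * h / ((R + 1 : ℕ) : ℝ)) else 0) =
      ((h * k : ℕ) : ℂ) ^ (-(1 / 2 - a)) * ((g : ℂ) ^ (1 - 2 * a) * riemannZeta (2 * a) *
        (Gh X a c 1 0 + Gh X a c (-1) 0)) + ((h * k : ℕ) : ℂ) ^ (-(1 / 2 - a)) * Rm X a c h k := by
    rw [hRm, Finset.sum_pair (by norm_num), Finset.sum_pair (by norm_num),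
      hpiece 1 (Or.inl rfl), hpiece (-1) (Or.inr rfl)]
    ring
  -- the main term
  set P : ℂ := ((h / g * (k / g) : ℕ) : ℂ) ^ (-(1 / 2 - a)) with hP
  have hg0 : (g : ℂ) ≠ 0 := by exact_mod_cast (by omega : g ≠ 0)
  have e6 : ((h * k : ℕ) : ℂ) ^ (-(1 / 2 - a)) * (g : ℂ) ^ (1 - 2 * a) = P := by
    have eh : h = g * (h / g) := (Nat.mul_div_cancel' (Nat.gcd_dvd_left h k)).symm
    have ek : k = g * (k / g) := (Nat.mul_div_cancel' (Nat.gcd_dvd_right h k)).symm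
    have e7 : h * k = (g * g) * (h / g * (k / g)) := by
      conv_lhs => rw [eh, ek]
      ring
    rw [e7, Nat.cast_mul (g * g), natCast_mul_natCast_cpow, Nat.cast_mul g g,
      natCast_mul_natCast_cpow, ← cpow_add _ _ hg0, hP, mul_right_comm, ← cpow_add _ _ hg0]
    have : -(1 / 2 - a) + -(1 / 2 - a) + (1 - 2 * a) = 0 := by ring
    rw [this, cpow_zero, one_mul]
  have hfe : riemannZeta (1 - 2 * a) = 2 * (2 * Real.pi) ^ (-(2 * a)) * Gamma (2 * a) *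
      cos (Real.pi * a) * riemannZeta (2 * a) := by
    have h1 : ∀ n : ℕ, 2 * a ≠ -n := by
      intro n hn
      have := congrArg re hn
      rw [h2a, neg_re, natCast_re] at this
      have h9 : (0 : ℝ) ≤ n := Nat.cast_nonneg n
      linarith
    have h2 : 2 * a ≠ 1 := by
      intro hn
      have := congrArg re hn
      rw [h2a, one_re] at this
      norm_num at this
    have h3 := riemannZeta_one_sub h1 h2
    rw [h3]
    congr 3
    ring
  have e8 : ((X / (2 * Real.pi) : ℝ) : ℂ) ^ (-(2 * a)) * (2 * Real.pi : ℂ) ^ (-(2 * a)) =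
      (X : ℂ) ^ (-(2 * a)) := by
    have e9 : (2 * Real.pi : ℂ) = ((2 * Real.pi : ℝ) : ℂ) := by push_cast; rfl
    rw [e9, ← mul_cpow_ofReal_nonneg (by positivity) (by positivity), ← ofReal_mul,
      div_mul_cancel₀ _ (by positivity)]
  have e10 : ((X / (2 * Real.pi) : ℝ) : ℂ) ^ (-(2 * a)) * (Gamma (c - 2 * a) *
      (riemannZeta (1 - 2 * a) * P)) =
      P * riemannZeta (2 * a) * (2 * cos (Real.pi * a) * Gamma (2 * a) * Gamma (c - 2 * a) *
        (X : ℂ) ^ (-(2 * a))) := by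
    rw [hfe, ← e8]
    ring
  have e11 : Fp X a c h k - Gamma c * (riemannZeta (1 + 2 * a) *
        ((h / g * (k / g) : ℕ) : ℂ) ^ (-(1 / 2 + a))) -
      ((X / (2 * Real.pi) : ℝ) : ℂ) ^ (-(2 * a)) * (Gamma (c - 2 * a) * (riemannZeta (1 - 2 * a) *
        P)) - ((h * k : ℕ) : ℂ) ^ (-(1 / 2 - a)) * Rm X a c h k =
      (Fp X a c h k - Gamma c * (riemannZeta (1 + 2 * a) *
        ((h / g * (k / g) : ℕ) : ℂ) ^ (-(1 / 2 + a))) -
      ∑ e ∈ ({1, -1} : Finset ℤ), ∑' R : ℕ,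
        (((((R + 1 : ℕ) : ℝ) ^ 2 / (h * k) : ℝ) : ℂ) ^ (-(1 / 2 + a)) *
        ∑' m : ℕ, if (k : ℤ) ∣ (m : ℤ) * h - e * ((R + 1 : ℕ) : ℤ) then
          Gz X a c e (m * h / ((R + 1 : ℕ) : ℝ)) else 0)) +
      P * riemannZeta (2 * a) * (Gh X a c 1 0 + Gh X a c (-1) 0 -
        2 * cos (Real.pi * a) * Gamma (2 * a) * Gamma (c - 2 * a) * (X : ℂ) ^ (-(2 * a))) := by
    rw [e5, e10]
    linear_combination (riemannZeta (2 * a) * (Gh X a c 1 0 + Gh X a c (-1) 0)) * e6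
  rw [e11]
  refine (norm_add_le _ _).trans ?_
  rw [norm_mul, norm_mul]
  have hPn : ‖P‖ = ((h / g * (k / g) : ℕ) : ℝ) ^ (1 / 16 : ℝ) := by
    have hpos : 0 < h / g * (k / g) := Nat.mul_pos (Nat.div_pos (Nat.gcd_le_left k (by omega)) hg1)
      (Nat.div_pos (Nat.gcd_le_right h (by omega)) hg1)
    rw [hP, norm_natCast_cpow_of_pos hpos]
    congr 1
    simp only [neg_re, sub_re, ha]
    norm_num
  have hz := hzeta (2 * a) h2a
  have hna : 0 ≤ ‖a‖ := norm_nonneg a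
  have hnc : 8 ≤ ‖c‖ := by
    have := abs_re_le_norm c
    have h7 := le_abs_self c.re
    linarith
  set N := ‖a‖ + ‖c‖ with hN
  have hN1 : 1 ≤ N := by rw [hN]; linarith
  have hZe : Z ≤ Real.exp (|Real.log Z| * N) := by
    have h1 : Z = Real.exp (Real.log Z) := (Real.exp_log hZ).symm
    calc Z = Real.exp (Real.log Z) := h1
      _ ≤ Real.exp (|Real.log Z| * N) := by
        apply Real.exp_le_exp.2
        have h2 := le_abs_self (Real.log Z)
        have h3 := abs_nonneg (Real.log Z)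
        nlinarith
  have hE8 : Real.exp (C8 * N) ≤ Real.exp ((C7 + C8 + |Real.log Z|) * N) := by
    apply Real.exp_le_exp.2
    have h3 := abs_nonneg (Real.log Z)
    nlinarith
  have hE7 : Z * Real.exp (C7 * N) ≤ Real.exp ((C7 + C8 + |Real.log Z|) * N) := by
    calc Z * Real.exp (C7 * N) ≤ Real.exp (|Real.log Z| * N) * Real.exp (C7 * N) := by gcongr
      _ = Real.exp ((C7 + |Real.log Z|) * N) := by rw [← Real.exp_add]; congr 1; ring
      _ ≤ _ := by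
        apply Real.exp_le_exp.2
        nlinarith
  calc _ ≤ Real.exp (C8 * N) * X ^ (-8 : ℝ) + ‖P‖ * Z * (Real.exp (C7 * N) * X ^ (-(17 / 8) : ℝ)) := by
        gcongr
    _ = Real.exp (C8 * N) * X ^ (-8 : ℝ) +
        (Z * Real.exp (C7 * N)) * (((h / g * (k / g) : ℕ) : ℝ) ^ (1 / 16 : ℝ) *
          X ^ (-(17 / 8) : ℝ)) := by rw [hPn]; ring
    _ ≤ Real.exp ((C7 + C8 + |Real.log Z|) * N) * X ^ (-8 : ℝ) +
        Real.exp ((C7 + C8 + |Real.log Z|) * N) * (((h / g * (k / g) : ℕ) : ℝ) ^ (1 / 16 : ℝ) *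
          X ^ (-(17 / 8) : ℝ)) := by gcongr
    _ = _ := by ring

end F4
end Pool.Agent.Lib.MP_973905_nt
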