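import Pool.Agent.Lib.MP_973905_nt.F4.Stmts

/-! (N5) Poisson summation in an arithmetic progression. -/

namespace Pool.Agent.Lib.MP_973905_nt
namespace F4

open MeasureTheory ProbabilityTheory Complex Filter Topology K1
open scoped FourierTransform

namespace Poi

/-- Fourier transform of a rescaled function. -/
theorem fourier_scale (G : ℝ → ℂ) (l c : ℝ) (hc : 0 < c) :
    𝓕 (fun y : ℝ => G (c * y)) l =
      ((1 / c : ℝ) : ℂ) * ∫ z : ℝ, cexp ((((-2 * Real.pi * z * (l / c) : ℝ)) : ℂ) * I) * G z := by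
  rw [Real.fourier_real_eq_integral_exp_smul]
  have h := MeasureTheory.Measure.integral_comp_mul_left
    (fun z : ℝ => cexp ((((-2 * Real.pi * z * (l / c) : ℝ)) : ℂ) * I) * G z) c
  rw [abs_of_pos (inv_pos.2 hc)] at h
  have h2 : (∫ v : ℝ, cexp ((((-2 * Real.pi * v * l : ℝ)) : ℂ) * I) • G (c * v)) =
      ∫ x : ℝ, cexp ((((-2 * Real.pi * (c * x) * (l / c) : ℝ)) : ℂ) * I) * G (c * x) := by
    congr 1
    funext v
    rw [smul_eq_mul]
    congr 4
    field_simp
  rw [h2, h, one_div, Complex.real_smul]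

/-- The general statement. -/
theorem main (G : ℝ → ℂ) (hG : Continuous G) (h0 : ∀ z : ℝ, z ≤ 2 → G z = 0) (D : ℝ)
    (hD : ∀ z : ℝ, 2 ≤ z → ‖G z‖ ≤ D * z ^ (-(17 / 8) : ℝ))
    (GH : ℝ → ℂ)
    (hGH : ∀ l : ℝ, GH l = ∫ z : ℝ, cexp ((((-2 * Real.pi * z * l)) : ℝ) * I) * G z)
    (D' : ℝ) (hD' : ∀ l : ℝ, l ≠ 0 → ‖GH l‖ ≤ D' / l ^ 2) (r : ℤ) (h k R : ℕ) (hh : 1 ≤ h)
    (hk : 1 ≤ k) (hR : 1 ≤ R) :
    Summable (fun j : ℤ => rho k h r j * GH (j * R / (h * k))) ∧
    (∑' m : ℕ, if (k : ℤ) ∣ (m : ℤ) * h - r then G (m * h / R) else 0) =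
      ((R / (h * k) : ℝ) : ℂ) * ∑' j : ℤ, rho k h r j * GH (j * R / (h * k)) := by
  have hkR : (0 : ℝ) < k := by exact_mod_cast hk
  have hhR : (0 : ℝ) < h := by exact_mod_cast hh
  have hRR : (0 : ℝ) < R := by exact_mod_cast hR
  have hDnn : 0 ≤ D := by
    have h1 := hD 2 le_rfl
    have h2 := (norm_nonneg _).trans h1
    have h3 : (0 : ℝ) < 2 ^ (-(17 / 8) : ℝ) := Real.rpow_pos_of_pos (by norm_num) _
    exact nonneg_of_mul_nonneg_left h2 h3
  set c : ℝ := k * h / R with hcdef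
  have hc : 0 < c := by positivity
  set f : ℝ → ℂ := fun y => G (c * y) with hf
  have hfc : Continuous f := hG.comp (by fun_prop)
  have hbd : ∀ y : ℝ, ‖f y‖ ≤ D * c ^ (-(17 / 8) : ℝ) * |y| ^ (-(17 / 8) : ℝ) := by
    intro y
    by_cases hy : c * y ≤ 2
    · rw [hf]
      simp only
      rw [h0 _ hy, norm_zero]
      positivity
    · push Not at hy
      have hy0 : 0 < y := by
        by_contra hcon
        push Not at hcon
        have : c * y ≤ 0 := mul_nonpos_of_nonneg_of_nonpos hc.le hcon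
        linarith
      refine (hD _ hy.le).trans (le_of_eq ?_)
      rw [Real.mul_rpow hc.le hy0.le, abs_of_pos hy0]
      ring
  have hO : f =O[cocompact ℝ] fun x : ℝ => |x| ^ (-(17 / 8) : ℝ) := by
    refine Asymptotics.IsBigO.of_bound (D * c ^ (-(17 / 8) : ℝ)) (Eventually.of_forall fun y => ?_)
    rw [Real.norm_of_nonneg (by positivity)]
    exact hbd y
  have hFf : ∀ n : ℤ, 𝓕 f (n : ℝ) = ((R / (h * k) : ℝ) : ℂ) * GH (n * R / (h * k)) := by
    intro n
    rw [hf, fourier_scale G n c hc, hGH]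
    have e1 : (1 / c : ℝ) = R / (h * k) := by rw [hcdef]; field_simp
    have e2 : ((n : ℝ) / c : ℝ) = n * R / (h * k) := by rw [hcdef]; field_simp
    rw [e1, e2]
  have hGHs : ∀ n : ℤ, n ≠ 0 → ‖GH (n * R / (h * k))‖ ≤
      (D' * (h * k / R) ^ 2) * |(n : ℝ)| ^ (-2 : ℝ) := by
    intro n hn
    have hn' : (n : ℝ) ≠ 0 := by exact_mod_cast hn
    refine (hD' _ (by positivity)).trans (le_of_eq ?_)
    rw [Real.rpow_neg (abs_nonneg _), Real.rpow_two, sq_abs]
    field_simp
  have hrho : ∀ j : ℤ, ‖rho k h r j‖ ≤ k := by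
    intro j
    unfold rho
    refine (norm_sum_le _ _).trans ?_
    refine (Finset.sum_le_sum (g := fun _ => (1 : ℝ)) fun x _ => ?_).trans ?_
    · split_ifs
      · rw [Complex.norm_exp_ofReal_mul_I]
      · simp
    · simp
  have hsumm : Summable fun n : ℤ => |(n : ℝ)| ^ (-2 : ℝ) := Real.summable_abs_int_rpow one_lt_two
  have hFs : Summable fun n : ℤ => 𝓕 f (n : ℝ) := by
    refine Summable.of_norm_bounded_eventually
      (hsumm.mul_left ((R / (h * k) : ℝ) * (D' * (h * k / R) ^ 2))) ?_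
    filter_upwards [Filter.eventually_cofinite_ne (0 : ℤ)] with n hn
    rw [hFf, norm_mul, Complex.norm_real, Real.norm_of_nonneg (by positivity), mul_assoc]
    exact mul_le_mul_of_nonneg_left (hGHs n hn) (by positivity)
  have hsum1 : Summable (fun j : ℤ => rho k h r j * GH (j * R / (h * k))) := by
    refine Summable.of_norm_bounded_eventually
      (hsumm.mul_left ((k : ℝ) * (D' * (h * k / R) ^ 2))) ?_
    filter_upwards [Filter.eventually_cofinite_ne (0 : ℤ)] with n hn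
    rw [norm_mul, mul_assoc]
    exact mul_le_mul (hrho n) (hGHs n hn) (norm_nonneg _) hkR.le
  refine ⟨hsum1, ?_⟩
  -- Poisson summation for one residue class
  have hpoi : ∀ x : ℕ, x < k → ∑' l : ℕ, G (((x + k * l : ℕ) : ℝ) * h / R) =
      ∑' j : ℤ, ((R / (h * k) : ℝ) : ℂ) * GH (j * R / (h * k)) *
        cexp (((2 * Real.pi * j * x / k : ℝ) : ℂ) * I) := by
    intro x hx
    have h1 := Real.tsum_eq_tsum_fourier_of_rpow_decay_of_summable hfc (by norm_num) hO hFs
      ((x : ℝ) / k)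
    have h2 : ∑' l : ℕ, G (((x + k * l : ℕ) : ℝ) * h / R) = ∑' n : ℤ, f ((x : ℝ) / k + n) := by
      have hinj : Function.Injective (fun n : ℕ => (n : ℤ)) := Nat.cast_injective
      rw [← hinj.tsum_eq (f := fun n : ℤ => f ((x : ℝ) / k + n))]
      · congr 1
        funext l
        rw [hf]
        simp only
        congr 1
        rw [hcdef]
        push_cast
        field_simp
      · intro n hn
        by_contra hcon
        apply hn
        have hn0 : n < 0 := by
          by_contra hge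
          push Not at hge
          exact hcon ⟨n.toNat, Int.toNat_of_nonneg hge⟩
        show G (c * ((x : ℝ) / k + n)) = 0
        apply h0
        have hx1 : (x : ℝ) / k < 1 := by
          rw [div_lt_one hkR]
          exact_mod_cast hx
        have hn1 : (n : ℝ) ≤ -1 := by exact_mod_cast (by omega : n ≤ -1)
        have : c * ((x : ℝ) / k + n) ≤ 0 :=
          mul_nonpos_of_nonneg_of_nonpos hc.le (by linarith)
        linarith
    rw [h2, h1]
    congr 1
    funext j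
    rw [hFf, fourier_coe_apply]
    congr 2
    push_cast
    ring
  have hsj : ∀ x : ℕ, Summable fun j : ℤ => ((R / (h * k) : ℝ) : ℂ) * GH (j * R / (h * k)) *
        cexp (((2 * Real.pi * j * x / k : ℝ) : ℂ) * I) := by
    intro x
    refine Summable.of_norm_bounded hFs.norm fun j => ?_
    rw [norm_mul, Complex.norm_exp_ofReal_mul_I, mul_one, hFf]
  -- summability over the natural numbers
  have hFN : Summable (fun m : ℕ => if (k : ℤ) ∣ (m : ℤ) * h - r then G (m * h / R) else 0) := by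
    have hs : Summable fun m : ℕ => (D * (h / R) ^ (-(17 / 8) : ℝ)) * (m : ℝ) ^ (-(17 / 8) : ℝ) :=
      (Real.summable_nat_rpow.2 (by norm_num)).mul_left _
    refine Summable.of_norm_bounded hs fun m => ?_
    have hmain : ‖G (m * h / R)‖ ≤ (D * (h / R) ^ (-(17 / 8) : ℝ)) * (m : ℝ) ^ (-(17 / 8) : ℝ) := by
      by_cases hy : (m : ℝ) * h / R ≤ 2
      · rw [h0 _ hy, norm_zero]
        positivity
      · push Not at hy
        refine (hD _ hy.le).trans (le_of_eq ?_)
        rw [mul_div_assoc, Real.mul_rpow (by positivity) (by positivity)]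
        ring
    split_ifs
    · exact hmain
    · rw [norm_zero]
      exact (norm_nonneg _).trans hmain
  obtain ⟨k', rfl⟩ : ∃ k', k = k' + 1 := ⟨k - 1, by omega⟩
  rw [Nat.sumByResidueClasses hFN (k' + 1)]
  have hconv : (∑ j : ZMod (k' + 1), ∑' m : ℕ, (if ((k' + 1 : ℕ) : ℤ) ∣
        ((j.val + (k' + 1) * m : ℕ) : ℤ) * h - r then
        G (((j.val + (k' + 1) * m : ℕ) : ℝ) * h / R) else 0)) =
      ∑ x ∈ Finset.range (k' + 1), ∑' m : ℕ, (if ((k' + 1 : ℕ) : ℤ) ∣
        ((x + (k' + 1) * m : ℕ) : ℤ) * h - r then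
        G (((x + (k' + 1) * m : ℕ) : ℝ) * h / R) else 0) :=
    Fin.sum_univ_eq_sum_range (fun x => ∑' m : ℕ, (if ((k' + 1 : ℕ) : ℤ) ∣
        ((x + (k' + 1) * m : ℕ) : ℤ) * h - r then
        G (((x + (k' + 1) * m : ℕ) : ℝ) * h / R) else 0)) (k' + 1)
  rw [hconv]
  have hterm : ∀ x ∈ Finset.range (k' + 1), (∑' m : ℕ, (if ((k' + 1 : ℕ) : ℤ) ∣
        ((x + (k' + 1) * m : ℕ) : ℤ) * h - r then
        G (((x + (k' + 1) * m : ℕ) : ℝ) * h / R) else 0)) =
      ∑' j : ℤ, ((R / (h * (k' + 1 : ℕ)) : ℝ) : ℂ) * (GH (j * R / (h * (k' + 1 : ℕ))) *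
        (if ((k' + 1 : ℕ) : ℤ) ∣ (x : ℤ) * h - r then
          cexp (((2 * Real.pi * j * x / (k' + 1 : ℕ) : ℝ) : ℂ) * I) else 0)) := by
    intro x hx
    have hiff : ∀ m : ℕ, (((k' + 1 : ℕ) : ℤ) ∣ ((x + (k' + 1) * m : ℕ) : ℤ) * h - r) ↔
        (((k' + 1 : ℕ) : ℤ) ∣ (x : ℤ) * h - r) := by
      intro m
      have : ((x + (k' + 1) * m : ℕ) : ℤ) * h - r =
          ((x : ℤ) * h - r) + ((k' + 1 : ℕ) : ℤ) * (m * h) := by
        push_cast; ring
      rw [this]
      exact dvd_add_left (dvd_mul_right _ _)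
    simp only [hiff]
    by_cases hcond : ((k' + 1 : ℕ) : ℤ) ∣ (x : ℤ) * h - r
    · simp only [hcond, if_true]
      rw [hpoi x (Finset.mem_range.1 hx)]
      congr 1
      funext j
      ring
    · simp only [if_neg hcond, mul_zero, tsum_zero]
  rw [Finset.sum_congr rfl hterm, ← Summable.tsum_finsetSum, ← tsum_mul_left]
  · congr 1
    funext j
    rw [← Finset.mul_sum, ← Finset.mul_sum]
    unfold rho
    ring
  · intro x _
    by_cases hcond : ((k' + 1 : ℕ) : ℤ) ∣ (x : ℤ) * h - r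
    · simp only [hcond, if_true]
      refine (hsj x).congr fun j => ?_
      ring
    · simp only [hcond, if_false, mul_zero]
      exact summable_zero

end Poi

theorem stPoi (h3 : StGz) (h4 : StGh) : StPoi := by
  obtain ⟨C3, hC3, h3⟩ := h3
  obtain ⟨C4, hC4, h4⟩ := h4
  intro X hX a c ha hc1 hc2 e he h k R hh hk hR
  obtain ⟨hcd, hz0, hbd⟩ := h3 X hX a c ha hc1 hc2 e he
  obtain ⟨-, -, hgh⟩ := h4 X hX a c ha hc1 hc2 e he
  have hD : ∀ z : ℝ, 2 ≤ z → ‖Gz X a c e z‖ ≤
      Real.exp (C3 * (‖a‖ + ‖c‖)) * z ^ (-(17 / 8) : ℝ) := by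
    intro z hz
    have h1 := hbd 0 (by norm_num) z hz
    rw [iteratedDeriv_zero] at h1
    have hz' : (0 : ℝ) < z := by linarith
    have h2 : (1 + X / z) ^ (-8 : ℝ) ≤ 1 :=
      Real.rpow_le_one_of_one_le_of_nonpos (by
        have : 0 ≤ X / z := by positivity
        linarith) (by norm_num)
    refine h1.trans ?_
    simp only [Nat.cast_zero, sub_zero]
    have h3 : 0 ≤ Real.exp (C3 * (‖a‖ + ‖c‖)) * z ^ (-(17 / 8) : ℝ) := by positivity
    exact mul_le_of_le_one_right h3 h2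
  exact Poi.main (Gz X a c e) hcd.continuous hz0 _ hD (Gh X a c e) (fun l => rfl)
    (Real.exp (C4 * (‖a‖ + ‖c‖)) * X ^ (-(25 / 8) : ℝ)) (fun l hl => (hgh l hl).1) (e * R) h k R
    hh hk hR

end F4
end Pool.Agent.Lib.MP_973905_nt
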