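import Pool.Agent.Lib.MP_973905_nt.F4.Stmts
import Pool.Agent.Lib.MP_973905_nt.Fourth3

/-! (R1) fourth power of the Euler product against our polynomials. -/

namespace Pool.Agent.Lib.MP_973905_nt
namespace F4

open MeasureTheory ProbabilityTheory Complex Filter Topology

theorem stRand4 : StRand4 := by
  obtain ⟨C, hC, h⟩ := XB.core43
  obtain ⟨M₀, hM₀, h⟩ := h 1 le_rfl
  refine ⟨⌈C⌉₊ + 96, M₀, fun M hM => ?_⟩
  obtain ⟨T₀, hT₀, h⟩ := h M hM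
  refine ⟨T₀, hT₀, fun T hT k hk1 hk2 g h' hgh z hz => ?_⟩
  have h1 := h T hT k hk1 hk2 g h' hgh z 0 0 le_rfl hz (by norm_num) le_rfl
  have e : (((1 / 2 + 0 / Real.log T : ℝ)) : ℂ) = 1 / 2 := by push_cast; simp
  rw [e] at h1
  refine h1.trans ?_
  have hL : 0 ≤ Real.log T := Real.log_nonneg (by linarith)
  have hP : 0 ≤ ∏ j ∈ h', ss M (JJ T) j := Finset.prod_nonneg fun j _ => (Real.exp_pos _).le
  have hz1 : 1 ≤ 1 + ‖z‖ := by linarith [norm_nonneg z]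
  have hM' : (0 : ℝ) ≤ M := Nat.cast_nonneg _
  have hCC : C ≤ ((⌈C⌉₊ + 96 : ℕ) : ℝ) := by
    push_cast
    linarith [Nat.le_ceil C]
  have hz2 : (1 + ‖z‖) ^ 96 ≤ (1 + ‖z‖) ^ (⌈C⌉₊ + 96) := pow_le_pow_right₀ hz1 (by omega)
  have hx : Real.exp (C * M) ≤ Real.exp (((⌈C⌉₊ + 96 : ℕ) : ℝ) * M) :=
    Real.exp_le_exp.2 (mul_le_mul_of_nonneg_right hCC hM')
  have hLk : 0 ≤ Real.log T ^ (k ^ 2) := Real.rpow_nonneg hL _
  have e0 : ((1 : ℝ) + 0) ^ 96 = 1 := by norm_num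
  rw [e0, mul_one]
  gcongr

end F4
end Pool.Agent.Lib.MP_973905_nt
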