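import Pool.Agent.Lib.MP_973905_nt.F4.Stmts

/-! (N10) summation by parts over the smooth variable. -/

namespace Pool.Agent.Lib.MP_973905_nt
namespace F4

open MeasureTheory ProbabilityTheory Complex Filter Topology K1

namespace RemInP

/-- Summation by parts with a weight vanishing at the end. -/
theorem abel (g s : ℕ → ℂ) (N : ℕ) :
    ∑ n ∈ Finset.Icc 1 N, g n * s n =
      (∑ n ∈ Finset.Icc 1 N, (g n - g (n + 1)) * ∑ i ∈ Finset.Icc 1 n, s i) +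
        g (N + 1) * ∑ i ∈ Finset.Icc 1 N, s i := by
  induction N with
  | zero => simp
  | succ N ih =>
    rw [Finset.sum_Icc_succ_top (by omega), ih, Finset.sum_Icc_succ_top (by omega),
      Finset.sum_Icc_succ_top (a := 1) (b := N) (by omega) s]
    ring

theorem abel_bound (g s : ℕ → ℂ) (N : ℕ) (Y A V : ℝ) (hg : ∀ n : ℕ, Y ≤ n → g n = 0)
    (hN : Y ≤ N) (hY : 0 ≤ Y) (hA : ∀ n : ℕ, (n : ℝ) < Y → ‖∑ i ∈ Finset.Icc 1 n, s i‖ ≤ A)
    (hV0 : 0 ≤ V) (hA0 : 0 ≤ A)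
    (hV : ∀ n : ℕ, 1 ≤ n → (n : ℝ) < Y → ‖g n - g (n + 1)‖ ≤ V) :
    ‖∑ n ∈ Finset.Icc 1 N, g n * s n‖ ≤ Y * (V * A) := by
  rw [abel, hg (N + 1) (by push_cast; linarith), zero_mul, add_zero]
  have h1 : ∀ n ∈ Finset.Icc 1 N, ‖(g n - g (n + 1)) * ∑ i ∈ Finset.Icc 1 n, s i‖ ≤
      if (n : ℝ) < Y then V * A else 0 := by
    intro n hn
    rw [Finset.mem_Icc] at hn
    split_ifs with h
    · rw [norm_mul]
      exact mul_le_mul (hV n hn.1 h) (hA n h) (norm_nonneg _) hV0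
    · rw [hg n (not_lt.mp h), hg (n + 1) (by push_cast; linarith [not_lt.mp h])]
      simp
  refine (norm_sum_le _ _).trans ((Finset.sum_le_sum h1).trans ?_)
  rw [← Finset.sum_filter, Finset.sum_const, nsmul_eq_mul]
  refine mul_le_mul_of_nonneg_right ?_ (mul_nonneg hV0 hA0)
  have h2 : (Finset.Icc 1 N).filter (fun n : ℕ => (n : ℝ) < Y) ⊆ Finset.Icc 1 ⌊Y⌋₊ := by
    intro n hn
    rw [Finset.mem_filter, Finset.mem_Icc] at hn
    rw [Finset.mem_Icc]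
    exact ⟨hn.1.1, Nat.le_floor hn.2.le⟩
  refine le_trans (Nat.cast_le.mpr (Finset.card_le_card h2)) ?_
  rw [Nat.card_Icc]
  simpa using Nat.floor_le hY

/-- The derivative of `y ↦ (y q)^(a-1)`. -/
theorem hasDerivAt_pw (a : ℂ) (q y : ℝ) (hq : 0 < q) (hy : 0 < y) :
    HasDerivAt (fun y : ℝ => ((y * q : ℝ) : ℂ) ^ (a - 1))
      ((a - 1) * ((y * q : ℝ) : ℂ) ^ (a - 1 - 1) * q) y := by
  have h0 : HasDerivAt (fun y : ℝ => ((y * q : ℝ) : ℂ)) (q : ℂ) y := by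
    have := (((hasDerivAt_id y).mul_const q)).ofReal_comp
    simpa using this
  have h1 : ((y * q : ℝ) : ℂ) ∈ slitPlane := by
    rw [Complex.ofReal_mem_slitPlane]
    positivity
  have h2 : HasDerivAt (fun z : ℂ => z ^ (a - 1)) ((a - 1) * ((y * q : ℝ) : ℂ) ^ (a - 1 - 1))
      ((y * q : ℝ) : ℂ) := by
    simpa using (hasDerivAt_id ((y * q : ℝ) : ℂ)).cpow_const (c := a - 1) h1
  exact h2.comp y h0

/-- The weight. -/
noncomputable def gg (X : ℝ) (a c : ℂ) (e : ℤ) (v : ℝ → ℂ) (q p : ℝ) (y : ℝ) : ℂ :=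
  v y * (((y * q : ℝ) : ℂ) ^ (a - 1) * Gh X a c e (p / (y * q)))

theorem gg_deriv {C X : ℝ} {a c : ℂ} {e : ℤ} (hae : a.re = 9 / 16)
    (hG : ContDiff ℝ 1 (Gh X a c e))
    (hG1 : ∀ l : ℝ, l ≠ 0 → ‖Gh X a c e l‖ ≤ C / l ^ 2 ∧ ‖deriv (Gh X a c e) l‖ * |l| ≤ C / l ^ 2)
    {v : ℝ → ℂ} {B D : ℝ} {v' : ℂ} {y : ℝ} (hy : 1 ≤ y) (hv : HasDerivAt v v' y) (hvB : ‖v y‖ ≤ B)
    (hvD : ‖v'‖ ≤ D / y) {q p : ℝ} (hq : 0 < q) (hp : p ≠ 0) :
    ∃ g' : ℂ, HasDerivAt (gg X a c e v q p) g' y ∧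
      ‖g'‖ ≤ C * (D + B * (‖a - 1‖ + 1)) * ((y * q) ^ (25 / 16 : ℝ) / p ^ 2 / y) := by
  have hy0 : 0 < y := by linarith
  have hyq : 0 < y * q := mul_pos hy0 hq
  have hB0 : 0 ≤ B := (norm_nonneg _).trans hvB
  have hl : p / (y * q) ≠ 0 := div_ne_zero hp hyq.ne'
  have hd : HasDerivAt (fun y : ℝ => p / (y * q)) (-(p / (y * q)) / y) y := by
    have h := (((hasDerivAt_id y).mul_const q).inv hyq.ne').const_mul p
    refine (h.congr_deriv ?_).congr_of_eventuallyEq (Eventually.of_forall fun z => ?_)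
    · simp only [id]
      field_simp
    · simp [div_eq_mul_inv]
  have hGd : HasDerivAt (fun y : ℝ => Gh X a c e (p / (y * q)))
      ((-(p / (y * q)) / y) • deriv (Gh X a c e) (p / (y * q))) y := by
    have h1 : HasDerivAt (Gh X a c e) (deriv (Gh X a c e) (p / (y * q))) (p / (y * q)) :=
      (hG.differentiable (by norm_num) _).hasDerivAt
    exact h1.scomp y hd
  have hpw := hasDerivAt_pw a q y hq hy0
  refine ⟨_, hv.mul (hpw.mul hGd), ?_⟩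
  obtain ⟨hg1, hg2⟩ := hG1 _ hl
  have hn1 : ‖((y * q : ℝ) : ℂ) ^ (a - 1)‖ = (y * q) ^ (-(7 / 16) : ℝ) := by
    rw [Complex.norm_cpow_eq_rpow_re_of_pos hyq]
    congr 1
    simp [hae]; norm_num
  have hn2 : ‖(a - 1) * ((y * q : ℝ) : ℂ) ^ (a - 1 - 1) * q‖ =
      ‖a - 1‖ * ((y * q) ^ (-(7 / 16) : ℝ) / y) := by
    rw [norm_mul, norm_mul, Complex.norm_cpow_eq_rpow_re_of_pos hyq]
    have h3 : (a - 1 - 1).re = -(7 / 16) - 1 := by simp [hae]; norm_num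
    rw [h3, Real.rpow_sub hyq, Real.rpow_one]
    have h4 : ‖(q : ℂ)‖ = q := by rw [Complex.norm_real, Real.norm_of_nonneg hq.le]
    rw [h4]
    field_simp
  have hn3 : ‖(-(p / (y * q)) / y) • deriv (Gh X a c e) (p / (y * q))‖ ≤
      C / (p / (y * q)) ^ 2 / y := by
    rw [norm_smul, Real.norm_eq_abs, abs_div, abs_neg, abs_of_pos hy0, div_mul_eq_mul_div,
      mul_comm]
    exact div_le_div_of_nonneg_right hg2 hy0.le
  have hC : 0 ≤ C / (p / (y * q)) ^ 2 := (norm_nonneg _).trans hg1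
  have hkey : (y * q) ^ (25 / 16 : ℝ) / p ^ 2 / y =
      (y * q) ^ (-(7 / 16) : ℝ) * (1 / (p / (y * q)) ^ 2) / y := by
    have : (y * q) ^ (25 / 16 : ℝ) = (y * q) ^ (-(7 / 16) : ℝ) * (y * q) ^ 2 := by
      rw [← Real.rpow_natCast (y * q) 2, ← Real.rpow_add hyq]
      norm_num
    rw [this]
    field_simp
  have hR : 0 ≤ (y * q) ^ (-(7 / 16) : ℝ) := Real.rpow_nonneg hyq.le _
  rw [hkey]
  have e1 : ‖v' * (((y * q : ℝ) : ℂ) ^ (a - 1) * Gh X a c e (p / (y * q)))‖ ≤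
      D / y * ((y * q) ^ (-(7 / 16) : ℝ) * (C / (p / (y * q)) ^ 2)) := by
    rw [norm_mul, norm_mul, hn1]
    exact mul_le_mul hvD (mul_le_mul_of_nonneg_left hg1 hR) (by positivity)
      ((norm_nonneg _).trans hvD)
  have e2 : ‖v y * ((a - 1) * ((y * q : ℝ) : ℂ) ^ (a - 1 - 1) * q * Gh X a c e (p / (y * q)) +
      ((y * q : ℝ) : ℂ) ^ (a - 1) *
        ((-(p / (y * q)) / y) • deriv (Gh X a c e) (p / (y * q))))‖ ≤
      B * (‖a - 1‖ * ((y * q) ^ (-(7 / 16) : ℝ) / y) * (C / (p / (y * q)) ^ 2) +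
        (y * q) ^ (-(7 / 16) : ℝ) * (C / (p / (y * q)) ^ 2 / y)) := by
    rw [norm_mul]
    refine mul_le_mul hvB ((norm_add_le _ _).trans (add_le_add ?_ ?_)) (norm_nonneg _) hB0
    · rw [norm_mul, hn2]
      exact mul_le_mul_of_nonneg_left hg1 (by positivity)
    · rw [norm_mul, hn1]
      exact mul_le_mul_of_nonneg_left hn3 hR
  refine (norm_add_le _ _).trans ((add_le_add e1 e2).trans (le_of_eq ?_))
  field_simp

/-- General form: an arbitrary weight `v` with `|v| ≤ B`, `|v'| ≤ D / y`, zero beyond `Y`. -/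
theorem gen {CI : ℝ} (hCI : 0 < CI)
    (hI : ∀ k d : ℕ, 1 ≤ k → 1 ≤ d → ∀ r j : ℤ, r ≠ 0 → j ≠ 0 → ∀ Y : ℕ,
      ‖∑ n ∈ Finset.Icc 1 Y, rho k (n * d) r j‖ ≤
        CI * ((Y : ℝ) / k + 1) * (k : ℝ) ^ (3 / 4 + 1 / 500 : ℝ) * d * |(j : ℝ)| ^ (1 / 4 : ℝ) *
          |(r : ℝ)| ^ (5 / 4 : ℝ))
    {E X : ℝ} (hE : 0 ≤ E) {a c : ℂ} {e : ℤ} (he : e = 1 ∨ e = -1) (hae : a.re = 9 / 16)
    (hG : ContDiff ℝ 1 (Gh X a c e))
    (hG1 : ∀ l : ℝ, l ≠ 0 → ‖Gh X a c e l‖ ≤ E / l ^ 2 ∧ ‖deriv (Gh X a c e) l‖ * |l| ≤ E / l ^ 2)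
    {v : ℝ → ℂ} {B D Y : ℝ} (hY : 1 ≤ Y) (hv0 : ∀ y, Y ≤ y → v y = 0)
    (hvd : ∀ y : ℝ, 1 ≤ y → ∃ v' : ℂ, HasDerivAt v v' y ∧ ‖v'‖ ≤ D / y)
    (hvB : ∀ y : ℝ, 1 ≤ y → ‖v y‖ ≤ B) (d k R : ℕ) (hd : 1 ≤ d) (hk : 1 ≤ k) (hR : 1 ≤ R)
    (j : ℤ) (hj : j ≠ 0) (N : ℕ) (hN : Y ≤ N) :
    ‖∑ n ∈ Finset.Icc 1 N, v n * ((n * d * k : ℕ) : ℂ) ^ (a - 1) *
      (rho k (n * d) (e * R) j * Gh X a c e (j * R / ((n * d : ℕ) * k)))‖ ≤
      2 * CI * E * (D + B * (‖a - 1‖ + 1)) * ((Y * d * k) ^ (25 / 16 : ℝ) * (Y / k + 1) *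
        (k : ℝ) ^ (3 / 4 + 1 / 500 : ℝ) * d * |(j : ℝ)| ^ (-(7 / 4) : ℝ) *
          (R : ℝ) ^ (-(3 / 4) : ℝ)) := by
  have hk0 : (0 : ℝ) < k := by exact_mod_cast hk
  have hd0 : (0 : ℝ) < d := by exact_mod_cast hd
  have hR0 : (0 : ℝ) < R := by exact_mod_cast hR
  have hj0 : (0 : ℝ) < |(j : ℝ)| := abs_pos.mpr (by exact_mod_cast hj)
  have hj1 : (j : ℝ) ≠ 0 := by exact_mod_cast hj
  have hq : (0 : ℝ) < d * k := by positivity
  have hp : (j : ℝ) * R ≠ 0 := mul_ne_zero hj1 hR0.ne'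
  have hY0 : 0 < Y := by linarith
  have hB0 : 0 ≤ B := (norm_nonneg _).trans (hvB 1 le_rfl)
  have hD0 : 0 ≤ D := by
    obtain ⟨v', _, h⟩ := hvd 1 le_rfl
    simpa using (norm_nonneg _).trans h
  have her : |((e * R : ℤ) : ℝ)| = R := by
    rcases he with h | h <;> simp [h, abs_of_pos hR0]
  have her0 : e * (R : ℤ) ≠ 0 := by
    have : (R : ℤ) ≠ 0 := by positivity
    rcases he with h | h <;> simp [h] <;> omega
  set K : ℝ := E * (D + B * (‖a - 1‖ + 1)) with hKdef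
  have hK0 : 0 ≤ K := by positivity
  -- the variation of the weight
  have hvar : ∀ n : ℕ, 1 ≤ n → (n : ℝ) < Y →
      ‖gg X a c e v (d * k) (j * R) n - gg X a c e v (d * k) (j * R) ((n + 1 : ℕ) : ℝ)‖ ≤
        K * ((d * k : ℝ) ^ (25 / 16 : ℝ) / (j * R) ^ 2 * (2 * Y ^ (9 / 16 : ℝ))) := by
    intro n hn hnY
    have hn1 : (1 : ℝ) ≤ n := by exact_mod_cast hn
    have hex : ∀ y : ℝ, 1 ≤ y → ∃ g' : ℂ, HasDerivAt (gg X a c e v (d * k) (j * R)) g' y ∧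
        ‖g'‖ ≤ E * (D + B * (‖a - 1‖ + 1)) *
          ((y * (d * k)) ^ (25 / 16 : ℝ) / (j * R) ^ 2 / y) := by
      intro y hy
      obtain ⟨v', h1, h2⟩ := hvd y hy
      exact gg_deriv hae hG hG1 hy h1 (hvB y hy) h2 hq hp
    choose! g' hg' hg'' using hex
    have h := (convex_Icc (n : ℝ) (n + 1)).norm_image_sub_le_of_norm_hasDerivWithin_le
      (f := gg X a c e v (d * k) (j * R)) (f' := g') (x := ((n + 1 : ℕ) : ℝ)) (y := n)
      (C := K * ((d * k : ℝ) ^ (25 / 16 : ℝ) / (j * R) ^ 2 * (2 * Y ^ (9 / 16 : ℝ))))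
      (fun y hy => (hg' y (hn1.trans hy.1)).hasDerivWithinAt) ?_ ?_ ?_
    · refine h.trans (le_of_eq ?_)
      push_cast
      simp
    · intro y hy
      have hy1 : 1 ≤ y := hn1.trans hy.1
      have hy0 : 0 < y := by linarith
      refine (hg'' y hy1).trans ?_
      refine mul_le_mul_of_nonneg_left ?_ hK0
      have e1 : (y * (d * k : ℝ)) ^ (25 / 16 : ℝ) / (j * R) ^ 2 / y =
          (d * k : ℝ) ^ (25 / 16 : ℝ) / (j * R) ^ 2 * y ^ (9 / 16 : ℝ) := by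
        rw [Real.mul_rpow hy0.le hq.le]
        have : y ^ (25 / 16 : ℝ) = y ^ (9 / 16 : ℝ) * y := by
          conv_rhs => rw [← Real.rpow_one y, ← Real.rpow_mul hy0.le, ← Real.rpow_add hy0]
          norm_num
        rw [this]
        field_simp
      rw [e1]
      refine mul_le_mul_of_nonneg_left ?_ (by positivity)
      have h2 : y ≤ 2 * Y := by linarith [hy.2]
      calc y ^ (9 / 16 : ℝ) ≤ (2 * Y) ^ (9 / 16 : ℝ) :=
            Real.rpow_le_rpow hy0.le h2 (by norm_num)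
        _ = 2 ^ (9 / 16 : ℝ) * Y ^ (9 / 16 : ℝ) := Real.mul_rpow (by norm_num) hY0.le
        _ ≤ 2 * Y ^ (9 / 16 : ℝ) := by
            refine mul_le_mul_of_nonneg_right ?_ (by positivity)
            calc (2 : ℝ) ^ (9 / 16 : ℝ) ≤ 2 ^ (1 : ℝ) :=
                  Real.rpow_le_rpow_of_exponent_le (by norm_num) (by norm_num)
              _ = 2 := Real.rpow_one 2
    · push_cast
      exact ⟨by linarith, le_rfl⟩
    · exact ⟨le_rfl, by linarith⟩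
  -- the sums of the first terms
  have hpart : ∀ n : ℕ, (n : ℝ) < Y → ‖∑ i ∈ Finset.Icc 1 n, rho k (i * d) (e * R) j‖ ≤
      CI * (Y / k + 1) * (k : ℝ) ^ (3 / 4 + 1 / 500 : ℝ) * d * |(j : ℝ)| ^ (1 / 4 : ℝ) *
        (R : ℝ) ^ (5 / 4 : ℝ) := by
    intro n hnY
    refine (hI k d hk hd (e * R) j her0 hj n).trans ?_
    rw [her]
    gcongr
  have hmain := abel_bound (fun n : ℕ => gg X a c e v (d * k) (j * R) n)
    (fun n : ℕ => rho k (n * d) (e * R) j) N Y _ _ ?_ hN hY0.le hpart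
    (by positivity) (by positivity) hvar
  · have hsum : ∑ n ∈ Finset.Icc 1 N, v n * ((n * d * k : ℕ) : ℂ) ^ (a - 1) *
        (rho k (n * d) (e * R) j * Gh X a c e (j * R / ((n * d : ℕ) * k))) =
        ∑ n ∈ Finset.Icc 1 N, gg X a c e v (d * k) (j * R) n * rho k (n * d) (e * R) j := by
      refine Finset.sum_congr rfl fun n _ => ?_
      unfold gg
      have h1 : ((n * d * k : ℕ) : ℂ) = (((n : ℝ) * (d * k) : ℝ) : ℂ) := by push_cast; ring
      have h2 : ((j : ℝ) * R / (((n * d : ℕ) : ℝ) * k)) = j * R / (n * (d * k)) := by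
        push_cast; ring_nf
      rw [h1, h2]
      ring
    rw [hsum]
    refine hmain.trans (le_of_eq ?_)
    have e3 : (Y * d * k) ^ (25 / 16 : ℝ) = Y * Y ^ (9 / 16 : ℝ) * (d * k : ℝ) ^ (25 / 16 : ℝ) := by
      rw [mul_assoc, Real.mul_rpow hY0.le hq.le]
      have : Y ^ (25 / 16 : ℝ) = Y * Y ^ (9 / 16 : ℝ) := by
        conv_rhs => rw [← Real.rpow_one Y, ← Real.rpow_mul hY0.le, ← Real.rpow_add hY0]
        norm_num
      rw [this]
    have e4 : |(j : ℝ)| ^ (-(7 / 4) : ℝ) = |(j : ℝ)| ^ (1 / 4 : ℝ) / (j : ℝ) ^ 2 := by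
      rw [← sq_abs (j : ℝ), ← Real.rpow_natCast |(j : ℝ)| 2, ← Real.rpow_sub hj0]
      norm_num
    have e5 : (R : ℝ) ^ (-(3 / 4) : ℝ) = (R : ℝ) ^ (5 / 4 : ℝ) / (R : ℝ) ^ 2 := by
      rw [← Real.rpow_natCast (R : ℝ) 2, ← Real.rpow_sub hR0]
      norm_num
    rw [e3, e4, e5, hKdef]
    field_simp
  · intro n hn
    unfold gg
    rw [hv0 _ hn, zero_mul]

theorem Vc_contDiff {n : ℕ∞} : ContDiff ℝ n Vc := by
  unfold Vc
  exact (Real.smoothTransition.contDiff.comp (by fun_prop)).mul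
    (Real.smoothTransition.contDiff.comp (by fun_prop))

theorem Vc_nonneg (x : ℝ) : 0 ≤ Vc x :=
  mul_nonneg (Real.smoothTransition.nonneg _) (Real.smoothTransition.nonneg _)

theorem Vc_le_one (x : ℝ) : Vc x ≤ 1 :=
  mul_le_one₀ (Real.smoothTransition.le_one _) (Real.smoothTransition.nonneg _)
    (Real.smoothTransition.le_one _)

theorem Vc_zero {x : ℝ} (hx : 501 / 1000 ≤ x) : Vc x = 0 := by
  unfold Vc
  rw [Real.smoothTransition.zero_of_nonpos (by linarith), zero_mul]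

theorem Vc_zero' {x : ℝ} (hx : x ≤ -2) : Vc x = 0 := by
  unfold Vc
  rw [Real.smoothTransition.zero_of_nonpos (x := x + 2) (by linarith), mul_zero]

theorem Vc_compact : HasCompactSupport Vc := by
  refine HasCompactSupport.of_support_subset_isCompact (isCompact_Icc (a := -2) (b := 1)) ?_
  intro x hx
  by_contra h
  rw [Set.mem_Icc, not_and_or, not_le, not_le] at h
  rcases h with h | h
  · exact hx (Vc_zero' h.le)
  · exact hx (Vc_zero (by linarith))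

theorem Vc_deriv : ∃ K : ℝ, 0 < K ∧ ∀ x, |deriv Vc x| ≤ K := by
  have h1 : Continuous (deriv Vc) := (Vc_contDiff (n := 1)).continuous_deriv le_rfl
  obtain ⟨K, hK⟩ := h1.bounded_above_of_compact_support Vc_compact.deriv
  refine ⟨max K 1, by positivity, fun x => ?_⟩
  exact (hK x).trans (le_max_left _ _)

/-- The smooth weight of the polynomial `qc`. -/
noncomputable def vq (T ν : ℝ) (y : ℝ) : ℂ :=
  (Vc (Real.log y / Real.log T) : ℂ) * (y : ℂ) ^ (-(((1 / Real.log T : ℝ) : ℂ) + ν * I))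

theorem vq_nat (T ν : ℝ) (n : ℕ) : vq T ν n = qc T ν n := by
  unfold vq qc
  simp

theorem vq_norm {T ν y : ℝ} (hT : 3 ≤ T) (hy : 1 ≤ y) :
    ‖(y : ℂ) ^ (-(((1 / Real.log T : ℝ) : ℂ) + ν * I))‖ ≤ 1 := by
  have hL : 0 < Real.log T := Real.log_pos (by linarith)
  rw [Complex.norm_cpow_eq_rpow_re_of_pos (by linarith)]
  refine Real.rpow_le_one_of_one_le_of_nonpos hy ?_
  simp
  positivity

theorem vq_bound {T ν y : ℝ} (hT : 3 ≤ T) (hy : 1 ≤ y) : ‖vq T ν y‖ ≤ 1 := by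
  unfold vq
  rw [norm_mul, Complex.norm_real, Real.norm_of_nonneg (Vc_nonneg _)]
  exact mul_le_one₀ (Vc_le_one _) (norm_nonneg _) (vq_norm hT hy)

theorem vq_zero {T ν y : ℝ} (hT : 3 ≤ T) (hy : T ^ (501 / 1000 : ℝ) ≤ y) : vq T ν y = 0 := by
  have hL : 0 < Real.log T := Real.log_pos (by linarith)
  unfold vq
  rw [Vc_zero, Complex.ofReal_zero, zero_mul]
  rw [le_div_iff₀ hL, ← Real.log_rpow (by linarith)]
  exact Real.log_le_log (by positivity) hy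

theorem vq_deriv {K : ℝ} (hK : ∀ x, |deriv Vc x| ≤ K) {T ν y : ℝ} (hT : 3 ≤ T) (hy : 1 ≤ y) :
    ∃ v' : ℂ, HasDerivAt (vq T ν) v' y ∧ ‖v'‖ ≤ (K + 1 + |ν|) / y := by
  have hL1 : 1 ≤ Real.log T := by
    rw [Real.le_log_iff_exp_le (by linarith)]
    linarith [Real.exp_one_lt_d9]
  have hL : 0 < Real.log T := by linarith
  have hy0 : 0 < y := by linarith
  have hK0 : 0 ≤ K := (abs_nonneg _).trans (hK 0)
  have h1 : HasDerivAt (fun y : ℝ => Real.log y / Real.log T) (y⁻¹ / Real.log T) y :=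
    (Real.hasDerivAt_log hy0.ne').div_const _
  have h2 : HasDerivAt Vc (deriv Vc (Real.log y / Real.log T)) (Real.log y / Real.log T) :=
    ((Vc_contDiff (n := 1)).differentiable (by norm_num) _).hasDerivAt
  have h3 : HasDerivAt (fun y : ℝ => Vc (Real.log y / Real.log T))
      (deriv Vc (Real.log y / Real.log T) * (y⁻¹ / Real.log T)) y := by
    simpa [Function.comp_def] using HasDerivAt.comp (h₂ := Vc) y h2 h1
  have h4 := h3.ofReal_comp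
  set s : ℂ := -(((1 / Real.log T : ℝ) : ℂ) + ν * I) with hs
  have h5 : HasDerivAt (fun y : ℝ => (y : ℂ) ^ s) (s * (y : ℂ) ^ (s - 1)) y := by
    have h6 : HasDerivAt (fun z : ℂ => z ^ s) (s * (y : ℂ) ^ (s - 1)) (y : ℂ) := by
      simpa using (hasDerivAt_id (y : ℂ)).cpow_const (c := s)
        (by rw [id, Complex.ofReal_mem_slitPlane]; exact hy0)
    simpa using h6.comp_ofReal
  refine ⟨_, h4.mul h5, ?_⟩
  have hn : ‖(y : ℂ) ^ s‖ ≤ 1 := vq_norm hT hy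
  have hns : ‖s‖ ≤ 1 + |ν| := by
    rw [hs, norm_neg]
    refine (norm_add_le _ _).trans (add_le_add ?_ ?_)
    · rw [Complex.norm_real, Real.norm_of_nonneg (by positivity)]
      exact (div_le_one hL).mpr hL1
    · simp
  have hn2 : ‖(y : ℂ) ^ (s - 1)‖ ≤ 1 / y := by
    rw [Complex.cpow_sub _ _ (by exact_mod_cast hy0.ne'), norm_div, Complex.cpow_one,
      Complex.norm_real, Real.norm_of_nonneg hy0.le]
    exact div_le_div_of_nonneg_right hn hy0.le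
  have a1 : ‖((deriv Vc (Real.log y / Real.log T) * (y⁻¹ / Real.log T) : ℝ) : ℂ) *
      (y : ℂ) ^ s‖ ≤ K / y := by
    rw [norm_mul, Complex.norm_real, norm_mul, Real.norm_eq_abs, Real.norm_eq_abs,
      abs_of_pos (by positivity : 0 < y⁻¹ / Real.log T)]
    calc |deriv Vc (Real.log y / Real.log T)| * (y⁻¹ / Real.log T) * ‖(y : ℂ) ^ s‖ ≤
        K * (y⁻¹ / 1) * 1 := by
          gcongr
          exact hK _
      _ = K / y := by rw [mul_one, div_one, div_eq_mul_inv]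
  have a2 : ‖((Vc (Real.log y / Real.log T) : ℝ) : ℂ) * (s * (y : ℂ) ^ (s - 1))‖ ≤
      (1 + |ν|) / y := by
    rw [norm_mul, norm_mul, Complex.norm_real, Real.norm_of_nonneg (Vc_nonneg _)]
    calc Vc (Real.log y / Real.log T) * (‖s‖ * ‖(y : ℂ) ^ (s - 1)‖) ≤
        1 * ((1 + |ν|) * (1 / y)) := by
          gcongr
          exact Vc_le_one _
      _ = (1 + |ν|) / y := by ring
  refine (norm_add_le _ _).trans ((add_le_add a1 a2).trans (le_of_eq ?_))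
  ring

end RemInP

open RemInP in
theorem stRemIn (h2 : StInc) (h4 : StGh) : StRemIn := by
  obtain ⟨CI, hCI, hI⟩ := h2
  obtain ⟨C, hC, hGh⟩ := h4
  obtain ⟨K, hK, hKd⟩ := Vc_deriv
  obtain ⟨P, hP⟩ : ∃ P : ℕ, 2 * CI * (K + 3) ≤ P := exists_nat_ge _
  refine ⟨C + P + 1, by positivity, 16, by norm_num, fun T hT16 X hX a c hae hc1 hc2 e he ν d k R
    hd hk hR j hj => ?_⟩
  have hT : 3 ≤ T := by linarith
  obtain ⟨hG, -, hG1⟩ := hGh X hX a c hae hc1 hc2 e he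
  have hT1 : 1 ≤ T := by linarith
  have hY1 : 1 ≤ T ^ (501 / 1000 : ℝ) := Real.one_le_rpow hT1 (by norm_num)
  have hX0 : 0 < X := by linarith
  -- the cutoff `N = ⌊T⌋` lies beyond `Y`
  have hfl : T ^ (501 / 1000 : ℝ) ≤ (⌊T⌋₊ : ℝ) := by
    have h1 : T ^ (501 / 1000 : ℝ) ≤ T ^ (3 / 4 : ℝ) :=
      Real.rpow_le_rpow_of_exponent_le hT1 (by norm_num)
    have h2 : (2 : ℝ) ≤ T ^ (1 / 4 : ℝ) := by
      calc (2 : ℝ) = ((2 : ℝ) ^ (4 : ℝ)) ^ (1 / 4 : ℝ) := by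
            rw [← Real.rpow_mul (by norm_num)]; norm_num
        _ ≤ T ^ (1 / 4 : ℝ) := by
            refine Real.rpow_le_rpow (by positivity) ?_ (by norm_num)
            norm_num
            exact hT16
    have h3 : T ^ (3 / 4 : ℝ) * T ^ (1 / 4 : ℝ) = T := by
      rw [← Real.rpow_add (by linarith)]
      norm_num
    have h4 : T ^ (3 / 4 : ℝ) * 2 ≤ T := by
      calc T ^ (3 / 4 : ℝ) * 2 ≤ T ^ (3 / 4 : ℝ) * T ^ (1 / 4 : ℝ) :=
            mul_le_mul_of_nonneg_left h2 (by positivity)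
        _ = T := h3
    have h5 := Nat.lt_floor_add_one T
    linarith
  have h := gen hCI hI (E := Real.exp (C * (‖a‖ + ‖c‖)) * X ^ (-(25 / 8) : ℝ)) (X := X)
    (by positivity) he hae hG (fun l hl => ?_) (v := vq T ν) (B := 1) (D := K + 1 + |ν|)
    hY1 (fun y hy => vq_zero hT hy) (fun y hy => vq_deriv hKd hT hy)
    (fun y hy => vq_bound hT hy) d k R hd hk hR j hj ⌊T⌋₊ hfl
  · simp only [vq_nat] at h
    refine h.trans ?_
    have hna : 0 ≤ ‖a‖ := norm_nonneg a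
    have hnc : 1 ≤ ‖c‖ := by
      have := Complex.abs_re_le_norm c
      have := le_abs_self c.re
      linarith
    have hν : 0 ≤ |ν| := abs_nonneg ν
    have hP0 : (0 : ℝ) ≤ P := Nat.cast_nonneg _
    have f1 : K + 1 + |ν| + 1 * (‖a - 1‖ + 1) ≤ (K + 3) * (1 + |ν|) * (1 + ‖a‖) := by
      have : ‖a - 1‖ ≤ ‖a‖ + 1 := (norm_sub_le _ _).trans (by simp)
      nlinarith [mul_nonneg hK.le hν, mul_nonneg hK.le hna, mul_nonneg hν hna,
        mul_nonneg (mul_nonneg hK.le hν) hna]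
    have f2 : 2 * CI * (K + 3) * (1 + ‖a‖) ≤ Real.exp ((P + 1) * (‖a‖ + ‖c‖)) := by
      calc 2 * CI * (K + 3) * (1 + ‖a‖) ≤ P * (1 + ‖a‖) :=
            mul_le_mul_of_nonneg_right hP (by linarith)
        _ ≤ Real.exp (P * (‖a‖ + ‖c‖)) * Real.exp (‖a‖ + ‖c‖) := by
            refine mul_le_mul ?_ ?_ (by linarith) (Real.exp_pos _).le
            · have := Real.add_one_le_exp ((P : ℝ) * (‖a‖ + ‖c‖))
              nlinarith
            · have := Real.add_one_le_exp (‖a‖ + ‖c‖)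
              linarith
        _ = Real.exp ((P + 1) * (‖a‖ + ‖c‖)) := by
            rw [← Real.exp_add]; ring_nf
    have f3 : 2 * CI * (Real.exp (C * (‖a‖ + ‖c‖)) * X ^ (-(25 / 8) : ℝ)) *
        (K + 1 + |ν| + 1 * (‖a - 1‖ + 1)) ≤
        Real.exp ((C + P + 1) * (‖a‖ + ‖c‖)) * (1 + |ν|) * X ^ (-(25 / 8) : ℝ) := by
      have hXp : 0 < X ^ (-(25 / 8) : ℝ) := Real.rpow_pos_of_pos hX0 _
      calc 2 * CI * (Real.exp (C * (‖a‖ + ‖c‖)) * X ^ (-(25 / 8) : ℝ)) *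
          (K + 1 + |ν| + 1 * (‖a - 1‖ + 1)) ≤
          2 * CI * (Real.exp (C * (‖a‖ + ‖c‖)) * X ^ (-(25 / 8) : ℝ)) *
            ((K + 3) * (1 + |ν|) * (1 + ‖a‖)) := by gcongr
        _ = (2 * CI * (K + 3) * (1 + ‖a‖)) *
            (Real.exp (C * (‖a‖ + ‖c‖)) * (1 + |ν|) * X ^ (-(25 / 8) : ℝ)) := by ring
        _ ≤ Real.exp ((P + 1) * (‖a‖ + ‖c‖)) *
            (Real.exp (C * (‖a‖ + ‖c‖)) * (1 + |ν|) * X ^ (-(25 / 8) : ℝ)) := by gcongr
        _ = Real.exp ((C + P + 1) * (‖a‖ + ‖c‖)) * (1 + |ν|) * X ^ (-(25 / 8) : ℝ) := by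
            rw [show (C + P + 1) * (‖a‖ + ‖c‖) = (P + 1) * (‖a‖ + ‖c‖) + C * (‖a‖ + ‖c‖) by ring,
              Real.exp_add]
            ring
    refine (mul_le_mul_of_nonneg_right f3 (by positivity)).trans (le_of_eq ?_)
    ring
  · exact hG1 l hl
end F4
end Pool.Agent.Lib.MP_973905_nt
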