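import Pool.Agent.Lib.MP_973905_nt.F4.Stmts

/-! The right edge of the twisted second moment. -/

namespace Pool.Agent.Lib.MP_973905_nt
namespace F4
namespace Right4

open MeasureTheory ProbabilityTheory Complex Filter Topology K1

/-- the coefficient of a pair -/
noncomputable def cf (b : ℕ → ℂ) (h k : ℕ) : ℂ :=
  b h * (starRingEnd ℂ) (b k) * ((h * k : ℕ) : ℂ) ^ (-(1 / 2 : ℂ))

/-- the main term of a pair -/
noncomputable def mt (X : ℝ) (a c : ℂ) (h k : ℕ) : ℂ :=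
  Gamma c * (riemannZeta (1 + 2 * a) *
        ((h / h.gcd k * (k / h.gcd k) : ℕ) : ℂ) ^ (-(1 / 2 + a))) +
      ((X / (2 * Real.pi) : ℝ) : ℂ) ^ (-(2 * a)) * (Gamma (c - 2 * a) * (riemannZeta (1 - 2 * a) *
        ((h / h.gcd k * (k / h.gcd k) : ℕ) : ℂ) ^ (-(1 / 2 - a))))

lemma RF_eq (N : ℕ) (b : ℕ → ℂ) (a : ℂ) : ThreeLines.RF N b a =
    ∑ h ∈ Finset.Icc 1 N, ∑ k ∈ Finset.Icc 1 N, cf b h k *
      ((h / h.gcd k * (k / h.gcd k) : ℕ) : ℂ) ^ (-(1 / 2 + a)) := by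
  unfold ThreeLines.RF cf
  refine Finset.sum_congr rfl fun h _ => Finset.sum_congr rfl fun k _ => ?_
  rw [Nat.cast_mul (h / h.gcd k), Nat.cast_mul h, natCast_mul_natCast_cpow,
    natCast_mul_natCast_cpow]
  ring

lemma Mt_eq (X : ℝ) (c : ℂ) (N : ℕ) (b : ℕ → ℂ) (a : ℂ) : Mt X c N b a =
    ∑ h ∈ Finset.Icc 1 N, ∑ k ∈ Finset.Icc 1 N, cf b h k * mt X a c h k := by
  unfold Mt
  rw [RF_eq, RF_eq]
  simp only [Finset.mul_sum, ← Finset.sum_add_distrib]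
  refine Finset.sum_congr rfl fun h _ => Finset.sum_congr rfl fun k _ => ?_
  unfold mt
  rw [show -(1 / 2 + -a) = -(1 / 2 - a) by ring]
  ring

lemma decomp (hE : StExpand) (X : ℝ) (a c : ℂ) (hX : 1 ≤ X) (ha : a.re = 9 / 16) (hc : 8 ≤ c.re)
    (N : ℕ) (b : ℕ → ℂ) : Jt X c N b a - Mt X c N b a =
    (∑ h ∈ Finset.Icc 1 N, ∑ k ∈ Finset.Icc 1 N, cf b h k *
      (Fp X a c h k - mt X a c h k - ((h * k : ℕ) : ℂ) ^ (-(1 / 2 - a)) * Rm X a c h k)) +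
    ∑ h ∈ Finset.Icc 1 N, ∑ k ∈ Finset.Icc 1 N, b h *
      (starRingEnd ℂ) (b k) * ((h * k : ℕ) : ℂ) ^ (a - 1) * Rm X a c h k := by
  rw [hE X a c hX ha hc N b, Mt_eq]
  simp only [← Finset.sum_sub_distrib, ← Finset.sum_add_distrib]
  refine Finset.sum_congr rfl fun h hh => Finset.sum_congr rfl fun k hk => ?_
  rw [Finset.mem_Icc] at hh hk
  have hne : ((h * k : ℕ) : ℂ) ≠ 0 := by
    have : h * k ≠ 0 := Nat.mul_ne_zero (by omega) (by omega)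
    exact_mod_cast this
  have e : ((h * k : ℕ) : ℂ) ^ (a - 1) =
      ((h * k : ℕ) : ℂ) ^ (-(1 / 2 : ℂ)) * ((h * k : ℕ) : ℂ) ^ (-(1 / 2 - a)) := by
    rw [← cpow_add _ _ hne]; congr 1; ring
  rw [e]
  unfold cf
  ring

/-- `(n : ℂ) ^ (-1/2)` -/
lemma norm_cf (b : ℕ → ℂ) {h k : ℕ} (hh : 1 ≤ h) (hk : 1 ≤ k) : ‖cf b h k‖ =
    (‖b h‖ * (h : ℝ) ^ (-(1 / 2) : ℝ)) * (‖b k‖ * (k : ℝ) ^ (-(1 / 2) : ℝ)) := by
  unfold cf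
  rw [norm_mul, norm_mul, norm_conj, norm_natCast_cpow_of_pos (Nat.mul_pos hh hk)]
  simp only [neg_re, one_div, inv_re, re_ofNat, normSq_ofNat]
  rw [Nat.cast_mul, Real.mul_rpow (by positivity) (by positivity)]
  norm_num
  ring

/-- the bound for the terms of the first sum -/
lemma term (C : ℝ) (X : ℝ) (hX : 1 ≤ X) (a c : ℂ) (b : ℕ → ℂ) (h k : ℕ) (hh : 1 ≤ h)
    (hk : 1 ≤ k)
    (H : ‖Fp X a c h k - mt X a c h k - ((h * k : ℕ) : ℂ) ^ (-(1 / 2 - a)) * Rm X a c h k‖ ≤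
      Real.exp (C * (‖a‖ + ‖c‖)) * (X ^ (-8 : ℝ) +
        ((h / h.gcd k * (k / h.gcd k) : ℕ) : ℝ) ^ (1 / 16 : ℝ) * X ^ (-(17 / 8) : ℝ))) :
    ‖cf b h k * (Fp X a c h k - mt X a c h k -
      ((h * k : ℕ) : ℂ) ^ (-(1 / 2 - a)) * Rm X a c h k)‖ ≤
    Real.exp (C * (‖a‖ + ‖c‖)) *
      (X ^ (-8 : ℝ) * ((‖b h‖ * (h : ℝ) ^ (-(1 / 2) : ℝ)) * (‖b k‖ * (k : ℝ) ^ (-(1 / 2) : ℝ))) +
      X ^ (-(17 / 8) : ℝ) *
        ((‖b h‖ * (h : ℝ) ^ (-(7 / 16) : ℝ)) * (‖b k‖ * (k : ℝ) ^ (-(7 / 16) : ℝ)))) := by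
  rw [norm_mul, norm_cf b hh hk]
  have hh0 : (0 : ℝ) < h := by exact_mod_cast hh
  have hk0 : (0 : ℝ) < k := by exact_mod_cast hk
  have h1 : ((h / h.gcd k * (k / h.gcd k) : ℕ) : ℝ) ^ (1 / 16 : ℝ) ≤
      (h : ℝ) ^ (1 / 16 : ℝ) * (k : ℝ) ^ (1 / 16 : ℝ) := by
    rw [← Real.mul_rpow hh0.le hk0.le]
    apply Real.rpow_le_rpow (by positivity) _ (by norm_num)
    have : h / h.gcd k * (k / h.gcd k) ≤ h * k :=
      Nat.mul_le_mul (Nat.div_le_self _ _) (Nat.div_le_self _ _)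
    exact_mod_cast this
  have e1 : (h : ℝ) ^ (-(7 / 16) : ℝ) = (h : ℝ) ^ (-(1 / 2) : ℝ) * (h : ℝ) ^ (1 / 16 : ℝ) := by
    rw [← Real.rpow_add hh0]; norm_num
  have e2 : (k : ℝ) ^ (-(7 / 16) : ℝ) = (k : ℝ) ^ (-(1 / 2) : ℝ) * (k : ℝ) ^ (1 / 16 : ℝ) := by
    rw [← Real.rpow_add hk0]; norm_num
  have hX0 : (0 : ℝ) < X := by linarith
  have p1 : 0 ≤ (‖b h‖ * (h : ℝ) ^ (-(1 / 2) : ℝ)) * (‖b k‖ * (k : ℝ) ^ (-(1 / 2) : ℝ)) := by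
    positivity
  have p2 : 0 ≤ X ^ (-(17 / 8) : ℝ) := Real.rpow_nonneg hX0.le _
  calc _ ≤ (‖b h‖ * (h : ℝ) ^ (-(1 / 2) : ℝ)) * (‖b k‖ * (k : ℝ) ^ (-(1 / 2) : ℝ)) *
        (Real.exp (C * (‖a‖ + ‖c‖)) * (X ^ (-8 : ℝ) +
        ((h / h.gcd k * (k / h.gcd k) : ℕ) : ℝ) ^ (1 / 16 : ℝ) * X ^ (-(17 / 8) : ℝ))) := by
        gcongr
    _ ≤ (‖b h‖ * (h : ℝ) ^ (-(1 / 2) : ℝ)) * (‖b k‖ * (k : ℝ) ^ (-(1 / 2) : ℝ)) *
        (Real.exp (C * (‖a‖ + ‖c‖)) * (X ^ (-8 : ℝ) +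
        ((h : ℝ) ^ (1 / 16 : ℝ) * (k : ℝ) ^ (1 / 16 : ℝ)) * X ^ (-(17 / 8) : ℝ))) := by
        gcongr
    _ = _ := by rw [e1, e2]; ring

/-- the first sum -/
lemma first (C : ℝ) (X : ℝ) (hX : 1 ≤ X) (a c : ℂ) (b : ℕ → ℂ) (N : ℕ)
    (H : ∀ h k : ℕ, 1 ≤ h → 1 ≤ k →
      ‖Fp X a c h k - mt X a c h k - ((h * k : ℕ) : ℂ) ^ (-(1 / 2 - a)) * Rm X a c h k‖ ≤
      Real.exp (C * (‖a‖ + ‖c‖)) * (X ^ (-8 : ℝ) +
        ((h / h.gcd k * (k / h.gcd k) : ℕ) : ℝ) ^ (1 / 16 : ℝ) * X ^ (-(17 / 8) : ℝ))) :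
    ‖∑ h ∈ Finset.Icc 1 N, ∑ k ∈ Finset.Icc 1 N, cf b h k *
      (Fp X a c h k - mt X a c h k - ((h * k : ℕ) : ℂ) ^ (-(1 / 2 - a)) * Rm X a c h k)‖ ≤
    Real.exp (C * (‖a‖ + ‖c‖)) *
      (X ^ (-8 : ℝ) * (∑ n ∈ Finset.Icc 1 N, ‖b n‖ * (n : ℝ) ^ (-(1 / 2) : ℝ)) ^ 2 +
      X ^ (-(17 / 8) : ℝ) * (∑ n ∈ Finset.Icc 1 N, ‖b n‖ * (n : ℝ) ^ (-(7 / 16) : ℝ)) ^ 2) := by
  have h1 : ‖∑ h ∈ Finset.Icc 1 N, ∑ k ∈ Finset.Icc 1 N, cf b h k *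
      (Fp X a c h k - mt X a c h k - ((h * k : ℕ) : ℂ) ^ (-(1 / 2 - a)) * Rm X a c h k)‖ ≤
      ∑ h ∈ Finset.Icc 1 N, ∑ k ∈ Finset.Icc 1 N, Real.exp (C * (‖a‖ + ‖c‖)) *
      (X ^ (-8 : ℝ) * ((‖b h‖ * (h : ℝ) ^ (-(1 / 2) : ℝ)) * (‖b k‖ * (k : ℝ) ^ (-(1 / 2) : ℝ))) +
      X ^ (-(17 / 8) : ℝ) *
        ((‖b h‖ * (h : ℝ) ^ (-(7 / 16) : ℝ)) * (‖b k‖ * (k : ℝ) ^ (-(7 / 16) : ℝ)))) := by
    refine (norm_sum_le _ _).trans (Finset.sum_le_sum fun h hh => ?_)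
    refine (norm_sum_le _ _).trans (Finset.sum_le_sum fun k hk => ?_)
    rw [Finset.mem_Icc] at hh hk
    exact term C X hX a c b h k hh.1 hk.1 (H h k hh.1 hk.1)
  refine h1.trans (le_of_eq ?_)
  rw [pow_two, pow_two, Finset.sum_mul_sum, Finset.sum_mul_sum]
  simp only [Finset.mul_sum, ← Finset.sum_add_distrib]

end Right4

open Right4 MeasureTheory ProbabilityTheory Complex Filter Topology K1 in
theorem stRight4 (h9 : StPair) (h11 : StRem) (h1 : StExpand) (h2 : StCo) : StRight4 := by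
  obtain ⟨C₁, hC₁, H9⟩ := h9
  obtain ⟨C₂, hC₂, T₂, hT₂, H11⟩ := h11
  obtain ⟨T₃, hT₃, H2⟩ := h2
  refine ⟨max C₁ C₂ + 1, by positivity, max T₂ T₃, by
    exact hT₂.trans (le_max_left _ _), ?_⟩
  intro T hT X hXl hXu a c ha hc hc' ν b hb
  have hT2 : T₂ ≤ T := (le_max_left _ _).trans hT
  have hT3 : T₃ ≤ T := (le_max_right _ _).trans hT
  have hT1 : (3 : ℝ) ≤ T := hT₂.trans hT2
  have hT0 : (0 : ℝ) < T := by linarith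
  have hX1 : 1 ≤ X := by
    refine le_trans ?_ hXl
    exact Real.one_le_rpow (by linarith) (by norm_num)
  have hX0 : (0 : ℝ) < X := by linarith
  obtain ⟨-, -, s1, s2, -, -⟩ := H2 T hT3 ν b hb
  have A := first C₁ X hX1 a c (cH T ν b) (Nh T) (fun h k hh hk => by
    have := H9 X hX1 a c ha hc hc' h k hh hk
    unfold Right4.mt
    rwa [show Fp X a c h k - (Gamma c * (riemannZeta (1 + 2 * a) *
        ((h / h.gcd k * (k / h.gcd k) : ℕ) : ℂ) ^ (-(1 / 2 + a))) +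
      ((X / (2 * Real.pi) : ℝ) : ℂ) ^ (-(2 * a)) * (Gamma (c - 2 * a) * (riemannZeta (1 - 2 * a) *
        ((h / h.gcd k * (k / h.gcd k) : ℕ) : ℂ) ^ (-(1 / 2 - a))))) =
      Fp X a c h k - Gamma c * (riemannZeta (1 + 2 * a) *
        ((h / h.gcd k * (k / h.gcd k) : ℕ) : ℂ) ^ (-(1 / 2 + a))) -
      ((X / (2 * Real.pi) : ℝ) : ℂ) ^ (-(2 * a)) * (Gamma (c - 2 * a) * (riemannZeta (1 - 2 * a) *
        ((h / h.gcd k * (k / h.gcd k) : ℕ) : ℂ) ^ (-(1 / 2 - a)))) by ring])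
  have B := H11 T hT2 X hXl hXu a c ha hc hc' ν b hb
  rw [decomp h1 X a c hX1 ha hc]
  refine (norm_add_le _ _).trans ((add_le_add A B).trans ?_)
  have hs1 : (∑ n ∈ Finset.Icc 1 (Nh T), ‖cH T ν b n‖ * (n : ℝ) ^ (-(1 / 2) : ℝ)) ^ 2 ≤
      T ^ (504 / 1000 : ℝ) := by
    calc _ ≤ (T ^ (252 / 1000 : ℝ)) ^ 2 := by
          gcongr
      _ = T ^ (504 / 1000 : ℝ) := by
          rw [← Real.rpow_natCast, ← Real.rpow_mul hT0.le]; norm_num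
  have hs2 : (∑ n ∈ Finset.Icc 1 (Nh T), ‖cH T ν b n‖ * (n : ℝ) ^ (-(7 / 16) : ℝ)) ^ 2 ≤
      T ^ (568 / 1000 : ℝ) := by
    calc _ ≤ (T ^ (284 / 1000 : ℝ)) ^ 2 := by
          gcongr
      _ = T ^ (568 / 1000 : ℝ) := by
          rw [← Real.rpow_natCast, ← Real.rpow_mul hT0.le]; norm_num
  have hXp : ∀ e : ℝ, 0 ≤ e → X ^ (-e) ≤ T ^ (-(999 / 1000 * e)) := by
    intro e he
    calc X ^ (-e) ≤ (T ^ (999 / 1000 : ℝ)) ^ (-e) := by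
          apply Real.rpow_le_rpow_of_nonpos (by positivity) hXl (by linarith)
      _ = T ^ (-(999 / 1000 * e)) := by
          rw [← Real.rpow_mul hT0.le]; ring_nf
  have b1 : X ^ (-8 : ℝ) * (∑ n ∈ Finset.Icc 1 (Nh T), ‖cH T ν b n‖ *
      (n : ℝ) ^ (-(1 / 2) : ℝ)) ^ 2 ≤ T ^ (-(6625 / 10000) : ℝ) := by
    calc _ ≤ T ^ (-(999 / 1000 * 8) : ℝ) * T ^ (504 / 1000 : ℝ) := by
          gcongr
          exact hXp 8 (by norm_num)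
      _ = T ^ (-(999 / 1000 * 8) + 504 / 1000 : ℝ) := by rw [← Real.rpow_add hT0]
      _ ≤ T ^ (-(6625 / 10000) : ℝ) := by
          apply Real.rpow_le_rpow_of_exponent_le (by linarith)
          norm_num
  have b2 : X ^ (-(17 / 8) : ℝ) * (∑ n ∈ Finset.Icc 1 (Nh T), ‖cH T ν b n‖ *
      (n : ℝ) ^ (-(7 / 16) : ℝ)) ^ 2 ≤ T ^ (-(6625 / 10000) : ℝ) := by
    calc _ ≤ T ^ (-(999 / 1000 * (17 / 8)) : ℝ) * T ^ (568 / 1000 : ℝ) := by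
          gcongr
          exact hXp (17 / 8) (by norm_num)
      _ = T ^ (-(999 / 1000 * (17 / 8)) + 568 / 1000 : ℝ) := by rw [← Real.rpow_add hT0]
      _ ≤ T ^ (-(6625 / 10000) : ℝ) := by
          apply Real.rpow_le_rpow_of_exponent_le (by linarith)
          norm_num
  have b3 : T ^ (-(6635 / 10000) : ℝ) ≤ T ^ (-(6625 / 10000) : ℝ) := by
    apply Real.rpow_le_rpow_of_exponent_le (by linarith)
    norm_num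
  set D := Real.exp (max C₁ C₂ * (‖a‖ + ‖c‖)) with hD
  have hD0 : 0 < D := Real.exp_pos _
  have hac : 0 ≤ ‖a‖ + ‖c‖ := by positivity
  have d1 : Real.exp (C₁ * (‖a‖ + ‖c‖)) ≤ D := by
    apply Real.exp_le_exp.2
    gcongr
    exact le_max_left _ _
  have d2 : Real.exp (C₂ * (‖a‖ + ‖c‖)) ≤ D := by
    apply Real.exp_le_exp.2
    gcongr
    exact le_max_right _ _
  have hν : 1 ≤ 1 + |ν| := by
    have := abs_nonneg ν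
    linarith
  have hcn : 8 ≤ ‖c‖ := hc.trans (re_le_norm c)
  have d3 : 3 * D ≤ Real.exp ((max C₁ C₂ + 1) * (‖a‖ + ‖c‖)) := by
    rw [add_mul, Real.exp_add, one_mul, ← hD, mul_comm]
    gcongr
    have h3 := Real.add_one_le_exp (‖a‖ + ‖c‖)
    have := norm_nonneg a
    linarith
  set t := T ^ (-(6625 / 10000) : ℝ) with ht
  have ht0 : 0 < t := Real.rpow_pos_of_pos hT0 _
  calc Real.exp (C₁ * (‖a‖ + ‖c‖)) *
      (X ^ (-8 : ℝ) * (∑ n ∈ Finset.Icc 1 (Nh T), ‖cH T ν b n‖ * (n : ℝ) ^ (-(1 / 2) : ℝ)) ^ 2 +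
      X ^ (-(17 / 8) : ℝ) *
        (∑ n ∈ Finset.Icc 1 (Nh T), ‖cH T ν b n‖ * (n : ℝ) ^ (-(7 / 16) : ℝ)) ^ 2) +
      Real.exp (C₂ * (‖a‖ + ‖c‖)) * (1 + |ν|) * T ^ (-(6635 / 10000) : ℝ)
      ≤ D * (t + t) + D * (1 + |ν|) * t := by
        gcongr
    _ ≤ 3 * D * (1 + |ν|) * t := by
        nlinarith [mul_pos hD0 ht0]
    _ ≤ _ := by gcongr

end F4
end Pool.Agent.Lib.MP_973905_nt
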