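import Pool.Agent.Lib.MP_973905_nt.F4.Grow

/-! F4 module (Z6): analyticity and growth of the function `Js`. -/

namespace Pool.Agent.Lib.MP_973905_nt
namespace F4
namespace Strip4

open MeasureTheory ProbabilityTheory Complex Filter Topology

/-- derivative of `riemannZeta₁` -/
lemma deriv_grow : ∃ C : ℝ, 0 < C ∧ ∀ s : ℂ, -(1 / 8) ≤ s.re → s.re ≤ 9 →
    ‖riemannZeta₁ s‖ ≤ C * (1 + |s.im|) ^ 3 ∧ ‖deriv riemannZeta₁ s‖ ≤ C * (1 + |s.im|) ^ 3 := by
  obtain ⟨C, hC, h⟩ := Grow.grow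
  refine ⟨C + 64 * C, by positivity, fun s h1 h2 => ?_⟩
  have hy := abs_nonneg s.im
  constructor
  · refine (h s (by linarith) (by linarith)).trans ?_
    gcongr
    linarith
  have hball : ∀ z ∈ Metric.closedBall s (1 / 8 : ℝ), -(1 / 4) ≤ z.re ∧ z.re ≤ 10 ∧
      |z.im| ≤ |s.im| + 1 / 8 := by
    intro z hz
    rw [Metric.mem_closedBall, dist_eq_norm] at hz
    have h5 := (abs_re_le_norm (z - s)).trans hz
    have h6 := (abs_im_le_norm (z - s)).trans hz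
    rw [sub_re, abs_le] at h5
    rw [sub_im] at h6
    have h7 := abs_sub_abs_le_abs_sub z.im s.im
    exact ⟨by linarith [h5.1], by linarith [h5.2], by linarith⟩
  have h3 := norm_deriv_le_of_forall_mem_sphere_norm_le (C := C * (2 * (1 + |s.im|)) ^ 3)
    (by norm_num) (differentiable_riemannZeta₁.diffContOnCl (s := Metric.ball s (1 / 8)))
    (fun z hz => by
      have h4 := hball z (Metric.sphere_subset_closedBall hz)
      refine (h z h4.1 h4.2.1).trans ?_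
      have h5 := abs_nonneg z.im
      gcongr
      linarith [h4.2.2])
  refine h3.trans ?_
  rw [div_le_iff₀ (by norm_num), mul_pow]
  have : 0 ≤ C * (1 + |s.im|) ^ 3 := by positivity
  nlinarith

lemma re_add (a : ℂ) (t : ℝ) : (1 / 2 + a + t * I).re = 1 / 2 + a.re := by simp
lemma re_sub (a : ℂ) (t : ℝ) : (1 / 2 + a - t * I).re = 1 / 2 + a.re := by simp
lemma im_add (a : ℂ) (t : ℝ) : (1 / 2 + a + t * I).im = a.im + t := by simp
lemma im_sub (a : ℂ) (t : ℝ) : (1 / 2 + a - t * I).im = a.im - t := by simp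

lemma one_add_abs_add (x y : ℝ) : 1 + |x + y| ≤ (1 + |x|) * (1 + |y|) := by
  have := abs_add_le x y
  nlinarith [abs_nonneg x, abs_nonneg y]

lemma one_add_abs_sub (x y : ℝ) : 1 + |x - y| ≤ (1 + |x|) * (1 + |y|) := by
  have := one_add_abs_add x (-y)
  rwa [abs_neg, ← sub_eq_add_neg] at this

/-- bounds at the two points -/
lemma pts {C : ℝ} (hC : 0 ≤ C) {f : ℂ → ℂ} (h : ∀ s : ℂ, -(1 / 8) ≤ s.re → s.re ≤ 9 →
    ‖f s‖ ≤ C * (1 + |s.im|) ^ 3) {a : ℂ} (ha : |a.re| ≤ 5 / 8) {t : ℝ} (ht : 0 < t) :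
    ‖f (1 / 2 + a + t * I)‖ ≤ C * ((1 + |a.im|) * (1 + t)) ^ 3 ∧
    ‖f (1 / 2 + a - t * I)‖ ≤ C * ((1 + |a.im|) * (1 + t)) ^ 3 := by
  rw [abs_le] at ha
  constructor
  · refine (h _ (by rw [re_add]; linarith [ha.1]) (by rw [re_add]; linarith [ha.2])).trans ?_
    rw [im_add]
    have h1 := one_add_abs_add a.im t
    rw [abs_of_pos ht] at h1
    gcongr
  · refine (h _ (by rw [re_sub]; linarith [ha.1]) (by rw [re_sub]; linarith [ha.2])).trans ?_
    rw [im_sub]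
    have h1 := one_add_abs_sub a.im t
    rw [abs_of_pos ht] at h1
    gcongr

/-- norm of the weight -/
lemma norm_Wt {X : ℝ} (hX : 0 < X) (c : ℂ) {t : ℝ} (ht : 0 < t) :
    ‖Wt X c t‖ = X⁻¹ * (t / X) ^ (c.re - 1) * Real.exp (-(t / X)) := by
  unfold Wt
  rw [norm_mul, norm_mul, norm_inv, Complex.norm_real, Real.norm_of_nonneg hX.le,
    norm_cpow_eq_rpow_re_of_pos (by positivity), norm_exp]
  have e1 : (c - 1).re = c.re - 1 := by simp
  have e2 : (-((t / X : ℝ) : ℂ)).re = -(t / X) := by rw [neg_re, ofReal_re]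
  rw [e1, e2]

lemma cont_Wt {X : ℝ} (hX : 0 < X) (c : ℂ) : ContinuousOn (Wt X c) (Set.Ioi 0) := by
  intro t ht
  have ht0 : (0 : ℝ) < t := ht
  refine ContinuousAt.continuousWithinAt ?_
  unfold Wt
  have h1 : ContinuousAt (fun t : ℝ => ((t / X : ℝ) : ℂ) ^ (c - 1)) t := by
    refine ContinuousAt.cpow (by fun_prop) continuousAt_const ?_
    left
    rw [ofReal_re]
    positivity
  exact (continuousAt_const.mul h1).mul (by fun_prop)

/-- the basic integrable majorant -/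
lemma int_maj {X : ℝ} (hX : 0 < X) {σ : ℝ} (hσ : 8 ≤ σ) :
    IntegrableOn (fun t : ℝ => (1 + t) ^ 6 * (1 + (t ^ 2)⁻¹) *
      (X⁻¹ * (t / X) ^ (σ - 1) * Real.exp (-(t / X)))) (Set.Ioi 0) := by
  have hint : ∀ p : ℝ, 0 ≤ p → IntegrableOn (fun t : ℝ => t ^ p * Real.exp (-(t / X)))
      (Set.Ioi 0) := by
    intro p hp
    have h := integrableOn_rpow_mul_exp_neg_mul_rpow (s := p) (p := 1) (b := X⁻¹)
      (by linarith) one_pos (by positivity)
    refine h.congr_fun (fun t _ => ?_) measurableSet_Ioi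
    simp only [Real.rpow_one]
    congr 2
    field_simp
  have h1 := ((hint (σ - 3) (by linarith)).add (hint (σ + 5) (by linarith))).const_mul
    (128 * X⁻¹ * X ^ (-(σ - 1)))
  refine Integrable.mono' h1 ?_ ?_
  · refine ContinuousOn.aestronglyMeasurable ?_ measurableSet_Ioi
    intro t ht
    have ht0 : (0 : ℝ) < t := ht
    refine ContinuousAt.continuousWithinAt ?_
    have h2 : ContinuousAt (fun t : ℝ => (t / X) ^ (σ - 1)) t := by
      refine ContinuousAt.rpow (by fun_prop) continuousAt_const ?_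
      left
      positivity
    have h3 : ContinuousAt (fun t : ℝ => (t ^ 2)⁻¹) t :=
      ContinuousAt.inv₀ (by fun_prop) (by positivity)
    exact ((by fun_prop : ContinuousAt (fun t : ℝ => (1 + t) ^ 6) t).mul
      (continuousAt_const.add h3)).mul ((continuousAt_const.mul h2).mul (by fun_prop))
  · rw [ae_restrict_iff' measurableSet_Ioi]
    filter_upwards with t ht
    have ht0 : (0 : ℝ) < t := ht
    have h0 : 0 ≤ (1 + t) ^ 6 * (1 + (t ^ 2)⁻¹) *
      (X⁻¹ * (t / X) ^ (σ - 1) * Real.exp (-(t / X))) := by positivity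
    rw [Real.norm_of_nonneg h0]
    have e1 : (t / X) ^ (σ - 1) = t ^ (σ - 3) * t ^ 2 * X ^ (-(σ - 1)) := by
      rw [Real.div_rpow ht0.le hX.le, Real.rpow_neg hX.le, div_eq_mul_inv]
      congr 1
      rw [← Real.rpow_natCast t 2, ← Real.rpow_add ht0]
      congr 1
      push_cast
      ring
    have e2 : t ^ (σ + 5) = t ^ (σ - 3) * t ^ 8 := by
      rw [← Real.rpow_natCast t 8, ← Real.rpow_add ht0]
      congr 1
      push_cast
      ring
    rw [e1]
    simp only [Pi.add_apply]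
    rw [e2]
    have h4 : (1 + t) ^ 6 * (1 + (t ^ 2)⁻¹) * t ^ 2 ≤ 128 * (1 + t ^ 8) := by
      have e3 : (1 + t) ^ 6 * (1 + (t ^ 2)⁻¹) * t ^ 2 = (1 + t) ^ 6 * (t ^ 2 + 1) := by
        field_simp
      rw [e3]
      rcases le_total t 1 with h5 | h5
      · have h6 : (1 + t) ^ 6 ≤ 2 ^ 6 := by gcongr; linarith
        have h7 : t ^ 2 + 1 ≤ 2 := by nlinarith
        have h8 : 0 ≤ t ^ 8 := by positivity
        calc (1 + t) ^ 6 * (t ^ 2 + 1) ≤ 2 ^ 6 * 2 := by gcongr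
          _ ≤ _ := by linarith
      · have h6 : (1 + t) ^ 6 ≤ (2 * t) ^ 6 := by gcongr; linarith
        have h7 : t ^ 2 + 1 ≤ 2 * t ^ 2 := by nlinarith
        calc (1 + t) ^ 6 * (t ^ 2 + 1) ≤ (2 * t) ^ 6 * (2 * t ^ 2) := by gcongr
          _ = 128 * t ^ 8 := by ring
          _ ≤ _ := by linarith
    have h9 : 0 ≤ t ^ (σ - 3) * X ^ (-(σ - 1)) * X⁻¹ * Real.exp (-(t / X)) := by positivity
    calc (1 + t) ^ 6 * (1 + (t ^ 2)⁻¹) *
          (X⁻¹ * (t ^ (σ - 3) * t ^ 2 * X ^ (-(σ - 1))) * Real.exp (-(t / X)))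
        = (t ^ (σ - 3) * X ^ (-(σ - 1)) * X⁻¹ * Real.exp (-(t / X))) *
          ((1 + t) ^ 6 * (1 + (t ^ 2)⁻¹) * t ^ 2) := by ring
      _ ≤ (t ^ (σ - 3) * X ^ (-(σ - 1)) * X⁻¹ * Real.exp (-(t / X))) * (128 * (1 + t ^ 8)) := by
          gcongr
      _ = _ := by ring

/-- the polynomial -/
lemma HP_props (N : ℕ) (b : ℕ → ℂ) : ∃ B : ℝ, 0 ≤ B ∧
    Continuous (fun t : ℝ => HP N b t * (starRingEnd ℂ) (HP N b t)) ∧
    ∀ t : ℝ, ‖HP N b t * (starRingEnd ℂ) (HP N b t)‖ ≤ B := by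
  have hc : Continuous (HP N b) := by
    unfold HP
    refine continuous_finsetSum _ fun n hn => continuous_const.mul ?_
    have h0 : (n : ℂ) ≠ 0 := by
      have := (Finset.mem_Icc.1 hn).1
      exact_mod_cast (by omega : n ≠ 0)
    simp only [fs]
    exact Continuous.const_cpow (by fun_prop) (Or.inl h0)
  have hb : ∀ t : ℝ, ‖HP N b t‖ ≤ ∑ n ∈ Finset.Icc 1 N, ‖b n‖ := by
    intro t
    unfold HP
    refine (norm_sum_le _ _).trans (Finset.sum_le_sum fun n hn => ?_)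
    rw [norm_mul]
    refine mul_le_of_le_one_right (norm_nonneg _) ?_
    simp only [fs]
    exact norm_natCast_cpow_neg_le_one (by simp) (Finset.mem_Icc.1 hn).1
  refine ⟨(∑ n ∈ Finset.Icc 1 N, ‖b n‖) ^ 2, by positivity,
    hc.mul (Complex.continuous_conj.comp hc), fun t => ?_⟩
  rw [norm_mul, RCLike.norm_conj, sq]
  have h0 : 0 ≤ ∑ n ∈ Finset.Icc 1 N, ‖b n‖ := Finset.sum_nonneg fun _ _ => norm_nonneg _
  exact mul_le_mul (hb t) (hb t) (norm_nonneg _) h0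

/-- general integrability -/
lemma int_gen {X : ℝ} (hX : 0 < X) {c : ℂ} (hc : 8 ≤ c.re) {φ : ℝ → ℂ}
    (hφ : ContinuousOn φ (Set.Ioi 0)) {K : ℝ} (hK : ∀ t : ℝ, 0 < t → ‖φ t‖ ≤ K * (1 + t) ^ 6) :
    IntegrableOn (fun t : ℝ => φ t * Wt X c t) (Set.Ioi 0) ∧
    IntegrableOn (fun t : ℝ => φ t * ((t : ℂ) ^ 2)⁻¹ * Wt X c t) (Set.Ioi 0) := by
  have hm := (int_maj hX hc).const_mul K
  have hcW := cont_Wt hX c
  have hinv : ContinuousOn (fun t : ℝ => ((t : ℂ) ^ 2)⁻¹) (Set.Ioi 0) := by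
    intro t ht
    have ht0 : (0 : ℝ) < t := ht
    refine ContinuousAt.continuousWithinAt (ContinuousAt.inv₀ (by fun_prop) ?_)
    exact pow_ne_zero _ (by exact_mod_cast ht0.ne')
  constructor
  · refine Integrable.mono' hm ((hφ.mul hcW).aestronglyMeasurable measurableSet_Ioi) ?_
    rw [ae_restrict_iff' measurableSet_Ioi]
    filter_upwards with t ht
    have ht0 : (0 : ℝ) < t := ht
    rw [norm_mul, norm_Wt hX c ht0]
    have h1 := hK t ht0
    have h2 : 0 ≤ K * (1 + t) ^ 6 := (norm_nonneg _).trans h1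
    have h3 : (1 : ℝ) ≤ 1 + (t ^ 2)⁻¹ := by
      have : 0 ≤ (t ^ 2)⁻¹ := by positivity
      linarith
    have h4 : 0 ≤ X⁻¹ * (t / X) ^ (c.re - 1) * Real.exp (-(t / X)) := by positivity
    calc ‖φ t‖ * (X⁻¹ * (t / X) ^ (c.re - 1) * Real.exp (-(t / X)))
        ≤ (K * (1 + t) ^ 6) * (X⁻¹ * (t / X) ^ (c.re - 1) * Real.exp (-(t / X))) := by gcongr
      _ ≤ (K * (1 + t) ^ 6 * (1 + (t ^ 2)⁻¹)) *
          (X⁻¹ * (t / X) ^ (c.re - 1) * Real.exp (-(t / X))) := by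
          apply mul_le_mul_of_nonneg_right _ h4
          exact le_mul_of_one_le_right h2 h3
      _ = _ := by ring
  · refine Integrable.mono' hm (((hφ.mul hinv).mul hcW).aestronglyMeasurable measurableSet_Ioi) ?_
    rw [ae_restrict_iff' measurableSet_Ioi]
    filter_upwards with t ht
    have ht0 : (0 : ℝ) < t := ht
    rw [norm_mul, norm_mul, norm_Wt hX c ht0, norm_inv, norm_pow, Complex.norm_real,
      Real.norm_of_nonneg ht0.le]
    have h1 := hK t ht0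
    have h2 : 0 ≤ K * (1 + t) ^ 6 := (norm_nonneg _).trans h1
    have h3 : (t ^ 2)⁻¹ ≤ 1 + (t ^ 2)⁻¹ := by linarith
    have h4 : 0 ≤ X⁻¹ * (t / X) ^ (c.re - 1) * Real.exp (-(t / X)) := by positivity
    calc ‖φ t‖ * (t ^ 2)⁻¹ * (X⁻¹ * (t / X) ^ (c.re - 1) * Real.exp (-(t / X)))
        ≤ (K * (1 + t) ^ 6) * (1 + (t ^ 2)⁻¹) *
          (X⁻¹ * (t / X) ^ (c.re - 1) * Real.exp (-(t / X))) := by gcongr
      _ = _ := by ring

lemma isOpen_strip : IsOpen {a : ℂ | |a.re| < 5 / 8} :=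
  isOpen_lt (continuous_abs.comp continuous_re) continuous_const

lemma cont_z1 {g : ℝ → ℂ} (hg : Continuous g) : Continuous fun t => riemannZeta₁ (g t) :=
  differentiable_riemannZeta₁.continuous.comp hg

lemma cont_d1 {g : ℝ → ℂ} (hg : Continuous g) : Continuous fun t => deriv riemannZeta₁ (g t) :=
  (differentiable_riemannZeta₁.contDiff (n := 1)).continuous_deriv_one.comp hg

/-- the derivative of the product of the two values -/
lemma hasDerivAt_pair (a : ℂ) (t : ℝ) (w : ℂ) :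
    HasDerivAt (fun a : ℂ => riemannZeta₁ (1 / 2 + a + t * I) * riemannZeta₁ (1 / 2 + a - t * I) * w)
      ((deriv riemannZeta₁ (1 / 2 + a + t * I) * riemannZeta₁ (1 / 2 + a - t * I) +
        riemannZeta₁ (1 / 2 + a + t * I) * deriv riemannZeta₁ (1 / 2 + a - t * I)) * w) a := by
  have h1 : HasDerivAt riemannZeta₁ (deriv riemannZeta₁ (1 / 2 + a + t * I)) (1 / 2 + a + t * I) :=
    (differentiable_riemannZeta₁ _).hasDerivAt
  have h2 : HasDerivAt riemannZeta₁ (deriv riemannZeta₁ (1 / 2 + a - t * I)) (1 / 2 + a - t * I) :=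
    (differentiable_riemannZeta₁ _).hasDerivAt
  have e1 : HasDerivAt (fun a : ℂ => 1 / 2 + a + t * I) 1 a :=
    ((hasDerivAt_id a).const_add (1 / 2)).add_const _
  have e2 : HasDerivAt (fun a : ℂ => 1 / 2 + a - t * I) 1 a :=
    ((hasDerivAt_id a).const_add (1 / 2)).sub_const _
  have h3 := HasDerivAt.comp a h1 e1
  have h4 := HasDerivAt.comp a h2 e2
  have h5 := (h3.mul h4).mul_const w
  simp only [mul_one] at h5
  exact h5

lemma part1 {X : ℝ} (hX : 1 ≤ X) {c : ℂ} (hc : 8 ≤ c.re) (N : ℕ) (b : ℕ → ℂ) :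
    DifferentiableOn ℂ (Js X c N b) {a : ℂ | |a.re| < 5 / 8} := by
  have hX0 : 0 < X := by linarith
  obtain ⟨C, hC, hz⟩ := deriv_grow
  obtain ⟨B, hB, hHc, hHb⟩ := HP_props N b
  set W : ℝ → ℂ := fun t => HP N b t * (starRingEnd ℂ) (HP N b t) with hW
  intro a₀ ha₀
  -- the integrands in the form `φ * t⁻² * Wt`
  have hball : Metric.ball a₀ 1 ∩ {a : ℂ | |a.re| < 5 / 8} ∈ 𝓝 a₀ :=
    Filter.inter_mem (Metric.ball_mem_nhds a₀ one_pos) (isOpen_strip.mem_nhds ha₀)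
  have him : ∀ a ∈ Metric.ball a₀ 1, 1 + |a.im| ≤ 2 + |a₀.im| := by
    intro a ha
    rw [Metric.mem_ball, dist_eq_norm] at ha
    have h6 := (abs_im_le_norm (a - a₀)).trans ha.le
    rw [sub_im] at h6
    have h7 := abs_sub_abs_le_abs_sub a.im a₀.im
    linarith
  have hcz : ∀ a : ℂ, Continuous fun t : ℝ =>
      riemannZeta₁ (1 / 2 + a + t * I) * riemannZeta₁ (1 / 2 + a - t * I) * W t := fun a =>
    ((cont_z1 (by fun_prop)).mul (cont_z1 (by fun_prop))).mul hHc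
  have hcd : ∀ a : ℂ, Continuous fun t : ℝ =>
      (deriv riemannZeta₁ (1 / 2 + a + t * I) * riemannZeta₁ (1 / 2 + a - t * I) +
        riemannZeta₁ (1 / 2 + a + t * I) * deriv riemannZeta₁ (1 / 2 + a - t * I)) * W t := fun a =>
    (((cont_d1 (by fun_prop)).mul (cont_z1 (by fun_prop))).add
      ((cont_z1 (by fun_prop)).mul (cont_d1 (by fun_prop)))).mul hHc
  have hbz : ∀ a : ℂ, |a.re| ≤ 5 / 8 → ∀ t : ℝ, 0 < t →
      ‖riemannZeta₁ (1 / 2 + a + t * I) * riemannZeta₁ (1 / 2 + a - t * I) * W t‖ ≤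
        (C ^ 2 * (1 + |a.im|) ^ 6 * B) * (1 + t) ^ 6 := by
    intro a ha t ht
    have h1 := pts hC.le (fun s h1 h2 => (hz s h1 h2).1) ha ht
    rw [norm_mul, norm_mul]
    calc ‖riemannZeta₁ (1 / 2 + a + t * I)‖ * ‖riemannZeta₁ (1 / 2 + a - t * I)‖ * ‖W t‖
        ≤ (C * ((1 + |a.im|) * (1 + t)) ^ 3) * (C * ((1 + |a.im|) * (1 + t)) ^ 3) * B := by
          gcongr
          · exact h1.1
          · exact h1.2
          · exact hHb t
      _ = _ := by ring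
  have hbd : ∀ a : ℂ, |a.re| ≤ 5 / 8 → ∀ t : ℝ, 0 < t →
      ‖(deriv riemannZeta₁ (1 / 2 + a + t * I) * riemannZeta₁ (1 / 2 + a - t * I) +
        riemannZeta₁ (1 / 2 + a + t * I) * deriv riemannZeta₁ (1 / 2 + a - t * I)) * W t‖ ≤
        (2 * C ^ 2 * (1 + |a.im|) ^ 6 * B) * (1 + t) ^ 6 := by
    intro a ha t ht
    have h1 := pts hC.le (fun s h1 h2 => (hz s h1 h2).1) ha ht
    have h2 := pts hC.le (fun s h1 h2 => (hz s h1 h2).2) ha ht
    rw [norm_mul]
    calc ‖deriv riemannZeta₁ (1 / 2 + a + t * I) * riemannZeta₁ (1 / 2 + a - t * I) +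
        riemannZeta₁ (1 / 2 + a + t * I) * deriv riemannZeta₁ (1 / 2 + a - t * I)‖ * ‖W t‖
        ≤ ((C * ((1 + |a.im|) * (1 + t)) ^ 3) * (C * ((1 + |a.im|) * (1 + t)) ^ 3) +
          (C * ((1 + |a.im|) * (1 + t)) ^ 3) * (C * ((1 + |a.im|) * (1 + t)) ^ 3)) * B := by
          have h3 : ‖deriv riemannZeta₁ (1 / 2 + a + t * I) * riemannZeta₁ (1 / 2 + a - t * I) +
              riemannZeta₁ (1 / 2 + a + t * I) * deriv riemannZeta₁ (1 / 2 + a - t * I)‖ ≤
              (C * ((1 + |a.im|) * (1 + t)) ^ 3) * (C * ((1 + |a.im|) * (1 + t)) ^ 3) +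
              (C * ((1 + |a.im|) * (1 + t)) ^ 3) * (C * ((1 + |a.im|) * (1 + t)) ^ 3) := by
            refine (norm_add_le _ _).trans ?_
            rw [norm_mul, norm_mul]
            gcongr
            · exact h2.1
            · exact h1.2
            · exact h1.1
            · exact h2.2
          exact mul_le_mul h3 (hHb t) (norm_nonneg _) (by positivity)
      _ = _ := by ring
  have key := hasDerivAt_integral_of_dominated_loc_of_deriv_le
    (μ := volume.restrict (Set.Ioi (0 : ℝ)))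
    (F := fun a t => riemannZeta₁ (1 / 2 + a + (t : ℝ) * I) * riemannZeta₁ (1 / 2 + a - t * I) *
      (W t * ((t : ℂ) ^ 2)⁻¹ * Wt X c t))
    (F' := fun a t => (deriv riemannZeta₁ (1 / 2 + a + t * I) * riemannZeta₁ (1 / 2 + a - t * I) +
        riemannZeta₁ (1 / 2 + a + t * I) * deriv riemannZeta₁ (1 / 2 + a - t * I)) *
      (W t * ((t : ℂ) ^ 2)⁻¹ * Wt X c t))
    (bound := fun t => (2 * C ^ 2 * (2 + |a₀.im|) ^ 6 * B) * ((1 + t) ^ 6 * (1 + (t ^ 2)⁻¹) *
      (X⁻¹ * (t / X) ^ (c.re - 1) * Real.exp (-(t / X)))))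
    (x₀ := a₀) hball ?_ ?_ ?_ ?_ ?_ ?_
  · have h1 : Js X c N b = fun a => ∫ t in Set.Ioi (0 : ℝ),
        riemannZeta₁ (1 / 2 + a + (t : ℝ) * I) * riemannZeta₁ (1 / 2 + a - t * I) *
        (W t * ((t : ℂ) ^ 2)⁻¹ * Wt X c t) := by
      funext a
      unfold Js
      refine setIntegral_congr_fun measurableSet_Ioi fun t _ => ?_
      simp only [hW]
      ring
    rw [h1]
    exact key.2.differentiableAt.differentiableWithinAt
  · refine Filter.Eventually.of_forall fun a => ?_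
    have h := ((hcz a).continuousOn (s := Set.Ioi 0)).aestronglyMeasurable
      (μ := volume) measurableSet_Ioi
    have h2 : ContinuousOn (fun t : ℝ => riemannZeta₁ (1 / 2 + a + (t : ℝ) * I) *
        riemannZeta₁ (1 / 2 + a - t * I) * (W t * ((t : ℂ) ^ 2)⁻¹ * Wt X c t)) (Set.Ioi 0) := by
      refine (((cont_z1 (by fun_prop)).mul (cont_z1 (by fun_prop))).continuousOn).mul
        ((hHc.continuousOn.mul ?_).mul (cont_Wt hX0 c))
      intro t ht
      have ht0 : (0 : ℝ) < t := ht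
      refine ContinuousAt.continuousWithinAt (ContinuousAt.inv₀ (by fun_prop) ?_)
      exact pow_ne_zero _ (by exact_mod_cast ht0.ne')
    exact h2.aestronglyMeasurable measurableSet_Ioi
  · have h := (int_gen hX0 hc ((hcz a₀).continuousOn (s := Set.Ioi 0))
      (hbz a₀ (le_of_lt ha₀))).2
    refine h.congr_fun (fun t _ => ?_) measurableSet_Ioi
    simp only
    ring
  · have h2 : ContinuousOn (fun t : ℝ => (deriv riemannZeta₁ (1 / 2 + a₀ + t * I) *
        riemannZeta₁ (1 / 2 + a₀ - t * I) +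
        riemannZeta₁ (1 / 2 + a₀ + t * I) * deriv riemannZeta₁ (1 / 2 + a₀ - t * I)) *
        (W t * ((t : ℂ) ^ 2)⁻¹ * Wt X c t)) (Set.Ioi 0) := by
      refine ((((cont_d1 (by fun_prop)).mul (cont_z1 (by fun_prop))).add
        ((cont_z1 (by fun_prop)).mul (cont_d1 (by fun_prop)))).continuousOn).mul
        ((hHc.continuousOn.mul ?_).mul (cont_Wt hX0 c))
      intro t ht
      have ht0 : (0 : ℝ) < t := ht
      refine ContinuousAt.continuousWithinAt (ContinuousAt.inv₀ (by fun_prop) ?_)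
      exact pow_ne_zero _ (by exact_mod_cast ht0.ne')
    exact h2.aestronglyMeasurable measurableSet_Ioi
  · rw [ae_restrict_iff' measurableSet_Ioi]
    refine Filter.Eventually.of_forall fun t ht a ha => ?_
    have ht0 : (0 : ℝ) < t := ht
    have h1 := him a ha.1
    have h2 := hbd a (le_of_lt ha.2) t ht0
    have h3 : (2 * C ^ 2 * (1 + |a.im|) ^ 6 * B) * (1 + t) ^ 6 ≤
        (2 * C ^ 2 * (2 + |a₀.im|) ^ 6 * B) * (1 + t) ^ 6 := by
      have := abs_nonneg a.im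
      gcongr
    have h4 : ‖((t : ℂ) ^ 2)⁻¹ * Wt X c t‖ = (t ^ 2)⁻¹ *
        (X⁻¹ * (t / X) ^ (c.re - 1) * Real.exp (-(t / X))) := by
      rw [norm_mul, norm_Wt hX0 c ht0, norm_inv, norm_pow, Complex.norm_real,
        Real.norm_of_nonneg ht0.le]
    have h5 : (deriv riemannZeta₁ (1 / 2 + a + t * I) * riemannZeta₁ (1 / 2 + a - t * I) +
        riemannZeta₁ (1 / 2 + a + t * I) * deriv riemannZeta₁ (1 / 2 + a - t * I)) *
      (W t * ((t : ℂ) ^ 2)⁻¹ * Wt X c t) =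
      ((deriv riemannZeta₁ (1 / 2 + a + t * I) * riemannZeta₁ (1 / 2 + a - t * I) +
        riemannZeta₁ (1 / 2 + a + t * I) * deriv riemannZeta₁ (1 / 2 + a - t * I)) * W t) *
        (((t : ℂ) ^ 2)⁻¹ * Wt X c t) := by ring
    rw [h5, norm_mul, h4]
    have h6 : (t ^ 2)⁻¹ ≤ 1 + (t ^ 2)⁻¹ := by linarith
    calc _ ≤ ((2 * C ^ 2 * (2 + |a₀.im|) ^ 6 * B) * (1 + t) ^ 6) * ((1 + (t ^ 2)⁻¹) *
        (X⁻¹ * (t / X) ^ (c.re - 1) * Real.exp (-(t / X)))) := by
          gcongr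
          exact h2.trans h3
      _ = _ := by ring
  · exact (int_maj hX0 hc).const_mul _
  · refine Filter.Eventually.of_forall fun t a _ => ?_
    exact hasDerivAt_pair a t _

lemma part2 {X : ℝ} (hX : 1 ≤ X) {c : ℂ} (hc : 8 ≤ c.re) (N : ℕ) (b : ℕ → ℂ) :
    ∃ D : ℝ, ∀ a : ℂ, |a.re| ≤ 9 / 16 → ‖Js X c N b a‖ ≤ D * Real.exp ‖a‖ := by
  have hX0 : 0 < X := by linarith
  obtain ⟨C, hC, hz⟩ := deriv_grow
  obtain ⟨B, hB, hHc, hHb⟩ := HP_props N b
  set J : ℝ := ∫ t in Set.Ioi (0 : ℝ), (1 + t) ^ 6 * (1 + (t ^ 2)⁻¹) *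
      (X⁻¹ * (t / X) ^ (c.re - 1) * Real.exp (-(t / X))) with hJ
  have hJ0 : 0 ≤ J := by
    refine setIntegral_nonneg measurableSet_Ioi fun t ht => ?_
    have ht0 : (0 : ℝ) < t := ht
    positivity
  refine ⟨C ^ 2 * B * J * (720 * Real.exp 1), fun a ha => ?_⟩
  have h1 : ‖Js X c N b a‖ ≤ ∫ t in Set.Ioi (0 : ℝ), (C ^ 2 * (1 + |a.im|) ^ 6 * B) *
      ((1 + t) ^ 6 * (1 + (t ^ 2)⁻¹) *
      (X⁻¹ * (t / X) ^ (c.re - 1) * Real.exp (-(t / X)))) := by
    unfold Js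
    refine norm_integral_le_of_norm_le ((int_maj hX0 hc).const_mul _) ?_
    rw [ae_restrict_iff' measurableSet_Ioi]
    refine Filter.Eventually.of_forall fun t ht => ?_
    have ht0 : (0 : ℝ) < t := ht
    have h2 := pts hC.le (fun s h1 h2 => (hz s h1 h2).1) (a := a) (by linarith) ht0
    rw [norm_mul, norm_mul, norm_mul, norm_mul, norm_Wt hX0 c ht0, norm_inv, norm_pow,
      Complex.norm_real, Real.norm_of_nonneg ht0.le]
    have h6 : (t ^ 2)⁻¹ ≤ 1 + (t ^ 2)⁻¹ := by linarith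
    calc _ ≤ (C * ((1 + |a.im|) * (1 + t)) ^ 3) * (C * ((1 + |a.im|) * (1 + t)) ^ 3) * B *
          (1 + (t ^ 2)⁻¹) * (X⁻¹ * (t / X) ^ (c.re - 1) * Real.exp (-(t / X))) := by
          gcongr
          · exact h2.1
          · exact h2.2
          · exact hHb t
      _ = _ := by ring
  rw [integral_const_mul, ← hJ] at h1
  refine h1.trans ?_
  have h2 : (1 + |a.im|) ^ 6 ≤ 720 * Real.exp 1 * Real.exp ‖a‖ := by
    have h3 := Real.pow_div_factorial_le_exp (1 + |a.im|) (by positivity) 6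
    have h4 : ((6 : ℕ).factorial : ℝ) = 720 := by norm_num [Nat.factorial]
    rw [h4, div_le_iff₀ (by norm_num)] at h3
    have h5 : Real.exp (1 + |a.im|) ≤ Real.exp 1 * Real.exp ‖a‖ := by
      rw [← Real.exp_add]
      exact Real.exp_le_exp.2 (by linarith [abs_im_le_norm a])
    linarith
  calc C ^ 2 * (1 + |a.im|) ^ 6 * B * J ≤ C ^ 2 * (720 * Real.exp 1 * Real.exp ‖a‖) * B * J := by
        gcongr
    _ = _ := by ring

lemma cont_zeta {g : ℝ → ℂ} (hg : Continuous g) (h : ∀ t, g t ≠ 1) :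
    Continuous fun t => riemannZeta (g t) := by
  refine continuous_iff_continuousAt.mpr fun t => ?_
  exact ContinuousAt.comp (f := g) (g := riemannZeta)
    (differentiableAt_riemannZeta (h t)).continuousAt hg.continuousAt

lemma part3 {X : ℝ} (hX : 1 ≤ X) {c : ℂ} (hc : 10 ≤ c.re) (N : ℕ) (b : ℕ → ℂ) {a : ℂ}
    (ha : |a.re| ≤ 9 / 16) (ha1 : a.re ≠ 1 / 2) :
    Js X c N b a = Jt X c N b a + (1 / 2 - a) ^ 2 * ((X : ℂ) ^ 2)⁻¹ * Jt X (c - 2) N b a := by
  have hX0 : 0 < X := by linarith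
  obtain ⟨C, hC, hz⟩ := deriv_grow
  obtain ⟨B, hB, hHc, hHb⟩ := HP_props N b
  have hne1 : ∀ t : ℝ, (1 / 2 + a + t * I : ℂ) ≠ 1 := by
    intro t h
    have := congrArg re h
    rw [re_add, one_re] at this
    exact ha1 (by linarith)
  have hne2 : ∀ t : ℝ, (1 / 2 + a - t * I : ℂ) ≠ 1 := by
    intro t h
    have := congrArg re h
    rw [re_sub, one_re] at this
    exact ha1 (by linarith)
  set δ : ℝ := |a.re - 1 / 2| with hδ
  have hδ0 : 0 < δ := abs_pos.2 (sub_ne_zero.2 ha1)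
  -- bound for zeta
  have hzb : ∀ s : ℂ, s ≠ 1 → δ ≤ ‖s - 1‖ → ‖riemannZeta s‖ ≤ δ⁻¹ * ‖riemannZeta₁ s‖ := by
    intro s hs h
    rw [riemannZeta_eq_inv_sub_mul hs, norm_mul, norm_inv]
    gcongr
  have hd1 : ∀ t : ℝ, δ ≤ ‖(1 / 2 + a + t * I : ℂ) - 1‖ := by
    intro t
    have h := abs_re_le_norm ((1 / 2 + a + t * I : ℂ) - 1)
    rw [sub_re, re_add, one_re] at h
    rwa [show 1 / 2 + a.re - 1 = a.re - 1 / 2 by ring] at h
  have hd2 : ∀ t : ℝ, δ ≤ ‖(1 / 2 + a - t * I : ℂ) - 1‖ := by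
    intro t
    have h := abs_re_le_norm ((1 / 2 + a - t * I : ℂ) - 1)
    rw [sub_re, re_sub, one_re] at h
    rwa [show 1 / 2 + a.re - 1 = a.re - 1 / 2 by ring] at h
  set φ : ℝ → ℂ := fun t => riemannZeta (1 / 2 + a + t * I) * riemannZeta (1 / 2 + a - t * I) *
    (HP N b t * (starRingEnd ℂ) (HP N b t)) with hφ
  have hφc : Continuous φ :=
    ((cont_zeta (by fun_prop) hne1).mul (cont_zeta (by fun_prop) hne2)).mul hHc
  have hφb : ∀ t : ℝ, 0 < t → ‖φ t‖ ≤ (δ⁻¹ ^ 2 * C ^ 2 * (1 + |a.im|) ^ 6 * B) * (1 + t) ^ 6 := by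
    intro t ht
    have h2 := pts hC.le (fun s h1 h2 => (hz s h1 h2).1) (a := a) (by linarith) ht
    rw [hφ]
    simp only
    rw [norm_mul, norm_mul]
    calc _ ≤ (δ⁻¹ * (C * ((1 + |a.im|) * (1 + t)) ^ 3)) *
          (δ⁻¹ * (C * ((1 + |a.im|) * (1 + t)) ^ 3)) * B := by
          gcongr
          · exact (hzb _ (hne1 t) (hd1 t)).trans (by gcongr; exact h2.1)
          · exact (hzb _ (hne2 t) (hd2 t)).trans (by gcongr; exact h2.2)
          · exact hHb t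
      _ = _ := by ring
  have hi1 := (int_gen hX0 (by linarith : 8 ≤ c.re) hφc.continuousOn hφb).1
  have hc2 : 8 ≤ (c - 2).re := by
    rw [sub_re]
    have : (2 : ℂ).re = 2 := by simp
    rw [this]
    linarith
  have hi2 := (int_gen hX0 hc2 hφc.continuousOn hφb).1
  have e1 : Jt X c N b a = ∫ t in Set.Ioi (0 : ℝ), φ t * Wt X c t := rfl
  have e2 : Jt X (c - 2) N b a = ∫ t in Set.Ioi (0 : ℝ), φ t * Wt X (c - 2) t := rfl
  rw [e1, e2, ← integral_const_mul, ← integral_add hi1 (hi2.const_mul _)]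
  unfold Js
  refine setIntegral_congr_fun measurableSet_Ioi fun t ht => ?_
  have ht0 : (0 : ℝ) < t := ht
  have ht0' : (t : ℂ) ≠ 0 := by exact_mod_cast ht0.ne'
  have hXc : (X : ℂ) ≠ 0 := by exact_mod_cast hX0.ne'
  have e3 : riemannZeta₁ (1 / 2 + a + t * I) =
      (1 / 2 + a + t * I - 1) * riemannZeta (1 / 2 + a + t * I) := by
    rw [riemannZeta_eq_inv_sub_mul (hne1 t), mul_inv_cancel_left₀ (sub_ne_zero.2 (hne1 t))]
  have e4 : riemannZeta₁ (1 / 2 + a - t * I) =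
      (1 / 2 + a - t * I - 1) * riemannZeta (1 / 2 + a - t * I) := by
    rw [riemannZeta_eq_inv_sub_mul (hne2 t), mul_inv_cancel_left₀ (sub_ne_zero.2 (hne2 t))]
  have e5 : Wt X (c - 2) t = (X : ℂ) ^ 2 * ((t : ℂ) ^ 2)⁻¹ * Wt X c t := by
    unfold Wt
    have hpos : ((t / X : ℝ) : ℂ) ≠ 0 := by
      have : t / X ≠ 0 := by positivity
      exact_mod_cast this
    have e6 : ((t / X : ℝ) : ℂ) ^ (c - 2 - 1) = ((t / X : ℝ) : ℂ) ^ (c - 1) *
        (((t / X : ℝ) : ℂ) ^ 2)⁻¹ := by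
      rw [show c - 2 - 1 = (c - 1) - (2 : ℕ) by push_cast; ring, cpow_sub _ _ hpos, cpow_natCast]
      rfl
    rw [e6]
    have e7 : (((t / X : ℝ) : ℂ) ^ 2)⁻¹ = (X : ℂ) ^ 2 * ((t : ℂ) ^ 2)⁻¹ := by
      push_cast
      field_simp
    rw [e7]
    ring
  have e8 : (1 / 2 + a + t * I - 1) * (1 / 2 + a - t * I - 1) = (1 / 2 - a) ^ 2 + (t : ℂ) ^ 2 := by
    have : (I : ℂ) ^ 2 = -1 := I_sq
    linear_combination (-(t : ℂ) ^ 2) * this
  rw [e3, e4, e5, hφ]
  have e9 : (1 / 2 + a + t * I - 1) * riemannZeta (1 / 2 + a + t * I) *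
      ((1 / 2 + a - t * I - 1) * riemannZeta (1 / 2 + a - t * I)) *
      (HP N b t * (starRingEnd ℂ) (HP N b t)) * ((t : ℂ) ^ 2)⁻¹ * Wt X c t =
      ((1 / 2 + a + t * I - 1) * (1 / 2 + a - t * I - 1)) * ((t : ℂ) ^ 2)⁻¹ *
      (riemannZeta (1 / 2 + a + t * I) * riemannZeta (1 / 2 + a - t * I) *
      (HP N b t * (starRingEnd ℂ) (HP N b t))) * Wt X c t := by ring
  rw [e9, e8]
  field_simp
  ring

end Strip4

/-- (Z6) -/
theorem stStrip4 (_ : StGrow) : StStrip4 :=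
  ⟨fun _ hX _ hc N b => Strip4.part1 hX hc N b, fun _ hX _ hc N b => Strip4.part2 hX hc N b,
    fun _ hX _ hc N b _ ha h1 _ => Strip4.part3 hX hc N b ha h1⟩

end F4
end Pool.Agent.Lib.MP_973905_nt
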