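import Pool.Agent.Lib.MP_973905_nt.F4.Stmts

namespace Pool.Agent.Lib.MP_973905_nt
namespace F4

open MeasureTheory ProbabilityTheory Complex Filter Topology K1

namespace Three

open ThreeLines

/-- `a` times the main term, as an analytic function. -/
noncomputable def HM4 (Y : ℝ) (R : ℂ → ℂ) (c a : ℂ) : ℂ :=
  (1 / 2 : ℂ) * (Gamma c * (riemannZeta₁ (1 + 2 * a) * R a) -
    (Y : ℂ) ^ (-(2 * a)) * (Gamma (c - 2 * a) * (riemannZeta₁ (1 - 2 * a) * R (-a))))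

lemma Gamma_diffAt {s : ℂ} (hs : 0 < s.re) : DifferentiableAt ℂ Gamma s := by
  apply differentiableAt_Gamma
  intro m h
  rw [h] at hs
  simp at hs
  have : (0 : ℝ) ≤ m := Nat.cast_nonneg m
  linarith

lemma HM4_diff {Y : ℝ} (hY : 0 < Y) {R : ℂ → ℂ} (hR : Differentiable ℂ R) {c : ℂ}
    (hc : 10 ≤ c.re) : DifferentiableOn ℂ (HM4 Y R c) {a : ℂ | |a.re| < 5 / 8} := by
  have hY0 : (Y : ℂ) ≠ 0 := by exact_mod_cast hY.ne'
  have h1 := differentiable_riemannZeta₁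
  have e1 : Differentiable ℂ (fun a : ℂ => riemannZeta₁ (1 + 2 * a)) := h1.comp (by fun_prop)
  have e2 : Differentiable ℂ (fun a : ℂ => riemannZeta₁ (1 - 2 * a)) := h1.comp (by fun_prop)
  have e3 : Differentiable ℂ (fun a : ℂ => R (-a)) := hR.comp (by fun_prop)
  have e4 : Differentiable ℂ (fun a : ℂ => (Y : ℂ) ^ (-(2 * a))) := by
    intro a
    exact DifferentiableAt.const_cpow (by fun_prop) (Or.inl hY0)
  have e5 : DifferentiableOn ℂ (fun a : ℂ => Gamma (c - 2 * a)) {a : ℂ | |a.re| < 5 / 8} := by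
    intro a ha
    have ha' := abs_lt.mp (show |a.re| < 5 / 8 from ha)
    have hre : 0 < (c - 2 * a).re := by
      simp; linarith
    have h := (Gamma_diffAt hre).comp a (f := fun a : ℂ => c - 2 * a) (by fun_prop)
    exact h.differentiableWithinAt
  unfold HM4
  exact (((e1.mul hR).differentiableOn.const_mul _).sub
    (e4.differentiableOn.mul (e5.mul (e2.mul e3).differentiableOn))).const_mul _

lemma HM4_eq (Y : ℝ) (R : ℂ → ℂ) (c : ℂ) {a : ℂ} (ha : a ≠ 0) :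
    HM4 Y R c a = a * (Gamma c * (riemannZeta (1 + 2 * a) * R a) +
      (Y : ℂ) ^ (-(2 * a)) * (Gamma (c - 2 * a) * (riemannZeta (1 - 2 * a) * R (-a)))) := by
  rw [HM4]
  linear_combination (-(Gamma c * R a)) * mul_zeta_plus ha -
    ((Y : ℂ) ^ (-(2 * a)) * Gamma (c - 2 * a) * R (-a)) * mul_zeta_minus ha

lemma Mt_eq (X : ℝ) (c : ℂ) (N : ℕ) (b : ℕ → ℂ) {a : ℂ} (ha : a ≠ 0) :
    HM4 (X / (2 * Real.pi)) (RF N b) c a = a * Mt X c N b a := by
  rw [HM4_eq _ _ _ ha, Mt]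

/-- `a` times the full main term -/
noncomputable def HS (X : ℝ) (N : ℕ) (b : ℕ → ℂ) (a : ℂ) : ℂ :=
  HM4 (X / (2 * Real.pi)) (RF N b) 12 a +
    (1 / 2 - a) ^ 2 * ((X : ℂ) ^ 2)⁻¹ * HM4 (X / (2 * Real.pi)) (RF N b) 10 a

lemma HS_eq (X : ℝ) (N : ℕ) (b : ℕ → ℂ) {a : ℂ} (ha : a ≠ 0) :
    HS X N b a = a * Ms X 12 N b a := by
  rw [HS, Ms, Mt_eq _ _ _ _ ha, Mt_eq _ _ _ _ ha]
  have : (12 : ℂ) - 2 = 10 := by norm_num
  rw [this]
  ring

lemma HS_diff {X : ℝ} (hX : 0 < X) (N : ℕ) (b : ℕ → ℂ) :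
    DifferentiableOn ℂ (HS X N b) {a : ℂ | |a.re| < 5 / 8} := by
  have hpi := Real.pi_pos
  have h1 := HM4_diff (Y := X / (2 * Real.pi)) (by positivity) (RF_diff N b)
    (c := 12) (by norm_num)
  have h2 := HM4_diff (Y := X / (2 * Real.pi)) (by positivity) (RF_diff N b)
    (c := 10) (by norm_num)
  unfold HS
  refine h1.add (DifferentiableOn.mul ?_ h2)
  fun_prop

/-- symmetry of the main term -/
lemma Mt_neg {X : ℝ} (hX : 0 < X) (c : ℂ) (N : ℕ) (b : ℕ → ℂ) (a : ℂ) :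
    Mt X c N b (-a) = ((X / (2 * Real.pi) : ℝ) : ℂ) ^ (2 * a) * Mt X (c + 2 * a) N b a := by
  have hpi := Real.pi_pos
  have hY : ((X / (2 * Real.pi) : ℝ) : ℂ) ≠ 0 := by
    have : 0 < X / (2 * Real.pi) := by positivity
    exact_mod_cast this.ne'
  have e1 : ((X / (2 * Real.pi) : ℝ) : ℂ) ^ (2 * a) * ((X / (2 * Real.pi) : ℝ) : ℂ) ^ (-(2 * a)) = 1 := by
    rw [← cpow_add _ _ hY]; simp
  rw [Mt, Mt]
  have k1 : (1 : ℂ) + 2 * -a = 1 - 2 * a := by ring
  have k2 : -(2 * -a) = 2 * a := by ring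
  have k3 : c - 2 * -a = c + 2 * a := by ring
  have k4 : (1 : ℂ) - 2 * -a = 1 + 2 * a := by ring
  have k5 : c + 2 * a - 2 * a = c := by ring
  rw [k1, k2, k3, k4, k5, neg_neg]
  linear_combination (-(Gamma c * (riemannZeta (1 - 2 * a) * RF N b (-a)))) * e1

/-- a crude bound for the arithmetic factor -/
lemma RF_bd (N : ℕ) (c : ℕ → ℂ) {a : ℂ} (ha : |a.re| ≤ 9 / 16) :
    ‖RF N c a‖ ≤ (∑ n ∈ Finset.Icc 1 N, ‖c n‖) ^ 2 * (N : ℝ) ^ 2 := by
  have hab := abs_le.mp ha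
  have key : ∀ q : ℕ, 1 ≤ q → q ≤ N → ‖((q : ℕ) : ℂ) ^ (-(1 / 2 + a))‖ ≤ N := by
    intro q hq hqN
    have hq0 : (0 : ℝ) < q := by exact_mod_cast hq
    rw [show ((q : ℕ) : ℂ) = ((q : ℝ) : ℂ) by simp, norm_cpow_eq_rpow_re_of_pos hq0]
    calc (q : ℝ) ^ (-(1 / 2 + a)).re ≤ (q : ℝ) ^ (1 : ℝ) := by
          apply Real.rpow_le_rpow_of_exponent_le (by exact_mod_cast hq)
          simp
          linarith
      _ = q := Real.rpow_one _
      _ ≤ N := by exact_mod_cast hqN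
  calc ‖RF N c a‖ ≤ ∑ m ∈ Finset.Icc 1 N, ∑ n ∈ Finset.Icc 1 N, ‖c m‖ * ‖c n‖ * (N : ℝ) ^ 2 := by
        unfold RF
        refine (norm_sum_le _ _).trans (Finset.sum_le_sum fun m hm => ?_)
        refine (norm_sum_le _ _).trans (Finset.sum_le_sum fun n hn => ?_)
        rw [Finset.mem_Icc] at hm hn
        have h1 : 1 ≤ n / m.gcd n :=
          Nat.div_pos (Nat.gcd_le_right m (by omega : 0 < n)) (Nat.gcd_pos_of_pos_left n (by omega : 0 < m))
        have h2 : 1 ≤ m / m.gcd n :=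
          Nat.div_pos (Nat.gcd_le_left n (by omega : 0 < m)) (Nat.gcd_pos_of_pos_left n (by omega : 0 < m))
        have h3 : n / m.gcd n ≤ N := (Nat.div_le_self _ _).trans hn.2
        have h4 : m / m.gcd n ≤ N := (Nat.div_le_self _ _).trans hm.2
        have hw2 : (0 : ℝ) ≤ (1 / 2 : ℂ).re := by norm_num
        have e1 := key _ h1 h3
        have e2 := key _ h2 h4
        have e3 := norm_natCast_cpow_neg_le_one hw2 hm.1
        have e4 := norm_natCast_cpow_neg_le_one hw2 hn.1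
        rw [norm_mul, norm_mul, norm_mul, norm_mul, norm_mul, RCLike.norm_conj]
        calc ‖c m‖ * ‖c n‖ * ‖(m : ℂ) ^ (-(1 / 2 : ℂ))‖ * ‖(n : ℂ) ^ (-(1 / 2 : ℂ))‖ *
            ‖((n / m.gcd n : ℕ) : ℂ) ^ (-(1 / 2 + a))‖ * ‖((m / m.gcd n : ℕ) : ℂ) ^ (-(1 / 2 + a))‖
            ≤ ‖c m‖ * ‖c n‖ * 1 * 1 * N * N := by gcongr
          _ = _ := by ring
    _ = (∑ n ∈ Finset.Icc 1 N, ‖c n‖) * (∑ n ∈ Finset.Icc 1 N, ‖c n‖) * (N : ℝ) ^ 2 := by
        rw [Finset.sum_mul_sum, Finset.sum_mul]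
        refine Finset.sum_congr rfl fun m _ => ?_
        rw [Finset.sum_mul]
    _ = _ := by ring

lemma one_add_le_exp (y : ℝ) : 1 + y ≤ Real.exp y := by
  have := Real.add_one_le_exp y; linarith

lemma exp_gauss (K y : ℝ) : Real.exp (K * |y|) * Real.exp (-y ^ 2) ≤ Real.exp (K ^ 2 / 4) := by
  rw [← Real.exp_add]
  apply Real.exp_le_exp.mpr
  nlinarith [sq_nonneg (|y| - K / 2), sq_abs y]

/-- growth of the `riemannZeta₁` factors -/
lemma z1_le {C : ℝ} (hC : ∀ s : ℂ, -(1 / 8) ≤ s.re → s.re ≤ 10 →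
    ‖riemannZeta₁ s‖ ≤ C * (1 + |s.im|) ^ 3) (hC0 : 0 < C) {a : ℂ} (ha : |a.re| ≤ 9 / 16) :
    ‖riemannZeta₁ (1 + 2 * a)‖ ≤ C * Real.exp (6 * |a.im|) ∧
    ‖riemannZeta₁ (1 - 2 * a)‖ ≤ C * Real.exp (6 * |a.im|) := by
  have h := abs_le.mp ha
  have him : 0 ≤ |a.im| := abs_nonneg _
  have e0 : (1 + 2 * |a.im|) ^ 3 ≤ Real.exp (6 * |a.im|) := by
    calc (1 + 2 * |a.im|) ^ 3 ≤ (Real.exp (2 * |a.im|)) ^ 3 := by
          gcongr
          exact one_add_le_exp _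
      _ = _ := by rw [← Real.exp_nat_mul]; ring_nf
  constructor
  · have h1 := hC (1 + 2 * a) (by simp; linarith) (by simp; linarith)
    have e : |(1 + 2 * a).im| = 2 * |a.im| := by simp [abs_mul]
    rw [e] at h1
    exact h1.trans (by gcongr)
  · have h1 := hC (1 - 2 * a) (by simp; linarith) (by simp; linarith)
    have e : |(1 - 2 * a).im| = 2 * |a.im| := by simp [abs_mul]
    rw [e] at h1
    exact h1.trans (by gcongr)

lemma norm_le_im {a : ℂ} (ha : |a.re| ≤ 9 / 16) : ‖a‖ ≤ 1 + |a.im| := by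
  have := Complex.norm_le_abs_re_add_abs_im a
  linarith

lemma Gamma_bdd {c : ℂ} (hc : 10 ≤ c.re) : ∃ D : ℝ, 0 < D ∧ ∀ a : ℂ, |a.re| ≤ 9 / 16 →
    ‖Gamma (c - 2 * a)‖ ≤ D := by
  have hcont : ContinuousOn Real.Gamma (Set.Icc (c.re - 9 / 8) (c.re + 9 / 8)) := by
    intro x hx
    apply ContinuousAt.continuousWithinAt
    apply DifferentiableAt.continuousAt (𝕜 := ℝ)
    apply Real.differentiableAt_Gamma
    intro m hm
    have : (0 : ℝ) ≤ m := Nat.cast_nonneg m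
    have := hx.1
    linarith
  obtain ⟨D, hD⟩ := isCompact_Icc.exists_bound_of_continuousOn hcont
  refine ⟨|D| + 1, by positivity, fun a ha => ?_⟩
  have hab := abs_le.mp ha
  have e : (c - 2 * a).re = c.re - 2 * a.re := by simp
  have h1 : 0 < (c - 2 * a).re := by rw [e]; linarith
  refine (norm_Gamma_le h1).trans ?_
  have h2 := hD (c - 2 * a).re ⟨by rw [e]; linarith, by rw [e]; linarith⟩
  rw [Real.norm_eq_abs] at h2
  linarith [le_abs_self (Real.Gamma (c - 2 * a).re), le_abs_self D]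

/-- growth of the main term in the strip -/
lemma HM4_growth {C : ℝ} (hC : ∀ s : ℂ, -(1 / 8) ≤ s.re → s.re ≤ 10 →
    ‖riemannZeta₁ s‖ ≤ C * (1 + |s.im|) ^ 3) (hC0 : 0 < C) {X : ℝ} (hX : 1 ≤ X) (N : ℕ)
    (b : ℕ → ℂ) {c : ℂ} (hc : 10 ≤ c.re) : ∃ D : ℝ, 0 < D ∧ ∀ a : ℂ, |a.re| ≤ 9 / 16 →
    ‖HM4 (X / (2 * Real.pi)) (RF N b) c a‖ ≤ D * Real.exp (6 * |a.im|) := by
  have hpi := Real.pi_pos
  obtain ⟨G, hG0, hG⟩ := Gamma_bdd hc
  set Y : ℝ := X / (2 * Real.pi) with hYdef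
  have hY0 : 0 < Y := by positivity
  set B : ℝ := (∑ n ∈ Finset.Icc 1 N, ‖b n‖) ^ 2 * (N : ℝ) ^ 2 with hB
  have hB0 : 0 ≤ B := by positivity
  -- bound for the power of Y
  set P : ℝ := (max Y Y⁻¹) ^ (9 / 8 : ℝ) with hP
  have hP0 : 0 < P := Real.rpow_pos_of_pos (lt_max_of_lt_left hY0) _
  have hPb : ∀ a : ℂ, |a.re| ≤ 9 / 16 → ‖(Y : ℂ) ^ (-(2 * a))‖ ≤ P := by
    intro a ha
    have hab := abs_le.mp ha
    rw [norm_X_cpow hY0]
    have hone : 1 ≤ max Y Y⁻¹ := by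
      by_cases h : 1 ≤ Y
      · exact le_max_of_le_left h
      · apply le_max_of_le_right
        rw [not_le] at h
        exact (one_le_inv₀ hY0).mpr h.le
    by_cases hs : 0 ≤ -(2 * a.re)
    · calc Y ^ (-(2 * a.re)) ≤ (max Y Y⁻¹) ^ (-(2 * a.re)) :=
            Real.rpow_le_rpow hY0.le (le_max_left _ _) hs
        _ ≤ P := Real.rpow_le_rpow_of_exponent_le hone (by linarith)
    · rw [not_le] at hs
      calc Y ^ (-(2 * a.re)) = (Y⁻¹) ^ (2 * a.re) := by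
            rw [Real.inv_rpow hY0.le, ← Real.rpow_neg hY0.le]
        _ ≤ (max Y Y⁻¹) ^ (2 * a.re) :=
            Real.rpow_le_rpow (by positivity) (le_max_right _ _) (by linarith)
        _ ≤ P := Real.rpow_le_rpow_of_exponent_le hone (by linarith)
  refine ⟨1 / 2 * (‖Gamma c‖ * (C * B) + P * (G * (C * B))) + 1, by positivity, fun a ha => ?_⟩
  obtain ⟨h3, h4⟩ := z1_le hC hC0 ha
  have h5 := RF_bd N b ha
  have h6 := RF_bd N b (a := -a) (by simpa using ha)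
  have h7 := hG a ha
  have h8 := hPb a ha
  rw [HM4, norm_mul]
  have g4 : ‖(1 / 2 : ℂ)‖ = 1 / 2 := by norm_num
  rw [g4]
  have hE : 0 < Real.exp (6 * |a.im|) := Real.exp_pos _
  have g1 : ‖Gamma c * (riemannZeta₁ (1 + 2 * a) * RF N b a)‖ ≤
      ‖Gamma c‖ * (C * Real.exp (6 * |a.im|) * B) := by
    rw [norm_mul, norm_mul]
    gcongr
  have g2 : ‖(Y : ℂ) ^ (-(2 * a)) * (Gamma (c - 2 * a) * (riemannZeta₁ (1 - 2 * a) * RF N b (-a)))‖ ≤
      P * (G * (C * Real.exp (6 * |a.im|) * B)) := by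
    rw [norm_mul, norm_mul, norm_mul]
    gcongr
  calc 1 / 2 * ‖Gamma c * (riemannZeta₁ (1 + 2 * a) * RF N b a) -
        (Y : ℂ) ^ (-(2 * a)) * (Gamma (c - 2 * a) * (riemannZeta₁ (1 - 2 * a) * RF N b (-a)))‖
      ≤ 1 / 2 * (‖Gamma c‖ * (C * Real.exp (6 * |a.im|) * B) +
          P * (G * (C * Real.exp (6 * |a.im|) * B))) := by
        gcongr
        exact (norm_sub_le _ _).trans (add_le_add g1 g2)
    _ = (1 / 2 * (‖Gamma c‖ * (C * B) + P * (G * (C * B)))) * Real.exp (6 * |a.im|) := by ring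
    _ ≤ _ := by
        gcongr
        linarith

lemma HS_growth {C : ℝ} (hC : ∀ s : ℂ, -(1 / 8) ≤ s.re → s.re ≤ 10 →
    ‖riemannZeta₁ s‖ ≤ C * (1 + |s.im|) ^ 3) (hC0 : 0 < C) {X : ℝ} (hX : 1 ≤ X) (N : ℕ)
    (b : ℕ → ℂ) : ∃ D : ℝ, 0 < D ∧ ∀ a : ℂ, |a.re| ≤ 9 / 16 →
    ‖HS X N b a‖ ≤ D * Real.exp (8 * |a.im|) := by
  obtain ⟨D₁, hD₁, h1⟩ := HM4_growth hC hC0 hX N b (c := 12) (by norm_num)
  obtain ⟨D₂, hD₂, h2⟩ := HM4_growth hC hC0 hX N b (c := 10) (by norm_num)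
  refine ⟨D₁ + Real.exp 4 * D₂, by positivity, fun a ha => ?_⟩
  have h3 := norm_le_im ha
  have him : 0 ≤ |a.im| := abs_nonneg _
  have h4 : ‖(1 / 2 - a : ℂ)‖ ≤ Real.exp (2 + |a.im|) := by
    calc ‖(1 / 2 - a : ℂ)‖ ≤ ‖(1 / 2 : ℂ)‖ + ‖a‖ := norm_sub_le _ _
      _ ≤ 1 / 2 + (1 + |a.im|) := by
          have : ‖(1 / 2 : ℂ)‖ = 1 / 2 := by norm_num
          rw [this]; gcongr
      _ ≤ 1 + (2 + |a.im|) := by linarith
      _ ≤ _ := one_add_le_exp _
  have h5 : ‖((X : ℂ) ^ 2)⁻¹‖ ≤ 1 := by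
    rw [norm_inv, norm_pow, Complex.norm_real, Real.norm_eq_abs, abs_of_pos (by linarith)]
    exact inv_le_one_of_one_le₀ (one_le_pow₀ hX)
  calc ‖HS X N b a‖ ≤ D₁ * Real.exp (6 * |a.im|) +
        Real.exp (2 + |a.im|) ^ 2 * 1 * (D₂ * Real.exp (6 * |a.im|)) := by
        rw [HS]
        refine (norm_add_le _ _).trans (add_le_add (h1 a ha) ?_)
        rw [norm_mul, norm_mul, norm_pow]
        gcongr
        exact h2 a ha
    _ = D₁ * Real.exp (6 * |a.im|) + Real.exp 4 * D₂ * Real.exp (8 * |a.im|) := by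
        have : Real.exp (2 + |a.im|) ^ 2 * Real.exp (6 * |a.im|) =
            Real.exp 4 * Real.exp (8 * |a.im|) := by
          rw [← Real.exp_nat_mul, ← Real.exp_add, ← Real.exp_add]
          congr 1
          push_cast
          ring
        linear_combination D₂ * this
    _ ≤ D₁ * Real.exp (8 * |a.im|) + Real.exp 4 * D₂ * Real.exp (8 * |a.im|) := by
        gcongr
        linarith
    _ = _ := by ring

/-- the data of the three lines argument; `S` stands for `Js`, `H` for `a Ms`. -/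
structure Dat (K V T : ℝ) (S H : ℂ → ℂ) : Prop where
  K0 : 0 < K
  V0 : 0 < V
  T1 : 1 < T
  Sd : DifferentiableOn ℂ S {a : ℂ | |a.re| < 5 / 8}
  Hd : DifferentiableOn ℂ H {a : ℂ | |a.re| < 5 / 8}
  growth : ∃ D : ℝ, ∀ a : ℂ, |a.re| ≤ 9 / 16 → ‖a * S a - H a‖ ≤ D * Real.exp (8 * |a.im|)
  right : ∀ a : ℂ, a.re = 9 / 16 → ‖a * S a - H a‖ ≤
    V * Real.exp (K * |a.im|) * T ^ (-(6625 / 10000) : ℝ)
  left : ∀ a : ℂ, a.re = -(9 / 16) → ‖a * S a - H a‖ ≤
    V * Real.exp (K * |a.im|) * T ^ (6291 / 10000 : ℝ)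

variable {K V T : ℝ} {S H : ℂ → ℂ}

lemma exp_sq_le {a : ℂ} (ha : |a.re| ≤ 9 / 16) :
    ‖cexp (a ^ 2)‖ ≤ Real.exp 1 * Real.exp (-a.im ^ 2) := by
  rw [norm_exp_sq, ← Real.exp_add]
  apply Real.exp_le_exp.mpr
  have h1 : a.re ^ 2 ≤ (9 / 16) ^ 2 := by
    rw [← sq_abs]; gcongr
  linarith

lemma mul_gauss {a : ℂ} (ha : |a.re| ≤ 9 / 16) {W : ℂ} {B K : ℝ} (hB : 0 ≤ B)
    (hW : ‖W‖ ≤ B * Real.exp (K * |a.im|)) :
    ‖W * cexp (a ^ 2)‖ ≤ B * (Real.exp 1 * Real.exp (K ^ 2 / 4)) := by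
  rw [norm_mul]
  calc ‖W‖ * ‖cexp (a ^ 2)‖ ≤ (B * Real.exp (K * |a.im|)) *
        (Real.exp 1 * Real.exp (-a.im ^ 2)) := by
        gcongr
        exact exp_sq_le ha
    _ = B * (Real.exp 1 * (Real.exp (K * |a.im|) * Real.exp (-a.im ^ 2))) := by ring
    _ ≤ _ := by
        have := exp_gauss K a.im
        gcongr

lemma Dat.strip (D : Dat K V T S H) {a : ℂ} (h1 : -(9 / 16) ≤ a.re) (h2 : a.re ≤ 9 / 16) :
    ‖(a * S a - H a) * cexp (a ^ 2)‖ * T ^ (1148 / 1000 * a.re + 166 / 10000 : ℝ) ≤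
      V * (Real.exp 1 * Real.exp (K ^ 2 / 4)) := by
  have hT1 : 1 ≤ T := D.T1.le
  have hT0 : 0 < T := by linarith
  have hTc : (T : ℂ) ≠ 0 := by exact_mod_cast hT0.ne'
  have hV := D.V0
  have key : ∀ z : ℂ, ‖(T : ℂ) ^ (1148 / 1000 * z + 166 / 10000)‖ =
      T ^ (1148 / 1000 * z.re + 166 / 10000 : ℝ) := by
    intro z
    rw [norm_cpow_eq_rpow_re_of_pos hT0]
    congr 1
    have e1 : ((166 : ℂ) / 10000) = ((166 / 10000 : ℝ) : ℂ) := by push_cast; rfl
    have e2 : ((1148 : ℂ) / 1000) = ((1148 / 1000 : ℝ) : ℂ) := by push_cast; rfl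
    rw [e1, e2, add_re, ofReal_re, re_ofReal_mul]
  have g : ‖(fun a : ℂ => (a * S a - H a) * cexp (a ^ 2) *
      (T : ℂ) ^ (1148 / 1000 * a + 166 / 10000)) a‖ ≤ V * (Real.exp 1 * Real.exp (K ^ 2 / 4)) := by
    refine PhragmenLindelof.vertical_strip (a := -(9 / 16)) (b := 9 / 16) (z := a)
      (f := fun a : ℂ => (a * S a - H a) * cexp (a ^ 2) *
        (T : ℂ) ^ (1148 / 1000 * a + 166 / 10000))
      ?_ ?_ ?_ ?_ h1 h2
    · apply DifferentiableOn.diffContOnCl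
      have hsub : closure (re ⁻¹' Set.Ioo (-(9 / 16) : ℝ) (9 / 16)) ⊆ {a : ℂ | |a.re| < 5 / 8} := by
        refine (closure_minimal (Set.preimage_mono Set.Ioo_subset_Icc_self)
          (isClosed_Icc.preimage continuous_re)).trans ?_
        intro z hz
        have hz' : -(9 / 16) ≤ z.re ∧ z.re ≤ 9 / 16 := hz
        show |z.re| < 5 / 8
        rw [abs_lt]
        constructor <;> linarith [hz'.1, hz'.2]
      have d1 : DifferentiableOn ℂ (fun a : ℂ => a * S a - H a)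
          (closure (re ⁻¹' Set.Ioo (-(9 / 16) : ℝ) (9 / 16))) :=
        (differentiableOn_id.mul (D.Sd.mono hsub)).sub (D.Hd.mono hsub)
      have d2 : Differentiable ℂ (fun a : ℂ => cexp (a ^ 2)) := by fun_prop
      have d3 : Differentiable ℂ (fun a : ℂ => (T : ℂ) ^ (1148 / 1000 * a + 166 / 10000)) := by
        intro z
        exact DifferentiableAt.const_cpow (by fun_prop) (Or.inl hTc)
      exact (d1.mul d2.differentiableOn).mul d3.differentiableOn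
    · obtain ⟨D₀, hD₀⟩ := D.growth
      refine ⟨0, by positivity, 0, ?_⟩
      apply Asymptotics.IsBigO.of_bound (|D₀| * (Real.exp 1 * Real.exp (8 ^ 2 / 4)) * T)
      rw [eventually_inf_principal]
      refine Filter.Eventually.of_forall fun z hz => ?_
      have hz' : -(9 / 16) < z.re ∧ z.re < 9 / 16 := hz
      have hz8 : |z.re| ≤ 9 / 16 := by
        rw [abs_le]
        constructor <;> linarith [hz'.1, hz'.2]
      simp only [zero_mul, Real.exp_zero, norm_one, mul_one]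
      rw [norm_mul _ ((T : ℂ) ^ (1148 / 1000 * z + 166 / 10000)), key]
      have k0 : ‖z * S z - H z‖ ≤ |D₀| * Real.exp (8 * |z.im|) := by
        refine (hD₀ z hz8).trans ?_
        gcongr
        exact le_abs_self _
      have k1 := mul_gauss hz8 (abs_nonneg D₀) k0
      have k2 : T ^ (1148 / 1000 * z.re + 166 / 10000 : ℝ) ≤ T := by
        nth_rewrite 2 [← Real.rpow_one T]
        exact Real.rpow_le_rpow_of_exponent_le hT1 (by linarith [hz'.2])
      exact mul_le_mul k1 k2 (Real.rpow_nonneg hT0.le _) (by positivity)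
    · intro z hz
      have hz8 : |z.re| ≤ 9 / 16 := by
        rw [hz, abs_neg, abs_of_pos] <;> norm_num
      rw [norm_mul _ ((T : ℂ) ^ (1148 / 1000 * z + 166 / 10000)), key, hz]
      have k0 := D.left z hz
      have k1 := mul_gauss hz8 (B := V * T ^ (6291 / 10000 : ℝ)) (K := K)
        (mul_nonneg hV.le (Real.rpow_nonneg hT0.le _)) (k0.trans (le_of_eq (by ring)))
      calc _ ≤ V * T ^ (6291 / 10000 : ℝ) * (Real.exp 1 * Real.exp (K ^ 2 / 4)) *
            T ^ (1148 / 1000 * -(9 / 16) + 166 / 10000 : ℝ) := by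
            gcongr
        _ = V * (Real.exp 1 * Real.exp (K ^ 2 / 4)) * (T ^ (6291 / 10000 : ℝ) *
            T ^ (1148 / 1000 * -(9 / 16) + 166 / 10000 : ℝ)) := by ring
        _ ≤ V * (Real.exp 1 * Real.exp (K ^ 2 / 4)) * 1 := by
            rw [← Real.rpow_add hT0]
            gcongr
            exact Real.rpow_le_one_of_one_le_of_nonpos hT1 (by norm_num)
        _ = _ := mul_one _
    · intro z hz
      have hz8 : |z.re| ≤ 9 / 16 := by
        rw [hz, abs_of_pos] <;> norm_num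
      rw [norm_mul _ ((T : ℂ) ^ (1148 / 1000 * z + 166 / 10000)), key, hz]
      have k0 := D.right z hz
      have k1 := mul_gauss hz8 (B := V * T ^ (-(6625 / 10000) : ℝ)) (K := K)
        (mul_nonneg hV.le (Real.rpow_nonneg hT0.le _)) (k0.trans (le_of_eq (by ring)))
      calc _ ≤ V * T ^ (-(6625 / 10000) : ℝ) * (Real.exp 1 * Real.exp (K ^ 2 / 4)) *
            T ^ (1148 / 1000 * (9 / 16) + 166 / 10000 : ℝ) := by
            gcongr
        _ = V * (Real.exp 1 * Real.exp (K ^ 2 / 4)) * (T ^ (-(6625 / 10000) : ℝ) *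
            T ^ (1148 / 1000 * (9 / 16) + 166 / 10000 : ℝ)) := by ring
        _ ≤ V * (Real.exp 1 * Real.exp (K ^ 2 / 4)) * 1 := by
            rw [← Real.rpow_add hT0]
            gcongr
            exact Real.rpow_le_one_of_one_le_of_nonpos hT1 (by norm_num)
        _ = _ := mul_one _
  simp only at g
  rwa [norm_mul _ ((T : ℂ) ^ (1148 / 1000 * a + 166 / 10000)), key] at g

lemma Dat.final (D : Dat K V T S H) (hL : 34 ≤ Real.log T)
    (hfin : 1 * Real.log T ≤ T ^ (66 / 10000 : ℝ)) {M : ℂ → ℂ}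
    (hM : ∀ a : ℂ, a ≠ 0 → H a = a * M a) :
    ‖S 0 - Real.circleAverage M 0 (1 / Real.log T)‖ ≤
      V * (Real.exp 4 * Real.exp (K ^ 2 / 4)) * T ^ (-(1 / 100) : ℝ) := by
  have hT1 : 1 ≤ T := D.T1.le
  have hT0 : 0 < T := by linarith
  have hV := D.V0
  have hL0 : 0 < Real.log T := by linarith
  set r : ℝ := 1 / Real.log T with hr
  have hr0 : 0 < r := by positivity
  have hr1 : r ≤ 3 / 100 := by
    rw [hr, div_le_iff₀ hL0]; linarith
  have hTr : T ^ r = Real.exp 1 := by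
    rw [Real.rpow_def_of_pos hT0, hr]
    congr 1
    field_simp
  have hsub : Metric.closedBall (0 : ℂ) r ⊆ {a : ℂ | |a.re| < 5 / 8} := by
    intro z hz
    rw [mem_closedBall_zero_iff] at hz
    show |z.re| < 5 / 8
    have := Complex.abs_re_le_norm z
    linarith
  have hFc : ContinuousOn S (Metric.sphere (0 : ℂ) |r|) := by
    rw [abs_of_pos hr0]
    exact (D.Sd.mono (Metric.sphere_subset_closedBall.trans hsub)).continuousOn
  have hFi : CircleIntegrable S 0 r := hFc.circleIntegrable'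
  have hmean : Real.circleAverage S 0 r = S 0 := by
    apply DiffContOnCl.circleAverage
    rw [abs_of_pos hr0]
    apply DifferentiableOn.diffContOnCl
    exact D.Sd.mono (Metric.closure_ball_subset_closedBall.trans hsub)
  have hsph : ∀ z : ℂ, z ∈ Metric.sphere (0 : ℂ) |r| → z ≠ 0 := by
    intro z hz h0
    rw [h0, abs_of_pos hr0] at hz
    simp at hz
    linarith
  have heq : Set.EqOn M (fun a => H a / a) (Metric.sphere (0 : ℂ) |r|) := by
    intro z hz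
    have hz0 := hsph z hz
    simp only
    rw [hM z hz0]
    field_simp
  have hMi : CircleIntegrable (fun a => H a / a) 0 r := by
    apply ContinuousOn.circleIntegrable'
    refine ContinuousOn.div ?_ continuousOn_id ?_
    · rw [abs_of_pos hr0]
      exact (D.Hd.mono (Metric.sphere_subset_closedBall.trans hsub)).continuousOn
    · intro z hz
      exact hsph z hz
  rw [Real.circleAverage_congr_sphere heq, ← hmean, ← Real.circleAverage_fun_sub hFi hMi]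
  refine norm_circleAverage_le hr0 fun z hz => ?_
  have hz0 : z ≠ 0 := by
    rintro rfl; simp at hz; linarith
  have hzre : |z.re| ≤ r := (Complex.abs_re_le_norm z).trans hz.le
  have hab := abs_le.mp hzre
  have h1 := D.strip (a := z) (by linarith) (by linarith)
  have h2 : Real.exp (-1) ≤ ‖cexp (z ^ 2)‖ := by
    rw [norm_exp_sq]
    apply Real.exp_le_exp.mpr
    have e1 : z.re ^ 2 + z.im ^ 2 = r ^ 2 := by
      rw [← hz, ← Complex.normSq_eq_norm_sq, Complex.normSq_apply]; ring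
    nlinarith [sq_nonneg z.re]
  have h3 : T ^ (166 / 10000 : ℝ) * Real.exp (-2) ≤ T ^ (1148 / 1000 * z.re + 166 / 10000 : ℝ) := by
    rw [Real.rpow_add hT0, mul_comm]
    have : Real.exp (-2) ≤ T ^ (1148 / 1000 * z.re) := by
      calc Real.exp (-2) = T ^ (-(2 * r)) := by
            rw [Real.rpow_neg hT0.le, mul_comm, Real.rpow_mul hT0.le, hTr, ← Real.exp_mul,
              ← Real.exp_neg]
            norm_num
        _ ≤ _ := Real.rpow_le_rpow_of_exponent_le hT1 (by linarith)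
    gcongr
  have h4 : ‖S z - H z / z‖ = Real.log T * ‖z * S z - H z‖ := by
    have : S z - H z / z = (z * S z - H z) / z := by field_simp
    rw [this, norm_div, hz, hr]
    field_simp
  rw [h4]
  have h5 : ‖z * S z - H z‖ * (Real.exp (-1) * (T ^ (166 / 10000 : ℝ) * Real.exp (-2))) ≤
      V * (Real.exp 1 * Real.exp (K ^ 2 / 4)) := by
    refine le_trans ?_ h1
    rw [norm_mul, mul_assoc]
    gcongr
  have h6 : 0 < T ^ (166 / 10000 : ℝ) := Real.rpow_pos_of_pos hT0 _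
  have h7 : ‖z * S z - H z‖ ≤
      V * (Real.exp 4 * Real.exp (K ^ 2 / 4)) * T ^ (-(166 / 10000) : ℝ) := by
    have e3 : Real.exp (-1) * Real.exp (-2) * Real.exp 3 = 1 := by
      rw [← Real.exp_add, ← Real.exp_add]; norm_num
    have e5 : Real.exp 4 = Real.exp 1 * Real.exp 3 := by
      rw [← Real.exp_add]; norm_num
    have e4 : T ^ (166 / 10000 : ℝ) * T ^ (-(166 / 10000) : ℝ) = 1 := by
      rw [← Real.rpow_add hT0]; norm_num
    have h8 : 0 ≤ Real.exp 3 * T ^ (-(166 / 10000) : ℝ) :=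
      mul_nonneg (Real.exp_nonneg _) (Real.rpow_nonneg hT0.le _)
    calc ‖z * S z - H z‖
        = ‖z * S z - H z‖ * (Real.exp (-1) * (T ^ (166 / 10000 : ℝ) * Real.exp (-2))) *
          (Real.exp 3 * T ^ (-(166 / 10000) : ℝ)) := by
          linear_combination (-‖z * S z - H z‖ * (T ^ (166 / 10000 : ℝ) *
            T ^ (-(166 / 10000) : ℝ))) * e3 - ‖z * S z - H z‖ * e4
      _ ≤ V * (Real.exp 1 * Real.exp (K ^ 2 / 4)) * (Real.exp 3 * T ^ (-(166 / 10000) : ℝ)) := by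
          gcongr
      _ = _ := by rw [e5]; ring
  calc Real.log T * ‖z * S z - H z‖
      ≤ Real.log T * (V * (Real.exp 4 * Real.exp (K ^ 2 / 4)) * T ^ (-(166 / 10000) : ℝ)) := by
        gcongr
    _ = V * (Real.exp 4 * Real.exp (K ^ 2 / 4)) * ((1 * Real.log T) *
        T ^ (-(166 / 10000) : ℝ)) := by ring
    _ ≤ V * (Real.exp 4 * Real.exp (K ^ 2 / 4)) * (T ^ (66 / 10000 : ℝ) *
        T ^ (-(166 / 10000) : ℝ)) := by
        gcongr
    _ = _ := by
        rw [← Real.rpow_add hT0]; norm_num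

lemma norm_HP_le (N : ℕ) (b : ℕ → ℂ) (t : ℝ) :
    ‖HP N b t‖ ≤ ∑ n ∈ Finset.Icc 1 N, ‖b n‖ * (n : ℝ) ^ (-(1 / 2) : ℝ) := by
  unfold HP
  refine (norm_sum_le _ _).trans (Finset.sum_le_sum fun n hn => ?_)
  rw [Finset.mem_Icc] at hn
  rw [norm_mul, norm_fs _ (by omega)]
  apply le_of_eq
  congr 2
  simp

/-- `(1/2 - a)^2` and `a` against exponentials -/
lemma fac_le (a : ℂ) {X : ℝ} (hX : 1 ≤ X) :
    ‖a‖ ≤ Real.exp ‖a‖ ∧ ‖(1 / 2 - a) ^ 2 * ((X : ℂ) ^ 2)⁻¹‖ ≤ Real.exp (2 * ‖a‖) := by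
  constructor
  · have := Real.add_one_le_exp ‖a‖; linarith
  · have h4 : ‖(1 / 2 - a : ℂ)‖ ≤ Real.exp ‖a‖ := by
      calc ‖(1 / 2 - a : ℂ)‖ ≤ ‖(1 / 2 : ℂ)‖ + ‖a‖ := norm_sub_le _ _
        _ ≤ 1 + ‖a‖ := by
            have : ‖(1 / 2 : ℂ)‖ = 1 / 2 := by norm_num
            rw [this]; gcongr; norm_num
        _ ≤ _ := one_add_le_exp _
    have h5 : ‖((X : ℂ) ^ 2)⁻¹‖ ≤ 1 := by
      rw [norm_inv, norm_pow, Complex.norm_real, Real.norm_eq_abs, abs_of_pos (by linarith)]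
      exact inv_le_one_of_one_le₀ (one_le_pow₀ hX)
    rw [norm_mul, norm_pow]
    calc ‖(1 / 2 - a : ℂ)‖ ^ 2 * ‖((X : ℂ) ^ 2)⁻¹‖ ≤ Real.exp ‖a‖ ^ 2 * 1 := by gcongr
      _ = _ := by rw [mul_one, ← Real.exp_nat_mul]; norm_num

/-- combine the bounds for `c = 12` and `c = 10` -/
lemma combine {X : ℝ} (hX : 1 ≤ X) (N : ℕ) (b : ℕ → ℂ) {a : ℂ} (ha0 : a ≠ 0)
    (hJ : Js X 12 N b a = Jt X 12 N b a + (1 / 2 - a) ^ 2 * ((X : ℂ) ^ 2)⁻¹ * Jt X (12 - 2) N b a)
    {B : ℝ} (hB : 0 ≤ B)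
    (h12 : ‖Jt X 12 N b a - Mt X 12 N b a‖ ≤ B) (h10 : ‖Jt X 10 N b a - Mt X 10 N b a‖ ≤ B) :
    ‖a * Js X 12 N b a - HS X N b a‖ ≤ 2 * Real.exp (3 * ‖a‖) * B := by
  obtain ⟨f1, f2⟩ := fac_le a hX
  have e10 : (12 : ℂ) - 2 = 10 := by norm_num
  rw [HS_eq X N b ha0, hJ, Ms, e10]
  have e : a * (Jt X 12 N b a + (1 / 2 - a) ^ 2 * ((X : ℂ) ^ 2)⁻¹ * Jt X 10 N b a) -
      a * (Mt X 12 N b a + (1 / 2 - a) ^ 2 * ((X : ℂ) ^ 2)⁻¹ * Mt X 10 N b a) =
      a * ((Jt X 12 N b a - Mt X 12 N b a) + (1 / 2 - a) ^ 2 * ((X : ℂ) ^ 2)⁻¹ *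
        (Jt X 10 N b a - Mt X 10 N b a)) := by ring
  rw [e, norm_mul]
  have hn : 0 ≤ ‖a‖ := norm_nonneg a
  have g1 : (1 : ℝ) ≤ Real.exp (2 * ‖a‖) := Real.one_le_exp (by positivity)
  calc ‖a‖ * ‖(Jt X 12 N b a - Mt X 12 N b a) + (1 / 2 - a) ^ 2 * ((X : ℂ) ^ 2)⁻¹ *
        (Jt X 10 N b a - Mt X 10 N b a)‖
      ≤ Real.exp ‖a‖ * (B + Real.exp (2 * ‖a‖) * B) := by
        gcongr
        refine (norm_add_le _ _).trans (add_le_add h12 ?_)
        rw [norm_mul]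
        gcongr
    _ ≤ Real.exp ‖a‖ * (Real.exp (2 * ‖a‖) * B + Real.exp (2 * ‖a‖) * B) := by
        gcongr
        nlinarith
    _ = 2 * (Real.exp ‖a‖ * Real.exp (2 * ‖a‖)) * B := by ring
    _ = _ := by rw [← Real.exp_add]; ring_nf

end Three

open Three ThreeLines in
/-- (Z7) three lines. The growth of the zeta function in a wider strip (`StGrow`) is used, too. -/
theorem stThree (h3 : StRight4) (h4 : StLeft4) (h5 : StGrow) (h6 : StStrip4) (h2 : StCo) :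
    StThree := by
  obtain ⟨C₃, hC₃, T₃, hT₃, h3⟩ := h3
  obtain ⟨C₄, hC₄, h4⟩ := h4
  obtain ⟨Cg, hCg, hg⟩ := h5
  obtain ⟨h6a, h6b, h6c⟩ := h6
  obtain ⟨T₂, hT₂, h2⟩ := h2
  set C : ℝ := C₃ + C₄ with hCdef
  have hC0 : 0 < C := by positivity
  have hC3 : C₃ ≤ C := by linarith
  have hC4 : C₄ ≤ C := by linarith
  set K : ℝ := 3 * C + 3 with hK
  set V₀ : ℝ := 4 * Real.exp (15 * C + 3) with hV₀
  obtain ⟨T₁, hT₁⟩ := eventually_atTop.mp
    ((ev_log 1 (e := 66 / 10000) (by norm_num)).and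
    (Real.tendsto_log_atTop.eventually_ge_atTop 34))
  refine ⟨V₀ * (Real.exp 4 * Real.exp (K ^ 2 / 4)), by positivity,
    max (max T₂ T₃) (max T₁ 3), le_max_of_le_right (le_max_right _ _),
    fun T hT X hX1 hX2 ν b hb => ?_⟩
  have hTT2 : T₂ ≤ T := (le_max_left _ _).trans ((le_max_left _ _).trans hT)
  have hTT3 : T₃ ≤ T := (le_max_right _ _).trans ((le_max_left _ _).trans hT)
  have hTT1 : T₁ ≤ T := (le_max_left _ _).trans ((le_max_right _ _).trans hT)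
  have hT3 : 3 ≤ T := (le_max_right _ _).trans ((le_max_right _ _).trans hT)
  obtain ⟨e3, e4⟩ := hT₁ T hTT1
  have hT0 : 0 < T := by linarith
  have hT1 : 1 ≤ T := by linarith
  have hpi := Real.pi_pos
  have hpi3 := Real.pi_gt_three
  have hXone : 1 ≤ X := (Real.one_le_rpow hT1 (by norm_num)).trans hX1
  have hX0 : 0 < X := by linarith
  have hν : 0 ≤ |ν| := abs_nonneg _
  set N : ℕ := Nh T with hN
  set c : ℕ → ℂ := cH T ν b with hc
  obtain ⟨-, -, hHP, -, -, -⟩ := h2 T hTT2 ν b hb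
  have hHPb : ∀ t : ℝ, ‖HP N c t‖ ≤ T ^ (252 / 1000 : ℝ) := fun t =>
    (norm_HP_le N c t).trans hHP
  set Y : ℝ := X / (2 * Real.pi) with hY
  have hY0 : 0 < Y := by positivity
  have hYX : Y ≤ X := by
    rw [hY, div_le_iff₀ (by positivity)]
    nlinarith
  -- the right edge for one value of `c`
  have hR : ∀ a s : ℂ, a.re = 9 / 16 → 8 ≤ s.re → s.re ≤ 16 → ‖s‖ ≤ 12 + 2 * ‖a‖ →
      ‖Jt X s N c a - Mt X s N c a‖ ≤
        Real.exp (C * (3 * ‖a‖ + 12)) * (1 + |ν|) * T ^ (-(6625 / 10000) : ℝ) := by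
    intro a s ha hs1 hs2 hs3
    refine (h3 T hTT3 X hX1 hX2 a s ha hs1 hs2 ν b hb).trans ?_
    have hn : 0 ≤ ‖a‖ := norm_nonneg a
    have hns : 0 ≤ ‖s‖ := norm_nonneg s
    have : C₃ * (‖a‖ + ‖s‖) ≤ C * (3 * ‖a‖ + 12) := by
      apply mul_le_mul hC3 (by linarith) (by positivity) hC0.le
    gcongr
  -- the left edge for one value of `c`
  have hL : ∀ a s : ℂ, a.re = 9 / 16 → 10 ≤ s.re → s.re ≤ 12 → ‖s‖ ≤ 12 →
      ‖Jt X s N c (-a) - Mt X s N c (-a)‖ ≤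
        2 * Real.exp (C * (3 * ‖a‖ + 12)) * (1 + |ν|) * T ^ (6291 / 10000 : ℝ) := by
    intro a s ha hs1 hs2 hs3
    have hn : 0 ≤ ‖a‖ := norm_nonneg a
    have hns : 0 ≤ ‖s‖ := norm_nonneg s
    have g1 := h4 X hXone a s ha (by linarith) (by linarith) N c _ hHPb
    have g2 := hR a (s + 2 * a) ha (by simp [ha]; linarith) (by simp [ha]; linarith) (by
      refine (norm_add_le _ _).trans ?_
      have : ‖2 * a‖ = 2 * ‖a‖ := by simp
      rw [this]; linarith)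
    have e : Jt X s N c (-a) - Mt X s N c (-a) =
        (Jt X s N c (-a) - (Y : ℂ) ^ (2 * a) * Jt X (s + 2 * a) N c a) +
        (Y : ℂ) ^ (2 * a) * (Jt X (s + 2 * a) N c a - Mt X (s + 2 * a) N c a) := by
      rw [Mt_neg hX0]
      ring
    have g3 : ‖(Y : ℂ) ^ (2 * a)‖ ≤ T ^ (11252 / 10000 : ℝ) := by
      rw [norm_cpow_eq_rpow_re_of_pos hY0]
      have e1 : (2 * a).re = 9 / 8 := by simp [ha]; norm_num
      rw [e1]
      calc Y ^ (9 / 8 : ℝ) ≤ X ^ (9 / 8 : ℝ) := Real.rpow_le_rpow hY0.le hYX (by norm_num)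
        _ ≤ (T ^ (1 + 1 / 10000 : ℝ)) ^ (9 / 8 : ℝ) := Real.rpow_le_rpow hX0.le hX2 (by norm_num)
        _ = T ^ ((1 + 1 / 10000) * (9 / 8) : ℝ) := by rw [← Real.rpow_mul hT0.le]
        _ ≤ _ := Real.rpow_le_rpow_of_exponent_le hT1 (by norm_num)
    have g4 : (T ^ (252 / 1000 : ℝ)) ^ 2 * X ^ (1 / 8 : ℝ) ≤ T ^ (6291 / 10000 : ℝ) := by
      calc (T ^ (252 / 1000 : ℝ)) ^ 2 * X ^ (1 / 8 : ℝ)
          ≤ (T ^ (252 / 1000 : ℝ)) ^ 2 * (T ^ (1 + 1 / 10000 : ℝ)) ^ (1 / 8 : ℝ) := by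
            gcongr
        _ = T ^ (252 / 1000 * 2 + (1 + 1 / 10000) * (1 / 8) : ℝ) := by
            rw [← Real.rpow_natCast, ← Real.rpow_mul hT0.le, ← Real.rpow_mul hT0.le,
              ← Real.rpow_add hT0]
            norm_num
        _ ≤ _ := Real.rpow_le_rpow_of_exponent_le hT1 (by norm_num)
    have g5 : Real.exp (C₄ * (‖a‖ + ‖s‖)) ≤ Real.exp (C * (3 * ‖a‖ + 12)) := by
      apply Real.exp_le_exp.mpr
      exact mul_le_mul hC4 (by linarith) (by positivity) hC0.le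
    have g6 : T ^ (11252 / 10000 : ℝ) * T ^ (-(6625 / 10000) : ℝ) ≤ T ^ (6291 / 10000 : ℝ) := by
      rw [← Real.rpow_add hT0]
      exact Real.rpow_le_rpow_of_exponent_le hT1 (by norm_num)
    have hE : 0 < Real.exp (C * (3 * ‖a‖ + 12)) := Real.exp_pos _
    have hP : 0 < T ^ (6291 / 10000 : ℝ) := Real.rpow_pos_of_pos hT0 _
    rw [e]
    calc _ ≤ Real.exp (C * (3 * ‖a‖ + 12)) * T ^ (6291 / 10000 : ℝ) +
          T ^ (11252 / 10000 : ℝ) * (Real.exp (C * (3 * ‖a‖ + 12)) * (1 + |ν|) *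
            T ^ (-(6625 / 10000) : ℝ)) := by
          refine (norm_add_le _ _).trans (add_le_add ?_ ?_)
          · refine g1.trans ?_
            rw [mul_assoc]
            gcongr
          · rw [norm_mul]
            gcongr
      _ = Real.exp (C * (3 * ‖a‖ + 12)) * T ^ (6291 / 10000 : ℝ) +
          Real.exp (C * (3 * ‖a‖ + 12)) * (1 + |ν|) * (T ^ (11252 / 10000 : ℝ) *
            T ^ (-(6625 / 10000) : ℝ)) := by ring
      _ ≤ Real.exp (C * (3 * ‖a‖ + 12)) * T ^ (6291 / 10000 : ℝ) +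
          Real.exp (C * (3 * ‖a‖ + 12)) * (1 + |ν|) * T ^ (6291 / 10000 : ℝ) := by gcongr
      _ ≤ Real.exp (C * (3 * ‖a‖ + 12)) * (1 + |ν|) * T ^ (6291 / 10000 : ℝ) +
          Real.exp (C * (3 * ‖a‖ + 12)) * (1 + |ν|) * T ^ (6291 / 10000 : ℝ) := by
          gcongr
          nlinarith
      _ = _ := by ring
  -- the exponentials
  have hexp : ∀ a : ℂ, |a.re| ≤ 9 / 16 →
      Real.exp (3 * ‖a‖) * Real.exp (C * (3 * ‖a‖ + 12)) ≤
        Real.exp (15 * C + 3) * Real.exp (K * |a.im|) := by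
    intro a ha
    rw [← Real.exp_add, ← Real.exp_add]
    apply Real.exp_le_exp.mpr
    have h1 := norm_le_im ha
    have h2 : (3 + 3 * C) * ‖a‖ ≤ (3 + 3 * C) * (1 + |a.im|) :=
      mul_le_mul_of_nonneg_left h1 (by positivity)
    rw [hK]
    linarith
  have n12 : ‖(12 : ℂ)‖ = 12 := by norm_num
  have n10 : ‖(10 : ℂ)‖ = 10 := by norm_num
  have D : Dat K (V₀ * (1 + |ν|)) T (Js X 12 N c) (HS X N c) := by
    refine ⟨by positivity, by positivity, by linarith, h6a X hXone 12 (by norm_num) N c,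
      HS_diff hX0 N c, ?_, ?_, ?_⟩
    · obtain ⟨D₁, hD₁⟩ := h6b X hXone 12 (by norm_num) N c
      obtain ⟨D₂, hD₂0, hD₂⟩ := HS_growth hg hCg hXone N c
      refine ⟨|D₁| * Real.exp 2 + D₂, fun a ha => ?_⟩
      have k1 := hD₁ a ha
      have k2 := hD₂ a ha
      have k3 := norm_le_im ha
      have him : 0 ≤ |a.im| := abs_nonneg _
      have k4 := (fac_le a hXone).1
      calc ‖a * Js X 12 N c a - HS X N c a‖ ≤ ‖a‖ * ‖Js X 12 N c a‖ + ‖HS X N c a‖ := by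
            rw [← norm_mul]; exact norm_sub_le _ _
        _ ≤ Real.exp ‖a‖ * (|D₁| * Real.exp ‖a‖) + D₂ * Real.exp (8 * |a.im|) := by
            gcongr
            exact k1.trans (by gcongr; exact le_abs_self _)
        _ = |D₁| * Real.exp (2 * ‖a‖) + D₂ * Real.exp (8 * |a.im|) := by
            have : Real.exp (2 * ‖a‖) = Real.exp ‖a‖ * Real.exp ‖a‖ := by
              rw [← Real.exp_add]; ring_nf
            rw [this]; ring
        _ ≤ |D₁| * Real.exp (2 + 8 * |a.im|) + D₂ * Real.exp (8 * |a.im|) := by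
            gcongr
            linarith
        _ = _ := by rw [Real.exp_add]; ring
    · intro a ha
      have ha8 : |a.re| ≤ 9 / 16 := by rw [ha, abs_of_pos] <;> norm_num
      have ha0 : a ≠ 0 := by rintro rfl; norm_num at ha
      have k := combine hXone N c ha0 (h6c X hXone 12 (by norm_num) N c a ha8
        (by rw [ha]; norm_num) (by rw [ha]; norm_num))
        (B := Real.exp (C * (3 * ‖a‖ + 12)) * (1 + |ν|) * T ^ (-(6625 / 10000) : ℝ))
        (by positivity)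
        (hR a 12 ha (by norm_num) (by norm_num) (by rw [n12]; linarith [norm_nonneg a]))
        (hR a 10 ha (by norm_num) (by norm_num) (by rw [n10]; linarith [norm_nonneg a]))
      refine k.trans ?_
      calc 2 * Real.exp (3 * ‖a‖) * (Real.exp (C * (3 * ‖a‖ + 12)) * (1 + |ν|) *
            T ^ (-(6625 / 10000) : ℝ))
          = 2 * (Real.exp (3 * ‖a‖) * Real.exp (C * (3 * ‖a‖ + 12))) * (1 + |ν|) *
            T ^ (-(6625 / 10000) : ℝ) := by ring
        _ ≤ 4 * (Real.exp (15 * C + 3) * Real.exp (K * |a.im|)) * (1 + |ν|) *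
            T ^ (-(6625 / 10000) : ℝ) := by
            have := hexp a ha8
            gcongr
            norm_num
        _ = _ := by rw [hV₀]; ring
    · intro z hz
      have hz8 : |z.re| ≤ 9 / 16 := by rw [hz, abs_neg, abs_of_pos] <;> norm_num
      have hz0 : z ≠ 0 := by rintro rfl; norm_num at hz
      have ha : (-z).re = 9 / 16 := by simp [hz]
      have k12 := hL (-z) 12 ha (by norm_num) (by norm_num) (by rw [n12])
      have k10 := hL (-z) 10 ha (by norm_num) (by norm_num) (by rw [n10]; norm_num)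
      rw [neg_neg, norm_neg] at k12 k10
      have k := combine hXone N c hz0 (h6c X hXone 12 (by norm_num) N c z hz8
        (by rw [hz]; norm_num) (by rw [hz]; norm_num)) (by positivity) k12 k10
      refine k.trans ?_
      calc 2 * Real.exp (3 * ‖z‖) * (2 * Real.exp (C * (3 * ‖z‖ + 12)) * (1 + |ν|) *
            T ^ (6291 / 10000 : ℝ))
          = 4 * (Real.exp (3 * ‖z‖) * Real.exp (C * (3 * ‖z‖ + 12))) * (1 + |ν|) *
            T ^ (6291 / 10000 : ℝ) := by ring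
        _ ≤ 4 * (Real.exp (15 * C + 3) * Real.exp (K * |z.im|)) * (1 + |ν|) *
            T ^ (6291 / 10000 : ℝ) := by
            have := hexp z hz8
            gcongr
        _ = _ := by rw [hV₀]; ring
  have hfin := D.final e4 e3 (M := Ms X 12 N c) fun a ha => HS_eq X N c ha
  refine hfin.trans (le_of_eq ?_)
  ring

end F4
end Pool.Agent.Lib.MP_973905_nt
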