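import Pool.Agent.Lib.MP_973905_nt.F4.Stmts
import Pool.Agent.Lib.MP_973905_nt.K1.Second

namespace Pool.Agent.Lib.MP_973905_nt
namespace F4

open MeasureTheory ProbabilityTheory Complex Filter Topology K1

namespace Twist

open ThreeLines

/-- the real integrand -/
noncomputable def gi (X : ℝ) (m N : ℕ) (b : ℕ → ℂ) (t : ℝ) : ℝ :=
  ‖riemannZeta (1 / 2 + t * I)‖ ^ 2 * ‖HP N b t‖ ^ 2 *
    (X⁻¹ * (t / X) ^ m * Real.exp (-(t / X)))

lemma HP_cont (N : ℕ) (b : ℕ → ℂ) : Continuous (fun t : ℝ => HP N b t) := by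
  unfold HP
  refine continuous_finsetSum _ fun n hn => ?_
  rw [Finset.mem_Icc] at hn
  have hn0 : (n : ℂ) ≠ 0 := by exact_mod_cast (by omega : n ≠ 0)
  apply Continuous.mul continuous_const
  unfold fs
  apply Continuous.const_cpow (by fun_prop) (Or.inl hn0)

lemma HP_bd (N : ℕ) (b : ℕ → ℂ) (t : ℝ) : ‖HP N b t‖ ≤ ∑ n ∈ Finset.Icc 1 N, ‖b n‖ := by
  unfold HP
  refine (norm_sum_le _ _).trans (Finset.sum_le_sum fun n hn => ?_)
  rw [Finset.mem_Icc] at hn
  rw [norm_mul]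
  apply mul_le_of_le_one_right (norm_nonneg _)
  rw [norm_fs _ (by omega)]
  apply Real.rpow_le_one_of_one_le_of_nonpos (by exact_mod_cast hn.1)
  simp

lemma half_ne_one (t : ℝ) : (1 / 2 + t * I : ℂ) ≠ 1 := by
  intro h
  have := congrArg Complex.re h
  norm_num at this

lemma zeta_cont : Continuous (fun t : ℝ => riemannZeta (1 / 2 + t * I)) := by
  rw [continuous_iff_continuousAt]
  intro t
  have h := (differentiableAt_riemannZeta (half_ne_one t)).continuousAt
  exact ContinuousAt.comp (f := fun t : ℝ => (1 / 2 + t * I : ℂ)) h (by fun_prop)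

lemma zeta_bd : ∃ C : ℝ, 0 < C ∧ ∀ t : ℝ, ‖riemannZeta (1 / 2 + t * I)‖ ≤ C * (1 + |t|) ^ 2 := by
  obtain ⟨C, hC, h⟩ := zeta_growth
  refine ⟨2 * C, by positivity, fun t => ?_⟩
  have h1 := h (1 / 2 + t * I) (by norm_num) (by norm_num)
  have e1 : (1 / 2 + t * I : ℂ).im = t := by simp
  rw [e1] at h1
  rw [riemannZeta_eq_inv_sub_mul (half_ne_one t), norm_mul, norm_inv]
  have h2 : 1 / 2 ≤ ‖(1 / 2 + t * I - 1 : ℂ)‖ := by
    have := Complex.abs_re_le_norm (1 / 2 + t * I - 1 : ℂ)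
    have e2 : (1 / 2 + t * I - 1 : ℂ).re = -(1 / 2) := by norm_num
    rw [e2, abs_neg, abs_of_pos (by norm_num)] at this
    exact this
  have h3 : ‖(1 / 2 + t * I - 1 : ℂ)‖⁻¹ ≤ 2 := by
    rw [inv_le_comm₀ (by linarith) (by norm_num)]
    linarith
  calc ‖(1 / 2 + t * I - 1 : ℂ)‖⁻¹ * ‖riemannZeta₁ (1 / 2 + t * I)‖
      ≤ 2 * (C * (1 + |t|) ^ 2) := by gcongr
    _ = _ := by ring

lemma gi_int {X : ℝ} (hX : 1 ≤ X) (m N : ℕ) (b : ℕ → ℂ) :
    IntegrableOn (gi X m N b) (Set.Ioi 0) := by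
  have hX0 : 0 < X := by linarith
  obtain ⟨C, hC, hz⟩ := zeta_bd
  set B : ℝ := ∑ n ∈ Finset.Icc 1 N, ‖b n‖ with hB
  have hB0 : 0 ≤ B := Finset.sum_nonneg fun _ _ => norm_nonneg _
  apply integrable_of_isBigO_exp_neg (b := 1 / (2 * X)) (by positivity)
  · apply Continuous.continuousOn
    unfold gi
    have h1 := zeta_cont
    have h2 := HP_cont N b
    have h3 : Continuous fun t : ℝ => X⁻¹ * (t / X) ^ m * Real.exp (-(t / X)) := by fun_prop
    exact ((h1.norm.pow 2).mul (h2.norm.pow 2)).mul h3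
  · have ho := (isLittleO_pow_exp_pos_mul_atTop (k := m + 4) (b := 1 / (2 * X))
      (by positivity)).def (c := 1) one_pos
    apply Asymptotics.IsBigO.of_bound (C ^ 2 * 16 * B ^ 2 * X⁻¹)
    filter_upwards [ho, eventually_ge_atTop 1] with t ht ht1
    have ht0 : 0 < t := by linarith
    rw [Real.norm_of_nonneg (by positivity), Real.norm_of_nonneg (by positivity), one_mul] at ht
    rw [Real.norm_of_nonneg (by unfold gi; positivity), Real.norm_of_nonneg (Real.exp_nonneg _)]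
    have h1 := hz t
    rw [abs_of_pos ht0] at h1
    have h2 := HP_bd N b t
    have h3 : (1 + t) ^ 2 ≤ 4 * t ^ 2 := by nlinarith
    have h4 : (t / X) ^ m ≤ t ^ m := by
      gcongr
      exact div_le_self ht0.le hX
    have h6 : Real.exp (-(t / X)) = Real.exp (-(1 / (2 * X) * t)) * Real.exp (-(1 / (2 * X)) * t) := by
      rw [← Real.exp_add]
      congr 1
      field_simp
      ring
    have h7 : t ^ (m + 4) * Real.exp (-(1 / (2 * X) * t)) ≤ 1 := by
      rw [Real.exp_neg]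
      rw [← div_eq_mul_inv, div_le_one (Real.exp_pos _)]
      exact ht
    calc gi X m N b t ≤ (C * (4 * t ^ 2)) ^ 2 * B ^ 2 * (X⁻¹ * t ^ m * Real.exp (-(t / X))) := by
          unfold gi
          gcongr
          exact h1.trans (by gcongr)
      _ = C ^ 2 * 16 * B ^ 2 * X⁻¹ * (t ^ (m + 4) * Real.exp (-(1 / (2 * X) * t))) *
          Real.exp (-(1 / (2 * X)) * t) := by rw [h6]; ring
      _ ≤ C ^ 2 * 16 * B ^ 2 * X⁻¹ * 1 * Real.exp (-(1 / (2 * X)) * t) := by gcongr
      _ = _ := by ring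

/-- the shifted second moment at shift zero is real and nonnegative -/
lemma Jt_zero (X : ℝ) (m N : ℕ) (b : ℕ → ℂ) :
    Jt X (m + 1 : ℕ) N b 0 = ((∫ t in Set.Ioi (0 : ℝ), gi X m N b t : ℝ) : ℂ) := by
  rw [Jt, ← integral_complex_ofReal]
  apply setIntegral_congr_fun measurableSet_Ioi
  intro t ht
  have ht0 : 0 < t := ht
  have e1 : (1 / 2 + 0 + t * I : ℂ) = 1 / 2 + t * I := by ring
  have e2 : (1 / 2 + 0 - t * I : ℂ) = (starRingEnd ℂ) (1 / 2 + t * I) := by
    rw [map_add, map_mul, conj_I, conj_ofReal]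
    have : (starRingEnd ℂ) (1 / 2 : ℂ) = 1 / 2 := by
      have := Complex.conj_ofReal (1 / 2)
      push_cast at this
      exact this
    rw [this]; ring
  simp only
  rw [e1, e2, riemannZeta_conj, mul_conj, mul_conj, Complex.normSq_eq_norm_sq,
    Complex.normSq_eq_norm_sq, Wt, gi]
  have e3 : (((m + 1 : ℕ) : ℂ) - 1) = (m : ℂ) := by push_cast; ring
  rw [e3, cpow_natCast]
  push_cast
  rfl

lemma Gamma_bdd {c : ℂ} (hc : 10 ≤ c.re) : ∃ D : ℝ, 0 < D ∧ ∀ a : ℂ, |a.re| ≤ 9 / 16 →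
    ‖Gamma (c - 2 * a)‖ ≤ D := by
  have hcont : ContinuousOn Real.Gamma (Set.Icc (c.re - 9 / 8) (c.re + 9 / 8)) := by
    intro x hx
    apply ContinuousAt.continuousWithinAt
    apply DifferentiableAt.continuousAt (𝕜 := ℝ)
    apply Real.differentiableAt_Gamma
    intro m hm
    have : (0 : ℝ) ≤ m := Nat.cast_nonneg m
    have := hx.1
    linarith
  obtain ⟨D, hD⟩ := isCompact_Icc.exists_bound_of_continuousOn hcont
  refine ⟨|D| + 1, by positivity, fun a ha => ?_⟩
  have hab := abs_le.mp ha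
  have e : (c - 2 * a).re = c.re - 2 * a.re := by simp
  have h1 : 0 < (c - 2 * a).re := by rw [e]; linarith
  refine (norm_Gamma_le h1).trans ?_
  have h2 := hD (c - 2 * a).re ⟨by rw [e]; linarith, by rw [e]; linarith⟩
  rw [Real.norm_eq_abs] at h2
  linarith [le_abs_self (Real.Gamma (c - 2 * a).re), le_abs_self D]

/-- the zeta function on the small circle -/
lemma zeta_circle : ∃ C L₀ : ℝ, 0 < C ∧ 4 ≤ L₀ ∧ ∀ L : ℝ, L₀ ≤ L → ∀ a : ℂ, ‖a‖ = 1 / L →
    ‖riemannZeta (1 + 2 * a)‖ ≤ C * L ∧ ‖riemannZeta (1 - 2 * a)‖ ≤ C * L := by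
  obtain ⟨C, δ, hC, hδ, h⟩ := K1.Second.zeta_pole
  refine ⟨C + 1, max 4 (3 / δ), by positivity, le_max_left _ _, fun L hL => ?_⟩
  have hL4 : 4 ≤ L := (le_max_left _ _).trans hL
  have hLδ : 3 / δ ≤ L := (le_max_right _ _).trans hL
  have hL0 : 0 < L := by linarith
  have key : ∀ a : ℂ, ‖a‖ = 1 / L → ‖riemannZeta (1 + 2 * a)‖ ≤ (C + 1) * L := by
    intro a ha
    have ha0 : a ≠ 0 := by
      intro h0; rw [h0, norm_zero] at ha
      have : 0 < 1 / L := by positivity
      linarith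
    have h2 : ‖2 * a‖ = 2 / L := by
      rw [norm_mul, ha]; simp; ring
    have h3 : ‖2 * a‖ < δ := by
      rw [h2, div_lt_iff₀ hL0]
      rw [div_le_iff₀ hδ] at hLδ
      linarith
    have h4 := h (2 * a) (by simpa using ha0) h3
    calc ‖riemannZeta (1 + 2 * a)‖ = ‖(riemannZeta (1 + 2 * a) - 1 / (2 * a)) + 1 / (2 * a)‖ := by
          ring_nf
      _ ≤ C + L / 2 := by
          refine (norm_add_le _ _).trans ?_
          rw [norm_div, h2]
          simp only [norm_one]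
          have : 1 / (2 / L) = L / 2 := by field_simp
          rw [this]
          gcongr
      _ ≤ C * L + 1 * L := by nlinarith
      _ = _ := by ring
  intro a ha
  refine ⟨key a ha, ?_⟩
  have := key (-a) (by simpa using ha)
  have e : (1 + 2 * -a : ℂ) = 1 - 2 * a := by ring
  rwa [e] at this

end Twist

open Twist ThreeLines in
/-- (Z8) upper bound for the twisted second moment -/
theorem stTwist (h7 : StThree) (h6 : StStrip4) (_h2 : StCo) : StTwist := by
  obtain ⟨C₇, hC₇, T₇, hT₇, h7⟩ := h7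
  obtain ⟨-, -, h6c⟩ := h6
  obtain ⟨Cz, L₀, hCz, hL₀, hz⟩ := zeta_circle
  obtain ⟨G₁, hG₁, hG1⟩ := Gamma_bdd (c := 12) (by norm_num)
  obtain ⟨G₂, hG₂, hG2⟩ := Gamma_bdd (c := 10) (by norm_num)
  set G : ℝ := G₁ + G₂ with hG
  set E : ℝ := Real.exp 3 with hE
  have hE0 : 0 < E := Real.exp_pos _
  set V : ℝ := 2 * (G * Cz + E * (G * Cz)) with hV
  have hV0 : 0 < V := by positivity
  obtain ⟨T₁, hT₁⟩ := eventually_atTop.mp
    ((ev_log (2 * Real.pi) (e := 1 / 2) (by norm_num)).and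
    (Real.tendsto_log_atTop.eventually_ge_atTop (max L₀ 34)))
  refine ⟨max V C₇, lt_max_of_lt_left hV0, max (max T₇ T₁) 3, le_max_right _ _,
    fun T hT X hX1 hX2 ν b hb B hB => ?_⟩
  have hTT7 : T₇ ≤ T := (le_max_left _ _).trans ((le_max_left _ _).trans hT)
  have hTT1 : T₁ ≤ T := (le_max_right _ _).trans ((le_max_left _ _).trans hT)
  have hT3 : 3 ≤ T := (le_max_right _ _).trans hT
  obtain ⟨e3, e4⟩ := hT₁ T hTT1
  have hLL0 : L₀ ≤ Real.log T := (le_max_left _ _).trans e4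
  have hL34 : 34 ≤ Real.log T := (le_max_right _ _).trans e4
  have hT0 : 0 < T := by linarith
  have hT1 : 1 ≤ T := by linarith
  have hL0 : 0 < Real.log T := by linarith
  have hpi := Real.pi_pos
  have hXone : 1 ≤ X := (Real.one_le_rpow hT1 (by norm_num)).trans hX1
  have hX0 : 0 < X := by linarith
  set N : ℕ := Nh T with hN
  set c : ℕ → ℂ := cH T ν b with hc
  have i12 := gi_int hXone 11 N c
  have i10 := gi_int hXone 9 N c
  refine ⟨i12, ?_⟩
  -- the value at zero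
  have j12 := Jt_zero X 11 N c
  have j10 := Jt_zero X 9 N c
  have e12 : (((11 + 1 : ℕ) : ℕ) : ℂ) = 12 := by norm_num
  have e10 : (((9 + 1 : ℕ) : ℕ) : ℂ) = 12 - 2 := by norm_num
  rw [e12] at j12
  rw [e10] at j10
  have hJs := h6c X hXone 12 (by norm_num) N c 0 (by norm_num) (by norm_num) (by norm_num)
  set P : ℝ := ∫ t in Set.Ioi (0 : ℝ), gi X 11 N c t with hP
  set Q : ℝ := ∫ t in Set.Ioi (0 : ℝ), gi X 9 N c t with hQ
  have hgi0 : ∀ m : ℕ, ∀ t : ℝ, t ∈ Set.Ioi (0 : ℝ) → 0 ≤ gi X m N c t := by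
    intro m t ht
    have ht0 : 0 < t := ht
    unfold gi
    positivity
  have hP0 : 0 ≤ P := setIntegral_nonneg measurableSet_Ioi (hgi0 11)
  have hQ0 : 0 ≤ Q := setIntegral_nonneg measurableSet_Ioi (hgi0 9)
  have hval : Js X 12 N c 0 = ((P + 1 / 4 * (X ^ 2)⁻¹ * Q : ℝ) : ℂ) := by
    rw [hJs, j12, j10]
    push_cast
    ring
  have hPle : P ≤ ‖Js X 12 N c 0‖ := by
    rw [hval, Complex.norm_real, Real.norm_of_nonneg (by positivity)]
    have : 0 ≤ 1 / 4 * (X ^ 2)⁻¹ * Q := by positivity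
    linarith
  have hthree := h7 T hTT7 X hX1 hX2 ν b hb
  -- B is nonnegative
  have hBnn : 0 ≤ B := by
    have := hB ((1 / Real.log T : ℝ) : ℂ) (by
      rw [Complex.norm_real, Real.norm_of_nonneg (by positivity)])
    exact (norm_nonneg _).trans this
  -- the circle
  set Y : ℝ := X / (2 * Real.pi) with hY
  have hY1 : 1 ≤ Y := by
    rw [hY, le_div_iff₀ (by positivity), one_mul]
    refine le_trans ?_ hX1
    calc 2 * Real.pi ≤ 2 * Real.pi * Real.log T := by nlinarith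
      _ ≤ T ^ (1 / 2 : ℝ) := e3
      _ ≤ _ := Real.rpow_le_rpow_of_exponent_le hT1 (by norm_num)
  have hYX : Y ≤ T ^ (1 + 1 / 10000 : ℝ) := by
    refine le_trans ?_ hX2
    rw [hY]
    apply div_le_self hX0.le
    have := Real.pi_gt_three
    linarith
  have hY0 : 0 < Y := by linarith
  have hcirc : ∀ a : ℂ, ‖a‖ = 1 / Real.log T → ‖Ms X 12 N c a‖ ≤ V * Real.log T * B := by
    intro a ha
    obtain ⟨z1, z2⟩ := hz (Real.log T) hLL0 a ha
    have hr : ‖a‖ ≤ 1 / 34 := by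
      rw [ha]; exact one_div_le_one_div_of_le (by norm_num) hL34
    have hre : |a.re| ≤ 1 / Real.log T := ha ▸ Complex.abs_re_le_norm a
    have hre9 : |a.re| ≤ 9 / 16 := (Complex.abs_re_le_norm a).trans (by linarith)
    have hb1 := hB a ha
    have hb2 := hB (-a) (by simpa using ha)
    have hYp : ‖(Y : ℂ) ^ (-(2 * a))‖ ≤ E := by
      rw [ThreeLines.norm_X_cpow hY0]
      calc Y ^ (-(2 * a.re)) ≤ Y ^ (2 * (1 / Real.log T)) := by
            apply Real.rpow_le_rpow_of_exponent_le hY1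
            have := (abs_le.mp hre).1
            linarith
        _ ≤ (T ^ (1 + 1 / 10000 : ℝ)) ^ (2 * (1 / Real.log T)) := by
            apply Real.rpow_le_rpow hY0.le hYX
            positivity
        _ = Real.exp (2 + 2 / 10000) := by
            rw [← Real.rpow_mul hT0.le, Real.rpow_def_of_pos hT0]
            congr 1
            field_simp
        _ ≤ E := by
            rw [hE]
            apply Real.exp_le_exp.mpr
            norm_num
    have hfac : ‖(1 / 2 - a) ^ 2 * ((X : ℂ) ^ 2)⁻¹‖ ≤ 1 := by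
      have h4 : ‖(1 / 2 - a : ℂ)‖ ≤ 1 := by
        calc ‖(1 / 2 - a : ℂ)‖ ≤ ‖(1 / 2 : ℂ)‖ + ‖a‖ := norm_sub_le _ _
          _ ≤ 1 := by
              have : ‖(1 / 2 : ℂ)‖ = 1 / 2 := by norm_num
              rw [this]; linarith
      have h5 : ‖((X : ℂ) ^ 2)⁻¹‖ ≤ 1 := by
        rw [norm_inv, norm_pow, Complex.norm_real, Real.norm_eq_abs, abs_of_pos (by linarith)]
        exact inv_le_one_of_one_le₀ (one_le_pow₀ hXone)
      rw [norm_mul, norm_pow]
      exact mul_le_one₀ (pow_le_one₀ (norm_nonneg _) h4) (norm_nonneg _) h5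
    have hMt : ∀ s : ℂ, ‖Gamma s‖ ≤ G → ‖Gamma (s - 2 * a)‖ ≤ G →
        ‖Mt X s N c a‖ ≤ (G * Cz + E * (G * Cz)) * Real.log T * B := by
      intro s g1 g2
      rw [Mt]
      calc _ ≤ G * (Cz * Real.log T * B) + E * (G * (Cz * Real.log T * B)) := by
            refine (norm_add_le _ _).trans (add_le_add ?_ ?_)
            · rw [norm_mul, norm_mul]
              gcongr
            · rw [norm_mul, norm_mul, norm_mul]
              gcongr
        _ = _ := by ring
    have g12 : ∀ a : ℂ, |a.re| ≤ 9 / 16 → ‖Gamma (12 - 2 * a)‖ ≤ G := fun a ha =>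
      (hG1 a ha).trans (by rw [hG]; linarith)
    have g10 : ∀ a : ℂ, |a.re| ≤ 9 / 16 → ‖Gamma (10 - 2 * a)‖ ≤ G := fun a ha =>
      (hG2 a ha).trans (by rw [hG]; linarith)
    have m12 := hMt 12 (by simpa using g12 0 (by norm_num)) (g12 a hre9)
    have m10 := hMt 10 (by simpa using g10 0 (by norm_num)) (g10 a hre9)
    have e10' : (12 : ℂ) - 2 = 10 := by norm_num
    rw [Ms, e10']
    calc _ ≤ (G * Cz + E * (G * Cz)) * Real.log T * B +
          1 * ((G * Cz + E * (G * Cz)) * Real.log T * B) := by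
          refine (norm_add_le _ _).trans (add_le_add m12 ?_)
          rw [norm_mul]
          gcongr
      _ = _ := by rw [hV]; ring
  have havg := norm_circleAverage_le (f := Ms X 12 N c) (r := 1 / Real.log T)
    (by positivity) hcirc
  have hν : 0 ≤ |ν| := abs_nonneg _
  calc P ≤ ‖Js X 12 N c 0‖ := hPle
    _ = ‖(Js X 12 N c 0 - Real.circleAverage (Ms X 12 N c) 0 (1 / Real.log T)) +
          Real.circleAverage (Ms X 12 N c) 0 (1 / Real.log T)‖ := by ring_nf
    _ ≤ C₇ * (1 + |ν|) * T ^ (-(1 / 100) : ℝ) + V * Real.log T * B :=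
        (norm_add_le _ _).trans (add_le_add hthree havg)
    _ ≤ max V C₇ * (1 + |ν|) * T ^ (-(1 / 100) : ℝ) + max V C₇ * Real.log T * B := by
        gcongr
        · exact le_max_right _ _
        · exact le_max_left _ _
    _ = _ := by ring

end F4
end Pool.Agent.Lib.MP_973905_nt
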