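import Pool.Agent.Lib.MP_973905_nt.F4.Stmts
import Pool.Agent.Lib.MP_973905_nt.K1R.AllK1R
import Pool.Agent.Lib.MP_973905_nt.K2.Point2

/-! Module (G1): the upper bound of the moment on `[0, T]`, `k → 1+`. -/

namespace Pool.Agent.Lib.MP_973905_nt
namespace F4

open MeasureTheory ProbabilityTheory Complex Filter Topology K1

namespace UpperR

open K1.Lower Asm

lemma continuous_norm_AA {T : ℝ} {M : ℕ} {α : ℝ} {g h : Finset ℕ} {N B : ℝ}
    (hd : DP N B (AA T M (JJ T) α g h)) :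
    Continuous (fun t : ℝ => ‖AA T M (JJ T) α g h (fs (1 / 2 + t * I))‖) ∧
      ∀ t : ℝ, ‖AA T M (JJ T) α g h (fs (1 / 2 + t * I))‖ ≤ B := by
  obtain ⟨h1, h2⟩ := dp_half hd
  exact ⟨h1.norm, h2⟩

theorem fixed {δ T k C κ Cu Cz : ℝ} {M : ℕ} (hδ0 : 0 < δ) (hδ : δ ≤ 1 / 16)
    (hT3 : 3 ≤ T) (hk : 1 ≤ k) (hk1 : k ≤ 11 / 10) (hM4 : 4 ≤ M) (hC : 0 < C) (hκ : 0 < κ)
    (hCu : 0 < Cu)
    (hN : ∀ α : ℝ, |α| ≤ 1 → ∀ g h : Finset ℕ,
      DP (T ^ (1 / 4 : ℝ)) (T ^ (1 / 4 : ℝ)) (AA T M (JJ T) α g h))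
    (crude : ∀ τ : ℝ, |τ| ≤ 2 * T → ∀ g h : Finset ℕ, g ∪ h = Finset.range (JJ T + 1) →
      EG T τ (fun t => ‖riemannZeta (1 / 2 + t * I)‖ ^ 2 *
        ‖AA T M (JJ T) (k - 1) g h (fs (1 / 2 + t * I))‖ ^ 2) ≤
        Real.exp (C * M) * (Real.log T) ^ (k ^ 2) * ∏ j ∈ h, ss M (JJ T) j + T ^ (-κ))
    (sec : ∀ τ : ℝ, T / Real.log T ≤ |τ| → |τ| ≤ 3 / 2 * T →
      EG T τ (fun t => ‖riemannZeta (1 / 2 + t * I)‖ ^ 2 *
        ‖AA T M (JJ T) (k - 1) (Finset.range (JJ T + 1)) ∅ (fs (1 / 2 + t * I))‖ ^ 2) ≤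
      (1 + δ) * (Real.log T) ^ (k ^ 2))
    (four : ∀ g h : Finset ℕ, g ∪ h = Finset.range (JJ T + 1) →
      T⁻¹ * ∫ t in (0 : ℝ)..T, ‖riemannZeta (1 / 2 + t * I)‖ ^ 4 *
      ‖AA T M (JJ T) (k - 2) g h (fs (1 / 2 + t * I))‖ ^ 2 ≤
      Real.exp (C * M) * (Real.log T) ^ (k ^ 2) * ∏ j ∈ h, ss M (JJ T) j + T ^ (-κ))
    (avgu : ∀ F : ℝ → ℝ, Continuous F →
      (∀ t, 0 ≤ F t) → (∀ t, F t ≤ T ^ 4 * (1 + |t|) ^ 4) → ∀ D B : ℝ, 0 ≤ D → 1 ≤ B →
      (∀ τ : ℝ, T / Real.log T ≤ |τ| → |τ| ≤ 3 / 2 * T → EG T τ F ≤ D) →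
      (∀ τ : ℝ, |τ| ≤ 3 / 2 * T → EG T τ F ≤ B) →
      T⁻¹ * (∫ t in (0 : ℝ)..T, F t) ≤ D + Cu * (D + B) / Real.log T)
    (hw : 8 * Real.exp (C * M - 1 / 4 * Real.exp (3 / 4 * M)) ≤ δ)
    (hE : 2 ^ (JJ T + 1) * T ^ (-(κ / 2)) ≤ δ / 4) (hE2 : (2 : ℝ) ^ (JJ T + 1) ≤ T)
    (n1 : Cu * (2 * Real.exp (C * M) + 4) / Real.log T ≤ δ)
    (hzb : ∀ t : ℝ, ‖riemannZeta (1 / 2 + t * I)‖ ≤ Cz * (1 + |t|) ^ 2) (hCz1 : 1 ≤ Cz)
    (n9 : Cz ^ 2 ≤ T) :
    (1 - δ) * (T⁻¹ * ∫ t in (0 : ℝ)..T, ‖riemannZeta (1 / 2 + t * I)‖ ^ (2 * k)) ≤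
      ((1 + 3 * δ) * (Real.log T) ^ (k ^ 2)) ^ (2 - k) *
        (2 * Real.exp (C * M) * (Real.log T) ^ (k ^ 2)) ^ (k - 1) := by
  have hT1 : 1 < T := by linarith
  have hT0 : 0 < T := by linarith
  have hL : 0 < Real.log T := Real.log_pos hT1
  have hM4' : (4 : ℝ) ≤ M := by exact_mod_cast hM4
  obtain ⟨J, hJ⟩ : ∃ J, J = JJ T := ⟨_, rfl⟩
  obtain ⟨D, hD⟩ : ∃ D, D = (Real.log T) ^ (k ^ 2) := ⟨_, rfl⟩
  have hD1 : 1 ≤ D := hD ▸ one_le_LL hT3
  rw [← hD] at sec ⊢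
  simp only [← hD] at crude four
  simp only [← hJ] at hN crude sec four hE hE2
  have hD0 : 0 < D := by linarith
  have hα : |k - 1| ≤ 1 := by rw [abs_le]; constructor <;> linarith
  have hα2 : |k - 2| ≤ 1 := by rw [abs_le]; constructor <;> linarith
  have hδD : δ / 4 ≤ δ * D / 4 := by
    have : δ * 1 ≤ δ * D := mul_le_mul_of_nonneg_left hD1 hδ0.le
    linarith
  set R := Finset.range (J + 1) with hR
  have hcardR : R.card = J + 1 := Finset.card_range _
  -- sums over the blocks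
  set E := Real.exp (3 / 4 * (M : ℝ)) with hEd
  set w := Real.exp (C * M - 1 / 4 * E) with hwd
  have hw0 : 0 < w := Real.exp_pos _
  have hwD : 8 * w * D ≤ δ * D := mul_le_mul_of_nonneg_right hw hD0.le
  have hwD0 : 0 < w * D := mul_pos hw0 hD0
  have hE4 : 4 ≤ E := by
    have := Real.add_one_le_exp (3 / 4 * (M : ℝ))
    linarith
  have hCM : 0 < C * M := by positivity
  obtain ⟨X, hX⟩ : ∃ X, X = Real.exp (C * M) := ⟨_, rfl⟩
  have hCM1 : 1 ≤ X := hX ▸ Real.one_le_exp hCM.le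
  rw [← hX] at n1 ⊢
  simp only [← hX] at crude four
  have hX0 : 0 < X := by linarith
  have hss0 : ∀ j, 0 ≤ ss M J j := fun j => (Real.exp_pos _).le
  have s1 : ∑ j ∈ R, Real.exp (-KK M J j) ≤ 2 * w := by
    have h1 := sum_exp_KK (M := M) (J := J) (a := 1) (by rw [one_mul]; linarith) one_pos
    simp only [one_mul] at h1
    refine h1.trans ?_
    gcongr
    rw [hwd]
    apply Real.exp_le_exp.2
    linarith
  have s2 : ∑ j ∈ R, ss M J j ≤ 2 * Real.exp (-(1 / 2 * E)) := by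
    have h1 := sum_exp_KK (M := M) (J := J) (a := 1 / 2) (by linarith) (by norm_num)
    refine le_trans (le_of_eq ?_) h1
    refine Finset.sum_congr rfl fun j _ => ?_
    rw [ss]; congr 1; ring
  have w2 : X * Real.exp (-(1 / 2 * E)) ≤ w := by
    rw [hX, ← Real.exp_add, hwd]
    apply Real.exp_le_exp.2
    linarith
  have w4 : Real.exp (-(1 / 2 * E)) ≤ w := by
    have := mul_le_mul_of_nonneg_right hCM1 (Real.exp_pos (-(1 / 2 * E))).le
    linarith
  have hprodss : ∏ j ∈ R, (1 + ss M J j) - 1 ≤ 4 * Real.exp (-(1 / 2 * E)) := by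
    have h1 := prod_one_add_le (R := R) hss0 (by linarith)
    linarith
  have hprodss0 : 0 ≤ ∏ j ∈ R, (1 + ss M J j) - 1 := by
    have : 1 ≤ ∏ j ∈ R, (1 + ss M J j) := Finset.one_le_prod fun j _ => by linarith [hss0 j]
    linarith
  have hss4 : X * D * (∏ j ∈ R, (1 + ss M J j) - 1) ≤ 4 * w * D := by
    calc X * D * (∏ j ∈ R, (1 + ss M J j) - 1)
        ≤ X * D * (4 * Real.exp (-(1 / 2 * E))) := by gcongr
      _ = 4 * (X * Real.exp (-(1 / 2 * E))) * D := by ring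
      _ ≤ 4 * w * D := by gcongr
  -- powers of T
  have hTk : T ^ (-κ) ≤ T ^ (-(κ / 2)) := Real.rpow_le_rpow_of_exponent_le hT1.le (by linarith)
  have hTk0 : 0 < T ^ (-κ) := Real.rpow_pos_of_pos hT0 _
  have hEk : 2 ^ (J + 1) * T ^ (-κ) ≤ δ / 4 := le_trans (by gcongr) hE
  have h2J : (2 : ℝ) ≤ 2 ^ (J + 1) := by
    rw [pow_succ]
    have : (1 : ℝ) ≤ 2 ^ J := one_le_pow₀ (by norm_num)
    linarith
  have hTk8 : T ^ (-κ) ≤ δ / 8 := by
    have := mul_le_mul_of_nonneg_right h2J hTk0.le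
    linarith
  have hT14 : (T ^ (1 / 4 : ℝ)) ^ 2 ≤ T := by
    rw [← Real.rpow_natCast, ← Real.rpow_mul hT0.le]
    calc T ^ (1 / 4 * ((2 : ℕ) : ℝ)) ≤ T ^ (1 : ℝ) :=
          Real.rpow_le_rpow_of_exponent_le hT1.le (by norm_num)
      _ = T := Real.rpow_one T
  -- the functions
  have cz := continuous_zeta_half
  set Z : ℝ → ℝ := fun t => ‖riemannZeta (1 / 2 + t * I)‖ with hZ
  have hZ0 : ∀ t, 0 ≤ Z t := fun t => norm_nonneg _
  have hZc : Continuous Z := cz.norm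
  have hAA : ∀ α : ℝ, |α| ≤ 1 → ∀ g h : Finset ℕ,
      Continuous (fun t : ℝ => ‖AA T M J α g h (fs (1 / 2 + t * I))‖) ∧
        ∀ t : ℝ, ‖AA T M J α g h (fs (1 / 2 + t * I))‖ ^ 2 ≤ T := by
    intro α hα g h
    obtain ⟨h1, h2⟩ := dp_half (hN α hα g h)
    exact ⟨h1.norm, fun t => (pow_le_pow_left₀ (norm_nonneg _) (h2 t) 2).trans hT14⟩
  set F1 : ℝ → ℝ := fun t => ∑ g ∈ R.powerset,
    Z t ^ 2 * ‖AA T M J (k - 1) g (R \ g) (fs (1 / 2 + t * I))‖ ^ 2 with hF1d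
  set F2 : ℝ → ℝ := fun t => ∑ g ∈ R.powerset,
    Z t ^ 4 * ‖AA T M J (k - 2) g (R \ g) (fs (1 / 2 + t * I))‖ ^ 2 with hF2d
  have c1 : ∀ g : Finset ℕ, Continuous
      (fun t => Z t ^ 2 * ‖AA T M J (k - 1) g (R \ g) (fs (1 / 2 + t * I))‖ ^ 2) := fun g =>
    (hZc.pow 2).mul ((hAA (k - 1) hα g (R \ g)).1.pow 2)
  have c2 : ∀ g : Finset ℕ, Continuous
      (fun t => Z t ^ 4 * ‖AA T M J (k - 2) g (R \ g) (fs (1 / 2 + t * I))‖ ^ 2) := fun g =>
    (hZc.pow 4).mul ((hAA (k - 2) hα2 g (R \ g)).1.pow 2)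
  have hF1c : Continuous F1 := continuous_finsetSum _ fun g _ => c1 g
  have hF2c : Continuous F2 := continuous_finsetSum _ fun g _ => c2 g
  have hF10 : ∀ t, 0 ≤ F1 t := fun t => Finset.sum_nonneg fun g _ => by positivity
  have hF20 : ∀ t, 0 ≤ F2 t := fun t => Finset.sum_nonneg fun g _ => by positivity
  have hF1i : Integrable F1 (AV T) := integrable_AV hT0 hF1c
  have hF2i : Integrable F2 (AV T) := integrable_AV hT0 hF2c
  -- integrability for the Gaussian means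
  have hig : ∀ τ : ℝ, ∀ g : Finset ℕ, Integrable
      (fun t => Z t ^ 2 * ‖AA T M J (k - 1) g (R \ g) (fs (1 / 2 + t * I))‖ ^ 2)
        (gaussianReal τ (VV T)) := by
    intro τ g
    refine integrable_of_poly τ (VV T) (c1 g).aestronglyMeasurable
      (C := Cz ^ 2 * T) (m := 4) fun t => ?_
    rw [Real.norm_eq_abs, abs_of_nonneg (by positivity)]
    calc Z t ^ 2 * ‖AA T M J (k - 1) g (R \ g) (fs (1 / 2 + t * I))‖ ^ 2
        ≤ (Cz * (1 + |t|) ^ 2) ^ 2 * T := by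
          have h1 := hZ0 t
          have h2 := hzb t
          have h3 := (hAA (k - 1) hα g (R \ g)).2 t
          gcongr
      _ = _ := by ring
  -- first function, Gaussian means
  have hF1G : ∀ τ : ℝ, |τ| ≤ 2 * T → ∀ B : ℝ,
      EG T τ (fun t => ‖riemannZeta (1 / 2 + t * I)‖ ^ 2 *
        ‖AA T M J (k - 1) R ∅ (fs (1 / 2 + t * I))‖ ^ 2) ≤ B → EG T τ F1 ≤ B + δ * D := by
    intro τ hτ B hB
    rw [hF1d, EG_sum _ fun g _ => hig τ g]
    have h1 := sum_bound (R := R) (u := fun g => EG T τ (fun t =>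
      Z t ^ 2 * ‖AA T M J (k - 1) g (R \ g) (fs (1 / 2 + t * I))‖ ^ 2)) (s := ss M J)
      (A := X * D) (B := B) (e := T ^ (-κ)) hTk0.le
      (by
        simp only [Finset.sdiff_self]
        exact hB)
      (fun g hg => crude τ hτ g (R \ g) (Finset.union_sdiff_of_subset (Finset.mem_powerset.1 hg)))
    refine h1.trans ?_
    rw [hcardR]
    linarith
  -- first function, mean over [0, T]
  have hF1 : ∫ t, F1 t ∂(AV T) ≤ (1 + 3 * δ) * D := by
    rw [integral_AV hT0, smul_eq_mul]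
    have g1 := avgu F1 hF1c hF10 (fun t => by
      have h2J' : ((R.powerset).card : ℝ) ≤ T := by
        rw [Finset.card_powerset, hcardR]
        push_cast
        exact hE2
      calc F1 t ≤ ∑ g ∈ R.powerset, (Cz * (1 + |t|) ^ 2) ^ 2 * T := by
            refine Finset.sum_le_sum fun g _ => ?_
            have h1 := hZ0 t
            have h2 := hzb t
            have h3 := (hAA (k - 1) hα g (R \ g)).2 t
            gcongr
        _ = ((R.powerset).card : ℝ) * (Cz ^ 2 * T * (1 + |t|) ^ 4) := by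
            rw [Finset.sum_const, nsmul_eq_mul]
            ring
        _ ≤ T * (T * T * (1 + |t|) ^ 4) := by gcongr
        _ = T ^ 3 * (1 + |t|) ^ 4 := by ring
        _ ≤ T ^ 4 * (1 + |t|) ^ 4 := by
            gcongr
            · exact hT1.le
            · norm_num) ((1 + δ) * D + δ * D) (X * D + D + δ * D) (by positivity) (by
            have : 0 < X * D := by positivity
            have : 0 < δ * D := by positivity
            linarith)
      (fun τ h1 h2 => hF1G τ (by linarith) _ (sec τ h1 h2))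
      (fun τ h1 => by
        refine hF1G τ (by linarith) (X * D + D) ?_
        refine (crude τ (by linarith) R ∅ (Finset.union_empty _)).trans ?_
        rw [Finset.prod_empty, mul_one]
        have : δ / 8 ≤ 1 := by linarith
        linarith)
    refine g1.trans ?_
    have g2 : Cu * ((1 + δ) * D + δ * D + (X * D + D + δ * D)) / Real.log T ≤ δ * D := by
      calc Cu * ((1 + δ) * D + δ * D + (X * D + D + δ * D)) / Real.log T
          ≤ Cu * ((2 * X + 4) * D) / Real.log T := by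
            gcongr
            have h1 : 0 < X * D := by positivity
            have h2 : δ * D ≤ 1 / 16 * D := by gcongr
            linarith
        _ = Cu * (2 * X + 4) / Real.log T * D := by ring
        _ ≤ δ * D := by gcongr
    linarith
  -- second function
  have hF2 : ∫ t, F2 t ∂(AV T) ≤ 2 * X * D := by
    rw [hF2d, integral_finsetSum _ fun g _ => integrable_AV hT0 (c2 g)]
    have h1 := sum_bound (R := R) (u := fun g => ∫ t, (fun t =>
      Z t ^ 4 * ‖AA T M J (k - 2) g (R \ g) (fs (1 / 2 + t * I))‖ ^ 2) t ∂(AV T)) (s := ss M J)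
      (A := X * D) (B := X * D + T ^ (-κ)) (e := T ^ (-κ)) hTk0.le
      (by
        have h3 := four R ∅ (Finset.union_empty _)
        rw [Finset.prod_empty, mul_one] at h3
        simp only [Finset.sdiff_self]
        rw [integral_AV hT0, smul_eq_mul]
        exact h3)
      (fun g hg => by
        have h3 := four g (R \ g) (Finset.union_sdiff_of_subset (Finset.mem_powerset.1 hg))
        rw [integral_AV hT0, smul_eq_mul]
        exact h3)
    refine h1.trans ?_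
    rw [hcardR]
    have h4 : δ * D ≤ X * D := by
      gcongr
      linarith
    have h5 : δ / 8 ≤ δ * D / 4 := by linarith
    linarith
  have hpt : ∀ t, (1 - δ) * Z t ^ (2 * k) ≤ F1 t ^ (2 - k) * F2 t ^ (1 - (2 - k)) := by
    intro t
    set f := fs (1 / 2 + t * I) with hf
    set x : ℕ → ℝ := fun j => ‖Ntr (ll M J j) (k - 1) (Pj M (Sj T M J j) f)‖ ^ 2 +
      ‖(Pj M (Sj T M J j) f / (KK M J j : ℂ)) ^ (rr M J j)‖ ^ 2 with hx
    set y : ℕ → ℝ := fun j => ‖Ntr (ll M J j) (k - 2) (Pj M (Sj T M J j) f)‖ ^ 2 +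
      ‖(Pj M (Sj T M J j) f / (KK M J j : ℂ)) ^ (rr M J j)‖ ^ 2 with hy
    have hx0 : ∀ j, 0 ≤ x j := fun j => by simp only [hx]; positivity
    have hy0 : ∀ j, 0 ≤ y j := fun j => by simp only [hy]; positivity
    have e1 : F1 t = Z t ^ 2 * ∏ j ∈ R, x j := by
      simp only [hF1d]
      rw [← Finset.mul_sum, expand]
    have e2 : F2 t = Z t ^ 4 * ∏ j ∈ R, y j := by
      simp only [hF2d]
      rw [← Finset.mul_sum, expand]
    have hPx : 0 ≤ ∏ j ∈ R, x j := Finset.prod_nonneg fun j _ => hx0 j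
    have hPy : 0 ≤ ∏ j ∈ R, y j := Finset.prod_nonneg fun j _ => hy0 j
    have e4 : 1 - (2 - k) = k - 1 := by ring
    have e5 : Z t ^ (2 * (2 - k)) * Z t ^ (4 * (k - 1)) = Z t ^ (2 * k) := by
      rw [← Real.rpow_add_of_nonneg (hZ0 t) (by linarith) (by linarith)]
      congr 1
      ring
    have e3 : F1 t ^ (2 - k) * F2 t ^ (1 - (2 - k)) =
        Z t ^ (2 * k) * ∏ j ∈ R, (x j ^ (2 - k) * y j ^ (k - 1)) := by
      rw [e1, e2, e4, Real.mul_rpow (by positivity) hPx, Real.mul_rpow (by positivity) hPy,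
        Finset.prod_mul_distrib,
        Real.finsetProd_rpow _ _ (fun j _ => hx0 j), Real.finsetProd_rpow _ _ (fun j _ => hy0 j),
        ← Real.rpow_natCast (Z t) 2, ← Real.rpow_natCast (Z t) 4, ← Real.rpow_mul (hZ0 t),
        ← Real.rpow_mul (hZ0 t), ← e5]
      push_cast
      ring
    rw [e3, mul_comm]
    apply mul_le_mul_of_nonneg_left _ (Real.rpow_nonneg (hZ0 t) _)
    have h1 : ∏ j ∈ R, (1 - Real.exp (-KK M J j)) ^ 2 ≤
        ∏ j ∈ R, (x j ^ (2 - k) * y j ^ (k - 1)) := by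
      refine Finset.prod_le_prod (fun j _ => by positivity) fun j hj => ?_
      have hjJ : j ≤ J := by
        have := Finset.mem_range.1 hj
        omega
      exact K2.stPoint2 (ll M J j) (rr M J j) k _ hk (by linarith) (Len.KK_ge_one hjJ)
        (Nat.le_ceil _) _
    have h2 : 1 - ∑ j ∈ R, Real.exp (-KK M J j) ≤ ∏ j ∈ R, (1 - Real.exp (-KK M J j)) := by
      apply one_sub_sum_le (fun j => (Real.exp_pos _).le)
      intro j
      rw [Real.exp_le_one_iff]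
      have : 0 < KK M J j := Real.exp_pos _
      linarith
    rw [Finset.prod_pow] at h1
    refine le_trans ?_ h1
    have h3 : 1 - 2 * w ≤ ∏ j ∈ R, (1 - Real.exp (-KK M J j)) := by linarith
    have h4 : (1 - 2 * w) ^ 2 ≤ (∏ j ∈ R, (1 - Real.exp (-KK M J j))) ^ 2 :=
      pow_le_pow_left₀ (by linarith) h3 2
    have h5 : (1 - 2 * w) ^ 2 = 1 - 4 * w + 4 * w ^ 2 := by ring
    have h6 : 0 ≤ w ^ 2 := sq_nonneg w
    linarith
  have hB : 0 < (1 + 3 * δ) * D := by positivity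
  have hB2 : 0 < 2 * X * D := by positivity
  have h1 := holder2 hF1i hF2i hF10 hF20 (show 0 ≤ 2 - k by linarith) (show 2 - k ≤ 1 by linarith)
    hB hB2 hF1 hF2
  have e4 : 1 - (2 - k) = k - 1 := by ring
  rw [e4] at h1
  refine le_trans ?_ h1
  have hXc : Continuous (fun t => Z t ^ (2 * k)) := hZc.rpow_const fun _ => Or.inr (by linarith)
  have e6 : T⁻¹ * ∫ t in (0 : ℝ)..T, ‖riemannZeta (1 / 2 + t * I)‖ ^ (2 * k) =
      ∫ t, Z t ^ (2 * k) ∂(AV T) := by
    rw [integral_AV hT0, smul_eq_mul]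
  rw [e6, ← integral_const_mul]
  have hint := holder2_integrable hF1i hF2i hF10 hF20 (show 0 ≤ 2 - k by linarith)
    (show 2 - k ≤ 1 by linarith)
  simp only [e4] at hpt hint
  exact integral_mono ((integrable_AV hT0 hXc).const_mul _) hint hpt

end UpperR

open UpperR K1.Lower Asm UpH in
theorem stUpperR (h : StF4) : StUpperR := by
  have h3 := stZetaPair stShift
  have h6 := stRight h3 stRBound stFin
  have h7 := stLeft stFFpair stRBound
  have h9 := stExact stFin h6 h7 stStrip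
  have h12 := K1R.stRAR stLF K1R.stLFR (K1R.stBlockShiftR K1R.stLFR)
  have h15 := K1R.stSecondR stFin h9 h12 stShort
  obtain ⟨Ca, κa, hCa, hκa, Ma, hMa⟩ := K1R.stCrudeR
  obtain ⟨Cb, κb, hCb, hκb, Mb, hMb⟩ := h
  intro ε hε
  set δ := min ε 1 / 16 with hδd
  have hδ0 : 0 < δ := by positivity
  have hδ1 : δ ≤ 1 / 16 := by
    have := min_le_right ε 1
    rw [hδd]; linarith
  have hδε : 16 * δ ≤ ε := by
    have := min_le_left ε 1
    rw [hδd]; linarith
  obtain ⟨Mc, hMc⟩ := h15 δ hδ0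
  obtain ⟨Md, hMd⟩ := stShort (1 / 4) (by norm_num)
  obtain ⟨C, hCd⟩ : ∃ C, C = max Ca Cb := ⟨_, rfl⟩
  obtain ⟨κ, hκd⟩ : ∃ κ, κ = min κa κb := ⟨_, rfl⟩
  have hC : 0 < C := hCd ▸ lt_of_lt_of_le hCa (le_max_left _ _)
  have hκ : 0 < κ := hκd ▸ lt_min hκa hκb
  have hCaC : Ca ≤ C := hCd ▸ le_max_left _ _
  have hCbC : Cb ≤ C := hCd ▸ le_max_right _ _
  have hκaκ : κ ≤ κa := hκd ▸ min_le_left _ _
  have hκbκ : κ ≤ κb := hκd ▸ min_le_right _ _
  obtain ⟨M₁, hM₁4, hM₁⟩ := exists_M C δ hC hδ0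
  obtain ⟨M, ⟨⟨⟨⟨m1, m2⟩, m3⟩, m4⟩, m5⟩⟩ :=
    (((((eventually_ge_atTop Ma).and (eventually_ge_atTop Mb)).and (eventually_ge_atTop Mc)).and
      (eventually_ge_atTop Md)).and (eventually_ge_atTop M₁)).exists
  have hM4 : 4 ≤ M := hM₁4.trans m5
  have hw := hM₁ M m5
  obtain ⟨T1, -, crude⟩ := hMa M m1
  obtain ⟨T2, -, four⟩ := hMb M m2
  obtain ⟨ka, hka1, hka2, T3, -, sec⟩ := hMc M m3
  obtain ⟨T4, -, short⟩ := hMd M m4
  obtain ⟨Cu, T5, hCu, -, avgu⟩ := stAvgUp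
  obtain ⟨Cz, hCz, hzb⟩ := zeta_poly_half
  set B := Real.log (2 * Real.exp (C * M)) with hBd
  have hCM : 0 < C * M := by
    have : (0 : ℝ) < M := by exact_mod_cast (show 0 < M by omega)
    positivity
  have hB0 : 0 < B := by
    apply Real.log_pos
    have := Real.one_le_exp hCM.le
    linarith
  have hlog : 0 < Real.log (1 + δ) := Real.log_pos (by linarith)
  have hkb : 0 < Real.log (1 + δ) / B := by positivity
  have hexp : ∀ C' : ℝ, C' ≤ C → Real.exp (C' * M) ≤ Real.exp (C * M) := fun C' h' =>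
    Real.exp_le_exp.2 (mul_le_mul_of_nonneg_right h' (Nat.cast_nonneg _))
  have hev : ∀ᶠ T : ℝ in atTop, ∀ k : ℝ, 1 ≤ k → k ≤ min ka (1 + Real.log (1 + δ) / B) →
      T⁻¹ * ∫ t in (0 : ℝ)..T, ‖riemannZeta (1 / 2 + t * I)‖ ^ (2 * k) ≤
        (1 + ε) * (Real.log T) ^ (k ^ 2) := by
    filter_upwards [eventually_ge_atTop T1, eventually_ge_atTop T2, eventually_ge_atTop T3,
      eventually_ge_atTop T4, eventually_ge_atTop T5, eventually_ge_atTop 3,
      eventually_ge_atTop ((max Cz 1) ^ 2), eventually_pow κ δ hκ hδ0,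
      eventually_pow 2 1 (by norm_num) one_pos,
      ev_div_log (Cu * (2 * Real.exp (C * M) + 4)) δ hδ0]
      with T t1 t2 t3 t4 t5 t6 t7 t8 t9 t10 k hk hk1
    have hka : k ≤ ka := hk1.trans (min_le_left _ _)
    have hkB : k ≤ 1 + Real.log (1 + δ) / B := hk1.trans (min_le_right _ _)
    have hT1 : 1 < T := by linarith
    have hT0 : 0 < T := by linarith
    have hL : 0 < Real.log T := Real.log_pos hT1
    have hk2 : k ≤ 11 / 10 := hka.trans hka2
    have hTκ : ∀ κ' : ℝ, κ ≤ κ' → T ^ (-κ') ≤ T ^ (-κ) := fun κ' h' =>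
      Real.rpow_le_rpow_of_exponent_le hT1.le (by linarith)
    set D := (Real.log T) ^ (k ^ 2) with hD
    have hD1 : 1 ≤ D := one_le_LL t6
    have hD0 : 0 < D := by linarith
    have hss : ∀ h : Finset ℕ, 0 ≤ ∏ j ∈ h, ss M (JJ T) j := fun h =>
      Finset.prod_nonneg fun j _ => (Real.exp_pos _).le
    have hmono : ∀ (C' κ' : ℝ) (h : Finset ℕ), C' ≤ C → κ ≤ κ' →
        Real.exp (C' * M) * D * ∏ j ∈ h, ss M (JJ T) j + T ^ (-κ') ≤
        Real.exp (C * M) * D * ∏ j ∈ h, ss M (JJ T) j + T ^ (-κ) := by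
      intro C' κ' h h1 h2
      have g1 := hexp C' h1
      have g2 := hTκ κ' h2
      have g3 := hss h
      gcongr
    have hE2 : (2 : ℝ) ^ (JJ T + 1) ≤ T := by
      have e1 : T ^ (-((2 : ℝ) / 2)) = T⁻¹ := by
        rw [show -((2 : ℝ) / 2) = -1 by norm_num, Real.rpow_neg_one]
      rw [e1, ← div_eq_mul_inv, div_le_iff₀ hT0] at t9
      linarith
    have key := fixed (δ := δ) (T := T) (k := k) (C := C) (κ := κ) (Cu := Cu) (Cz := max Cz 1)
      (M := M) hδ0 hδ1 t6 hk hk2 hM4 hC hκ hCu (short T t4)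
      (fun τ hτ g h hgh => (crude T t1 τ hτ k hk hk2 g h hgh).trans (hmono _ _ h hCaC hκaκ))
      (fun τ h1 h2 => by
        have := (abs_le.1 (sec T t3 k hk hka τ h1 h2)).2
        rw [← hD] at this ⊢
        have h5 : EG T τ (fun t => ‖riemannZeta (1 / 2 + t * I)‖ ^ 2 *
          ‖NN T M (k - 1) (fs (1 / 2 + t * I))‖ ^ 2) ≤ (1 + δ) * D := by linarith
        exact h5)
      (fun g h hgh => (four T t2 k hk (by linarith) g h hgh).trans (hmono _ _ h hCbC hκbκ))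
      (avgu T t5) hw t8 hE2 t10
      (fun t => (hzb t).trans (by
        have := le_max_left Cz 1
        gcongr)) (le_max_right _ _) t7
    rw [← hD] at key
    set X := T⁻¹ * ∫ t in (0 : ℝ)..T, ‖riemannZeta (1 / 2 + t * I)‖ ^ (2 * k) with hX
    have h2 : ((1 + 3 * δ) * D) ^ (2 - k) * (2 * Real.exp (C * M) * D) ^ (k - 1) ≤
        (1 + 3 * δ) * (1 + δ) * D := by
      rw [Real.mul_rpow (by linarith) hD0.le, Real.mul_rpow (by positivity) hD0.le]
      have h3 : (1 + 3 * δ) ^ (2 - k) ≤ 1 + 3 * δ := by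
        calc (1 + 3 * δ) ^ (2 - k) ≤ (1 + 3 * δ) ^ (1 : ℝ) :=
              Real.rpow_le_rpow_of_exponent_le (by linarith) (by linarith)
          _ = 1 + 3 * δ := Real.rpow_one _
      have h4 : (2 * Real.exp (C * M)) ^ (k - 1) ≤ 1 + δ := by
        rw [Real.rpow_def_of_pos (by positivity), ← hBd, ← Real.le_log_iff_exp_le (by linarith)]
        have h5 : k - 1 ≤ Real.log (1 + δ) / B := by linarith
        calc B * (k - 1) ≤ B * (Real.log (1 + δ) / B) := by gcongr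
          _ = _ := by field_simp
      have h5 : D ^ (2 - k) * D ^ (k - 1) = D := by
        rw [← Real.rpow_add hD0, show 2 - k + (k - 1) = 1 by ring, Real.rpow_one]
      have h6 : 0 < D ^ (2 - k) := Real.rpow_pos_of_pos hD0 _
      have h7 : 0 < D ^ (k - 1) := Real.rpow_pos_of_pos hD0 _
      calc (1 + 3 * δ) ^ (2 - k) * D ^ (2 - k) * ((2 * Real.exp (C * M)) ^ (k - 1) * D ^ (k - 1))
          ≤ (1 + 3 * δ) * D ^ (2 - k) * ((1 + δ) * D ^ (k - 1)) := by gcongr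
        _ = (1 + 3 * δ) * (1 + δ) * (D ^ (2 - k) * D ^ (k - 1)) := by ring
        _ = _ := by rw [h5]
    have h8 := key.trans h2
    have h9 : (1 + 3 * δ) * (1 + δ) ≤ (1 - δ) * (1 + 16 * δ) := by
      have : δ * δ ≤ δ * (1 / 16) := mul_le_mul_of_nonneg_left hδ1 hδ0.le
      nlinarith
    have h10 : (1 - δ) * X ≤ (1 - δ) * ((1 + 16 * δ) * D) := by
      refine h8.trans ?_
      rw [← mul_assoc]
      exact mul_le_mul_of_nonneg_right h9 hD0.le
    have h11 : X ≤ (1 + 16 * δ) * D := le_of_mul_le_mul_left h10 (by linarith)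
    refine h11.trans ?_
    gcongr
  obtain ⟨T0, hT0⟩ := eventually_atTop.mp hev
  exact ⟨min ka (1 + Real.log (1 + δ) / B), lt_min hka1 (by linarith), max T0 3, le_max_right _ _,
    fun T hT k hk hk1 => hT0 T ((le_max_left _ _).trans hT) k hk hk1⟩

end F4
end Pool.Agent.Lib.MP_973905_nt
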