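import Pool.Agent.Lib.MP_973905_nt.F4.Stmts

/-! Module N7: the zero frequency. -/

namespace Pool.Agent.Lib.MP_973905_nt
namespace F4
namespace Zero

open MeasureTheory Complex Filter Topology K1

/-- Constant in the bound for the transform of the weight. -/
noncomputable def Kc (c : ℂ) : ℝ := 2 ^ 8 * (Real.Gamma 16 * Real.exp (Real.pi * ‖c‖))

lemma Kc_nonneg (c : ℂ) : 0 ≤ Kc c := by
  unfold Kc
  have := Real.Gamma_pos_of_pos (show (0 : ℝ) < 16 by norm_num)
  positivity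

lemma w_ne (X u : ℝ) : (1 + ((X * u : ℝ) : ℂ) * I) ≠ 0 := by
  intro h
  have := congrArg Complex.re h
  simp at this

lemma norm_w_ge_one (X u : ℝ) : 1 ≤ ‖(1 + ((X * u : ℝ) : ℂ) * I)‖ := by
  have := Complex.abs_re_le_norm (1 + ((X * u : ℝ) : ℂ) * I)
  simpa using this

lemma norm_w_im (X u : ℝ) (hX : 0 ≤ X) : X * |u| ≤ ‖(1 + ((X * u : ℝ) : ℂ) * I)‖ := by
  have h2 := Complex.abs_im_le_norm (1 + ((X * u : ℝ) : ℂ) * I)
  have h3 : (1 + ((X * u : ℝ) : ℂ) * I).im = X * u := by simp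
  rw [h3, abs_mul, abs_of_nonneg hX] at h2
  exact h2

lemma norm_w_ge (X u : ℝ) (hX : 0 ≤ X) :
    (1 + X * |u|) / 2 ≤ ‖(1 + ((X * u : ℝ) : ℂ) * I)‖ := by
  have h1 := norm_w_ge_one X u
  have h2 := norm_w_im X u hX
  linarith

lemma norm_KX_le {X : ℝ} (hX : 0 ≤ X) {c : ℂ} (h8 : 8 ≤ c.re) (h16 : c.re ≤ 16) (u : ℝ) :
    ‖KX X c u‖ ≤ Kc c * (1 + X * |u|) ^ (-8 : ℝ) := by
  unfold KX Kc
  rw [norm_mul]
  have hG : ‖Gamma c‖ ≤ Real.Gamma 16 := by
    refine (norm_Gamma_le (by linarith)).trans ?_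
    exact Real.Gamma_strictMonoOn_Ici.monotoneOn (by simp only [Set.mem_Ici]; linarith)
      (by simp only [Set.mem_Ici]; norm_num) h16
  have hw := w_ne X u
  have h1 := norm_w_ge_one X u
  have h2 := norm_w_ge X u hX
  have hp : 0 < (1 + X * |u|) := by positivity
  rw [Complex.norm_cpow_of_ne_zero hw]
  have h3 : ‖(1 + ((X * u : ℝ) : ℂ) * I)‖ ^ (-c).re ≤ 2 ^ 8 * (1 + X * |u|) ^ (-8 : ℝ) := by
    calc ‖(1 + ((X * u : ℝ) : ℂ) * I)‖ ^ (-c).re
        ≤ ‖(1 + ((X * u : ℝ) : ℂ) * I)‖ ^ (-8 : ℝ) := by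
          apply Real.rpow_le_rpow_of_exponent_le h1
          simp only [neg_re]; linarith
      _ ≤ ((1 + X * |u|) / 2) ^ (-8 : ℝ) :=
          Real.rpow_le_rpow_of_nonpos (by positivity) h2 (by norm_num)
      _ = 2 ^ 8 * (1 + X * |u|) ^ (-8 : ℝ) := by
          rw [Real.div_rpow hp.le (by norm_num), Real.rpow_neg (show (0:ℝ) ≤ 2 by norm_num)]
          have : (2 : ℝ) ^ (8 : ℝ) = 2 ^ (8 : ℕ) := by
            rw [← Real.rpow_natCast]; norm_num
          rw [this]
          field_simp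
  have h4 : (Real.exp (arg (1 + ((X * u : ℝ) : ℂ) * I) * (-c).im))⁻¹ ≤
      Real.exp (Real.pi * ‖c‖) := by
    rw [← Real.exp_neg]
    apply Real.exp_le_exp.mpr
    have h5 : |arg (1 + ((X * u : ℝ) : ℂ) * I)| ≤ Real.pi := Complex.abs_arg_le_pi _
    have h6 := Complex.abs_im_le_norm c
    have h7 : |arg (1 + ((X * u : ℝ) : ℂ) * I) * c.im| ≤ Real.pi * ‖c‖ := by
      rw [abs_mul]
      exact mul_le_mul h5 h6 (abs_nonneg _) Real.pi_pos.le
    have h8 := le_abs_self (arg (1 + ((X * u : ℝ) : ℂ) * I) * c.im)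
    simp only [neg_im]
    linarith
  have hG0 : 0 ≤ ‖Gamma c‖ := norm_nonneg _
  have hG1 : 0 ≤ Real.Gamma 16 := hG0.trans hG
  rw [div_eq_mul_inv]
  calc ‖Gamma c‖ * (‖(1 + ((X * u : ℝ) : ℂ) * I)‖ ^ (-c).re *
        (Real.exp (arg (1 + ((X * u : ℝ) : ℂ) * I) * (-c).im))⁻¹)
      ≤ Real.Gamma 16 * ((2 ^ 8 * (1 + X * |u|) ^ (-8 : ℝ)) * Real.exp (Real.pi * ‖c‖)) := by
        gcongr
    _ = 2 ^ 8 * (Real.Gamma 16 * Real.exp (Real.pi * ‖c‖)) * (1 + X * |u|) ^ (-8 : ℝ) := by ring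

/-- The logarithm of `1 + i X u` changes little. -/
lemma log_w_sub {X u v x : ℝ} (hX : 0 < X) (hv : v ≠ 0) (hx : x ≤ 1 / 2)
    (h : |u - v| ≤ x * |v|) :
    ‖log (1 + ((X * u : ℝ) : ℂ) * I) - log (1 + ((X * v : ℝ) : ℂ) * I)‖ ≤ 3 / 2 * x := by
  have hv' : 0 < |v| := abs_pos.mpr hv
  set w := (1 + ((X * v : ℝ) : ℂ) * I) with hw
  set δ := (((X * (u - v) : ℝ)) : ℂ) * I / w with hδ
  have hw0 : w ≠ 0 := w_ne X v
  have e1 : (1 + ((X * u : ℝ) : ℂ) * I) = w * (1 + δ) := by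
    rw [hδ, mul_add, mul_div_cancel₀ _ hw0, hw]
    push_cast; ring
  have hδn : ‖δ‖ ≤ x := by
    rw [hδ, norm_div, norm_mul, norm_I, mul_one, Complex.norm_real, Real.norm_eq_abs, abs_mul,
      abs_of_pos hX]
    have h2 := norm_w_im X v hX.le
    rw [div_le_iff₀ (norm_pos_iff.mpr hw0)]
    calc X * |u - v| ≤ X * (x * |v|) := by gcongr
      _ = x * (X * |v|) := by ring
      _ ≤ x * ‖w‖ := by
        have hx0 : 0 ≤ x := by
          by_contra hneg
          push Not at hneg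
          have := (abs_nonneg (u - v)).trans h
          nlinarith
        gcongr
  have hδ2 : ‖δ‖ ≤ 1 / 2 := hδn.trans hx
  have hre : 0 < (1 + δ).re := by
    have := (abs_le.mp (Complex.abs_re_le_norm δ)).1
    simp only [add_re, one_re]
    linarith
  have hwre : 0 < w.re := by rw [hw]; simp
  have ha1 := Complex.abs_arg_lt_pi_div_two_iff.mpr (Or.inl hre)
  have ha2 := Complex.abs_arg_lt_pi_div_two_iff.mpr (Or.inl hwre)
  have h1δ : (1 + δ) ≠ 0 := by
    intro h0; rw [h0] at hre; simp at hre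
  rw [e1, Complex.log_mul hw0 h1δ]
  · rw [add_sub_cancel_left]
    exact (Complex.norm_log_one_add_half_le_self hδ2).trans (by gcongr)
  · rw [abs_lt] at ha1 ha2
    constructor <;> linarith [ha1.1, ha1.2, ha2.1, ha2.2]

/-- Real logarithm near `1`. -/
lemma log_sub {e : ℤ} (he : e = 1 ∨ e = -1) {x : ℝ} (hx : 0 < x) (hx2 : x ≤ 1 / 2) :
    |-Real.log (1 - e * x) - e * x| ≤ x * |(e : ℝ) * x| ∧ |Real.log (1 - e * x)| ≤ 3 / 2 * x ∧
      0 < 1 - (e : ℝ) * x := by
  have hn : |(e : ℝ) * x| = x := by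
    rcases he with rfl | rfl <;> simp [abs_of_pos hx]
  have hlt : |(e : ℝ) * x| ≤ 1 / 2 := by rw [hn]; exact hx2
  have hpos : 0 < 1 - (e : ℝ) * x := by
    have := (abs_le.mp hlt).2; linarith
  have h1 : |-Real.log (1 - e * x) - e * x| ≤ x * |(e : ℝ) * x| := by
    have h := Complex.norm_log_one_add_sub_self_le (z := ((-(e * x) : ℝ) : ℂ))
      (by rw [Complex.norm_real, Real.norm_eq_abs, abs_neg, hn]; linarith)
    rw [Complex.norm_real, Real.norm_eq_abs, abs_neg, hn] at h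
    have e2 : (1 + ((-(e * x) : ℝ) : ℂ)) = ((1 - e * x : ℝ) : ℂ) := by push_cast; ring
    rw [e2, ← Complex.ofReal_log hpos.le, ← Complex.ofReal_sub, Complex.norm_real,
      Real.norm_eq_abs] at h
    have e3 : |-Real.log (1 - e * x) - e * x| = |Real.log (1 - e * x) - -(e * x)| := by
      rw [← abs_neg]; congr 1; ring
    rw [e3, hn]
    refine h.trans ?_
    have h5 : (1 - x)⁻¹ ≤ 2 := by
      rw [inv_le_comm₀ (by linarith) (by norm_num)]; linarith
    calc x ^ 2 * (1 - x)⁻¹ / 2 ≤ x ^ 2 * 2 / 2 := by gcongr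
      _ = x * x := by ring
  refine ⟨h1, ?_, hpos⟩
  rw [hn] at h1
  have h6 : |Real.log (1 - e * x)| ≤ |-Real.log (1 - e * x) - e * x| + |(e : ℝ) * x| := by
    have := abs_add_le (-Real.log (1 - e * x) - e * x) ((e : ℝ) * x)
    rw [sub_add_cancel, abs_neg] at this
    exact this
  rw [hn] at h6
  nlinarith

/-- The comparison of the integrands, in the variable `x = 1 / z`. -/
lemma key {X : ℝ} (hX : 0 < X) {a c : ℂ} (ha : a.re = 9 / 16) (h8 : 8 ≤ c.re)
    (h16 : c.re ≤ 16) {e : ℤ} (he : e = 1 ∨ e = -1) {x : ℝ} (hx : 0 < x) :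
    ‖((x ^ (-2 : ℝ) : ℝ) : ℂ) * Gz X a c e x⁻¹ - (x : ℂ) ^ (2 * a - 1) * KX X c (e * x)‖ ≤
      (Kc c * ((2 * (1 + ‖a‖ + ‖c‖) + 6) * Real.exp (1 + ‖a‖ + ‖c‖))) *
        (x ^ (9 / 8 : ℝ) * (1 + X * x) ^ (-8 : ℝ)) := by
  have hK := norm_KX_le hX.le h8 h16 (e * x)
  have hn : |(e : ℝ) * x| = x := by
    rcases he with rfl | rfl <;> simp [abs_of_pos hx]
  rw [hn] at hK
  have hpow : ‖(x : ℂ) ^ (2 * a - 1)‖ = x ^ (1 / 8 : ℝ) := by
    rw [Complex.norm_cpow_eq_rpow_re_of_pos hx]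
    congr 1
    simp [ha]; norm_num
  have hx98 : x ^ (9 / 8 : ℝ) = x * x ^ (1 / 8 : ℝ) := by
    rw [← Real.rpow_one_add' hx.le (by norm_num)]; norm_num
  set M := 1 + ‖a‖ + ‖c‖ with hM
  have hM1 : 1 ≤ M := by
    have := norm_nonneg a; have := norm_nonneg c; linarith
  have hE : 1 ≤ Real.exp M := Real.one_le_exp (by linarith)
  have hKc := Kc_nonneg c
  have hP : 0 ≤ (1 + X * x) ^ (-8 : ℝ) := by positivity
  have hx8 : 0 ≤ x ^ (1 / 8 : ℝ) := by positivity
  rcases le_or_gt (1 / 2) x with hx2 | hx2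
  · have hz : Gz X a c e x⁻¹ = 0 := by
      unfold Gz
      have : x⁻¹ - 2 ≤ 0 := by
        have : x⁻¹ ≤ 2 := by
          rw [inv_le_comm₀ hx (by norm_num)]; linarith
        linarith
      rw [Real.smoothTransition.zero_of_nonpos this]
      simp
    rw [hz, mul_zero, zero_sub, norm_neg, norm_mul, hpow, hx98]
    calc x ^ (1 / 8 : ℝ) * ‖KX X c (e * x)‖ ≤ x ^ (1 / 8 : ℝ) * (Kc c * (1 + X * x) ^ (-8 : ℝ)) := by
          gcongr
      _ = Kc c * (1 * 1) * (1 * x ^ (1 / 8 : ℝ) * (1 + X * x) ^ (-8 : ℝ)) := by ring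
      _ ≤ Kc c * ((2 * M) * Real.exp M) * ((x) * x ^ (1 / 8 : ℝ) * (1 + X * x) ^ (-8 : ℝ)) := by
          have : Kc c * (1 * 1) * (1 * x ^ (1 / 8 : ℝ) * (1 + X * x) ^ (-8 : ℝ)) ≤
              (Kc c * (x ^ (1 / 8 : ℝ) * (1 + X * x) ^ (-8 : ℝ))) *
                (((2 * M) * Real.exp M) * x) := by
            have h9 : 1 ≤ ((2 * M) * Real.exp M) * x := by
              have : 1 ≤ (2 * 1) * 1 * x := by linarith
              refine this.trans ?_
              gcongr
            have h10 : 0 ≤ (Kc c * (x ^ (1 / 8 : ℝ) * (1 + X * x) ^ (-8 : ℝ))) := by positivity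
            nlinarith [mul_le_mul_of_nonneg_left h9 h10]
          refine this.trans (le_of_eq ?_)
          ring
      _ ≤ Kc c * ((2 * M + 6) * Real.exp M) * (x * x ^ (1 / 8 : ℝ) * (1 + X * x) ^ (-8 : ℝ)) := by
          gcongr; linarith
  · obtain ⟨hl1, hl2, hpos⟩ := log_sub he hx hx2.le
    have hex : (e : ℝ) * x ≠ 0 := by
      intro h0; rw [h0, abs_zero] at hn; linarith
    have hlog := log_w_sub (X := X) (u := -Real.log (1 - e * x)) hX hex hx2.le hl1
    set W : ℂ := -(1 / 2 + a) * ((Real.log (1 - e * x) : ℝ) : ℂ) -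
      c * (log (1 + ((X * (-Real.log (1 - e * x)) : ℝ) : ℂ) * I) -
        log (1 + ((X * (e * x) : ℝ) : ℂ) * I)) with hW
    have hWn : ‖W‖ ≤ 3 / 2 * M * x := by
      rw [hW]
      refine (norm_sub_le _ _).trans ?_
      rw [norm_mul, norm_mul, norm_neg, Complex.norm_real, Real.norm_eq_abs]
      have h11 : ‖(1 / 2 + a : ℂ)‖ ≤ 1 / 2 + ‖a‖ := by
        refine (norm_add_le _ _).trans ?_
        norm_num
      calc ‖(1 / 2 + a : ℂ)‖ * |Real.log (1 - e * x)| + ‖c‖ * _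
          ≤ (1 / 2 + ‖a‖) * (3 / 2 * x) + ‖c‖ * (3 / 2 * x) := by gcongr
        _ ≤ 3 / 2 * M * x := by rw [hM]; nlinarith
    have hWn2 : ‖W‖ ≤ M := by
      refine hWn.trans ?_
      nlinarith
    -- the algebraic identity
    have hid : ((x ^ (-2 : ℝ) : ℝ) : ℂ) * Gz X a c e x⁻¹ =
        (Real.smoothTransition (x⁻¹ - 2) : ℂ) * cexp W * ((x : ℂ) ^ (2 * a - 1) *
          KX X c (e * x)) := by
      have hx0 : (x : ℂ) ≠ 0 := by exact_mod_cast hx.ne'
      have hz1 : x⁻¹ * (x⁻¹ - e) = Real.exp (-2 * Real.log x + Real.log (1 - e * x)) := by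
        rw [Real.exp_add, Real.exp_log hpos, show -2 * Real.log x = -(Real.log x + Real.log x) by
          ring, Real.exp_neg, Real.exp_add, Real.exp_log hx]
        field_simp
      have hz2 : Real.log (x⁻¹ / (x⁻¹ - e)) = -Real.log (1 - e * x) := by
        rw [← Real.log_inv]
        congr 1
        have : x⁻¹ - e = (1 - e * x) / x := by field_simp
        rw [this]
        field_simp
      have hr : 0 < Real.exp (-2 * Real.log x + Real.log (1 - e * x)) := Real.exp_pos _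
      unfold Gz KX
      rw [hz1, hz2, Complex.cpow_def_of_ne_zero (by exact_mod_cast hr.ne'),
        Complex.cpow_def_of_ne_zero (w_ne X _), Complex.cpow_def_of_ne_zero hx0,
        Complex.cpow_def_of_ne_zero (w_ne X _)]
      rw [← Complex.ofReal_log hr.le, Real.log_exp, ← Complex.ofReal_log hx.le]
      have hx2' : ((x ^ (-2 : ℝ) : ℝ) : ℂ) = cexp (-2 * (Real.log x : ℝ)) := by
        rw [Real.rpow_def_of_pos hx]
        push_cast
        congr 1
        ring
      rw [hx2']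
      have : ∀ A B C D E F G H : ℂ, A + B + C = D + E + F →
          cexp A * (G * cexp B * (H * cexp C)) = G * cexp D * (cexp E * (H * cexp F)) := by
        intro A B C D E F G H h
        have : cexp (A + B + C) = cexp (D + E + F) := by rw [h]
        rw [Complex.exp_add, Complex.exp_add, Complex.exp_add, Complex.exp_add] at this
        linear_combination G * H * this
      apply this
      rw [hW]
      push_cast
      ring
    rw [hid]
    have e4 : (Real.smoothTransition (x⁻¹ - 2) : ℂ) * cexp W * ((x : ℂ) ^ (2 * a - 1) *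
          KX X c (e * x)) - (x : ℂ) ^ (2 * a - 1) * KX X c (e * x) =
        ((Real.smoothTransition (x⁻¹ - 2) : ℂ) * cexp W - 1) * ((x : ℂ) ^ (2 * a - 1) *
          KX X c (e * x)) := by ring
    rw [e4, norm_mul, norm_mul, hpow]
    have hexpW : ‖cexp W‖ ≤ Real.exp M := by
      rw [Complex.norm_exp]
      exact Real.exp_le_exp.mpr ((Complex.re_le_norm W).trans hWn2)
    have hmain : ‖(Real.smoothTransition (x⁻¹ - 2) : ℂ) * cexp W - 1‖ ≤
        (2 * M + 6) * Real.exp M * x := by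
      rcases le_or_gt x (1 / 3) with hx3 | hx3
      · have h1 : Real.smoothTransition (x⁻¹ - 2) = 1 := by
          apply Real.smoothTransition.one_of_one_le
          have : 3 ≤ x⁻¹ := by
            rw [le_inv_comm₀ (by norm_num) hx]; linarith
          linarith
        rw [h1, Complex.ofReal_one, one_mul]
        have h12 := Complex.norm_exp_sub_sum_le_norm_mul_exp W 1
        simp only [Finset.range_one, Finset.sum_singleton, pow_zero, Nat.factorial_zero,
          Nat.cast_one, div_one, pow_one] at h12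
        calc ‖cexp W - 1‖ ≤ ‖W‖ * Real.exp ‖W‖ := h12
          _ ≤ (3 / 2 * M * x) * Real.exp M := by gcongr
          _ = (3 / 2 * M) * Real.exp M * x := by ring
          _ ≤ (2 * M + 6) * Real.exp M * x := by gcongr; linarith
      · calc ‖(Real.smoothTransition (x⁻¹ - 2) : ℂ) * cexp W - 1‖
            ≤ ‖(Real.smoothTransition (x⁻¹ - 2) : ℂ) * cexp W‖ + ‖(1 : ℂ)‖ := norm_sub_le _ _
          _ ≤ 1 * Real.exp M + 1 * Real.exp M := by
              rw [norm_mul, norm_one, Complex.norm_real, Real.norm_eq_abs,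
                abs_of_nonneg (Real.smoothTransition.nonneg _)]
              have := Real.smoothTransition.le_one (x⁻¹ - 2)
              gcongr
              linarith
          _ = 2 * Real.exp M * 1 := by ring
          _ ≤ 2 * Real.exp M * (3 * x) := by
              gcongr; linarith
          _ = 6 * Real.exp M * x := by ring
          _ ≤ (2 * M + 6) * Real.exp M * x := by gcongr; linarith
    rw [hx98]
    calc _ ≤ ((2 * M + 6) * Real.exp M * x) * (x ^ (1 / 8 : ℝ) *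
          (Kc c * (1 + X * x) ^ (-8 : ℝ))) := by gcongr
      _ = _ := by ring

/-- The comparison function is integrable. -/
lemma integrableOn_cmp {X p : ℝ} (hX : 1 ≤ X) (hp0 : 0 ≤ p) (hp : p ≤ 9 / 8) :
    IntegrableOn (fun x : ℝ => x ^ p * (1 + X * x) ^ (-8 : ℝ)) (Set.Ioi 0) := by
  have h1 : Integrable (fun x : ℝ => (1 + ‖x‖) ^ (-(6 : ℝ))) := by
    apply integrable_one_add_norm
    simp
  refine (h1.integrableOn (s := Set.Ioi 0)).mono' ?_ ?_
  · apply Measurable.aestronglyMeasurable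
    fun_prop
  · refine (ae_restrict_iff' measurableSet_Ioi).mpr (Eventually.of_forall ?_)
    intro x hx
    have hx' : 0 < x := hx
    rw [Real.norm_eq_abs, abs_of_nonneg (by positivity), Real.norm_eq_abs, abs_of_pos hx']
    calc x ^ p * (1 + X * x) ^ (-8 : ℝ) ≤ (1 + x) ^ p * (1 + x) ^ (-8 : ℝ) := by
          gcongr ?_ * ?_
          · exact Real.rpow_le_rpow hx'.le (by linarith) hp0
          · apply Real.rpow_le_rpow_of_nonpos (by positivity) _ (by norm_num)
            nlinarith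
      _ = (1 + x) ^ (p + (-8 : ℝ)) := by rw [← Real.rpow_add (by positivity)]
      _ ≤ (1 + x) ^ (-6 : ℝ) := by
          apply Real.rpow_le_rpow_of_exponent_le (by linarith)
          linarith

lemma integral_cmp {X : ℝ} (hX : 1 ≤ X) :
    ∫ x in Set.Ioi (0 : ℝ), x ^ (9 / 8 : ℝ) * (1 + X * x) ^ (-8 : ℝ) =
      X ^ (-(17 / 8) : ℝ) * ∫ x in Set.Ioi (0 : ℝ), x ^ (9 / 8 : ℝ) * (1 + x) ^ (-8 : ℝ) := by
  have hX0 : 0 < X := by linarith
  have h := MeasureTheory.integral_comp_mul_left_Ioi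
    (fun y : ℝ => y ^ (9 / 8 : ℝ) * (1 + y) ^ (-8 : ℝ)) 0 hX0
  rw [mul_zero] at h
  have e : ∫ x in Set.Ioi (0 : ℝ), (X * x) ^ (9 / 8 : ℝ) * (1 + X * x) ^ (-8 : ℝ) =
      X ^ (9 / 8 : ℝ) * ∫ x in Set.Ioi (0 : ℝ), x ^ (9 / 8 : ℝ) * (1 + X * x) ^ (-8 : ℝ) := by
    rw [← integral_const_mul]
    apply setIntegral_congr_fun measurableSet_Ioi
    intro x hx
    have hx' : 0 < x := hx
    simp only
    rw [Real.mul_rpow hX0.le hx'.le]
    ring
  rw [e, smul_eq_mul] at h
  have hX98 : 0 < X ^ (9 / 8 : ℝ) := by positivity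
  have e2 : X ^ (-(17 / 8) : ℝ) = (X ^ (9 / 8 : ℝ))⁻¹ * X⁻¹ := by
    rw [← Real.rpow_neg hX0.le, ← Real.rpow_neg_one X, ← Real.rpow_add hX0]
    norm_num
  rw [e2, mul_assoc, ← h]
  field_simp

lemma Gz_meas (X : ℝ) (a c : ℂ) (e : ℤ) : Measurable (Gz X a c e) := by
  unfold Gz KX
  have : Measurable Real.smoothTransition := Real.smoothTransition.continuous.measurable
  fun_prop

lemma KX_meas (X : ℝ) (c : ℂ) : Measurable (KX X c) := by
  unfold KX
  fun_prop

/-- The integral of `Gz` in the variable `x = 1 / z`. -/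
lemma Gh_zero (X : ℝ) (a c : ℂ) (e : ℤ) :
    Gh X a c e 0 = ∫ x in Set.Ioi (0 : ℝ), ((x ^ (-2 : ℝ) : ℝ) : ℂ) * Gz X a c e x⁻¹ := by
  have h := MeasureTheory.integral_comp_rpow_Ioi (fun z => Gz X a c e z) (p := -1) (by norm_num)
  unfold Gh
  have e1 : (∫ z : ℝ, cexp ((((-2 * Real.pi * z * 0 : ℝ)) : ℂ) * I) * Gz X a c e z) =
      ∫ z in Set.Ioi (0 : ℝ), Gz X a c e z := by
    simp only [mul_zero, Complex.ofReal_zero, zero_mul, Complex.exp_zero, one_mul]
    rw [← integral_indicator measurableSet_Ioi]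
    congr 1
    ext z
    by_cases hz : z ∈ Set.Ioi (0 : ℝ)
    · rw [Set.indicator_of_mem hz]
    · rw [Set.indicator_of_notMem hz]
      unfold Gz
      have : z - 2 ≤ 0 := by
        simp only [Set.mem_Ioi, not_lt] at hz; linarith
      rw [Real.smoothTransition.zero_of_nonpos this]
      simp
  rw [e1, ← h]
  apply setIntegral_congr_fun measurableSet_Ioi
  intro x hx
  have hx' : 0 < x := hx
  simp only
  rw [abs_neg, abs_one, one_mul, Real.rpow_neg_one, show (-1 - 1 : ℝ) = -2 by norm_num,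
    Complex.real_smul]

end Zero

open MeasureTheory Complex Filter Topology K1 Zero in
/-- (N7) -/
theorem stZero (h6 : StBeta) : StZero := by
  set C₀ := ∫ x in Set.Ioi (0 : ℝ), x ^ (9 / 8 : ℝ) * (1 + x) ^ (-8 : ℝ) with hC₀
  have hC₀nn : 0 ≤ C₀ := by
    rw [hC₀]
    apply setIntegral_nonneg measurableSet_Ioi
    intro x hx
    have hx' : 0 < x := hx
    positivity
  set G := 2 ^ 8 * Real.Gamma 16 * 16 * C₀ with hG
  have hGam := Real.Gamma_pos_of_pos (show (0 : ℝ) < 16 by norm_num)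
  have hGnn : 0 ≤ G := by rw [hG]; positivity
  refine ⟨G + 10, by positivity, ?_⟩
  intro X hX a c ha h8 h16
  have hX0 : 0 < X := by linarith
  set M := 1 + ‖a‖ + ‖c‖ with hM
  set D := Kc c * ((2 * M + 6) * Real.exp M) with hD
  -- integrability
  have hI98 := integrableOn_cmp (X := X) (p := 9 / 8) hX (by norm_num) le_rfl
  have hI18 := integrableOn_cmp (X := X) (p := 1 / 8) hX (by norm_num) (by norm_num)
  have hKint : ∀ e : ℤ, e = 1 ∨ e = -1 →
      IntegrableOn (fun x : ℝ => (x : ℂ) ^ (2 * a - 1) * KX X c (e * x)) (Set.Ioi 0) := by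
    intro e he
    refine (hI18.const_mul (Kc c)).mono' ?_ ?_
    · apply Measurable.aestronglyMeasurable
      have := KX_meas X c
      fun_prop
    · refine (ae_restrict_iff' measurableSet_Ioi).mpr (Eventually.of_forall ?_)
      intro x hx
      have hx' : 0 < x := hx
      have hn : |(e : ℝ) * x| = x := by
        rcases he with rfl | rfl <;> simp [abs_of_pos hx']
      have hK := norm_KX_le hX0.le h8 h16 (e * x)
      rw [hn] at hK
      rw [norm_mul, Complex.norm_cpow_eq_rpow_re_of_pos hx']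
      have : (2 * a - 1).re = 1 / 8 := by simp [ha]; norm_num
      rw [this]
      calc x ^ (1 / 8 : ℝ) * ‖KX X c (e * x)‖
          ≤ x ^ (1 / 8 : ℝ) * (Kc c * (1 + X * x) ^ (-8 : ℝ)) := by gcongr
        _ = Kc c * (x ^ (1 / 8 : ℝ) * (1 + X * x) ^ (-8 : ℝ)) := by ring
  have hDint : ∀ e : ℤ, e = 1 ∨ e = -1 → IntegrableOn (fun x : ℝ =>
      ((x ^ (-2 : ℝ) : ℝ) : ℂ) * Gz X a c e x⁻¹ - (x : ℂ) ^ (2 * a - 1) * KX X c (e * x))
      (Set.Ioi 0) := by
    intro e he
    refine (hI98.const_mul D).mono' ?_ ?_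
    · apply Measurable.aestronglyMeasurable
      have := KX_meas X c
      have := Gz_meas X a c e
      fun_prop
    · refine (ae_restrict_iff' measurableSet_Ioi).mpr (Eventually.of_forall ?_)
      intro x hx
      exact key hX0 ha h8 h16 he hx
  have hbeta := h6 X (2 * a) c hX0 (by simp [ha]) (by simp [ha]; linarith)
  have hsum : Gh X a c 1 0 + Gh X a c (-1) 0 -
      2 * cos (Real.pi * a) * Gamma (2 * a) * Gamma (c - 2 * a) * (X : ℂ) ^ (-(2 * a)) =
      (∫ x in Set.Ioi (0 : ℝ), (((x ^ (-2 : ℝ) : ℝ) : ℂ) * Gz X a c 1 x⁻¹ -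
        (x : ℂ) ^ (2 * a - 1) * KX X c ((1 : ℤ) * x))) +
      ∫ x in Set.Ioi (0 : ℝ), (((x ^ (-2 : ℝ) : ℝ) : ℂ) * Gz X a c (-1) x⁻¹ -
        (x : ℂ) ^ (2 * a - 1) * KX X c ((-1 : ℤ) * x)) := by
    have e0 : (Real.pi : ℂ) * (2 * a) / 2 = Real.pi * a := by ring
    have hb := hbeta.2
    rw [e0] at hb
    rw [← hb, Gh_zero, Gh_zero]
    have hint : ∀ e : ℤ, e = 1 ∨ e = -1 → IntegrableOn (fun x : ℝ =>
        ((x ^ (-2 : ℝ) : ℝ) : ℂ) * Gz X a c e x⁻¹) (Set.Ioi 0) := by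
      intro e he
      have := (hDint e he).add (hKint e he)
      refine this.congr (Eventually.of_forall ?_)
      intro x
      simp
    have h1 := integral_sub (hint 1 (Or.inl rfl)) (hKint 1 (Or.inl rfl))
    have h2 := integral_sub (hint (-1) (Or.inr rfl)) (hKint (-1) (Or.inr rfl))
    have h3 : ∫ u in Set.Ioi (0 : ℝ), (u : ℂ) ^ (2 * a - 1) * (KX X c u + KX X c (-u)) =
        (∫ x in Set.Ioi (0 : ℝ), (x : ℂ) ^ (2 * a - 1) * KX X c ((1 : ℤ) * x)) +
        ∫ x in Set.Ioi (0 : ℝ), (x : ℂ) ^ (2 * a - 1) * KX X c ((-1 : ℤ) * x) := by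
      rw [← integral_add (hKint 1 (Or.inl rfl)) (hKint (-1) (Or.inr rfl))]
      congr 1
      ext u
      push_cast
      rw [one_mul, neg_one_mul]
      ring
    rw [h3, h1, h2]
    ring
  rw [hsum]
  have hbd : ∀ e : ℤ, e = 1 ∨ e = -1 → ‖∫ x in Set.Ioi (0 : ℝ),
      (((x ^ (-2 : ℝ) : ℝ) : ℂ) * Gz X a c e x⁻¹ -
        (x : ℂ) ^ (2 * a - 1) * KX X c (e * x))‖ ≤ D * (X ^ (-(17 / 8) : ℝ) * C₀) := by
    intro e he
    refine (norm_integral_le_of_norm_le (hI98.const_mul D)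
      ((ae_restrict_iff' measurableSet_Ioi).mpr (Eventually.of_forall ?_))).trans (le_of_eq ?_)
    · intro x hx
      exact key hX0 ha h8 h16 he hx
    · rw [integral_const_mul, integral_cmp hX]
  refine (norm_add_le _ _).trans ?_
  refine (add_le_add (hbd 1 (Or.inl rfl)) (hbd (-1) (Or.inr rfl))).trans ?_
  have hX17 : 0 ≤ X ^ (-(17 / 8) : ℝ) := by positivity
  have hna := norm_nonneg a
  have hnc : 8 ≤ ‖c‖ := h8.trans (Complex.re_le_norm c)
  set S := ‖a‖ + ‖c‖ with hS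
  have hS8 : 8 ≤ S := by linarith
  have hMS : M = 1 + S := by rw [hM, hS]; ring
  -- the constants
  have hfin : D * C₀ + D * C₀ ≤ Real.exp ((G + 10) * S) := by
    have h1 : D * C₀ + D * C₀ = G / 16 * (2 * (2 * M + 6)) * (Real.exp (Real.pi * ‖c‖) *
        Real.exp M) := by
      rw [hD, Kc, hG]; ring
    have h2 : 2 * (2 * M + 6) ≤ 16 * Real.exp S := by
      have := Real.add_one_le_exp S
      rw [hMS]; linarith
    have h3 : Real.exp (Real.pi * ‖c‖) ≤ Real.exp (4 * S) := by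
      apply Real.exp_le_exp.mpr
      have := Real.pi_le_four
      have h4 : 0 ≤ ‖c‖ := norm_nonneg c
      nlinarith
    have h4 : Real.exp M ≤ Real.exp (2 * S) := Real.exp_le_exp.mpr (by linarith)
    have h5 : G ≤ Real.exp (G * S) := by
      have := Real.add_one_le_exp (G * S)
      nlinarith
    rw [h1]
    calc G / 16 * (2 * (2 * M + 6)) * (Real.exp (Real.pi * ‖c‖) * Real.exp M)
        ≤ G / 16 * (16 * Real.exp S) * (Real.exp (4 * S) * Real.exp (2 * S)) := by gcongr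
      _ = G * (Real.exp S * (Real.exp (4 * S) * Real.exp (2 * S))) := by ring
      _ = G * Real.exp (7 * S) := by
          rw [← Real.exp_add, ← Real.exp_add]; ring_nf
      _ ≤ Real.exp (G * S) * Real.exp (7 * S) := by gcongr
      _ = Real.exp ((G + 7) * S) := by rw [← Real.exp_add]; ring_nf
      _ ≤ Real.exp ((G + 10) * S) := by
          apply Real.exp_le_exp.mpr
          nlinarith
  calc D * (X ^ (-(17 / 8) : ℝ) * C₀) + D * (X ^ (-(17 / 8) : ℝ) * C₀)
      = (D * C₀ + D * C₀) * X ^ (-(17 / 8) : ℝ) := by ring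
    _ ≤ Real.exp ((G + 10) * S) * X ^ (-(17 / 8) : ℝ) := by gcongr

end F4
end Pool.Agent.Lib.MP_973905_nt
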