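import Pool.Agent.Lib.MP_973905_nt.K1R.AllK1R
import Pool.Agent.Lib.MP_973905_nt.F4.Kl
import Pool.Agent.Lib.MP_973905_nt.F4.Inc
import Pool.Agent.Lib.MP_973905_nt.F4.Gz
import Pool.Agent.Lib.MP_973905_nt.F4.Gh
import Pool.Agent.Lib.MP_973905_nt.F4.Poi
import Pool.Agent.Lib.MP_973905_nt.F4.Beta
import Pool.Agent.Lib.MP_973905_nt.F4.Zero
import Pool.Agent.Lib.MP_973905_nt.F4.Off
import Pool.Agent.Lib.MP_973905_nt.F4.Pair
import Pool.Agent.Lib.MP_973905_nt.F4.RemIn
import Pool.Agent.Lib.MP_973905_nt.F4.Rem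
import Pool.Agent.Lib.MP_973905_nt.F4.Expand
import Pool.Agent.Lib.MP_973905_nt.F4.Co
import Pool.Agent.Lib.MP_973905_nt.F4.Right4
import Pool.Agent.Lib.MP_973905_nt.F4.Left4
import Pool.Agent.Lib.MP_973905_nt.F4.Grow
import Pool.Agent.Lib.MP_973905_nt.F4.Strip4
import Pool.Agent.Lib.MP_973905_nt.F4.Three
import Pool.Agent.Lib.MP_973905_nt.F4.Twist
import Pool.Agent.Lib.MP_973905_nt.F4.Rand4
import Pool.Agent.Lib.MP_973905_nt.F4.FB4
import Pool.Agent.Lib.MP_973905_nt.F4.Main4
import Pool.Agent.Lib.MP_973905_nt.F4.FFr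
import Pool.Agent.Lib.MP_973905_nt.F4.Afe
import Pool.Agent.Lib.MP_973905_nt.F4.Cr4
import Pool.Agent.Lib.MP_973905_nt.F4.Dy
import Pool.Agent.Lib.MP_973905_nt.F4.F4
import Pool.Agent.Lib.MP_973905_nt.F4.UpperR
import Pool.Agent.Lib.MP_973905_nt.F4.Final2

/-! Assembly of the joint limit theorem `k → 1` from both sides. -/

namespace Pool.Agent.Lib.MP_973905_nt.F4

open Pool.Agent.Lib.MP_973905_nt.K1

theorem stTwist_all : StTwist := by
  have n1 : StKl := stKl
  have n2 : StInc := stInc n1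
  have n3 : StGz := stGz
  have n4 : StGh := stGh n3
  have n5 : StPoi := stPoi n3 n4
  have n6 : StBeta := stBeta
  have n7 : StZero := stZero n6
  have n8 : StOff := stOff
  have n9 : StPair := stPair n4 n5 n7 n8
  have n10 : StRemIn := stRemIn n2 n4
  have z1 : StExpand := stExpand
  have z2 : StCo := stCo
  have n11 : StRem := stRem n4 n10 z2
  have z3 : StRight4 := stRight4 n9 n11 z1 z2
  have z4 : StLeft4 := stLeft4
  have z5 : StGrow := stGrow
  have z6 : StStrip4 := stStrip4 z5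
  have z7 : StThree := stThree z3 z4 z5 z6 z2
  exact stTwist z7 z6 z2

theorem stMain4_all : StMain4 := stMain4 stRand4 stFB4 stCo

theorem stAfe_all : StAfe := stAfe stFFr

theorem stCr4_all : StCr4 := stCr4 stTwist_all stAfe_all stCo

theorem stDy_all : StDy := stDy stTwist_all stAfe_all stMain4_all stCo

/-- The mollified fourth moment on `[0, T]`. -/
theorem stF4_all : StF4 := stF4 stDy_all stCr4_all

/-- The mollified fourth moment, Gaussian mean. -/
theorem stF4K2_all : K2.StF4 := stF4K2 stDy_all stCr4_all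

/-- The Keating-Snaith formula in the joint limit `T → ∞`, `k → 1`. -/
theorem final2 : StFinal2 := by
  have h3 := stZetaPair stShift
  have h6 := stRight h3 stRBound stFin
  have h7 := stLeft stFFpair stRBound
  have h9 := stExact stFin h6 h7 stStrip
  have h12 := K1R.stRAR stLF K1R.stLFR (K1R.stBlockShiftR K1R.stLFR)
  have h15 := K1R.stSecondR stFin h9 h12 stShort
  have h22 := K1R.stLowerR stShort K1R.stCrudeR h15 (K1R.stProdR K1R.stProdRM stShort) stAvg stAvgUp
  exact stFinal2 (stUpperR stF4_all) h22 K1R.stCKR K1.final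

end Pool.Agent.Lib.MP_973905_nt.F4
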