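import Pool.Agent.Lib.MP_973905_nt.K1.ThreeLines
import Pool.Agent.Lib.MP_973905_nt.K1.FourierG
import Pool.Agent.Lib.MP_0e0027_nt.Kloosterman

/-! Definitions for the mollified fourth moment and the joint limit `T → ∞`, `k → 1+`. -/

namespace Pool.Agent.Lib.MP_973905_nt
namespace F4

open MeasureTheory ProbabilityTheory Complex Filter Topology K1

/-- The weight `X⁻¹ (t/X)^{c-1} e^{-t/X}` on `(0, ∞)`. -/
noncomputable def Wt (X : ℝ) (c : ℂ) (t : ℝ) : ℂ :=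
  (X : ℂ)⁻¹ * ((t / X : ℝ) : ℂ) ^ (c - 1) * cexp (-((t / X : ℝ) : ℂ))

/-- The Fourier transform of the weight: `Γ(c) (1 + i X u)^{-c}`. -/
noncomputable def KX (X : ℝ) (c : ℂ) (u : ℝ) : ℂ := Gamma c * (1 + ((X * u : ℝ) : ℂ) * I) ^ (-c)

/-- A Dirichlet polynomial at `1/2 + it`. -/
noncomputable def HP (N : ℕ) (b : ℕ → ℂ) (t : ℝ) : ℂ :=
  ∑ n ∈ Finset.Icc 1 N, b n * fs (1 / 2 + t * I) n

/-- The shifted twisted second moment with the weight `Wt`. -/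
noncomputable def Jt (X : ℝ) (c : ℂ) (N : ℕ) (b : ℕ → ℂ) (a : ℂ) : ℂ :=
  ∫ t in Set.Ioi (0 : ℝ), riemannZeta (1 / 2 + a + t * I) * riemannZeta (1 / 2 + a - t * I) *
    (HP N b t * (starRingEnd ℂ) (HP N b t)) * Wt X c t

/-- The same without the poles of the zeta function. -/
noncomputable def Js (X : ℝ) (c : ℂ) (N : ℕ) (b : ℕ → ℂ) (a : ℂ) : ℂ :=
  ∫ t in Set.Ioi (0 : ℝ), riemannZeta₁ (1 / 2 + a + t * I) * riemannZeta₁ (1 / 2 + a - t * I) *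
    (HP N b t * (starRingEnd ℂ) (HP N b t)) * ((t : ℂ) ^ 2)⁻¹ * Wt X c t

/-- The main term of `Jt`. -/
noncomputable def Mt (X : ℝ) (c : ℂ) (N : ℕ) (b : ℕ → ℂ) (a : ℂ) : ℂ :=
  Gamma c * (riemannZeta (1 + 2 * a) * ThreeLines.RF N b a) +
    ((X / (2 * Real.pi) : ℝ) : ℂ) ^ (-(2 * a)) *
      (Gamma (c - 2 * a) * (riemannZeta (1 - 2 * a) * ThreeLines.RF N b (-a)))

/-- The main term of `Js`. -/
noncomputable def Ms (X : ℝ) (c : ℂ) (N : ℕ) (b : ℕ → ℂ) (a : ℂ) : ℂ :=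
  Mt X c N b a + (1 / 2 - a) ^ 2 * ((X : ℂ) ^ 2)⁻¹ * Mt X (c - 2) N b a

/-- Smooth cutoff: `1` on `[-1, 0.5005]`, `0` outside `[-2, 0.501]`. -/
noncomputable def Vc (x : ℝ) : ℝ :=
  Real.smoothTransition (1002 - 2000 * x) * Real.smoothTransition (x + 2)

/-- Coefficients of the smooth polynomial `Q(s + 1/log T + iν)`. -/
noncomputable def qc (T ν : ℝ) (n : ℕ) : ℂ :=
  (Vc (Real.log n / Real.log T) : ℂ) * (n : ℂ) ^ (-(((1 / Real.log T : ℝ) : ℂ) + ν * I))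

/-- Dirichlet convolution of `qc` with `b`. -/
noncomputable def cH (T ν : ℝ) (b : ℕ → ℂ) (n : ℕ) : ℂ :=
  ∑ x ∈ n.divisorsAntidiagonal, qc T ν x.1 * b x.2

/-- The length of the product polynomial. -/
noncomputable def Nh (T : ℝ) : ℕ := ⌊T ^ (51 / 100 : ℝ)⌋₊

/-- The length of the short polynomial. -/
noncomputable def Na (T : ℝ) : ℕ := ⌊T ^ (1 / 1000 : ℝ)⌋₊

/-- `b` is the coefficient sequence of a short polynomial. -/
def Sh (T : ℝ) (b : ℕ → ℂ) : Prop :=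
  (∀ n : ℕ, Na T < n → b n = 0) ∧ ∑ n ∈ Finset.Icc 1 (Na T), ‖b n‖ ≤ T ^ (1 / 1000 : ℝ)

/-- `∑_{x mod k, x h ≡ r mod k} e(j x / k)`. -/
noncomputable def rho (k h : ℕ) (r j : ℤ) : ℂ :=
  ∑ x ∈ Finset.range k, if (k : ℤ) ∣ (x : ℤ) * h - r then
    cexp (((2 * Real.pi * j * x / k : ℝ) : ℂ) * I) else 0

/-- The double series attached to a pair `(h, k)`. -/
noncomputable def Fp (X : ℝ) (a c : ℂ) (h k : ℕ) : ℂ :=
  ∑' p : ℕ × ℕ, ((p.1 * p.2 : ℕ) : ℂ) ^ (-(1 / 2 + a)) *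
    KX X c (Real.log ((p.1 * h : ℕ) / (p.2 * k : ℕ) : ℝ))

/-- The function of `z = m h / R` for the solutions of `m h - n k = e R`. -/
noncomputable def Gz (X : ℝ) (a c : ℂ) (e : ℤ) (z : ℝ) : ℂ :=
  (Real.smoothTransition (z - 2) : ℂ) * ((z * (z - e) : ℝ) : ℂ) ^ (-(1 / 2 + a)) *
    KX X c (Real.log (z / (z - e)))

/-- The Fourier transform of `Gz`. -/
noncomputable def Gh (X : ℝ) (a c : ℂ) (e : ℤ) (l : ℝ) : ℂ :=
  ∫ z : ℝ, cexp ((((-2 * Real.pi * z * l : ℝ)) : ℂ) * I) * Gz X a c e z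

/-- The nonzero frequencies. -/
noncomputable def Rm (X : ℝ) (a c : ℂ) (h k : ℕ) : ℂ :=
  ∑ e ∈ ({1, -1} : Finset ℤ), ∑' R : ℕ, (((R + 1 : ℕ) : ℂ) ^ (-(2 * a)) *
    ∑' j : ℤ, if j = 0 then 0 else
      rho k h (e * (R + 1)) j * Gh X a c e (j * (R + 1) / (h * k)))

end F4
end Pool.Agent.Lib.MP_973905_nt
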