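import Pool.Agent.Lib.MP_973905_nt.F4.Stmts

/-! The factor of the functional equation far to the right. -/

namespace Pool.Agent.Lib.MP_973905_nt
namespace F4

open MeasureTheory ProbabilityTheory Complex Filter Topology K1

namespace FFr

lemma FF_add_two {z : ℂ} (h0 : z ≠ 0) (h1 : z + 1 ≠ 0) :
    FF (z + 2) = FF z * (-(z * (z + 1)) / (2 * Real.pi) ^ 2) := by
  have e1 : (2 * Real.pi : ℂ) ^ (-(z + 2)) = (2 * Real.pi : ℂ) ^ (-z) * ((2 * Real.pi : ℂ) ^ 2)⁻¹ := by
    rw [neg_add, cpow_add _ _ two_pi_ne]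
    congr 1
    rw [cpow_neg]
    congr 1
    exact cpow_ofNat _ 2
  have e2 : cos (Real.pi * (z + 2) / 2) = -cos (Real.pi * z / 2) := by
    rw [show (Real.pi * (z + 2) / 2 : ℂ) = Real.pi * z / 2 + Real.pi by ring]
    exact Complex.cos_add_pi _
  have e3 : Gamma (z + 2) = (z + 1) * (z * Gamma z) := by
    rw [show z + 2 = (z + 1) + 1 by ring, Gamma_add_one _ h1, Gamma_add_one _ h0]
  unfold FF
  rw [e1, e2, e3]
  ring

end FFr

/-- (A1) the factor of the functional equation far to the right -/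
theorem stFFr : StFFr := by
  intro r
  induction r with
  | zero =>
    refine ⟨1, one_pos, fun u => ?_⟩
    have h := FF_half u
    have e : (1 / 2 + 2 * ((0 : ℕ) : ℂ) + u * I : ℂ) = ((1 / 2 : ℝ) : ℂ) + u * I := by
      push_cast
      ring
    rw [e, h]
    simp
  | succ r ih =>
    obtain ⟨C, hC, h⟩ := ih
    refine ⟨C * (2 * r + 2) ^ 2, by positivity, fun u => ?_⟩
    set z : ℂ := 1 / 2 + 2 * (r : ℂ) + u * I with hz
    have e : (1 / 2 + 2 * ((r + 1 : ℕ) : ℂ) + u * I : ℂ) = z + 2 := by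
      rw [hz]
      push_cast
      ring
    have hre : z.re = 1 / 2 + 2 * r := by simp [hz]
    have h0 : z ≠ 0 := by
      intro h'
      have := congrArg re h'
      rw [hre] at this
      simp only [zero_re] at this
      have hr : (0 : ℝ) ≤ r := Nat.cast_nonneg r
      linarith
    have h1 : z + 1 ≠ 0 := by
      intro h'
      have := congrArg re h'
      rw [add_re, hre] at this
      simp only [zero_re, one_re] at this
      have hr : (0 : ℝ) ≤ r := Nat.cast_nonneg r
      linarith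
    rw [e, FFr.FF_add_two h0 h1, norm_mul]
    have hz1 : ‖z‖ ≤ (2 * r + 2) * (1 + |u|) := by
      have h2 := Complex.norm_le_abs_re_add_abs_im z
      have him : z.im = u := by simp [hz]
      rw [hre, him, abs_of_nonneg (by positivity)] at h2
      have hu := abs_nonneg u
      have hr : (0 : ℝ) ≤ r := Nat.cast_nonneg r
      nlinarith [mul_nonneg hr hu]
    have hz2 : ‖z + 1‖ ≤ (2 * r + 2) * (1 + |u|) := by
      have h2 := Complex.norm_le_abs_re_add_abs_im (z + 1)
      have him : (z + 1).im = u := by simp [hz]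
      have hre1 : (z + 1).re = 3 / 2 + 2 * r := by rw [add_re, hre]; simp; ring
      rw [hre1, him, abs_of_nonneg (by positivity)] at h2
      have hu := abs_nonneg u
      have hr : (0 : ℝ) ≤ r := Nat.cast_nonneg r
      nlinarith [mul_nonneg hr hu]
    have h2 : ‖-(z * (z + 1)) / (2 * Real.pi : ℂ) ^ 2‖ ≤ ((2 * r + 2) * (1 + |u|)) ^ 2 := by
      rw [norm_div, norm_neg, norm_mul, norm_pow]
      have h5 : ‖(2 * Real.pi : ℂ)‖ = 2 * Real.pi := by
        rw [norm_mul, Complex.norm_real, Real.norm_eq_abs, abs_of_pos Real.pi_pos]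
        simp
      rw [h5]
      have h6 : (1 : ℝ) ≤ (2 * Real.pi) ^ 2 := by
        have := Real.pi_gt_three
        nlinarith
      calc ‖z‖ * ‖z + 1‖ / (2 * Real.pi) ^ 2 ≤ ‖z‖ * ‖z + 1‖ :=
            div_le_self (by positivity) h6
        _ ≤ ((2 * r + 2) * (1 + |u|)) * ((2 * r + 2) * (1 + |u|)) := by gcongr
        _ = _ := by ring
    calc ‖FF z‖ * ‖-(z * (z + 1)) / (2 * Real.pi : ℂ) ^ 2‖
        ≤ (C * (1 + |u|) ^ (2 * r)) * ((2 * r + 2) * (1 + |u|)) ^ 2 := by
          gcongr
          exact h u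
      _ = C * (2 * r + 2) ^ 2 * (1 + |u|) ^ (2 * (r + 1)) := by
          rw [mul_pow, show 2 * (r + 1) = 2 * r + 2 by ring, pow_add]
          ring

end F4
end Pool.Agent.Lib.MP_973905_nt
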