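import Pool.Agent.Lib.MP_973905_nt.F4.Stmts

/-! Bounds for the kernel `KX`. -/

namespace Pool.Agent.Lib.MP_973905_nt
namespace F4

open MeasureTheory ProbabilityTheory Complex Filter Topology K1

namespace KXb

lemma KX_zero (X : ℝ) (c : ℂ) : KX X c 0 = Gamma c := by
  simp [KX]

lemma one_le_norm (y : ℝ) : 1 ≤ ‖1 + (y : ℂ) * I‖ := by
  have h := abs_re_le_norm (1 + (y : ℂ) * I)
  simpa using h

lemma abs_le_norm (y : ℝ) : |y| ≤ ‖1 + (y : ℂ) * I‖ := by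
  have h := abs_im_le_norm (1 + (y : ℂ) * I)
  simpa using h

lemma norm_Gamma16 {c : ℂ} (h1 : 8 ≤ c.re) (h2 : c.re ≤ 16) : ‖Gamma c‖ ≤ Real.exp 28 := by
  refine (norm_Gamma_le (by linarith)).trans ?_
  have h3 : Real.Gamma c.re ≤ Real.Gamma 16 :=
    Real.Gamma_strictMonoOn_Ici.monotoneOn (by simp; linarith) (by simp; norm_num) h2
  have h4 : Real.Gamma 16 = 1307674368000 := by
    rw [show (16 : ℝ) = ((15 : ℕ) : ℝ) + 1 by norm_num, Real.Gamma_nat_eq_factorial]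
    norm_num [Nat.factorial]
  have h5 : (1307674368000 : ℝ) ≤ Real.exp 28 := by
    have h6 : (2.71 : ℝ) ≤ Real.exp 1 := by
      have := Real.exp_one_gt_d9
      linarith
    have h7 : (2.71 : ℝ) ^ 28 ≤ Real.exp 1 ^ 28 := pow_le_pow_left₀ (by norm_num) h6 28
    rw [← Real.exp_nat_mul] at h7
    norm_num at h7
    refine le_trans (by norm_num) h7
  linarith

/-- The kernel bound with the full exponent. -/
lemma norm_KX_le' {c : ℂ} (h1 : 8 ≤ c.re) (h2 : c.re ≤ 16) (X u : ℝ) :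
    ‖KX X c u‖ ≤ Real.exp (28 + 4 * ‖c‖) * ‖1 + ((X * u : ℝ) : ℂ) * I‖ ^ (-c.re) := by
  have h3 := one_le_norm (X * u)
  have h4 : (1 + ((X * u : ℝ) : ℂ) * I) ≠ 0 := by
    intro h
    rw [h, norm_zero] at h3
    linarith
  rw [KX, norm_mul, norm_cpow_of_ne_zero h4, Real.exp_add, div_eq_mul_inv, ← Real.exp_neg]
  have h5 : Real.exp (-(arg (1 + ((X * u : ℝ) : ℂ) * I) * (-c).im)) ≤ Real.exp (4 * ‖c‖) := by
    apply Real.exp_le_exp.2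
    have h6 := abs_arg_le_pi (1 + ((X * u : ℝ) : ℂ) * I)
    have h7 : |(-c).im| ≤ ‖c‖ := by
      rw [neg_im, abs_neg]; exact abs_im_le_norm c
    calc -(arg (1 + ((X * u : ℝ) : ℂ) * I) * (-c).im)
        ≤ |arg (1 + ((X * u : ℝ) : ℂ) * I) * (-c).im| := neg_le_abs _
      _ = |arg (1 + ((X * u : ℝ) : ℂ) * I)| * |(-c).im| := abs_mul _ _
      _ ≤ Real.pi * ‖c‖ := by gcongr
      _ ≤ 4 * ‖c‖ := by
          have := Real.pi_le_four
          gcongr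
  have h8 := norm_Gamma16 h1 h2
  rw [neg_re]
  calc ‖Gamma c‖ * (‖1 + ((X * u : ℝ) : ℂ) * I‖ ^ (-c.re) *
        Real.exp (-(arg (1 + ((X * u : ℝ) : ℂ) * I) * (-c).im)))
      ≤ Real.exp 28 * (‖1 + ((X * u : ℝ) : ℂ) * I‖ ^ (-c.re) * Real.exp (4 * ‖c‖)) := by gcongr
    _ = _ := by ring

/-- The kernel bound with exponent `8`. -/
lemma norm_KX_le8 {c : ℂ} (h1 : 8 ≤ c.re) (h2 : c.re ≤ 16) (X u : ℝ) :
    ‖KX X c u‖ ≤ Real.exp (28 + 4 * ‖c‖) * ‖1 + ((X * u : ℝ) : ℂ) * I‖ ^ (-8 : ℝ) := by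
  refine (norm_KX_le' h1 h2 X u).trans ?_
  have h3 := one_le_norm (X * u)
  gcongr

lemma norm_KX_le {c : ℂ} (h1 : 8 ≤ c.re) (h2 : c.re ≤ 16) (X u : ℝ) :
    ‖KX X c u‖ ≤ Real.exp (28 + 4 * ‖c‖) := by
  refine (norm_KX_le8 h1 h2 X u).trans ?_
  have h3 := one_le_norm (X * u)
  have h4 : ‖1 + ((X * u : ℝ) : ℂ) * I‖ ^ (-8 : ℝ) ≤ 1 :=
    Real.rpow_le_one_of_one_le_of_nonpos h3 (by norm_num)
  calc _ ≤ Real.exp (28 + 4 * ‖c‖) * 1 := by gcongr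
    _ = _ := mul_one _

/-- The kernel far from zero. -/
lemma norm_KX_far {c : ℂ} (h1 : 8 ≤ c.re) (h2 : c.re ≤ 16) {X u : ℝ} (hX : 0 < X) (hu : u ≠ 0) :
    ‖KX X c u‖ ≤ Real.exp (28 + 4 * ‖c‖) * (X * |u|) ^ (-8 : ℝ) := by
  refine (norm_KX_le8 h1 h2 X u).trans ?_
  have h3 : X * |u| ≤ ‖1 + ((X * u : ℝ) : ℂ) * I‖ := by
    have := abs_le_norm (X * u)
    rwa [abs_mul, abs_of_pos hX] at this
  have h4 : 0 < X * |u| := mul_pos hX (abs_pos.2 hu)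
  have h5 : ‖1 + ((X * u : ℝ) : ℂ) * I‖ ^ (-8 : ℝ) ≤ (X * |u|) ^ (-8 : ℝ) :=
    Real.rpow_le_rpow_of_nonpos h4 h3 (by norm_num)
  gcongr

lemma slit (y : ℝ) : (1 + (y : ℂ) * I) ∈ slitPlane := by
  left
  simp

lemma continuous_KX (X : ℝ) (c : ℂ) : Continuous (KX X c) := by
  unfold KX
  refine continuous_const.mul ?_
  refine Continuous.cpow (by fun_prop) continuous_const ?_
  intro u
  exact slit _

end KXb

end F4
end Pool.Agent.Lib.MP_973905_nt
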