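import Pool.Agent.Lib.MP_973905_nt.F4.Stmts

/-! (N11) all nonzero frequencies together. -/

namespace Pool.Agent.Lib.MP_973905_nt
namespace F4

open MeasureTheory ProbabilityTheory Complex Filter Topology K1

namespace RemP

theorem norm_rho_le (k h : ℕ) (r j : ℤ) : ‖rho k h r j‖ ≤ k := by
  unfold rho
  refine (norm_sum_le _ _).trans ?_
  have : ∀ x ∈ Finset.range k, ‖(if (k : ℤ) ∣ (x : ℤ) * h - r then
      cexp (((2 * Real.pi * j * x / k : ℝ) : ℂ) * I) else 0)‖ ≤ 1 := by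
    intro x _
    split_ifs
    · rw [Complex.norm_exp_ofReal_mul_I]
    · simp
  refine (Finset.sum_le_sum this).trans ?_
  simp

theorem summable_int (s : ℝ) (hs : 1 < s) :
    Summable fun j : ℤ => if j = 0 then (0 : ℝ) else |(j : ℝ)| ^ (-s) := by
  have h : Summable fun j : ℤ => |(j : ℝ)| ^ (-s) := Real.summable_abs_int_rpow hs
  refine Summable.of_nonneg_of_le (fun j => ?_) (fun j => ?_) h
  · split_ifs <;> positivity
  · split_ifs <;> [positivity; rfl]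

/-- One frequency term. -/
noncomputable def Ft (X : ℝ) (a c : ℂ) (d k : ℕ) (n : ℕ) (e : ℤ) (R : ℕ) (j : ℤ) : ℂ :=
  if j = 0 then 0 else
    rho k (n * d) (e * (R + 1)) j * Gh X a c e (j * (R + 1) / ((n * d : ℕ) * k))

theorem norm_Ft {X E : ℝ} {a c : ℂ}
    (hG : ∀ e : ℤ, e = 1 ∨ e = -1 → ∀ l : ℝ, l ≠ 0 → ‖Gh X a c e l‖ ≤ E / l ^ 2)
    {d k n : ℕ} (hd : 1 ≤ d) (hk : 1 ≤ k) (hn : 1 ≤ n) {e : ℤ} (he : e = 1 ∨ e = -1)
    (R : ℕ) (j : ℤ) :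
    ‖Ft X a c d k n e R j‖ ≤ (k * E * (n * d * k) ^ 2) * (((R : ℝ) + 1) ^ (-2 : ℝ) *
      (if j = 0 then (0 : ℝ) else |(j : ℝ)| ^ (-2 : ℝ))) := by
  unfold Ft
  split_ifs with hj
  · simp
  · have hk0 : (0 : ℝ) < k := by exact_mod_cast hk
    have hd0 : (0 : ℝ) < d := by exact_mod_cast hd
    have hn0 : (0 : ℝ) < n := by exact_mod_cast hn
    have hj0 : (j : ℝ) ≠ 0 := by exact_mod_cast hj
    have hj1 : 0 < |(j : ℝ)| := abs_pos.mpr hj0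
    have hR : (0 : ℝ) < (R : ℝ) + 1 := by positivity
    have hl : (j : ℝ) * (R + 1) / (((n * d : ℕ) : ℝ) * k) ≠ 0 := by
      push_cast
      positivity
    rw [norm_mul]
    calc ‖rho k (n * d) (e * (R + 1)) j‖ * ‖Gh X a c e (j * (R + 1) / ((n * d : ℕ) * k))‖ ≤
        k * (E / ((j : ℝ) * (R + 1) / (((n * d : ℕ) : ℝ) * k)) ^ 2) := by
          gcongr
          · exact norm_rho_le _ _ _ _
          · exact hG e he _ hl
      _ = _ := by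
          rw [Real.rpow_neg hR.le, Real.rpow_neg hj1.le, Real.rpow_two, Real.rpow_two, sq_abs]
          push_cast
          field_simp

/-- The constant of the sums over the frequencies. -/
noncomputable def K0 : ℝ := 2 * ((∑' R : ℕ, ((R : ℝ) + 1) ^ (-(15 / 8) : ℝ)) *
  ∑' j : ℤ, if j = 0 then (0 : ℝ) else |(j : ℝ)| ^ (-(7 / 4) : ℝ))

theorem summable_R (s : ℝ) (hs : 1 < s) : Summable fun R : ℕ => ((R : ℝ) + 1) ^ (-s) := by
  have h := (summable_nat_add_iff 1).mpr (Real.summable_nat_rpow.mpr (by linarith : -s < -1))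
  simpa using h

theorem K0_nonneg : 0 ≤ K0 := by
  unfold K0
  refine mul_nonneg (by norm_num) (mul_nonneg (tsum_nonneg fun R => by positivity)
    (tsum_nonneg fun j => ?_))
  split_ifs <;> positivity

theorem Rm_sum {X E : ℝ} {a c : ℂ} (hae : a.re = 9 / 16)
    (hG : ∀ e : ℤ, e = 1 ∨ e = -1 → ∀ l : ℝ, l ≠ 0 → ‖Gh X a c e l‖ ≤ E / l ^ 2)
    (u : ℕ → ℂ) (d k N : ℕ) (hd : 1 ≤ d) (hk : 1 ≤ k) (W : ℝ)
    (hW : ∀ e : ℤ, e = 1 ∨ e = -1 → ∀ R : ℕ, 1 ≤ R → ∀ j : ℤ, j ≠ 0 →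
      ‖∑ n ∈ Finset.Icc 1 N, u n * ((n * d * k : ℕ) : ℂ) ^ (a - 1) *
        (rho k (n * d) (e * R) j * Gh X a c e (j * R / ((n * d : ℕ) * k)))‖ ≤
        W * |(j : ℝ)| ^ (-(7 / 4) : ℝ) * (R : ℝ) ^ (-(3 / 4) : ℝ)) :
    ‖∑ n ∈ Finset.Icc 1 N, u n * ((n * d * k : ℕ) : ℂ) ^ (a - 1) * Rm X a c (n * d) k‖ ≤
      K0 * W := by
  have hW0 : 0 ≤ W := by
    have := (norm_nonneg _).trans (hW 1 (Or.inl rfl) 1 le_rfl 1 one_ne_zero)
    simpa using this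
  -- summability
  have hs1 : ∀ n ∈ Finset.Icc 1 N, ∀ e : ℤ, e = 1 ∨ e = -1 → ∀ R : ℕ,
      Summable fun j : ℤ => Ft X a c d k n e R j := by
    intro n hn e he R
    refine Summable.of_norm_bounded ?_ (fun j => norm_Ft hG hd hk (Finset.mem_Icc.mp hn).1 he R j)
    exact ((summable_int 2 (by norm_num)).mul_left _).mul_left _
  have hs2 : ∀ n ∈ Finset.Icc 1 N, ∀ e : ℤ, e = 1 ∨ e = -1 →
      Summable fun R : ℕ => ((R + 1 : ℕ) : ℂ) ^ (-(2 * a)) * ∑' j : ℤ, Ft X a c d k n e R j := by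
    intro n hn e he
    refine Summable.of_norm_bounded (g := fun R : ℕ => ((R : ℝ) + 1) ^ (-(2 : ℝ)) *
      ((k * E * (n * d * k) ^ 2) *
        ∑' j : ℤ, (if j = 0 then (0 : ℝ) else |(j : ℝ)| ^ (-2 : ℝ))))
      ((summable_R 2 (by norm_num)).mul_right _) (fun R => ?_)
    rw [norm_mul]
    have h1 : ‖((R + 1 : ℕ) : ℂ) ^ (-(2 * a))‖ ≤ 1 := by
      rw [Complex.norm_natCast_cpow_of_pos (by omega)]
      refine Real.rpow_le_one_of_one_le_of_nonpos (by push_cast; linarith [Nat.cast_nonneg (α := ℝ) R]) ?_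
      simp [hae]
      norm_num
    have h2 : ‖∑' j : ℤ, Ft X a c d k n e R j‖ ≤ (k * E * (n * d * k) ^ 2) *
        (((R : ℝ) + 1) ^ (-2 : ℝ) *
          ∑' j : ℤ, (if j = 0 then (0 : ℝ) else |(j : ℝ)| ^ (-2 : ℝ))) := by
      refine tsum_of_norm_bounded ?_
        (fun j => norm_Ft hG hd hk (Finset.mem_Icc.mp hn).1 he R j)
      exact (((summable_int 2 (by norm_num)).hasSum).mul_left _).mul_left _
    calc ‖((R + 1 : ℕ) : ℂ) ^ (-(2 * a))‖ * ‖∑' j : ℤ, Ft X a c d k n e R j‖ ≤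
        1 * ((k * E * (n * d * k) ^ 2) * (((R : ℝ) + 1) ^ (-2 : ℝ) *
          ∑' j : ℤ, (if j = 0 then (0 : ℝ) else |(j : ℝ)| ^ (-2 : ℝ)))) := by gcongr
      _ = _ := by ring
  -- exchange
  have hRm : ∀ n : ℕ, Rm X a c (n * d) k = ∑ e ∈ ({1, -1} : Finset ℤ), ∑' R : ℕ,
      (((R + 1 : ℕ) : ℂ) ^ (-(2 * a)) * ∑' j : ℤ, Ft X a c d k n e R j) := by
    intro n
    unfold Rm Ft
    push_cast
    rfl
  have hmem : ∀ e ∈ ({1, -1} : Finset ℤ), e = 1 ∨ e = -1 := by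
    intro e he
    simpa using he
  have hex : ∑ n ∈ Finset.Icc 1 N, u n * ((n * d * k : ℕ) : ℂ) ^ (a - 1) * Rm X a c (n * d) k =
      ∑ e ∈ ({1, -1} : Finset ℤ), ∑' R : ℕ, (((R + 1 : ℕ) : ℂ) ^ (-(2 * a)) *
        ∑' j : ℤ, ∑ n ∈ Finset.Icc 1 N, u n * ((n * d * k : ℕ) : ℂ) ^ (a - 1) *
          Ft X a c d k n e R j) := by
    simp_rw [hRm, Finset.mul_sum]
    rw [Finset.sum_comm]
    refine Finset.sum_congr rfl fun e he => ?_
    have he' := hmem e he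
    have h1 : ∀ R : ℕ, ∑' j : ℤ, ∑ n ∈ Finset.Icc 1 N, u n * ((n * d * k : ℕ) : ℂ) ^ (a - 1) *
        Ft X a c d k n e R j = ∑ n ∈ Finset.Icc 1 N, u n * ((n * d * k : ℕ) : ℂ) ^ (a - 1) *
          ∑' j : ℤ, Ft X a c d k n e R j := by
      intro R
      rw [Summable.tsum_finsetSum (fun n hn => (hs1 n hn e he' R).mul_left _)]
      refine Finset.sum_congr rfl fun n _ => ?_
      rw [tsum_mul_left]
    simp_rw [h1, Finset.mul_sum]
    rw [Summable.tsum_finsetSum]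
    · refine Finset.sum_congr rfl fun n _ => ?_
      rw [← tsum_mul_left]
      refine tsum_congr fun R => ?_
      ring
    · intro n hn
      have := (hs2 n hn e he').mul_left (u n * ((n * d * k : ℕ) : ℂ) ^ (a - 1))
      refine this.congr fun R => ?_
      ring
  rw [hex]
  -- bounds
  have hj : ∀ e : ℤ, e = 1 ∨ e = -1 → ∀ R : ℕ, ‖∑' j : ℤ, ∑ n ∈ Finset.Icc 1 N,
      u n * ((n * d * k : ℕ) : ℂ) ^ (a - 1) * Ft X a c d k n e R j‖ ≤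
      W * ((R : ℝ) + 1) ^ (-(3 / 4) : ℝ) *
        ∑' j : ℤ, if j = 0 then (0 : ℝ) else |(j : ℝ)| ^ (-(7 / 4) : ℝ) := by
    intro e he R
    refine tsum_of_norm_bounded (((summable_int (7 / 4) (by norm_num)).hasSum).mul_left
      (W * ((R : ℝ) + 1) ^ (-(3 / 4) : ℝ))) (fun j => ?_)
    unfold Ft
    split_ifs with h0
    · simp
    · have := hW e he (R + 1) (by omega) j h0
      push_cast at this ⊢
      refine this.trans (le_of_eq ?_)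
      ring
  have hR : ∀ e : ℤ, e = 1 ∨ e = -1 → ‖∑' R : ℕ, (((R + 1 : ℕ) : ℂ) ^ (-(2 * a)) *
        ∑' j : ℤ, ∑ n ∈ Finset.Icc 1 N, u n * ((n * d * k : ℕ) : ℂ) ^ (a - 1) *
          Ft X a c d k n e R j)‖ ≤ (∑' R : ℕ, ((R : ℝ) + 1) ^ (-(15 / 8) : ℝ)) * (W *
        ∑' j : ℤ, if j = 0 then (0 : ℝ) else |(j : ℝ)| ^ (-(7 / 4) : ℝ)) := by
    intro e he
    refine tsum_of_norm_bounded (((summable_R (15 / 8) (by norm_num)).hasSum).mul_right _)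
      (fun R => ?_)
    have hR0 : (0 : ℝ) < (R : ℝ) + 1 := by positivity
    rw [norm_mul, Complex.norm_natCast_cpow_of_pos (by omega)]
    have h3 : (-(2 * a)).re = -(9 / 8) := by simp [hae]; norm_num
    rw [h3]
    refine (mul_le_mul_of_nonneg_left (hj e he R) (by positivity)).trans (le_of_eq ?_)
    have h4 : ((R : ℝ) + 1) ^ (-(15 / 8) : ℝ) =
        ((R : ℝ) + 1) ^ (-(9 / 8) : ℝ) * ((R : ℝ) + 1) ^ (-(3 / 4) : ℝ) := by
      rw [← Real.rpow_add hR0]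
      norm_num
    push_cast
    rw [h4]
    ring
  refine (norm_sum_le _ _).trans ((Finset.sum_le_sum fun e he => hR e (hmem e he)).trans ?_)
  rw [Finset.sum_const, nsmul_eq_mul]
  refine le_of_eq ?_
  have : (({1, -1} : Finset ℤ).card : ℝ) = 2 := by
    rw [Finset.card_pair (by norm_num)]; norm_num
  rw [this]
  unfold K0
  ring

/-- All pairs together. `u` is the smooth part and `ck` an arbitrary sequence. -/
theorem total {X E : ℝ} {a c : ℂ} (hae : a.re = 9 / 16)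
    (hG : ∀ e : ℤ, e = 1 ∨ e = -1 → ∀ l : ℝ, l ≠ 0 → ‖Gh X a c e l‖ ≤ E / l ^ 2)
    (u b ck : ℕ → ℂ) (N Nd Nk : ℕ) (Z Y : ℝ) (hY : 0 ≤ Y)
    (hW : ∀ e : ℤ, e = 1 ∨ e = -1 → ∀ d k R : ℕ, 1 ≤ d → 1 ≤ k → 1 ≤ R → ∀ j : ℤ, j ≠ 0 →
      ‖∑ n ∈ Finset.Icc 1 N, u n * ((n * d * k : ℕ) : ℂ) ^ (a - 1) *
        (rho k (n * d) (e * R) j * Gh X a c e (j * R / ((n * d : ℕ) * k)))‖ ≤
        Z * ((Y * d * k) ^ (25 / 16 : ℝ) * (Y / k + 1) *
        (k : ℝ) ^ (3 / 4 + 1 / 500 : ℝ) * d) * |(j : ℝ)| ^ (-(7 / 4) : ℝ) *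
          (R : ℝ) ^ (-(3 / 4) : ℝ)) :
    ‖∑ d ∈ Finset.Icc 1 Nd, ∑ k ∈ Finset.Icc 1 Nk, b d * ck k * ∑ n ∈ Finset.Icc 1 N,
      u n * ((n * d * k : ℕ) : ℂ) ^ (a - 1) * Rm X a c (n * d) k‖ ≤
      K0 * Z * Y ^ (25 / 16 : ℝ) *
        ((∑ d ∈ Finset.Icc 1 Nd, ‖b d‖ * (d : ℝ) ^ (41 / 16 : ℝ)) *
        ∑ k ∈ Finset.Icc 1 Nk, ‖ck k‖ * ((Y / k + 1) *
          (k : ℝ) ^ (25 / 16 + 3 / 4 + 1 / 500 : ℝ))) := by
  rw [Finset.sum_mul_sum, Finset.mul_sum]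
  refine (norm_sum_le _ _).trans (Finset.sum_le_sum fun d hd => ?_)
  rw [Finset.mul_sum]
  refine (norm_sum_le _ _).trans (Finset.sum_le_sum fun k hk => ?_)
  rw [Finset.mem_Icc] at hd hk
  have hk0 : (0 : ℝ) < k := by exact_mod_cast hk.1
  have hd0 : (0 : ℝ) < d := by exact_mod_cast hd.1
  have h1 := Rm_sum (X := X) (c := c) hae hG u d k N hd.1 hk.1
    (Z * ((Y * d * k) ^ (25 / 16 : ℝ) * (Y / k + 1) * (k : ℝ) ^ (3 / 4 + 1 / 500 : ℝ) * d))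
    (fun e he R hR j hj => hW e he d k R hd.1 hk.1 hR j hj)
  rw [norm_mul, norm_mul]
  refine (mul_le_mul_of_nonneg_left h1 (by positivity)).trans (le_of_eq ?_)
  have e1 : (Y * d * k) ^ (25 / 16 : ℝ) =
      Y ^ (25 / 16 : ℝ) * (d : ℝ) ^ (25 / 16 : ℝ) * (k : ℝ) ^ (25 / 16 : ℝ) := by
    rw [Real.mul_rpow (by positivity) hk0.le, Real.mul_rpow hY hd0.le]
  have e2 : (d : ℝ) ^ (41 / 16 : ℝ) = (d : ℝ) ^ (25 / 16 : ℝ) * d := by
    conv_rhs => rw [← Real.rpow_one (d : ℝ), ← Real.rpow_mul hd0.le, ← Real.rpow_add hd0]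
    norm_num
  have e3 : (k : ℝ) ^ (25 / 16 + 3 / 4 + 1 / 500 : ℝ) =
      (k : ℝ) ^ (25 / 16 : ℝ) * (k : ℝ) ^ (3 / 4 + 1 / 500 : ℝ) := by
    rw [← Real.rpow_add hk0]
    norm_num
  rw [e1, e2, e3]
  ring

end RemP

open RemP in
theorem stRem (h4 : StGh) (h10 : StRemIn) (hc : StCo) : StRem := by
  obtain ⟨C1, hC1, hGh⟩ := h4
  obtain ⟨C2, hC2, T2, hT2, hIn⟩ := h10
  obtain ⟨T3, hT3, hco⟩ := hc
  obtain ⟨P, hP⟩ : ∃ P : ℕ, 2 * K0 ≤ P := exists_nat_ge _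
  refine ⟨C2, hC2, max (max T2 T3) (max 3 ((P : ℝ) ^ (200 : ℝ))), by
    refine le_trans (le_max_left _ _) (le_max_right _ _), fun T hT X hX1 hX2 a c hae hc1 hc2 ν b hb => ?_⟩
  have hTa : T2 ≤ T := ((le_max_left _ _).trans (le_max_left _ _)).trans hT
  have hTb : T3 ≤ T := ((le_max_right _ _).trans (le_max_left _ _)).trans hT
  have hTP : (P : ℝ) ^ (200 : ℝ) ≤ T := ((le_max_right _ _).trans (le_max_right _ _)).trans hT
  have hT3' : 3 ≤ T := hT3.trans hTb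
  have hT0 : 0 < T := by linarith
  have hT1 : 1 ≤ T := by linarith
  have hXX : 1 ≤ X := (Real.one_le_rpow hT1 (by norm_num)).trans hX1
  have hX0 : 0 < X := by linarith
  obtain ⟨hz, hs1, -, -, hsw, -⟩ := hco T hTb ν b hb
  have hG : ∀ e : ℤ, e = 1 ∨ e = -1 → ∀ l : ℝ, l ≠ 0 → ‖Gh X a c e l‖ ≤
      Real.exp (C1 * (‖a‖ + ‖c‖)) * X ^ (-(25 / 8) : ℝ) / l ^ 2 := by
    intro e he l hl
    exact ((hGh X hXX a c hae hc1 hc2 e he).2.2 l hl).1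
  have hsum : ∑ h ∈ Finset.Icc 1 (Nh T), ∑ k ∈ Finset.Icc 1 (Nh T), cH T ν b h *
      (starRingEnd ℂ) (cH T ν b k) * ((h * k : ℕ) : ℂ) ^ (a - 1) * Rm X a c h k =
      ∑ d ∈ Finset.Icc 1 (Na T), ∑ k ∈ Finset.Icc 1 (Nh T), b d *
        (starRingEnd ℂ) (cH T ν b k) * ∑ n ∈ Finset.Icc 1 ⌊T⌋₊,
          qc T ν n * ((n * d * k : ℕ) : ℂ) ^ (a - 1) * Rm X a c (n * d) k := by
    have h1 : ∑ h ∈ Finset.Icc 1 (Nh T), ∑ k ∈ Finset.Icc 1 (Nh T), cH T ν b h *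
        (starRingEnd ℂ) (cH T ν b k) * ((h * k : ℕ) : ℂ) ^ (a - 1) * Rm X a c h k =
        ∑ h ∈ Finset.Icc 1 (Nh T), cH T ν b h * ∑ k ∈ Finset.Icc 1 (Nh T),
        (starRingEnd ℂ) (cH T ν b k) * ((h * k : ℕ) : ℂ) ^ (a - 1) * Rm X a c h k := by
      refine Finset.sum_congr rfl fun h _ => ?_
      rw [Finset.mul_sum]
      refine Finset.sum_congr rfl fun k _ => ?_
      ring
    rw [h1, hsw]
    refine Finset.sum_congr rfl fun d _ => ?_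
    simp_rw [Finset.mul_sum]
    rw [Finset.sum_comm]
    refine Finset.sum_congr rfl fun k _ => ?_
    refine Finset.sum_congr rfl fun n _ => ?_
    ring
  rw [hsum]
  have htot := total (X := X) (c := c) hae hG (fun n => qc T ν n) b
    (fun k => (starRingEnd ℂ) (cH T ν b k)) ⌊T⌋₊ (Na T) (Nh T)
    (Real.exp (C2 * (‖a‖ + ‖c‖)) * (1 + |ν|) * X ^ (-(25 / 8) : ℝ)) (T ^ (501 / 1000 : ℝ))
    (by positivity) (fun e he d k R hd hk hR j hj => by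
      refine (hIn T hTa X hXX a c hae hc1 hc2 e he ν d k R hd hk hR j hj).trans (le_of_eq ?_)
      ring)
  refine htot.trans ?_
  -- the sums over `d` and `k`
  have hd : ∑ d ∈ Finset.Icc 1 (Na T), ‖b d‖ * (d : ℝ) ^ (41 / 16 : ℝ) ≤
      T ^ (1 / 1000 : ℝ) * T ^ (41 / 16000 : ℝ) := by
    have h1 : ∀ d ∈ Finset.Icc 1 (Na T), ‖b d‖ * (d : ℝ) ^ (41 / 16 : ℝ) ≤
        ‖b d‖ * T ^ (41 / 16000 : ℝ) := by
      intro d hd
      rw [Finset.mem_Icc] at hd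
      refine mul_le_mul_of_nonneg_left ?_ (norm_nonneg _)
      have h2 : (d : ℝ) ≤ T ^ (1 / 1000 : ℝ) :=
        (Nat.cast_le.mpr hd.2).trans (Nat.floor_le (by positivity))
      calc (d : ℝ) ^ (41 / 16 : ℝ) ≤ (T ^ (1 / 1000 : ℝ)) ^ (41 / 16 : ℝ) :=
            Real.rpow_le_rpow (Nat.cast_nonneg _) h2 (by norm_num)
        _ = T ^ (41 / 16000 : ℝ) := by
            rw [← Real.rpow_mul hT0.le]; norm_num
    refine (Finset.sum_le_sum h1).trans ?_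
    rw [← Finset.sum_mul]
    exact mul_le_mul_of_nonneg_right hb.2 (by positivity)
  have hk : ∑ k ∈ Finset.Icc 1 (Nh T), ‖(starRingEnd ℂ) (cH T ν b k)‖ *
      ((T ^ (501 / 1000 : ℝ) / k + 1) * (k : ℝ) ^ (25 / 16 + 3 / 4 + 1 / 500 : ℝ)) ≤
      T ^ (502 / 1000 : ℝ) * (2 * T ^ (502 / 1000 * (25 / 16 + 3 / 4 + 1 / 500) : ℝ)) := by
    have h1 : ∀ k ∈ Finset.Icc 1 (Nh T), ‖(starRingEnd ℂ) (cH T ν b k)‖ *
        ((T ^ (501 / 1000 : ℝ) / k + 1) * (k : ℝ) ^ (25 / 16 + 3 / 4 + 1 / 500 : ℝ)) ≤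
        ‖cH T ν b k‖ * (2 * T ^ (502 / 1000 * (25 / 16 + 3 / 4 + 1 / 500) : ℝ)) := by
      intro k hk
      rw [Finset.mem_Icc] at hk
      have hk0 : (0 : ℝ) < k := by exact_mod_cast hk.1
      rw [RCLike.norm_conj]
      by_cases hkT : T ^ (502 / 1000 : ℝ) < k
      · rw [hz k hkT]; simp
      · refine mul_le_mul_of_nonneg_left ?_ (norm_nonneg _)
        rw [not_lt] at hkT
        have e1 : (T ^ (501 / 1000 : ℝ) / k + 1) * (k : ℝ) ^ (25 / 16 + 3 / 4 + 1 / 500 : ℝ) =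
            T ^ (501 / 1000 : ℝ) * (k : ℝ) ^ (25 / 16 + 3 / 4 + 1 / 500 - 1 : ℝ) +
              (k : ℝ) ^ (25 / 16 + 3 / 4 + 1 / 500 : ℝ) := by
          rw [Real.rpow_sub hk0, Real.rpow_one]
          field_simp
        have e2 : (k : ℝ) ^ (25 / 16 + 3 / 4 + 1 / 500 : ℝ) ≤
            T ^ (502 / 1000 * (25 / 16 + 3 / 4 + 1 / 500) : ℝ) := by
          rw [Real.rpow_mul hT0.le]
          exact Real.rpow_le_rpow hk0.le hkT (by norm_num)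
        have e3 : (k : ℝ) ^ (25 / 16 + 3 / 4 + 1 / 500 - 1 : ℝ) ≤
            T ^ (502 / 1000 * (25 / 16 + 3 / 4 + 1 / 500 - 1) : ℝ) := by
          rw [Real.rpow_mul hT0.le]
          exact Real.rpow_le_rpow hk0.le hkT (by norm_num)
        have e4 : T ^ (501 / 1000 : ℝ) * T ^ (502 / 1000 * (25 / 16 + 3 / 4 + 1 / 500 - 1) : ℝ) ≤
            T ^ (502 / 1000 * (25 / 16 + 3 / 4 + 1 / 500) : ℝ) := by
          rw [← Real.rpow_add hT0]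
          exact Real.rpow_le_rpow_of_exponent_le hT1 (by norm_num)
        rw [e1]
        have e5 : T ^ (501 / 1000 : ℝ) * (k : ℝ) ^ (25 / 16 + 3 / 4 + 1 / 500 - 1 : ℝ) ≤
            T ^ (501 / 1000 : ℝ) * T ^ (502 / 1000 * (25 / 16 + 3 / 4 + 1 / 500 - 1) : ℝ) :=
          mul_le_mul_of_nonneg_left e3 (by positivity)
        linarith
    refine (Finset.sum_le_sum h1).trans ?_
    rw [← Finset.sum_mul]
    exact mul_le_mul_of_nonneg_right hs1 (by positivity)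
  have hXp : X ^ (-(25 / 8) : ℝ) ≤ T ^ (-(999 / 1000 * (25 / 8)) : ℝ) := by
    rw [show (-(999 / 1000 * (25 / 8)) : ℝ) = 999 / 1000 * (-(25 / 8)) by ring,
      Real.rpow_mul hT0.le]
    exact Real.rpow_le_rpow_of_nonpos (by positivity) hX1 (by norm_num)
  have hP2 : (P : ℝ) ≤ T ^ (1 / 200 : ℝ) := by
    calc (P : ℝ) = ((P : ℝ) ^ (200 : ℝ)) ^ (1 / 200 : ℝ) := by
          rw [← Real.rpow_mul (Nat.cast_nonneg _)]; norm_num
      _ ≤ T ^ (1 / 200 : ℝ) := Real.rpow_le_rpow (by positivity) hTP (by norm_num)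
  have hK := K0_nonneg
  calc K0 * (Real.exp (C2 * (‖a‖ + ‖c‖)) * (1 + |ν|) * X ^ (-(25 / 8) : ℝ)) *
        (T ^ (501 / 1000 : ℝ)) ^ (25 / 16 : ℝ) *
        ((∑ d ∈ Finset.Icc 1 (Na T), ‖b d‖ * (d : ℝ) ^ (41 / 16 : ℝ)) *
        ∑ k ∈ Finset.Icc 1 (Nh T), ‖(starRingEnd ℂ) (cH T ν b k)‖ *
          ((T ^ (501 / 1000 : ℝ) / k + 1) *
          (k : ℝ) ^ (25 / 16 + 3 / 4 + 1 / 500 : ℝ))) ≤
      K0 * (Real.exp (C2 * (‖a‖ + ‖c‖)) * (1 + |ν|) * T ^ (-(999 / 1000 * (25 / 8)) : ℝ)) *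
        (T ^ (501 / 1000 : ℝ)) ^ (25 / 16 : ℝ) *
        ((T ^ (1 / 1000 : ℝ) * T ^ (41 / 16000 : ℝ)) *
        (T ^ (502 / 1000 : ℝ) * (2 * T ^ (502 / 1000 * (25 / 16 + 3 / 4 + 1 / 500) : ℝ)))) := by
        gcongr
    _ = (2 * K0) * (Real.exp (C2 * (‖a‖ + ‖c‖)) * (1 + |ν|) *
        T ^ (-(999 / 1000 * (25 / 8)) + 501 / 1000 * (25 / 16) + (1 / 1000 + 41 / 16000) +
          (502 / 1000 + 502 / 1000 * (25 / 16 + 3 / 4 + 1 / 500)) : ℝ)) := by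
        rw [Real.rpow_add hT0, Real.rpow_add hT0, Real.rpow_add hT0, Real.rpow_add hT0,
          Real.rpow_add hT0, ← Real.rpow_mul hT0.le]
        ring
    _ ≤ T ^ (1 / 200 : ℝ) * (Real.exp (C2 * (‖a‖ + ‖c‖)) * (1 + |ν|) *
        T ^ (-(999 / 1000 * (25 / 8)) + 501 / 1000 * (25 / 16) + (1 / 1000 + 41 / 16000) +
          (502 / 1000 + 502 / 1000 * (25 / 16 + 3 / 4 + 1 / 500)) : ℝ)) := by
        gcongr
        exact hP.trans hP2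
    _ = Real.exp (C2 * (‖a‖ + ‖c‖)) * (1 + |ν|) * T ^ (1 / 200 +
        (-(999 / 1000 * (25 / 8)) + 501 / 1000 * (25 / 16) + (1 / 1000 + 41 / 16000) +
          (502 / 1000 + 502 / 1000 * (25 / 16 + 3 / 4 + 1 / 500))) : ℝ) := by
        rw [Real.rpow_add hT0 (1 / 200)]
        ring
    _ ≤ Real.exp (C2 * (‖a‖ + ‖c‖)) * (1 + |ν|) * T ^ (-(6635 / 10000) : ℝ) := by
        refine mul_le_mul_of_nonneg_left ?_ (by positivity)
        exact Real.rpow_le_rpow_of_exponent_le hT1 (by norm_num)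

end F4
end Pool.Agent.Lib.MP_973905_nt
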