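import Pool.Agent.Lib.MP_973905_nt.F4.Defs

/-! Statements (as propositions) of the modules of the project F4 / K1+. -/

namespace Pool.Agent.Lib.MP_973905_nt
namespace F4

open MeasureTheory ProbabilityTheory Complex Filter Topology K1

/-! ### Part N: exponential sums and Poisson summation -/

/-- (N1) Kloosterman sums for every modulus -/
def StKl : Prop := ∃ C : ℝ, 0 < C ∧ ∀ (q : ℕ) [NeZero q] (A : ℤ) (v : ZMod q), A ≠ 0 →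
    ‖MP_0e0027_nt.Kl (A : ZMod q) v‖ ≤ C * |(A : ℝ)| ^ (1 / 4 : ℝ) * (q : ℝ) ^ (3 / 4 + 1 / 1000 : ℝ)

/-- (N2) incomplete sums -/
def StInc : Prop := ∃ C : ℝ, 0 < C ∧ ∀ k d : ℕ, 1 ≤ k → 1 ≤ d → ∀ r j : ℤ, r ≠ 0 → j ≠ 0 → ∀ Y : ℕ,
    ‖∑ n ∈ Finset.Icc 1 Y, rho k (n * d) r j‖ ≤
      C * ((Y : ℝ) / k + 1) * (k : ℝ) ^ (3 / 4 + 1 / 500 : ℝ) * d * |(j : ℝ)| ^ (1 / 4 : ℝ) *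
        |(r : ℝ)| ^ (5 / 4 : ℝ)

/-- (N3) the function `Gz` and its derivatives -/
def StGz : Prop := ∃ C : ℝ, 0 < C ∧ ∀ X : ℝ, 1 ≤ X → ∀ a c : ℂ, a.re = 9 / 16 → 8 ≤ c.re →
    c.re ≤ 16 → ∀ e : ℤ, e = 1 ∨ e = -1 → ContDiff ℝ 3 (Gz X a c e) ∧
    (∀ z : ℝ, z ≤ 2 → Gz X a c e z = 0) ∧
    ∀ i : ℕ, i ≤ 3 → ∀ z : ℝ, 2 ≤ z → ‖iteratedDeriv i (Gz X a c e) z‖ ≤
      Real.exp (C * (‖a‖ + ‖c‖)) * z ^ (-(17 / 8) - i : ℝ) * (1 + X / z) ^ (-8 : ℝ)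

/-- (N4) its Fourier transform -/
def StGh : Prop := ∃ C : ℝ, 0 < C ∧ ∀ X : ℝ, 1 ≤ X → ∀ a c : ℂ, a.re = 9 / 16 → 8 ≤ c.re →
    c.re ≤ 16 → ∀ e : ℤ, e = 1 ∨ e = -1 → ContDiff ℝ 1 (Gh X a c e) ∧
    (∀ l : ℝ, ‖Gh X a c e l‖ ≤ Real.exp (C * (‖a‖ + ‖c‖)) * X ^ (-(9 / 8) : ℝ)) ∧
    ∀ l : ℝ, l ≠ 0 → ‖Gh X a c e l‖ ≤ Real.exp (C * (‖a‖ + ‖c‖)) * X ^ (-(25 / 8) : ℝ) / l ^ 2 ∧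
      ‖deriv (Gh X a c e) l‖ * |l| ≤ Real.exp (C * (‖a‖ + ‖c‖)) * X ^ (-(25 / 8) : ℝ) / l ^ 2

/-- (N5) Poisson summation in an arithmetic progression -/
def StPoi : Prop := ∀ X : ℝ, 1 ≤ X → ∀ a c : ℂ, a.re = 9 / 16 → 8 ≤ c.re → c.re ≤ 16 →
    ∀ e : ℤ, e = 1 ∨ e = -1 → ∀ h k R : ℕ, 1 ≤ h → 1 ≤ k → 1 ≤ R →
    Summable (fun j : ℤ => rho k h (e * R) j * Gh X a c e (j * R / (h * k))) ∧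
    (∑' m : ℕ, if (k : ℤ) ∣ (m : ℤ) * h - e * R then Gz X a c e (m * h / R) else 0) =
      ((R / (h * k) : ℝ) : ℂ) * ∑' j : ℤ, rho k h (e * R) j * Gh X a c e (j * R / (h * k))

/-- (N6) an exact integral -/
def StBeta : Prop := ∀ (X : ℝ) (s c : ℂ), 0 < X → 0 < s.re → s.re < c.re →
    IntegrableOn (fun u : ℝ => (u : ℂ) ^ (s - 1) * (KX X c u + KX X c (-u))) (Set.Ioi 0) ∧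
    ∫ u in Set.Ioi (0 : ℝ), (u : ℂ) ^ (s - 1) * (KX X c u + KX X c (-u)) =
      2 * cos (Real.pi * s / 2) * Gamma s * Gamma (c - s) * (X : ℂ) ^ (-s)

/-- (N7) the zero frequency -/
def StZero : Prop := ∃ C : ℝ, 0 < C ∧ ∀ X : ℝ, 1 ≤ X → ∀ a c : ℂ, a.re = 9 / 16 → 8 ≤ c.re →
    c.re ≤ 16 → ‖Gh X a c 1 0 + Gh X a c (-1) 0 -
      2 * cos (Real.pi * a) * Gamma (2 * a) * Gamma (c - 2 * a) * (X : ℂ) ^ (-(2 * a))‖ ≤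
      Real.exp (C * (‖a‖ + ‖c‖)) * X ^ (-(17 / 8) : ℝ)

/-- (N8) diagonal and off-diagonal terms of the double series -/
def StOff : Prop := ∃ C : ℝ, 0 < C ∧ ∀ X : ℝ, 1 ≤ X → ∀ a c : ℂ, a.re = 9 / 16 → 8 ≤ c.re →
    c.re ≤ 16 → ∀ h k : ℕ, 1 ≤ h → 1 ≤ k →
    (Summable fun p : ℕ × ℕ => ‖((p.1 * p.2 : ℕ) : ℂ) ^ (-(1 / 2 + a)) *
      KX X c (Real.log ((p.1 * h : ℕ) / (p.2 * k : ℕ) : ℝ))‖) ∧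
    ‖Fp X a c h k - Gamma c * (riemannZeta (1 + 2 * a) *
        ((h / h.gcd k * (k / h.gcd k) : ℕ) : ℂ) ^ (-(1 / 2 + a))) -
      ∑ e ∈ ({1, -1} : Finset ℤ), ∑' R : ℕ,
        (((((R + 1 : ℕ) : ℝ) ^ 2 / (h * k) : ℝ) : ℂ) ^ (-(1 / 2 + a)) *
        ∑' m : ℕ, if (k : ℤ) ∣ (m : ℤ) * h - e * ((R + 1 : ℕ) : ℤ) then
          Gz X a c e (m * h / ((R + 1 : ℕ) : ℝ)) else 0)‖ ≤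
      Real.exp (C * (‖a‖ + ‖c‖)) * X ^ (-8 : ℝ)

/-- (N9) the double series of a pair -/
def StPair : Prop := ∃ C : ℝ, 0 < C ∧ ∀ X : ℝ, 1 ≤ X → ∀ a c : ℂ, a.re = 9 / 16 → 8 ≤ c.re →
    c.re ≤ 16 → ∀ h k : ℕ, 1 ≤ h → 1 ≤ k →
    ‖Fp X a c h k - Gamma c * (riemannZeta (1 + 2 * a) *
        ((h / h.gcd k * (k / h.gcd k) : ℕ) : ℂ) ^ (-(1 / 2 + a))) -
      ((X / (2 * Real.pi) : ℝ) : ℂ) ^ (-(2 * a)) * (Gamma (c - 2 * a) * (riemannZeta (1 - 2 * a) *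
        ((h / h.gcd k * (k / h.gcd k) : ℕ) : ℂ) ^ (-(1 / 2 - a)))) -
      ((h * k : ℕ) : ℂ) ^ (-(1 / 2 - a)) * Rm X a c h k‖ ≤
      Real.exp (C * (‖a‖ + ‖c‖)) * (X ^ (-8 : ℝ) +
        ((h / h.gcd k * (k / h.gcd k) : ℕ) : ℝ) ^ (1 / 16 : ℝ) * X ^ (-(17 / 8) : ℝ))

/-- (N10) one frequency, sum over the smooth variable -/
def StRemIn : Prop := ∃ C : ℝ, 0 < C ∧ ∃ T₀ : ℝ, 3 ≤ T₀ ∧ ∀ T, T₀ ≤ T → ∀ X : ℝ, 1 ≤ X →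
    ∀ a c : ℂ, a.re = 9 / 16 → 8 ≤ c.re → c.re ≤ 16 → ∀ e : ℤ, e = 1 ∨ e = -1 →
    ∀ (ν : ℝ) (d k R : ℕ), 1 ≤ d → 1 ≤ k → 1 ≤ R → ∀ j : ℤ, j ≠ 0 →
    ‖∑ n ∈ Finset.Icc 1 ⌊T⌋₊, qc T ν n * ((n * d * k : ℕ) : ℂ) ^ (a - 1) *
      (rho k (n * d) (e * R) j * Gh X a c e (j * R / ((n * d : ℕ) * k)))‖ ≤
      Real.exp (C * (‖a‖ + ‖c‖)) * (1 + |ν|) * X ^ (-(25 / 8) : ℝ) *
        (T ^ (501 / 1000 : ℝ) * d * k) ^ (25 / 16 : ℝ) * (T ^ (501 / 1000 : ℝ) / k + 1) *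
        (k : ℝ) ^ (3 / 4 + 1 / 500 : ℝ) * d * |(j : ℝ)| ^ (-(7 / 4) : ℝ) * (R : ℝ) ^ (-(3 / 4) : ℝ)

/-- (N11) all nonzero frequencies together -/
def StRem : Prop := ∃ C : ℝ, 0 < C ∧ ∃ T₀ : ℝ, 3 ≤ T₀ ∧ ∀ T, T₀ ≤ T → ∀ X : ℝ,
    T ^ (999 / 1000 : ℝ) ≤ X → X ≤ T ^ (1 + 1 / 10000 : ℝ) → ∀ a c : ℂ, a.re = 9 / 16 → 8 ≤ c.re → c.re ≤ 16 →
    ∀ (ν : ℝ) (b : ℕ → ℂ), Sh T b →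
    ‖∑ h ∈ Finset.Icc 1 (Nh T), ∑ k ∈ Finset.Icc 1 (Nh T), cH T ν b h *
      (starRingEnd ℂ) (cH T ν b k) * ((h * k : ℕ) : ℂ) ^ (a - 1) * Rm X a c h k‖ ≤
      Real.exp (C * (‖a‖ + ‖c‖)) * (1 + |ν|) * T ^ (-(6635 / 10000) : ℝ)

/-! ### Part Z: the twisted second moment -/

/-- (Z1) expansion into double series -/
def StExpand : Prop := ∀ (X : ℝ) (a c : ℂ), 1 ≤ X → a.re = 9 / 16 → 8 ≤ c.re → ∀ (N : ℕ)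
    (b : ℕ → ℂ), Jt X c N b a = ∑ h ∈ Finset.Icc 1 N, ∑ k ∈ Finset.Icc 1 N,
      b h * (starRingEnd ℂ) (b k) * ((h * k : ℕ) : ℂ) ^ (-(1 / 2 : ℂ)) * Fp X a c h k

/-- (Z2) simple facts on the coefficients of the product polynomial -/
def StCo : Prop := ∃ T₀ : ℝ, 3 ≤ T₀ ∧ ∀ T, T₀ ≤ T → ∀ (ν : ℝ) (b : ℕ → ℂ), Sh T b →
    (∀ n : ℕ, T ^ (502 / 1000 : ℝ) < n → cH T ν b n = 0) ∧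
    ∑ n ∈ Finset.Icc 1 (Nh T), ‖cH T ν b n‖ ≤ T ^ (502 / 1000 : ℝ) ∧
    ∑ n ∈ Finset.Icc 1 (Nh T), ‖cH T ν b n‖ * (n : ℝ) ^ (-(1 / 2) : ℝ) ≤
      T ^ (252 / 1000 : ℝ) ∧
    ∑ n ∈ Finset.Icc 1 (Nh T), ‖cH T ν b n‖ * (n : ℝ) ^ (-(7 / 16) : ℝ) ≤
      T ^ (284 / 1000 : ℝ) ∧
    (∀ Φ : ℕ → ℂ, ∑ n ∈ Finset.Icc 1 (Nh T), cH T ν b n * Φ n =
      ∑ d ∈ Finset.Icc 1 (Na T), ∑ n ∈ Finset.Icc 1 ⌊T⌋₊, b d * (qc T ν n * Φ (n * d))) ∧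
    (∀ f : ℕ → ℂ, CMul f → ∑ n ∈ Finset.Icc 1 (Nh T), cH T ν b n * f n =
      (∑ n ∈ Finset.Icc 1 ⌊T⌋₊, qc T ν n * f n) * ∑ d ∈ Finset.Icc 1 (Na T), b d * f d)

/-- (Z3) right edge `Re a = 9/16` -/
def StRight4 : Prop := ∃ C : ℝ, 0 < C ∧ ∃ T₀ : ℝ, 3 ≤ T₀ ∧ ∀ T, T₀ ≤ T → ∀ X : ℝ,
    T ^ (999 / 1000 : ℝ) ≤ X → X ≤ T ^ (1 + 1 / 10000 : ℝ) → ∀ a c : ℂ, a.re = 9 / 16 → 8 ≤ c.re → c.re ≤ 16 →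
    ∀ (ν : ℝ) (b : ℕ → ℂ), Sh T b →
    ‖Jt X c (Nh T) (cH T ν b) a - Mt X c (Nh T) (cH T ν b) a‖ ≤
      Real.exp (C * (‖a‖ + ‖c‖)) * (1 + |ν|) * T ^ (-(6625 / 10000) : ℝ)

/-- (Z4) left edge `Re a = -9/16` -/
def StLeft4 : Prop := ∃ C : ℝ, 0 < C ∧ ∀ X : ℝ, 1 ≤ X → ∀ a c : ℂ, a.re = 9 / 16 → 8 ≤ c.re →
    c.re ≤ 16 → ∀ (N : ℕ) (b : ℕ → ℂ) (B : ℝ), (∀ t : ℝ, ‖HP N b t‖ ≤ B) →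
    ‖Jt X c N b (-a) - ((X / (2 * Real.pi) : ℝ) : ℂ) ^ (2 * a) * Jt X (c + 2 * a) N b a‖ ≤
      Real.exp (C * (‖a‖ + ‖c‖)) * B ^ 2 * X ^ (1 / 8 : ℝ)

/-- (Z5) polynomial growth in a wider strip -/
def StGrow : Prop := ∃ C : ℝ, 0 < C ∧ ∀ s : ℂ, -(1 / 8) ≤ s.re → s.re ≤ 10 →
    ‖riemannZeta₁ s‖ ≤ C * (1 + |s.im|) ^ 3

/-- (Z6) the function `Js` -/
def StStrip4 : Prop := (∀ X : ℝ, 1 ≤ X → ∀ c : ℂ, 8 ≤ c.re → ∀ (N : ℕ) (b : ℕ → ℂ),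
      DifferentiableOn ℂ (Js X c N b) {a : ℂ | |a.re| < 5 / 8}) ∧
    (∀ X : ℝ, 1 ≤ X → ∀ c : ℂ, 8 ≤ c.re → ∀ (N : ℕ) (b : ℕ → ℂ), ∃ D : ℝ, ∀ a : ℂ,
      |a.re| ≤ 9 / 16 → ‖Js X c N b a‖ ≤ D * Real.exp ‖a‖) ∧
    ∀ X : ℝ, 1 ≤ X → ∀ c : ℂ, 10 ≤ c.re → ∀ (N : ℕ) (b : ℕ → ℂ) (a : ℂ), |a.re| ≤ 9 / 16 →
      a.re ≠ 1 / 2 → a.re ≠ -(1 / 2) →
      Js X c N b a = Jt X c N b a + (1 / 2 - a) ^ 2 * ((X : ℂ) ^ 2)⁻¹ * Jt X (c - 2) N b a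

/-- (Z7) three lines -/
def StThree : Prop := ∃ C : ℝ, 0 < C ∧ ∃ T₀ : ℝ, 3 ≤ T₀ ∧ ∀ T, T₀ ≤ T → ∀ X : ℝ,
    T ^ (999 / 1000 : ℝ) ≤ X → X ≤ T ^ (1 + 1 / 10000 : ℝ) → ∀ (ν : ℝ) (b : ℕ → ℂ), Sh T b →
    ‖Js X 12 (Nh T) (cH T ν b) 0 -
      Real.circleAverage (Ms X 12 (Nh T) (cH T ν b)) 0 (1 / Real.log T)‖ ≤
      C * (1 + |ν|) * T ^ (-(1 / 100) : ℝ)

/-- (Z8) upper bound for the twisted second moment, twists a bit longer than `T^{1/2}` -/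
def StTwist : Prop := ∃ C : ℝ, 0 < C ∧ ∃ T₀ : ℝ, 3 ≤ T₀ ∧ ∀ T, T₀ ≤ T → ∀ X : ℝ,
    T ^ (999 / 1000 : ℝ) ≤ X → X ≤ T ^ (1 + 1 / 10000 : ℝ) → ∀ (ν : ℝ) (b : ℕ → ℂ), Sh T b → ∀ B : ℝ,
    (∀ a : ℂ, ‖a‖ = 1 / Real.log T → ‖ThreeLines.RF (Nh T) (cH T ν b) a‖ ≤ B) →
    IntegrableOn (fun t : ℝ => ‖riemannZeta (1 / 2 + t * I)‖ ^ 2 *
      ‖HP (Nh T) (cH T ν b) t‖ ^ 2 * (X⁻¹ * (t / X) ^ 11 * Real.exp (-(t / X)))) (Set.Ioi 0) ∧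
    ∫ t in Set.Ioi (0 : ℝ), ‖riemannZeta (1 / 2 + t * I)‖ ^ 2 *
      ‖HP (Nh T) (cH T ν b) t‖ ^ 2 * (X⁻¹ * (t / X) ^ 11 * Real.exp (-(t / X))) ≤
      C * Real.log T * B + C * (1 + |ν|) * T ^ (-(1 / 100) : ℝ)

/-! ### Part A: the approximate functional equation as an inequality -/

/-- (A1) the factor of the functional equation far to the right -/
def StFFr : Prop := ∀ r : ℕ, ∃ C : ℝ, 0 < C ∧ ∀ u : ℝ,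
    ‖FF (1 / 2 + 2 * r + u * I)‖ ≤ C * (1 + |u|) ^ (2 * r)

/-- (A2) the square of zeta is bounded by local averages of the square of a polynomial of length
`T^{501/1000}` -/
def StAfe : Prop := ∀ A : ℕ, ∃ C : ℝ, 0 < C ∧ ∃ T₀ : ℝ, 3 ≤ T₀ ∧ ∀ T, T₀ ≤ T → ∀ t : ℝ,
    T ^ (1 / 2 : ℝ) ≤ t → t ≤ 2 * T ^ (1 + 1 / 10000 : ℝ) → ‖riemannZeta (1 / 2 + t * I)‖ ^ 2 ≤
      C * Real.log T * (∫ ν : ℝ, ‖∑ n ∈ Finset.Icc 1 ⌊T⌋₊, qc T ν n * fs (1 / 2 + t * I) n‖ ^ 2 *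
        (((1 + Real.log T * |ν|) ^ A)⁻¹ * Real.exp (-ν ^ 2))) + T ^ (-10 : ℝ)

/-! ### Part R: the random model -/

/-- (R1) fourth power of the Euler product against our polynomials -/
def StRand4 : Prop := ∃ C : ℕ, ∃ M₀ : ℕ, ∀ M : ℕ, M₀ ≤ M → ∃ T₀ : ℝ, 3 ≤ T₀ ∧ ∀ T, T₀ ≤ T →
    ∀ k : ℝ, 1 ≤ k → k ≤ 2 → ∀ g h : Finset ℕ, g ∪ h = Finset.range (JJ T + 1) →
    ∀ z : ℂ, -1 ≤ z.re →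
    ER (SB T M (JJ T)) (fun f =>
        ‖ZZ (UU (SB T M (JJ T))) (tw ((1 / 2 : ℂ) + z / Real.log T) f)‖ ^ 4 *
        ‖AA T M (JJ T) (k - 2) g h (tw (1 / 2) f)‖ ^ 2) ≤
      Real.exp (C * M) * (1 + ‖z‖) ^ C * (Real.log T) ^ (k ^ 2) * ∏ j ∈ h, ss M (JJ T) j

/-- (R2) Fourier bound for the smooth polynomial with a complex twist -/
def StFB4 : Prop := ∃ g : ℝ → ℝ, (∀ ξ, 0 ≤ g ξ) ∧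
    (∀ n : ℕ, Integrable (fun ξ => g ξ * (1 + |ξ|) ^ n)) ∧
    ∀ (m : ℕ) (Sb : Fin m → Finset ℕ), Blk Sb → ∀ T : ℝ, 1 < T →
    (∀ n : ℕ, 1 ≤ n → (n : ℝ) ≤ T → n ∈ Nat.factoredNumbers (UU Sb)) → ∀ w : ℂ, 0 < w.re →
    ∀ B : (ℕ → ℂ) → ℂ, BC Sb B →
    ER Sb (fun f => ‖FourG.SG Vc T (tw w f)‖ ^ 4 * ‖B f‖ ^ 2) ≤
      ∫ ξ : ℝ, g ξ * ER Sb (fun f =>
        ‖ZZ (UU Sb) (tw (w + (1 - 2 * Real.pi * ξ * I) / Real.log T) f)‖ ^ 4 * ‖B f‖ ^ 2) ∧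
    Integrable (fun ξ : ℝ => g ξ * ER Sb (fun f =>
        ‖ZZ (UU Sb) (tw (w + (1 - 2 * Real.pi * ξ * I) / Real.log T) f)‖ ^ 4 * ‖B f‖ ^ 2))

/-- (R3) the arithmetic factor of our product polynomials -/
def StMain4 : Prop := ∃ C : ℕ, ∃ M₀ : ℕ, ∀ M : ℕ, M₀ ≤ M → ∃ T₀ : ℝ, 3 ≤ T₀ ∧ ∀ T, T₀ ≤ T →
    ∀ k : ℝ, 1 ≤ k → k ≤ 2 → ∀ g h : Finset ℕ, g ∪ h = Finset.range (JJ T + 1) →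
    ∀ b : ℕ → ℂ, Sh T b → (∀ f : ℕ → ℂ, CMul f → AA T M (JJ T) (k - 2) g h f =
      ∑ n ∈ Finset.Icc 1 (Na T), b n * f n) → ∀ (ν : ℝ) (a : ℂ), ‖a‖ = 1 / Real.log T →
    ‖ThreeLines.RF (Nh T) (cH T ν b) a‖ ≤ Real.exp (C * M) * (1 + Real.log T * |ν|) ^ C *
      (Real.log T) ^ (k ^ 2 - 1) * ∏ j ∈ h, ss M (JJ T) j

/-! ### Part F: the mollified fourth moment -/

/-- (F1) crude bound for the fourth moment of zeta -/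
def StCr4 : Prop := ∃ T₀ : ℝ, 3 ≤ T₀ ∧ ∀ T, T₀ ≤ T →
    ∫ t in (0 : ℝ)..T, ‖riemannZeta (1 / 2 + t * I)‖ ^ 4 ≤ T ^ (1 + 1 / 10000 : ℝ)

/-- (F2) the mollified fourth moment on a dyadic interval -/
def StDy : Prop := ∃ C κ : ℝ, 0 < C ∧ 0 < κ ∧ ∃ M₀ : ℕ, ∀ M : ℕ, M₀ ≤ M → ∃ T₀ : ℝ, 3 ≤ T₀ ∧
    ∀ T, T₀ ≤ T → ∀ X : ℝ, T ^ (999 / 1000 : ℝ) ≤ X → X ≤ T ^ (1 + 1 / 10000 : ℝ) →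
    ∀ k : ℝ, 1 ≤ k → k ≤ 2 → ∀ g h : Finset ℕ, g ∪ h = Finset.range (JJ T + 1) →
    ∫ t in X..(2 * X), ‖riemannZeta (1 / 2 + t * I)‖ ^ 4 *
      ‖AA T M (JJ T) (k - 2) g h (fs (1 / 2 + t * I))‖ ^ 2 ≤
      X * (Real.exp (C * M) * (Real.log T) ^ (k ^ 2) * ∏ j ∈ h, ss M (JJ T) j + T ^ (-κ))

/-- (F3) the mollified fourth moment on `[0, T]` -/
def StF4 : Prop := ∃ C κ : ℝ, 0 < C ∧ 0 < κ ∧ ∃ M₀ : ℕ, ∀ M : ℕ, M₀ ≤ M → ∃ T₀ : ℝ, 3 ≤ T₀ ∧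
    ∀ T, T₀ ≤ T → ∀ k : ℝ, 1 ≤ k → k ≤ 2 → ∀ g h : Finset ℕ, g ∪ h = Finset.range (JJ T + 1) →
    T⁻¹ * ∫ t in (0 : ℝ)..T, ‖riemannZeta (1 / 2 + t * I)‖ ^ 4 *
      ‖AA T M (JJ T) (k - 2) g h (fs (1 / 2 + t * I))‖ ^ 2 ≤
      Real.exp (C * M) * (Real.log T) ^ (k ^ 2) * ∏ j ∈ h, ss M (JJ T) j + T ^ (-κ)

/-! ### Part G: the theorem -/

/-- (G1) upper bound, `k → 1+` -/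
def StUpperR : Prop := ∀ ε : ℝ, 0 < ε → ∃ k₁ : ℝ, 1 < k₁ ∧ ∃ T₀ : ℝ, 3 ≤ T₀ ∧ ∀ T, T₀ ≤ T →
    ∀ k : ℝ, 1 ≤ k → k ≤ k₁ →
    T⁻¹ * ∫ t in (0 : ℝ)..T, ‖riemannZeta (1 / 2 + t * I)‖ ^ (2 * k) ≤
      (1 + ε) * (Real.log T) ^ (k ^ 2)

/-- (G2) the Keating-Snaith formula in the joint limit `T → ∞`, `k → 1` -/
def StFinal2 : Prop := ∀ ε : ℝ, 0 < ε → ∃ δ : ℝ, 0 < δ ∧ δ < 1 ∧ ∃ T₀ : ℝ, 3 ≤ T₀ ∧ ∀ T, T₀ ≤ T →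
    ∀ k : ℝ, |k - 1| ≤ δ →
    |(T⁻¹ * ∫ t in (0 : ℝ)..T, ‖riemannZeta (1 / 2 + t * I)‖ ^ (2 * k)) /
      (cK k * (Real.log T) ^ (k ^ 2)) - 1| ≤ ε

end F4
end Pool.Agent.Lib.MP_973905_nt
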